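import Pool.Agent.LibSym94.EVEN
import Pool.Agent.LibUB33.Loci

/-!
# The main theorem
-/

open Matrix Filter Topology Polynomial UpperHalfPlane
open scoped MatrixGroups ComplexConjugate
open Pool.Agent.LibUB33 (Curve ee)
open Pool.Agent.LibEis68 (form act)

namespace Pool.Agent.LibSym94

variable {k : ℕ} {X : Curve}

/-- A split variation has no atypical points. -/
theorem Variation.split_atypical (V : Variation k X) (hk : 1 ≤ k) (h : V.Split) :
    V.atypicalLocus = ∅ := by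
  obtain ⟨r, hr⟩ := h
  have hrat : ∀ z, RatVec (V.v z) := fun z => ⟨r, hr z⟩
  have hdims : ∀ z : ℍ, (¬ LibEis68.IsCM (V.τ z : ℂ) → V.mtDim z = 4 ∧ V.domDim z = 1) ∧
      (LibEis68.IsCM (V.τ z : ℂ) → V.mtDim z = 2 ∧ V.domDim z = 0) := by
    intro z
    refine ⟨fun hc => ?_, fun hc => ?_⟩
    · exact dims_rat_noncm hk (e := fun _ => V.v z) (V.τ z).im_pos hc (hrat z)
    · exact dims_rat_cm hk (e := fun _ => V.v z) (V.τ z).im_pos hc (hrat z)
  have hle : ∀ z, V.mtDim z ≤ 4 ∧ V.domDim z ≤ 1 := by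
    intro z
    by_cases hc : LibEis68.IsCM (V.τ z : ℂ)
    · have := (hdims z).2 hc; omega
    · have := (hdims z).1 hc; omega
  obtain ⟨z₀, hz₀⟩ := V.pure.exists_not_cm
  have h0 := (hdims z₀).1 hz₀
  have hg1 : V.genericMtDim = 4 := by
    apply le_antisymm (ciSup_le fun z => (hle z).1)
    calc 4 = V.mtDim z₀ := h0.1.symm
      _ ≤ _ := le_ciSup (f := fun z => V.mtDim z) ⟨4, by rintro _ ⟨z, rfl⟩; exact (hle z).1⟩ z₀
  have hg2 : V.genericDomDim = 1 := by
    apply le_antisymm (ciSup_le fun z => (hle z).2)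
    calc 1 = V.domDim z₀ := h0.2.symm
      _ ≤ _ := le_ciSup (f := fun z => V.domDim z) ⟨1, by rintro _ ⟨z, rfl⟩; exact (hle z).2⟩ z₀
  ext z
  simp only [Set.mem_empty_iff_false, iff_false]
  rintro ⟨h1, h2⟩
  have h1' : V.mtDim z < V.genericMtDim := h1
  rw [hg1] at h1'
  rw [hg2] at h2
  by_cases hc : LibEis68.IsCM (V.τ z : ℂ)
  · have := (hdims z).2 hc
    omega
  · have := (hdims z).1 hc
    omega

theorem comp_eq_zero_of_rat (V : Variation k X) {z : ℍ} (h : RatVec (V.v z)) (i : Fin (k + 1)) :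
    V.comp z i = 0 := by
  obtain ⟨r, hr⟩ := h
  have h0 := (V.comp_spec z).2.1 0 (by
    funext j
    rw [hr j]
    simp)
  rw [← h0]
  rfl

/-- The Hodge locus. -/
theorem Variation.mem_hodgeLocus (V : Variation k X) (hk : 1 ≤ k) (hns : ¬ V.Split) (z : ℍ) :
    z ∈ V.hodgeLocus ↔ LibEis68.IsCM (V.τ z) ∨ RatVec (V.v z) := by
  obtain ⟨h1, -⟩ := V.generic_dims hk hns
  show V.mtDim z < V.genericMtDim ↔ _
  rw [h1]
  by_cases hc : LibEis68.IsCM (V.τ z : ℂ)
  · have h2 : V.mtDim z ≤ k + 3 := (dims_cm_le hk (fun _ => V.v z) (V.τ z).im_pos hc).1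
    simp only [hc, true_or, iff_true]
    omega
  · by_cases hr : RatVec (V.v z)
    · have h2 : V.mtDim z = 4 :=
        (dims_rat_noncm hk (e := fun _ => V.v z) (V.τ z).im_pos hc hr).1
      simp only [hr, or_true, iff_true]
      omega
    · have h2 : V.mtDim z = k + 5 :=
        (dims_noncm hk (e := fun _ => V.v z) (V.τ z).im_pos hc hr).1
      simp only [hc, hr, or_self, iff_false]
      omega

/-- The atypical points. -/
theorem Variation.of_mem_atypicalLocus (V : Variation k X) (hk : 1 ≤ k) (hns : ¬ V.Split)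
    {z : ℍ} (hz : z ∈ V.atypicalLocus) :
    RatVec (V.v z) ∨ (LibEis68.IsCM (V.τ z) ∧ ∃ i, V.comp z i = 0) := by
  obtain ⟨i, hi⟩ := V.atypical_sub hk hns hz
  rcases (V.mem_hodgeLocus hk hns z).1 hz.1 with h | h
  · exact Or.inr ⟨h, i, hi⟩
  · exact Or.inl h

/-- The main theorem. -/
theorem main (k : ℕ) (hk : 1 ≤ k) (X : Curve) (V : Variation k X) :
    (Odd k → V.atypicalPoints.Finite) ∧
    (Even k → (∃ C : ℝ, (∀ z, C ≤ V.middle z) ∨ ∀ z, V.middle z ≤ C) →
      V.atypicalPoints.Finite) ∧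
    ((fun z : ℍ => (Quotient.mk'' z : X.Pts)) '' {z | z ∈ V.atypicalLocus ∧
      ∀ i : Fin (k + 1), 2 * (i : ℕ) = k → V.comp z i ≠ 0}).Finite ∧
    (V.Split → V.atypicalLocus = ∅) ∧
    (¬ V.Split →
      (∀ i : Fin (k + 1), 2 * (i : ℕ) ≠ k →
        ((fun z : ℍ => (Quotient.mk'' z : X.Pts)) '' {z | V.comp z i = 0}).Finite) ∧
      (∀ z, z ∈ V.hodgeLocus ↔ LibEis68.IsCM (V.τ z) ∨ RatVec (V.v z)) ∧
      ∀ z ∈ V.atypicalLocus,
        RatVec (V.v z) ∨ (LibEis68.IsCM (V.τ z) ∧ ∃ i, V.comp z i = 0)) := by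
  by_cases hs : V.Split
  · have h0 := V.split_atypical hk hs
    have h1 : V.atypicalPoints = ∅ := by
      unfold Variation.atypicalPoints
      rw [h0, Set.image_empty]
    refine ⟨fun _ => ?_, fun _ _ => ?_, ?_, fun _ => h0, fun h => absurd hs h⟩
    · rw [h1]; exact Set.finite_empty
    · rw [h1]; exact Set.finite_empty
    · rw [h0]
      simp
  · refine ⟨(V.atypical_finite hk hs).2, ?_, (V.atypical_finite hk hs).1, fun h => absurd h hs,
      fun _ => ⟨fun i hi => V.zeros_finite hk hs i hi, V.mem_hodgeLocus hk hs,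
        fun _ hz => V.of_mem_atypicalLocus hk hs hz⟩⟩
    rintro he ⟨C, hC⟩
    exact V.atypical_finite_even he hk hs hC

end Pool.Agent.LibSym94
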