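import Pool.Agent.LibSym94.AlgDefs

open Polynomial Matrix

namespace Pool.Agent.LibSym94

/-! ## Rings: bases and derivations -/

section Ring
variable {R : Type*} [CommRing R]

theorem coeff_toP {n : ℕ} (v : Fin n → R) (i : Fin n) : (toP v).coeff i = v i := by
  classical
  unfold toP
  rw [finsetSum_coeff]
  rw [Finset.sum_eq_single i]
  · simp
  · intro j _ hj
    rw [coeff_C_mul, coeff_X_pow, if_neg, mul_zero]
    intro h
    exact hj (Fin.ext h.symm)
  · intro h
    exact absurd (Finset.mem_univ i) h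

theorem natDegree_toP_lt {n : ℕ} (hn : 0 < n) (v : Fin n → R) : (toP v).natDegree < n := by
  unfold toP
  have h : (∑ j : Fin n, C (v j) * X ^ (j : ℕ)).natDegree ≤ n - 1 := by
    refine natDegree_sum_le_of_forall_le _ _ ?_
    intro j _
    refine (natDegree_C_mul_X_pow_le _ _).trans ?_
    have := j.isLt
    omega
  omega

theorem toP_injective {n : ℕ} : Function.Injective (toP (R := R) (n := n)) := by
  intro v w h
  funext i
  rw [← coeff_toP v i, h, coeff_toP]

theorem ALG1_natDegree (k : ℕ) (s t : R) {i : ℕ} (hi : i ≤ k) :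
    ((X - C s) ^ i * (X - C t) ^ (k - i) : R[X]).natDegree ≤ k := by
  refine natDegree_mul_le.trans ?_
  have h1 : ((X - C s) ^ i : R[X]).natDegree ≤ i * 1 :=
    natDegree_pow_le_of_le _ (natDegree_X_sub_C_le s)
  have h2 : ((X - C t) ^ (k - i) : R[X]).natDegree ≤ (k - i) * 1 :=
    natDegree_pow_le_of_le _ (natDegree_X_sub_C_le t)
  omega

theorem toP_frm (k : ℕ) (s t : R) {i : ℕ} (hi : i ≤ k) :
    toP (frm k s t i) = (X - C s) ^ i * (X - C t) ^ (k - i) := by
  ext m
  by_cases hm : m < k + 1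
  · have h := coeff_toP (frm k s t i) ⟨m, hm⟩
    simp only at h
    rw [h]
    rfl
  · rw [coeff_eq_zero_of_natDegree_lt, coeff_eq_zero_of_natDegree_lt]
    · have := ALG1_natDegree k s t hi
      omega
    · have := natDegree_toP_lt (Nat.succ_pos k) (frm k s t i)
      omega

theorem ALG2_indep {s t : R} (h : IsUnit (s - t)) : ∀ (k : ℕ) (c : ℕ → R),
    (∑ l ∈ Finset.range (k + 1), C (c l) * ((X - C s) ^ l * (X - C t) ^ (k - l)) : R[X]) = 0 →
    ∀ l ≤ k, c l = 0 := by
  intro k
  induction k with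
  | zero =>
    intro c hc l hl
    obtain rfl : l = 0 := by omega
    have : (C (c 0) : R[X]) = 0 := by simpa using hc
    exact C_eq_zero.mp this
  | succ k ih =>
    intro c hc
    have h0 : c 0 = 0 := by
      have h1 := congrArg (eval s) hc
      rw [Finset.sum_range_succ'] at h1
      simp only [eval_add, eval_finsetSum, eval_mul, eval_C, eval_pow, eval_sub, eval_X, sub_self,
        eval_zero, pow_zero, one_mul, Nat.sub_zero] at h1
      rw [Finset.sum_eq_zero, zero_add] at h1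
      · exact (h.pow (k + 1)).mul_left_eq_zero.mp h1
      · intro l _
        rw [zero_pow (Nat.succ_ne_zero l)]
        ring
    have h2 : (X - C s) * (∑ l ∈ Finset.range (k + 1),
        C (c (l + 1)) * ((X - C s) ^ l * (X - C t) ^ (k - l)) : R[X]) = 0 := by
      rw [Finset.sum_range_succ', h0] at hc
      simp only [C_0, zero_mul, add_zero] at hc
      rw [← hc, Finset.mul_sum]
      refine Finset.sum_congr rfl fun l _ => ?_
      rw [Nat.add_sub_add_right, pow_succ]
      ring
    have h3 : (∑ l ∈ Finset.range (k + 1),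
        C (c (l + 1)) * ((X - C s) ^ l * (X - C t) ^ (k - l)) : R[X]) = 0 := by
      have hm := (monic_X_sub_C s).isRegular.left
      apply hm
      simpa using h2
    intro l hl
    rcases l with _ | l
    · exact h0
    · exact ih (fun l => c (l + 1)) h3 l (by omega)

theorem ALG2_natDegree (k : ℕ) (s t : R) {i : ℕ} (hi : i ≤ k) :
    ((X - C s) ^ i * (X - C t) ^ (k - i) : R[X]).natDegree ≤ k := by
  refine natDegree_mul_le.trans ?_
  have h1 : ((X - C s) ^ i : R[X]).natDegree ≤ i * 1 :=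
    natDegree_pow_le_of_le _ (natDegree_X_sub_C_le s)
  have h2 : ((X - C t) ^ (k - i) : R[X]).natDegree ≤ (k - i) * 1 :=
    natDegree_pow_le_of_le _ (natDegree_X_sub_C_le t)
  omega

/-- The forms `(X - s)^i (X - t)^(k-i)` are linearly independent if `s - t` is a unit. -/
theorem frm_indep (k : ℕ) {s t : R} (h : IsUnit (s - t)) {c : ℕ → R}
    (hc : ∀ j : Fin (k + 1), ∑ l ∈ Finset.range (k + 1), c l * frm k s t l j = 0) :
    ∀ l ≤ k, c l = 0 := by
  refine ALG2_indep h k c ?_
  ext m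
  rw [finsetSum_coeff, coeff_zero]
  by_cases hm : m < k + 1
  · rw [← hc ⟨m, hm⟩]
    refine Finset.sum_congr rfl fun l _ => ?_
    rw [coeff_C_mul]
    rfl
  · refine Finset.sum_eq_zero fun l hl => ?_
    rw [coeff_C_mul, coeff_eq_zero_of_natDegree_lt, mul_zero]
    have := ALG2_natDegree k s t (Nat.lt_succ_iff.mp (Finset.mem_range.mp hl))
    omega

theorem ALG2_span {s t u : R} (hu : (s - t) * u = 1) : ∀ (k : ℕ) (P : R[X]), P.natDegree ≤ k →
    ∃ c : ℕ → R, (∀ l, k < l → c l = 0) ∧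
      P = ∑ l ∈ Finset.range (k + 1), C (c l) * ((X - C s) ^ l * (X - C t) ^ (k - l)) := by
  intro k
  induction k with
  | zero =>
    intro P hP
    refine ⟨fun l => if l = 0 then P.coeff 0 else 0, fun l hl => if_neg (by omega), ?_⟩
    simpa using eq_C_of_natDegree_le_zero hP
  | succ k ih =>
    intro P hP
    have hq : P.divX.natDegree ≤ k := by
      rw [natDegree_divX_eq_natDegree_tsub_one]
      omega
    obtain ⟨c, hc, hc'⟩ := ih (C (u * (-t)) * P.divX - C (u * P.coeff 0))
      ((natDegree_sub_le _ _).trans (max_le ((natDegree_C_mul_le _ _).trans hq) ((natDegree_C _).le.trans (Nat.zero_le _))))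
    obtain ⟨d, hd, hd'⟩ := ih (C (u * s) * P.divX + C (u * P.coeff 0))
      ((natDegree_add_le _ _).trans (max_le ((natDegree_C_mul_le _ _).trans hq) ((natDegree_C _).le.trans (Nat.zero_le _))))
    refine ⟨fun l => (if l = 0 then 0 else c (l - 1)) + d l, ?_, ?_⟩
    · intro l hl
      have hl0 : l ≠ 0 := by omega
      show (if l = 0 then 0 else c (l - 1)) + d l = 0
      rw [if_neg hl0, hc (l - 1) (by omega), hd l (by omega), add_zero]
    · have e1 : P = (X - C s) * (C (u * (-t)) * P.divX - C (u * P.coeff 0)) +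
          (X - C t) * (C (u * s) * P.divX + C (u * P.coeff 0)) := by
        have hC : (C s - C t) * C u = (1 : R[X]) := by
          rw [← C_sub, ← C_mul, hu, C_1]
        have e2 := divX_mul_X_add P
        simp only [C_mul, C_neg]
        linear_combination (-1 : R[X]) * e2 - (P.divX * X + C (P.coeff 0)) * hC
      have e3 : ∀ l, (C ((if l = 0 then 0 else c (l - 1)) + d l) : R[X]) =
          (if l = 0 then 0 else C (c (l - 1))) + C (d l) := by
        intro l
        split_ifs <;> simp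
      simp only [e3, add_mul, Finset.sum_add_distrib]
      rw [Finset.sum_range_succ' (n := k + 1)]
      simp only [if_neg (Nat.succ_ne_zero _), if_true, zero_mul, add_zero, Nat.add_sub_cancel,
        Nat.add_sub_add_right]
      rw [Finset.sum_range_succ (n := k + 1), hd (k + 1) (by omega)]
      simp only [C_0, zero_mul, add_zero]
      refine e1.trans ?_
      rw [hc', hd', Finset.mul_sum, Finset.mul_sum]
      refine congrArg₂ (· + ·) ?_ ?_
      · refine Finset.sum_congr rfl fun l _ => ?_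
        rw [pow_succ]
        ring
      · refine Finset.sum_congr rfl fun l hl => ?_
        have : l ≤ k := Nat.lt_succ_iff.mp (Finset.mem_range.mp hl)
        rw [show k + 1 - l = (k - l) + 1 by omega, pow_succ]
        ring

/-- The forms `(X - s)^i (X - t)^(k-i)` span if `s - t` is a unit. -/
theorem frm_span (k : ℕ) {s t : R} (h : IsUnit (s - t)) (v : Fin (k + 1) → R) :
    ∃ c : ℕ → R, (∀ l, k < l → c l = 0) ∧
      ∀ j, v j = ∑ l ∈ Finset.range (k + 1), c l * frm k s t l j := by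
  obtain ⟨u, hu⟩ := h.exists_right_inv
  obtain ⟨c, hc, hc'⟩ := ALG2_span hu k (toP v)
    (Nat.lt_succ_iff.mp (natDegree_toP_lt (Nat.succ_pos k) v))
  refine ⟨c, hc, fun j => ?_⟩
  rw [← coeff_toP v j, hc', finsetSum_coeff]
  refine Finset.sum_congr rfl fun l _ => ?_
  rw [coeff_C_mul]
  rfl

theorem ALG3_poly (s t : R) (D : Derivation ℤ R R) (l m j : ℕ) :
    D (((X - C s) ^ l * (X - C t) ^ m).coeff j) =
      -(D s * ((l : R) * ((X - C s) ^ (l - 1) * (X - C t) ^ m).coeff j)) -
        D t * ((m : R) * ((X - C s) ^ l * (X - C t) ^ (m - 1)).coeff j) := by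
  let _ : Differential R := ⟨D⟩
  have hD : ∀ x : R, Differential.mapCoeffs (X - C x) = -C (D x) := by
    intro x
    rw [map_sub, Differential.mapCoeffs_X, Differential.mapCoeffs_C, zero_sub]
    rfl
  have h1 : D (((X - C s) ^ l * (X - C t) ^ m).coeff j) =
      (Differential.mapCoeffs ((X - C s) ^ l * (X - C t) ^ m)).coeff j := rfl
  have h2 : Differential.mapCoeffs ((X - C s) ^ l * (X - C t) ^ m) =
      -(C (D s * (l : R)) * ((X - C s) ^ (l - 1) * (X - C t) ^ m)) -
        C (D t * (m : R)) * ((X - C s) ^ l * (X - C t) ^ (m - 1)) := by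
    rw [Derivation.leibniz, Derivation.leibniz_pow, Derivation.leibniz_pow, hD, hD]
    simp only [smul_eq_mul, nsmul_eq_mul, C_mul, C_eq_natCast]
    ring
  rw [h1, h2, coeff_sub, coeff_neg, coeff_C_mul, coeff_C_mul]
  ring

theorem ALG3_frm (k : ℕ) {s t ri : R} (hr : (s - t) * ri = 1) (D : Derivation ℤ R R)
    {l : ℕ} (hl : l ≤ k) (j : Fin (k + 1)) :
    D (frm k s t l j) =
      -(D s * ri * ((l : ℕ) * (frm k s t (l - 1) j - frm k s t l j))) -
        D t * ri * ((k - l : ℕ) * (frm k s t l j - frm k s t (l + 1) j)) := by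
  have e1 : (l : R) * ((X - C s) ^ (l - 1) * (X - C t) ^ (k - l)).coeff (j : ℕ) =
      ri * ((l : R) * (frm k s t (l - 1) j - frm k s t l j)) := by
    rcases Nat.eq_zero_or_pos l with h0 | h0
    · subst h0
      simp
    · obtain ⟨n, rfl⟩ : ∃ n, l = n + 1 := ⟨l - 1, by omega⟩
      obtain ⟨m, rfl⟩ : ∃ m, k = n + 1 + m := ⟨k - (n + 1), by omega⟩
      have a1 : n + 1 + m - (n + 1) = m := by omega
      have a2 : n + 1 + m - (n + 1 - 1) = m + 1 := by omega
      have a3 : n + 1 - 1 = n := rfl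
      have a4 : n + 1 + m - n = m + 1 := by omega
      simp only [frm, a1, a3, a4]
      have e2 : ((X - C s) ^ n * (X - C t) ^ m) =
          C ri * ((X - C s) ^ n * (X - C t) ^ (m + 1) - (X - C s) ^ (n + 1) * (X - C t) ^ m) := by
        have e3 : (C (s - t) * C ri : R[X]) = 1 := by rw [← C_mul, hr, C_1]
        calc ((X - C s) ^ n * (X - C t) ^ m)
            = (C (s - t) * C ri) * ((X - C s) ^ n * (X - C t) ^ m) := by rw [e3, one_mul]
          _ = _ := by rw [C_sub]; ring
      rw [e2, coeff_C_mul, coeff_sub]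
      ring
  have e1' : ((k - l : ℕ) : R) * ((X - C s) ^ l * (X - C t) ^ (k - l - 1)).coeff (j : ℕ) =
      ri * (((k - l : ℕ) : R) * (frm k s t l j - frm k s t (l + 1) j)) := by
    rcases Nat.eq_zero_or_pos (k - l) with h0 | h0
    · rw [h0]
      simp
    · obtain ⟨m, rfl⟩ : ∃ m, k = l + (m + 1) := ⟨k - l - 1, by omega⟩
      have a1 : l + (m + 1) - l = m + 1 := by omega
      have a2 : l + (m + 1) - (l + 1) = m := by omega
      have a3 : m + 1 - 1 = m := rfl
      simp only [frm, a1, a2, a3]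
      have e2 : ((X - C s) ^ l * (X - C t) ^ m) =
          C ri * ((X - C s) ^ l * (X - C t) ^ (m + 1) - (X - C s) ^ (l + 1) * (X - C t) ^ m) := by
        have e3 : (C (s - t) * C ri : R[X]) = 1 := by rw [← C_mul, hr, C_1]
        calc ((X - C s) ^ l * (X - C t) ^ m)
            = (C (s - t) * C ri) * ((X - C s) ^ l * (X - C t) ^ m) := by rw [e3, one_mul]
          _ = _ := by rw [C_sub]; ring
      rw [e2, coeff_C_mul, coeff_sub]
      ring
  have h := ALG3_poly s t D l (k - l) (j : ℕ)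
  rw [e1, e1'] at h
  change D (((X - C s) ^ l * (X - C t) ^ (k - l)).coeff (j : ℕ)) = _
  rw [h]
  ring

/-- Differentiating an expansion in the forms `(X - s)^i (X - t)^(k-i)`. -/
theorem frm_deriv (k : ℕ) {s t ri : R} (hr : (s - t) * ri = 1) (D : Derivation ℤ R R)
    {f c : ℕ → R} {F : Fin (k + 1) → R} (hf : f (k + 1) = 0)
    (hF : ∀ j, F j = ∑ l ∈ Finset.range (k + 1), f l * frm k s t l j)
    (hc : ∀ j, D (F j) = ∑ l ∈ Finset.range (k + 1), c l * frm k s t l j) {j : ℕ} (hj : j ≤ k) :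
    D (f j) = c j + D s * ri * ((j + 1 : ℕ) * f (j + 1) - (j : ℕ) * f j) +
      D t * ri * ((k - j : ℕ) * f j - if j = 0 then 0 else ((k - (j - 1) : ℕ) * f (j - 1))) := by
  have hu : IsUnit (s - t) := IsUnit.of_mul_eq_one ri hr
  have key := frm_indep k hu (c := fun l => D (f l) - (c l + D s * ri * ((l + 1 : ℕ) * f (l + 1) -
      (l : ℕ) * f l) + D t * ri * ((k - l : ℕ) * f l -
      if l = 0 then 0 else ((k - (l - 1) : ℕ) * f (l - 1))))) ?_ j hj
  · exact sub_eq_zero.1 key
  intro i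
  have h1 : ∑ l ∈ Finset.range (k + 1), ((l : ℕ) : R) * f l * frm k s t (l - 1) i =
      ∑ l ∈ Finset.range (k + 1), ((l + 1 : ℕ) : R) * f (l + 1) * frm k s t l i := by
    rw [Finset.sum_range_succ', Finset.sum_range_succ (fun l => ((l + 1 : ℕ) : R) * f (l + 1) *
      frm k s t l i), hf]
    simp
  have h2 : ∑ l ∈ Finset.range (k + 1), ((k - l : ℕ) : R) * f l * frm k s t (l + 1) i =
      ∑ l ∈ Finset.range (k + 1), (if l = 0 then 0 else ((k - (l - 1) : ℕ) * f (l - 1))) *
        frm k s t l i := by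
    rw [Finset.sum_range_succ, Finset.sum_range_succ' (fun l => (if l = 0 then (0 : R) else
      ((k - (l - 1) : ℕ) * f (l - 1))) * frm k s t l i)]
    simp
  have h3 : D (F i) = ∑ l ∈ Finset.range (k + 1), (D (f l) * frm k s t l i + f l *
      (-(D s * ri * ((l : ℕ) * (frm k s t (l - 1) i - frm k s t l i))) -
        D t * ri * ((k - l : ℕ) * (frm k s t l i - frm k s t (l + 1) i)))) := by
    rw [hF, map_sum]
    refine Finset.sum_congr rfl fun l hl => ?_
    have hl' : l ≤ k := Nat.lt_succ_iff.1 (Finset.mem_range.1 hl)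
    rw [Derivation.leibniz, ALG3_frm k hr D hl' i, smul_eq_mul, smul_eq_mul]
    ring
  have h4 : ∑ l ∈ Finset.range (k + 1), (D (f l) * frm k s t l i + f l *
      (-(D s * ri * ((l : ℕ) * (frm k s t (l - 1) i - frm k s t l i))) -
        D t * ri * ((k - l : ℕ) * (frm k s t l i - frm k s t (l + 1) i)))) =
      ∑ l ∈ Finset.range (k + 1), D (f l) * frm k s t l i
      - D s * ri * (∑ l ∈ Finset.range (k + 1), ((l : ℕ) : R) * f l * frm k s t (l - 1) i)
      + D s * ri * (∑ l ∈ Finset.range (k + 1), ((l : ℕ) : R) * f l * frm k s t l i)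
      - D t * ri * (∑ l ∈ Finset.range (k + 1), ((k - l : ℕ) : R) * f l * frm k s t l i)
      + D t * ri * (∑ l ∈ Finset.range (k + 1), ((k - l : ℕ) : R) * f l *
        frm k s t (l + 1) i) := by
    simp only [Finset.mul_sum]
    rw [← Finset.sum_sub_distrib, ← Finset.sum_add_distrib, ← Finset.sum_sub_distrib,
      ← Finset.sum_add_distrib]
    refine Finset.sum_congr rfl fun l _ => ?_
    ring
  have h5 : ∑ l ∈ Finset.range (k + 1), (D (f l) - (c l + D s * ri * ((l + 1 : ℕ) * f (l + 1) -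
      (l : ℕ) * f l) + D t * ri * ((k - l : ℕ) * f l -
      if l = 0 then 0 else ((k - (l - 1) : ℕ) * f (l - 1))))) * frm k s t l i =
      ∑ l ∈ Finset.range (k + 1), D (f l) * frm k s t l i
      - D s * ri * (∑ l ∈ Finset.range (k + 1), ((l + 1 : ℕ) : R) * f (l + 1) * frm k s t l i)
      + D s * ri * (∑ l ∈ Finset.range (k + 1), ((l : ℕ) : R) * f l * frm k s t l i)
      - D t * ri * (∑ l ∈ Finset.range (k + 1), ((k - l : ℕ) : R) * f l * frm k s t l i)
      + D t * ri * (∑ l ∈ Finset.range (k + 1), (if l = 0 then 0 else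
        ((k - (l - 1) : ℕ) * f (l - 1))) * frm k s t l i)
      - ∑ l ∈ Finset.range (k + 1), c l * frm k s t l i := by
    simp only [Finset.mul_sum]
    rw [← Finset.sum_sub_distrib, ← Finset.sum_add_distrib, ← Finset.sum_sub_distrib,
      ← Finset.sum_add_distrib, ← Finset.sum_sub_distrib]
    refine Finset.sum_congr rfl fun l _ => ?_
    ring
  rw [h5, ← h1, ← h2, ← h4, ← h3, hc, sub_self]

theorem bra_smul_add (u : R) (b c d : Fin 3 → R) :
    bra b (u • c + d) = u • bra b c + bra b d ∧ bra (u • c + d) b = u • bra c b + bra d b := by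
  constructor
  · funext i
    fin_cases i <;> simp [bra] <;> ring
  · funext i
    fin_cases i <;> simp [bra] <;> ring

theorem prr_invariant (u b c : Fin 3 → R) : prr (bra u b) c + prr b (bra u c) = 0 := by
  simp only [prr, bra, Matrix.cons_val_zero, Matrix.cons_val_one, Matrix.cons_val]
  ring

end Ring

/-! ## Extension of derivations -/

section Ext
variable {K : Type*} [Field K] [Algebra ℂ K]

open scoped TensorProduct in
theorem ALG4_lift {P K : Type*} [CommRing P] [Algebra ℂ P] [Field K] [Algebra ℂ K] [Algebra P K]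
    [IsScalarTower ℂ P K] [Algebra.FormallyEtale P K] (d : Derivation ℂ P K) :
    ∃ D : Derivation ℂ K K, ∀ x, D (algebraMap P K x) = d x := by
  refine ⟨((LinearMap.liftBaseChange K d.liftKaehlerDifferential).comp
    (KaehlerDifferential.tensorKaehlerEquivOfFormallyEtale ℂ P K).symm.toLinearMap).compDer
    (KaehlerDifferential.D ℂ K), fun x => ?_⟩
  change LinearMap.liftBaseChange K d.liftKaehlerDifferential
    ((KaehlerDifferential.tensorKaehlerEquivOfFormallyEtale ℂ P K).symm
      (KaehlerDifferential.D ℂ K (algebraMap P K x))) = d x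
  rw [KaehlerDifferential.tensorKaehlerEquivOfFormallyEtale_symm_D_algebraMap,
    LinearMap.liftBaseChange_tmul, one_smul, Derivation.liftKaehlerDifferential_comp_D]

/-- A derivation with values prescribed on an algebraically independent family. -/
theorem exists_derivation {ι : Type*} {u : ι → K} (hu : AlgebraicIndependent ℂ u) (r : ι → K) :
    ∃ D : Derivation ℂ K K, ∀ i, D (u i) = r i := by
  classical
  obtain ⟨t, hut, ht⟩ := exists_isTranscendenceBasis_superset (R := ℂ) hu.coe_range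
  have hmem : ∀ i, u i ∈ t := fun i => hut (Set.mem_range_self i)
  set P := MvPolynomial t ℂ
  let algPK : Algebra P K := (MvPolynomial.aeval (R := ℂ) ((↑) : t → K)).toAlgebra
  have : IsScalarTower ℂ P K := IsScalarTower.of_algebraMap_eq fun x =>
    ((MvPolynomial.aeval (R := ℂ) ((↑) : t → K)).commutes x).symm
  let algPF : Algebra P (IntermediateField.adjoin ℂ (Set.range ((↑) : t → K))) :=
    ((ht.1.aevalEquivField : FractionRing P →+* _).comp (algebraMap P (FractionRing P))).toAlgebra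
  have : IsScalarTower P (IntermediateField.adjoin ℂ (Set.range ((↑) : t → K))) K :=
    IsScalarTower.of_algebraMap_eq fun x =>
      (ht.1.aevalEquivField_algebraMap_apply_coe x).symm
  have : Algebra.FormallyEtale P (FractionRing P) :=
    Algebra.FormallyEtale.of_isLocalization (nonZeroDivisors P)
  have : Algebra.FormallyEtale P (IntermediateField.adjoin ℂ (Set.range ((↑) : t → K))) :=
    Algebra.FormallyEtale.of_equiv (AlgEquiv.ofRingEquiv (f := ht.1.aevalEquivField.toRingEquiv)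
      fun x => rfl)
  have : Algebra.IsAlgebraic (IntermediateField.adjoin ℂ (Set.range ((↑) : t → K))) K :=
    ht.isAlgebraic_field
  have : Algebra.FormallyEtale (IntermediateField.adjoin ℂ (Set.range ((↑) : t → K))) K :=
    Algebra.FormallyEtale.of_isSeparable _ _
  have : Algebra.FormallyEtale P K := Algebra.FormallyEtale.comp P
    (IntermediateField.adjoin ℂ (Set.range ((↑) : t → K))) K
  obtain ⟨D, hD⟩ := ALG4_lift (MvPolynomial.mkDerivation ℂ
    (fun a : t => if h : ∃ i, u i = a then r h.choose else (0 : K)))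
  refine ⟨D, fun i => ?_⟩
  have h1 := hD (MvPolynomial.X ⟨u i, hmem i⟩)
  rw [MvPolynomial.mkDerivation_X] at h1
  have h2 : ∃ j, u j = ((⟨u i, hmem i⟩ : t) : K) := ⟨i, rfl⟩
  have h3 : h2.choose = i := hu.injective h2.choose_spec
  rw [dif_pos h2, h3] at h1
  rw [← h1]
  have h4 : algebraMap P K (MvPolynomial.X ⟨u i, hmem i⟩) = u i :=
    MvPolynomial.aeval_X (R := ℂ) ((↑) : t → K) ⟨u i, hmem i⟩
  rw [h4]

theorem ALG5_kill (D : Derivation ℂ K K) (S : Subalgebra ℂ K) (hS : ∀ a ∈ S, D a = 0) (u : K) :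
    ∀ (n : ℕ) (p : S[X]), p.natDegree = n → p ≠ 0 → aeval u p = 0 → D u = 0 := by
  have hD : ∀ p : S[X], D (aeval u p) = aeval u (derivative p) * D u := by
    intro p
    induction p using Polynomial.induction_on' with
    | add p q hp hq =>
      rw [map_add, map_add, hp, hq, map_add, map_add, add_mul]
    | monomial n a =>
      rw [Polynomial.aeval_monomial, Polynomial.derivative_monomial, Polynomial.aeval_monomial,
        Derivation.leibniz, Derivation.leibniz_pow]
      have h1 : D (algebraMap S K a) = 0 := hS _ a.2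
      rw [h1, smul_zero, add_zero, map_mul, map_natCast]
      simp only [smul_eq_mul, nsmul_eq_mul]
      ring
  intro n
  induction n using Nat.strong_induction_on with
  | _ n ih =>
    intro p hp hp0 hpu
    have h1 := hD p
    rw [hpu, map_zero] at h1
    rcases mul_eq_zero.1 h1.symm with h2 | h2
    · by_cases h3 : derivative p = 0
      · exfalso
        have hcS : CharZero S :=
          charZero_of_injective_algebraMap (algebraMap ℂ S).injective
        have h4 := Polynomial.derivative_eq_zero.1 h3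
        rw [Polynomial.eq_C_of_natDegree_eq_zero h4, Polynomial.aeval_C] at hpu
        rw [Polynomial.eq_C_of_natDegree_eq_zero h4] at hp0
        apply hp0
        have h5 : p.coeff 0 = 0 := by
          have h6 : Function.Injective (algebraMap S K) := Subtype.val_injective
          apply h6
          rw [hpu, map_zero]
        rw [h5, Polynomial.C_0]
      · have h4 : p.natDegree ≠ 0 := by
          intro h5
          rw [Polynomial.eq_C_of_natDegree_eq_zero h5, Polynomial.derivative_C] at h3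
          exact h3 rfl
        have h5 := Polynomial.natDegree_derivative_lt h4
        exact ih _ (by rw [← hp]; exact h5) (derivative p) rfl h3 h2
    · exact h2

theorem ALG5_alg {x u : K} (hx : Transcendental ℂ x)
    (h : ¬ AlgebraicIndependent ℂ ![x, u]) : IsAlgebraic (Algebra.adjoin ℂ {x}) u := by
  by_contra hu
  apply h
  have h1 : AlgebraicIndependent ℂ (fun _ : Fin 1 => x) := algebraicIndependent_unique_type_iff.2 hx
  have h2 : Set.range (fun _ : Fin 1 => x) = {x} := Set.range_const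
  have h3 := (h1.option_iff_transcendental u).2 (by rw [h2]; exact hu)
  have h4 := h3.comp (![some 0, none] : Fin 2 → Option (Fin 1)) (by
    intro a b hab
    fin_cases a <;> fin_cases b <;> simp_all)
  have h5 : (fun o : Option (Fin 1) => o.elim u (fun _ => x)) ∘ (![some 0, none] : Fin 2 → Option (Fin 1))
      = ![x, u] := by
    funext a
    fin_cases a <;> rfl
  rw [h5] at h4
  exact h4

/-- If `u` is algebraic over `ℂ(x)` then derivations killing `x` kill `u`. -/
theorem killed_of_dep {x u : K} (hx : Transcendental ℂ x)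
    (h : ¬ AlgebraicIndependent ℂ ![x, u]) (D : Derivation ℂ K K) (hD : D x = 0) : D u = 0 := by
  obtain ⟨p, hp0, hpu⟩ := ALG5_alg hx h
  refine ALG5_kill D (Algebra.adjoin ℂ {x}) ?_ u p.natDegree p rfl hp0 hpu
  intro a ha
  induction ha using Algebra.adjoin_induction with
  | mem y hy =>
    rw [Set.mem_singleton_iff.1 hy]
    exact hD
  | algebraMap r => exact D.map_algebraMap r
  | add a b _ _ ha hb => rw [map_add, ha, hb, add_zero]
  | mul a b _ _ ha hb => rw [Derivation.leibniz, ha, hb, smul_zero, smul_zero, add_zero]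

/-- Converse. -/
theorem dep_of_killed {x u : K} (h : ∀ D : Derivation ℂ K K, D x = 0 → D u = 0) :
    ¬ AlgebraicIndependent ℂ ![x, u] := by
  intro hi
  obtain ⟨D, hD⟩ := exists_derivation hi ![0, 1]
  have h1 : D x = 0 := hD 0
  have h2 : D u = 1 := hD 1
  rw [h D h1] at h2
  exact zero_ne_one h2

theorem dep_of_killed₂ {x y u : K} (h : ∀ D : Derivation ℂ K K, D x = 0 → D y = 0 → D u = 0) :
    ¬ AlgebraicIndependent ℂ ![x, y, u] := by
  intro hi
  obtain ⟨D, hD⟩ := exists_derivation hi ![0, 0, 1]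
  have h1 : D x = 0 := hD 0
  have h2 : D y = 0 := hD 1
  have h3 : D u = 1 := hD 2
  rw [h D h1 h2] at h3
  exact zero_ne_one h3

theorem ALG6_span {ι : Type*} [Finite ι] (δ : Derivation ℂ K K)
    (hδ : ∀ u, δ u = 0 → ∃ c : ℂ, algebraMap ℂ K c = u) (W : Submodule K (ι → K))
    (hW : ∀ w ∈ W, (fun i => δ (w i)) ∈ W) (s : Finset ι) :
    ∀ w ∈ W, (∀ i, i ∉ s → w i = 0) →
      w ∈ Submodule.span K {w : ι → K | w ∈ W ∧ ∀ i, ∃ c : ℂ, algebraMap ℂ K c = w i} := by
  classical
  induction s using Finset.strongInduction with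
  | H s ih =>
    intro w hw hs
    by_cases hz : ∃ i ∈ s, w i = 0
    · obtain ⟨i, hi, hwi⟩ := hz
      refine ih (s.erase i) (Finset.erase_ssubset hi) w hw fun j hj => ?_
      by_cases hji : j = i
      · rw [hji]
        exact hwi
      · exact hs j fun hjs => hj (Finset.mem_erase.2 ⟨hji, hjs⟩)
    · rcases s.eq_empty_or_nonempty with he | ⟨i₀, hi₀⟩
      · have hw0 : w = 0 := by
          funext i
          exact hs i (by rw [he]; exact Finset.notMem_empty i)
        rw [hw0]
        exact Submodule.zero_mem _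
      · have hwi₀ : w i₀ ≠ 0 := fun h => hz ⟨i₀, hi₀, h⟩
        have hu : (w i₀)⁻¹ • w ∈ W := W.smul_mem _ hw
        have hd := hW _ hu
        have hd₀ : ∀ j, j ∉ s.erase i₀ → (fun i => δ (((w i₀)⁻¹ • w) i)) j = 0 := by
          intro j hj
          by_cases hji : j = i₀
          · show δ ((w i₀)⁻¹ * w j) = 0
            rw [hji, inv_mul_cancel₀ hwi₀, Derivation.map_one_eq_zero]
          · show δ ((w i₀)⁻¹ * w j) = 0
            rw [hs j fun hjs => hj (Finset.mem_erase.2 ⟨hji, hjs⟩), mul_zero, map_zero]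
        by_cases h0 : ∀ j, (fun i => δ (((w i₀)⁻¹ • w) i)) j = 0
        · have h1 : (w i₀)⁻¹ • w ∈ Submodule.span K
              {w : ι → K | w ∈ W ∧ ∀ i, ∃ c : ℂ, algebraMap ℂ K c = w i} :=
            Submodule.subset_span ⟨hu, fun i => hδ _ (h0 i)⟩
          have h2 : w = w i₀ • ((w i₀)⁻¹ • w) := by
            rw [smul_smul, mul_inv_cancel₀ hwi₀, one_smul]
          rw [h2]
          exact Submodule.smul_mem _ _ h1
        · push Not at h0
          obtain ⟨i₁, hi₁⟩ := h0
          have hi₁s : i₁ ∈ s := by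
            by_contra h
            exact hi₁ (hd₀ i₁ fun h' => h (Finset.mem_of_mem_erase h'))
          set u : ι → K := fun i => δ (((w i₀)⁻¹ • w) i) with hu'
          have h1 := ih (s.erase i₀) (Finset.erase_ssubset hi₀) u hd hd₀
          have h2 := ih (s.erase i₁) (Finset.erase_ssubset hi₁s) (w - (w i₁ / u i₁) • u)
            (W.sub_mem hw (W.smul_mem _ hd)) (by
              intro j hj
              by_cases hji : j = i₁
              · rw [hji]
                show w i₁ - w i₁ / u i₁ * u i₁ = 0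
                rw [div_mul_cancel₀ _ hi₁, sub_self]
              · have hjs : j ∉ s := fun hjs => hj (Finset.mem_erase.2 ⟨hji, hjs⟩)
                show w j - w i₁ / u i₁ * u j = 0
                rw [hs j hjs, hd₀ j fun h' => hjs (Finset.mem_of_mem_erase h'), mul_zero, sub_self])
          have h3 : w = (w - (w i₁ / u i₁) • u) + (w i₁ / u i₁) • u := by
            rw [sub_add_cancel]
          rw [h3]
          exact Submodule.add_mem _ h2 (Submodule.smul_mem _ _ h1)

/-- Descent: a subspace of `K^ι` stable under a derivation with constants `ℂ` is stable under all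
`ℂ`-linear maps `K → ℂ`. -/
theorem descent {ι : Type*} [Finite ι] (δ : Derivation ℂ K K)
    (hδ : ∀ u, δ u = 0 → ∃ c : ℂ, algebraMap ℂ K c = u) (W : Submodule K (ι → K))
    (hW : ∀ w ∈ W, (fun i => δ (w i)) ∈ W) (π : K →ₗ[ℂ] ℂ) {w : ι → K} (hw : w ∈ W) :
    (fun i => algebraMap ℂ K (π (w i))) ∈ W := by
  classical
  have hf : Fintype ι := Fintype.ofFinite ι
  have h1 := ALG6_span δ hδ W hW Finset.univ w hw fun i hi => absurd (Finset.mem_univ i) hi
  have h2 : ∀ a : K, (fun i => algebraMap ℂ K (π (a * w i))) ∈ W := by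
    clear hw
    induction h1 using Submodule.span_induction with
    | mem x hx =>
      intro a
      have h3 : (fun i => algebraMap ℂ K (π (a * x i))) = algebraMap ℂ K (π a) • x := by
        funext i
        obtain ⟨c, hc⟩ := hx.2 i
        show algebraMap ℂ K (π (a * x i)) = algebraMap ℂ K (π a) * x i
        rw [← hc, mul_comm a, ← Algebra.smul_def, map_smul, smul_eq_mul, map_mul, mul_comm]
      rw [h3]
      exact W.smul_mem _ hx.1
    | zero =>
      intro a
      have h3 : (fun i => algebraMap ℂ K (π (a * (0 : ι → K) i))) = 0 := by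
        funext i
        simp
      rw [h3]
      exact W.zero_mem
    | add x y _ _ hx hy =>
      intro a
      have h3 : (fun i => algebraMap ℂ K (π (a * (x + y) i)))
          = (fun i => algebraMap ℂ K (π (a * x i))) + fun i => algebraMap ℂ K (π (a * y i)) := by
        funext i
        show algebraMap ℂ K (π (a * (x i + y i))) = algebraMap ℂ K (π (a * x i))
          + algebraMap ℂ K (π (a * y i))
        rw [mul_add, map_add, map_add]
      rw [h3]
      exact W.add_mem (hx a) (hy a)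
    | smul b x _ hx =>
      intro a
      have h3 : (fun i => algebraMap ℂ K (π (a * (b • x) i)))
          = fun i => algebraMap ℂ K (π (a * b * x i)) := by
        funext i
        show algebraMap ℂ K (π (a * (b * x i))) = algebraMap ℂ K (π (a * b * x i))
        rw [mul_assoc]
      rw [h3]
      exact hx (a * b)
  have h3 := h2 1
  simpa using h3

end Ext

/-! ## One side -/

section One
variable {k : ℕ} {K : Type*} [Field K] [Algebra ℂ K]

theorem ALG7_toP3 (b : Fin 3 → K) : toP b = C (b 0) + C (b 1) * X + C (b 2) * X ^ 2 := by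
  rw [toP, Fin.sum_univ_three]
  simp

theorem ALG7_der (b : Fin 3 → K) : derivative (toP b) = C (b 1) + 2 * C (b 2) * X := by
  rw [ALG7_toP3]
  have h2 : C (2 : K) = (2 : K[X]) := rfl
  simp only [derivative_add, derivative_C, derivative_C_mul, derivative_X, derivative_X_pow,
    Nat.cast_ofNat, h2]
  ring

theorem ALG7_col (b : Fin 3 → K) (j : Fin (k + 1)) :
    ∑ i : Fin (k + 1), C (slm k b i j) * X ^ (i : ℕ) =
      C (b 2 * ((k : K) - (j : ℕ))) * X ^ ((j : ℕ) + 1) + C (b 1 * ((k : K) / 2 - (j : ℕ))) * X ^ (j : ℕ)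
        - C (b 0 * ((j : ℕ) : K)) * X ^ ((j : ℕ) - 1) := by
  have h1 : ∀ i : Fin (k + 1), C (slm k b i j) * X ^ (i : ℕ) =
      (if (i : ℕ) = j + 1 then C (b 2 * ((k : K) - (j : ℕ))) * X ^ ((j : ℕ) + 1) else 0) +
      (if i = j then C (b 1 * ((k : K) / 2 - (j : ℕ))) * X ^ (j : ℕ) else 0) -
      (if (i : ℕ) + 1 = j then C (b 0 * ((j : ℕ) : K)) * X ^ ((j : ℕ) - 1) else 0) := by
    intro i
    simp only [slm, Matrix.of_apply, map_sub, map_add, sub_mul, add_mul]
    congr 1
    · congr 1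
      · split_ifs with h
        · rw [h]
        · simp
      · split_ifs with h
        · rw [h]
        · simp
    · split_ifs with h
      · have h2 : (i : ℕ) = (j : ℕ) - 1 := by omega
        rw [h2]
      · simp
  rw [Finset.sum_congr rfl fun i _ => h1 i, Finset.sum_sub_distrib, Finset.sum_add_distrib]
  congr 1
  · congr 1
    · by_cases hj : (j : ℕ) + 1 ≤ k
      · rw [Finset.sum_eq_single (⟨(j : ℕ) + 1, by omega⟩ : Fin (k + 1))]
        · rw [if_pos rfl]
        · intro i _ hi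
          rw [if_neg]
          intro h
          exact hi (Fin.ext h)
        · intro h
          exact absurd (Finset.mem_univ _) h
      · have hj2 : (j : ℕ) = k := by
          have := j.2
          omega
        rw [Finset.sum_eq_zero]
        · rw [hj2, sub_self, mul_zero, map_zero, zero_mul]
        · intro i _
          rw [if_neg]
          have := i.2
          omega
    · rw [Finset.sum_ite_eq' Finset.univ j, if_pos (Finset.mem_univ j)]
  · by_cases hj : (j : ℕ) = 0
    · rw [Finset.sum_eq_zero]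
      · rw [hj, Nat.cast_zero, mul_zero, map_zero, zero_mul]
      · intro i _
        rw [if_neg]
        omega
    · rw [Finset.sum_eq_single (⟨(j : ℕ) - 1, by omega⟩ : Fin (k + 1))]
      · rw [if_pos]
        simp only
        omega
      · intro i _ hi
        rw [if_neg]
        intro h
        apply hi
        apply Fin.ext
        simp only
        omega
      · intro h
        exact absurd (Finset.mem_univ _) h

theorem toP_slm [CharZero K] (b : Fin 3 → K) (v : Fin (k + 1) → K) :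
    toP (slm k b *ᵥ v) = C ((k : K) / 2) * derivative (toP b) * toP v -
      toP b * derivative (toP v) := by
  have h1 : toP (slm k b *ᵥ v) = ∑ j : Fin (k + 1), C (v j) *
      ∑ i : Fin (k + 1), C (slm k b i j) * X ^ (i : ℕ) := by
    simp only [toP, Matrix.mulVec, dotProduct, map_sum, Finset.sum_mul, Finset.mul_sum]
    rw [Finset.sum_comm]
    refine Finset.sum_congr rfl fun j _ => Finset.sum_congr rfl fun i _ => ?_
    rw [map_mul]
    ring
  have h2 : derivative (toP v) = ∑ j : Fin (k + 1), C (v j) * (C ((j : ℕ) : K) * X ^ ((j : ℕ) - 1)) := by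
    rw [toP, derivative_sum]
    refine Finset.sum_congr rfl fun j _ => ?_
    rw [derivative_C_mul, derivative_X_pow]
  rw [h1, h2, ALG7_der, ALG7_toP3]
  simp only [ALG7_col]
  rw [toP, Finset.mul_sum, Finset.mul_sum, ← Finset.sum_sub_distrib]
  refine Finset.sum_congr rfl fun j _ => ?_
  have h4 : (2 : K) ≠ 0 := two_ne_zero
  have h5 : (2 : K[X]) * C ((k : K) / 2) = C (k : K) := by
    have : (2 : K[X]) = C 2 := rfl
    rw [this, ← map_mul]
    congr 1
    field_simp
  rcases Nat.eq_zero_or_pos (j : ℕ) with hj | hj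
  · rw [hj]
    simp only [Nat.cast_zero, mul_zero, map_zero, zero_mul, sub_zero, zero_add, pow_one, pow_zero,
      mul_one, map_mul, ← h5]
    ring
  · obtain ⟨m, hm⟩ : ∃ m, (j : ℕ) = m + 1 := ⟨(j : ℕ) - 1, by omega⟩
    rw [hm]
    simp only [Nat.add_sub_cancel, map_mul, map_sub, ← h5]
    ring

theorem ALG7_toP_bra (b c : Fin 3 → K) :
    toP (bra b c) = derivative (toP b) * toP c - toP b * derivative (toP c) := by
  rw [ALG7_der, ALG7_der, ALG7_toP3, ALG7_toP3, ALG7_toP3]
  have h2 : C (2 : K) = (2 : K[X]) := rfl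
  simp only [bra, Matrix.cons_val_zero, Matrix.cons_val_one, Matrix.cons_val, map_sub, map_mul,
    h2]
  ring

theorem ALG7_ext {M N : Matrix (Fin (k + 1)) (Fin (k + 1)) K}
    (h : ∀ v : Fin (k + 1) → K, toP (M *ᵥ v) = toP (N *ᵥ v)) : M = N := by
  ext i j
  have h1 := congrFun (toP_injective (h (Pi.single j 1))) i
  rwa [Matrix.mulVec_single_one, Matrix.mulVec_single_one] at h1

theorem ALG7_sub (v w : Fin (k + 1) → K) : toP (v - w) = toP v - toP w := by
  simp only [toP, Pi.sub_apply, map_sub, sub_mul, Finset.sum_sub_distrib]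

theorem slm_bracket [CharZero K] (b c : Fin 3 → K) :
    slm k b * slm k c - slm k c * slm k b = slm k (bra b c) := by
  apply ALG7_ext
  intro v
  rw [Matrix.sub_mulVec, ALG7_sub, ← Matrix.mulVec_mulVec, ← Matrix.mulVec_mulVec]
  simp only [toP_slm, ALG7_toP_bra, derivative_sub, derivative_mul, derivative_C]
  ring

theorem slm_add_smul (u : K) (b c : Fin 3 → K) : slm k (u • b + c) = u • slm k b + slm k c := by
  ext i j
  simp only [slm, Matrix.of_apply, Matrix.add_apply, Matrix.smul_apply, Pi.add_apply,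
    Pi.smul_apply, smul_eq_mul]
  split_ifs <;> ring

theorem slm_two [CharZero K] (b c : Fin 3 → K) : slm 2 b *ᵥ c = bra b c := by
  apply toP_injective
  rw [toP_slm, ALG7_toP_bra]
  have h1 : C (((2 : ℕ) : K) / 2) = 1 := by
    rw [Nat.cast_ofNat, div_self two_ne_zero, map_one]
  rw [h1, one_mul]

theorem Side.x_transcendental (S : Side k K) : Transcendental ℂ S.x :=
  S.indep.transcendental (Sum.inl 0)

theorem exists_part [CharZero K] (S : Side k K) (D : Derivation ℂ K K) :
    ∃ b a, Part S D b a := by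
  have h1 := S.ht1
  obtain ⟨e0, he0⟩ : ∃ e, e = D S.t0 - D S.x * S.t1 := ⟨_, rfl⟩
  obtain ⟨e1, he1⟩ : ∃ e, e = (D S.t1 - D S.x * S.t2) / S.t1 := ⟨_, rfl⟩
  obtain ⟨b2, hb2⟩ : ∃ e, e = (D S.t2 - D S.x * S.t3 - e1 * S.t2) / (2 * S.t1 ^ 2) := ⟨_, rfl⟩
  have he1' : e1 * S.t1 = D S.t1 - D S.x * S.t2 := by
    rw [he1]
    field_simp
  have hb2' : 2 * b2 * S.t1 ^ 2 = D S.t2 - D S.x * S.t3 - e1 * S.t2 := by
    rw [hb2]
    field_simp
  refine ⟨![e0 - (e1 - 2 * b2 * S.t0) * S.t0 - b2 * S.t0 ^ 2, e1 - 2 * b2 * S.t0, b2],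
    fun j => D (S.V j) - D S.x * (S.g * frm k S.t0 S.t0 k j) -
      (slm k ![e0 - (e1 - 2 * b2 * S.t0) * S.t0 - b2 * S.t0 ^ 2, e1 - 2 * b2 * S.t0, b2] *ᵥ
        S.V) j, ?_, ?_, ?_, ?_⟩
  · simp only [Matrix.cons_val_zero, Matrix.cons_val_one, Matrix.cons_val]
    rw [he0]
    ring
  · simp only [Matrix.cons_val_zero, Matrix.cons_val_one, Matrix.cons_val]
    linear_combination (-1 : K) * he1'
  · simp only [Matrix.cons_val_zero, Matrix.cons_val_one, Matrix.cons_val]
    linear_combination (-1 : K) * hb2'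
  · intro j
    ring

theorem Part.unique [CharZero K] {S : Side k K} {D : Derivation ℂ K K} {b b' : Fin 3 → K}
    {a a' : Fin (k + 1) → K} (h : Part S D b a) (h' : Part S D b' a') : b = b' ∧ a = a' := by
  have h1 := S.ht1
  have e1 : (b 1 + 2 * b 2 * S.t0 - (b' 1 + 2 * b' 2 * S.t0)) * S.t1 = 0 := by
    linear_combination h'.h1 - h.h1
  have e1' : b 1 + 2 * b 2 * S.t0 - (b' 1 + 2 * b' 2 * S.t0) = 0 :=
    (mul_eq_zero.1 e1).resolve_right h1
  have e2 : (b 2 - b' 2) * (2 * S.t1 ^ 2) = 0 := by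
    linear_combination h'.h2 - h.h2 - S.t2 * e1'
  have e2' : b 2 - b' 2 = 0 :=
    (mul_eq_zero.1 e2).resolve_right (mul_ne_zero two_ne_zero (pow_ne_zero 2 h1))
  have e3 : b 1 - b' 1 = 0 := by linear_combination e1' - 2 * S.t0 * e2'
  have e4 : b 0 - b' 0 = 0 := by
    linear_combination h'.h0 - h.h0 - S.t0 * e3 - S.t0 ^ 2 * e2'
  have hb : b = b' := by
    funext i
    fin_cases i
    · exact sub_eq_zero.1 e4
    · exact sub_eq_zero.1 e3
    · exact sub_eq_zero.1 e2'
  refine ⟨hb, ?_⟩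
  subst hb
  funext j
  linear_combination h'.hV j - h.hV j

theorem Part.add {S : Side k K} {D D' : Derivation ℂ K K} {b b' : Fin 3 → K}
    {a a' : Fin (k + 1) → K} (h : Part S D b a) (h' : Part S D' b' a') (u : K) :
    Part S (u • D + D') (u • b + b') (u • a + a') := by
  refine ⟨?_, ?_, ?_, ?_⟩
  · simp only [Derivation.add_apply, Derivation.smul_apply, Pi.add_apply, Pi.smul_apply,
      smul_eq_mul]
    linear_combination u * h.h0 + h'.h0
  · simp only [Derivation.add_apply, Derivation.smul_apply, Pi.add_apply, Pi.smul_apply,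
      smul_eq_mul]
    linear_combination u * h.h1 + h'.h1
  · simp only [Derivation.add_apply, Derivation.smul_apply, Pi.add_apply, Pi.smul_apply,
      smul_eq_mul]
    linear_combination u * h.h2 + h'.h2
  · intro j
    rw [slm_add_smul, Matrix.add_mulVec, Matrix.smul_mulVec]
    simp only [Derivation.add_apply, Derivation.smul_apply, Pi.add_apply, Pi.smul_apply,
      smul_eq_mul]
    linear_combination u * h.hV j + h'.hV j

/-- The derivation applied to `g`. -/
theorem Part.g_eq [CharZero K] {S : Side k K} {D δ : Derivation ℂ K K} {b : Fin 3 → K}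
    {a : Fin (k + 1) → K} (h : Part S D b a) (hδ : Part S δ 0 0) (hx : δ S.x ≠ 0) :
    D S.g = D S.x * (δ S.g / δ S.x) - (k : K) / 2 * (b 1 + 2 * b 2 * S.t0) * S.g := by
  have hexp : ∀ D' : Derivation ℂ K K, D' (S.g ^ 2 * S.t1 ^ k) =
      2 * S.g * S.t1 ^ k * D' S.g + S.g ^ 2 * ((k : K) * S.t1 ^ (k - 1)) * D' S.t1 := by
    intro D'
    rw [Derivation.leibniz, Derivation.leibniz_pow, Derivation.leibniz_pow]
    simp only [smul_eq_mul, nsmul_eq_mul, Nat.cast_ofNat]
    ring
  have hk : (k : K) * S.t1 ^ (k - 1) * S.t1 = (k : K) * S.t1 ^ k := by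
    rcases Nat.eq_zero_or_pos k with h0 | h0
    · have h1 : (k : K) = 0 := by exact_mod_cast h0
      rw [h1, zero_mul, zero_mul, zero_mul]
    · rw [mul_assoc, ← pow_succ, Nat.sub_add_cancel h0]
  have e1 := S.hm D
  have e2 := S.hm δ
  rw [hexp, h.h1] at e1
  rw [hexp, hδ.h1] at e2
  simp only [Pi.zero_apply, mul_zero, zero_mul, add_zero] at e2
  have ht : S.t1 ^ k ≠ 0 := pow_ne_zero _ S.ht1
  have hne : 2 * S.g * S.t1 ^ k * δ S.x ≠ 0 :=
    mul_ne_zero (mul_ne_zero (mul_ne_zero two_ne_zero S.hg) ht) hx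
  apply mul_left_cancel₀ hne
  have e3 : D S.x * (δ S.g / δ S.x) * δ S.x = D S.x * δ S.g := by
    rw [mul_assoc, div_mul_cancel₀ _ hx]
  calc 2 * S.g * S.t1 ^ k * δ S.x * D S.g
      = 2 * S.g * S.t1 ^ k * (D S.x * (δ S.g / δ S.x) * δ S.x) -
        S.g ^ 2 * ((k : K) * S.t1 ^ k) * (b 1 + 2 * b 2 * S.t0) * δ S.x := by
        rw [e3, ← hk]
        linear_combination δ S.x * e1 - D S.x * e2
    _ = _ := by ring

/-- The derivation applied to `t3`. -/
theorem Part.t3_eq [CharZero K] {S : Side k K} {D δ : Derivation ℂ K K} {b : Fin 3 → K}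
    {a : Fin (k + 1) → K} (h : Part S D b a) (hδ : Part S δ 0 0) (hx : δ S.x ≠ 0) :
    D S.t3 = D S.x * (δ S.t3 / δ S.x) + (b 1 + 2 * b 2 * S.t0) * S.t3 +
      6 * b 2 * S.t1 * S.t2 := by
  have ht := S.ht1
  have hdef : S.t3 * S.t1 + S.t3 * S.t1 =
      S.t2 * S.t2 + S.t2 * S.t2 + S.t2 * S.t2 + (S.rho * (S.t1 * S.t1) +
        S.rho * (S.t1 * S.t1)) := by
    rw [Side.t3]
    field_simp
    ring
  have hexp : ∀ D' : Derivation ℂ K K, 2 * (S.t1 * D' S.t3 + S.t3 * D' S.t1) =
      6 * S.t2 * D' S.t2 + 2 * (S.t1 ^ 2 * D' S.rho + 2 * S.rho * S.t1 * D' S.t1) := by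
    intro D'
    have h1 := congrArg D' hdef
    simp only [map_add, Derivation.leibniz, smul_eq_mul] at h1
    linear_combination h1
  have e1 := hexp D
  have e2 := hexp δ
  rw [S.hrho D, h.h1, h.h2] at e1
  rw [S.hrho δ, hδ.h1, hδ.h2] at e2
  simp only [Pi.zero_apply, mul_zero, zero_mul, add_zero] at e2
  have hne : 2 * S.t1 * δ S.x ≠ 0 := mul_ne_zero (mul_ne_zero two_ne_zero ht) hx
  apply mul_left_cancel₀ hne
  have e3 : D S.x * (δ S.t3 / δ S.x) * δ S.x = D S.x * δ S.t3 := by
    rw [mul_assoc, div_mul_cancel₀ _ hx]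
  calc 2 * S.t1 * δ S.x * D S.t3
      = 2 * S.t1 * (D S.x * (δ S.t3 / δ S.x) * δ S.x) +
        2 * S.t1 * δ S.x * ((b 1 + 2 * b 2 * S.t0) * S.t3 + 6 * b 2 * S.t1 * S.t2) := by
        rw [e3]
        linear_combination δ S.x * e1 - D S.x * e2 +
          2 * (b 1 + 2 * b 2 * S.t0) * δ S.x * (-hdef)
    _ = _ := by ring

/-- The coefficients of `(X - t)^(k-1)`. -/
noncomputable def ALG10_fr (k : ℕ) (t : K) : Fin (k + 1) → K :=
  fun j => ((X - C t) ^ (k - 1)).coeff j

theorem ALG10_coeff_deriv (D : Derivation ℂ K K) (t : K) (n : ℕ) : ∀ j : ℕ,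
    D (((X - C t) ^ n).coeff j) = -((n : K) * D t * ((X - C t) ^ (n - 1)).coeff j) := by
  induction n with
  | zero =>
    intro j
    rw [pow_zero, coeff_one]
    split_ifs <;> simp
  | succ n ih =>
    intro j
    have hP : (n : K) * ((X - C t) ^ n).coeff j = (n : K) * ((if j = 0 then 0 else
        ((X - C t) ^ (n - 1)).coeff (j - 1)) - t * ((X - C t) ^ (n - 1)).coeff j) := by
      rcases Nat.eq_zero_or_pos n with h0 | h0
      · rw [h0, Nat.cast_zero, zero_mul, zero_mul]
      · congr 1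
        obtain ⟨m, rfl⟩ : ∃ m, n = m + 1 := ⟨n - 1, by omega⟩
        rw [pow_succ, mul_sub, coeff_sub, coeff_mul_C, Nat.add_sub_cancel]
        cases j with
        | zero => rw [coeff_mul_X_zero, if_pos rfl, mul_comm t]
        | succ j => rw [coeff_mul_X, if_neg (Nat.succ_ne_zero j), Nat.add_sub_cancel, mul_comm t]
    have hD : D ((if j = 0 then 0 else ((X - C t) ^ n).coeff (j - 1))) =
        if j = 0 then 0 else -((n : K) * D t * ((X - C t) ^ (n - 1)).coeff (j - 1)) := by
      split_ifs with h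
      · exact map_zero D
      · exact ih (j - 1)
    have hc : ((X - C t) ^ (n + 1)).coeff j = (if j = 0 then 0 else
        ((X - C t) ^ n).coeff (j - 1)) - ((X - C t) ^ n).coeff j * t := by
      rw [pow_succ, mul_sub, coeff_sub, coeff_mul_C]
      cases j with
      | zero => rw [coeff_mul_X_zero, if_pos rfl]
      | succ j => rw [coeff_mul_X, if_neg (Nat.succ_ne_zero j), Nat.add_sub_cancel]
    rw [hc, map_sub, hD, Derivation.leibniz, ih j, Nat.add_sub_cancel, smul_eq_mul, smul_eq_mul,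
      Nat.cast_add, Nat.cast_one]
    by_cases h : j = 0
    · rw [if_pos h] at hP ⊢
      linear_combination (D t) * hP
    · rw [if_neg h] at hP ⊢
      linear_combination (D t) * hP

theorem ALG10_frm_deriv (D : Derivation ℂ K K) (t : K) (j : Fin (k + 1)) :
    D (frm k t t k j) = -((k : K) * D t * ALG10_fr k t j) := by
  have h : frm k t t k j = ((X - C t) ^ k).coeff j := by
    rw [frm, Nat.sub_self, pow_zero, mul_one]
  rw [h, ALG10_coeff_deriv]
  rfl

theorem ALG10_toP_coeff (P : K[X]) (hP : P.natDegree < k + 1) :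
    toP (fun j : Fin (k + 1) => P.coeff j) = P := by
  rw [toP, Finset.sum_fin_eq_sum_range]
  conv_rhs => rw [P.as_sum_range' (k + 1) hP]
  refine Finset.sum_congr rfl fun i hi => ?_
  rw [dif_pos (Finset.mem_range.1 hi), C_mul_X_pow_eq_monomial]

theorem ALG10_toP_fr (t : K) : toP (ALG10_fr k t) = (X - C t) ^ (k - 1) := by
  refine ALG10_toP_coeff _ ?_
  have h : ((X - C t) ^ (k - 1)).natDegree = k - 1 := by
    rw [natDegree_pow, natDegree_X_sub_C, mul_one]
  rw [h]
  omega

theorem ALG10_toP_add {n : ℕ} (v w : Fin n → K) : toP (fun j => v j + w j) = toP v + toP w := by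
  rw [toP, toP, toP, ← Finset.sum_add_distrib]
  refine Finset.sum_congr rfl fun i _ => ?_
  rw [C_add, add_mul]

theorem ALG10_toP_smul {n : ℕ} (c : K) (v : Fin n → K) : toP (fun j => c * v j) = C c * toP v := by
  rw [toP, toP, Finset.mul_sum]
  refine Finset.sum_congr rfl fun i _ => ?_
  rw [C_mul, mul_assoc]

theorem ALG10_toP_three (b : Fin 3 → K) : toP b = C (b 0) + C (b 1) * X + C (b 2) * X ^ 2 := by
  rw [toP, Fin.sum_univ_three]
  simp

theorem ALG10_slm_frm [CharZero K] (b : Fin 3 → K) (t : K) (j : Fin (k + 1)) :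
    (slm k b *ᵥ frm k t t k) j = -((k : K) / 2 * (b 1 + 2 * b 2 * t) * frm k t t k j) -
      (k : K) * (b 0 + b 1 * t + b 2 * t ^ 2) * ALG10_fr k t j := by
  have h : slm k b *ᵥ frm k t t k = fun j => -((k : K) / 2 * (b 1 + 2 * b 2 * t)) * frm k t t k j +
      (-((k : K) * (b 0 + b 1 * t + b 2 * t ^ 2))) * ALG10_fr k t j := by
    refine toP_injective ?_
    rw [toP_slm, ALG10_toP_add, ALG10_toP_smul, ALG10_toP_smul, ALG10_toP_fr,
      toP_frm k t t le_rfl, Nat.sub_self, pow_zero, mul_one, ALG10_toP_three]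
    rcases Nat.eq_zero_or_pos k with h0 | h0
    · subst h0
      simp
    · obtain ⟨m, rfl⟩ : ∃ m, k = m + 1 := ⟨k - 1, by omega⟩
      have hC2 : (C (2 : K) : K[X]) = 2 := map_ofNat C 2
      have hd : derivative (C (b 0) + C (b 1) * X + C (b 2) * X ^ 2 : K[X]) =
          C (b 1) + 2 * C (b 2) * X := by
        rw [derivative_add, derivative_add, derivative_C, derivative_C_mul, derivative_C_mul,
          derivative_X, derivative_X_pow, Nat.cast_ofNat, hC2]
        ring
      have h2 : (C (((m + 1 : ℕ) : K) / 2) : K[X]) * 2 = ((m + 1 : ℕ) : K[X]) := by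
        rw [← hC2, ← C_mul, div_mul_cancel₀ _ (two_ne_zero : (2 : K) ≠ 0), map_natCast]
      have h3 : (C ((m + 1 : ℕ) : K) : K[X]) = ((m + 1 : ℕ) : K[X]) := map_natCast C (m + 1)
      rw [derivative_X_sub_C_pow, hd, Nat.add_sub_cancel]
      simp only [C_neg, C_mul, C_add, C_pow, hC2, h3]
      rw [← h2]
      ring
  rw [h]
  ring

theorem ALG10_half [CharZero K] (D : Derivation ℂ K K) (n : ℕ) : D ((n : K) / 2) = 0 := by
  have h1 : D ((n : K) / 2 * 2) = 0 := by
    rw [div_mul_cancel₀ _ (two_ne_zero : (2 : K) ≠ 0)]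
    exact D.map_natCast n
  have h2 : D (2 : K) = 0 := by
    have := D.map_natCast 2
    rwa [Nat.cast_ofNat] at this
  rw [Derivation.leibniz, h2, smul_zero, zero_add, smul_eq_mul] at h1
  exact (mul_eq_zero.1 h1).resolve_left two_ne_zero

theorem ALG10_slm_entry [CharZero K] (D : Derivation ℂ K K) (b : Fin 3 → K) (i j : Fin (k + 1)) :
    D (slm k b i j) = slm k (fun l => D (b l)) i j := by
  have e1 : D ((k : K) - (j : ℕ)) = 0 := by
    rw [map_sub, D.map_natCast, D.map_natCast, sub_zero]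
  have e2 : D ((k : K) / 2 - (j : ℕ)) = 0 := by
    rw [map_sub, ALG10_half, D.map_natCast, sub_zero]
  have e3 : D ((j : ℕ) : K) = 0 := D.map_natCast j
  have f1 : D (b 2 * ((k : K) - (j : ℕ))) = D (b 2) * ((k : K) - (j : ℕ)) := by
    rw [Derivation.leibniz, e1, smul_zero, zero_add, smul_eq_mul, mul_comm]
  have f2 : D (b 1 * ((k : K) / 2 - (j : ℕ))) = D (b 1) * ((k : K) / 2 - (j : ℕ)) := by
    rw [Derivation.leibniz, e2, smul_zero, zero_add, smul_eq_mul, mul_comm]
  have f3 : D (b 0 * ((j : ℕ) : K)) = D (b 0) * ((j : ℕ) : K) := by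
    rw [Derivation.leibniz, e3, smul_zero, zero_add, smul_eq_mul, mul_comm]
  rw [slm, slm, Matrix.of_apply, Matrix.of_apply, map_sub, map_add]
  congr 1
  · congr 1
    · split_ifs
      · exact f1
      · exact map_zero D
    · split_ifs
      · exact f2
      · exact map_zero D
  · split_ifs
    · exact f3
    · exact map_zero D

theorem ALG10_slm_deriv [CharZero K] (D : Derivation ℂ K K) (b : Fin 3 → K)
    (v : Fin (k + 1) → K) (i : Fin (k + 1)) :
    D ((slm k b *ᵥ v) i) = (slm k (fun l => D (b l)) *ᵥ v) i +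
      (slm k b *ᵥ (fun l => D (v l))) i := by
  rw [Matrix.mulVec, Matrix.mulVec, Matrix.mulVec, dotProduct, dotProduct, dotProduct, map_sum,
    ← Finset.sum_add_distrib]
  refine Finset.sum_congr rfl fun l _ => ?_
  rw [Derivation.leibniz, ALG10_slm_entry, smul_eq_mul, smul_eq_mul]
  ring

theorem ALG10_slm_sub (b c d : Fin 3 → K) (v : Fin (k + 1) → K) (i : Fin (k + 1)) :
    (slm k (fun j => b j - c j - d j) *ᵥ v) i = (slm k b *ᵥ v) i - (slm k c *ᵥ v) i -
      (slm k d *ᵥ v) i := by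
  rw [Matrix.mulVec, Matrix.mulVec, Matrix.mulVec, Matrix.mulVec, dotProduct, dotProduct,
    dotProduct, dotProduct, ← Finset.sum_sub_distrib, ← Finset.sum_sub_distrib]
  refine Finset.sum_congr rfl fun l _ => ?_
  rw [← sub_mul, ← sub_mul]
  congr 1
  simp only [slm, Matrix.of_apply]
  split_ifs <;> ring

theorem ALG10_mulVec_add (M : Matrix (Fin (k + 1)) (Fin (k + 1)) K) (u v w : Fin (k + 1) → K)
    (c : K) (i : Fin (k + 1)) :
    (M *ᵥ (fun l => c * u l + v l + w l)) i = c * (M *ᵥ u) i + (M *ᵥ v) i + (M *ᵥ w) i := by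
  rw [Matrix.mulVec, Matrix.mulVec, Matrix.mulVec, Matrix.mulVec, dotProduct, dotProduct,
    dotProduct, dotProduct, Finset.mul_sum, ← Finset.sum_add_distrib, ← Finset.sum_add_distrib]
  refine Finset.sum_congr rfl fun l _ => ?_
  ring

theorem ALG10_bracket [CharZero K] (b b' : Fin 3 → K) (v : Fin (k + 1) → K) (i : Fin (k + 1)) :
    (slm k b *ᵥ (slm k b' *ᵥ v)) i - (slm k b' *ᵥ (slm k b *ᵥ v)) i =
      (slm k (bra b b') *ᵥ v) i := by
  rw [← slm_bracket, Matrix.sub_mulVec, Matrix.mulVec_mulVec, Matrix.mulVec_mulVec]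
  rfl

/-- one half of the commutator on `V` -/
theorem ALG10_V [CharZero K] {S : Side k K} {δ D D' : Derivation ℂ K K} {b b' : Fin 3 → K}
    {a a' : Fin (k + 1) → K} (hδ : Part S δ 0 0) (hx : δ S.x ≠ 0) (h : Part S D b a)
    (h' : Part S D' b' a') (j : Fin (k + 1)) :
    D (D' (S.V j)) = D (D' S.x) * (S.g * frm k S.t0 S.t0 k j) +
      D' S.x * D S.x * ((δ S.g / δ S.x) * frm k S.t0 S.t0 k j -
        S.g * (k : K) * S.t1 * ALG10_fr k S.t0 j) -
      D' S.x * S.g * ((k : K) / 2 * (b 1 + 2 * b 2 * S.t0) * frm k S.t0 S.t0 k j +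
        (k : K) * (b 0 + b 1 * S.t0 + b 2 * S.t0 ^ 2) * ALG10_fr k S.t0 j) -
      D S.x * S.g * ((k : K) / 2 * (b' 1 + 2 * b' 2 * S.t0) * frm k S.t0 S.t0 k j +
        (k : K) * (b' 0 + b' 1 * S.t0 + b' 2 * S.t0 ^ 2) * ALG10_fr k S.t0 j) +
      (slm k (fun l => D (b' l)) *ᵥ S.V) j + (slm k b' *ᵥ (slm k b *ᵥ S.V)) j +
      (slm k b' *ᵥ a) j + D (a' j) := by
  have hV : (fun l => D (S.V l)) = fun l => (D S.x * S.g) * frm k S.t0 S.t0 k l +
      (slm k b *ᵥ S.V) l + a l := by
    funext l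
    rw [h.hV l]
    ring
  rw [h'.hV j, map_add, map_add, ALG10_slm_deriv, hV, ALG10_mulVec_add, ALG10_slm_frm,
    Derivation.leibniz, Derivation.leibniz, ALG10_frm_deriv, h.g_eq hδ hx, h.h0]
  simp only [smul_eq_mul]
  ring

/-- The parts of a commutator. -/
theorem Part.comm [CharZero K] {S : Side k K} {δ D D' : Derivation ℂ K K} {b b' : Fin 3 → K}
    {a a' : Fin (k + 1) → K} (hδ : Part S δ 0 0) (hx : δ S.x ≠ 0) (h : Part S D b a)
    (h' : Part S D' b' a') :
    Part S ⁅D, D'⁆ (fun j => D (b' j) - D' (b j) - bra b b' j)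
      (fun j => D (a' j) - D' (a j) - ((slm k b *ᵥ a') j - (slm k b' *ᵥ a) j)) := by
  have two' : ∀ E : Derivation ℂ K K, E (2 : K) = 0 := by
    intro E
    have := E.map_natCast 2
    rwa [Nat.cast_ofNat] at this
  have b0 : bra b b' 0 = b 1 * b' 0 - b 0 * b' 1 := rfl
  have b1 : bra b b' 1 = 2 * (b 2 * b' 0 - b 0 * b' 2) := rfl
  have b2 : bra b b' 2 = b 2 * b' 1 - b 1 * b' 2 := rfl
  refine ⟨?_, ?_, ?_, ?_⟩
  · rw [Derivation.commutator_apply, Derivation.commutator_apply, h.h0, h'.h0, b0, b1, b2]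
    simp only [map_add, Derivation.leibniz, Derivation.leibniz_pow, smul_eq_mul, nsmul_eq_mul]
    rw [h.h0, h'.h0, h.h1, h'.h1]
    push_cast
    ring
  · rw [Derivation.commutator_apply, Derivation.commutator_apply, h.h1, h'.h1, b1, b2]
    simp only [map_add, Derivation.leibniz, smul_eq_mul, two']
    rw [h.h0, h'.h0, h.h1, h'.h1, h.h2, h'.h2]
    ring
  · rw [Derivation.commutator_apply, Derivation.commutator_apply, h.h2, h'.h2, b1, b2]
    simp only [map_add, Derivation.leibniz, Derivation.leibniz_pow, smul_eq_mul, nsmul_eq_mul,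
      two']
    rw [h.h0, h'.h0, h.h1, h'.h1, h.h2, h'.h2, h.t3_eq hδ hx, h'.t3_eq hδ hx]
    push_cast
    ring
  · intro j
    rw [Derivation.commutator_apply, Derivation.commutator_apply, ALG10_V hδ hx h h' j,
      ALG10_V hδ hx h' h j, ALG10_slm_sub]
    linear_combination -ALG10_bracket b b' S.V j

theorem exists_of_part [CharZero K] (S : Side k K) (b : Fin 3 → K) (a : Fin (k + 1) → K) :
    ∃ D : Derivation ℂ K K, D S.x = 0 ∧ Part S D b a := by
  obtain ⟨D, hD⟩ := exists_derivation S.indep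
    (Sum.elim ![0, b 0 + b 1 * S.t0 + b 2 * S.t0 ^ 2, (b 1 + 2 * b 2 * S.t0) * S.t1,
      (b 1 + 2 * b 2 * S.t0) * S.t2 + 2 * b 2 * S.t1 ^ 2]
      (fun j => (slm k b *ᵥ S.V) j + a j))
  have h0 : D S.x = 0 := hD (Sum.inl 0)
  have h1 : D S.t0 = b 0 + b 1 * S.t0 + b 2 * S.t0 ^ 2 := hD (Sum.inl 1)
  have h2 : D S.t1 = (b 1 + 2 * b 2 * S.t0) * S.t1 := hD (Sum.inl 2)
  have h3 : D S.t2 = (b 1 + 2 * b 2 * S.t0) * S.t2 + 2 * b 2 * S.t1 ^ 2 := hD (Sum.inl 3)
  have h4 : ∀ j, D (S.V j) = (slm k b *ᵥ S.V) j + a j := fun j => hD (Sum.inr j)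
  refine ⟨D, h0, ?_, ?_, ?_, ?_⟩
  · rw [h0, h1]; ring
  · rw [h0, h2]; ring
  · rw [h0, h3]; ring
  · intro j
    rw [h0, h4]; ring

theorem ALG12_zero {S : Side k K} {δ : Derivation ℂ K K} (hδ : Part S δ 0 0)
    (hx : δ S.x ≠ 0) {D : Derivation ℂ K K} {b : Fin 3 → K} {a : Fin (k + 1) → K}
    (h : Part S D b a) (i : Fin 3) :
    D (S.nil i) = D S.x * (δ (S.nil i) / δ S.x) + bra b S.nil i := by
  have ht1 := S.ht1
  have d0 : δ S.t0 = δ S.x * S.t1 := by simpa using hδ.h0
  have d1 : δ S.t1 = δ S.x * S.t2 := by simpa using hδ.h1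
  have e0 := h.h0
  have e1 := h.h1
  fin_cases i
  · simp only [Side.nil, bra, Matrix.cons_val, Fin.zero_eta, Fin.mk_one, Fin.reduceFinMk]
    rw [div_eq_mul_inv, Derivation.leibniz, Derivation.leibniz, Derivation.leibniz_inv,
      Derivation.leibniz_inv, Derivation.leibniz_pow, Derivation.leibniz_pow, d0, d1, e0, e1]
    simp only [smul_eq_mul, nsmul_eq_mul]
    field_simp
    push_cast
    ring
  · simp only [Side.nil, bra, Matrix.cons_val, Fin.zero_eta, Fin.mk_one, Fin.reduceFinMk]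
    have h2 : ∀ E : Derivation ℂ K K, E (2 : K) = 0 := by
      intro E
      have := E.map_natCast 2
      simpa using this
    rw [div_eq_mul_inv, Derivation.leibniz, Derivation.leibniz, Derivation.leibniz_inv,
      Derivation.leibniz_inv, map_neg, map_neg, Derivation.leibniz, Derivation.leibniz, d0, d1,
      e0, e1, h2, h2]
    simp only [smul_eq_mul, nsmul_eq_mul]
    field_simp
    ring
  · simp only [Side.nil, bra, Matrix.cons_val, Fin.zero_eta, Fin.mk_one, Fin.reduceFinMk]
    rw [one_div, Derivation.leibniz_inv, Derivation.leibniz_inv, d1, e1]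
    simp only [smul_eq_mul, nsmul_eq_mul]
    field_simp
    ring

theorem ALG12_leib (E : Derivation ℂ K K) (b c : Fin 3 → K) (i : Fin 3) :
    E (bra b c i) = bra (fun j => E (b j)) c i + bra b (fun j => E (c j)) i := by
  have h2 : E (2 : K) = 0 := by
    have := E.map_natCast 2
    simpa using this
  fin_cases i
  · simp only [bra, Matrix.cons_val, Fin.zero_eta, Fin.mk_one, Fin.reduceFinMk, map_sub,
      Derivation.leibniz, smul_eq_mul]
    ring
  · simp only [bra, Matrix.cons_val, Fin.zero_eta, Fin.mk_one, Fin.reduceFinMk, map_sub,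
      Derivation.leibniz, smul_eq_mul, h2]
    ring
  · simp only [bra, Matrix.cons_val, Fin.zero_eta, Fin.mk_one, Fin.reduceFinMk, map_sub,
      Derivation.leibniz, smul_eq_mul]
    ring

/-- The jets of `(X - t0)² / t1` are equivariant. -/
theorem Part.jet [CharZero K] {S : Side k K} {δ : Derivation ℂ K K} (hδ : Part S δ 0 0)
    (hx : δ S.x ≠ 0) (n : ℕ) {D : Derivation ℂ K K} {b : Fin 3 → K} {a : Fin (k + 1) → K}
    (h : Part S D b a) (i : Fin 3) :
    D (S.jet δ n i) = D S.x * S.jet δ (n + 1) i + bra b (S.jet δ n) i := by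
  induction n generalizing D b a i with
  | zero => exact ALG12_zero hδ hx h i
  | succ n ih =>
    have hs0 : slm k (0 : Fin 3 → K) = 0 := by
      ext i j
      simp [slm]
    have h0 : Part S (0 : Derivation ℂ K K) 0 0 := by
      constructor <;> simp [hs0]
    have hdd : Part S ((δ S.x)⁻¹ • δ) 0 0 := by
      have := Part.add hδ h0 (δ S.x)⁻¹
      simpa using this
    have hc := Part.comm hδ hx h hdd
    have hih := ih hc
    have hjet : ∀ j, S.jet δ (n + 1) j = ((δ S.x)⁻¹ • δ) (S.jet δ n j) := by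
      intro j
      simp only [Side.jet, Derivation.smul_apply, smul_eq_mul]
      rw [div_eq_inv_mul]
    have hjet2 : ∀ j, S.jet δ (n + 2) j = ((δ S.x)⁻¹ • δ) (S.jet δ (n + 1) j) := by
      intro j
      show δ (S.jet δ (n + 1) j) / δ S.x = _
      simp only [Derivation.smul_apply, smul_eq_mul]
      rw [div_eq_inv_mul]
    have hx1 : ((δ S.x)⁻¹ • δ) S.x = 1 := by
      simp only [Derivation.smul_apply, smul_eq_mul]
      exact inv_mul_cancel₀ hx
    have hcx : (⁅D, (δ S.x)⁻¹ • δ⁆ : Derivation ℂ K K) S.x = - ((δ S.x)⁻¹ • δ) (D S.x) := by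
      rw [Derivation.commutator_apply, hx1, Derivation.map_one_eq_zero, zero_sub]
    have key := hih i
    rw [Derivation.commutator_apply, ← hjet, hcx, ih h i] at key
    rw [map_add, Derivation.leibniz, ALG12_leib, ← hjet2] at key
    have hb : (fun j => D ((0 : Fin 3 → K) j) - ((δ S.x)⁻¹ • δ) (b j) - bra b 0 j) =
        -(fun j => ((δ S.x)⁻¹ • δ) (b j)) := by
      funext j
      fin_cases j <;> simp [bra]
    have hb2 : ∀ (u c : Fin 3 → K), bra (-u) c i = - bra u c i := by
      intro u c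
      fin_cases i <;> simp [bra] <;> ring
    rw [hb, hb2] at key
    have hj' : (fun j => ((δ S.x)⁻¹ • δ) (S.jet δ n j)) = S.jet δ (n + 1) := by
      funext j
      rw [hjet]
    rw [hj'] at key
    simp only [smul_eq_mul] at key
    linear_combination key

end One

/-! ## Ideals of `sl₂ ⋉ Sym^k` -/

section Ideal
variable {k : ℕ}

private theorem ALG13_entry (b : Fin 3 → ℂ) (i j : Fin (k + 1)) :
    (slm k b *ᵥ (Pi.single j 1)) i =
      (if (i : ℕ) = j + 1 then b 2 * ((k : ℂ) - (j : ℕ)) else 0) +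
      (if i = j then b 1 * ((k : ℂ) / 2 - (j : ℕ)) else 0) -
      (if (i : ℕ) + 1 = j then b 0 * ((j : ℕ) : ℂ) else 0) := by
  rw [Matrix.mulVec_single_one]
  rfl

private theorem ALG13_low (v : Fin (k + 1) → ℂ) (i : Fin (k + 1)) :
    (slm k ![1, 0, 0] *ᵥ v) i =
      if h : (i : ℕ) + 1 < k + 1 then -(((i : ℕ) : ℂ) + 1) * v ⟨i + 1, h⟩ else 0 := by
  have h1 : (slm k ![1, 0, 0] *ᵥ v) i =
      ∑ j : Fin (k + 1), (if (i : ℕ) + 1 = j then -((j : ℕ) : ℂ) * v j else 0) := by
    rw [Matrix.mulVec, dotProduct]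
    apply Finset.sum_congr rfl
    intro j _
    simp only [slm, Matrix.of_apply]
    by_cases h : (i : ℕ) + 1 = j
    · simp [h]
    · simp [h]
  rw [h1]
  split_ifs with h
  · rw [Finset.sum_eq_single ⟨(i : ℕ) + 1, h⟩]
    · simp
    · intro j _ hj
      rw [if_neg]
      intro h2
      apply hj
      ext
      exact h2.symm
    · intro h2
      exact absurd (Finset.mem_univ _) h2
  · apply Finset.sum_eq_zero
    intro j _
    rw [if_neg]
    intro h2
    apply h
    rw [h2]
    exact j.isLt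

/-- A nonzero subspace of `Sym^k` stable under `sl₂` is everything. -/
theorem irreducible (N : Submodule ℂ (Fin (k + 1) → ℂ)) (hN : ∀ b, ∀ a ∈ N, slm k b *ᵥ a ∈ N)
    (h0 : N ≠ ⊥) : N = ⊤ := by
  classical
  have key : ∀ d : ℕ, ∀ a ∈ N, a ≠ 0 → (∀ j : Fin (k + 1), d < (j : ℕ) → a j = 0) →
      (Pi.single (0 : Fin (k + 1)) (1 : ℂ) : Fin (k + 1) → ℂ) ∈ N := by
    intro d
    induction d with
    | zero =>
      intro a ha hne hz
      have h1 : a = a 0 • (Pi.single (0 : Fin (k + 1)) (1 : ℂ) : Fin (k + 1) → ℂ) := by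
        funext j
        by_cases hj : j = 0
        · subst hj
          simp
        · have h2 : 0 < (j : ℕ) := by
            rcases Nat.eq_zero_or_pos (j : ℕ) with h3 | h3
            · exact absurd (Fin.ext h3) hj
            · exact h3
          rw [hz j h2]
          simp [hj]
      have h2 : a 0 ≠ 0 := by
        intro h3
        apply hne
        rw [h1, h3, zero_smul]
      have h3 : (a 0)⁻¹ • a ∈ N := N.smul_mem _ ha
      rw [h1, smul_smul] at h3
      have h4 : (a 0)⁻¹ * a 0 = 1 := inv_mul_cancel₀ h2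
      simp only [Pi.smul_apply, Pi.single_eq_same, smul_eq_mul, mul_one] at h3
      rw [h4, one_smul] at h3
      exact h3
    | succ d ih =>
      intro a ha hne hz
      by_cases hd : ∀ j : Fin (k + 1), d < (j : ℕ) → a j = 0
      · exact ih a ha hne hd
      · push Not at hd
        obtain ⟨j, hj, hja⟩ := hd
        have hj' : (j : ℕ) = d + 1 := by
          by_contra h
          exact hja (hz j (by omega))
        have hm := hN ![1, 0, 0] a ha
        apply ih _ hm
        · intro h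
          have hdk : d < k + 1 := by have := j.isLt; omega
          have h1 := congrFun h ⟨d, hdk⟩
          rw [ALG13_low] at h1
          have h2 : d + 1 < k + 1 := by have := j.isLt; omega
          rw [dif_pos h2] at h1
          have h3 : (⟨d + 1, h2⟩ : Fin (k + 1)) = j := by
            ext
            exact hj'.symm
          simp only [Pi.zero_apply] at h1
          rw [h3] at h1
          have h4 : ((d : ℂ) + 1) ≠ 0 := Nat.cast_add_one_ne_zero d
          rcases mul_eq_zero.mp h1 with h5 | h5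
          · exact h4 (neg_eq_zero.mp h5)
          · exact hja h5
        · intro l hl
          rw [ALG13_low]
          split_ifs with h
          · rw [hz ⟨(l : ℕ) + 1, h⟩ (by simp only; omega), mul_zero]
          · rfl
  obtain ⟨a, ha, hne⟩ := (Submodule.ne_bot_iff N).mp h0
  have he0 := key k a ha hne (fun j hj => by have := j.isLt; omega)
  have he : ∀ j : ℕ, ∀ hj : j < k + 1, (Pi.single (⟨j, hj⟩ : Fin (k + 1)) (1 : ℂ) :
      Fin (k + 1) → ℂ) ∈ N := by
    intro j
    induction j with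
    | zero =>
      intro hj
      exact he0
    | succ j ih =>
      intro hj
      have hm := hN ![0, 0, 1] _ (ih (by omega))
      have h1 : slm k ![0, 0, 1] *ᵥ (Pi.single (⟨j, by omega⟩ : Fin (k + 1)) (1 : ℂ)) =
          ((k : ℂ) - j) • (Pi.single (⟨j + 1, hj⟩ : Fin (k + 1)) (1 : ℂ) : Fin (k + 1) → ℂ) := by
        funext i
        rw [ALG13_entry]
        by_cases hi : i = (⟨j + 1, hj⟩ : Fin (k + 1))
        · subst hi
          simp
        · have h2 : (i : ℕ) ≠ j + 1 := fun h => hi (Fin.ext h)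
          simp [h2, hi]
      rw [h1] at hm
      have h2 : ((k : ℂ) - j) ≠ 0 := by
        rw [sub_ne_zero]
        intro h
        have h3 : k = j := by exact_mod_cast h
        omega
      have h3 := N.smul_mem ((k : ℂ) - j)⁻¹ hm
      rw [smul_smul, inv_mul_cancel₀ h2, one_smul] at h3
      exact h3
  rw [Submodule.eq_top_iff']
  intro x
  have hx : x = ∑ j : Fin (k + 1), x j • (Pi.single j (1 : ℂ) : Fin (k + 1) → ℂ) := by
    funext i
    rw [Finset.sum_apply, Finset.sum_eq_single i]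
    · simp
    · intro j _ hj
      simp [Ne.symm hj]
    · intro h
      exact absurd (Finset.mem_univ _) h
  rw [hx]
  exact N.sum_mem fun j _ => N.smul_mem _ (he j j.isLt)

/-- Only `0` acts by zero on `Sym^k`. -/
private theorem ALG13_faithful (hk : 1 ≤ k) (b : Fin 3 → ℂ) (h : ∀ a, slm k b *ᵥ a = 0) :
    b = 0 := by
  have hk' : (k : ℂ) ≠ 0 := by
    have : k ≠ 0 := by omega
    exact_mod_cast this
  have h2 : b 2 = 0 := by
    have h1 := congrFun (h (Pi.single (⟨0, by omega⟩ : Fin (k + 1)) 1)) ⟨1, by omega⟩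
    rw [ALG13_entry] at h1
    simp at h1
    rcases h1 with h1 | h1
    · exact h1
    · omega
  have h1 : b 1 = 0 := by
    have h1 := congrFun (h (Pi.single (⟨0, by omega⟩ : Fin (k + 1)) 1)) ⟨0, by omega⟩
    rw [ALG13_entry] at h1
    simp at h1
    rcases h1 with h1 | h1
    · exact h1
    · omega
  have h0 : b 0 = 0 := by
    have h1 := congrFun (h (Pi.single (⟨1, by omega⟩ : Fin (k + 1)) 1)) ⟨0, by omega⟩
    rw [ALG13_entry] at h1
    simpa using h1
  funext i
  fin_cases i
  · exact h0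
  · exact h1
  · exact h2

/-- A nonzero ideal of `sl₂ ⋉ Sym^k` contains `Sym^k`. -/
theorem ideal_contains (hk : 1 ≤ k) (N : Submodule ℂ ((Fin 3 → ℂ) × (Fin (k + 1) → ℂ)))
    (hN : ∀ (b : Fin 3 → ℂ) (a : Fin (k + 1) → ℂ), ∀ c ∈ N,
      (bra b c.1, slm k b *ᵥ c.2 - slm k c.1 *ᵥ a) ∈ N) (h0 : N ≠ ⊥) (a : Fin (k + 1) → ℂ) :
    ((0, a) : (Fin 3 → ℂ) × (Fin (k + 1) → ℂ)) ∈ N := by
  have hb0 : ∀ b : Fin 3 → ℂ, bra b 0 = 0 := by
    intro b
    funext i
    fin_cases i <;> simp [bra]
  have h0b : ∀ b : Fin 3 → ℂ, bra 0 b = 0 := by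
    intro b
    funext i
    fin_cases i <;> simp [bra]
  have hs0 : slm k (0 : Fin 3 → ℂ) = 0 := by
    ext i j
    simp [slm]
  set N0 : Submodule ℂ (Fin (k + 1) → ℂ) :=
    N.comap (LinearMap.inr ℂ (Fin 3 → ℂ) (Fin (k + 1) → ℂ)) with hN0
  have hmem : ∀ v, v ∈ N0 ↔ ((0, v) : (Fin 3 → ℂ) × (Fin (k + 1) → ℂ)) ∈ N := by
    intro v
    rfl
  have hst : ∀ b, ∀ v ∈ N0, slm k b *ᵥ v ∈ N0 := by
    intro b v hv
    rw [hmem] at hv ⊢
    have h1 := hN b 0 _ hv
    simp only [hb0, Matrix.mulVec_zero, sub_zero] at h1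
    exact h1
  by_cases hbot : N0 = ⊥
  · exfalso
    obtain ⟨c, hc, hne⟩ := (Submodule.ne_bot_iff N).mp h0
    have h1 : c.1 = 0 := by
      apply ALG13_faithful hk
      intro v
      have h2 := hN 0 v c hc
      rw [h0b, hs0, Matrix.zero_mulVec, zero_sub] at h2
      have h3 : -(slm k c.1 *ᵥ v) ∈ N0 := (hmem _).mpr h2
      rw [hbot, Submodule.mem_bot] at h3
      exact neg_eq_zero.mp h3
    have h2 : c.2 ∈ N0 := by
      rw [hmem, ← h1]
      exact hc
    rw [hbot, Submodule.mem_bot] at h2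
    exact hne (Prod.ext h1 h2)
  · have h1 := irreducible N0 hst hbot
    have h2 : a ∈ N0 := by
      rw [h1]
      exact Submodule.mem_top
    exact (hmem a).mp h2

/-- Only `0` acts by zero on `Sym^k`. -/
theorem slm_faithful (hk : 1 ≤ k) (b : Fin 3 → ℂ) (h : ∀ a, slm k b *ᵥ a = 0) : b = 0 :=
  ALG13_faithful hk b h

end Ideal

/-! ## Two sides -/

section Two
variable {k : ℕ} {K : Type*} [Field K] [Algebra ℂ K]

omit [Algebra ℂ K] in
theorem ALG14_bra_zero (b : Fin 3 → K) : bra 0 b = 0 := by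
  funext i
  fin_cases i <;> simp [bra]

omit [Algebra ℂ K] in
theorem ALG14_slm_zero : slm k (0 : Fin 3 → K) = 0 := by
  ext i j
  simp [slm]

theorem ALG14_part_zero (S : Side k K) : Part S 0 0 0 := by
  constructor
  · simp
  · simp
  · simp
  · intro j
    simp [ALG14_slm_zero]

theorem ALG14_part_congr {S : Side k K} {D : Derivation ℂ K K} {b b' : Fin 3 → K}
    {a a' : Fin (k + 1) → K} (h : Part S D b a) (hb : b = b') (ha : a = a') :
    Part S D b' a' := by
  subst hb ha
  exact h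

theorem ALG14_comm [CharZero K] {S : Side k K} {δ D : Derivation ℂ K K} {b : Fin 3 → K}
    {a : Fin (k + 1) → K} (hδ : Part S δ 0 0) (hx : δ S.x ≠ 0) (h : Part S D b a) :
    Part S ⁅δ, D⁆ (fun j => δ (b j)) (fun j => δ (a j)) := by
  refine ALG14_part_congr (Part.comm hδ hx hδ h) ?_ ?_
  · funext j
    simp [ALG14_bra_zero]
  · funext j
    simp [ALG14_slm_zero]

/-- The space of pairs of parts. -/
def ALG14_W [CharZero K] (L R : Side k K) :
    Submodule K ((Fin 3 ⊕ Fin (k + 1)) ⊕ (Fin 3 ⊕ Fin (k + 1)) → K) where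
  carrier := {w | ∃ D : Derivation ℂ K K,
    Part L D (fun j => w (Sum.inl (Sum.inl j))) (fun j => w (Sum.inl (Sum.inr j))) ∧
    Part R D (fun j => w (Sum.inr (Sum.inl j))) (fun j => w (Sum.inr (Sum.inr j)))}
  zero_mem' := ⟨0, ALG14_part_zero L, ALG14_part_zero R⟩
  add_mem' := by
    rintro v w ⟨D, h1, h2⟩ ⟨D', h1', h2'⟩
    refine ⟨(1 : K) • D + D', ?_, ?_⟩
    · refine ALG14_part_congr (h1.add h1' 1) ?_ ?_ <;> funext j <;> simp
    · refine ALG14_part_congr (h2.add h2' 1) ?_ ?_ <;> funext j <;> simp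
  smul_mem' := by
    rintro u w ⟨D, h1, h2⟩
    refine ⟨u • D + 0, ?_, ?_⟩
    · refine ALG14_part_congr (h1.add (ALG14_part_zero L) u) ?_ ?_ <;> funext j <;> simp
    · refine ALG14_part_congr (h2.add (ALG14_part_zero R) u) ?_ ?_ <;> funext j <;> simp

theorem Two.desc [CharZero K] {L R : Side k K} {δ : Derivation ℂ K K} (T : Two L R δ)
    (π : K →ₗ[ℂ] ℂ) {D : Derivation ℂ K K} {b b' : Fin 3 → K} {a a' : Fin (k + 1) → K}
    (h : Part L D b a) (h' : Part R D b' a') :
    ∃ D' : Derivation ℂ K K, Part L D' (up fun j => π (b j)) (up fun j => π (a j)) ∧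
      Part R D' (up fun j => π (b' j)) (up fun j => π (a' j)) := by
  have hw : (Sum.elim (Sum.elim b a) (Sum.elim b' a') :
      (Fin 3 ⊕ Fin (k + 1)) ⊕ (Fin 3 ⊕ Fin (k + 1)) → K) ∈ ALG14_W L R := ⟨D, h, h'⟩
  have hst : ∀ w ∈ ALG14_W L R, (fun i => δ (w i)) ∈ ALG14_W L R := by
    rintro w ⟨E, h1, h2⟩
    exact ⟨⁅δ, E⁆, ALG14_comm T.hL T.xL h1, ALG14_comm T.hR T.xR h2⟩
  obtain ⟨E, h1, h2⟩ := descent δ T.const (ALG14_W L R) hst π hw
  exact ⟨E, h1, h2⟩

theorem ALG15_slm_zero (v : Fin (k + 1) → K) (j : Fin (k + 1)) :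
    (slm k (0 : Fin 3 → K) *ᵥ v) j = 0 := by
  have h : slm k (0 : Fin 3 → K) = 0 := by
    ext a b
    simp [slm]
  rw [h, Matrix.zero_mulVec]
  rfl

/-- the coefficients in the left case -/
noncomputable def ALG15_W (L R : Side k K) (f : ℕ → K) (j : ℕ) : K :=
  -(if j = 0 then R.g else 0) + R.t1 * (L.t0 - R.t0)⁻¹ *
    ((k - j : ℕ) * f j - if j = 0 then 0 else ((k - (j - 1) : ℕ) * f (j - 1)))

/-- the coefficients in the right case -/
noncomputable def ALG15_Z (L R : Side k K) (f : ℕ → K) (j : ℕ) : K :=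
  (if j = k then L.g else 0) + L.t1 * (L.t0 - R.t0)⁻¹ *
    ((j + 1 : ℕ) * f (j + 1) - (j : ℕ) * f j)

theorem ALG15_single (F : ℕ → K) (n m : ℕ) (hm : m < n) (c : K) :
    ∑ l ∈ Finset.range n, (if l = m then c else 0) * F l = c * F m := by
  rw [Finset.sum_eq_single m]
  · rw [if_pos rfl]
  · intro l _ hl
    rw [if_neg hl, zero_mul]
  · intro h
    exact absurd (Finset.mem_range.2 hm) h

theorem ALG15_left [CharZero K] {L R : Side k K} {δ : Derivation ℂ K K} (T : Two L R δ)
    {f : ℕ → K} {i : ℕ} (hf : Vanish L R f i) {m : ℕ} (hm : m ≤ k)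
    (h : ∃ D, Part L D 0 (frm k L.t0 R.t0 m) ∧ Part R D 0 0) :
    ∃ be : K, ∀ j ≤ k, f j = 0 → 0 = (if j = m then 1 else 0) + be * ALG15_W L R f j := by
  obtain ⟨D0, hL0, hR0⟩ := h
  have hL := Part.add T.hL hL0 (-(D0 L.x / δ L.x))
  have hR := Part.add T.hR hR0 (-(D0 L.x / δ L.x))
  rw [smul_zero, zero_add, smul_zero, zero_add] at hL hR
  generalize hD : (-(D0 L.x / δ L.x)) • δ + D0 = D at hL hR
  have hx : D L.x = 0 := by
    rw [← hD]
    show (-(D0 L.x / δ L.x)) * δ L.x + D0 L.x = 0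
    rw [neg_mul, div_mul_cancel₀ _ T.xL, neg_add_cancel]
  have hne : L.t0 - R.t0 ≠ 0 := sub_ne_zero.2 hf.ne
  have hs : D L.t0 = 0 := by
    rw [hL.h0, hx]
    simp
  have ht : D R.t0 = D R.x * R.t1 := by
    rw [hR.h0]
    simp
  refine ⟨D R.x, fun j hj hj0 => ?_⟩
  have h0 : frm k R.t0 R.t0 k = frm k L.t0 R.t0 0 := by
    funext q
    simp [frm]
  have key := frm_deriv k (s := L.t0) (t := R.t0) (ri := (L.t0 - R.t0)⁻¹)
    (mul_inv_cancel₀ hne) (D.restrictScalars ℤ) (f := f)
    (c := fun l => (if l = m then 1 else 0) + (if l = 0 then -(D R.x * R.g) else 0))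
    (F := fun q => L.V q - R.V q) hf.top hf.eq
    (by
      intro q
      show D (L.V q - R.V q) = _
      rw [map_sub, hL.hV, hR.hV, ALG15_slm_zero, ALG15_slm_zero, hx, h0]
      have e1 : ∑ l ∈ Finset.range (k + 1),
          ((if l = m then (1 : K) else 0) + (if l = 0 then -(D R.x * R.g) else 0)) *
            frm k L.t0 R.t0 l q = 1 * frm k L.t0 R.t0 m q + -(D R.x * R.g) * frm k L.t0 R.t0 0 q := by
        simp only [add_mul]
        rw [Finset.sum_add_distrib,
          ALG15_single (fun l => frm k L.t0 R.t0 l q) (k + 1) m (by omega),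
          ALG15_single (fun l => frm k L.t0 R.t0 l q) (k + 1) 0 (by omega)]
      rw [e1]
      simp only [Pi.zero_apply]
      ring) hj
  rw [hj0] at key
  have e2 : (D.restrictScalars ℤ) (0 : K) = 0 := map_zero _
  have e3 : (D.restrictScalars ℤ) L.t0 = 0 := hs
  have e4 : (D.restrictScalars ℤ) R.t0 = D R.x * R.t1 := ht
  rw [e2, e3, e4] at key
  rw [ALG15_W, hj0]
  have e5 : (if j = 0 then -(D R.x * R.g) else 0) = -(D R.x * (if j = 0 then R.g else 0)) := by
    by_cases h2 : j = 0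
    · rw [if_pos h2, if_pos h2]
    · rw [if_neg h2, if_neg h2, mul_zero, neg_zero]
  rw [e5] at key
  refine key.trans ?_
  ring

theorem ALG15_right [CharZero K] {L R : Side k K} {δ : Derivation ℂ K K} (T : Two L R δ)
    {f : ℕ → K} {i : ℕ} (hf : Vanish L R f i) {m : ℕ} (hm : m ≤ k)
    (h : ∃ D, Part L D 0 0 ∧ Part R D 0 (frm k L.t0 R.t0 m)) :
    ∃ al : K, ∀ j ≤ k, f j = 0 → 0 = -(if j = m then 1 else 0) + al * ALG15_Z L R f j := by
  obtain ⟨D0, hL0, hR0⟩ := h
  have hL := Part.add T.hL hL0 (-(D0 R.x / δ R.x))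
  have hR := Part.add T.hR hR0 (-(D0 R.x / δ R.x))
  rw [smul_zero, zero_add, smul_zero, zero_add] at hL hR
  generalize hD : (-(D0 R.x / δ R.x)) • δ + D0 = D at hL hR
  have hx : D R.x = 0 := by
    rw [← hD]
    show (-(D0 R.x / δ R.x)) * δ R.x + D0 R.x = 0
    rw [neg_mul, div_mul_cancel₀ _ T.xR, neg_add_cancel]
  have hne : L.t0 - R.t0 ≠ 0 := sub_ne_zero.2 hf.ne
  have ht : D R.t0 = 0 := by
    rw [hR.h0, hx]
    simp
  have hs : D L.t0 = D L.x * L.t1 := by
    rw [hL.h0]
    simp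
  refine ⟨D L.x, fun j hj hj0 => ?_⟩
  have h0 : frm k L.t0 L.t0 k = frm k L.t0 R.t0 k := by
    funext q
    simp [frm]
  have key := frm_deriv k (s := L.t0) (t := R.t0) (ri := (L.t0 - R.t0)⁻¹)
    (mul_inv_cancel₀ hne) (D.restrictScalars ℤ) (f := f)
    (c := fun l => (if l = m then -1 else 0) + (if l = k then D L.x * L.g else 0))
    (F := fun q => L.V q - R.V q) hf.top hf.eq
    (by
      intro q
      show D (L.V q - R.V q) = _
      rw [map_sub, hL.hV, hR.hV, ALG15_slm_zero, ALG15_slm_zero, hx, h0]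
      have e1 : ∑ l ∈ Finset.range (k + 1),
          ((if l = m then (-1 : K) else 0) + (if l = k then D L.x * L.g else 0)) *
            frm k L.t0 R.t0 l q = -1 * frm k L.t0 R.t0 m q + D L.x * L.g * frm k L.t0 R.t0 k q := by
        simp only [add_mul]
        rw [Finset.sum_add_distrib,
          ALG15_single (fun l => frm k L.t0 R.t0 l q) (k + 1) m (by omega),
          ALG15_single (fun l => frm k L.t0 R.t0 l q) (k + 1) k (by omega)]
      rw [e1]
      simp only [Pi.zero_apply]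
      ring) hj
  rw [hj0] at key
  have e2 : (D.restrictScalars ℤ) (0 : K) = 0 := map_zero _
  have e3 : (D.restrictScalars ℤ) R.t0 = 0 := ht
  have e4 : (D.restrictScalars ℤ) L.t0 = D L.x * L.t1 := hs
  rw [e2, e3, e4] at key
  rw [ALG15_Z, hj0]
  have e5 : (if j = k then D L.x * L.g else 0) = D L.x * (if j = k then L.g else 0) := by
    by_cases h2 : j = k
    · rw [if_pos h2, if_pos h2]
    · rw [if_neg h2, if_neg h2, mul_zero]
  have e6 : (if j = m then (-1 : K) else 0) = -(if j = m then 1 else 0) := by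
    by_cases h2 : j = m
    · rw [if_pos h2, if_pos h2]
    · rw [if_neg h2, if_neg h2, neg_zero]
  rw [e5, e6] at key
  refine key.trans ?_
  ring

theorem Vanish.not_left [CharZero K] {L R : Side k K} {δ : Derivation ℂ K K} (T : Two L R δ)
    {f : ℕ → K} {i : ℕ} (hf : Vanish L R f i) :
    ¬ ∀ a : Fin (k + 1) → K, ∃ D, Part L D 0 a ∧ Part R D 0 0 := by
  intro h
  obtain ⟨b1, h1⟩ := ALG15_left T hf hf.le (h _)
  obtain ⟨b2, h2⟩ := ALG15_left T hf (Nat.sub_le k i) (h _)
  have hi := hf.le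
  have hne : k - i ≠ i := by
    have := hf.ne2
    omega
  have e1 := h1 i hf.le hf.zero
  have e2 := h1 (k - i) (Nat.sub_le k i) hf.zero'
  have e3 := h2 (k - i) (Nat.sub_le k i) hf.zero'
  rw [if_pos rfl] at e1 e3
  rw [if_neg hne, zero_add] at e2
  have hb : b1 ≠ 0 := by
    intro h0
    rw [h0, zero_mul, add_zero] at e1
    exact one_ne_zero e1.symm
  have hW : ALG15_W L R f (k - i) = 0 := by
    rcases mul_eq_zero.1 e2.symm with h0 | h0
    · exact absurd h0 hb
    · exact h0
  rw [hW, mul_zero, add_zero] at e3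
  exact one_ne_zero e3.symm

theorem Vanish.not_right [CharZero K] {L R : Side k K} {δ : Derivation ℂ K K} (T : Two L R δ)
    {f : ℕ → K} {i : ℕ} (hf : Vanish L R f i) :
    ¬ ∀ a : Fin (k + 1) → K, ∃ D, Part L D 0 0 ∧ Part R D 0 a := by
  intro h
  obtain ⟨b1, h1⟩ := ALG15_right T hf hf.le (h _)
  obtain ⟨b2, h2⟩ := ALG15_right T hf (Nat.sub_le k i) (h _)
  have hi := hf.le
  have hne : k - i ≠ i := by
    have := hf.ne2
    omega
  have e1 := h1 i hf.le hf.zero
  have e2 := h1 (k - i) (Nat.sub_le k i) hf.zero'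
  have e3 := h2 (k - i) (Nat.sub_le k i) hf.zero'
  rw [if_pos rfl] at e1 e3
  rw [if_neg hne, neg_zero, zero_add] at e2
  have hb : b1 ≠ 0 := by
    intro h0
    rw [h0, zero_mul, add_zero] at e1
    exact one_ne_zero (neg_eq_zero.1 e1.symm)
  have hW : ALG15_Z L R f (k - i) = 0 := by
    rcases mul_eq_zero.1 e2.symm with h0 | h0
    · exact absurd h0 hb
    · exact h0
  rw [hW, mul_zero, add_zero] at e3
  exact one_ne_zero (neg_eq_zero.1 e3.symm)

theorem ALG16_up_bra (b c : Fin 3 → ℂ) :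
    (up (bra b c) : Fin 3 → K) = bra (up b) (up c) := by
  have h2 : algebraMap ℂ K 2 = 2 := map_ofNat _ 2
  funext j
  fin_cases j <;> simp [up, bra, map_sub, map_mul, h2]

theorem ALG16_up_slm (b : Fin 3 → ℂ) (a : Fin (k + 1) → ℂ) :
    (up (slm k b *ᵥ a) : Fin (k + 1) → K) = slm k (up b) *ᵥ up a := by
  funext j
  simp only [up, Matrix.mulVec, dotProduct, map_sum, map_mul]
  refine Finset.sum_congr rfl fun l _ => ?_
  congr 1
  simp only [slm, Matrix.of_apply, map_sub, map_add]
  have h1 : ∀ (p : Prop) [Decidable p] (x : ℂ),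
      algebraMap ℂ K (if p then x else 0) = if p then algebraMap ℂ K x else 0 := by
    intro p _ x
    split_ifs <;> simp
  have h2 : algebraMap ℂ K 2 = 2 := map_ofNat _ 2
  rw [h1, h1, h1]
  simp [map_sub, map_mul, map_div₀, h2, up]

theorem ALG16_kill {n : ℕ} (D : Derivation ℂ K K) (v : Fin n → ℂ) (j : Fin n) :
    D ((up v : Fin n → K) j) = 0 := D.map_algebraMap _

theorem ALG16_zero (S : Side k K) : Part S (0 : Derivation ℂ K K) 0 0 := by
  have e3 : slm k (0 : Fin 3 → K) = 0 := by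
    ext i j
    simp [slm]
  constructor <;> simp [e3]

/-- The ideal of constant right parts of derivations without left part. -/
theorem ALG16_main [CharZero K] (hk : 1 ≤ k) {L R : Side k K} {δ : Derivation ℂ K K}
    (T : Two L R δ)
    (no : ¬ ∀ a : Fin (k + 1) → K, ∃ D, Part L D 0 0 ∧ Part R D 0 a)
    (D : Derivation ℂ K K) (b : Fin 3 → K) (a : Fin (k + 1) → K)
    (hL : Part L D 0 0) (hR : Part R D b a) : b = 0 ∧ a = 0 := by
  classical
  by_contra hne
  -- the ideal
  let N : Submodule ℂ ((Fin 3 → ℂ) × (Fin (k + 1) → ℂ)) :=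
    { carrier := {c | ∃ D, Part L D 0 0 ∧ Part R D (up c.1) (up c.2)}
      zero_mem' := by
        refine ⟨0, ALG16_zero L, ?_⟩
        have h := ALG16_zero R
        have e1 : (up (0 : (Fin 3 → ℂ) × (Fin (k + 1) → ℂ)).1 : Fin 3 → K) = 0 := by
          funext j; simp [up]
        have e2 : (up (0 : (Fin 3 → ℂ) × (Fin (k + 1) → ℂ)).2 : Fin (k + 1) → K) = 0 := by
          funext j; simp [up]
        rw [e1, e2]
        exact h
      add_mem' := by
        rintro c c' ⟨E, h1, h2⟩ ⟨E', h1', h2'⟩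
        refine ⟨(1 : K) • E + E', ?_, ?_⟩
        · have := h1.add h1' 1
          simpa using this
        · have := h2.add h2' 1
          have e1 : (up (c + c').1 : Fin 3 → K) = (1 : K) • up c.1 + up c'.1 := by
            funext j; simp [up]
          have e2 : (up (c + c').2 : Fin (k + 1) → K) = (1 : K) • up c.2 + up c'.2 := by
            funext j; simp [up]
          rw [e1, e2]
          exact this
      smul_mem' := by
        rintro z c ⟨E, h1, h2⟩
        refine ⟨(algebraMap ℂ K z) • E + 0, ?_, ?_⟩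
        · have := h1.add (ALG16_zero L) (algebraMap ℂ K z)
          simpa using this
        · have := h2.add (ALG16_zero R) (algebraMap ℂ K z)
          have e1 : (up (z • c).1 : Fin 3 → K) = (algebraMap ℂ K z) • up c.1 + 0 := by
            funext j; simp [up, Algebra.smul_def]
          have e2 : (up (z • c).2 : Fin (k + 1) → K) = (algebraMap ℂ K z) • up c.2 + 0 := by
            funext j; simp [up, Algebra.smul_def]
          rw [e1, e2]
          exact this }
  have memN : ∀ c : (Fin 3 → ℂ) × (Fin (k + 1) → ℂ),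
      c ∈ N ↔ ∃ D, Part L D 0 0 ∧ Part R D (up c.1) (up c.2) := fun c => Iff.rfl
  -- a linear form
  have exπ : ∀ v : K, v ≠ 0 → ∃ π : K →ₗ[ℂ] ℂ, π v ≠ 0 := by
    intro v hv
    by_contra hcon
    push Not at hcon
    exact hv ((Module.forall_dual_apply_eq_zero_iff ℂ v).1 hcon)
  -- it is stable
  have hN : ∀ (b : Fin 3 → ℂ) (a : Fin (k + 1) → ℂ), ∀ c ∈ N,
      (bra b c.1, slm k b *ᵥ c.2 - slm k c.1 *ᵥ a) ∈ N := by
    rintro b1 a1 c ⟨E, h1, h2⟩
    obtain ⟨D1, -, hR1⟩ := exists_of_part R (up b1 : Fin 3 → K) (up a1 : Fin (k + 1) → K)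
    obtain ⟨b2, a2, hL1⟩ := exists_part L D1
    obtain ⟨π, hπ⟩ := exπ 1 one_ne_zero
    have hπ1 : ∀ z : ℂ, ((π 1)⁻¹ • π) (algebraMap ℂ K z) = z := by
      intro z
      rw [Algebra.algebraMap_eq_smul_one, map_smul]
      simp [hπ]
    obtain ⟨D2, hL2, hR2⟩ := T.desc ((π 1)⁻¹ • π) hL1 hR1
    have e1 : (fun j => ((π 1)⁻¹ • π) ((up b1 : Fin 3 → K) j)) = b1 := by
      funext j; exact hπ1 _
    have e2 : (fun j => ((π 1)⁻¹ • π) ((up a1 : Fin (k + 1) → K) j)) = a1 := by
      funext j; exact hπ1 _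
    rw [e1, e2] at hR2
    refine (memN _).2 ⟨⁅E, D2⁆, ?_, ?_⟩
    · have := Part.comm T.hL T.xL h1 hL2
      convert this using 1
      · funext j
        rw [ALG16_kill]
        fin_cases j <;> simp [bra]
      · funext j
        have e3 : slm k (0 : Fin 3 → K) = 0 := by
          ext i j
          simp [slm]
        rw [ALG16_kill]
        simp [e3]
    · have := Part.comm T.hR T.xR h2 hR2
      convert this using 1
      · funext j
        rw [ALG16_up_bra, ALG16_kill, ALG16_kill]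
        fin_cases j <;> simp [bra] <;> ring
      · funext j
        have e3 : (up (slm k b1 *ᵥ c.2 - slm k c.1 *ᵥ a1) : Fin (k + 1) → K) =
            up (slm k b1 *ᵥ c.2) - up (slm k c.1 *ᵥ a1) := by
          funext j; simp [up]
        show (up (slm k b1 *ᵥ c.2 - slm k c.1 *ᵥ a1) : Fin (k + 1) → K) j = _
        rw [e3, ALG16_up_slm, ALG16_up_slm, ALG16_kill, ALG16_kill]
        simp
  -- it is not zero
  have h0 : N ≠ ⊥ := by
    intro hbot
    have key : ∀ π : K →ₗ[ℂ] ℂ, (fun j => π (b j)) = 0 ∧ (fun j => π (a j)) = 0 := by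
      intro π
      obtain ⟨D', hL', hR'⟩ := T.desc π hL hR
      have : ((fun j => π (b j), fun j => π (a j)) : (Fin 3 → ℂ) × (Fin (k + 1) → ℂ)) ∈ N := by
        refine (memN _).2 ⟨D', ?_, hR'⟩
        convert hL' using 1
        · funext j; simp [up]
        · funext j; simp [up]
      rw [hbot, Submodule.mem_bot, Prod.mk_eq_zero] at this
      exact this
    apply hne
    constructor
    · funext j
      by_contra hj
      obtain ⟨π, hπ⟩ := exπ _ hj
      exact hπ (congrFun (key π).1 j)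
    · funext j
      by_contra hj
      obtain ⟨π, hπ⟩ := exπ _ hj
      exact hπ (congrFun (key π).2 j)
  have hall := ideal_contains hk N hN h0
  apply no
  let M : Submodule K (Fin (k + 1) → K) :=
    { carrier := {a | ∃ D, Part L D 0 0 ∧ Part R D 0 a}
      zero_mem' := ⟨0, ALG16_zero L, ALG16_zero R⟩
      add_mem' := by
        rintro c c' ⟨E, h1, h2⟩ ⟨E', h1', h2'⟩
        refine ⟨(1 : K) • E + E', ?_, ?_⟩
        · have := h1.add h1' 1
          simpa using this
        · have := h2.add h2' 1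
          simpa using this
      smul_mem' := by
        rintro z c ⟨E, h1, h2⟩
        refine ⟨z • E + 0, ?_, ?_⟩
        · have := h1.add (ALG16_zero L) z
          simpa using this
        · have := h2.add (ALG16_zero R) z
          simpa using this }
  intro a1
  have hmem : a1 ∈ M := by
    rw [pi_eq_sum_univ a1]
    refine Submodule.sum_mem _ fun j _ => Submodule.smul_mem _ _ ?_
    obtain ⟨E, h1, h2⟩ := (memN _).1 (hall (fun l => if j = l then 1 else 0))
    refine ⟨E, h1, ?_⟩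
    have e1 : (up (0 : Fin 3 → ℂ) : Fin 3 → K) = 0 := by funext j; simp [up]
    have e2 : (up (fun l => if j = l then (1 : ℂ) else 0) : Fin (k + 1) → K) =
        fun l => if j = l then 1 else 0 := by
      funext l
      by_cases hjl : j = l <;> simp [up, hjl]
    rw [← e1, ← e2]
    exact h2
  exact hmem

/-- A derivation without left part has no right part, and conversely. -/
theorem Two.graph [CharZero K] (hk : 1 ≤ k) {L R : Side k K} {δ : Derivation ℂ K K}
    (T : Two L R δ) {f : ℕ → K} {i : ℕ} (hf : Vanish L R f i) :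
    (∀ D b a, Part L D 0 0 → Part R D b a → b = 0 ∧ a = 0) ∧
      ∀ D b a, Part L D b a → Part R D 0 0 → b = 0 ∧ a = 0 := by
  constructor
  · intro D b a hL hR
    exact ALG16_main hk T (hf.not_right T) D b a hL hR
  · intro D b a hL hR
    have T' : Two R L δ := ⟨T.const, T.hR, T.hL, T.xR, T.xL⟩
    refine ALG16_main hk T' ?_ D b a hR hL
    intro h
    apply hf.not_left T
    intro a'
    obtain ⟨E, h1, h2⟩ := h a'
    exact ⟨E, h2, h1⟩

/-- The relation between the parts of the two sides (over `ℂ`). -/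
def ALG17_Rel (L R : Side k K) (c c' : (Fin 3 → ℂ) × (Fin (k + 1) → ℂ)) : Prop :=
  ∃ D : Derivation ℂ K K, Part L D (up c.1) (up c.2) ∧ Part R D (up c'.1) (up c'.2)

theorem ALG17_up_lin {n : ℕ} (u : ℂ) (v w : Fin n → ℂ) :
    (up (u • v + w) : Fin n → K) = algebraMap ℂ K u • up v + up w := by
  funext j
  simp [up, Algebra.smul_def]

theorem ALG17_up_zero {n : ℕ} : (up (0 : Fin n → ℂ) : Fin n → K) = 0 := by
  funext j
  simp [up]

theorem ALG17_up_inj {n : ℕ} {v w : Fin n → ℂ} (h : (up v : Fin n → K) = up w) : v = w := by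
  funext j
  exact (algebraMap ℂ K).injective (congrFun h j)

theorem ALG17_lin {L R : Side k K} {c c' d d' : (Fin 3 → ℂ) × (Fin (k + 1) → ℂ)} (u : ℂ)
    (h : ALG17_Rel L R c c') (h' : ALG17_Rel L R d d') :
    ALG17_Rel L R (u • c + d) (u • c' + d') := by
  obtain ⟨D, h1, h2⟩ := h
  obtain ⟨D', h3, h4⟩ := h'
  refine ⟨algebraMap ℂ K u • D + D', ?_, ?_⟩
  · have := Part.add h1 h3 (algebraMap ℂ K u)
    simpa [ALG17_up_lin] using this
  · have := Part.add h2 h4 (algebraMap ℂ K u)
    simpa [ALG17_up_lin] using this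

theorem ALG17_exists_pi : ∃ π : K →ₗ[ℂ] ℂ, ∀ c : ℂ, π (algebraMap ℂ K c) = c := by
  obtain ⟨π, hπ⟩ := (Algebra.linearMap ℂ K).exists_leftInverse_of_injective
    (LinearMap.ker_eq_bot.mpr (algebraMap ℂ K).injective)
  refine ⟨π, fun c => ?_⟩
  have := LinearMap.congr_fun hπ c
  simpa using this

theorem ALG17_sub {S : Side k K} {D D' : Derivation ℂ K K} {b b' : Fin 3 → K}
    {a a' : Fin (k + 1) → K} (h : Part S D b a) (h' : Part S D' b' a') :
    Part S (D' - D) (b' - b) (a' - a) := by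
  have := Part.add h h' (-1)
  have e1 : (-1 : K) • D + D' = D' - D := by
    ext x; simp; ring
  have e2 : (-1 : K) • b + b' = b' - b := by
    funext j; simp; ring
  have e3 : (-1 : K) • a + a' = a' - a := by
    funext j; simp; ring
  rwa [e1, e2, e3] at this

theorem ALG17_fwd [CharZero K] (hk : 1 ≤ k) {L R : Side k K} {δ : Derivation ℂ K K}
    (T : Two L R δ) {f : ℕ → K} {i : ℕ} (hf : Vanish L R f i)
    (c : (Fin 3 → ℂ) × (Fin (k + 1) → ℂ)) :
    ∃ (D : Derivation ℂ K K) (c' : (Fin 3 → ℂ) × (Fin (k + 1) → ℂ)), D L.x = 0 ∧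
      Part L D (up c.1) (up c.2) ∧ Part R D (up c'.1) (up c'.2) := by
  obtain ⟨D, hD0, hD⟩ := exists_of_part L (up c.1) (up c.2)
  obtain ⟨b', a', hR⟩ := exists_part R D
  obtain ⟨π, hπ⟩ := ALG17_exists_pi (K := K)
  obtain ⟨D', h1, h2⟩ := T.desc π hD hR
  have e1 : (fun j => π ((up c.1 : Fin 3 → K) j)) = c.1 := by
    funext j; simp only [up, hπ]
  have e2 : (fun j => π ((up c.2 : Fin (k + 1) → K) j)) = c.2 := by
    funext j; simp only [up, hπ]
  rw [e1, e2] at h1
  have h3 := ALG17_sub h1 hD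
  have h4 := ALG17_sub h2 hR
  rw [sub_self, sub_self] at h3
  obtain ⟨h5, h6⟩ := (Two.graph hk T hf).1 _ _ _ h3 h4
  refine ⟨D, (fun j => π (b' j), fun j => π (a' j)), hD0, hD, ?_⟩
  rw [sub_eq_zero] at h5 h6
  rwa [h5, h6] at hR

theorem ALG17_bwd [CharZero K] (hk : 1 ≤ k) {L R : Side k K} {δ : Derivation ℂ K K}
    (T : Two L R δ) {f : ℕ → K} {i : ℕ} (hf : Vanish L R f i)
    (c' : (Fin 3 → ℂ) × (Fin (k + 1) → ℂ)) :
    ∃ c : (Fin 3 → ℂ) × (Fin (k + 1) → ℂ), ALG17_Rel L R c c' := by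
  obtain ⟨D, -, hD⟩ := exists_of_part R (up c'.1) (up c'.2)
  obtain ⟨b, a, hL⟩ := exists_part L D
  obtain ⟨π, hπ⟩ := ALG17_exists_pi (K := K)
  obtain ⟨D', h1, h2⟩ := T.desc π hL hD
  have e1 : (fun j => π ((up c'.1 : Fin 3 → K) j)) = c'.1 := by
    funext j; simp only [up, hπ]
  have e2 : (fun j => π ((up c'.2 : Fin (k + 1) → K) j)) = c'.2 := by
    funext j; simp only [up, hπ]
  rw [e1, e2] at h2
  exact ⟨(fun j => π (b j), fun j => π (a j)), D', h1, h2⟩

theorem ALG17_zero [CharZero K] (hk : 1 ≤ k) {L R : Side k K} {δ : Derivation ℂ K K}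
    (T : Two L R δ) {f : ℕ → K} {i : ℕ} (hf : Vanish L R f i)
    {c' : (Fin 3 → ℂ) × (Fin (k + 1) → ℂ)} (h : ALG17_Rel L R 0 c') : c' = 0 := by
  obtain ⟨D, h1, h2⟩ := h
  have h1' : Part L D 0 0 := by simpa [ALG17_up_zero] using h1
  obtain ⟨h5, h6⟩ := (Two.graph hk T hf).1 _ _ _ h1' h2
  refine Prod.ext ?_ ?_
  · exact ALG17_up_inj (h5.trans ALG17_up_zero.symm)
  · exact ALG17_up_inj (h6.trans ALG17_up_zero.symm)

theorem ALG17_zero' [CharZero K] (hk : 1 ≤ k) {L R : Side k K} {δ : Derivation ℂ K K}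
    (T : Two L R δ) {f : ℕ → K} {i : ℕ} (hf : Vanish L R f i)
    {c : (Fin 3 → ℂ) × (Fin (k + 1) → ℂ)} (h : ALG17_Rel L R c 0) : c = 0 := by
  obtain ⟨D, h1, h2⟩ := h
  have h2' : Part R D 0 0 := by simpa [ALG17_up_zero] using h2
  obtain ⟨h5, h6⟩ := (Two.graph hk T hf).2 _ _ _ h1 h2'
  refine Prod.ext ?_ ?_
  · exact ALG17_up_inj (h5.trans ALG17_up_zero.symm)
  · exact ALG17_up_inj (h6.trans ALG17_up_zero.symm)

theorem ALG17_unique [CharZero K] (hk : 1 ≤ k) {L R : Side k K} {δ : Derivation ℂ K K}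
    (T : Two L R δ) {f : ℕ → K} {i : ℕ} (hf : Vanish L R f i)
    {c c' c'' : (Fin 3 → ℂ) × (Fin (k + 1) → ℂ)} (h : ALG17_Rel L R c c')
    (h' : ALG17_Rel L R c c'') : c' = c'' := by
  have := ALG17_lin (-1) h h'
  have e : (-1 : ℂ) • c + c = 0 := by simp
  rw [e] at this
  have h0 := ALG17_zero hk T hf this
  rw [neg_one_smul] at h0
  exact (neg_add_eq_zero.mp h0)

/-- The bracket of `sl₂ ⋉ Sym^k`. -/
noncomputable def ALG17_br (c d : (Fin 3 → ℂ) × (Fin (k + 1) → ℂ)) :
    (Fin 3 → ℂ) × (Fin (k + 1) → ℂ) :=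
  (bra c.1 d.1, slm k c.1 *ᵥ d.2 - slm k d.1 *ᵥ c.2)

theorem ALG17_up_bra (b c : Fin 3 → ℂ) : (up (bra b c) : Fin 3 → K) = bra (up b) (up c) := by
  have h2 : algebraMap ℂ K 2 = 2 := map_ofNat _ 2
  funext j
  fin_cases j <;> simp [up, bra, h2]

theorem ALG17_up_slm (b : Fin 3 → ℂ) (a : Fin (k + 1) → ℂ) :
    (up (slm k b *ᵥ a) : Fin (k + 1) → K) = slm k (up b) *ᵥ (up a) := by
  have h2 : algebraMap ℂ K 2 = 2 := map_ofNat _ 2
  funext j
  simp only [up, Matrix.mulVec, dotProduct, map_sum, map_mul]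
  refine Finset.sum_congr rfl fun l _ => ?_
  congr 1
  simp only [slm, Matrix.of_apply, map_sub, map_add]
  congr 1
  · congr 1
    · split_ifs <;> simp [up]
    · split_ifs <;> simp [up, h2]
  · split_ifs <;> simp [up]

theorem ALG17_comm_part [CharZero K] {S : Side k K} {δ : Derivation ℂ K K} (hδ : Part S δ 0 0)
    (hx : δ S.x ≠ 0) {D D' : Derivation ℂ K K} {c d : (Fin 3 → ℂ) × (Fin (k + 1) → ℂ)}
    (h : Part S D (up c.1) (up c.2)) (h' : Part S D' (up d.1) (up d.2)) :
    Part S ((-1 : K) • ⁅D, D'⁆ + 0) (up (ALG17_br c d).1) (up (ALG17_br c d).2) := by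
  have h0 : Part S (0 : Derivation ℂ K K) 0 0 := by
    have := ALG17_sub hδ hδ
    simpa using this
  have := Part.add (Part.comm hδ hx h h') h0 (-1)
  have e1 : (-1 : K) • (fun j => D ((up d.1 : Fin 3 → K) j) - D' ((up c.1 : Fin 3 → K) j) -
      bra (up c.1) (up d.1) j) + 0 = up (ALG17_br c d).1 := by
    funext j
    simp only [ALG17_br, ALG17_up_bra]
    simp [up]
  have e2 : (-1 : K) • (fun j => D ((up d.2 : Fin (k + 1) → K) j) -
      D' ((up c.2 : Fin (k + 1) → K) j) - ((slm k (up c.1) *ᵥ up d.2) j -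
        (slm k (up d.1) *ᵥ up c.2) j)) + 0 = up (ALG17_br c d).2 := by
    have : (up (ALG17_br c d).2 : Fin (k + 1) → K) =
        slm k (up c.1) *ᵥ up d.2 - slm k (up d.1) *ᵥ up c.2 := by
      rw [← ALG17_up_slm, ← ALG17_up_slm]
      funext j
      simp [ALG17_br, up]
    rw [this]
    funext j
    simp [up]
  rwa [e1, e2] at this

theorem ALG17_comm [CharZero K] {L R : Side k K} {δ : Derivation ℂ K K}
    (T : Two L R δ) {c c' d d' : (Fin 3 → ℂ) × (Fin (k + 1) → ℂ)}
    (h : ALG17_Rel L R c c') (h' : ALG17_Rel L R d d') :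
    ALG17_Rel L R (ALG17_br c d) (ALG17_br c' d') := by
  obtain ⟨D, h1, h2⟩ := h
  obtain ⟨D', h3, h4⟩ := h'
  exact ⟨_, ALG17_comm_part T.hL T.xL h1 h3, ALG17_comm_part T.hR T.xR h2 h4⟩

theorem ALG17_equiv [CharZero K] (hk : 1 ≤ k) {L R : Side k K} {δ : Derivation ℂ K K}
    (T : Two L R δ) {f : ℕ → K} {i : ℕ} (hf : Vanish L R f i) :
    ∃ Φ : ((Fin 3 → ℂ) × (Fin (k + 1) → ℂ)) ≃ₗ[ℂ] ((Fin 3 → ℂ) × (Fin (k + 1) → ℂ)),
      ∀ c c', ALG17_Rel L R c c' ↔ c' = Φ c := by
  have hex : ∀ c : (Fin 3 → ℂ) × (Fin (k + 1) → ℂ), ∃ c', ALG17_Rel L R c c' := by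
    intro c
    obtain ⟨D, c', -, h1, h2⟩ := ALG17_fwd hk T hf c
    exact ⟨c', D, h1, h2⟩
  choose φ hφ using hex
  let F : ((Fin 3 → ℂ) × (Fin (k + 1) → ℂ)) →ₗ[ℂ] ((Fin 3 → ℂ) × (Fin (k + 1) → ℂ)) :=
    { toFun := φ
      map_add' := by
        intro x y
        have := ALG17_lin 1 (hφ x) (hφ y)
        rw [one_smul, one_smul] at this
        exact ALG17_unique hk T hf (hφ _) this
      map_smul' := by
        intro u x
        have h0 : ALG17_Rel L R 0 0 := by
          have := ALG17_lin (-1) (hφ x) (hφ x)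
          simpa using this
        have := ALG17_lin u (hφ x) h0
        rw [add_zero, add_zero] at this
        exact ALG17_unique hk T hf (hφ _) this }
  have hinj : Function.Injective F := by
    rw [← LinearMap.ker_eq_bot, LinearMap.ker_eq_bot']
    intro x hx
    have : ALG17_Rel L R x 0 := by
      have h := hφ x
      change F x = 0 at hx
      have e : φ x = 0 := hx
      rwa [e] at h
    exact ALG17_zero' hk T hf this
  have hsurj : Function.Surjective F := LinearMap.injective_iff_surjective.mp hinj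
  refine ⟨LinearEquiv.ofBijective F ⟨hinj, hsurj⟩, fun c c' => ⟨fun h => ?_, fun h => ?_⟩⟩
  · exact ALG17_unique hk T hf h (hφ c)
  · subst h
    exact hφ c

theorem Two.auto [CharZero K] (hk : 1 ≤ k) {L R : Side k K} {δ : Derivation ℂ K K}
    (T : Two L R δ) {f : ℕ → K} {i : ℕ} (hf : Vanish L R f i) : Nonempty (Auto L R) := by
  obtain ⟨Φ, hΦ⟩ := ALG17_equiv hk T hf
  have hbr : ∀ c d, Φ (ALG17_br c d) = ALG17_br (Φ c) (Φ d) := by
    intro c d
    exact ((hΦ _ _).mp (ALG17_comm T ((hΦ c _).mpr rfl) ((hΦ d _).mpr rfl))).symm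
  -- the image of `Sym^k` contains `Sym^k`
  let J : (Fin (k + 1) → ℂ) →ₗ[ℂ] ((Fin 3 → ℂ) × (Fin (k + 1) → ℂ)) := LinearMap.inr ℂ _ _
  have hcont : ∀ a : Fin (k + 1) → ℂ, ∃ a1, Φ (0, a1) = (0, a) := by
    intro a
    have := ideal_contains hk (LinearMap.range (Φ.toLinearMap ∘ₗ J)) ?_ ?_ a
    · obtain ⟨a1, ha1⟩ := this
      exact ⟨a1, ha1⟩
    · rintro b a2 c ⟨a1, rfl⟩
      obtain ⟨⟨b0, a0⟩, h0⟩ := Φ.surjective (b, a2)
      refine ⟨slm k b0 *ᵥ a1, ?_⟩
      have h1 := hbr (b0, a0) (0, a1)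
      have hs0 : slm k (0 : Fin 3 → ℂ) = 0 := by
        ext i j
        simp [slm]
      have hb0 : ∀ b : Fin 3 → ℂ, bra b 0 = 0 := by
        intro b
        funext j
        fin_cases j <;> simp [bra]
      rw [h0] at h1
      have e : ALG17_br (b0, a0) (0, a1) = ((0 : Fin 3 → ℂ), slm k b0 *ᵥ a1) := by
        simp [ALG17_br, hs0, hb0]
      rw [e] at h1
      exact h1
    · intro hbot
      rw [LinearMap.range_eq_bot] at hbot
      have h1 := LinearMap.congr_fun hbot (fun _ => 1)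
      have h2 : Φ ((0 : Fin 3 → ℂ), (fun _ => (1 : ℂ) : Fin (k + 1) → ℂ)) = 0 := h1
      rw [LinearEquiv.map_eq_zero_iff] at h2
      have h3 := congrFun (congrArg Prod.snd h2) 0
      simp at h3
  have hSym : ∀ a1 : Fin (k + 1) → ℂ, (Φ (0, a1)).1 = 0 := by
    let ψ : (Fin (k + 1) → ℂ) →ₗ[ℂ] (Fin (k + 1) → ℂ) :=
      LinearMap.snd ℂ _ _ ∘ₗ Φ.symm.toLinearMap ∘ₗ J
    have h1 : ∀ a, Φ.symm (0, a) = (0, ψ a) := by
      intro a
      obtain ⟨a1, ha1⟩ := hcont a
      have h2 : Φ.symm (0, a) = (0, a1) := by rw [← ha1, LinearEquiv.symm_apply_apply]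
      have h3 : ψ a = a1 := by
        show (Φ.symm (0, a)).2 = a1
        rw [h2]
      rw [h2, h3]
    have hinj : Function.Injective ψ := by
      intro a a' h
      have h2 : Φ.symm ((0 : Fin 3 → ℂ), a) = Φ.symm (0, a') := by rw [h1, h1, h]
      have h3 := Φ.symm.injective h2
      exact (Prod.ext_iff.mp h3).2
    have hsurj : Function.Surjective ψ := LinearMap.injective_iff_surjective.mp hinj
    intro a1
    obtain ⟨a, ha⟩ := hsurj a1
    have h2 := h1 a
    rw [ha] at h2
    rw [← h2, LinearEquiv.apply_symm_apply]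
  let Ml : (Fin 3 → ℂ) →ₗ[ℂ] (Fin 3 → ℂ) :=
    LinearMap.fst ℂ _ _ ∘ₗ Φ.toLinearMap ∘ₗ LinearMap.inl ℂ _ _
  let Nl : (Fin (k + 1) → ℂ) →ₗ[ℂ] (Fin (k + 1) → ℂ) :=
    LinearMap.snd ℂ _ _ ∘ₗ Φ.toLinearMap ∘ₗ J
  have hMl : ∀ b, Ml b = (Φ (b, 0)).1 := fun b => rfl
  have hNl : ∀ a, Nl a = (Φ (0, a)).2 := fun a => rfl
  have hΦ1 : ∀ b a, (Φ (b, a)).1 = Ml b := by
    intro b a
    have : ((b, a) : (Fin 3 → ℂ) × (Fin (k + 1) → ℂ)) = (b, 0) + (0, a) := by simp
    rw [this, map_add, Prod.fst_add, hSym, add_zero, hMl]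
  have hΦ0 : ∀ a, Φ (0, a) = (0, Nl a) := by
    intro a
    exact Prod.ext (hSym a) rfl
  have hs0 : slm k (0 : Fin 3 → ℂ) = 0 := by
    ext i j
    simp [slm]
  have hb0 : ∀ b : Fin 3 → ℂ, bra b 0 = 0 := by
    intro b
    funext j
    fin_cases j <;> simp [bra]
  have hMinj : Function.Injective Ml := by
    rw [← LinearMap.ker_eq_bot, LinearMap.ker_eq_bot']
    intro b hb
    obtain ⟨a1, ha1⟩ := hcont (Φ (b, 0)).2
    have h1 : Φ (0, a1) = Φ (b, 0) := by
      rw [ha1]
      exact Prod.ext (by rw [← hMl, hb]) rfl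
    have h2 := Φ.injective h1
    exact (Prod.ext_iff.mp h2).1.symm
  have hNinj : Function.Injective Nl := by
    rw [← LinearMap.ker_eq_bot, LinearMap.ker_eq_bot']
    intro a ha
    have h1 : Φ (0, a) = 0 := by rw [hΦ0, ha]; rfl
    rw [LinearEquiv.map_eq_zero_iff] at h1
    exact (Prod.ext_iff.mp h1).2
  have hM : ∀ b, (LinearMap.toMatrix' Ml) *ᵥ b = Ml b := fun b => LinearMap.toMatrix'_mulVec Ml b
  have hN : ∀ a, (LinearMap.toMatrix' Nl) *ᵥ a = Nl a := fun a => LinearMap.toMatrix'_mulVec Nl a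
  refine ⟨⟨LinearMap.toMatrix' Ml, LinearMap.toMatrix' Nl, ?_, ?_, ?_, ?_, ?_, ?_, ?_⟩⟩
  · rw [LinearMap.det_toMatrix', ← LinearMap.isUnit_iff_isUnit_det]
    exact (Module.End.isUnit_iff _).mpr ⟨hMinj, LinearMap.injective_iff_surjective.mp hMinj⟩
  · rw [LinearMap.det_toMatrix', ← LinearMap.isUnit_iff_isUnit_det]
    exact (Module.End.isUnit_iff _).mpr ⟨hNinj, LinearMap.injective_iff_surjective.mp hNinj⟩
  · intro b c
    rw [hM, hM, hM]
    have h1 := congrArg Prod.fst (hbr (b, 0) (c, 0))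
    have e : (ALG17_br (b, 0) (c, 0) : (Fin 3 → ℂ) × (Fin (k + 1) → ℂ)) = (bra b c, 0) := by
      simp [ALG17_br]
    rw [e, hΦ1] at h1
    rw [h1]
    simp only [ALG17_br, hΦ1]
  · intro b a
    rw [hM, hN, hN]
    have h1 := congrArg Prod.snd (hbr (b, 0) (0, a))
    have e : (ALG17_br (b, 0) (0, a) : (Fin 3 → ℂ) × (Fin (k + 1) → ℂ)) =
        (0, slm k b *ᵥ a) := by
      simp [ALG17_br, hs0, hb0]
    rw [e, hΦ0, hΦ0] at h1
    have h1' : Nl (slm k b *ᵥ a) = (ALG17_br (Φ (b, 0)) (0, Nl a)).2 := h1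
    rw [h1']
    simp only [ALG17_br, hΦ1, hs0]
    simp
  · intro D b a b' a' hL hR
    funext j
    have h1 : ∀ π : K →ₗ[ℂ] ℂ, π (b' j - ((LinearMap.toMatrix' Ml).map (algebraMap ℂ K) *ᵥ b) j)
        = 0 := by
      intro π
      obtain ⟨D', h2, h3⟩ := T.desc π hL hR
      have h4 := (hΦ (fun j => π (b j), fun j => π (a j)) (fun j => π (b' j), fun j => π (a' j))).mp
        ⟨D', h2, h3⟩
      have h5 := congrFun (congrArg Prod.fst h4) j
      rw [hΦ1, ← hM] at h5
      simp only at h5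
      rw [map_sub, h5, sub_eq_zero]
      simp only [Matrix.mulVec, dotProduct, Matrix.map_apply, map_sum]
      refine Finset.sum_congr rfl fun l _ => ?_
      rw [← Algebra.smul_def, map_smul, smul_eq_mul]
    have h2 := (Module.forall_dual_apply_eq_zero_iff ℂ _).mp h1
    exact sub_eq_zero.mp h2
  · intro b
    obtain ⟨D, c', hD0, h1, h2⟩ := ALG17_fwd hk T hf (b, 0)
    have h3 := (hΦ (b, 0) c').mp ⟨D, h1, h2⟩
    refine ⟨D, c'.2, hD0, ?_, ?_⟩
    · simpa [ALG17_up_zero] using h1
    · have h4 : LinearMap.toMatrix' Ml *ᵥ b = c'.1 := by rw [hM, h3, hMl]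
      rw [h4]
      exact h2
  · intro a
    obtain ⟨D, c', hD0, h1, h2⟩ := ALG17_fwd hk T hf (0, a)
    have h3 := (hΦ (0, a) c').mp ⟨D, h1, h2⟩
    refine ⟨D, hD0, ?_, ?_⟩
    · simpa [ALG17_up_zero] using h1
    · rw [hΦ0] at h3
      rw [hN]
      rw [h3] at h2
      simpa [ALG17_up_zero] using h2

omit [Algebra ℂ K] in
theorem ALG18_frm2 (s t : K) : frm 2 s t 2 = ![s ^ 2, -(2 * s), 1] ∧
    frm 2 s t 1 = ![s * t, -(s + t), 1] ∧ frm 2 s t 0 = ![t ^ 2, -(2 * t), 1] := by
  have h1 : ((X - C s) ^ 2 * (X - C t) ^ (2 - 2) : K[X]) =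
      C (s ^ 2) + C (-(2 * s)) * X + C 1 * X ^ 2 := by
    simp only [map_neg, map_mul, map_pow, C_ofNat, map_one]; ring
  have h2 : ((X - C s) ^ 1 * (X - C t) ^ (2 - 1) : K[X]) =
      C (s * t) + C (-(s + t)) * X + C 1 * X ^ 2 := by
    simp only [map_neg, map_mul, map_add, map_one]; ring
  have h3 : ((X - C s) ^ 0 * (X - C t) ^ (2 - 0) : K[X]) =
      C (t ^ 2) + C (-(2 * t)) * X + C 1 * X ^ 2 := by
    simp only [map_neg, map_mul, map_pow, C_ofNat, map_one]; ring
  have hc : ∀ a b c : K, ∀ j : Fin 3,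
      (C a + C b * X + C c * X ^ 2 : K[X]).coeff j = (![a, b, c] : Fin 3 → K) j := by
    intro a b c j
    fin_cases j <;> simp [coeff_X, coeff_C, coeff_X_pow]
  refine ⟨?_, ?_, ?_⟩
  · funext j; unfold frm; rw [h1, hc]
  · funext j; unfold frm; rw [h2, hc]
  · funext j; unfold frm; rw [h3, hc]

omit [Algebra ℂ K] in
theorem ALG18_toP_smul {n : ℕ} (c : K) (v : Fin n → K) :
    toP (c • v) = C c * toP v := by
  unfold toP
  rw [Finset.mul_sum]
  refine Finset.sum_congr rfl fun l _ => ?_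
  simp only [Pi.smul_apply, smul_eq_mul, map_mul]; ring

theorem ALG18_act_AA [CharZero K] (s t : K) {j : ℕ} (hj : j < k) :
    slm k (frm 2 s t 2) *ᵥ frm k s t j = (((k - j : ℕ) : K) * (s - t)) • frm k s t (j + 1) := by
  apply toP_injective
  rw [toP_slm, toP_frm _ _ _ hj.le, toP_frm 2 s t (le_refl 2), ALG18_toP_smul,
    toP_frm _ _ _ (by omega : j + 1 ≤ k)]
  obtain ⟨m, rfl⟩ : ∃ m, k = j + 1 + m := ⟨k - (j + 1), by omega⟩
  have e1 : j + 1 + m - j = m + 1 := by omega
  have e2 : j + 1 + m - (j + 1) = m := by omega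
  rw [e1, e2]
  have hk2 : C (((j + 1 + m : ℕ) : K) / 2) * 2 = (C ((j + 1 + m : ℕ) : K) : K[X]) := by
    rw [← C_ofNat, ← map_mul]; congr 1; push_cast; ring
  rcases j with _ | j
  · simp only [derivative_mul, derivative_pow, derivative_sub, derivative_X, derivative_C]
    push_cast at hk2 ⊢
    simp only [map_add, map_one, map_natCast, C_ofNat, map_mul, map_sub, map_zero] at hk2 ⊢
    linear_combination ((X - C s) * ((X - C s) ^ 0 * (X - C t) ^ (m + 1))) * hk2
  · simp only [derivative_mul, derivative_pow, derivative_sub, derivative_X, derivative_C]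
    push_cast at hk2 ⊢
    simp only [map_add, map_one, map_natCast, C_ofNat, map_mul, map_sub, map_zero] at hk2 ⊢
    linear_combination ((X - C s) * ((X - C s) ^ (j + 1) * (X - C t) ^ (m + 1))) * hk2

theorem ALG18_act_AA0 [CharZero K] (s t : K) :
    slm k (frm 2 s t 2) *ᵥ frm k s t k = 0 := by
  apply toP_injective
  rw [toP_slm, toP_frm k s t (le_refl k), toP_frm 2 s t (le_refl 2)]
  have e0 : toP (0 : Fin (k + 1) → K) = 0 := by simp [toP]
  rw [e0, Nat.sub_self k]
  have hk2 : C ((k : K) / 2) * 2 = (C (k : K) : K[X]) := by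
    rw [← C_ofNat, ← map_mul]; congr 1; ring
  rcases k with _ | k
  · simp
  · simp only [derivative_mul, derivative_pow, derivative_sub, derivative_X, derivative_C]
    push_cast at hk2 ⊢
    simp only [map_add, map_one, map_natCast, C_ofNat, map_zero] at hk2 ⊢
    linear_combination ((X - C s) * ((X - C s) ^ (k + 1))) * hk2

theorem ALG18_act_BB [CharZero K] (s t : K) {j : ℕ} (hj : j < k) :
    slm k (frm 2 s t 0) *ᵥ frm k s t (j + 1) = (-(((j + 1 : ℕ) : K) * (s - t))) • frm k s t j := by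
  apply toP_injective
  rw [toP_slm, toP_frm _ _ _ (by omega : j + 1 ≤ k), toP_frm 2 s t (Nat.zero_le 2),
    ALG18_toP_smul, toP_frm _ _ _ hj.le]
  obtain ⟨m, rfl⟩ : ∃ m, k = j + 1 + m := ⟨k - (j + 1), by omega⟩
  have e1 : j + 1 + m - j = m + 1 := by omega
  have e2 : j + 1 + m - (j + 1) = m := by omega
  rw [e1, e2]
  have hk2 : C (((j + 1 + m : ℕ) : K) / 2) * 2 = (C ((j + 1 + m : ℕ) : K) : K[X]) := by
    rw [← C_ofNat, ← map_mul]; congr 1; push_cast; ring
  rcases m with _ | m
  · simp only [derivative_mul, derivative_pow, derivative_sub, derivative_X, derivative_C]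
    push_cast at hk2 ⊢
    simp only [map_add, map_one, map_natCast, C_ofNat, map_mul, map_sub, map_zero, map_neg] at hk2 ⊢
    linear_combination ((X - C t) * ((X - C s) ^ (j + 1) * (X - C t) ^ 0)) * hk2
  · simp only [derivative_mul, derivative_pow, derivative_sub, derivative_X, derivative_C]
    push_cast at hk2 ⊢
    simp only [map_add, map_one, map_natCast, C_ofNat, map_mul, map_sub, map_zero, map_neg] at hk2 ⊢
    linear_combination ((X - C t) * ((X - C s) ^ (j + 1) * (X - C t) ^ (m + 1))) * hk2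

theorem ALG18_act_BB0 [CharZero K] (s t : K) :
    slm k (frm 2 s t 0) *ᵥ frm k s t 0 = 0 := by
  apply toP_injective
  rw [toP_slm, toP_frm k s t (Nat.zero_le k), toP_frm 2 s t (Nat.zero_le 2)]
  have e0 : toP (0 : Fin (k + 1) → K) = 0 := by simp [toP]
  rw [e0]
  have hk2 : C ((k : K) / 2) * 2 = (C (k : K) : K[X]) := by
    rw [← C_ofNat, ← map_mul]; congr 1; ring
  rcases k with _ | k
  · simp
  · simp only [derivative_mul, derivative_pow, derivative_sub, derivative_X, derivative_C,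
      Nat.sub_zero]
    push_cast at hk2 ⊢
    simp only [map_add, map_one, map_natCast, C_ofNat, map_mul, map_sub, map_zero] at hk2 ⊢
    linear_combination ((X - C t) * ((X - C t) ^ (k + 1))) * hk2

theorem ALG18_act_AB [CharZero K] (s t : K) {j : ℕ} (hj : j ≤ k) :
    slm k (frm 2 s t 1) *ᵥ frm k s t j =
      (((k : K) / 2 - (j : K)) * (s - t)) • frm k s t j := by
  apply toP_injective
  rw [toP_slm, toP_frm _ _ _ hj, toP_frm 2 s t (by norm_num : 1 ≤ 2),
    ALG18_toP_smul, toP_frm _ _ _ hj]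
  obtain ⟨m, rfl⟩ : ∃ m, k = j + m := ⟨k - j, by omega⟩
  have e1 : j + m - j = m := by omega
  rw [e1]
  have hk2 : C (((j + m : ℕ) : K) / 2) * 2 = (C ((j + m : ℕ) : K) : K[X]) := by
    rw [← C_ofNat, ← map_mul]; congr 1; push_cast; ring
  rcases j with _ | j
  · rcases m with _ | m
    · simp only [derivative_mul, derivative_pow, derivative_sub, derivative_X, derivative_C]
      push_cast at hk2 ⊢
      simp only [map_add, map_one, map_natCast, C_ofNat, map_mul, map_sub, map_zero] at hk2 ⊢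
      linear_combination (X - C s) * hk2
    · simp only [derivative_mul, derivative_pow, derivative_sub, derivative_X, derivative_C]
      push_cast at hk2 ⊢
      simp only [map_add, map_one, map_natCast, C_ofNat, map_mul, map_sub, map_zero] at hk2 ⊢
      linear_combination (((X - C t) ^ (m + 1)) * (X - C s)) * hk2
  · rcases m with _ | m
    · simp only [derivative_mul, derivative_pow, derivative_sub, derivative_X, derivative_C]
      push_cast at hk2 ⊢
      simp only [map_add, map_one, map_natCast, C_ofNat, map_mul, map_sub, map_zero] at hk2 ⊢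
      linear_combination (((X - C s) ^ (j + 1)) * (X - C s)) * hk2
    · simp only [derivative_mul, derivative_pow, derivative_sub, derivative_X, derivative_C]
      push_cast at hk2 ⊢
      simp only [map_add, map_one, map_natCast, C_ofNat, map_mul, map_sub, map_zero] at hk2 ⊢
      linear_combination (((X - C s) ^ (j + 1) * (X - C t) ^ (m + 1)) * (X - C s)) * hk2


omit [Algebra ℂ K] in
/-- Coordinates in the basis `frm k s t`. -/
theorem ALG18_coord (k : ℕ) {s t : K} (h : s - t ≠ 0) :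
    ∃ φ : ℕ → ((Fin (k + 1) → K) →ₗ[K] K),
      (∀ l ≤ k, ∀ m ≤ k, φ l (frm k s t m) = if l = m then 1 else 0) ∧
      ∀ v : Fin (k + 1) → K, ∀ j, v j = ∑ l ∈ Finset.range (k + 1), φ l v * frm k s t l j := by
  classical
  have hu : IsUnit (s - t) := isUnit_iff_ne_zero.2 h
  have hli : LinearIndependent K (fun l : Fin (k + 1) => frm k s t (l : ℕ)) := by
    rw [Fintype.linearIndependent_iff]
    intro g hg l
    have := frm_indep k hu (c := fun n => if h : n < k + 1 then g ⟨n, h⟩ else 0) (by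
      intro j
      have h1 := congrFun hg j
      rw [Finset.sum_range]
      simp only [Fin.is_lt, dif_pos, Fin.eta]
      simpa [Finset.sum_apply] using h1) l (by omega)
    simpa only [Fin.is_lt, dif_pos, Fin.eta] using this
  have hsp : ⊤ ≤ Submodule.span K (Set.range (fun l : Fin (k + 1) => frm k s t (l : ℕ))) := by
    intro v _
    obtain ⟨c, _, hc⟩ := frm_span k hu v
    have : v = ∑ l : Fin (k + 1), c l • frm k s t (l : ℕ) := by
      funext j
      rw [hc j, Finset.sum_range]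
      simp [Finset.sum_apply]
    rw [this]
    exact Submodule.sum_mem _ fun l _ => Submodule.smul_mem _ _ (Submodule.subset_span ⟨l, rfl⟩)
  let B := Module.Basis.mk hli hsp
  have hB : ∀ l : Fin (k + 1), B l = frm k s t (l : ℕ) := fun l => Module.Basis.mk_apply hli hsp l
  refine ⟨fun l => if h : l < k + 1 then B.coord ⟨l, h⟩ else 0, ?_, ?_⟩
  · intro l hl m hm
    have h1 : l < k + 1 := by omega
    have h2 : m < k + 1 := by omega
    simp only [h1, dif_pos]
    have := hB ⟨m, h2⟩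
    simp only at this
    rw [← this, Module.Basis.coord_apply, Module.Basis.repr_self, Finsupp.single_apply]
    simp only [Fin.mk.injEq]
    by_cases hlm : l = m
    · simp [hlm]
    · simp [hlm, Ne.symm hlm]
  · intro v j
    have h1 := congrFun (B.sum_repr v) j
    rw [← h1, Finset.sum_range, Finset.sum_apply]
    refine Finset.sum_congr rfl fun l _ => ?_
    simp only [Fin.is_lt, dif_pos, Fin.eta, hB, Pi.smul_apply, smul_eq_mul,
      Module.Basis.coord_apply]

theorem ALG18_up_mulVec {m n : ℕ} (N : Matrix (Fin m) (Fin n) ℂ) (a : Fin n → ℂ) :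
    (up (N *ᵥ a) : Fin m → K) = N.map (algebraMap ℂ K) *ᵥ up a := by
  funext j
  simp [up, Matrix.mulVec, dotProduct, map_sum]

theorem ALG18_slm_up (b : Fin 3 → ℂ) :
    (slm k b).map (algebraMap ℂ K) = slm k (up b : Fin 3 → K) := by
  ext i j
  simp only [slm, Matrix.map_apply, Matrix.of_apply, up, map_sub, map_add]
  congr 1
  · congr 1
    · split_ifs <;> simp
    · split_ifs <;> simp [map_ofNat]
  · split_ifs <;> simp

theorem ALG18_up_single {n : ℕ} (j : Fin n) :
    (Pi.single j 1 : Fin n → K) = up (Pi.single j 1) := by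
  funext l
  by_cases h : l = j
  · subst h; simp [up]
  · simp [up, h]

/-- Extension of scalars of the intertwining relation. -/
theorem ALG18_ext_act [CharZero K] {M : Matrix (Fin 3) (Fin 3) ℂ}
    {N : Matrix (Fin (k + 1)) (Fin (k + 1)) ℂ}
    (h : ∀ (b : Fin 3 → ℂ) (a : Fin (k + 1) → ℂ),
      N *ᵥ (slm k b *ᵥ a) = slm k (M *ᵥ b) *ᵥ (N *ᵥ a)) (b : Fin 3 → K) (u : Fin (k + 1) → K) :
    N.map (algebraMap ℂ K) *ᵥ (slm k b *ᵥ u) =
      slm k (M.map (algebraMap ℂ K) *ᵥ b) *ᵥ (N.map (algebraMap ℂ K) *ᵥ u) := by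
  have h0 : slm k (0 : Fin 3 → K) = 0 := by
    have := slm_add_smul (k := k) (-1 : K) (0 : Fin 3 → K) 0
    simpa using this
  have hadd : ∀ b c : Fin 3 → K, slm k (b + c) = slm k b + slm k c := by
    intro b c
    have := slm_add_smul (k := k) (1 : K) b c
    simpa using this
  have hsmul : ∀ (u : K) (b : Fin 3 → K), slm k (u • b) = u • slm k b := by
    intro u b
    have := slm_add_smul (k := k) u b 0
    simpa [h0] using this
  -- the case of complex `b` and `u`
  have h1 : ∀ (b : Fin 3 → ℂ) (a : Fin (k + 1) → ℂ),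
      N.map (algebraMap ℂ K) *ᵥ (slm k (up b : Fin 3 → K) *ᵥ up a) =
        slm k (M.map (algebraMap ℂ K) *ᵥ up b) *ᵥ (N.map (algebraMap ℂ K) *ᵥ up a) := by
    intro b a
    rw [← ALG18_slm_up, ← ALG18_up_mulVec, ← ALG18_up_mulVec, h b a, ← ALG18_up_mulVec,
      ← ALG18_slm_up, ← ALG18_up_mulVec, ← ALG18_up_mulVec]
  -- complex `b`
  have h2 : ∀ (b : Fin 3 → ℂ) (u : Fin (k + 1) → K),
      N.map (algebraMap ℂ K) *ᵥ (slm k (up b : Fin 3 → K) *ᵥ u) =
        slm k (M.map (algebraMap ℂ K) *ᵥ up b) *ᵥ (N.map (algebraMap ℂ K) *ᵥ u) := by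
    intro b u
    have : (N.map (algebraMap ℂ K)).mulVecLin ∘ₗ (slm k (up b : Fin 3 → K)).mulVecLin =
        (slm k (M.map (algebraMap ℂ K) *ᵥ up b)).mulVecLin ∘ₗ
          (N.map (algebraMap ℂ K)).mulVecLin := by
      refine (Pi.basisFun K (Fin (k + 1))).ext fun j => ?_
      simp only [Pi.basisFun_apply, LinearMap.comp_apply, Matrix.mulVecLin_apply]
      rw [ALG18_up_single]
      exact h1 b _
    exact congrArg (fun g => g u) this
  -- all
  let P : (Fin 3 → K) →ₗ[K] (Fin (k + 1) → K) :=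
    { toFun := fun b => N.map (algebraMap ℂ K) *ᵥ (slm k b *ᵥ u)
      map_add' := fun b c => by rw [hadd, Matrix.add_mulVec, Matrix.mulVec_add]
      map_smul' := fun c b => by
        rw [hsmul, Matrix.smul_mulVec, Matrix.mulVec_smul]; rfl }
  let Q : (Fin 3 → K) →ₗ[K] (Fin (k + 1) → K) :=
    { toFun := fun b => slm k (M.map (algebraMap ℂ K) *ᵥ b) *ᵥ (N.map (algebraMap ℂ K) *ᵥ u)
      map_add' := fun b c => by rw [Matrix.mulVec_add, hadd, Matrix.add_mulVec]
      map_smul' := fun c b => by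
        rw [Matrix.mulVec_smul, hsmul, Matrix.smul_mulVec]; rfl }
  have hPQ : P = Q := by
    refine (Pi.basisFun K (Fin 3)).ext fun j => ?_
    simp only [Pi.basisFun_apply]
    rw [ALG18_up_single]
    exact h2 _ u
  exact congrArg (fun g => g b) hPQ

/-- If `y` is algebraic over `ℂ(x)`, the automorphism is the identity on `sl₂`. -/
theorem Auto.eq_one [CharZero K] (hk : 1 ≤ k) {L R : Side k K} {δ : Derivation ℂ K K}
    (T : Two L R δ) {f : ℕ → K} {i : ℕ} (hf : Vanish L R f i) (A : Auto L R)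
    (hy : ¬ AlgebraicIndependent ℂ ![L.x, R.x]) : A.M = 1 := by
  classical
  have hst : L.t0 - R.t0 ≠ 0 := sub_ne_zero.2 hf.ne
  have hinv : (L.t0 - R.t0) * (L.t0 - R.t0)⁻¹ = 1 := mul_inv_cancel₀ hst
  have hDR : ∀ D : Derivation ℂ K K, D L.x = 0 → D R.x = 0 := fun D hD =>
    killed_of_dep L.x_transcendental hy D hD
  have hslm0 : slm k (0 : Fin 3 → K) = 0 := by
    have := slm_add_smul (k := k) (-1 : K) (0 : Fin 3 → K) 0
    simpa using this
  obtain ⟨φ, hφ1, hφ2⟩ := ALG18_coord k hst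
  -- uniqueness of coordinates
  have hφ3 : ∀ (v : Fin (k + 1) → K) (c : ℕ → K),
      (∀ j, v j = ∑ l ∈ Finset.range (k + 1), c l * frm k L.t0 R.t0 l j) → ∀ l ≤ k, φ l v = c l := by
    intro v c hc l hl
    have := frm_indep k (isUnit_iff_ne_zero.2 hst) (c := fun n => φ n v - c n) (by
      intro j
      have h1 := hφ2 v j
      have h2 := hc j
      simp only [sub_mul, Finset.sum_sub_distrib]
      rw [← h1, ← h2, sub_self]) l hl
    exact sub_eq_zero.1 this
  -- the coordinates i and k - i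
  have key1 : ∀ a : Fin (k + 1) → ℂ, ∀ l ≤ k, f l = 0 → φ l (up a - up (A.N *ᵥ a)) = 0 := by
    intro a l hl hfl
    obtain ⟨D, hDx, hL, hR⟩ := A.exa a
    have hDR' := hDR D hDx
    have hs : D L.t0 = 0 := by rw [hL.h0, hDx]; simp
    have ht : D R.t0 = 0 := by rw [hR.h0, hDR']; simp
    have h1 : ∀ j, D (L.V j - R.V j) = (up a - up (A.N *ᵥ a) : Fin (k + 1) → K) j := by
      intro j
      rw [map_sub, hL.hV, hR.hV, hDx, hDR', hslm0]
      simp
    have h2 := frm_deriv k hinv (D.restrictScalars ℤ) (f := f)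
      (c := fun n => φ n (up a - up (A.N *ᵥ a))) (F := fun j => L.V j - R.V j) hf.top hf.eq (by
        intro j
        have : (D.restrictScalars ℤ) (L.V j - R.V j) = D (L.V j - R.V j) := rfl
        rw [this, h1 j]
        exact hφ2 _ j) hl
    have e1 : ∀ u, (D.restrictScalars ℤ) u = D u := fun _ => rfl
    simp only [e1, hs, ht, hfl, map_zero, zero_mul, add_zero] at h2
    exact h2.symm
  -- K-linear extension
  set MK : Matrix (Fin 3) (Fin 3) K := A.M.map (algebraMap ℂ K) with hMK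
  set NK : Matrix (Fin (k + 1)) (Fin (k + 1)) K := A.N.map (algebraMap ℂ K) with hNK
  have key2 : ∀ l ≤ k, f l = 0 → ∀ v : Fin (k + 1) → K, φ l (NK *ᵥ v) = φ l v := by
    intro l hl hfl v
    have : φ l ∘ₗ NK.mulVecLin = φ l := by
      refine (Pi.basisFun K (Fin (k + 1))).ext fun j => ?_
      simp only [Pi.basisFun_apply, LinearMap.comp_apply, Matrix.mulVecLin_apply]
      have h1 := key1 (Pi.single j 1) l hl hfl
      rw [map_sub, ALG18_up_mulVec, ← ALG18_up_single] at h1
      exact (sub_eq_zero.1 h1).symm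
    exact congrArg (fun g => g v) this
  have key3 := fun (b : Fin 3 → K) (u : Fin (k + 1) → K) => ALG18_ext_act (K := K) A.act b u
  have key8 : ∀ b c : Fin 3 → K, MK *ᵥ bra b c = bra (MK *ᵥ b) (MK *ᵥ c) := by
    intro b c
    have h1 := ALG18_ext_act (K := K) (k := 2) (M := A.M) (N := A.M) (by
      intro b a
      rw [slm_two, slm_two]
      exact A.br b a) b c
    rw [slm_two, slm_two] at h1
    exact h1
  have hadd : ∀ b c : Fin 3 → K, slm k (b + c) = slm k b + slm k c := by
    intro b c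
    have := slm_add_smul (k := k) (1 : K) b c
    simpa using this
  have hsmul : ∀ (u : K) (b : Fin 3 → K), slm k (u • b) = u • slm k b := by
    intro u b
    have := slm_add_smul (k := k) u b 0
    simpa [hslm0] using this
  -- the three operators in coordinates
  set s := L.t0 with hs_def
  set t := R.t0 with ht_def
  have oAA : ∀ l ≤ k, ∀ m ≤ k, φ l (slm k (frm 2 s t 2) *ᵥ frm k s t m) =
      if l = m + 1 then ((k - m : ℕ) : K) * (s - t) else 0 := by
    intro l hl m hm
    rcases hm.lt_or_eq with h | h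
    · rw [ALG18_act_AA s t h, map_smul, hφ1 l hl (m + 1) h]
      split_ifs <;> simp
    · subst h
      rw [ALG18_act_AA0, map_zero, if_neg (by omega)]
  have oBB : ∀ l ≤ k, ∀ m ≤ k, φ l (slm k (frm 2 s t 0) *ᵥ frm k s t m) =
      if l + 1 = m then -((m : K) * (s - t)) else 0 := by
    intro l hl m hm
    rcases m with _ | m
    · rw [ALG18_act_BB0, map_zero, if_neg (by omega)]
    · rw [ALG18_act_BB s t (by omega : m < k), map_smul, hφ1 l hl m (by omega)]
      by_cases h : l = m
      · subst h; simp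
      · rw [if_neg h, if_neg (by omega)]; simp
  have oAB : ∀ l ≤ k, ∀ m ≤ k, φ l (slm k (frm 2 s t 1) *ᵥ frm k s t m) =
      if l = m then ((k : K) / 2 - (m : K)) * (s - t) else 0 := by
    intro l hl m hm
    rw [ALG18_act_AB s t hm, map_smul, hφ1 l hl m hm]
    split_ifs <;> simp
  have hexp : ∀ v : Fin (k + 1) → K, v = ∑ m ∈ Finset.range (k + 1), φ m v • frm k s t m := by
    intro v
    funext j
    rw [hφ2 v j, Finset.sum_apply]
    rfl
  have key4 : ∀ l ≤ k, ∀ v : Fin (k + 1) → K,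
      φ l (slm k (frm 2 s t 1) *ᵥ v) = ((k : K) / 2 - (l : K)) * (s - t) * φ l v := by
    intro l hl v
    have h1 : φ l (slm k (frm 2 s t 1) *ᵥ v) = ∑ m ∈ Finset.range (k + 1),
        φ m v * φ l (slm k (frm 2 s t 1) *ᵥ frm k s t m) := by
      have h2 := congrArg (fun w => φ l ((slm k (frm 2 s t 1)).mulVecLin w)) (hexp v)
      simp only [map_sum, map_smul, Matrix.mulVecLin_apply, smul_eq_mul] at h2
      exact h2
    rw [h1, Finset.sum_eq_single l]
    · rw [oAB l hl l hl, if_pos rfl]; ring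
    · intro m hm hml
      rw [oAB l hl m (by have := Finset.mem_range.1 hm; omega), if_neg (Ne.symm hml), mul_zero]
    · intro h
      exact absurd (Finset.mem_range.2 (by omega)) h
  have hNKu : ∀ u : Fin (k + 1) → K, ∃ w, NK *ᵥ w = u := by
    intro u
    have hdet : IsUnit NK.det := by
      have : NK.det = algebraMap ℂ K A.N.det := by
        rw [hNK, RingHom.map_det]; rfl
      rw [this]
      exact A.N_unit.map _
    exact ⟨NK⁻¹ *ᵥ u, by rw [Matrix.mulVec_mulVec, Matrix.mul_nonsing_inv _ hdet,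
      Matrix.one_mulVec]⟩
  have key5 : ∀ l ≤ k, f l = 0 → ∀ u : Fin (k + 1) → K,
      φ l (slm k (MK *ᵥ frm 2 s t 1 - frm 2 s t 1) *ᵥ u) = 0 := by
    intro l hl hfl u
    obtain ⟨w, rfl⟩ := hNKu u
    have h1 : MK *ᵥ frm 2 s t 1 - frm 2 s t 1 = (-1 : K) • frm 2 s t 1 + MK *ᵥ frm 2 s t 1 := by
      rw [neg_one_smul]; abel
    rw [h1, hadd, hsmul, Matrix.add_mulVec, map_add, Matrix.smul_mulVec, map_smul,
      ← key3, key2 l hl hfl, key4 l hl, key4 l hl, key2 l hl hfl]
    simp
  obtain ⟨ψ, hψ1, hψ2⟩ := ALG18_coord 2 hst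
  have hexp2 : ∀ v : Fin 3 → K, v = ψ 0 v • frm 2 s t 0 + (ψ 1 v • frm 2 s t 1 +
      ψ 2 v • frm 2 s t 2) := by
    intro v
    funext j
    rw [hψ2 v j, Finset.sum_range_succ, Finset.sum_range_succ, Finset.sum_range_succ,
      Finset.sum_range_zero]
    simp only [Pi.add_apply, Pi.smul_apply, smul_eq_mul]
    ring
  have key6 : ∀ l ≤ k, f l = 0 → ∀ m ≤ k, ∀ d : Fin 3 → K,
      φ l (slm k d *ᵥ frm k s t m) =
        ψ 0 d * (if l + 1 = m then -((m : K) * (s - t)) else 0) +
        (ψ 1 d * (if l = m then ((k : K) / 2 - (m : K)) * (s - t) else 0) +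
        ψ 2 d * (if l = m + 1 then ((k - m : ℕ) : K) * (s - t) else 0)) := by
    intro l hl hfl m hm d
    conv_lhs => rw [hexp2 d]
    rw [hadd, hadd, hsmul, hsmul, hsmul, Matrix.add_mulVec, Matrix.add_mulVec,
      Matrix.smul_mulVec, Matrix.smul_mulVec, Matrix.smul_mulVec, map_add, map_add,
      map_smul, map_smul, map_smul, oBB l hl m hm, oAB l hl m hm, oAA l hl m hm]
    rfl
  set d := MK *ᵥ frm 2 s t 1 - frm 2 s t 1 with hd
  have hi2 : (k : K) / 2 - (i : K) ≠ 0 := by
    intro h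
    have h1 : (k : K) = 2 * i := by linear_combination 2 * h
    have h2 : k = 2 * i := by exact_mod_cast h1
    exact hf.ne2 h2.symm
  have hd1 : ψ 1 d = 0 := by
    have h1 := key5 i hf.le hf.zero (frm k s t i)
    rw [key6 i hf.le hf.zero i hf.le, if_neg (by omega), if_pos rfl, if_neg (by omega)] at h1
    simp only [mul_zero, zero_add, add_zero] at h1
    exact (mul_eq_zero.1 h1).resolve_right (mul_ne_zero hi2 hst)
  have hki : k - i ≤ k := Nat.sub_le k i
  have hd2 : ∀ l ≤ k, f l = 0 → 1 ≤ l → ψ 2 d = 0 := by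
    intro l hl hfl hl1
    have h1 := key5 l hl hfl (frm k s t (l - 1))
    rw [key6 l hl hfl (l - 1) (by omega), if_neg (by omega), if_neg (by omega),
      if_pos (by omega)] at h1
    simp only [mul_zero, zero_add] at h1
    refine (mul_eq_zero.1 h1).resolve_right (mul_ne_zero ?_ hst)
    have : k - (l - 1) ≠ 0 := by omega
    exact_mod_cast this
  have hd0 : ∀ l ≤ k, f l = 0 → l < k → ψ 0 d = 0 := by
    intro l hl hfl hl1
    have h1 := key5 l hl hfl (frm k s t (l + 1))
    rw [key6 l hl hfl (l + 1) (by omega), if_pos rfl, if_neg (by omega),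
      if_neg (by omega)] at h1
    simp only [mul_zero, add_zero] at h1
    refine (mul_eq_zero.1 h1).resolve_right (neg_ne_zero.2 (mul_ne_zero ?_ hst))
    exact_mod_cast Nat.succ_ne_zero l
  have hD2 : ψ 2 d = 0 := by
    rcases Nat.eq_zero_or_pos i with h | h
    · exact hd2 (k - i) hki hf.zero' (by omega)
    · exact hd2 i hf.le hf.zero h
  have hD0 : ψ 0 d = 0 := by
    rcases hf.le.lt_or_eq with h | h
    · exact hd0 i hf.le hf.zero h
    · exact hd0 (k - i) hki hf.zero' (by omega)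
  have hw : MK *ᵥ frm 2 s t 1 = frm 2 s t 1 := by
    have h1 := hexp2 d
    rw [hd1, hD2, hD0] at h1
    simp only [zero_smul, add_zero] at h1
    exact sub_eq_zero.1 h1
  -- derivations preserve the fixed vectors
  have key9 : ∀ (D : Derivation ℂ K K) (v : Fin 3 → K), MK *ᵥ v = v →
      MK *ᵥ (fun j => D (v j)) = fun j => D (v j) := by
    intro D v hv
    funext l
    have h1 := congrArg D (congrFun hv l)
    rw [← h1]
    simp only [Matrix.mulVec, dotProduct, map_sum]
    refine Finset.sum_congr rfl fun j _ => ?_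
    rw [D.leibniz]
    simp [hMK]
  obtain ⟨f2, f1, f0⟩ := ALG18_frm2 s t
  have key10 : ∀ b : Fin 3 → ℂ,
      MK *ᵥ ((algebraMap ℂ K (b 0) + algebraMap ℂ K (b 1) * s + algebraMap ℂ K (b 2) * s ^ 2) •
        frm 2 s t 0) = (algebraMap ℂ K (b 0) + algebraMap ℂ K (b 1) * s +
          algebraMap ℂ K (b 2) * s ^ 2) • frm 2 s t 0 ∧
      MK *ᵥ ((algebraMap ℂ K ((A.M *ᵥ b) 0) + algebraMap ℂ K ((A.M *ᵥ b) 1) * t +
        algebraMap ℂ K ((A.M *ᵥ b) 2) * t ^ 2) • frm 2 s t 2) =
        (algebraMap ℂ K ((A.M *ᵥ b) 0) + algebraMap ℂ K ((A.M *ᵥ b) 1) * t +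
        algebraMap ℂ K ((A.M *ᵥ b) 2) * t ^ 2) • frm 2 s t 2 := by
    intro b
    obtain ⟨D, a', hDx, hL, hR⟩ := A.exb b
    have hDR' := hDR D hDx
    set p := algebraMap ℂ K (b 0) + algebraMap ℂ K (b 1) * s + algebraMap ℂ K (b 2) * s ^ 2
      with hp
    set q := algebraMap ℂ K ((A.M *ᵥ b) 0) + algebraMap ℂ K ((A.M *ᵥ b) 1) * t +
        algebraMap ℂ K ((A.M *ᵥ b) 2) * t ^ 2 with hq
    have hDs : D s = p := by
      rw [hs_def, hL.h0, hDx, zero_mul, zero_add]; rfl
    have hDt : D t = q := by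
      rw [ht_def, hR.h0, hDR', zero_mul, zero_add]; rfl
    have hDw := key9 D _ hw
    have hDw' : (fun j => D (frm 2 s t 1 j)) = ![p * t + s * q, -(p + q), 0] := by
      funext j
      rw [f1]
      fin_cases j
      · simp only [Fin.zero_eta, Matrix.cons_val_zero]
        rw [D.leibniz, hDs, hDt]
        simp only [smul_eq_mul]; ring
      · simp only [Fin.mk_one, Matrix.cons_val_one, Matrix.cons_val_zero, map_neg, map_add]
        rw [hDs, hDt]
      · simp only [Fin.reduceFinMk, Matrix.cons_val, Derivation.map_one_eq_zero]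
    rw [hDw'] at hDw
    -- `v = q A² - p B²`
    have hv : MK *ᵥ (q • frm 2 s t 2 - p • frm 2 s t 0) = q • frm 2 s t 2 - p • frm 2 s t 0 := by
      have h1 : q • frm 2 s t 2 - p • frm 2 s t 0 =
          (s - t) • ![p * t + s * q, -(p + q), 0] - (p - q) • frm 2 s t 1 := by
        rw [f0, f1, f2]
        funext j
        fin_cases j
        · simp; ring
        · simp; ring
        · simp
      rw [h1, Matrix.mulVec_sub, Matrix.mulVec_smul, Matrix.mulVec_smul, hDw, hw]
    have hbr : bra (frm 2 s t 1) (q • frm 2 s t 2 - p • frm 2 s t 0) =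
        (-(s - t)) • (q • frm 2 s t 2 + p • frm 2 s t 0) := by
      rw [f0, f1, f2]
      funext j
      fin_cases j
      · simp [bra]; ring
      · simp [bra]; ring
      · simp [bra]; ring
    have hv2 : MK *ᵥ (q • frm 2 s t 2 + p • frm 2 s t 0) = q • frm 2 s t 2 + p • frm 2 s t 0 := by
      have h1 := key8 (frm 2 s t 1) (q • frm 2 s t 2 - p • frm 2 s t 0)
      rw [hw, hv, hbr, Matrix.mulVec_smul] at h1
      exact smul_right_injective _ (neg_ne_zero.2 hst) h1
    have h2 : (2 : K) ≠ 0 := two_ne_zero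
    constructor
    · have h1 : p • frm 2 s t 0 = (2 : K)⁻¹ • ((q • frm 2 s t 2 + p • frm 2 s t 0) -
          (q • frm 2 s t 2 - p • frm 2 s t 0)) := by
        rw [add_sub_sub_cancel, ← two_smul K, smul_smul, inv_mul_cancel₀ h2, one_smul]
      rw [h1, Matrix.mulVec_smul, Matrix.mulVec_sub, hv, hv2]
    · have h1 : q • frm 2 s t 2 = (2 : K)⁻¹ • ((q • frm 2 s t 2 + p • frm 2 s t 0) +
          (q • frm 2 s t 2 - p • frm 2 s t 0)) := by
        rw [add_add_sub_cancel, ← two_smul K, smul_smul, inv_mul_cancel₀ h2, one_smul]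
      rw [h1, Matrix.mulVec_smul, Matrix.mulVec_add, hv, hv2]
  have hB : MK *ᵥ frm 2 s t 0 = frm 2 s t 0 := by
    have h1 := (key10 ![1, 0, 0]).1
    simpa using h1
  have hA : MK *ᵥ frm 2 s t 2 = frm 2 s t 2 := by
    have h1 := (key10 (A.M⁻¹ *ᵥ ![1, 0, 0])).2
    rw [Matrix.mulVec_mulVec, Matrix.mul_nonsing_inv _ A.M_unit, Matrix.one_mulVec] at h1
    simpa using h1
  have hall : ∀ v : Fin 3 → K, MK *ᵥ v = v := by
    intro v
    conv_lhs => rw [hexp2 v]
    rw [Matrix.mulVec_add, Matrix.mulVec_add, Matrix.mulVec_smul, Matrix.mulVec_smul,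
      Matrix.mulVec_smul, hB, hw, hA]
    exact (hexp2 v).symm
  have hone : MK = 1 := by
    apply Matrix.ext_of_mulVec_single
    intro j
    rw [hall, Matrix.one_mulVec]
  ext a b
  have h1 := congrFun (congrFun hone a) b
  rw [hMK, Matrix.map_apply] at h1
  apply (algebraMap ℂ K).injective
  rw [h1]
  by_cases hab : a = b
  · subst hab; simp
  · simp [hab]

theorem ALG19_br {L R : Side k K} (A : Auto L R) (b c : Fin 3 → K) :
    A.M.map (algebraMap ℂ K) *ᵥ bra b c =
      bra (A.M.map (algebraMap ℂ K) *ᵥ b) (A.M.map (algebraMap ℂ K) *ᵥ c) := by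
  have h01 := A.br ![1, 0, 0] ![0, 1, 0]
  have h02 := A.br ![1, 0, 0] ![0, 0, 1]
  have h12 := A.br ![0, 1, 0] ![0, 0, 1]
  have e01 := fun l => congrArg (algebraMap ℂ K) (congrFun h01 l)
  have e02 := fun l => congrArg (algebraMap ℂ K) (congrFun h02 l)
  have e12 := fun l => congrArg (algebraMap ℂ K) (congrFun h12 l)
  have h2 : algebraMap ℂ K 2 = 2 := map_ofNat _ 2
  funext l
  fin_cases l
  · have f01 := e01 0
    have f02 := e02 0
    have f12 := e12 0
    simp [Matrix.mulVec, dotProduct, Fin.sum_univ_three, bra, h2] at f01 f02 f12 ⊢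
    linear_combination (b 0 * c 1 - b 1 * c 0) * f01 + (b 0 * c 2 - b 2 * c 0) * f02 +
      (b 1 * c 2 - b 2 * c 1) * f12
  · have f01 := e01 1
    have f02 := e02 1
    have f12 := e12 1
    simp [Matrix.mulVec, dotProduct, Fin.sum_univ_three, bra, h2] at f01 f02 f12 ⊢
    linear_combination (b 0 * c 1 - b 1 * c 0) * f01 + (b 0 * c 2 - b 2 * c 0) * f02 +
      (b 1 * c 2 - b 2 * c 1) * f12
  · have f01 := e01 2
    have f02 := e02 2
    have f12 := e12 2
    simp [Matrix.mulVec, dotProduct, Fin.sum_univ_three, bra, h2] at f01 f02 f12 ⊢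
    linear_combination (b 0 * c 1 - b 1 * c 0) * f01 + (b 0 * c 2 - b 2 * c 0) * f02 +
      (b 1 * c 2 - b 2 * c 1) * f12

theorem ALG19_prr (D : Derivation ℂ K K) (u v : Fin 3 → K) :
    D (prr u v) = prr (fun i => D (u i)) v + prr u (fun i => D (v i)) := by
  have h2 : ∀ z : K, D (2 * z) = 2 * D z := fun z => by rw [two_mul, map_add, two_mul]
  unfold prr
  rw [map_sub, h2, map_add, D.leibniz, D.leibniz, D.leibniz]
  simp only [smul_eq_mul]
  ring

theorem ALG19_mulVec (D : Derivation ℂ K K) (M : Matrix (Fin 3) (Fin 3) ℂ) (u : Fin 3 → K)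
    (i : Fin 3) : D ((M.map (algebraMap ℂ K) *ᵥ u) i) =
      (M.map (algebraMap ℂ K) *ᵥ fun j => D (u j)) i := by
  have h : ∀ (c : ℂ) (z : K), D (algebraMap ℂ K c * z) = algebraMap ℂ K c * D z := fun c z => by
    rw [← Algebra.smul_def, D.map_smul, Algebra.smul_def]
  simp only [Matrix.mulVec, dotProduct, Fin.sum_univ_three, Matrix.map_apply, map_add, h]

theorem ALG19_key [CharZero K] {L R : Side k K} {δ : Derivation ℂ K K} (T : Two L R δ)
    (A : Auto L R) (D : Derivation ℂ K K) (hD : D L.x = 0) (n : ℕ) :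
    D (prr (A.M.map (algebraMap ℂ K) *ᵥ L.nil) (R.jet δ n)) =
      D R.x * prr (A.M.map (algebraMap ℂ K) *ᵥ L.nil) (R.jet δ (n + 1)) := by
  obtain ⟨b, a, hL⟩ := exists_part L D
  obtain ⟨b', a', hR⟩ := exists_part R D
  have hb := A.all D b a b' a' hL hR
  have h1 : (fun i => D (R.jet δ n i)) = D R.x • R.jet δ (n + 1) + bra b' (R.jet δ n) := by
    funext i
    rw [Part.jet T.hR T.xR n hR i]
    rfl
  have h2 : (fun i => D (L.nil i)) = bra b L.nil := by
    funext i
    have h := Part.jet T.hL T.xL 0 hL i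
    rw [hD, zero_mul, zero_add] at h
    exact h
  have h3 : (fun i => D ((A.M.map (algebraMap ℂ K) *ᵥ L.nil) i)) =
      bra b' (A.M.map (algebraMap ℂ K) *ᵥ L.nil) := by
    funext i
    rw [ALG19_mulVec, h2, ALG19_br, ← hb]
  have h4 := prr_invariant b' (A.M.map (algebraMap ℂ K) *ᵥ L.nil) (R.jet δ n)
  rw [ALG19_prr, h1, h3]
  have h5 : ∀ (u v w : Fin 3 → K) (r : K), prr u (r • v + w) = r * prr u v + prr u w := by
    intro u v w r
    unfold prr
    simp only [Pi.add_apply, Pi.smul_apply, smul_eq_mul]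
    ring
  rw [h5, ← add_assoc, add_comm (prr _ _) (D R.x * _), add_assoc, h4, add_zero]

/-- The invariant function is algebraic. -/
theorem Auto.theta [CharZero K] {L R : Side k K} {δ : Derivation ℂ K K} (T : Two L R δ)
    (A : Auto L R) (hM : A.M = 1) (hy : ¬ AlgebraicIndependent ℂ ![L.x, R.x]) :
    ¬ AlgebraicIndependent ℂ ![L.x, (L.t0 - R.t0) ^ 2 / (L.t1 * R.t1)] := by
  refine dep_of_killed fun D hD => ?_
  have hDy : D R.x = 0 := killed_of_dep L.x_transcendental hy D hD
  obtain ⟨b, a, hL⟩ := exists_part L D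
  obtain ⟨b', a', hR⟩ := exists_part R D
  have hb : b' = b := by
    rw [A.all D b a b' a' hL hR, hM, Matrix.map_one _ (map_zero _) (map_one _),
      Matrix.one_mulVec]
  subst hb
  have hL0 := hL.h0
  have hL1 := hL.h1
  have hR0 := hR.h0
  have hR1 := hR.h1
  rw [hD, zero_mul, zero_add] at hL0 hL1
  rw [hDy, zero_mul, zero_add] at hR0 hR1
  have hu : D ((L.t0 - R.t0) ^ 2) = 2 * (L.t0 - R.t0) * (D L.t0 - D R.t0) := by
    rw [sq, D.leibniz, map_sub]
    simp only [smul_eq_mul]
    ring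
  have hv : D (L.t1 * R.t1) = L.t1 * D R.t1 + R.t1 * D L.t1 := by
    rw [D.leibniz]
    simp only [smul_eq_mul]
  rw [Derivation.leibniz_div, hu, hv, hL0, hR0, hL1, hR1]
  simp only [smul_eq_mul]
  ring

/-- If `y` is transcendental over `ℂ(x)`: the derivation `d/dy` acts on the mixed invariants. -/
theorem Auto.mixed [CharZero K] {L R : Side k K} {δ : Derivation ℂ K K} (T : Two L R δ)
    (A : Auto L R) (hy : AlgebraicIndependent ℂ ![L.x, R.x]) :
    (∃ D : Derivation ℂ K K, D L.x = 0 ∧ D R.x = 1 ∧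
      ∀ n, D (prr (A.M.map (algebraMap ℂ K) *ᵥ L.nil) (R.jet δ n)) =
        prr (A.M.map (algebraMap ℂ K) *ᵥ L.nil) (R.jet δ (n + 1))) ∧
    ¬ AlgebraicIndependent ℂ
      ![L.x, R.x, prr (A.M.map (algebraMap ℂ K) *ᵥ L.nil) (R.jet δ 0)] := by
  constructor
  · obtain ⟨D, hD⟩ := exists_derivation hy ![0, 1]
    have h0 : D L.x = 0 := hD 0
    have h1 : D R.x = 1 := hD 1
    refine ⟨D, h0, h1, fun n => ?_⟩
    rw [ALG19_key T A D h0 n, h1, one_mul]
  · refine dep_of_killed₂ fun D h0 h1 => ?_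
    rw [ALG19_key T A D h0 0, h1, zero_mul]

end Two

end Pool.Agent.LibSym94
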