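import Mathlib

/-!
# The algebra of `sl₂ ⋉ Sym^k` acting on the jets of a period map: definitions
-/

open Polynomial Matrix

namespace Pool.Agent.LibSym94

section Ring
variable {R : Type*} [CommRing R]

/-- The polynomial with the given coefficients. -/
noncomputable def toP {n : ℕ} (v : Fin n → R) : R[X] := ∑ j, C (v j) * X ^ (j : ℕ)

/-- The coefficient vector of `(X - s)^i (X - t)^(k-i)`. -/
noncomputable def frm (k : ℕ) (s t : R) (i : ℕ) : Fin (k + 1) → R :=
  fun j => ((X - C s) ^ i * (X - C t) ^ (k - i)).coeff j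

/-- The bracket `b' c - b c'` of quadratic polynomials. -/
def bra (b c : Fin 3 → R) : Fin 3 → R :=
  ![b 1 * c 0 - b 0 * c 1, 2 * (b 2 * c 0 - b 0 * c 2), b 2 * c 1 - b 1 * c 2]

/-- The invariant form on quadratic polynomials (polarised discriminant). -/
def prr (b c : Fin 3 → R) : R := b 1 * c 1 - 2 * (b 0 * c 2 + b 2 * c 0)

end Ring

section Field
variable {K : Type*} [Field K]

/-- The operator `P ↦ (k/2) b' P - b P'` on coefficient vectors of polynomials of degree `≤ k`,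
`b` a quadratic polynomial. -/
noncomputable def slm (k : ℕ) (b : Fin 3 → K) : Matrix (Fin (k + 1)) (Fin (k + 1)) K :=
  Matrix.of fun i j =>
    (if (i : ℕ) = j + 1 then b 2 * ((k : K) - (j : ℕ)) else 0) +
    (if i = j then b 1 * ((k : K) / 2 - (j : ℕ)) else 0) -
    (if (i : ℕ) + 1 = j then b 0 * ((j : ℕ) : K) else 0)

variable [Algebra ℂ K]

/-- The functions attached to one side: coordinate `x`, period `t0` and its derivatives `t1`, `t2`
with respect to `x`, the Schwarzian `rho` (with derivative `rho1`), the extension data `V` with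
`dV/dx = g (X - t0)^k`, where `g² t1^k` is algebraic over `ℂ(x)`, with derivative `m1`. -/
structure Side (k : ℕ) (K : Type*) [Field K] [Algebra ℂ K] where
  x : K
  t0 : K
  t1 : K
  t2 : K
  rho : K
  rho1 : K
  g : K
  m1 : K
  V : Fin (k + 1) → K
  ht1 : t1 ≠ 0
  hg : g ≠ 0
  hrho : ∀ D : Derivation ℂ K K, D rho = D x * rho1
  hm : ∀ D : Derivation ℂ K K, D (g ^ 2 * t1 ^ k) = D x * m1
  indep : AlgebraicIndependent ℂ (Sum.elim ![x, t0, t1, t2] V)

/-- The third derivative of the period. -/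
noncomputable def Side.t3 {k : ℕ} (S : Side k K) : K := 3 / 2 * S.t2 ^ 2 / S.t1 + S.rho * S.t1

/-- The derivation `D` is `D x · d/dx` plus the vector field of `(b, a) ∈ sl₂ ⋉ Sym^k`. -/
structure Part {k : ℕ} (S : Side k K) (D : Derivation ℂ K K) (b : Fin 3 → K)
    (a : Fin (k + 1) → K) : Prop where
  h0 : D S.t0 = D S.x * S.t1 + (b 0 + b 1 * S.t0 + b 2 * S.t0 ^ 2)
  h1 : D S.t1 = D S.x * S.t2 + (b 1 + 2 * b 2 * S.t0) * S.t1
  h2 : D S.t2 = D S.x * S.t3 + (b 1 + 2 * b 2 * S.t0) * S.t2 + 2 * b 2 * S.t1 ^ 2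
  hV : ∀ j, D (S.V j) = D S.x * (S.g * frm k S.t0 S.t0 k j) + (slm k b *ᵥ S.V) j + a j

/-- The quadratic polynomial `(X - t0)² / t1`. -/
noncomputable def Side.nil {k : ℕ} (S : Side k K) : Fin 3 → K :=
  ![S.t0 ^ 2 / S.t1, -(2 * S.t0) / S.t1, 1 / S.t1]

/-- The derivatives of the quadratic polynomial `(X - t0)² / t1` with respect to `x`. -/
noncomputable def Side.jet {k : ℕ} (S : Side k K) (δ : Derivation ℂ K K) : ℕ → Fin 3 → K
  | 0 => S.nil
  | n + 1 => fun i => δ (S.jet δ n i) / δ S.x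

/-- Coefficients in `ℂ` regarded in `K`. -/
noncomputable def up {n : ℕ} (v : Fin n → ℂ) : Fin n → K := fun j => algebraMap ℂ K (v j)

end Field

section Two
variable {k : ℕ} {K : Type*} [Field K] [Algebra ℂ K]

/-- Two sides with a common derivation. -/
structure Two (L R : Side k K) (δ : Derivation ℂ K K) : Prop where
  const : ∀ u, δ u = 0 → ∃ c : ℂ, algebraMap ℂ K c = u
  hL : Part L δ 0 0
  hR : Part R δ 0 0
  xL : δ L.x ≠ 0
  xR : δ R.x ≠ 0

/-- A common component `f i` and its mirror `f (k-i)` vanish. -/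
structure Vanish (L R : Side k K) (f : ℕ → K) (i : ℕ) : Prop where
  ne : L.t0 ≠ R.t0
  top : f (k + 1) = 0
  eq : ∀ j, L.V j - R.V j = ∑ l ∈ Finset.range (k + 1), f l * frm k L.t0 R.t0 l j
  le : i ≤ k
  ne2 : 2 * i ≠ k
  zero : f i = 0
  zero' : f (k - i) = 0

/-- The automorphism relating the two sides. -/
structure Auto (L R : Side k K) where
  M : Matrix (Fin 3) (Fin 3) ℂ
  N : Matrix (Fin (k + 1)) (Fin (k + 1)) ℂ
  M_unit : IsUnit M.det
  N_unit : IsUnit N.det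
  br : ∀ b c : Fin 3 → ℂ, M *ᵥ bra b c = bra (M *ᵥ b) (M *ᵥ c)
  act : ∀ (b : Fin 3 → ℂ) (a : Fin (k + 1) → ℂ),
    N *ᵥ (slm k b *ᵥ a) = slm k (M *ᵥ b) *ᵥ (N *ᵥ a)
  all : ∀ (D : Derivation ℂ K K) (b : Fin 3 → K) (a : Fin (k + 1) → K) (b' : Fin 3 → K)
    (a' : Fin (k + 1) → K), Part L D b a → Part R D b' a' → b' = M.map (algebraMap ℂ K) *ᵥ b
  exb : ∀ b : Fin 3 → ℂ, ∃ (D : Derivation ℂ K K) (a' : Fin (k + 1) → ℂ), D L.x = 0 ∧
    Part L D (up b) 0 ∧ Part R D (up (M *ᵥ b)) (up a')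
  exa : ∀ a : Fin (k + 1) → ℂ, ∃ D : Derivation ℂ K K, D L.x = 0 ∧ Part L D 0 (up a) ∧
    Part R D 0 (up (N *ᵥ a))

end Two

end Pool.Agent.LibSym94
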