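import Pool.Agent.LibSym94.GermDefs
import Pool.Agent.LibSym94.ALG

open Polynomial Filter Topology Matrix
open scoped ComplexConjugate

namespace Pool.Agent.LibSym94

/-! ## Germs -/

theorem tay_add {z₀ : ℂ} {f g : ℂ → ℂ} (hf : AnalyticAt ℂ f z₀) (hg : AnalyticAt ℂ g z₀) :
    tay z₀ (fun z => f z + g z) = tay z₀ f + tay z₀ g := by
  ext n
  simp only [tay, PowerSeries.coeff_mk, map_add]
  rw [iteratedDeriv_fun_add hf.contDiffAt hg.contDiffAt, add_div]

theorem tay_mul {z₀ : ℂ} {f g : ℂ → ℂ} (hf : AnalyticAt ℂ f z₀) (hg : AnalyticAt ℂ g z₀) :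
    tay z₀ (fun z => f z * g z) = tay z₀ f * tay z₀ g := by
  ext n
  rw [PowerSeries.coeff_mul, Finset.Nat.sum_antidiagonal_eq_sum_range_succ_mk]
  simp only [tay, PowerSeries.coeff_mk]
  rw [iteratedDeriv_fun_mul hf.contDiffAt hg.contDiffAt, Finset.sum_div]
  refine Finset.sum_congr rfl fun i hi => ?_
  have hi' : i ≤ n := Nat.lt_succ_iff.1 (Finset.mem_range.1 hi)
  have h1 : ((n.choose i : ℕ) : ℂ) * (i.factorial : ℂ) * ((n - i).factorial : ℂ)
      = (n.factorial : ℂ) := by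
    exact_mod_cast Nat.choose_mul_factorial_mul_factorial hi'
  have h2 : (i.factorial : ℂ) ≠ 0 := by exact_mod_cast Nat.factorial_ne_zero i
  have h3 : ((n - i).factorial : ℂ) ≠ 0 := by exact_mod_cast Nat.factorial_ne_zero (n - i)
  have h4 : (n.factorial : ℂ) ≠ 0 := by exact_mod_cast Nat.factorial_ne_zero n
  rw [div_mul_div_comm, div_eq_div_iff h4 (mul_ne_zero h2 h3), ← h1]
  ring

theorem tay_const (z₀ c : ℂ) : tay z₀ (fun _ => c) = PowerSeries.C c := by
  ext n
  simp only [tay, PowerSeries.coeff_mk, iteratedDeriv_const, PowerSeries.coeff_C]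
  by_cases hn : n = 0
  · simp [hn]
  · simp [hn]

theorem tay_deriv (z₀ : ℂ) (f : ℂ → ℂ) :
    tay z₀ (deriv f) = PowerSeries.derivative ℂ (tay z₀ f) := by
  ext n
  rw [PowerSeries.coeff_derivative]
  simp only [tay, PowerSeries.coeff_mk]
  rw [← iteratedDeriv_succ', Nat.factorial_succ]
  have h4 : (n.factorial : ℂ) ≠ 0 := by exact_mod_cast Nat.factorial_ne_zero n
  have h5 : ((n : ℂ) + 1) ≠ 0 := by exact_mod_cast Nat.succ_ne_zero n
  push_cast
  field_simp

theorem tay_congr {z₀ : ℂ} {f g : ℂ → ℂ} (h : ∀ᶠ z in 𝓝 z₀, f z = g z) :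
    tay z₀ f = tay z₀ g := by
  ext n
  simp only [tay, PowerSeries.coeff_mk]
  have h' : f =ᶠ[𝓝 z₀] g := h
  rw [(h'.iteratedDeriv n).eq_of_nhds]

theorem tay_eq_zero {z₀ : ℂ} {f : ℂ → ℂ} (hf : AnalyticAt ℂ f z₀) :
    tay z₀ f = 0 ↔ ∀ᶠ z in 𝓝 z₀, f z = 0 := by
  rw [hf.hasFPowerSeriesAt.locally_zero_iff, FormalMultilinearSeries.ofScalars_series_eq_zero]
  constructor
  · intro h
    funext n
    have := congrArg (PowerSeries.coeff n) h
    simpa only [tay, PowerSeries.coeff_mk, map_zero, Pi.zero_apply] using this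
  · intro h
    ext n
    have := congrFun h n
    simpa only [tay, PowerSeries.coeff_mk, map_zero, Pi.zero_apply] using this

theorem GE2_const (p q : PowerSeries ℂ) (hq : q ≠ 0)
    (h : PowerSeries.derivative ℂ p * q = p * PowerSeries.derivative ℂ q) :
    ∃ c : ℂ, p = PowerSeries.C c * q := by
  obtain ⟨m, v, hv⟩ := IsDiscreteValuationRing.eq_unit_mul_pow_irreducible hq
    (PowerSeries.X_prime (R := ℂ)).irreducible
  obtain ⟨r, hr⟩ : ∃ r : PowerSeries ℂ, p = v * r := ⟨(↑v⁻¹ : PowerSeries ℂ) * p, by simp⟩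
  have hX : (PowerSeries.X : PowerSeries ℂ) ≠ 0 := PowerSeries.X_ne_zero
  have hv0 : (v : PowerSeries ℂ) ≠ 0 := v.ne_zero
  have h1 : (PowerSeries.X : PowerSeries ℂ) * PowerSeries.derivative ℂ r = (m : PowerSeries ℂ) * r := by
    have h2 : ((v : PowerSeries ℂ) ^ 2 * PowerSeries.X ^ m) *
        (PowerSeries.X * PowerSeries.derivative ℂ r) =
        ((v : PowerSeries ℂ) ^ 2 * PowerSeries.X ^ m) * ((m : PowerSeries ℂ) * r) := by
      have h3 : PowerSeries.X * (PowerSeries.derivative ℂ p * q) =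
        PowerSeries.X * (p * PowerSeries.derivative ℂ q) := by rw [h]
      rw [hr, hv] at h3
      rcases Nat.eq_zero_or_pos m with hm | hm
      · subst hm
        simp only [Derivation.leibniz, pow_zero, smul_eq_mul,
          mul_one, Nat.cast_zero, mul_zero, zero_mul] at h3 ⊢
        linear_combination h3
      · obtain ⟨l, rfl⟩ : ∃ l, m = l + 1 := ⟨m - 1, by omega⟩
        simp only [Derivation.leibniz, Derivation.leibniz_pow, smul_eq_mul,
          PowerSeries.derivative_X, nsmul_eq_mul, Nat.add_sub_cancel, mul_one] at h3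
        push_cast at h3 ⊢
        linear_combination h3
    exact mul_left_cancel₀ (mul_ne_zero (pow_ne_zero _ hv0) (pow_ne_zero _ hX)) h2
  refine ⟨PowerSeries.coeff m r, ?_⟩
  have h4 : r = PowerSeries.C (PowerSeries.coeff m r) * PowerSeries.X ^ m := by
    ext n
    rw [PowerSeries.coeff_C_mul, PowerSeries.coeff_X_pow]
    have h5 := congrArg (PowerSeries.coeff n) h1
    rw [show ((m : ℕ) : PowerSeries ℂ) = PowerSeries.C (m : ℂ) by simp, PowerSeries.coeff_C_mul]
      at h5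
    have h6 : PowerSeries.coeff n (PowerSeries.X * PowerSeries.derivative ℂ r) =
        (n : ℂ) * PowerSeries.coeff n r := by
      rcases n with _ | n
      · simp
      · rw [PowerSeries.coeff_succ_X_mul, PowerSeries.coeff_derivative]
        push_cast
        ring
    rw [h6] at h5
    by_cases hn : n = m
    · subst hn; simp
    · have : ((n : ℂ) - m) ≠ 0 := sub_ne_zero.mpr (by exact_mod_cast hn)
      have h7 : ((n : ℂ) - m) * PowerSeries.coeff n r = 0 := by linear_combination h5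
      rw [if_neg hn, mul_zero]
      exact (mul_eq_zero.mp h7).resolve_left this
  rw [hr, hv]
  nth_rewrite 1 [h4]
  ring

theorem GE2_ext : ∃ δ : Derivation ℂ KK KK,
    ∀ p : PowerSeries ℂ, δ (algebraMap _ KK p) = algebraMap _ KK (PowerSeries.derivative ℂ p) := by
  have : Algebra.FormallyEtale (PowerSeries ℂ) KK :=
    Algebra.FormallyEtale.of_isLocalization (Rₘ := KK) (nonZeroDivisors (PowerSeries ℂ))
  let d0 : Derivation ℂ (PowerSeries ℂ) KK :=
    (Algebra.linearMap (PowerSeries ℂ) KK).compDer (PowerSeries.derivative ℂ)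
  let e := KaehlerDifferential.tensorKaehlerEquivOfFormallyEtale ℂ (PowerSeries ℂ) KK
  let F : Ω[KK⁄ℂ] →ₗ[KK] KK := (LinearMap.liftBaseChange KK d0.liftKaehlerDifferential) ∘ₗ
    e.symm.toLinearMap
  refine ⟨F.compDer (KaehlerDifferential.D ℂ KK), fun p => ?_⟩
  change F (KaehlerDifferential.D ℂ KK (algebraMap _ KK p)) = _
  change (LinearMap.liftBaseChange KK d0.liftKaehlerDifferential)
    (e.symm (KaehlerDifferential.D ℂ KK (algebraMap _ KK p))) = _
  rw [show e.symm (KaehlerDifferential.D ℂ KK (algebraMap _ KK p)) = _ from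
    KaehlerDifferential.tensorKaehlerEquivOfFormallyEtale_symm_D_algebraMap ℂ (PowerSeries ℂ) KK p]
  simp [d0]

/-- The derivation of the field of germs. -/
theorem exists_dK : ∃ δ : Derivation ℂ KK KK,
    (∀ p : PowerSeries ℂ, δ (algebraMap _ KK p) = algebraMap _ KK (PowerSeries.derivative ℂ p)) ∧
    ∀ u, δ u = 0 → ∃ c : ℂ, algebraMap ℂ KK c = u := by
  obtain ⟨δ, hδ⟩ := GE2_ext
  refine ⟨δ, hδ, fun u hu => ?_⟩
  obtain ⟨p, q, hq, rfl⟩ := IsFractionRing.div_surjective (A := PowerSeries ℂ) u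
  have hq0 : q ≠ 0 := nonZeroDivisors.ne_zero hq
  have hqK : algebraMap (PowerSeries ℂ) KK q ≠ 0 := by
    simpa using hq0
  set P := algebraMap (PowerSeries ℂ) KK p with hP
  set Q := algebraMap (PowerSeries ℂ) KK q with hQ
  have h1 : δ P = δ (P / Q * Q) := by rw [div_mul_cancel₀ _ hqK]
  rw [Derivation.leibniz, hu, smul_zero, add_zero, smul_eq_mul, hδ, hδ] at h1
  have h2 : PowerSeries.derivative ℂ p * q = p * PowerSeries.derivative ℂ q := by
    apply IsFractionRing.injective (PowerSeries ℂ) KK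
    rw [map_mul, map_mul, h1, ← hP, ← hQ]
    field_simp
  obtain ⟨c, hc⟩ := GE2_const p q hq0 h2
  refine ⟨c, ?_⟩
  rw [hP, hQ, hc, map_mul, mul_div_assoc, ← hQ, div_self hqK, mul_one,
    IsScalarTower.algebraMap_apply ℂ (PowerSeries ℂ) KK]
  rfl

/-- The derivation of the field of germs. -/
noncomputable def dK : Derivation ℂ KK KK := exists_dK.choose

theorem dK_germ (z₀ : ℂ) (f : ℂ → ℂ) : dK (germ z₀ f) = germ z₀ (deriv f) := by
  unfold germ
  rw [tay_deriv]
  exact exists_dK.choose_spec.1 (tay z₀ f)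

theorem dK_const (u : KK) (h : dK u = 0) : ∃ c : ℂ, algebraMap ℂ KK c = u :=
  exists_dK.choose_spec.2 u h

theorem germ_add {z₀ : ℂ} {f g : ℂ → ℂ} (hf : AnalyticAt ℂ f z₀) (hg : AnalyticAt ℂ g z₀) :
    germ z₀ (fun z => f z + g z) = germ z₀ f + germ z₀ g := by
  unfold germ
  rw [tay_add hf hg, map_add]

theorem germ_mul {z₀ : ℂ} {f g : ℂ → ℂ} (hf : AnalyticAt ℂ f z₀) (hg : AnalyticAt ℂ g z₀) :
    germ z₀ (fun z => f z * g z) = germ z₀ f * germ z₀ g := by
  unfold germ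
  rw [tay_mul hf hg, map_mul]

theorem germ_const (z₀ c : ℂ) : germ z₀ (fun _ => c) = algebraMap ℂ KK c := by
  unfold germ
  rw [tay_const, IsScalarTower.algebraMap_apply ℂ (PowerSeries ℂ) KK]
  rfl

theorem germ_eq_zero {z₀ : ℂ} {f : ℂ → ℂ} (hf : AnalyticAt ℂ f z₀) :
    germ z₀ f = 0 ↔ ∀ᶠ z in 𝓝 z₀, f z = 0 := by
  unfold germ
  rw [← tay_eq_zero hf]
  constructor
  · intro h
    exact (IsFractionRing.injective (PowerSeries ℂ) KK) (by rw [h, map_zero])
  · intro h
    rw [h, map_zero]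

theorem germ_congr {z₀ : ℂ} {f g : ℂ → ℂ} (h : ∀ᶠ z in 𝓝 z₀, f z = g z) :
    germ z₀ f = germ z₀ g := by
  unfold germ
  rw [tay_congr h]

theorem germ_div {z₀ : ℂ} {f g : ℂ → ℂ} (hf : AnalyticAt ℂ f z₀) (hg : AnalyticAt ℂ g z₀)
    (h : g z₀ ≠ 0) : germ z₀ (fun z => f z / g z) = germ z₀ f / germ z₀ g := by
  have hg0 : germ z₀ g ≠ 0 := by
    intro h0
    exact h ((germ_eq_zero hg).1 h0).self_of_nhds
  have hd : AnalyticAt ℂ (fun z => f z / g z) z₀ := hf.div hg h
  rw [eq_div_iff hg0, ← germ_mul hd hg]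
  apply germ_congr
  filter_upwards [hg.continuousAt.eventually_ne h] with z hz
  exact div_mul_cancel₀ _ hz

/-- Polynomials in germs. -/
theorem germ_mvPolynomial {ι : Type*} {z₀ : ℂ} {f : ι → ℂ → ℂ} (hf : ∀ i, AnalyticAt ℂ (f i) z₀)
    (P : MvPolynomial ι ℂ) :
    MvPolynomial.aeval (fun i => germ z₀ (f i)) P =
      germ z₀ (fun z => MvPolynomial.eval (fun i => f i z) P) ∧
    AnalyticAt ℂ (fun z => MvPolynomial.eval (fun i => f i z) P) z₀ := by
  induction P using MvPolynomial.induction_on with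
  | C c =>
    simp only [MvPolynomial.eval_C]
    refine ⟨?_, analyticAt_const⟩
    rw [germ_const, MvPolynomial.aeval_C]
  | add p q hp hq =>
    simp only [map_add]
    refine ⟨?_, hp.2.add hq.2⟩
    rw [germ_add hp.2 hq.2, hp.1, hq.1]
  | mul_X p i hp =>
    simp only [map_mul, MvPolynomial.eval_X, MvPolynomial.aeval_X]
    refine ⟨?_, hp.2.mul (hf i)⟩
    rw [germ_mul hp.2 (hf i), hp.1]

theorem GE4_pow {z₀ : ℂ} {g : ℂ → ℂ} (hg : AnalyticAt ℂ g z₀) (n : ℕ) :
    germ z₀ (fun z => g z ^ n) = germ z₀ g ^ n := by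
  induction n with
  | zero =>
    have h := germ_const z₀ 1
    simpa using h
  | succ n ih =>
    have h := germ_mul (hg.fun_pow n) hg
    simp only [pow_succ]
    rw [h, ih]

theorem GE4_inner {z₀ : ℂ} {f : ℂ → ℂ} (hf : AnalyticAt ℂ f z₀) (p : ℂ[X]) :
    p.eval₂ (algebraMap ℂ KK) (germ z₀ f) =
      germ z₀ (fun z => p.eval₂ (algebraMap ℂ ℂ) (f z)) ∧
      AnalyticAt ℂ (fun z => p.eval₂ (algebraMap ℂ ℂ) (f z)) z₀ := by
  induction p using Polynomial.induction_on' with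
  | add p q hp hq =>
    simp only [Polynomial.eval₂_add]
    refine ⟨?_, hp.2.add hq.2⟩
    rw [germ_add hp.2 hq.2, hp.1, hq.1]
  | monomial n a =>
    simp only [Polynomial.eval₂_monomial]
    refine ⟨?_, analyticAt_const.mul (hf.fun_pow n)⟩
    rw [germ_mul analyticAt_const (hf.fun_pow n), GE4_pow hf, germ_const]
    rfl

theorem germ_EV {z₀ : ℂ} {f g : ℂ → ℂ} (hf : AnalyticAt ℂ f z₀) (hg : AnalyticAt ℂ g z₀)
    (P : ℂ[X][X]) : EV P (germ z₀ f) (germ z₀ g) = germ z₀ (fun z => EV P (f z) (g z)) ∧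
      AnalyticAt ℂ (fun z => EV P (f z) (g z)) z₀ := by
  unfold EV
  induction P using Polynomial.induction_on' with
  | add p q hp hq =>
    simp only [Polynomial.eval₂_add]
    refine ⟨?_, hp.2.add hq.2⟩
    rw [germ_add hp.2 hq.2, hp.1, hq.1]
  | monomial n a =>
    simp only [Polynomial.eval₂_monomial, Polynomial.coe_eval₂RingHom]
    obtain ⟨h1, h2⟩ := GE4_inner hf a
    refine ⟨?_, h2.mul (hg.fun_pow n)⟩
    rw [germ_mul h2 (hg.fun_pow n), GE4_pow hg, h1]

theorem GE5_hom {K L : Type*} [CommRing K] [Algebra ℂ K] [CommRing L] [Algebra ℂ L]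
    (φ : K →ₐ[ℂ] L) (P : ℂ[X][X]) (x y : K) : φ (EV P x y) = EV P (φ x) (φ y) := by
  unfold EV
  have h := Polynomial.hom_eval₂ P (Polynomial.eval₂RingHom (algebraMap ℂ K) x) φ.toRingHom y
  have h2 : φ.toRingHom.comp (Polynomial.eval₂RingHom (algebraMap ℂ K) x)
      = Polynomial.eval₂RingHom (algebraMap ℂ L) (φ x) := by
    apply Polynomial.ringHom_ext
    · intro a
      simp
    · simp
  rw [h2] at h
  exact h

theorem GE5_id (P : ℂ[X][X]) : EV P (C X : ℂ[X][X]) (X : ℂ[X][X]) = P := by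
  unfold EV
  have h2 : Polynomial.eval₂RingHom (algebraMap ℂ ℂ[X][X]) (C X) = (C : ℂ[X] →+* ℂ[X][X]) := by
    apply Polynomial.ringHom_ext
    · intro a
      simp [Polynomial.algebraMap_apply]
    · simp
  rw [h2]
  exact Polynomial.eval₂_C_X

theorem GE5_aeval {K : Type*} [CommRing K] [Algebra ℂ K] (x y : K)
    (p : MvPolynomial (Fin 2) ℂ) :
    EV (MvPolynomial.aeval ![(C X : ℂ[X][X]), X] p) x y = MvPolynomial.aeval ![x, y] p := by
  induction p using MvPolynomial.induction_on with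
  | C c =>
    rw [MvPolynomial.aeval_C, MvPolynomial.aeval_C]
    simp [EV, Polynomial.algebraMap_apply]
  | add p q hp hq =>
    rw [map_add, map_add, ← hp, ← hq]
    simp [EV, Polynomial.eval₂_add]
  | mul_X p i hp =>
    rw [map_mul, map_mul, ← hp, MvPolynomial.aeval_X, MvPolynomial.aeval_X]
    fin_cases i <;> simp [EV, Polynomial.eval₂_mul]

/-- Dependence of two elements gives a polynomial relation. -/
theorem exists_EV {K : Type*} [Field K] [Algebra ℂ K] {x y : K}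
    (h : ¬ AlgebraicIndependent ℂ ![x, y]) : ∃ P : ℂ[X][X], P ≠ 0 ∧ EV P x y = 0 := by
  rw [algebraicIndependent_iff] at h
  push Not at h
  obtain ⟨p, hp, hp0⟩ := h
  refine ⟨MvPolynomial.aeval ![(C X : ℂ[X][X]), X] p, ?_, ?_⟩
  · intro h0
    apply hp0
    have h1 := GE5_aeval (K := MvPolynomial (Fin 2) ℂ) (MvPolynomial.X 0) (MvPolynomial.X 1) p
    rw [h0] at h1
    have h3 : (![MvPolynomial.X 0, MvPolynomial.X 1] : Fin 2 → MvPolynomial (Fin 2) ℂ)
        = MvPolynomial.X := by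
      funext i
      fin_cases i <;> rfl
    rw [h3, MvPolynomial.aeval_X_left_apply] at h1
    rw [← h1]
    simp [EV]
  · rw [GE5_aeval, hp]

theorem dep_of_EV {K : Type*} [Field K] [Algebra ℂ K] {x y : K} {P : ℂ[X][X]} (hP : P ≠ 0)
    (h : EV P x y = 0) : ¬ AlgebraicIndependent ℂ ![x, y] := by
  intro hA
  rw [algebraicIndependent_iff] at hA
  have h1 : MvPolynomial.aeval ![x, y] (EV P (MvPolynomial.X 0 : MvPolynomial (Fin 2) ℂ)
      (MvPolynomial.X 1)) = 0 := by
    rw [GE5_hom]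
    simpa using h
  have h2 := hA _ h1
  apply hP
  have h3 := GE5_hom (MvPolynomial.aeval ![(C X : ℂ[X][X]), X]) P
    (MvPolynomial.X 0 : MvPolynomial (Fin 2) ℂ) (MvPolynomial.X 1)
  rw [h2] at h3
  have h4 := GE5_id P
  rw [← h4]
  simpa using h3.symm

/-! ## The two sides attached to holomorphic data -/

theorem GE6_deriv (f : ℂ → ℂ) : deriv (LibSym94.cc f) = LibSym94.cc (deriv f) := by
  exact deriv_conj_conj (f := f)

theorem GE6_dx (x f : ℂ → ℂ) :
    dx (LibSym94.cc x) (LibSym94.cc f) = LibSym94.cc (dx x f) := by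
  funext w
  show deriv (LibSym94.cc f) w / deriv (LibSym94.cc x) w = conj (dx x f (conj w))
  rw [GE6_deriv, GE6_deriv]
  unfold dx LibSym94.cc
  rw [map_div₀]

theorem GE6_schw (x T : ℂ → ℂ) :
    schw (LibSym94.cc x) (LibSym94.cc T) = LibSym94.cc (schw x T) := by
  funext w
  have h1 := GE6_dx x T
  have h2 : dx (LibSym94.cc x) (dx (LibSym94.cc x) (LibSym94.cc T)) =
      LibSym94.cc (dx x (dx x T)) := by rw [h1, GE6_dx]
  have h3 : dx (LibSym94.cc x) (dx (LibSym94.cc x) (dx (LibSym94.cc x) (LibSym94.cc T))) =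
      LibSym94.cc (dx x (dx x (dx x T))) := by rw [h2, GE6_dx]
  have e : (starRingEnd ℂ) (3 / 2 : ℂ) = 3 / 2 := by
    rw [map_div₀, map_ofNat, map_ofNat]
  unfold schw
  rw [h3, h2, h1]
  show _ = conj _
  rw [map_div₀, map_sub, map_mul, map_mul, map_pow, map_pow, e]
  rfl

theorem GE6_frm (k : ℕ) (s t : ℂ) (i : ℕ) (j : Fin (k + 1)) :
    conj (frm k s t i j) = frm k (conj s) (conj t) i j := by
  unfold frm
  have h : (((X - C (conj s)) ^ i * (X - C (conj t)) ^ (k - i)) : ℂ[X]) =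
      ((X - C s) ^ i * (X - C t) ^ (k - i) : ℂ[X]).map (starRingEnd ℂ) := by
    simp [Polynomial.map_mul, Polynomial.map_pow, Polynomial.map_sub]
  rw [h, Polynomial.coeff_map]

theorem GE6_EV (P : ℂ[X][X]) (a b : ℂ) :
    EV (P.map (mapRingHom (starRingEnd ℂ))) (conj a) (conj b) = conj (EV P a b) := by
  unfold EV
  rw [Polynomial.eval₂_map]
  have h : (Polynomial.eval₂RingHom (algebraMap ℂ ℂ) (conj a)).comp
      (mapRingHom (starRingEnd ℂ)) =
      (starRingEnd ℂ).comp (Polynomial.eval₂RingHom (algebraMap ℂ ℂ) a) := by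
    refine Polynomial.ringHom_ext ?_ ?_
    · intro c
      simp
    · simp
  rw [h, Polynomial.hom_eval₂]

theorem GE6_map_ne {P : ℂ[X][X]} (hP : P ≠ 0) : P.map (mapRingHom (starRingEnd ℂ)) ≠ 0 := by
  intro h
  apply hP
  have hinj : Function.Injective (mapRingHom (starRingEnd ℂ)) := by
    rw [Polynomial.coe_mapRingHom]
    exact Polynomial.map_injective _ (starRingEnd ℂ).injective
  exact (Polynomial.map_injective _ hinj) (by rw [h, Polynomial.map_zero])

/-- The conjugate data. -/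
theorem Gen.cc {k : ℕ} {U : Set ℂ} {x T : ℂ → ℂ} {W : Fin (k + 1) → ℂ → ℂ}
    (H : Gen k U x T W) : Gen k ((fun w : ℂ => conj w) ⁻¹' U) (cc x) (cc T)
      (fun j => LibSym94.cc (W j)) := by
  have hd : ∀ f : ℂ → ℂ, DifferentiableOn ℂ f U →
      DifferentiableOn ℂ (LibSym94.cc f) ((fun w : ℂ => conj w) ⁻¹' U) := by
    intro f hf w hw
    have h1 : DifferentiableAt ℂ f (conj w) := (hf _ hw).differentiableAt
      (H.isOpen.mem_nhds hw)
    have h2 : DifferentiableAt ℂ (fun w : ℂ => conj (f (conj w))) w := by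
      have h3 := h1.conj_conj
      rw [Complex.conj_conj] at h3
      exact h3
    exact h2.differentiableWithinAt
  have hmem : ∀ u ∈ U, (conj u : ℂ) ∈ (fun w : ℂ => conj w) ⁻¹' U := by
    intro u hu
    show conj (conj u) ∈ U
    rw [Complex.conj_conj]
    exact hu
  refine
    { isOpen := H.isOpen.preimage Complex.continuous_conj
      preconn := ?_
      nonempty := ?_
      x_diff := hd x H.x_diff
      T_diff := hd T H.T_diff
      W_diff := fun j => hd _ (H.W_diff j)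
      x_deriv := ?_
      trans := ?_
      base_S := ?_
      base_m := ?_
      indep := ?_ }
  · have e : (fun w : ℂ => conj w) ⁻¹' U = (fun w : ℂ => conj w) '' U := by
      ext w
      constructor
      · intro hw
        exact ⟨conj w, hw, Complex.conj_conj w⟩
      · rintro ⟨u, hu, rfl⟩
        exact hmem u hu
    rw [e]
    exact H.preconn.image _ Complex.continuous_conj.continuousOn
  · obtain ⟨u, hu⟩ := H.nonempty
    exact ⟨conj u, hmem u hu⟩
  · intro u hu
    rw [GE6_deriv]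
    show conj (deriv x (conj u)) ≠ 0
    exact fun h => H.x_deriv _ hu ((map_eq_zero _).1 h)
  · intro u hu
    obtain ⟨g, hg⟩ := H.trans _ hu
    refine ⟨conj g, fun j => ?_⟩
    rw [GE6_deriv]
    show conj (deriv (W j) (conj u)) = conj g * frm k (conj (T (conj u))) (conj (T (conj u))) k j
    rw [← GE6_frm, ← map_mul, ← hg j]
  · obtain ⟨P, hP, h⟩ := H.base_S
    refine ⟨_, GE6_map_ne hP, fun u hu hne => ?_⟩
    rw [GE6_schw]
    show EV _ (conj (x (conj u))) (conj (schw x T (conj u))) = 0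
    rw [GE6_EV, h _ hu, map_zero]
    intro h0
    apply hne
    rw [GE6_dx]
    show conj (dx x T (conj u)) = 0
    rw [h0, map_zero]
  · obtain ⟨P, hP, h⟩ := H.base_m
    refine ⟨_, GE6_map_ne hP, fun u hu => ?_⟩
    rw [GE6_dx, GE6_dx]
    have e : LibSym94.cc (dx x (W (Fin.last k))) u ^ 2 * LibSym94.cc (dx x T) u ^ k =
        conj (dx x (W (Fin.last k)) (conj u) ^ 2 * dx x T (conj u) ^ k) := by
      rw [map_mul, map_pow, map_pow]
      rfl
    rw [e]
    show EV _ (conj (x (conj u))) _ = 0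
    rw [GE6_EV, h _ hu, map_zero]
  · intro P hP
    have h1 : MvPolynomial.map (starRingEnd ℂ) P = 0 := by
      refine H.indep _ fun u hu => ?_
      have h2 := hP (conj u) (hmem u hu)
      have e : jetpt x T W u = fun i => (starRingEnd ℂ)
          (jetpt (LibSym94.cc x) (LibSym94.cc T) (fun j => LibSym94.cc (W j)) (conj u) i) := by
        funext i
        unfold jetpt
        rw [GE6_dx, GE6_dx]
        rcases i with i | i
        · fin_cases i <;> simp [LibSym94.cc]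
        · simp [LibSym94.cc]
      rw [e, MvPolynomial.eval_map, ← MvPolynomial.coe_eval₂Hom]
      have h3 : (MvPolynomial.eval₂Hom (starRingEnd ℂ) fun i => (starRingEnd ℂ)
          (jetpt (LibSym94.cc x) (LibSym94.cc T) (fun j => LibSym94.cc (W j)) (conj u) i)) P =
          (starRingEnd ℂ) (MvPolynomial.eval
            (jetpt (LibSym94.cc x) (LibSym94.cc T) (fun j => LibSym94.cc (W j)) (conj u)) P) := by
        rw [MvPolynomial.coe_eval₂Hom, ← MvPolynomial.eval₂_id, MvPolynomial.eval₂_comp_left]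
        rfl
      rw [h3, h2, map_zero]
    exact (MvPolynomial.map_injective _ (starRingEnd ℂ).injective) (by rw [h1, map_zero])

theorem GE7_pow {z₀ : ℂ} {f : ℂ → ℂ} (hf : AnalyticAt ℂ f z₀) (n : ℕ) :
    germ z₀ (fun z => f z ^ n) = germ z₀ f ^ n := by
  induction n with
  | zero =>
    simp only [pow_zero]
    rw [germ_const, map_one]
  | succ n ih =>
    have h1 : AnalyticAt ℂ (fun z => f z ^ n) z₀ := hf.pow n
    simp only [pow_succ]
    rw [germ_mul h1 hf, ih]

theorem GE7_chain {φ f : ℂ → ℂ} {u₀ : ℂ} (hφ : AnalyticAt ℂ φ u₀)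
    (hf : AnalyticAt ℂ f (φ u₀)) : dK (germ u₀ (fun u => f (φ u))) =
      germ u₀ (fun u => deriv f (φ u) * deriv φ u) := by
  rw [dK_germ]
  refine germ_congr ?_
  have h1 := hφ.eventually_analyticAt
  have h2 := hφ.continuousAt.eventually hf.eventually_analyticAt
  filter_upwards [h1, h2] with u hu hfu
  have h3 := HasDerivAt.comp u hfu.differentiableAt.hasDerivAt hu.differentiableAt.hasDerivAt
  exact h3.deriv

theorem GE7_dx_an {x f : ℂ → ℂ} {w : ℂ} (hx : AnalyticAt ℂ x w) (hf : AnalyticAt ℂ f w)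
    (h : deriv x w ≠ 0) : AnalyticAt ℂ (dx x f) w := by
  have h1 := hf.deriv.div hx.deriv h
  exact h1

theorem GE7_A {φ x f : ℂ → ℂ} {u₀ : ℂ} (hφ : AnalyticAt ℂ φ u₀)
    (hx : AnalyticAt ℂ x (φ u₀)) (hf : AnalyticAt ℂ f (φ u₀)) (h : deriv x (φ u₀) ≠ 0) :
    dK (germ u₀ (fun u => f (φ u))) =
      dK (germ u₀ (fun u => x (φ u))) * germ u₀ (fun u => dx x f (φ u)) := by
  have h1 : AnalyticAt ℂ (fun u => deriv x (φ u) * deriv φ u) u₀ :=
    (hx.deriv.comp hφ).mul hφ.deriv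
  have h2 : AnalyticAt ℂ (fun u => dx x f (φ u)) u₀ := (GE7_dx_an hx hf h).comp hφ
  rw [GE7_chain hφ hf, GE7_chain hφ hx, ← germ_mul h1 h2]
  refine germ_congr ?_
  have h3 : ∀ᶠ w in 𝓝 (φ u₀), deriv x w ≠ 0 := hx.deriv.continuousAt.eventually_ne h
  filter_upwards [hφ.continuousAt.eventually h3] with u hu
  unfold dx
  field_simp

theorem GE7_killed {gx u : KK} (hx : Transcendental ℂ gx) (hne : dK gx ≠ 0)
    (h : ¬ AlgebraicIndependent ℂ ![gx, u]) (D : Derivation ℂ KK KK) :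
    D u = D gx * (dK u / dK gx) := by
  have h0 : (D - (D gx / dK gx) • dK) gx = 0 := by
    rw [Derivation.sub_apply, Derivation.smul_apply, smul_eq_mul, div_mul_cancel₀ _ hne, sub_self]
  have h1 := killed_of_dep hx h (D - (D gx / dK gx) • dK) h0
  rw [Derivation.sub_apply, Derivation.smul_apply, smul_eq_mul, sub_eq_zero] at h1
  rw [h1]
  ring

theorem GE7_frm (k : ℕ) {z₀ : ℂ} {f : ℂ → ℂ} (hf : AnalyticAt ℂ f z₀) (j : Fin (k + 1)) :
    germ z₀ (fun z => frm k (f z) (f z) k j) = frm k (germ z₀ f) (germ z₀ f) k j ∧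
      AnalyticAt ℂ (fun z => frm k (f z) (f z) k j) z₀ := by
  have e : ∀ {R : Type} [CommRing R] (t : R), frm k t t k j =
      (k.choose (j : ℕ) : R) * (-1) ^ (k - (j : ℕ)) * t ^ (k - (j : ℕ)) := by
    intro R _ t
    unfold frm
    rw [Nat.sub_self, pow_zero, mul_one, sub_eq_add_neg, ← C_neg, Polynomial.coeff_X_add_C_pow,
      neg_pow]
    ring
  have e1 : (fun z => frm k (f z) (f z) k j) = fun z =>
      ((k.choose (j : ℕ) : ℂ) * (-1) ^ (k - (j : ℕ))) * f z ^ (k - (j : ℕ)) := by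
    funext z
    rw [e]
  rw [e1, e]
  have h1 : AnalyticAt ℂ (fun z => f z ^ (k - (j : ℕ))) z₀ := hf.pow _
  constructor
  · rw [germ_mul analyticAt_const h1, GE7_pow hf, germ_const]
    congr 1
    rw [map_mul, map_natCast, map_pow, map_neg, map_one]
  · exact analyticAt_const.mul h1

theorem GE7_last (k : ℕ) (t : ℂ) : frm k t t k (Fin.last k) = 1 := by
  unfold frm
  rw [Nat.sub_self, pow_zero, mul_one, sub_eq_add_neg, ← C_neg, Polynomial.coeff_X_add_C_pow,
    Fin.val_last, Nat.sub_self, pow_zero, Nat.choose_self, Nat.cast_one, mul_one]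

theorem GE7_ne {z₀ : ℂ} {f : ℂ → ℂ} (hf : AnalyticAt ℂ f z₀) (h : f z₀ ≠ 0) :
    germ z₀ f ≠ 0 := by
  intro h0
  exact h ((germ_eq_zero hf).1 h0).self_of_nhds

section GE7

variable {k : ℕ} {U : Set ℂ} {x T : ℂ → ℂ} {W : Fin (k + 1) → ℂ → ℂ}

theorem GE7_x (H : Gen k U x T W) {w : ℂ} (hw : w ∈ U) : AnalyticAt ℂ x w :=
  H.x_diff.analyticAt (H.isOpen.mem_nhds hw)

theorem GE7_T (H : Gen k U x T W) {w : ℂ} (hw : w ∈ U) : AnalyticAt ℂ T w :=
  H.T_diff.analyticAt (H.isOpen.mem_nhds hw)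

theorem GE7_W (H : Gen k U x T W) {w : ℂ} (hw : w ∈ U) (j : Fin (k + 1)) :
    AnalyticAt ℂ (W j) w :=
  (H.W_diff j).analyticAt (H.isOpen.mem_nhds hw)

theorem GE7_t1 (H : Gen k U x T W) {w : ℂ} (hw : w ∈ U) : AnalyticAt ℂ (dx x T) w :=
  GE7_dx_an (GE7_x H hw) (GE7_T H hw) (H.x_deriv w hw)

theorem GE7_t2 (H : Gen k U x T W) {w : ℂ} (hw : w ∈ U) : AnalyticAt ℂ (dx x (dx x T)) w :=
  GE7_dx_an (GE7_x H hw) (GE7_t1 H hw) (H.x_deriv w hw)

theorem GE7_t3 (H : Gen k U x T W) {w : ℂ} (hw : w ∈ U) :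
    AnalyticAt ℂ (dx x (dx x (dx x T))) w :=
  GE7_dx_an (GE7_x H hw) (GE7_t2 H hw) (H.x_deriv w hw)

theorem GE7_jet (H : Gen k U x T W) {w : ℂ} (hw : w ∈ U) (i : Fin 4 ⊕ Fin (k + 1)) :
    AnalyticAt ℂ (fun w => jetpt x T W w i) w := by
  rcases i with i | i
  · fin_cases i
    · exact GE7_x H hw
    · exact GE7_T H hw
    · exact GE7_t1 H hw
    · exact GE7_t2 H hw
  · exact GE7_W H hw i

theorem GE7_indep (H : Gen k U x T W) {φ : ℂ → ℂ} {u₀ : ℂ} (hφ : AnalyticAt ℂ φ u₀)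
    (hu : φ u₀ ∈ U) (hd : deriv φ u₀ ≠ 0) :
    AlgebraicIndependent ℂ (fun i : Fin 4 ⊕ Fin (k + 1) =>
      germ u₀ (fun u => jetpt x T W (φ u) i)) := by
  rw [algebraicIndependent_iff]
  intro P hP
  have hj : ∀ i : Fin 4 ⊕ Fin (k + 1), AnalyticAt ℂ (fun u => jetpt x T W (φ u) i) u₀ :=
    fun i => (GE7_jet H hu i).comp hφ
  obtain ⟨e1, e2⟩ := germ_mvPolynomial hj P
  rw [e1] at hP
  have h1 := (germ_eq_zero e2).1 hP
  have hmap : Filter.map φ (𝓝 u₀) = 𝓝 (φ u₀) :=
    (hφ.hasStrictDerivAt).map_nhds_eq hd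
  have h2 : ∀ᶠ w in 𝓝 (φ u₀), MvPolynomial.eval (fun i => jetpt x T W w i) P = 0 := by
    rw [← hmap]
    exact Filter.eventually_map.2 h1
  have hF : AnalyticOnNhd ℂ (fun w => MvPolynomial.eval (fun i => jetpt x T W w i) P) U :=
    fun w hw => (germ_mvPolynomial (fun i => GE7_jet H hw i) P).2
  have h3 := hF.eqOn_zero_of_preconnected_of_eventuallyEq_zero H.preconn hu h2
  refine H.indep P fun w hw => ?_
  have h4 := h3 hw
  rw [Pi.zero_apply] at h4
  exact h4

end GE7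

/-- Holomorphic data composed with a nonconstant analytic function give a side. -/
theorem Gen.side {k : ℕ} {U : Set ℂ} {x T : ℂ → ℂ} {W : Fin (k + 1) → ℂ → ℂ}
    (H : Gen k U x T W) {φ : ℂ → ℂ} {u₀ : ℂ} (hφ : AnalyticAt ℂ φ u₀) (hu : φ u₀ ∈ U)
    (hd : deriv φ u₀ ≠ 0) (h1 : deriv T (φ u₀) ≠ 0) :
    ∃ S : Side k KK, S.x = germ u₀ (fun u => x (φ u)) ∧ S.t0 = germ u₀ (fun u => T (φ u)) ∧
      S.t1 = germ u₀ (fun u => dx x T (φ u)) ∧ (∀ j, S.V j = germ u₀ (fun u => W j (φ u))) ∧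
      Part S dK 0 0 ∧ dK S.x ≠ 0 := by
  have hxd := H.x_deriv _ hu
  have hx := GE7_x H hu
  have hT := GE7_T H hu
  have ht1 := GE7_t1 H hu
  have ht2 := GE7_t2 H hu
  have ht3 := GE7_t3 H hu
  have hg := GE7_dx_an hx (GE7_W H hu (Fin.last k)) hxd
  have cx : AnalyticAt ℂ (fun u => x (φ u)) u₀ := hx.comp hφ
  have cT : AnalyticAt ℂ (fun u => T (φ u)) u₀ := hT.comp hφ
  have c1 : AnalyticAt ℂ (fun u => dx x T (φ u)) u₀ := ht1.comp hφ
  have c2 : AnalyticAt ℂ (fun u => dx x (dx x T) (φ u)) u₀ := ht2.comp hφ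
  have c3 : AnalyticAt ℂ (fun u => dx x (dx x (dx x T)) (φ u)) u₀ := ht3.comp hφ
  have cg : AnalyticAt ℂ (fun u => dx x (W (Fin.last k)) (φ u)) u₀ := hg.comp hφ
  have c1k : AnalyticAt ℂ (fun u => dx x T (φ u) ^ k) u₀ := c1.pow k
  have c12 : AnalyticAt ℂ (fun u => dx x T (φ u) ^ 2) u₀ := c1.pow 2
  have c22 : AnalyticAt ℂ (fun u => dx x (dx x T) (φ u) ^ 2) u₀ := c2.pow 2
  have cg2 : AnalyticAt ℂ (fun u => dx x (W (Fin.last k)) (φ u) ^ 2) u₀ := cg.pow 2
  -- the family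
  have hind0 := GE7_indep H hφ hu hd
  have hfam : (fun i : Fin 4 ⊕ Fin (k + 1) => germ u₀ (fun u => jetpt x T W (φ u) i)) =
      Sum.elim ![germ u₀ (fun u => x (φ u)), germ u₀ (fun u => T (φ u)),
        germ u₀ (fun u => dx x T (φ u)), germ u₀ (fun u => dx x (dx x T) (φ u))]
        (fun j => germ u₀ (fun u => W j (φ u))) := by
    funext i
    rcases i with i | i
    · fin_cases i <;> rfl
    · rfl
  rw [hfam] at hind0
  have htr : Transcendental ℂ (germ u₀ (fun u => x (φ u))) := hind0.transcendental (Sum.inl 0)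
  have htrV : Transcendental ℂ (germ u₀ (fun u => W (Fin.last k) (φ u))) :=
    hind0.transcendental (Sum.inr (Fin.last k))
  -- dK x
  have hdx : dK (germ u₀ (fun u => x (φ u))) ≠ 0 := by
    rw [GE7_chain hφ hx]
    exact GE7_ne ((hx.deriv.comp hφ).mul hφ.deriv) (mul_ne_zero hxd hd)
  have ht1ne : dx x T (φ u₀) ≠ 0 := div_ne_zero h1 hxd
  have hg1 : germ u₀ (fun u => dx x T (φ u)) ≠ 0 := GE7_ne (ht1.comp hφ) ht1ne
  have hgg : germ u₀ (fun u => dx x (W (Fin.last k)) (φ u)) ≠ 0 := by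
    intro h0
    have e := GE7_A hφ hx (GE7_W H hu (Fin.last k)) hxd
    rw [h0, mul_zero] at e
    obtain ⟨c, hc⟩ := dK_const _ e
    rw [← hc] at htrV
    exact htrV (isAlgebraic_algebraMap c)
  have hU : ∀ᶠ u in 𝓝 u₀, φ u ∈ U := hφ.continuousAt.eventually (H.isOpen.mem_nhds hu)
  have hne1 : ∀ᶠ u in 𝓝 u₀, dx x T (φ u) ≠ 0 :=
    hφ.continuousAt.eventually (ht1.continuousAt.eventually_ne ht1ne)
  -- the Schwarzian
  have hsch : AnalyticAt ℂ (schw x T) (φ u₀) := by
    have h5 := ((ht1.mul ht3).sub ((analyticAt_const (v := (3 / 2 : ℂ))).mul (ht2.pow 2))).div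
      (ht1.pow 2) (pow_ne_zero 2 ht1ne)
    exact h5
  have cs : AnalyticAt ℂ (fun u => schw x T (φ u)) u₀ := hsch.comp hφ
  have hrho : ∀ D : Derivation ℂ KK KK, D (germ u₀ (fun u => schw x T (φ u))) =
      D (germ u₀ (fun u => x (φ u))) *
        (dK (germ u₀ (fun u => schw x T (φ u))) / dK (germ u₀ (fun u => x (φ u)))) := by
    obtain ⟨P, hP, hPz⟩ := H.base_S
    refine GE7_killed htr hdx (dep_of_EV hP ?_)
    rw [(germ_EV cx cs P).1]
    refine (germ_eq_zero (germ_EV cx cs P).2).2 ?_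
    filter_upwards [hU, hne1] with u h3 h4
    exact hPz _ h3 h4
  have hmm : germ u₀ (fun u => dx x (W (Fin.last k)) (φ u)) ^ 2 *
      germ u₀ (fun u => dx x T (φ u)) ^ k =
      germ u₀ (fun u => dx x (W (Fin.last k)) (φ u) ^ 2 * dx x T (φ u) ^ k) := by
    rw [germ_mul cg2 c1k, GE7_pow cg, GE7_pow c1]
  have hm : ∀ D : Derivation ℂ KK KK, D (germ u₀ (fun u => dx x (W (Fin.last k)) (φ u)) ^ 2 *
      germ u₀ (fun u => dx x T (φ u)) ^ k) =
      D (germ u₀ (fun u => x (φ u))) *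
        (dK (germ u₀ (fun u => dx x (W (Fin.last k)) (φ u)) ^ 2 *
          germ u₀ (fun u => dx x T (φ u)) ^ k) / dK (germ u₀ (fun u => x (φ u)))) := by
    obtain ⟨P, hP, hPz⟩ := H.base_m
    refine GE7_killed htr hdx (dep_of_EV hP ?_)
    have h6 : AnalyticAt ℂ (fun u => dx x (W (Fin.last k)) (φ u) ^ 2 * dx x T (φ u) ^ k) u₀ :=
      cg2.mul c1k
    rw [hmm, (germ_EV cx h6 P).1]
    refine (germ_eq_zero (germ_EV cx h6 P).2).2 ?_
    filter_upwards [hU] with u h3
    exact hPz _ h3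
  -- the third derivative
  have ht3e : germ u₀ (fun u => dx x (dx x (dx x T)) (φ u)) =
      3 / 2 * germ u₀ (fun u => dx x (dx x T) (φ u)) ^ 2 / germ u₀ (fun u => dx x T (φ u)) +
        germ u₀ (fun u => schw x T (φ u)) * germ u₀ (fun u => dx x T (φ u)) := by
    have e1 : germ u₀ (fun u => schw x T (φ u)) * germ u₀ (fun u => dx x T (φ u)) ^ 2 +
        algebraMap ℂ KK (3 / 2) * germ u₀ (fun u => dx x (dx x T) (φ u)) ^ 2 =
        germ u₀ (fun u => dx x T (φ u)) * germ u₀ (fun u => dx x (dx x (dx x T)) (φ u)) := by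
      have cs12 : AnalyticAt ℂ (fun u => schw x T (φ u) * dx x T (φ u) ^ 2) u₀ := cs.mul c12
      have c322 : AnalyticAt ℂ (fun u => 3 / 2 * dx x (dx x T) (φ u) ^ 2) u₀ :=
        analyticAt_const.mul c22
      rw [← GE7_pow c1, ← GE7_pow c2, ← germ_const u₀, ← germ_mul cs c12,
        ← germ_mul analyticAt_const c22, ← germ_mul c1 c3, ← germ_add cs12 c322]
      refine germ_congr ?_
      filter_upwards [hne1] with u h3
      have h4 : schw x T (φ u) * dx x T (φ u) ^ 2 =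
          dx x T (φ u) * dx x (dx x (dx x T)) (φ u) - 3 / 2 * dx x (dx x T) (φ u) ^ 2 := by
        unfold schw
        rw [div_mul_cancel₀ _ (pow_ne_zero 2 h3)]
      show schw x T (φ u) * dx x T (φ u) ^ 2 + 3 / 2 * dx x (dx x T) (φ u) ^ 2 =
        dx x T (φ u) * dx x (dx x (dx x T)) (φ u)
      rw [h4]
      ring
    have e2 : algebraMap ℂ KK (3 / 2) = 3 / 2 := by
      rw [map_div₀, map_ofNat, map_ofNat]
    rw [e2] at e1
    have e3 : germ u₀ (fun u => dx x (dx x (dx x T)) (φ u)) =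
        (germ u₀ (fun u => schw x T (φ u)) * germ u₀ (fun u => dx x T (φ u)) ^ 2 +
          3 / 2 * germ u₀ (fun u => dx x (dx x T) (φ u)) ^ 2) /
          germ u₀ (fun u => dx x T (φ u)) := by
      rw [e1, mul_div_cancel_left₀ _ hg1]
    rw [e3, add_div, add_comm]
    congr 1
    rw [pow_two, ← mul_assoc, mul_div_cancel_right₀ _ hg1]
  refine ⟨{ x := germ u₀ (fun u => x (φ u))
            t0 := germ u₀ (fun u => T (φ u))
            t1 := germ u₀ (fun u => dx x T (φ u))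
            t2 := germ u₀ (fun u => dx x (dx x T) (φ u))
            rho := germ u₀ (fun u => schw x T (φ u))
            rho1 := dK (germ u₀ (fun u => schw x T (φ u))) / dK (germ u₀ (fun u => x (φ u)))
            g := germ u₀ (fun u => dx x (W (Fin.last k)) (φ u))
            m1 := dK (germ u₀ (fun u => dx x (W (Fin.last k)) (φ u)) ^ 2 *
              germ u₀ (fun u => dx x T (φ u)) ^ k) / dK (germ u₀ (fun u => x (φ u)))
            V := fun j => germ u₀ (fun u => W j (φ u))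
            ht1 := hg1
            hg := hgg
            hrho := hrho
            hm := hm
            indep := hind0 }, rfl, rfl, rfl, fun _ => rfl, ?_, hdx⟩
  constructor
  · show dK (germ u₀ (fun u => T (φ u))) = dK (germ u₀ (fun u => x (φ u))) *
      germ u₀ (fun u => dx x T (φ u)) + _
    rw [GE7_A hφ hx hT hxd]
    simp
  · show dK (germ u₀ (fun u => dx x T (φ u))) = dK (germ u₀ (fun u => x (φ u))) *
      germ u₀ (fun u => dx x (dx x T) (φ u)) + _
    rw [GE7_A hφ hx ht1 hxd]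
    simp
  · show dK (germ u₀ (fun u => dx x (dx x T) (φ u))) = dK (germ u₀ (fun u => x (φ u))) *
      (3 / 2 * germ u₀ (fun u => dx x (dx x T) (φ u)) ^ 2 / germ u₀ (fun u => dx x T (φ u)) +
        germ u₀ (fun u => schw x T (φ u)) * germ u₀ (fun u => dx x T (φ u))) + _ + _
    rw [GE7_A hφ hx ht2 hxd, ← ht3e]
    simp
  · intro j
    have e0 : slm k (0 : Fin 3 → KK) = 0 := by
      refine Matrix.ext fun i j => ?_
      unfold slm
      simp
    show dK (germ u₀ (fun u => W j (φ u))) = dK (germ u₀ (fun u => x (φ u))) *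
      (germ u₀ (fun u => dx x (W (Fin.last k)) (φ u)) *
        frm k (germ u₀ (fun u => T (φ u))) (germ u₀ (fun u => T (φ u))) k j) +
        (slm k (0 : Fin 3 → KK) *ᵥ _) j + (0 : Fin (k + 1) → KK) j
    rw [e0, Matrix.zero_mulVec]
    simp only [Pi.zero_apply, add_zero]
    rw [GE7_A hφ hx (GE7_W H hu j) hxd]
    congr 1
    rw [← (GE7_frm k cT j).1, ← germ_mul cg (GE7_frm k cT j).2]
    refine germ_congr ?_
    filter_upwards [hU] with u h3
    obtain ⟨c, hc⟩ := H.trans _ h3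
    show dx x (W j) (φ u) = dx x (W (Fin.last k)) (φ u) * frm k (T (φ u)) (T (φ u)) k j
    unfold dx
    rw [hc j, hc (Fin.last k), GE7_last, mul_one]
    ring

/-- The functions `(T², -2T, 1) / T_x` and their derivatives with respect to `x`. -/
noncomputable def GE8_B (x T : ℂ → ℂ) : ℕ → Fin 3 → ℂ → ℂ
  | 0 => ![fun w => T w ^ 2 / dx x T w, fun w => -(2 * T w) / dx x T w, fun w => 1 / dx x T w]
  | n + 1 => fun i => dx x (GE8_B x T n i)

/-- The values of `x`, `x'` and of the mixed invariants. -/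
noncomputable def GE8_F (x x' : ℂ → ℂ) (A : ℂ → Fin 3 → ℂ) (B : ℕ → Fin 3 → ℂ → ℂ) (z w : ℂ) :
    ℕ → ℂ
  | 0 => x z
  | 1 => x' w
  | n + 2 => prr (A z) (fun i => B n i w)

/-- The derivation `d/dx'` on the polynomial ring. -/
noncomputable def GE8_D : Derivation ℂ (MvPolynomial ℕ ℂ) (MvPolynomial ℕ ℂ) :=
  MvPolynomial.mkDerivation ℂ (fun i : ℕ => match i with
    | 0 => 0
    | 1 => 1
    | n + 2 => MvPolynomial.X (n + 3))

theorem GE8_germ_sub {z₀ : ℂ} {f g : ℂ → ℂ} (hf : AnalyticAt ℂ f z₀) (hg : AnalyticAt ℂ g z₀) :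
    germ z₀ (fun z => f z - g z) = germ z₀ f - germ z₀ g := by
  have h := germ_add (f := fun z => f z - g z) (g := g) (hf.sub hg) hg
  rw [← sub_eq_iff_eq_add.mpr h]
  simp only [sub_add_cancel]

theorem GE8_dxdiff {U : Set ℂ} (hU : IsOpen U) {x T : ℂ → ℂ} (hx : DifferentiableOn ℂ x U)
    (hT : DifferentiableOn ℂ T U) (h : ∀ u ∈ U, deriv x u ≠ 0) : DifferentiableOn ℂ (dx x T) U :=
  (hT.deriv hU).div (hx.deriv hU) h

theorem GE8_Bdiff {U : Set ℂ} (hU : IsOpen U) {x T : ℂ → ℂ} (hx : DifferentiableOn ℂ x U)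
    (hT : DifferentiableOn ℂ T U) (h : ∀ u ∈ U, deriv x u ≠ 0) (h' : ∀ u ∈ U, deriv T u ≠ 0) (n : ℕ)
    (i : Fin 3) : DifferentiableOn ℂ (GE8_B x T n i) U := by
  induction n with
  | zero =>
    have hd := GE8_dxdiff hU hx hT h
    have hn : ∀ u ∈ U, dx x T u ≠ 0 := fun u hu => div_ne_zero (h' u hu) (h u hu)
    fin_cases i
    · exact (hT.pow 2).div hd hn
    · exact ((hT.const_mul 2).neg).div hd hn
    · exact (differentiableOn_const 1).div hd hn
  | succ n ih => exact GE8_dxdiff hU hx ih h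

theorem GE8_prr_map {R S : Type*} [CommRing R] [CommRing S] (g : R →+* S)
    (N : Matrix (Fin 3) (Fin 3) R) (b c : Fin 3 → R) :
    g (prr (N *ᵥ b) c) = prr (N.map g *ᵥ (fun i => g (b i))) (fun i => g (c i)) := by
  have h2 : g 2 = 2 := map_ofNat g 2
  simp [prr, mulVec, dotProduct, Fin.sum_univ_three, h2]

/-- The jets of the right side as germs. -/
theorem GE8_jet {k : ℕ} {U : Set ℂ} (hU : IsOpen U) {x T : ℂ → ℂ} (hx : DifferentiableOn ℂ x U)
    (hT : DifferentiableOn ℂ T U) (h : ∀ u ∈ U, deriv x u ≠ 0) (h' : ∀ u ∈ U, deriv T u ≠ 0)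
    {φ : ℂ → ℂ} {u₀ : ℂ} (hφ : AnalyticAt ℂ φ u₀) (hu : φ u₀ ∈ U) (hd : deriv φ u₀ ≠ 0)
    {R : Side k KK} (hRx : R.x = germ u₀ (fun u => x (φ u)))
    (hR0 : R.t0 = germ u₀ (fun u => T (φ u))) (hR1 : R.t1 = germ u₀ (fun u => dx x T (φ u)))
    (n : ℕ) (i : Fin 3) : R.jet dK n i = germ u₀ (fun u => GE8_B x T n i (φ u)) := by
  have hUn : U ∈ 𝓝 (φ u₀) := hU.mem_nhds hu
  have aT : AnalyticAt ℂ (fun u => T (φ u)) u₀ := (hT.analyticAt hUn).comp hφ
  have ax : AnalyticAt ℂ (fun u => x (φ u)) u₀ := (hx.analyticAt hUn).comp hφ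
  have a1 : AnalyticAt ℂ (fun u => dx x T (φ u)) u₀ :=
    ((GE8_dxdiff hU hx hT h).analyticAt hUn).comp hφ
  have n1 : (fun u => dx x T (φ u)) u₀ ≠ 0 := div_ne_zero (h' _ hu) (h _ hu)
  induction n generalizing i with
  | zero =>
    change R.nil i = _
    fin_cases i
    · change R.t0 ^ 2 / R.t1 = germ u₀ (fun u => T (φ u) ^ 2 / dx x T (φ u))
      rw [germ_div (f := fun u => T (φ u) ^ 2) (g := fun u => dx x T (φ u)) (aT.pow 2) a1 n1, hR0,
        hR1, pow_two]
      simp only [pow_two]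
      rw [germ_mul aT aT]
    · change -(2 * R.t0) / R.t1 = germ u₀ (fun u => -(2 * T (φ u)) / dx x T (φ u))
      have e : germ u₀ (fun u => -(2 * T (φ u))) = -(2 * R.t0) := by
        have e1 : germ u₀ (fun u => (-2 : ℂ) * T (φ u)) = germ u₀ (fun _ => (-2 : ℂ)) *
          germ u₀ (fun u => T (φ u)) := germ_mul (f := fun _ => (-2 : ℂ)) analyticAt_const aT
        rw [germ_const] at e1
        have e2 : (fun u => -(2 * T (φ u))) = fun u => (-2 : ℂ) * T (φ u) := by
          funext u; ring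
        rw [e2, e1, hR0]
        have e3 : algebraMap ℂ KK 2 = 2 := map_ofNat _ 2
        simp [e3]
      rw [germ_div (f := fun u => -(2 * T (φ u))) (g := fun u => dx x T (φ u))
        ((analyticAt_const.mul aT).neg) a1 n1, e, hR1]
    · change 1 / R.t1 = germ u₀ (fun u => 1 / dx x T (φ u))
      rw [germ_div (f := fun _ => 1) (g := fun u => dx x T (φ u)) analyticAt_const a1 n1,
        germ_const, hR1, map_one]
  | succ n ih =>
    change dK (R.jet dK n i) / dK R.x = germ u₀ (fun u => dx x (GE8_B x T n i) (φ u))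
    have hB := GE8_Bdiff hU hx hT h h' n i
    have key : ∀ f : ℂ → ℂ, DifferentiableOn ℂ f U →
        ∀ᶠ u in 𝓝 u₀, deriv (fun u => f (φ u)) u = deriv f (φ u) * deriv φ u := by
      intro f hf
      filter_upwards [hφ.eventually_analyticAt, hφ.continuousAt.preimage_mem_nhds hUn] with u h1 h2
      exact ((hf.differentiableAt (hU.mem_nhds h2)).hasDerivAt.comp u
        h1.differentiableAt.hasDerivAt).deriv
    have ad : ∀ f : ℂ → ℂ, DifferentiableOn ℂ f U → AnalyticAt ℂ (fun u => deriv f (φ u)) u₀ :=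
      fun f hf => ((hf.deriv hU).analyticAt hUn).comp hφ
    rw [ih, hRx, dK_germ, dK_germ, germ_congr (key _ hB), germ_congr (key _ hx),
      germ_mul (f := fun u => deriv (GE8_B x T n i) (φ u)) (g := deriv φ) (ad _ hB) hφ.deriv,
      germ_mul (f := fun u => deriv x (φ u)) (g := deriv φ) (ad _ hx) hφ.deriv,
      mul_div_mul_right]
    · have := germ_div (f := fun u => deriv (GE8_B x T n i) (φ u)) (g := fun u => deriv x (φ u))
        (ad _ hB) (ad _ hx) (h _ hu)
      exact this.symm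
    · intro h0
      exact hd ((germ_eq_zero hφ.deriv).mp h0).self_of_nhds

theorem GE8_aeval {v : ℕ → KK} {D : Derivation ℂ KK KK} (h0 : D (v 0) = 0) (h1 : D (v 1) = 1)
    (h2 : ∀ n, D (v (n + 2)) = v (n + 3)) (Q : MvPolynomial ℕ ℂ) :
    D (MvPolynomial.aeval v Q) = MvPolynomial.aeval v (GE8_D Q) := by
  induction Q using MvPolynomial.induction_on with
  | C a => simp
  | add p q hp hq => simp [hp, hq]
  | mul_X p i hp =>
    rw [map_mul, Derivation.leibniz, Derivation.leibniz, MvPolynomial.aeval_X, hp, map_add]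
    simp only [smul_eq_mul, map_mul, MvPolynomial.aeval_X]
    congr 2
    simp only [GE8_D, MvPolynomial.mkDerivation_X]
    rcases i with _ | _ | n
    · simpa using h0
    · simpa using h1
    · simpa using h2 n

theorem GE8_hasDeriv {U : Set ℂ} (hU : IsOpen U) {x T : ℂ → ℂ} (hx : DifferentiableOn ℂ x U)
    (hT : DifferentiableOn ℂ T U) (h : ∀ u ∈ U, deriv x u ≠ 0) (h' : ∀ u ∈ U, deriv T u ≠ 0)
    (y : ℂ → ℂ) (A : ℂ → Fin 3 → ℂ) (z : ℂ) {w : ℂ} (hw : w ∈ U) (Q : MvPolynomial ℕ ℂ) :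
    HasDerivAt (fun w => MvPolynomial.eval (GE8_F y x A (GE8_B x T) z w) Q)
      (deriv x w * MvPolynomial.eval (GE8_F y x A (GE8_B x T) z w) (GE8_D Q)) w := by
  induction Q using MvPolynomial.induction_on with
  | C a => simpa using hasDerivAt_const w a
  | add p q hp hq =>
    simp only [map_add]
    exact (hp.add hq).congr_deriv (by ring)
  | mul_X p i hp =>
    have hi : HasDerivAt (fun w => GE8_F y x A (GE8_B x T) z w i)
        (deriv x w * MvPolynomial.eval (GE8_F y x A (GE8_B x T) z w)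
          (GE8_D (MvPolynomial.X i))) w := by
      rcases i with _ | _ | n
      · simpa [GE8_D, GE8_F] using hasDerivAt_const w (y z)
      · simpa [GE8_D, GE8_F] using (hx.differentiableAt (hU.mem_nhds hw)).hasDerivAt
      · have hB : ∀ j, HasDerivAt (GE8_B x T n j) (deriv x w * GE8_B x T (n + 1) j w) w := by
          intro j
          have h3 := ((GE8_Bdiff hU hx hT h h' n j).differentiableAt (hU.mem_nhds hw)).hasDerivAt
          have h4 : deriv x w * GE8_B x T (n + 1) j w = deriv (GE8_B x T n j) w := by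
            change deriv x w * (deriv (GE8_B x T n j) w / deriv x w) = _
            rw [mul_div_cancel₀ _ (h w hw)]
          rw [h4]; exact h3
        simp only [GE8_D, MvPolynomial.mkDerivation_X, MvPolynomial.eval_X]
        have h5 := (((hB 1).const_mul (A z 1)).sub ((((hB 2).const_mul (A z 0)).add
          ((hB 0).const_mul (A z 2))).const_mul 2))
        simp only [GE8_F, prr]
        exact h5.congr_deriv (by ring)
    simp only [map_mul, MvPolynomial.eval_X, Derivation.leibniz, smul_eq_mul, map_add]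
    exact (hp.mul hi).congr_deriv (by ring)

theorem GE8_flat {f : ℕ → ℂ → ℂ} {s : ℂ → ℂ} {w₀ : ℂ} (hf : ∀ j, AnalyticAt ℂ (f j) w₀)
    (hs : AnalyticAt ℂ s w₀) (hd : ∀ j, deriv (f j) =ᶠ[𝓝 w₀] fun w => s w * f (j + 1) w)
    (h0 : ∀ j, f j w₀ = 0) : ∀ᶠ w in 𝓝 w₀, f 0 w = 0 := by
  have key : ∀ n : ℕ, ∀ j, (n : ℕ∞) ≤ analyticOrderAt (f j) w₀ := by
    intro n
    induction n with
    | zero => intro j; simp
    | succ n ih =>
      intro j
      have h1 := (hf j).analyticOrderAt_deriv_add_one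
      simp only [h0 j, sub_zero] at h1
      rw [← h1, analyticOrderAt_congr (hd j)]
      have h2 : analyticOrderAt (fun w => s w * f (j + 1) w) w₀ = analyticOrderAt s w₀ +
        analyticOrderAt (f (j + 1)) w₀ := analyticOrderAt_mul hs (hf (j + 1))
      rw [h2]
      push_cast
      gcongr
      exact (ih (j + 1)).trans le_add_self
  rw [← analyticOrderAt_eq_top]
  exact ENat.eq_top_iff_forall_ge.mpr fun m => key m 0

/-- Homogenisation. -/
theorem GE8_hom {ι : Type*} (i0 i1 i2 : ι) (c a b g : ℂ) (P : MvPolynomial (Fin 3) ℂ) :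
    ∃ (d : ℕ) (Q : MvPolynomial ι ℂ), ∀ p : ι → ℂ, p i2 ≠ 0 → MvPolynomial.eval p Q =
      p i2 ^ d * MvPolynomial.eval ![p i0, c, (a * p i1 ^ 2 + b * p i1 + g) / p i2] P := by
  induction P using MvPolynomial.induction_on with
  | C e => exact ⟨0, MvPolynomial.C e, fun p _ => by simp⟩
  | add P P' hP hP' =>
    obtain ⟨d, Q, hQ⟩ := hP
    obtain ⟨d', Q', hQ'⟩ := hP'
    refine ⟨d + d', MvPolynomial.X i2 ^ d' * Q + MvPolynomial.X i2 ^ d * Q', fun p hp => ?_⟩
    simp only [map_add, map_mul, map_pow, MvPolynomial.eval_X]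
    rw [hQ p hp, hQ' p hp]
    ring
  | mul_X P i hP =>
    obtain ⟨d, Q, hQ⟩ := hP
    fin_cases i
    · refine ⟨d, Q * MvPolynomial.X i0, fun p hp => ?_⟩
      simp only [map_mul, MvPolynomial.eval_X]
      rw [hQ p hp]
      simp [mul_assoc]
    · refine ⟨d, Q * MvPolynomial.C c, fun p hp => ?_⟩
      simp only [map_mul, MvPolynomial.eval_C, MvPolynomial.eval_X]
      rw [hQ p hp]
      simp [mul_assoc]
    · refine ⟨d + 1, Q * (MvPolynomial.C a * MvPolynomial.X i1 ^ 2 +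
        MvPolynomial.C b * MvPolynomial.X i1 + MvPolynomial.C g), fun p hp => ?_⟩
      simp only [map_mul, map_add, map_pow, MvPolynomial.eval_C, MvPolynomial.eval_X]
      rw [hQ p hp]
      simp only [Fin.reduceFinMk, Matrix.cons_val]
      field_simp
      ring

theorem GE8_inf {x : ℂ → ℂ} {U : Set ℂ} {w₀ : ℂ} (hU : U ∈ 𝓝 w₀) (hx : AnalyticAt ℂ x w₀)
    (h : deriv x w₀ ≠ 0) : (x '' U).Infinite := by
  have hs : HasStrictDerivAt x (deriv x w₀) w₀ := hx.hasStrictDerivAt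
  have h1 : Filter.map x (𝓝 w₀) = 𝓝 (x w₀) := by
    have h2 := (hs.hasStrictFDerivAt_equiv h).map_nhds_eq_of_equiv
    exact h2
  have h2 : x '' U ∈ 𝓝 (x w₀) := by
    rw [← h1]
    exact Filter.image_mem_map hU
  exact infinite_of_mem_nhds _ h2

/-- The Taylor argument: mixed invariants which are algebraic and on which `d/dy` acts contradict
the independence. -/
theorem Gen.taylor {k : ℕ} {U U' : Set ℂ} {x T x' T' : ℂ → ℂ} {W W' : Fin (k + 1) → ℂ → ℂ}
    (H : Gen k U x T W) (H' : Gen k U' x' T' W') {φ : ℂ → ℂ} {u₀ : ℂ} (hφ : AnalyticAt ℂ φ u₀)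
    (hu : u₀ ∈ U) (hu' : φ u₀ ∈ U') (hd : deriv φ u₀ ≠ 0) (h1 : deriv T u₀ ≠ 0)
    (h1' : deriv T' (φ u₀) ≠ 0) {L R : Side k KK}
    (hLx : L.x = germ u₀ x) (hL0 : L.t0 = germ u₀ T) (hL1 : L.t1 = germ u₀ (dx x T))
    (hRx : R.x = germ u₀ (fun u => x' (φ u))) (hR0 : R.t0 = germ u₀ (fun u => T' (φ u)))
    (hR1 : R.t1 = germ u₀ (fun u => dx x' T' (φ u)))
    {M : Matrix (Fin 3) (Fin 3) ℂ} (hM : IsUnit M.det)
    {D : Derivation ℂ KK KK} (hDx : D L.x = 0) (hDy : D R.x = 1)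
    (hD : ∀ n, D (prr (M.map (algebraMap ℂ KK) *ᵥ L.nil) (R.jet dK n)) =
        prr (M.map (algebraMap ℂ KK) *ᵥ L.nil) (R.jet dK (n + 1)))
    (hdep : ¬ AlgebraicIndependent ℂ
      ![L.x, R.x, prr (M.map (algebraMap ℂ KK) *ᵥ L.nil) (R.jet dK 0)]) : False := by
  classical
  set Ω : Set ℂ := U ∩ deriv T ⁻¹' {0}ᶜ with hΩd
  set Ω' : Set ℂ := U' ∩ deriv T' ⁻¹' {0}ᶜ with hΩd'
  have hΩ : IsOpen Ω :=
    (H.T_diff.deriv H.isOpen).continuousOn.isOpen_inter_preimage H.isOpen isOpen_compl_singleton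
  have hΩ' : IsOpen Ω' :=
    (H'.T_diff.deriv H'.isOpen).continuousOn.isOpen_inter_preimage H'.isOpen isOpen_compl_singleton
  have mΩ : u₀ ∈ Ω := ⟨hu, h1⟩
  have mΩ' : φ u₀ ∈ Ω' := ⟨hu', h1'⟩
  have dx1 : DifferentiableOn ℂ x Ω := H.x_diff.mono Set.inter_subset_left
  have dT1 : DifferentiableOn ℂ T Ω := H.T_diff.mono Set.inter_subset_left
  have dx2 : DifferentiableOn ℂ x' Ω' := H'.x_diff.mono Set.inter_subset_left
  have dT2 : DifferentiableOn ℂ T' Ω' := H'.T_diff.mono Set.inter_subset_left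
  have nx1 : ∀ u ∈ Ω, deriv x u ≠ 0 := fun u h => H.x_deriv u h.1
  have nx2 : ∀ u ∈ Ω', deriv x' u ≠ 0 := fun u h => H'.x_deriv u h.1
  have nT1 : ∀ u ∈ Ω, deriv T u ≠ 0 := fun u h => h.2
  have nT2 : ∀ u ∈ Ω', deriv T' u ≠ 0 := fun u h => h.2
  have bd1 := GE8_Bdiff hΩ dx1 dT1 nx1 nT1
  have bd2 := GE8_Bdiff hΩ' dx2 dT2 nx2 nT2
  let A : ℂ → Fin 3 → ℂ := fun z => M *ᵥ (fun i => GE8_B x T 0 i z)
  let F : ℂ → ℂ → ℕ → ℂ := GE8_F x x' A (GE8_B x' T')
  have Fan : ∀ z ∈ Ω, AnalyticAt ℂ φ z → φ z ∈ Ω' → ∀ i, AnalyticAt ℂ (fun u => F u (φ u) i) z := by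
    intro z hz hφz hz' i
    rcases i with _ | _ | n
    · exact dx1.analyticAt (hΩ.mem_nhds hz)
    · exact (dx2.analyticAt (hΩ'.mem_nhds hz')).comp hφz
    · have hA : ∀ j, AnalyticAt ℂ (fun u => A u j) z := by
        intro j
        simp only [A, Matrix.mulVec, dotProduct]
        exact Finset.analyticAt_fun_sum _
          (fun i _ => analyticAt_const.mul ((bd1 0 i).analyticAt (hΩ.mem_nhds hz)))
      have hB : ∀ j, AnalyticAt ℂ (fun u => GE8_B x' T' n j (φ u)) z := fun j =>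
        ((bd2 n j).analyticAt (hΩ'.mem_nhds hz')).comp hφz
      change AnalyticAt ℂ (fun u => prr (A u) (fun i => GE8_B x' T' n i (φ u))) z
      simp only [prr]
      exact ((hA 1).mul (hB 1)).sub (analyticAt_const.mul (((hA 0).mul (hB 2)).add
        ((hA 2).mul (hB 0))))
  let v : ℕ → KK := fun i => match i with
    | 0 => L.x
    | 1 => R.x
    | n + 2 => prr (M.map (algebraMap ℂ KK) *ᵥ L.nil) (R.jet dK n)
  have jL : ∀ i, L.nil i = germ u₀ (fun u => GE8_B x T 0 i u) := fun i =>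
    GE8_jet hΩ dx1 dT1 nx1 nT1 (φ := fun u => u) analyticAt_id mΩ (by simp) hLx hL0 hL1 0 i
  have jR : ∀ n i, R.jet dK n i = germ u₀ (fun u => GE8_B x' T' n i (φ u)) := fun n i =>
    GE8_jet hΩ' dx2 dT2 nx2 nT2 hφ mΩ' hd hRx hR0 hR1 n i
  have hv : ∀ i, v i = germ u₀ (fun u => F u (φ u) i) := by
    intro i
    rcases i with _ | _ | n
    · exact hLx
    · exact hRx
    · change prr (M.map (algebraMap ℂ KK) *ᵥ L.nil) (R.jet dK n) =
        germ u₀ (fun u => prr (A u) (fun i => GE8_B x' T' n i (φ u)))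
      let f : Fin 3 ⊕ Fin 3 → ℂ → ℂ := Sum.elim (fun i u => GE8_B x T 0 i u)
        (fun i u => GE8_B x' T' n i (φ u))
      have hf : ∀ i, AnalyticAt ℂ (f i) u₀ := by
        rintro (i | i)
        · exact (bd1 0 i).analyticAt (hΩ.mem_nhds mΩ)
        · exact ((bd2 n i).analyticAt (hΩ'.mem_nhds mΩ')).comp hφ
      have hg := (germ_mvPolynomial hf (prr ((M.map MvPolynomial.C) *ᵥ
        fun i => MvPolynomial.X (Sum.inl i)) fun i => MvPolynomial.X (Sum.inr i))).1
      have e1 := GE8_prr_map (MvPolynomial.aeval (fun i => germ u₀ (f i)) :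
        MvPolynomial (Fin 3 ⊕ Fin 3) ℂ →ₐ[ℂ] KK).toRingHom (M.map MvPolynomial.C)
        (fun i => MvPolynomial.X (Sum.inl i)) (fun i => MvPolynomial.X (Sum.inr i))
      have e2 : ∀ z, MvPolynomial.eval (fun i => f i z) (prr ((M.map MvPolynomial.C) *ᵥ
          fun i => MvPolynomial.X (Sum.inl i)) fun i => MvPolynomial.X (Sum.inr i)) =
          prr (A z) (fun i => GE8_B x' T' n i (φ z)) := by
        intro z
        have := GE8_prr_map (MvPolynomial.eval (fun i => f i z)) (M.map MvPolynomial.C)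
          (fun i => MvPolynomial.X (Sum.inl i)) (fun i => MvPolynomial.X (Sum.inr i))
        rw [this]
        simp only [MvPolynomial.eval_X, Matrix.map_map]
        congr 2
        ext i j
        simp
      simp only [e2] at hg
      rw [← hg]
      refine Eq.trans ?_ e1.symm
      congr 2
      · ext i j
        simp
      · funext i
        simp [jL, f]
      · funext i
        simp [jR, f]
  have hEV : ∀ Q : MvPolynomial ℕ ℂ, MvPolynomial.aeval v Q =
      germ u₀ (fun u => MvPolynomial.eval (F u (φ u)) Q) ∧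
      AnalyticAt ℂ (fun u => MvPolynomial.eval (F u (φ u)) Q) u₀ := by
    intro Q
    have h := germ_mvPolynomial (f := fun i u => F u (φ u) i) (Fan u₀ mΩ hφ mΩ') Q
    rw [show v = fun i => germ u₀ (fun u => F u (φ u) i) from funext hv]
    exact h
  rw [algebraicIndependent_iff] at hdep
  push Not at hdep
  obtain ⟨P, hP, hP0⟩ := hdep
  set P1 : MvPolynomial ℕ ℂ := MvPolynomial.rename (fun i : Fin 3 => (i : ℕ)) P with hP1
  have hflat : ∀ j, MvPolynomial.aeval v (GE8_D^[j] P1) = 0 := by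
    intro j
    induction j with
    | zero =>
      rw [Function.iterate_zero, id, hP1, MvPolynomial.aeval_rename]
      rw [← hP]
      congr 2
      funext i
      fin_cases i <;> rfl
    | succ j ih =>
      rw [Function.iterate_succ_apply', ← GE8_aeval hDx hDy hD, ih, map_zero]
  obtain ⟨ε', hε', hball'⟩ := Metric.mem_nhds_iff.mp (hΩ'.mem_nhds mΩ')
  have hev0 : ∀ᶠ z in 𝓝 u₀, z ∈ Ω := hΩ.mem_nhds mΩ
  have hev : ∀ᶠ z in 𝓝 u₀, z ∈ Ω ∧ AnalyticAt ℂ φ z ∧ φ z ∈ Metric.ball (φ u₀) ε' :=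
    hev0.and (hφ.eventually_analyticAt.and
      (hφ.continuousAt.preimage_mem_nhds (Metric.ball_mem_nhds _ hε')))
  obtain ⟨ε, hε, hball⟩ := Metric.eventually_nhds_iff_ball.mp hev
  have step3 : ∀ z ∈ Metric.ball u₀ ε, ∀ j, MvPolynomial.eval (F z (φ z)) (GE8_D^[j] P1) = 0 := by
    intro z hz j
    have han : AnalyticOnNhd ℂ (fun z => MvPolynomial.eval (F z (φ z)) (GE8_D^[j] P1))
        (Metric.ball u₀ ε) := by
      intro y hy
      obtain ⟨ha, hb, hc⟩ := hball y hy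
      exact (germ_mvPolynomial (f := fun i u => F u (φ u) i) (Fan y ha hb (hball' hc)) _).2
    have h0 : ∀ᶠ z in 𝓝 u₀, MvPolynomial.eval (F z (φ z)) (GE8_D^[j] P1) = 0 := by
      rw [← germ_eq_zero (hEV _).2, ← (hEV _).1]
      exact hflat j
    exact han.eqOn_zero_of_preconnected_of_eventuallyEq_zero
      (convex_ball _ _).isPreconnected (Metric.mem_ball_self hε) h0 hz
  have hder : ∀ z, ∀ w ∈ Ω', ∀ Q : MvPolynomial ℕ ℂ,
      HasDerivAt (fun w => MvPolynomial.eval (F z w) Q)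
        (deriv x' w * MvPolynomial.eval (F z w) (GE8_D Q)) w := fun z w hw Q =>
    GE8_hasDeriv hΩ' dx2 dT2 nx2 nT2 x A z hw Q
  have han2 : ∀ z, ∀ Q : MvPolynomial ℕ ℂ, AnalyticOnNhd ℂ (fun w => MvPolynomial.eval (F z w) Q) Ω' :=
    fun z Q w hw => DifferentiableOn.analyticAt
      (fun y hy => (hder z y hy Q).differentiableAt.differentiableWithinAt) (hΩ'.mem_nhds hw)
  have step4 : ∀ z ∈ Metric.ball u₀ ε, ∀ w ∈ Metric.ball (φ u₀) ε',
      MvPolynomial.eval (F z w) P1 = 0 := by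
    intro z hz w hw
    obtain ⟨ha, hb, hc⟩ := hball z hz
    have h0 := GE8_flat (f := fun j w => MvPolynomial.eval (F z w) (GE8_D^[j] P1)) (s := deriv x')
      (w₀ := φ z) (fun j => han2 z _ _ (hball' hc)) ((dx2.analyticAt (hΩ'.mem_nhds (hball' hc))).deriv)
      (fun j => by
        filter_upwards [hΩ'.mem_nhds (hball' hc)] with y hy
        rw [(hder z y hy _).deriv, Function.iterate_succ_apply']) (step3 z hz)
    exact ((han2 z P1).mono hball').eqOn_zero_of_preconnected_of_eventuallyEq_zero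
      (convex_ball _ _).isPreconnected hc h0 hw
  have hjan : ∀ u ∈ U, ∀ i, AnalyticAt ℂ (fun u => jetpt x T W u i) u := by
    intro u hu i
    have hn := H.isOpen.mem_nhds hu
    have d1 := GE8_dxdiff H.isOpen H.x_diff H.T_diff H.x_deriv
    have d2 := GE8_dxdiff H.isOpen H.x_diff d1 H.x_deriv
    rcases i with i | i
    · fin_cases i
      · exact H.x_diff.analyticAt hn
      · exact H.T_diff.analyticAt hn
      · exact d1.analyticAt hn
      · exact d2.analyticAt hn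
    · exact (H.W_diff i).analyticAt hn
  have step6 : ∀ w ∈ Metric.ball (φ u₀) ε', ∀ X0 c : ℂ, c ≠ 0 →
      MvPolynomial.eval ![X0, x' w, c] P = 0 := by
    intro w hw X0 c hc
    have hwΩ := hball' hw
    set ν : Fin 3 → ℂ := fun i => GE8_B x' T' 0 i w with hν
    have hν2 : ν 2 ≠ 0 := by
      change 1 / dx x' T' w ≠ 0
      exact one_div_ne_zero (div_ne_zero (nT2 w hwΩ) (nx2 w hwΩ))
    set a := prr (M *ᵥ ![1, 0, 0]) ν with ha
    set b := prr (M *ᵥ ![0, -2, 0]) ν with hb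
    set g := prr (M *ᵥ ![0, 0, 1]) ν with hg
    have hT0 : ∃ T0 : ℂ, a * T0 ^ 2 + b * T0 + g ≠ 0 := by
      by_contra hcon
      push Not at hcon
      have c0 : g = 0 := by simpa using hcon 0
      have c1 := hcon 1
      have c2 := hcon (-1)
      have ca : a = 0 := by linear_combination (c1 + c2) / 2 - c0
      have cb : b = 0 := by linear_combination (c1 - c2) / 2
      have hlin : ∀ y : Fin 3 → ℂ, prr (M *ᵥ y) ν = y 0 * a - y 1 / 2 * b + y 2 * g := by
        intro y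
        rw [ha, hb, hg]
        simp only [prr, Matrix.mulVec, dotProduct, Fin.sum_univ_three, Matrix.cons_val_zero,
          Matrix.cons_val_one, Matrix.cons_val]
        ring
      have hall : ∀ y : Fin 3 → ℂ, prr y ν = 0 := by
        intro y
        have h3 := hlin (M⁻¹ *ᵥ y)
        rw [Matrix.mulVec_mulVec, Matrix.mul_nonsing_inv _ hM, Matrix.one_mulVec, ca, cb, c0] at h3
        rw [h3]; ring
      have h4 := hall ![1, 0, 0]
      simp only [prr, Matrix.cons_val_zero, Matrix.cons_val_one, Matrix.cons_val] at h4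
      apply hν2
      linear_combination -h4 / 2
    obtain ⟨T0, hT0⟩ := hT0
    obtain ⟨d, Q, hQ⟩ := GE8_hom (ι := Fin 4 ⊕ Fin (k + 1)) (Sum.inl 0) (Sum.inl 1) (Sum.inl 2)
      (x' w) a b g P
    have hQU : ∀ u ∈ U, MvPolynomial.eval (jetpt x T W u) Q = 0 := by
      have han : AnalyticOnNhd ℂ (fun u => MvPolynomial.eval (jetpt x T W u) Q) U := fun u hu =>
        (germ_mvPolynomial (f := fun i u => jetpt x T W u i) (hjan u hu) Q).2
      have h0 : ∀ᶠ u in 𝓝 u₀, MvPolynomial.eval (jetpt x T W u) Q = 0 := by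
        filter_upwards [Metric.ball_mem_nhds u₀ hε] with u hu
        obtain ⟨hb1, _, _⟩ := hball u hu
        have n1 : dx x T u ≠ 0 := div_ne_zero (nT1 u hb1) (nx1 u hb1)
        have hQ1 := hQ (jetpt x T W u) (show dx x T u ≠ 0 from n1)
        rw [hQ1]
        have h5 := step4 u hu w hw
        rw [hP1, MvPolynomial.eval_rename] at h5
        have h6 : (F u w ∘ fun i : Fin 3 => (i : ℕ)) =
            ![jetpt x T W u (Sum.inl 0), x' w, (a * jetpt x T W u (Sum.inl 1) ^ 2 +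
              b * jetpt x T W u (Sum.inl 1) + g) / jetpt x T W u (Sum.inl 2)] := by
          funext i
          fin_cases i
          · rfl
          · rfl
          · change prr (M *ᵥ (fun i => GE8_B x T 0 i u)) ν = (a * T u ^ 2 + b * T u + g) / dx x T u
            rw [ha, hb, hg]
            simp only [prr, Matrix.mulVec, dotProduct, Fin.sum_univ_three, Matrix.cons_val_zero,
              Matrix.cons_val_one, Matrix.cons_val, GE8_B]
            field_simp
            ring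
        rw [← h6, h5, mul_zero]
      exact fun u hu1 => han.eqOn_zero_of_preconnected_of_eventuallyEq_zero H.preconn hu h0 hu1
    have hQ0 := H.indep Q hQU
    have h7 := hQ (Sum.elim ![X0, T0, (a * T0 ^ 2 + b * T0 + g) / c, 0] fun _ => 0)
      (show (a * T0 ^ 2 + b * T0 + g) / c ≠ 0 from div_ne_zero hT0 hc)
    rw [hQ0, map_zero] at h7
    have h8 := (mul_eq_zero.mp h7.symm).resolve_left
      (pow_ne_zero d (show (a * T0 ^ 2 + b * T0 + g) / c ≠ 0 from div_ne_zero hT0 hc))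
    have h9 : (a * T0 ^ 2 + b * T0 + g) / ((a * T0 ^ 2 + b * T0 + g) / c) = c :=
      div_div_cancel₀ hT0
    have h10 : (![(Sum.elim ![X0, T0, (a * T0 ^ 2 + b * T0 + g) / c, 0] (fun _ => 0) :
        Fin 4 ⊕ Fin (k + 1) → ℂ) (Sum.inl 0), x' w, (a * (Sum.elim ![X0, T0,
        (a * T0 ^ 2 + b * T0 + g) / c, 0] (fun _ => 0) : Fin 4 ⊕ Fin (k + 1) → ℂ) (Sum.inl 1) ^ 2 +
        b * (Sum.elim ![X0, T0, (a * T0 ^ 2 + b * T0 + g) / c, 0] (fun _ => 0) :
        Fin 4 ⊕ Fin (k + 1) → ℂ) (Sum.inl 1) + g) / (Sum.elim ![X0, T0,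
        (a * T0 ^ 2 + b * T0 + g) / c, 0] (fun _ => 0) : Fin 4 ⊕ Fin (k + 1) → ℂ) (Sum.inl 2)] :
        Fin 3 → ℂ) = ![X0, x' w, c] := by
      funext i
      fin_cases i
      · rfl
      · rfl
      · exact h9
    rw [h10] at h8
    exact h8
  apply hP0
  refine MvPolynomial.funext_set ![Set.univ, x' '' Metric.ball (φ u₀) ε', {0}ᶜ] ?_ ?_
  · intro i
    fin_cases i
    · exact Set.infinite_univ
    · exact GE8_inf (Metric.ball_mem_nhds _ hε') (dx2.analyticAt (hΩ'.mem_nhds mΩ'))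
        (nx2 _ mΩ')
    · exact (Set.finite_singleton (0 : ℂ)).infinite_compl
  · intro p hp
    obtain ⟨w, hw, hw1⟩ := hp 1 (Set.mem_univ _)
    have hp2 : p 2 ≠ 0 := hp 2 (Set.mem_univ _)
    rw [map_zero]
    have h11 := step6 w hw (p 0) (p 2) hp2
    have h12 : ![p 0, x' w, p 2] = p := by
      funext i
      fin_cases i
      · rfl
      · exact hw1
      · rfl
    rwa [h12] at h11

theorem GE9_hom {R : Type*} [CommRing R] (a b s t : R) (k m : ℕ) (hm : m ≤ k) :
    ∑ l ∈ Finset.range (k + 1), ((C s - C t * X) ^ m * (1 - X) ^ (k - m) : R[X]).coeff l *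
      (a ^ l * b ^ (k - l)) = (s * b - t * a) ^ m * (b - a) ^ (k - m) := by
  have key : ∀ (n d : ℕ) (q : R[X]), q.natDegree ≤ n → ∀ u v : R,
      ∑ l ∈ Finset.range (n + 1 + 1), (q * (C u - C v * X)).coeff l * (a ^ l * b ^ (n + 1 - l)) =
      (u * b - v * a) * ∑ l ∈ Finset.range (n + 1), q.coeff l * (a ^ l * b ^ (n - l)) := by
    intro n d q hq u v
    have h0 : ∀ l, (q * (C u - C v * X)).coeff l =
        u * q.coeff l - v * (if l = 0 then 0 else q.coeff (l - 1)) := by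
      intro l
      rw [mul_sub, coeff_sub, ← mul_assoc, coeff_mul_C]
      rcases l with _ | l
      · simp [mul_comm]
      · rw [coeff_mul_X, coeff_mul_C]
        simp [mul_comm]
    simp_rw [h0]
    have h1 : ∀ l ∈ Finset.range (n + 1 + 1),
        (u * q.coeff l - v * (if l = 0 then 0 else q.coeff (l - 1))) * (a ^ l * b ^ (n + 1 - l)) =
        u * (q.coeff l * (a ^ l * b ^ (n + 1 - l))) -
          v * ((if l = 0 then 0 else q.coeff (l - 1)) * (a ^ l * b ^ (n + 1 - l))) := by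
      intro l _; ring
    rw [Finset.sum_congr rfl h1, Finset.sum_sub_distrib, ← Finset.mul_sum, ← Finset.mul_sum,
      Finset.sum_range_succ, coeff_eq_zero_of_natDegree_lt (by omega : q.natDegree < n + 1),
      Finset.sum_range_succ' (fun l => (if l = 0 then 0 else q.coeff (l - 1)) *
        (a ^ l * b ^ (n + 1 - l)))]
    have h2 : ∑ l ∈ Finset.range (n + 1), q.coeff l * (a ^ l * b ^ (n + 1 - l)) =
        b * ∑ l ∈ Finset.range (n + 1), q.coeff l * (a ^ l * b ^ (n - l)) := by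
      rw [Finset.mul_sum]
      refine Finset.sum_congr rfl fun l hl => ?_
      rw [Finset.mem_range] at hl
      rw [show n + 1 - l = n - l + 1 by omega]; ring
    have h3 : ∑ l ∈ Finset.range (n + 1), (if l + 1 = 0 then 0 else q.coeff (l + 1 - 1)) *
        (a ^ (l + 1) * b ^ (n + 1 - (l + 1))) =
        a * ∑ l ∈ Finset.range (n + 1), q.coeff l * (a ^ l * b ^ (n - l)) := by
      rw [Finset.mul_sum]
      refine Finset.sum_congr rfl fun l hl => ?_
      rw [if_neg (by omega), show n + 1 - (l + 1) = n - l by omega, Nat.add_sub_cancel]; ring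
    rw [h2, h3]
    simp only [if_true, zero_mul, add_zero]
    ring
  have d1 : ∀ (u v : R), (C u - C v * X : R[X]).natDegree ≤ 1 := by
    intro u v
    refine (natDegree_sub_le _ _).trans (max_le (by simp) ?_)
    exact (natDegree_C_mul_le v X).trans natDegree_X_le
  have d2 : ∀ (m : ℕ) (u v : R), ((C u - C v * X : R[X]) ^ m).natDegree ≤ m := by
    intro m u v
    refine (natDegree_pow_le).trans ?_
    calc m * (C u - C v * X : R[X]).natDegree ≤ m * 1 := Nat.mul_le_mul_left _ (d1 u v)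
      _ = m := mul_one m
  have step1 : ∀ m : ℕ, ∑ l ∈ Finset.range (m + 1), ((C s - C t * X) ^ m : R[X]).coeff l *
      (a ^ l * b ^ (m - l)) = (s * b - t * a) ^ m := by
    intro m
    induction m with
    | zero => simp
    | succ m ih => rw [pow_succ, key m 0 _ (d2 m s t) s t, ih, pow_succ]; ring
  have step2 : ∀ e : ℕ, ∑ l ∈ Finset.range (m + e + 1),
      ((C s - C t * X) ^ m * (1 - X) ^ e : R[X]).coeff l * (a ^ l * b ^ (m + e - l)) =
      (s * b - t * a) ^ m * (b - a) ^ e := by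
    intro e
    induction e with
    | zero => simpa using step1 m
    | succ e ih =>
      have hd : ((C s - C t * X) ^ m * (1 - X) ^ e : R[X]).natDegree ≤ m + e := by
        refine natDegree_mul_le.trans (Nat.add_le_add (d2 m s t) ?_)
        have := d2 e (1 : R) 1
        simpa using this
      have h := key (m + e) 0 _ hd 1 1
      rw [ih] at h
      rw [pow_succ (1 - X : R[X]) e, ← mul_assoc, ← add_assoc, pow_succ (b - a) e]
      simp only [map_one, one_mul] at h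
      rw [h]; ring
  have := step2 (k - m)
  rwa [Nat.add_sub_cancel' hm] at this

theorem GE9_gco (k : ℕ) (s t : ℂ) (p : Fin (k + 1) → ℂ) (j : Fin (k + 1)) :
    (s - t) ^ k * p j = ∑ l ∈ Finset.range (k + 1), gco k s t p l * frm k s t l j := by
  have h1 : ∀ m : Fin (k + 1), ∑ l ∈ Finset.range (k + 1),
      C (((C s - C t * X) ^ (m : ℕ) * (1 - X) ^ (k - (m : ℕ)) : ℂ[X]).coeff l) *
        ((X - C s) ^ l * (X - C t) ^ (k - l)) = C ((s - t) ^ k) * X ^ (m : ℕ) := by
    intro m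
    have h := GE9_hom (R := ℂ[X]) (X - C s) (X - C t) (C s) (C t) k m (by omega)
    have hc : ∀ l, ((C (C s) - C (C t) * X) ^ (m : ℕ) * (1 - X) ^ (k - (m : ℕ)) : ℂ[X][X]).coeff l =
        C (((C s - C t * X) ^ (m : ℕ) * (1 - X) ^ (k - (m : ℕ)) : ℂ[X]).coeff l) := by
      intro l
      rw [← coeff_map]
      congr 1
      simp
    simp_rw [hc] at h
    rw [h]
    have e1 : C s * (X - C t) - C t * (X - C s) = C (s - t) * (X : ℂ[X]) := by
      rw [C_sub]; ring
    have e2 : (X - C t) - (X - C s) = (C (s - t) : ℂ[X]) := by rw [C_sub]; ring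
    rw [e1, e2, mul_pow, mul_right_comm, ← pow_add, Nat.add_sub_cancel' (by omega : (m : ℕ) ≤ k),
      C_pow]
  have h2 : ∀ m : Fin (k + 1), ∑ l ∈ Finset.range (k + 1),
      (((C s - C t * X) ^ (m : ℕ) * (1 - X) ^ (k - (m : ℕ)) : ℂ[X]).coeff l) *
        frm k s t l j = (s - t) ^ k * (if m = j then 1 else 0) := by
    intro m
    have h := congrArg (fun q : ℂ[X] => q.coeff (j : ℕ)) (h1 m)
    simp only [finsetSum_coeff, coeff_C_mul, coeff_X_pow] at h
    simp only [frm]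
    rw [h]
    congr 1
    by_cases hmj : m = j
    · subst hmj; simp
    · rw [if_neg hmj, if_neg (fun h => hmj (Fin.ext h.symm))]
  simp only [gco, Finset.sum_mul]
  rw [Finset.sum_comm]
  simp only [mul_assoc]
  simp_rw [← Finset.mul_sum, h2]
  simp [mul_comm]

theorem GE9_frm_map {R S : Type*} [CommRing R] [CommRing S] (g : R →+* S) (k : ℕ) (s t : R) (i : ℕ)
    (j : Fin (k + 1)) : g (frm k s t i j) = frm k (g s) (g t) i j := by
  simp only [frm]
  rw [← coeff_map]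
  congr 1
  simp

theorem GE9_frm {z₀ : ℂ} {f g : ℂ → ℂ} (hf : AnalyticAt ℂ f z₀) (hg : AnalyticAt ℂ g z₀) (k i : ℕ)
    (j : Fin (k + 1)) : frm k (germ z₀ f) (germ z₀ g) i j = germ z₀ (fun z => frm k (f z) (g z) i j) ∧
      AnalyticAt ℂ (fun z => frm k (f z) (g z) i j) z₀ := by
  have h := germ_mvPolynomial (z₀ := z₀) (f := ![f, g]) (fun i => by fin_cases i <;> simpa)
    (frm k (MvPolynomial.X 0) (MvPolynomial.X 1) i j : MvPolynomial (Fin 2) ℂ)
  have e1 : MvPolynomial.aeval (fun i => germ z₀ (![f, g] i))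
      (frm k (MvPolynomial.X 0) (MvPolynomial.X 1) i j : MvPolynomial (Fin 2) ℂ) =
      frm k (germ z₀ f) (germ z₀ g) i j := by
    have := GE9_frm_map (MvPolynomial.aeval (fun i => germ z₀ (![f, g] i)) :
      MvPolynomial (Fin 2) ℂ →ₐ[ℂ] KK).toRingHom k (MvPolynomial.X 0) (MvPolynomial.X 1) i j
    simpa using this
  have e2 : ∀ z, MvPolynomial.eval (fun i => ![f, g] i z)
      (frm k (MvPolynomial.X 0) (MvPolynomial.X 1) i j : MvPolynomial (Fin 2) ℂ) =
      frm k (f z) (g z) i j := by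
    intro z
    have := GE9_frm_map (MvPolynomial.eval (fun i => ![f, g] i z)) k
      (MvPolynomial.X 0 : MvPolynomial (Fin 2) ℂ) (MvPolynomial.X 1) i j
    simpa using this
  rw [e1] at h
  simp only [e2] at h
  exact h

theorem GE9_gco_an {z₀ : ℂ} {k : ℕ} {f g : ℂ → ℂ} {p : Fin (k + 1) → ℂ → ℂ}
    (hf : AnalyticAt ℂ f z₀) (hg : AnalyticAt ℂ g z₀) (hp : ∀ m, AnalyticAt ℂ (p m) z₀) (l : ℕ) :
    AnalyticAt ℂ (fun z => gco k (f z) (g z) (fun m => p m z) l) z₀ := by
  simp only [gco]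
  refine Finset.analyticAt_fun_sum _ fun m _ => (hp m).mul ?_
  have h := (germ_mvPolynomial (z₀ := z₀) (f := ![f, g]) (fun i => by fin_cases i <;> simpa)
    (((C (MvPolynomial.X 0) - C (MvPolynomial.X 1) * X) ^ (m : ℕ) * (1 - X) ^ (k - (m : ℕ)) :
      (MvPolynomial (Fin 2) ℂ)[X]).coeff l)).2
  have e2 : ∀ z, MvPolynomial.eval (fun i => ![f, g] i z)
      (((C (MvPolynomial.X 0) - C (MvPolynomial.X 1) * X) ^ (m : ℕ) * (1 - X) ^ (k - (m : ℕ)) :
      (MvPolynomial (Fin 2) ℂ)[X]).coeff l) =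
      ((C (f z) - C (g z) * X) ^ (m : ℕ) * (1 - X) ^ (k - (m : ℕ)) : ℂ[X]).coeff l := by
    intro z
    rw [← coeff_map]
    congr 1
    simp
  simp only [e2] at h
  exact h

theorem GE9_germ_sub {z₀ : ℂ} {f g : ℂ → ℂ} (hf : AnalyticAt ℂ f z₀) (hg : AnalyticAt ℂ g z₀) :
    germ z₀ (fun z => f z - g z) = germ z₀ f - germ z₀ g := by
  have h := germ_add (f := fun z => f z - g z) (g := g) (hf.sub hg) hg
  rw [← sub_eq_iff_eq_add.mpr h]
  simp only [sub_add_cancel]

theorem GE9_germ_pow {z₀ : ℂ} {f : ℂ → ℂ} (hf : AnalyticAt ℂ f z₀) (n : ℕ) :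
    germ z₀ (fun z => f z ^ n) = germ z₀ f ^ n := by
  induction n with
  | zero => simpa using germ_const z₀ 1
  | succ n ih => simp only [pow_succ]; rw [germ_mul (f := fun z => f z ^ n) (g := f) (hf.pow n) hf, ih]

theorem GE9_germ_sum {z₀ : ℂ} {ι : Type*} (s : Finset ι) {f : ι → ℂ → ℂ}
    (hf : ∀ i ∈ s, AnalyticAt ℂ (f i) z₀) :
    germ z₀ (fun z => ∑ i ∈ s, f i z) = ∑ i ∈ s, germ z₀ (f i) := by
  classical
  induction s using Finset.induction_on with
  | empty => simpa using germ_const z₀ 0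
  | insert a s ha ih =>
    simp only [Finset.sum_insert ha]
    rw [germ_add (hf a (Finset.mem_insert_self _ _)) (Finset.analyticAt_fun_sum _
      fun i hi => hf i (Finset.mem_insert_of_mem hi)),
      ih fun i hi => hf i (Finset.mem_insert_of_mem hi)]

theorem GE9_germ_ne {z₀ : ℂ} {f : ℂ → ℂ} (hf : AnalyticAt ℂ f z₀) (h : f z₀ ≠ 0) :
    germ z₀ f ≠ 0 := fun h0 => h ((germ_eq_zero hf).mp h0).self_of_nhds

theorem GE9_dx {U : Set ℂ} (hU : IsOpen U) {x T : ℂ → ℂ} (hx : DifferentiableOn ℂ x U)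
    (hT : DifferentiableOn ℂ T U) {u : ℂ} (hu : u ∈ U) (h : deriv x u ≠ 0) :
    AnalyticAt ℂ (dx x T) u :=
  ((hT.analyticAt (hU.mem_nhds hu)).deriv).div ((hx.analyticAt (hU.mem_nhds hu)).deriv) h

/-- The output of the algebraic part. -/
theorem Gen.relations {k : ℕ} (hk : 1 ≤ k) {U U' : Set ℂ} {x T x' T' : ℂ → ℂ}
    {W W' : Fin (k + 1) → ℂ → ℂ} (H : Gen k U x T W) (H' : Gen k U' x' T' W') {φ : ℂ → ℂ} {u₀ : ℂ}
    (hφ : AnalyticAt ℂ φ u₀) (hu : u₀ ∈ U) (hu' : φ u₀ ∈ U') (hd : deriv φ u₀ ≠ 0)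
    (h1 : deriv T u₀ ≠ 0) (h1' : deriv T' (φ u₀) ≠ 0) (hne : T u₀ ≠ T' (φ u₀))
    {i : ℕ} (hi : i ≤ k) (hi2 : 2 * i ≠ k)
    (hz : ∀ᶠ u in 𝓝 u₀, gco k (T u) (T' (φ u)) (fun j => W j u - W' j (φ u)) i = 0)
    (hz' : ∀ᶠ u in 𝓝 u₀, gco k (T u) (T' (φ u)) (fun j => W j u - W' j (φ u)) (k - i) = 0) :
    ∃ P₁ P₂ : ℂ[X][X], P₁ ≠ 0 ∧ P₂ ≠ 0 ∧ ∀ᶠ u in 𝓝 u₀, EV P₁ (x u) (x' (φ u)) = 0 ∧
      EV P₂ (x u) ((T u - T' (φ u)) ^ 2 / (dx x T u * dx x' T' (φ u))) = 0 := by
  obtain ⟨L, hLx, hL0, hL1, hLV, hLP, hLd⟩ := H.side (φ := fun u => u) (u₀ := u₀) analyticAt_id hu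
    (by simp) h1
  obtain ⟨R, hRx, hR0, hR1, hRV, hRP, hRd⟩ := H'.side hφ hu' hd h1'
  have aT : AnalyticAt ℂ T u₀ := H.T_diff.analyticAt (H.isOpen.mem_nhds hu)
  have ax : AnalyticAt ℂ x u₀ := H.x_diff.analyticAt (H.isOpen.mem_nhds hu)
  have aW : ∀ j, AnalyticAt ℂ (W j) u₀ := fun j => (H.W_diff j).analyticAt (H.isOpen.mem_nhds hu)
  have aT' : AnalyticAt ℂ (fun u => T' (φ u)) u₀ :=
    (H'.T_diff.analyticAt (H'.isOpen.mem_nhds hu')).comp hφ
  have ax' : AnalyticAt ℂ (fun u => x' (φ u)) u₀ :=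
    (H'.x_diff.analyticAt (H'.isOpen.mem_nhds hu')).comp hφ
  have aW' : ∀ j, AnalyticAt ℂ (fun u => W' j (φ u)) u₀ := fun j =>
    ((H'.W_diff j).analyticAt (H'.isOpen.mem_nhds hu')).comp hφ
  have at1 : AnalyticAt ℂ (dx x T) u₀ := GE9_dx H.isOpen H.x_diff H.T_diff hu (H.x_deriv _ hu)
  have at1' : AnalyticAt ℂ (fun u => dx x' T' (φ u)) u₀ :=
    (GE9_dx H'.isOpen H'.x_diff H'.T_diff hu' (H'.x_deriv _ hu')).comp hφ
  have n1 : dx x T u₀ ≠ 0 := div_ne_zero h1 (H.x_deriv _ hu)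
  have n1' : dx x' T' (φ u₀) ≠ 0 := div_ne_zero h1' (H'.x_deriv _ hu')
  have aD : AnalyticAt ℂ (fun u => T u - T' (φ u)) u₀ := aT.sub aT'
  have nD : (fun u => T u - T' (φ u)) u₀ ≠ 0 := sub_ne_zero.mpr hne
  have ag : ∀ l, AnalyticAt ℂ (fun u => gco k (T u) (T' (φ u)) (fun j => W j u - W' j (φ u)) l) u₀ :=
    fun l => GE9_gco_an (p := fun j u => W j u - W' j (φ u)) aT aT' (fun m => (aW m).sub (aW' m)) l
  have hLR : L.t0 - R.t0 = germ u₀ (fun u => T u - T' (φ u)) := by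
    rw [hL0, hR0, GE9_germ_sub aT aT']
  have hLRne : L.t0 - R.t0 ≠ 0 := by rw [hLR]; exact GE9_germ_ne aD nD
  have two : Two L R dK := ⟨dK_const, hLP, hRP, hLd, hRd⟩
  let f : ℕ → KK := fun l => if l ≤ k then
    germ u₀ (fun u => gco k (T u) (T' (φ u)) (fun j => W j u - W' j (φ u)) l) / (L.t0 - R.t0) ^ k else 0
  have hV : Vanish L R f i := by
    refine ⟨fun h => hLRne (sub_eq_zero.mpr h), by simp [f], fun j => ?_, hi, hi2, ?_, ?_⟩
    · have e1 : (L.t0 - R.t0) ^ k * (L.V j - R.V j) = ∑ l ∈ Finset.range (k + 1),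
          germ u₀ (fun u => gco k (T u) (T' (φ u)) (fun j => W j u - W' j (φ u)) l) *
            frm k L.t0 R.t0 l j := by
        rw [hLR, hLV, hRV, ← GE9_germ_sub (aW j) (aW' j), ← GE9_germ_pow aD,
          ← germ_mul (f := fun u => (T u - T' (φ u)) ^ k) (g := fun u => W j u - W' j (φ u))
            (aD.pow k) ((aW j).sub (aW' j))]
        have e2 : ∀ l, germ u₀ (fun u => gco k (T u) (T' (φ u)) (fun j => W j u - W' j (φ u)) l) *
            frm k L.t0 R.t0 l j = germ u₀ (fun u => gco k (T u) (T' (φ u))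
              (fun j => W j u - W' j (φ u)) l * frm k (T u) (T' (φ u)) l j) := by
          intro l
          rw [germ_mul (ag l) (GE9_frm aT aT' k l j).2, hL0, hR0, (GE9_frm aT aT' k l j).1]
        simp_rw [e2]
        rw [← GE9_germ_sum (Finset.range (k + 1)) (f := fun l u => gco k (T u) (T' (φ u))
          (fun j => W j u - W' j (φ u)) l * frm k (T u) (T' (φ u)) l j)
          fun l _ => (ag l).mul (GE9_frm aT aT' k l j).2]
        refine germ_congr (Eventually.of_forall fun u => ?_)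
        exact GE9_gco k (T u) (T' (φ u)) (fun j => W j u - W' j (φ u)) j
      have e3 : L.V j - R.V j = ((L.t0 - R.t0) ^ k * (L.V j - R.V j)) / (L.t0 - R.t0) ^ k := by
        rw [mul_div_cancel_left₀ _ (pow_ne_zero k hLRne)]
      rw [e3, e1, Finset.sum_div]
      refine Finset.sum_congr rfl fun l hl => ?_
      rw [Finset.mem_range] at hl
      simp only [f]
      rw [if_pos (by omega)]
      ring
    · simp only [f]
      rw [if_pos hi, (germ_eq_zero (ag i)).mpr hz, zero_div]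
    · simp only [f]
      rw [if_pos (Nat.sub_le _ _), (germ_eq_zero (ag (k - i))).mpr hz', zero_div]
  have : CharZero KK := charZero_of_injective_algebraMap (algebraMap ℂ KK).injective
  obtain ⟨A⟩ := two.auto hk hV
  by_cases hy : AlgebraicIndependent ℂ ![L.x, R.x]
  · obtain ⟨⟨D, hDx, hDy, hDn⟩, hdep⟩ := Auto.mixed two A hy
    exact (H.taylor H' hφ hu hu' hd h1 h1' hLx hL0 hL1 hRx hR0 hR1 A.M_unit hDx hDy hDn hdep).elim
  · have hM := Auto.eq_one hk two hV A hy
    have hth := Auto.theta two A hM hy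
    obtain ⟨P₁, hP₁, h₁⟩ := exists_EV hy
    obtain ⟨P₂, hP₂, h₂⟩ := exists_EV hth
    have at2 : AnalyticAt ℂ (fun u => dx x T u * dx x' T' (φ u)) u₀ := at1.mul at1'
    have n2 : (fun u => dx x T u * dx x' T' (φ u)) u₀ ≠ 0 := mul_ne_zero n1 n1'
    have eθ : (L.t0 - R.t0) ^ 2 / (L.t1 * R.t1) =
        germ u₀ (fun u => (T u - T' (φ u)) ^ 2 / (dx x T u * dx x' T' (φ u))) := by
      rw [germ_div (f := fun u => (T u - T' (φ u)) ^ 2) (g := fun u => dx x T u * dx x' T' (φ u))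
        (aD.pow 2) at2 n2, GE9_germ_pow aD, germ_mul (f := dx x T) (g := fun u => dx x' T' (φ u))
        at1 at1', hLR, hL1, hR1]
    have aθ : AnalyticAt ℂ (fun u => (T u - T' (φ u)) ^ 2 / (dx x T u * dx x' T' (φ u))) u₀ :=
      (aD.pow 2).div at2 n2
    refine ⟨P₁, P₂, hP₁, hP₂, ?_⟩
    have g₁ := germ_EV ax ax' P₁
    have g₂ := germ_EV ax aθ P₂
    rw [hLx, hRx, g₁.1, germ_eq_zero g₁.2] at h₁
    rw [hLx, eθ, g₂.1, germ_eq_zero g₂.2] at h₂
    exact h₁.and h₂

end Pool.Agent.LibSym94
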