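import Pool.Agent.LibSym94.PerDefs
import Pool.Agent.LibSym94.GERM

open UpperHalfPlane Matrix Filter Topology Polynomial
open scoped MatrixGroups ComplexConjugate
open Pool.Agent.LibUB33 (Curve ee)
open Pool.Agent.LibEis68 (form act)

namespace Pool.Agent.LibSym94

/-! ## Ends -/

section Ends
variable {k : ℕ} {X : Curve}

theorem EN1_iter {s : ℂ → ℍ} {Y : ℝ} {h : ℕ} {p : SL(2, ℝ)}
    (hper : ∀ ζ : ℂ, Y < ζ.im → s (ζ + h) = p • s ζ) (j : ℕ) :
    ∀ ζ : ℂ, Y < ζ.im → s (ζ + (j * h : ℕ)) = p ^ j • s ζ := by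
  induction j with
  | zero => exact fun ζ _ => by simp
  | succ j ih =>
    intro ζ hζ
    have h1 : ζ + ((j + 1) * h : ℕ) = ζ + (j * h : ℕ) + h := by push_cast; ring
    have h2 : Y < (ζ + ((j * h : ℕ) : ℂ)).im := by
      rw [Complex.add_im, Complex.natCast_im, add_zero]
      exact hζ
    rw [h1, hper _ h2, ih ζ hζ, smul_smul, pow_succ']

theorem EN1_perT {V : Variation k X} {s : ℂ → ℍ} {Y : ℝ} {h : ℕ} {p : X.P}
    (hper : ∀ ζ : ℂ, Y < ζ.im → s (ζ + h) = (p : SL(2, ℝ)) • s ζ) :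
    ∀ ζ : ℂ, Y < ζ.im → (V.τ (s (ζ + h)) : ℂ) *
      ((V.ρ p 1 0 : ℤ) * (V.τ (s ζ) : ℂ) + (V.ρ p 1 1 : ℤ)) =
      (V.ρ p 0 0 : ℤ) * (V.τ (s ζ) : ℂ) + (V.ρ p 0 1 : ℤ) := by
  intro ζ hζ
  have hd : ((V.ρ p 1 0 : ℤ) : ℂ) * (V.τ (s ζ) : ℂ) + (V.ρ p 1 1 : ℤ) ≠ 0 := by
    have := denom_ne_zero (Matrix.SpecialLinearGroup.mapGL ℝ (V.ρ p)) (V.τ (s ζ))
    simpa [denom] using this
  have h4 : V.τ (s (ζ + h)) = V.ρ p • V.τ (s ζ) := by
    rw [hper ζ hζ]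
    exact V.τ_equiv p (s ζ)
  rw [h4, coe_specialLinearGroup_apply]
  simp only [eq_intCast, Complex.ofReal_intCast]
  exact div_mul_cancel₀ _ hd

/-- The normal form of the period at an end. -/
theorem Variation.nonempty_endForm (V : Variation k X) {s : ℂ → ℍ} {Y : ℝ} (hE : X.IsEnd s Y) :
    Nonempty (EndForm V s Y) := by
  obtain ⟨h, hh, p₀, hp₀, hper⟩ := X.exists_period hE
  set q : X.P := ⟨p₀, hp₀⟩ with hq
  have hdet : (V.ρ q 0 0) * V.ρ q 1 1 - V.ρ q 0 1 * V.ρ q 1 0 = 1 := by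
    have := (V.ρ q).2
    rwa [Matrix.det_fin_two] at this
  obtain ⟨ψ, hψ, hψd⟩ : ∃ ψ : ℂ → ℂ, (∀ ζ : ℂ, Y < ζ.im → X.lam (s ζ) = ψ ζ) ∧
      (∀ ζ : ℂ, Y < ζ.im → DifferentiableAt ℂ ψ ζ) := by
    rcases hE.2 with ⟨b, -, hb⟩ | hi
    · exact ⟨fun ζ => b + ee ζ, hb, fun ζ _ =>
        ((LibUB33.hasDerivAt_ee ζ).const_add b).differentiableAt⟩
    · exact ⟨fun ζ => ee (-ζ), hi, fun ζ _ =>
        ((LibUB33.hasDerivAt_ee (-ζ)).comp ζ (hasDerivAt_neg ζ)).differentiableAt⟩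
  have hT : ∀ ζ : ℂ, Y < ζ.im → DifferentiableAt ℂ (fun ζ => (V.τ (s ζ) : ℂ)) ζ := by
    intro ζ hζ
    have h1 := (X.lift_differentiable hE.1 hψ hψd hζ).1
    have h2 : DifferentiableAt ℂ (fun w : ℂ => (V.τ (ofComplex w) : ℂ)) (s ζ : ℂ) := V.τ_hol (s ζ)
    have h3 := h2.comp ζ h1
    simpa [Function.comp_def] using h3
  have hper' : ∀ ζ : ℂ, Y < ζ.im → s (ζ + h) = (q : SL(2, ℝ)) • s ζ := hper
  have perT := EN1_perT (V := V) hper'
  have htr := LibUB33.trace_sq_le hh hT (fun ζ _ => (V.τ (s ζ)).im_pos) _ _ _ _ hdet perT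
  obtain ⟨A, m, hA⟩ := LibUB33.exists_conj (V.ρ q) htr
  have hAM : A * V.ρ (q ^ 12) = ModularGroup.T ^ m * A := by
    rw [map_pow, ← hA]
    group
  have hn : 0 < 12 * h := by omega
  have hpn : ∀ ζ : ℂ, Y < ζ.im → s (ζ + (12 * h : ℕ)) = ((q ^ 12 : X.P) : SL(2, ℝ)) • s ζ :=
    fun ζ hζ => EN1_iter hper 12 ζ hζ
  have hcoe : ∀ z : ℍ, ((A • z : ℍ) : ℂ) = (((A 0 0 : ℤ) : ℂ) * z + ((A 0 1 : ℤ) : ℂ)) /
      (((A 1 0 : ℤ) : ℂ) * z + ((A 1 1 : ℤ) : ℂ)) := by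
    intro z
    rw [coe_specialLinearGroup_apply]
    simp only [eq_intCast, Complex.ofReal_intCast]
  have hden : ∀ z : ℍ, ((A 1 0 : ℤ) : ℂ) * z + ((A 1 1 : ℤ) : ℂ) ≠ 0 := by
    intro z
    have := denom_ne_zero (Matrix.SpecialLinearGroup.mapGL ℝ A) z
    simpa [denom] using this
  have hT' : ∀ ζ : ℂ, Y < ζ.im →
      DifferentiableAt ℂ (fun ζ => ((A • V.τ (s ζ) : ℍ) : ℂ)) ζ := by
    intro ζ hζ
    have h1 : (fun ζ => ((A • V.τ (s ζ) : ℍ) : ℂ)) = fun ζ =>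
        (((A 0 0 : ℤ) : ℂ) * (V.τ (s ζ) : ℂ) + ((A 0 1 : ℤ) : ℂ)) /
          (((A 1 0 : ℤ) : ℂ) * (V.τ (s ζ) : ℂ) + ((A 1 1 : ℤ) : ℂ)) :=
      funext fun ζ => hcoe _
    rw [h1]
    exact (((hT ζ hζ).const_mul _).add_const _).div (((hT ζ hζ).const_mul _).add_const _)
      (hden _)
  have hperT : ∀ ζ : ℂ, Y < ζ.im → ((A • V.τ (s (ζ + (12 * h : ℕ))) : ℍ) : ℂ) =
      ((A • V.τ (s ζ) : ℍ) : ℂ) + m := by
    intro ζ hζ
    rw [hpn ζ hζ, V.τ_equiv, smul_smul, hAM, mul_smul, modular_T_zpow_smul, coe_vadd]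
    rw [Complex.ofReal_intCast]
    ring
  obtain ⟨hm, F, hF, hF0, Y', hY'⟩ := LibUB33.period_at_cusp hn hT'
    (fun ζ _ => (A • V.τ (s ζ) : ℍ).im_pos) m hperT
  obtain ⟨mn, rfl⟩ := Int.eq_ofNat_of_zero_le hm
  refine ⟨{ n := 12 * h, hn := hn, p := q ^ 12, hp := hpn, M := A, m := mn, hρ := ?_, F := F,
            hF := hF, hF0 := fun h0 => hF0 (by exact_mod_cast h0), Y' := max Y Y',
            hY := le_max_left _ _, hτ := ?_ }⟩
  · rw [hAM, zpow_natCast]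
  · intro ζ hζ
    rw [hY' ζ ((le_max_right _ _).trans_lt hζ), Int.cast_natCast]

theorem EN2_prod_smul {M : Type*} [CommMonoid M] (X : Curve) (R : Finset SL(2, ℝ))
    (hR : ∀ x ∈ R, x ∈ X.G)
    (hR' : ∀ g ∈ X.G, ∃! x : SL(2, ℝ), x ∈ R ∧ ∃ p ∈ X.P, g = p * x) (f : ℍ → M)
    (hinv : ∀ g ∈ X.P, ∀ z : ℍ, f (g • z) = f z) {g : SL(2, ℝ)} (hg : g ∈ X.G) (z : ℍ) :
    ∏ x ∈ R, f (x • g • z) = ∏ x ∈ R, f (x • z) := by
  classical
  have hex : ∀ x ∈ R, ∃ x' ∈ R, ∃ p ∈ X.P, x * g = p * x' := by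
    intro x hx
    obtain ⟨x', ⟨h1, p, hp, h2⟩, -⟩ := hR' (x * g) (X.G.mul_mem (hR x hx) hg)
    exact ⟨x', h1, p, hp, h2⟩
  choose! σ hσR hσ using hex
  refine Finset.prod_bij (fun x _ => σ x) (fun x hx => hσR x hx) ?_ ?_ ?_
  · intro x hx y hy hxy
    obtain ⟨p, hp, h1⟩ := hσ x hx
    obtain ⟨q, hq, h2⟩ := hσ y hy
    have h3 : x = p * q⁻¹ * y := by
      have e1 : x = p * σ x * g⁻¹ := by rw [← h1]; group
      have e2 : y = q * σ y * g⁻¹ := by rw [← h2]; group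
      have hxy' : σ x = σ y := hxy
      calc x = p * σ y * g⁻¹ := by rw [← hxy']; exact e1
        _ = p * q⁻¹ * (q * σ y * g⁻¹) := by group
        _ = p * q⁻¹ * y := by rw [← e2]
    obtain ⟨w, -, hw⟩ := hR' x (hR x hx)
    have h4 := hw x ⟨hx, 1, X.P.one_mem, by simp⟩
    have h5 := hw y ⟨hy, p * q⁻¹, X.P.mul_mem hp (X.P.inv_mem hq), h3⟩
    rw [h4, h5]
  · intro y hy
    obtain ⟨x, ⟨hx, p, hp, h1⟩, -⟩ := hR' (y * g⁻¹) (X.G.mul_mem (hR y hy) (X.G.inv_mem hg))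
    refine ⟨x, hx, ?_⟩
    obtain ⟨q, hq, h2⟩ := hσ x hx
    have h3 : x * g = p⁻¹ * y := by
      have e1 : x = p⁻¹ * (y * g⁻¹) := by rw [h1]; group
      rw [e1]; group
    obtain ⟨w, -, hw⟩ := hR' (x * g) (X.G.mul_mem (hR x hx) hg)
    have h4 := hw y ⟨hy, p⁻¹, X.P.inv_mem hp, h3⟩
    have h5 := hw (σ x) ⟨hσR x hx, q, hq, h2⟩
    rw [h4, h5]
  · intro x hx
    obtain ⟨p, hp, h1⟩ := hσ x hx
    rw [← mul_smul, h1, mul_smul, hinv p hp]

theorem EN2_coeff_diff {ι : Type*} [DecidableEq ι] (R : Finset ι) (u : ι → ℂ → ℂ) (w₀ : ℂ)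
    (hu : ∀ x ∈ R, DifferentiableAt ℂ (u x) w₀) (j : ℕ) :
    DifferentiableAt ℂ
      (fun w => (∏ x ∈ R, (Polynomial.X - C (u x w)) : ℂ[X]).coeff j) w₀ := by
  induction R using Finset.induction_on generalizing j with
  | empty =>
    simp only [Finset.prod_empty]
    exact differentiableAt_const _
  | insert y R hy ih =>
    have hu' : ∀ x ∈ R, DifferentiableAt ℂ (u x) w₀ :=
      fun x hx => hu x (Finset.mem_insert_of_mem hx)
    have hy' := hu y (Finset.mem_insert_self _ _)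
    simp only [Finset.prod_insert hy]
    cases j with
    | zero =>
      have e : (fun w => ((Polynomial.X - C (u y w)) *
          ∏ x ∈ R, (Polynomial.X - C (u x w)) : ℂ[X]).coeff 0) =
          fun w => - (u y w * (∏ x ∈ R, (Polynomial.X - C (u x w)) : ℂ[X]).coeff 0) := by
        funext w
        rw [sub_mul, Polynomial.coeff_sub, Polynomial.coeff_X_mul_zero, Polynomial.coeff_C_mul,
          zero_sub]
      rw [e]
      exact (hy'.mul (ih hu' 0)).neg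
    | succ j =>
      have e : (fun w => ((Polynomial.X - C (u y w)) *
          ∏ x ∈ R, (Polynomial.X - C (u x w)) : ℂ[X]).coeff (j + 1)) =
          fun w => (∏ x ∈ R, (Polynomial.X - C (u x w)) : ℂ[X]).coeff j -
            u y w * (∏ x ∈ R, (Polynomial.X - C (u x w)) : ℂ[X]).coeff (j + 1) := by
        funext w
        rw [sub_mul, Polynomial.coeff_sub, Polynomial.coeff_X_mul, Polynomial.coeff_C_mul]
      rw [e]
      exact (ih hu' j).sub (hy'.mul (ih hu' (j + 1)))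

theorem EN2_denom_ne (x : SL(2, ℝ)) {t : ℂ} (ht : 0 < t.im) :
    ((x 1 0 : ℝ) : ℂ) * t + (x 1 1 : ℝ) ≠ 0 := by
  intro h
  have hdet : x 0 0 * x 1 1 - x 0 1 * x 1 0 = 1 := by
    have := x.2
    rw [Matrix.det_fin_two] at this
    exact this
  have him := congrArg Complex.im h
  have hre := congrArg Complex.re h
  simp at him hre
  rcases him with h1 | h1
  · rw [h1] at hre
    simp at hre
    rw [h1, hre] at hdet
    simp at hdet
  · exact ht.ne' h1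

theorem EN2_mob (x : SL(2, ℝ)) {t : ℂ} (ht : 0 < t.im) :
    (((x 0 0 : ℝ) : ℂ) * t + (x 0 1 : ℝ)) / (((x 1 0 : ℝ) : ℂ) * t + (x 1 1 : ℝ)) =
      ((x • ofComplex t : ℍ) : ℂ) := by
  have h1 : (ofComplex t : ℂ) = t := by
    rw [ofComplex_apply_of_im_pos ht]
  rw [coe_specialLinearGroup_apply, h1]
  rfl

/-- The elementary symmetric functions of the conjugates of an invariant function. -/
theorem exists_sym (X : Curve) (R : Finset SL(2, ℝ)) (hR : ∀ x ∈ R, x ∈ X.G)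
    (hR' : ∀ g ∈ X.G, ∃! x : SL(2, ℝ), x ∈ R ∧ ∃ p ∈ X.P, g = p * x) (Φ : ℍ → ℂ)
    (hol : ∀ z : ℍ, DifferentiableAt ℂ (fun w : ℂ => Φ (ofComplex w)) z)
    (inv : ∀ g ∈ X.P, ∀ z : ℍ, Φ (g • z) = Φ z) :
    ∃ a : ℕ → ℂ → ℂ, (∀ j, ∀ w ∉ X.B, DifferentiableAt ℂ (a j) w) ∧
      ∀ (z : ℍ) (j : ℕ), a j (X.lam z) =
        (∏ x ∈ R, (Polynomial.X - C (Φ (x • z))) : ℂ[X]).coeff j := by
  classical
  set a : ℕ → ℂ → ℂ := fun j w => if h : ∃ z : ℍ, X.lam z = w then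
    (∏ x ∈ R, (Polynomial.X - C (Φ (x • h.choose))) : ℂ[X]).coeff j else 0 with ha
  have hval : ∀ (z : ℍ) (j : ℕ), a j (X.lam z) =
      (∏ x ∈ R, (Polynomial.X - C (Φ (x • z))) : ℂ[X]).coeff j := by
    intro z j
    have h : ∃ z' : ℍ, X.lam z' = X.lam z := ⟨z, rfl⟩
    simp only [ha]
    rw [dif_pos h]
    obtain ⟨g, hg, hgz⟩ := (X.lam_fib z h.choose).1 h.choose_spec.symm
    rw [← hgz, EN2_prod_smul X R hR hR' (fun z => (Polynomial.X - C (Φ z) : ℂ[X]))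
      (fun g hg z => by rw [inv g hg z]) hg]
  refine ⟨a, fun j w hw => ?_, hval⟩
  obtain ⟨z, rfl⟩ : w ∈ Set.range X.lam := by
    rw [X.lam_range]
    exact hw
  obtain ⟨φ, hφ0, hφ, -⟩ := X.exists_local_section z
  have hφz := hφ.self_of_nhds
  have h1 : DifferentiableAt ℂ (fun w => (∏ x ∈ R, (Polynomial.X - C (Φ (ofComplex
      ((((x 0 0 : ℝ) : ℂ) * φ w + (x 0 1 : ℝ)) / (((x 1 0 : ℝ) : ℂ) * φ w + (x 1 1 : ℝ)))))) :
        ℂ[X]).coeff j) (X.lam z) := by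
    refine EN2_coeff_diff R (fun x w => Φ (ofComplex
      ((((x 0 0 : ℝ) : ℂ) * φ w + (x 0 1 : ℝ)) / (((x 1 0 : ℝ) : ℂ) * φ w + (x 1 1 : ℝ)))))
      (X.lam z) (fun x _ => ?_) j
    have hz0 : (((x 0 0 : ℝ) : ℂ) * φ (X.lam z) + (x 0 1 : ℝ)) /
        (((x 1 0 : ℝ) : ℂ) * φ (X.lam z) + (x 1 1 : ℝ)) =
        ((x • ofComplex (φ (X.lam z)) : ℍ) : ℂ) := EN2_mob x hφz.2.1
    have h2 := hol (x • ofComplex (φ (X.lam z)))
    rw [← hz0] at h2
    have h3 : DifferentiableAt ℂ (fun w => (((x 0 0 : ℝ) : ℂ) * φ w + (x 0 1 : ℝ)) /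
        (((x 1 0 : ℝ) : ℂ) * φ w + (x 1 1 : ℝ))) (X.lam z) :=
      ((hφz.1.const_mul _).add_const _).div ((hφz.1.const_mul _).add_const _)
        (EN2_denom_ne x hφz.2.1)
    exact DifferentiableAt.comp (g := fun w : ℂ => Φ (ofComplex w)) (X.lam z) h2 h3
  refine h1.congr_of_eventuallyEq ?_
  filter_upwards [hφ] with w hw
  obtain ⟨-, him, hlam⟩ := hw
  have h4 : a j w = (∏ x ∈ R, (Polynomial.X - C (Φ (x • ofComplex (φ w)))) : ℂ[X]).coeff j := by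
    rw [← hval, hlam]
  rw [h4]
  congr 1
  refine Finset.prod_congr rfl (fun x _ => ?_)
  rw [EN2_mob x him, ofComplex_apply]

/-- An entire function of polynomial growth is a polynomial. -/
private theorem EN3_poly {F : ℂ → ℂ} (hF : Differentiable ℂ F) (M : ℕ) (C0 r : ℝ)
    (hg : ∀ w : ℂ, r ≤ ‖w‖ → ‖F w‖ ≤ C0 * ‖w‖ ^ M) :
    ∃ p : ℂ[X], p.natDegree ≤ M ∧ ∀ w, F w = p.eval w := by
  have hz : ∀ n, M < n → iteratedDeriv n F 0 = 0 := by
    intro n hn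
    have hb : ∀ R : ℝ, max r 1 ≤ R →
        ‖iteratedDeriv n F 0‖ ≤ (n.factorial : ℝ) * |C0| * R⁻¹ := by
      intro R hR
      have hR1 : 1 ≤ R := (le_max_right _ _).trans hR
      have hRr : r ≤ R := (le_max_left _ _).trans hR
      have hR0 : 0 < R := by linarith
      have h1 := Complex.norm_iteratedDeriv_le_of_forall_mem_sphere_norm_le (c := 0)
        (C := |C0| * R ^ M) n hR0 hF.diffContOnCl (by
          intro z hz
          have h2 : ‖z‖ = R := by simpa using hz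
          have h3 := hg z (by rw [h2]; exact hRr)
          rw [h2] at h3
          exact h3.trans (mul_le_mul_of_nonneg_right (le_abs_self _) (by positivity)))
      refine h1.trans ?_
      rw [mul_assoc, mul_div_assoc, mul_div_assoc]
      refine mul_le_mul_of_nonneg_left ?_ (by positivity)
      refine mul_le_mul_of_nonneg_left ?_ (abs_nonneg _)
      rw [inv_eq_one_div, div_le_div_iff₀ (by positivity) hR0, one_mul, ← pow_succ]
      exact pow_le_pow_right₀ hR1 hn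
    have ht : Tendsto (fun R : ℝ => (n.factorial : ℝ) * |C0| * R⁻¹) atTop (𝓝 0) := by
      simpa using tendsto_inv_atTop_zero.const_mul ((n.factorial : ℝ) * |C0|)
    have h2 : ‖iteratedDeriv n F 0‖ ≤ 0 :=
      ge_of_tendsto ht (by
        filter_upwards [eventually_ge_atTop (max r 1)] with R hR
        exact hb R hR)
    exact norm_le_zero_iff.mp h2
  refine ⟨∑ n ∈ Finset.range (M + 1),
    C ((n.factorial : ℂ)⁻¹ * iteratedDeriv n F 0) * Polynomial.X ^ n, ?_, ?_⟩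
  · apply Polynomial.natDegree_sum_le_of_forall_le
    intro n hn
    have h1 := Finset.mem_range.mp hn
    exact (Polynomial.natDegree_C_mul_X_pow_le _ _).trans (by omega)
  · intro w
    have h1 := Complex.hasSum_taylorSeries_of_entire hF 0 w
    have h2 : HasSum
        (fun n : ℕ => ((n.factorial : ℂ)⁻¹ • (w - 0) ^ n • iteratedDeriv n F 0 : ℂ))
        (∑ n ∈ Finset.range (M + 1),
          ((n.factorial : ℂ)⁻¹ • (w - 0) ^ n • iteratedDeriv n F 0 : ℂ)) :=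
      hasSum_sum_of_ne_finset_zero (by
        intro n hn
        have h3 : M < n := by
          rw [Finset.mem_range] at hn
          omega
        simp only [hz n h3, smul_zero])
    rw [h1.unique h2, Polynomial.eval_finsetSum]
    apply Finset.sum_congr rfl
    intro n _
    simp only [sub_zero, smul_eq_mul, Polynomial.eval_mul, Polynomial.eval_C,
      Polynomial.eval_pow, Polynomial.eval_X]
    ring

/-- Entire functions away from finitely many points with poles at these points and at infinity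
are rational. -/
theorem rational_of_growth (B : Finset ℂ) (a : ℂ → ℂ) (ha : ∀ w ∉ B, DifferentiableAt ℂ a w)
    (N : ℕ) (hb : ∀ b ∈ B, ∃ C : ℝ, ∀ᶠ w in 𝓝[≠] b, ‖a w‖ ≤ C * ‖w - b‖⁻¹ ^ N)
    (hi : ∃ C : ℝ, ∀ᶠ w in cocompact ℂ, ‖a w‖ ≤ C * ‖w‖ ^ N) :
    ∃ p : ℂ[X], p.natDegree ≤ N * (B.card + 1) ∧
      ∀ w ∉ B, a w * ∏ b ∈ B, (w - b) ^ N = p.eval w := by
  classical
  have hprod : ∀ (S : Finset ℂ), Differentiable ℂ fun w : ℂ => ∏ b ∈ S, (w - b) ^ N := by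
    intro S
    induction S using Finset.induction_on with
    | empty => simp
    | insert b S hbS ih =>
      have h1 : (fun w : ℂ => ∏ b' ∈ insert b S, (w - b') ^ N) =
          fun w : ℂ => (w - b) ^ N * ∏ b' ∈ S, (w - b') ^ N := by
        funext w
        rw [Finset.prod_insert hbS]
      rw [h1]
      exact ((differentiable_id.sub_const b).pow N).mul ih
  set f : ℂ → ℂ := fun w => a w * ∏ b ∈ B, (w - b) ^ N with hf
  have hfd : ∀ w ∉ B, DifferentiableAt ℂ f w := fun w hw => (ha w hw).mul (hprod B w)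
  set F : ℂ → ℂ := fun w => if w ∈ B then limUnder (𝓝[≠] w) f else f w with hFdef
  have hFf : ∀ w ∉ B, F w = f w := by
    intro w hw
    simp only [hFdef, if_neg hw]
  have hopen : ∀ w ∉ B, ∀ᶠ z in 𝓝 w, z ∉ B := by
    intro w hw
    exact B.finite_toSet.isClosed.isOpen_compl.mem_nhds (by simpa using hw)
  have hFd1 : ∀ w ∉ B, DifferentiableAt ℂ F w := by
    intro w hw
    refine (hfd w hw).congr_of_eventuallyEq ?_
    filter_upwards [hopen w hw] with z hz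
    exact hFf z hz
  have hpun : ∀ b ∈ B, ∀ᶠ z in 𝓝[≠] b, z ∉ B := by
    intro b _
    have h1 : ∀ᶠ z in 𝓝 b, z ∉ B.erase b :=
      (B.erase b).finite_toSet.isClosed.isOpen_compl.mem_nhds (by simp)
    filter_upwards [eventually_nhdsWithin_of_eventually_nhds h1, self_mem_nhdsWithin] with z hz hzb
    intro hzB
    exact hz (Finset.mem_erase.mpr ⟨hzb, hzB⟩)
  have hF : Differentiable ℂ F := by
    intro w
    by_cases hw : w ∈ B
    · have hd : ∀ᶠ z in 𝓝[≠] w, DifferentiableAt ℂ f z := by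
        filter_upwards [hpun w hw] with z hz
        exact hfd z hz
      have hbd : IsBoundedUnder (· ≤ ·) (𝓝[≠] w) fun z => ‖f z - f w‖ := by
        obtain ⟨C0, hC0⟩ := hb w hw
        have hK : ∀ᶠ z in 𝓝 w, ‖∏ b ∈ B.erase w, (z - b) ^ N‖ ≤
            ‖∏ b ∈ B.erase w, (w - b) ^ N‖ + 1 := by
          have h1 : ContinuousAt (fun z : ℂ => ‖∏ b ∈ B.erase w, (z - b) ^ N‖) w :=
            ((hprod (B.erase w)) w).continuousAt.norm
          filter_upwards [h1.eventually (gt_mem_nhds (lt_add_one _))] with z hz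
          exact hz.le
        refine isBoundedUnder_of_eventually_le
          (a := |C0| * (‖∏ b ∈ B.erase w, (w - b) ^ N‖ + 1) + ‖f w‖) ?_
        filter_upwards [hC0, eventually_nhdsWithin_of_eventually_nhds hK, self_mem_nhdsWithin]
          with z hz hzK hzw
        refine (norm_sub_le _ _).trans ?_
        refine add_le_add ?_ le_rfl
        have hzw' : 0 < ‖z - w‖ := norm_pos_iff.mpr (sub_ne_zero.mpr hzw)
        have h2 : f z = a z * (z - w) ^ N * ∏ b ∈ B.erase w, (z - b) ^ N := by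
          rw [hf]
          simp only
          rw [← Finset.mul_prod_erase B _ hw]
          ring
        rw [h2, norm_mul, norm_mul, norm_pow]
        have h3 : ‖a z‖ * ‖z - w‖ ^ N ≤ |C0| := by
          have h4 : ‖a z‖ * ‖z - w‖ ^ N ≤ C0 * ‖z - w‖⁻¹ ^ N * ‖z - w‖ ^ N :=
            mul_le_mul_of_nonneg_right hz (by positivity)
          refine h4.trans ?_
          rw [mul_assoc, ← mul_pow, inv_mul_cancel₀ hzw'.ne', one_pow, mul_one]
          exact le_abs_self _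
        exact mul_le_mul h3 hzK (norm_nonneg _) (abs_nonneg _)
      have ht := Complex.tendsto_limUnder_of_differentiable_on_punctured_nhds_of_bounded_under
        hd hbd
      have hFc : ContinuousAt F w := by
        rw [continuousAt_iff_punctured_nhds]
        have h1 : F w = limUnder (𝓝[≠] w) f := by
          simp only [hFdef, if_pos hw]
        rw [h1]
        refine ht.congr' ?_
        filter_upwards [hpun w hw] with z hz
        exact (hFf z hz).symm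
      refine (Complex.analyticAt_of_differentiable_on_punctured_nhds_of_continuousAt ?_
        hFc).differentiableAt
      filter_upwards [hpun w hw] with z hz
      exact hFd1 z hz
    · exact hFd1 w hw
  obtain ⟨C1, hC1⟩ := hi
  have hgr : ∀ᶠ w in cocompact ℂ, ‖F w‖ ≤ |C1| * (2 ^ N) ^ B.card * ‖w‖ ^ (N * (B.card + 1)) := by
    have hn : Tendsto (fun w : ℂ => ‖w‖) (cocompact ℂ) atTop := tendsto_norm_cocompact_atTop
    filter_upwards [hC1, hn.eventually_ge_atTop (1 + ∑ b ∈ B, ‖b‖)] with w hw hw2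
    have hbn : ∀ b ∈ B, ‖b‖ < ‖w‖ := by
      intro b hbB
      have h1 : ‖b‖ ≤ ∑ b ∈ B, ‖b‖ :=
        Finset.single_le_sum (f := fun b : ℂ => ‖b‖) (fun _ _ => norm_nonneg _) hbB
      linarith
    have hwB : w ∉ B := fun h => lt_irrefl _ (hbn w h)
    rw [hFf w hwB]
    have h1 : ‖∏ b ∈ B, (w - b) ^ N‖ ≤ (2 ^ N * ‖w‖ ^ N) ^ B.card := by
      rw [norm_prod, ← Finset.prod_const]
      refine Finset.prod_le_prod (fun _ _ => norm_nonneg _) ?_
      intro b hbB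
      rw [norm_pow, ← mul_pow]
      refine pow_le_pow_left₀ (norm_nonneg _) ?_ _
      have := norm_sub_le w b
      have := hbn b hbB
      linarith
    have h2 : ‖f w‖ = ‖a w‖ * ‖∏ b ∈ B, (w - b) ^ N‖ := norm_mul _ _
    rw [h2]
    have h3 : ‖a w‖ ≤ |C1| * ‖w‖ ^ N :=
      hw.trans (mul_le_mul_of_nonneg_right (le_abs_self _) (by positivity))
    calc ‖a w‖ * ‖∏ b ∈ B, (w - b) ^ N‖
        ≤ (|C1| * ‖w‖ ^ N) * (2 ^ N * ‖w‖ ^ N) ^ B.card :=
          mul_le_mul h3 h1 (norm_nonneg _) (by positivity)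
      _ = |C1| * (2 ^ N) ^ B.card * ‖w‖ ^ (N * (B.card + 1)) := by
          rw [mul_pow (2 ^ N : ℝ), mul_add, pow_add, mul_one, pow_mul ‖w‖ N B.card]
          ring
  obtain ⟨r, hr⟩ : ∃ r : ℝ, ∀ w : ℂ, r ≤ ‖w‖ →
      ‖F w‖ ≤ |C1| * (2 ^ N) ^ B.card * ‖w‖ ^ (N * (B.card + 1)) := by
    rw [← Metric.cobounded_eq_cocompact] at hgr
    obtain ⟨r, _, hr⟩ := (hasBasis_cobounded_norm (E := ℂ)).mem_iff.mp hgr
    exact ⟨r, fun w hw => hr hw⟩
  obtain ⟨p, hp1, hp2⟩ := EN3_poly hF _ _ _ hr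
  refine ⟨p, hp1, ?_⟩
  intro w hw
  rw [← hp2 w, hFf w hw]

theorem EN4_coeff_bound {ι : Type*} [DecidableEq ι] (R : Finset ι) (K : ℝ) (j : ℕ) :
    ∃ D : ℝ, 0 ≤ D ∧ ∀ u : ι → ℂ, (∀ x ∈ R, ‖u x‖ ≤ K) →
      ‖(∏ x ∈ R, (Polynomial.X - C (u x)) : ℂ[X]).coeff j‖ ≤ D := by
  induction R using Finset.induction_on generalizing j with
  | empty =>
    refine ⟨‖(1 : ℂ[X]).coeff j‖, norm_nonneg _, fun u _ => ?_⟩
    rw [Finset.prod_empty]
  | insert y R hy ih =>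
    cases j with
    | zero =>
      obtain ⟨D, hD0, hD⟩ := ih 0
      refine ⟨|K| * D, by positivity, fun u hu => ?_⟩
      have h1 := hD u fun x hx => hu x (Finset.mem_insert_of_mem hx)
      have h2 := (hu y (Finset.mem_insert_self _ _)).trans (le_abs_self K)
      rw [Finset.prod_insert hy, sub_mul, Polynomial.coeff_sub, Polynomial.coeff_X_mul_zero,
        Polynomial.coeff_C_mul, zero_sub, norm_neg, norm_mul]
      exact mul_le_mul h2 h1 (norm_nonneg _) (abs_nonneg _)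
    | succ j =>
      obtain ⟨D, hD0, hD⟩ := ih j
      obtain ⟨D', hD0', hD'⟩ := ih (j + 1)
      refine ⟨D + |K| * D', by positivity, fun u hu => ?_⟩
      have h1 := hD u fun x hx => hu x (Finset.mem_insert_of_mem hx)
      have h1' := hD' u fun x hx => hu x (Finset.mem_insert_of_mem hx)
      have h2 := (hu y (Finset.mem_insert_self _ _)).trans (le_abs_self K)
      rw [Finset.prod_insert hy, sub_mul, Polynomial.coeff_sub, Polynomial.coeff_X_mul,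
        Polynomial.coeff_C_mul]
      refine (norm_sub_le _ _).trans (add_le_add h1 ?_)
      rw [norm_mul]
      exact mul_le_mul h2 h1' (norm_nonneg _) (abs_nonneg _)

theorem EN4_norm_ee (z : ℂ) : ‖ee z‖ = Real.exp (-(2 * Real.pi * z.im)) := by
  unfold Pool.Agent.LibUB33.ee
  rw [Complex.norm_exp]
  congr 1
  simp [Complex.mul_re, Complex.mul_im]

theorem EN4_exists_log {w : ℂ} (hw : w ≠ 0) :
    ∃ ζ : ℂ, ee ζ = w ∧ ζ.im = -Real.log ‖w‖ / (2 * Real.pi) := by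
  have hpi : (0 : ℝ) < 2 * Real.pi := by positivity
  have h1 : ee (Complex.log w / (2 * Real.pi * Complex.I)) = w := by
    unfold Pool.Agent.LibUB33.ee
    have h2 : (2 * (Real.pi : ℂ) * Complex.I) ≠ 0 := Complex.two_pi_I_ne_zero
    rw [mul_div_cancel₀ _ h2, Complex.exp_log hw]
  refine ⟨_, h1, ?_⟩
  have h2 := EN4_norm_ee (Complex.log w / (2 * Real.pi * Complex.I))
  rw [h1] at h2
  rw [h2, Real.log_exp]
  field_simp

/-- An invariant holomorphic function which is bounded near the ends is constant. -/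
theorem liouville (X : Curve) (Φ : ℍ → ℂ)
    (hol : ∀ z : ℍ, DifferentiableAt ℂ (fun w : ℂ => Φ (ofComplex w)) z)
    (inv : ∀ g ∈ X.P, ∀ z : ℍ, Φ (g • z) = Φ z)
    (hb : ∀ (s : ℂ → ℍ) (Y : ℝ), X.IsEnd s Y → ∃ C Y' : ℝ, ∀ ζ : ℂ, Y' < ζ.im → ‖Φ (s ζ)‖ ≤ C) :
    ∃ c : ℂ, ∀ z, Φ z = c := by
  classical
  obtain ⟨E⟩ := X.nonempty_ends
  have hlam : ∀ g ∈ X.G, ∀ z : ℍ, X.lam (g • z) = X.lam z := fun g hg z =>
    ((X.lam_fib z (g • z)).2 ⟨g, hg, rfl⟩).symm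
  have hEb : ∀ b ∈ X.B, ∀ x ∈ E.R, X.IsEnd (fun ζ => x • E.s b ζ) E.Y := fun b hb x hx =>
    ⟨(E.s_cont b hb).const_smul x, Or.inl ⟨b, hb, fun ζ hζ => by
      rw [hlam x (E.R_mem x hx), E.s_lam b hb ζ hζ]⟩⟩
  have hEi : ∀ x ∈ E.R, X.IsEnd (fun ζ => x • E.s' ζ) E.Y := fun x hx =>
    ⟨E.s'_cont.const_smul x, Or.inr fun ζ hζ => by
      rw [hlam x (E.R_mem x hx), E.s'_lam ζ hζ]⟩
  obtain ⟨a, ha, hav⟩ := exists_sym X E.R E.R_mem E.R_unique Φ hol inv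
  -- a uniform bound near an end
  have unif : ∀ s : SL(2, ℝ) → ℂ → ℍ, (∀ x ∈ E.R, X.IsEnd (s x) E.Y) →
      ∃ K Y' : ℝ, E.Y ≤ Y' ∧ ∀ x ∈ E.R, ∀ ζ : ℂ, Y' < ζ.im → ‖Φ (s x ζ)‖ ≤ K := by
    intro s hs
    choose! K Y' hK using fun x (hx : x ∈ E.R) => hb (s x) E.Y (hs x hx)
    obtain ⟨K₀, hK₀⟩ := (E.R.image K).bddAbove
    obtain ⟨Y₀, hY₀⟩ := (E.R.image Y').bddAbove
    refine ⟨K₀, max E.Y Y₀, le_max_left _ _, fun x hx ζ hζ => ?_⟩
    have h1 : K x ≤ K₀ := hK₀ (Finset.mem_coe.2 (Finset.mem_image_of_mem _ hx))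
    have h2 : Y' x ≤ Y₀ := hY₀ (Finset.mem_coe.2 (Finset.mem_image_of_mem _ hx))
    exact (hK x hx ζ (h2.trans_lt ((le_max_right _ _).trans_lt hζ))).trans h1
  have hconst : ∀ j, ∃ c : ℂ, ∀ w ∉ X.B, a j w = c := by
    intro j
    obtain ⟨p, hp, hpe⟩ := rational_of_growth X.B (a j) (ha j) 0 (by
      intro b hbB
      obtain ⟨K, Y', hY', hK⟩ := unif (fun x ζ => x • E.s b ζ) (fun x hx => hEb b hbB x hx)
      obtain ⟨D, -, hD⟩ := EN4_coeff_bound E.R K j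
      refine ⟨D, ?_⟩
      have hpos : 0 < Real.exp (-(2 * Real.pi * Y')) := Real.exp_pos _
      have h1 : ∀ᶠ w in 𝓝[≠] b, ‖w - b‖ < Real.exp (-(2 * Real.pi * Y')) := by
        apply Filter.Eventually.filter_mono nhdsWithin_le_nhds
        have := Metric.ball_mem_nhds b hpos
        filter_upwards [this] with w hw
        rwa [Metric.mem_ball, dist_eq_norm] at hw
      filter_upwards [h1, self_mem_nhdsWithin] with w hw hwb
      have hwb' : w - b ≠ 0 := sub_ne_zero.2 hwb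
      obtain ⟨ζ, hζ, hζi⟩ := EN4_exists_log hwb'
      have hY : Y' < ζ.im := by
        have h2 := EN4_norm_ee ζ
        rw [hζ] at h2
        rw [h2] at hw
        have h3 := Real.exp_lt_exp.1 hw
        have hpi : (0 : ℝ) < 2 * Real.pi := by positivity
        nlinarith
      have h4 : w = X.lam (E.s b ζ) := by
        rw [E.s_lam b hbB ζ (hY'.trans_lt hY), hζ]
        ring
      rw [pow_zero, mul_one, h4, hav]
      exact hD (fun x => Φ (x • E.s b ζ)) fun x hx => hK x hx ζ hY) (by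
      obtain ⟨K, Y', hY', hK⟩ := unif (fun x ζ => x • E.s' ζ) (fun x hx => hEi x hx)
      obtain ⟨D, -, hD⟩ := EN4_coeff_bound E.R K j
      refine ⟨D, ?_⟩
      have h1 : ∀ᶠ w in cocompact ℂ, Real.exp (2 * Real.pi * Y') < ‖w‖ :=
        tendsto_norm_cocompact_atTop.eventually (eventually_gt_atTop _)
      filter_upwards [h1] with w hw
      have hw0 : w ≠ 0 := by
        rintro rfl
        rw [norm_zero] at hw
        exact absurd hw (not_lt.2 (Real.exp_pos _).le)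
      obtain ⟨ζ, hζ, hζi⟩ := EN4_exists_log hw0
      have hY : Y' < (-ζ).im := by
        have h2 := EN4_norm_ee ζ
        rw [hζ] at h2
        rw [h2] at hw
        have h3 := Real.exp_lt_exp.1 hw
        have hpi : (0 : ℝ) < 2 * Real.pi := by positivity
        rw [Complex.neg_im]
        nlinarith
      have h4 : w = X.lam (E.s' (-ζ)) := by
        rw [E.s'_lam (-ζ) (hY'.trans_lt hY), neg_neg, hζ]
      rw [pow_zero, mul_one, h4, hav]
      exact hD (fun x => Φ (x • E.s' (-ζ))) fun x hx => hK x hx (-ζ) hY)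
    rw [zero_mul, Nat.le_zero] at hp
    refine ⟨p.coeff 0, fun w hw => ?_⟩
    have h1 := hpe w hw
    simp only [pow_zero, Finset.prod_const_one, mul_one] at h1
    rw [h1, Polynomial.eq_C_of_natDegree_eq_zero hp]
    simp
  choose c hc using hconst
  have hlamB : ∀ z : ℍ, X.lam z ∉ X.B := by
    intro z
    have : X.lam z ∈ Set.range X.lam := ⟨z, rfl⟩
    rw [X.lam_range] at this
    exact this
  set z₀ : ℍ := UpperHalfPlane.I with hz₀
  set P₀ : ℂ[X] := ∏ x ∈ E.R, (Polynomial.X - C (Φ (x • z₀))) with hP₀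
  have hP : ∀ z : ℍ, (∏ x ∈ E.R, (Polynomial.X - C (Φ (x • z))) : ℂ[X]) = P₀ := by
    intro z
    ext j
    rw [hP₀, ← hav z j, ← hav z₀ j, hc j _ (hlamB z), hc j _ (hlamB z₀)]
  have hP0 : P₀ ≠ 0 := by
    rw [hP₀]
    exact (Polynomial.monic_prod_of_monic _ _ fun x _ => Polynomial.monic_X_sub_C _).ne_zero
  have hroot : ∀ z : ℍ, Φ z ∈ P₀.roots.toFinset := by
    intro z
    rw [Multiset.mem_toFinset, Polynomial.mem_roots hP0, ← hP z, Polynomial.IsRoot.def,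
      Polynomial.eval_prod]
    obtain ⟨x, ⟨hx, p, hp, h1⟩, -⟩ := E.R_unique 1 X.G.one_mem
    refine Finset.prod_eq_zero hx ?_
    have h2 : x = p⁻¹ := (inv_eq_of_mul_eq_one_right h1.symm).symm
    rw [h2, inv _ (X.P.inv_mem hp)]
    simp
  have hcont : Continuous Φ := by
    rw [continuous_iff_continuousAt]
    intro z
    have h1 := (hol z).continuousAt.comp (f := fun y : ℍ => (y : ℂ)) (x := z)
      continuous_coe.continuousAt
    have h2 : ((fun w : ℂ => Φ (ofComplex w)) ∘ fun y : ℍ => (y : ℂ)) = Φ := by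
      funext y
      show Φ (ofComplex (y : ℂ)) = Φ y
      rw [ofComplex_apply]
    rwa [h2] at h1
  have hpre : IsPreconnected (Set.range Φ) := by
    rw [← Set.image_univ]
    exact isPreconnected_univ.image Φ hcont.continuousOn
  have hfin : (Set.range Φ).Finite :=
    (Finset.finite_toSet P₀.roots.toFinset).subset (by
      rintro _ ⟨z, rfl⟩
      exact Finset.mem_coe.2 (hroot z))
  refine ⟨Φ z₀, fun z => ?_⟩
  by_contra hne
  exact (hpre.infinite_of_nontrivial ⟨Φ z, ⟨z, rfl⟩, Φ z₀, ⟨z₀, rfl⟩, hne⟩) hfin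

theorem EN5_coeff {ι : Type*} [DecidableEq ι] (R : Finset ι) (c : ι → ℂ) (j : ℕ) :
    ‖(∏ x ∈ R, (Polynomial.X - C (c x)) : ℂ[X]).coeff j‖ ≤ ∏ x ∈ R, (1 + ‖c x‖) := by
  induction R using Finset.induction_on generalizing j with
  | empty =>
    rw [Finset.prod_empty, Finset.prod_empty, coeff_one]
    split_ifs <;> simp
  | insert a R ha ih =>
    rw [Finset.prod_insert ha, Finset.prod_insert ha, mul_comm (Polynomial.X - C (c a)), mul_sub,
      coeff_sub, coeff_mul_C]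
    have h0 : 0 ≤ ∏ x ∈ R, (1 + ‖c x‖) := Finset.prod_nonneg fun x _ => by positivity
    have h1 : ‖((∏ x ∈ R, (Polynomial.X - C (c x)) : ℂ[X]) * Polynomial.X).coeff j‖ ≤
        ∏ x ∈ R, (1 + ‖c x‖) := by
      cases j with
      | zero => rw [coeff_mul_X_zero, norm_zero]; exact h0
      | succ j => rw [coeff_mul_X]; exact ih j
    refine (norm_sub_le _ _).trans ?_
    rw [norm_mul, add_mul, one_mul, mul_comm ‖c a‖]
    exact add_le_add h1 (mul_le_mul_of_nonneg_right (ih j) (norm_nonneg _))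

theorem EN5_norm_ee (z : ℂ) : ‖ee z‖ = Real.exp (-(2 * Real.pi * z.im)) := by
  rw [ee, Complex.norm_exp]
  congr 1
  simp [Complex.mul_re, Complex.mul_im]

theorem EN5_surj {w : ℂ} (hw : w ≠ 0) : ∃ ζ : ℂ, ee ζ = w := by
  refine ⟨Complex.log w / (2 * Real.pi * Complex.I), ?_⟩
  rw [ee, mul_div_cancel₀ _ Complex.two_pi_I_ne_zero, Complex.exp_log hw]

/-- The growth of the coefficients at an end. -/
theorem EN5_end (X : Curve) (R : Finset SL(2, ℝ)) (hR : ∀ x ∈ R, x ∈ X.G) (Φ : ℍ → ℂ)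
    (hb : ∀ (s : ℂ → ℍ) (Y : ℝ), X.IsEnd s Y → ∃ C Y' : ℝ, ∀ ζ : ℂ, Y' < ζ.im →
      ‖Φ (s ζ)‖ ≤ Real.exp (C * ζ.im)) {s : ℂ → ℍ} {Y : ℝ} (hs : X.IsEnd s Y) :
    ∃ (N : ℕ) (Y' : ℝ), 0 ≤ Y' ∧ Y ≤ Y' ∧ ∀ ζ : ℂ, Y' < ζ.im → ∀ j : ℕ,
      ‖(∏ x ∈ R, (Polynomial.X - C (Φ (x • s ζ))) : ℂ[X]).coeff j‖ ≤
        2 ^ R.card * Real.exp (2 * Real.pi * ζ.im) ^ N := by
  classical
  have h1 : ∀ x : R, ∃ C Y' : ℝ, ∀ ζ : ℂ, Y' < ζ.im →
      ‖Φ ((x : SL(2, ℝ)) • s ζ)‖ ≤ Real.exp (C * ζ.im) := fun x =>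
    hb (fun ζ => (x : SL(2, ℝ)) • s ζ) Y (hs.smul (hR x x.2))
  choose A B hAB using h1
  set M : ℝ := ∑ x : R, |A x| with hM
  set Y0 : ℝ := |Y| + ∑ x : R, |B x| with hY0
  have hM0 : 0 ≤ M := Finset.sum_nonneg fun x _ => abs_nonneg _
  have hA : ∀ x : R, A x ≤ M := fun x => (le_abs_self _).trans
    (Finset.single_le_sum (f := fun x : R => |A x|) (fun y _ => abs_nonneg _) (Finset.mem_univ x))
  have hB0 : 0 ≤ ∑ x : R, |B x| := Finset.sum_nonneg fun x _ => abs_nonneg _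
  have hB : ∀ x : R, B x ≤ Y0 := fun x => by
    have h2 : |B x| ≤ ∑ x : R, |B x| :=
      Finset.single_le_sum (f := fun x : R => |B x|) (fun y _ => abs_nonneg _) (Finset.mem_univ x)
    have h3 := le_abs_self (B x)
    have h4 := abs_nonneg Y
    linarith
  obtain ⟨K, hK⟩ := exists_nat_ge M
  refine ⟨K * R.card, Y0, by positivity, ?_, fun ζ hζ j => ?_⟩
  · have h3 := le_abs_self Y
    linarith
  · have hζ0 : 0 ≤ ζ.im := by
      have : 0 ≤ Y0 := by positivity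
      linarith
    have hexp : (1 : ℝ) ≤ Real.exp (2 * Real.pi * ζ.im) ^ K :=
      one_le_pow₀ (Real.one_le_exp (by positivity))
    have hx : ∀ x ∈ R, 1 + ‖Φ (x • s ζ)‖ ≤ 2 * Real.exp (2 * Real.pi * ζ.im) ^ K := by
      intro x hx
      have h2 := hAB ⟨x, hx⟩ ζ (lt_of_le_of_lt (hB ⟨x, hx⟩) hζ)
      have h3 : A ⟨x, hx⟩ * ζ.im ≤ K * (2 * Real.pi * ζ.im) := by
        have h4 : A ⟨x, hx⟩ ≤ K := (hA ⟨x, hx⟩).trans hK
        have h5 : A ⟨x, hx⟩ * ζ.im ≤ K * ζ.im := mul_le_mul_of_nonneg_right h4 hζ0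
        have h6 : (1 : ℝ) ≤ 2 * Real.pi := by
          have := Real.pi_gt_three
          linarith
        have h7 : (K : ℝ) * ζ.im ≤ K * (2 * Real.pi * ζ.im) := by
          refine mul_le_mul_of_nonneg_left ?_ (Nat.cast_nonneg K)
          nlinarith
        linarith
      have h8 : Real.exp (A ⟨x, hx⟩ * ζ.im) ≤ Real.exp (2 * Real.pi * ζ.im) ^ K := by
        rw [← Real.exp_nat_mul]
        exact Real.exp_le_exp.2 h3
      have h9 : ‖Φ (x • s ζ)‖ ≤ Real.exp (A ⟨x, hx⟩ * ζ.im) := h2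
      linarith
    refine (EN5_coeff R (fun x => Φ (x • s ζ)) j).trans ?_
    refine (Finset.prod_le_prod (fun x _ => by positivity) hx).trans (le_of_eq ?_)
    rw [Finset.prod_const, mul_pow, ← pow_mul]

/-- An invariant holomorphic function of exponential growth at the ends is algebraic. -/
theorem algebraic_of_growth (X : Curve) (Φ : ℍ → ℂ)
    (hol : ∀ z : ℍ, DifferentiableAt ℂ (fun w : ℂ => Φ (ofComplex w)) z)
    (inv : ∀ g ∈ X.P, ∀ z : ℍ, Φ (g • z) = Φ z)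
    (hb : ∀ (s : ℂ → ℍ) (Y : ℝ), X.IsEnd s Y → ∃ C Y' : ℝ, ∀ ζ : ℂ, Y' < ζ.im →
      ‖Φ (s ζ)‖ ≤ Real.exp (C * ζ.im)) :
    ∃ P : ℂ[X][X], P ≠ 0 ∧ ∀ z : ℍ, EV P (X.lam z) (Φ z) = 0 := by
  classical
  obtain ⟨R, hR, -, hR'⟩ := X.exists_reps
  obtain ⟨a, ha, hac⟩ := exists_sym X R hR hR' Φ hol inv
  -- growth near the punctures
  have hfin : ∀ b ∈ X.B, ∃ N0 : ℕ, ∀ N, N0 ≤ N → ∀ j, ∃ C : ℝ, ∀ᶠ w in 𝓝[≠] b,
      ‖a j w‖ ≤ C * ‖w - b‖⁻¹ ^ N := by
    intro b hbB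
    obtain ⟨s, Y, hs, hs'⟩ := X.exists_end hbB
    have hE : X.IsEnd s Y := ⟨hs, Or.inl ⟨b, hbB, hs'⟩⟩
    obtain ⟨N0, Y', hY0, hYY, hN⟩ := EN5_end X R hR Φ hb hE
    refine ⟨N0, fun N hNN j => ⟨2 ^ R.card, ?_⟩⟩
    have hball : ∀ᶠ w in 𝓝[≠] b, ‖w - b‖ < Real.exp (-(2 * Real.pi * Y')) := by
      have h1 : Tendsto (fun w : ℂ => ‖w - b‖) (𝓝 b) (𝓝 ‖b - b‖) :=
        (continuous_id.sub continuous_const).norm.tendsto b
      rw [sub_self, norm_zero] at h1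
      exact (h1.mono_left nhdsWithin_le_nhds).eventually (gt_mem_nhds (Real.exp_pos _))
    have hne : ∀ᶠ w in 𝓝[≠] b, w ≠ b := self_mem_nhdsWithin
    filter_upwards [hball, hne] with w hw hwb
    obtain ⟨ζ, hζ⟩ := EN5_surj (sub_ne_zero.2 hwb)
    have hnorm : ‖w - b‖ = Real.exp (-(2 * Real.pi * ζ.im)) := by rw [← hζ, EN5_norm_ee]
    have him : Y' < ζ.im := by
      rw [hnorm, Real.exp_lt_exp] at hw
      have hpi := Real.pi_pos
      nlinarith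
    have hl : X.lam (s ζ) = w := by
      rw [hs' ζ (lt_of_le_of_lt hYY him), hζ]
      ring
    have h2 := hN ζ him j
    rw [← hac (s ζ) j, hl] at h2
    refine h2.trans (mul_le_mul_of_nonneg_left ?_ (by positivity))
    have h3 : ‖w - b‖⁻¹ = Real.exp (2 * Real.pi * ζ.im) := by
      rw [hnorm, ← Real.exp_neg, neg_neg]
    rw [h3]
    refine pow_le_pow_right₀ (Real.one_le_exp ?_) hNN
    have : 0 ≤ ζ.im := by linarith
    positivity
  have hinf : ∃ N0 : ℕ, ∀ N, N0 ≤ N → ∀ j, ∃ C : ℝ, ∀ᶠ w in cocompact ℂ,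
      ‖a j w‖ ≤ C * ‖w‖ ^ N := by
    obtain ⟨s, Y, hs, hs'⟩ := X.exists_end_infty
    have hE : X.IsEnd s Y := ⟨hs, Or.inr hs'⟩
    obtain ⟨N0, Y', hY0, hYY, hN⟩ := EN5_end X R hR Φ hb hE
    refine ⟨N0, fun N hNN j => ⟨2 ^ R.card, ?_⟩⟩
    have hball : ∀ᶠ w in cocompact ℂ, Real.exp (2 * Real.pi * Y') < ‖w‖ :=
      (tendsto_norm_cocompact_atTop (E := ℂ)).eventually (eventually_gt_atTop _)
    filter_upwards [hball] with w hw
    have hw0 : w ≠ 0 := by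
      intro h
      rw [h, norm_zero] at hw
      exact absurd hw (not_lt.2 (Real.exp_pos _).le)
    obtain ⟨ζ', hζ'⟩ := EN5_surj hw0
    obtain ⟨ζ, rfl⟩ : ∃ ζ, ζ' = -ζ := ⟨-ζ', (neg_neg _).symm⟩
    have hnorm : ‖w‖ = Real.exp (2 * Real.pi * ζ.im) := by
      rw [← hζ', EN5_norm_ee, Complex.neg_im]
      congr 1
      ring
    have him : Y' < ζ.im := by
      rw [hnorm, Real.exp_lt_exp] at hw
      have hpi := Real.pi_pos
      nlinarith
    have hl : X.lam (s ζ) = w := by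
      rw [hs' ζ (lt_of_le_of_lt hYY him), hζ']
    have h2 := hN ζ him j
    rw [← hac (s ζ) j, hl] at h2
    refine h2.trans (mul_le_mul_of_nonneg_left ?_ (by positivity))
    rw [hnorm]
    refine pow_le_pow_right₀ (Real.one_le_exp ?_) hNN
    have : 0 ≤ ζ.im := by linarith
    positivity
  choose! Nb hNb using hfin
  obtain ⟨Ni, hNi⟩ := hinf
  set N : ℕ := Ni + ∑ b ∈ X.B, Nb b with hNdef
  have hNb' : ∀ b ∈ X.B, Nb b ≤ N := fun b hbB =>
    (Finset.single_le_sum (f := Nb) (fun _ _ => Nat.zero_le _) hbB).trans (Nat.le_add_left _ _)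
  have hp : ∀ j, ∃ p : ℂ[X], ∀ w ∉ X.B, a j w * ∏ b ∈ X.B, (w - b) ^ N = p.eval w := by
    intro j
    obtain ⟨p, -, hp⟩ := rational_of_growth X.B (a j) (ha j) N
      (fun b hbB => hNb b hbB N (hNb' b hbB) j) (hNi N (Nat.le_add_right _ _) j)
    exact ⟨p, hp⟩
  choose p hp using hp
  set r : ℕ := R.card with hr
  set P : ℂ[X][X] := ∑ j ∈ Finset.range (r + 1), C (p j) * Polynomial.X ^ j with hP
  have hmem : ∀ z : ℍ, X.lam z ∉ X.B := by
    intro z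
    have h1 : X.lam z ∈ Set.range X.lam := ⟨z, rfl⟩
    rw [X.lam_range] at h1
    exact h1
  have hdeg : ∀ z : ℍ, (∏ x ∈ R, (Polynomial.X - C (Φ (x • z))) : ℂ[X]).natDegree = r := by
    intro z
    rw [natDegree_prod_of_monic _ _ fun x _ => monic_X_sub_C _]
    simp [hr]
  refine ⟨P, ?_, fun z => ?_⟩
  · intro h0
    have hc : P.coeff r = p r := by
      rw [hP, finsetSum_coeff]
      rw [Finset.sum_eq_single r]
      · rw [coeff_C_mul, coeff_X_pow, if_pos rfl, mul_one]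
      · intro j _ hj
        rw [coeff_C_mul, coeff_X_pow, if_neg hj.symm, mul_zero]
      · intro h
        exact absurd (Finset.mem_range.2 (Nat.lt_succ_self r)) h
    rw [h0, coeff_zero] at hc
    have hz := hmem UpperHalfPlane.I
    have h1 := hp r (X.lam UpperHalfPlane.I) hz
    rw [← hc, eval_zero, hac] at h1
    have hmon : (∏ x ∈ R, (Polynomial.X - C (Φ (x • UpperHalfPlane.I))) : ℂ[X]).Monic :=
      monic_prod_of_monic _ _ fun x _ => monic_X_sub_C _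
    have h2 : (∏ x ∈ R, (Polynomial.X - C (Φ (x • UpperHalfPlane.I))) : ℂ[X]).coeff r = 1 := by
      rw [← hdeg UpperHalfPlane.I]
      exact hmon.coeff_natDegree
    rw [h2, one_mul] at h1
    obtain ⟨b, hbB, hb0⟩ := Finset.prod_eq_zero_iff.1 h1
    have h3 : X.lam UpperHalfPlane.I - b = 0 := eq_zero_of_pow_eq_zero hb0
    rw [sub_eq_zero] at h3
    exact hz (h3 ▸ hbB)
  · have h1 : EV P (X.lam z) (Φ z) =
        ∑ j ∈ Finset.range (r + 1), (p j).eval (X.lam z) * Φ z ^ j := by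
      rw [EV, hP, eval₂_finsetSum]
      refine Finset.sum_congr rfl fun j _ => ?_
      rw [eval₂_mul, eval₂_C, eval₂_pow, eval₂_X, coe_eval₂RingHom]
      rfl
    have h2 : ∀ j, (p j).eval (X.lam z) =
        (∏ b ∈ X.B, (X.lam z - b) ^ N) *
          (∏ x ∈ R, (Polynomial.X - C (Φ (x • z))) : ℂ[X]).coeff j := by
      intro j
      rw [← hp j _ (hmem z), hac, mul_comm]
    have h3 : (∏ x ∈ R, (Polynomial.X - C (Φ (x • z))) : ℂ[X]).eval (Φ z) = 0 := by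
      obtain ⟨x, ⟨hx, g, hg, hgx⟩, -⟩ := hR' 1 X.G.one_mem
      rw [eval_prod]
      refine Finset.prod_eq_zero hx ?_
      have h4 : x = g⁻¹ := eq_inv_of_mul_eq_one_right hgx.symm
      have h5 : Φ (x • z) = Φ z := inv x (by rw [h4]; exact X.P.inv_mem hg) z
      rw [eval_sub, eval_X, eval_C, h5, sub_self]
    rw [h1, Finset.sum_congr rfl fun j _ => by rw [h2 j, mul_assoc], ← Finset.mul_sum,
      ← eval_eq_sum_range' (by rw [hdeg z]; exact Nat.lt_succ_self r), h3, mul_zero]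

theorem EN6_two_pi_I_ne : (2 * Real.pi * Complex.I : ℂ) ≠ 0 := by
  simp [Real.pi_ne_zero]

theorem EN6_exists_ee {w : ℂ} (hw : w ≠ 0) :
    ∃ ζ : ℂ, ee ζ = w ∧ ζ.im = - Real.log ‖w‖ / (2 * Real.pi) := by
  refine ⟨Complex.log w / (2 * Real.pi * Complex.I), ?_, ?_⟩
  · rw [ee, mul_div_cancel₀ _ EN6_two_pi_I_ne, Complex.exp_log hw]
  · have h1 : Complex.log w / (2 * Real.pi * Complex.I) =
        -Complex.I * (((1 / (2 * Real.pi) : ℝ) : ℂ) * Complex.log w) := by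
      have hpi : (Real.pi : ℂ) ≠ 0 := by exact_mod_cast Real.pi_ne_zero
      push_cast
      field_simp
      rw [Complex.I_sq]
      ring
    rw [h1]
    simp only [Complex.mul_im, Complex.neg_re, Complex.I_re, Complex.neg_im, Complex.I_im,
      Complex.re_ofReal_mul, Complex.log_re]
    ring

theorem EN6_eventually_ee (b : ℂ) (Y : ℝ) :
    ∀ᶠ w in 𝓝[≠] b, ∃ ζ : ℂ, Y < ζ.im ∧ w = b + ee ζ := by
  have h1 : ∀ᶠ w in 𝓝 b, ‖w - b‖ < Real.exp (-(2 * Real.pi * Y)) := by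
    have hc : ContinuousAt (fun w : ℂ => ‖w - b‖) b := by fun_prop
    exact hc.eventually_lt (continuousAt_const (y := Real.exp (-(2 * Real.pi * Y))))
      (by simpa using Real.exp_pos _)
  filter_upwards [h1.filter_mono nhdsWithin_le_nhds, self_mem_nhdsWithin] with w hw hwb
  have hne : w - b ≠ 0 := sub_ne_zero.2 hwb
  obtain ⟨ζ, h2, h3⟩ := EN6_exists_ee hne
  refine ⟨ζ, ?_, ?_⟩
  · rw [h3, lt_div_iff₀ (by positivity)]
    have := (Real.log_lt_log (norm_pos_iff.2 hne) hw)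
    rw [Real.log_exp] at this
    linarith
  · rw [h2, add_sub_cancel]

theorem EN6_eventually_ee_infty (Y : ℝ) :
    ∀ᶠ w in cocompact ℂ, ∃ ζ : ℂ, Y < ζ.im ∧ w = ee (-ζ) := by
  have h1 : ∀ᶠ w : ℂ in cocompact ℂ, Real.exp (2 * Real.pi * Y) < ‖w‖ :=
    (tendsto_norm_cocompact_atTop).eventually_gt_atTop _
  filter_upwards [h1] with w hw
  have hne : w ≠ 0 := by
    rw [← norm_pos_iff]
    exact (Real.exp_pos _).trans hw
  obtain ⟨ζ, h2, h3⟩ := EN6_exists_ee hne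
  refine ⟨-ζ, ?_, ?_⟩
  · rw [Complex.neg_im, h3, neg_div, neg_neg, lt_div_iff₀ (by positivity)]
    have := (Real.log_lt_log (Real.exp_pos _) hw)
    rw [Real.log_exp] at this
    linarith
  · rw [neg_neg, h2]

/-- The points of the plane over which there is a point of `Z`. -/
theorem EN6_finite_image (X : Curve) (E : X.Ends) (Z : Set ℍ)
    (inv : ∀ g ∈ X.P, ∀ z : ℍ, g • z ∈ Z ↔ z ∈ Z)
    (loc : ∀ z : ℍ, ∀ᶠ w in 𝓝[≠] (z : ℂ), ofComplex w ∉ Z)
    (hb : ∀ b ∈ X.B, ∀ x ∈ E.R, ∃ Y' : ℝ, ∀ ζ : ℂ, Y' < ζ.im → x • E.s b ζ ∉ Z)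
    (hi : ∀ x ∈ E.R, ∃ Y' : ℝ, ∀ ζ : ℂ, Y' < ζ.im → x • E.s' ζ ∉ Z) :
    {w : ℂ | ∃ z : ℍ, X.lam z = w ∧ z ∈ Z}.Finite := by
  classical
  -- all points over `lam u`
  have hrep : ∀ u z : ℍ, X.lam u = X.lam z → ∃ x ∈ E.R, (z ∈ Z → x • u ∈ Z) := by
    intro u z h
    obtain ⟨g, hg, hgz⟩ := (X.lam_fib u z).1 h
    obtain ⟨x, ⟨hx, p, hp, hgp⟩, -⟩ := E.R_unique g hg
    refine ⟨x, hx, fun hz => ?_⟩
    rw [← hgz, hgp, mul_smul] at hz
    exact (inv p hp _).1 hz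
  -- a common bound
  have hbd : ∀ q : SL(2, ℝ) → ℂ → Prop, (∀ x ∈ E.R, ∃ Y' : ℝ, ∀ ζ : ℂ, Y' < ζ.im → q x ζ) →
      ∃ Y' : ℝ, E.Y < Y' ∧ ∀ x ∈ E.R, ∀ ζ : ℂ, Y' < ζ.im → q x ζ := by
    intro q hq
    choose! T hT using hq
    obtain ⟨W, hW⟩ := (E.R.image T).bddAbove
    refine ⟨max W (E.Y + 1), lt_of_lt_of_le (lt_add_one _) (le_max_right _ _), ?_⟩
    intro x hx ζ hζ
    refine hT x hx ζ (lt_of_le_of_lt ?_ hζ)
    exact (hW (Finset.mem_coe.2 (Finset.mem_image_of_mem _ hx))).trans (le_max_left _ _)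
  have hfin := Pool.Agent.LibUB33.finite_bad (fun w => ∀ z : ℍ, X.lam z = w → z ∉ Z) ?_ ?_
  · refine hfin.subset ?_
    rintro w ⟨z, hz, hm⟩ h
    exact h z hz hm
  · intro w
    by_cases hw : w ∈ X.B
    · obtain ⟨Y', hY, hY'⟩ := hbd (fun x ζ => x • E.s w ζ ∉ Z) (hb w hw)
      filter_upwards [EN6_eventually_ee w Y'] with w' hw' z hz hzZ
      obtain ⟨ζ, hζ, hζw⟩ := hw'
      have h1 : X.lam (E.s w ζ) = X.lam z := by
        rw [E.s_lam w hw ζ (hY.trans hζ), hz, hζw]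
      obtain ⟨x, hx, hxm⟩ := hrep _ _ h1
      exact hY' x hx ζ hζ (hxm hzZ)
    · have hr : w ∈ Set.range X.lam := by rw [X.lam_range]; exact hw
      obtain ⟨z₀, rfl⟩ := hr
      obtain ⟨φ, hφ0, hφ, -⟩ := X.exists_local_section z₀
      have hφc : ContinuousAt φ (X.lam z₀) := hφ.self_of_nhds.1.continuousAt
      have hφ0' : 0 < (φ (X.lam z₀)).im := by rw [hφ0]; exact z₀.im_pos
      have hofc : ContinuousAt (fun w' => ofComplex (φ w')) (X.lam z₀) :=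
        ContinuousAt.comp (g := fun z : ℂ => ofComplex z)
          ((mdifferentiableAt_ofComplex hφ0').continuousAt) hφc
      have hof0 : ofComplex (φ (X.lam z₀)) = z₀ := by rw [hφ0, ofComplex_apply]
      have hT : ∀ x : SL(2, ℝ), x ∈ E.R → Tendsto (fun w' => ((x • ofComplex (φ w') : ℍ) : ℂ))
          (𝓝[≠] (X.lam z₀)) (𝓝[≠] ((x • z₀ : ℍ) : ℂ)) := by
        intro x _
        apply tendsto_nhdsWithin_of_tendsto_nhds_of_eventually_within
        · have h1 : ContinuousAt (fun w' => ((x • ofComplex (φ w') : ℍ) : ℂ)) (X.lam z₀) :=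
            UpperHalfPlane.continuous_coe.continuousAt.comp
              ((continuous_const_smul x).continuousAt.comp hofc)
          have h2 := h1.tendsto
          simp only [hof0] at h2
          exact h2.mono_left nhdsWithin_le_nhds
        · filter_upwards [hφ.filter_mono nhdsWithin_le_nhds, self_mem_nhdsWithin] with w' h1 h2
          intro h3
          apply h2
          have h4 : x • ofComplex (φ w') = x • z₀ := UpperHalfPlane.ext h3
          have h5 : ofComplex (φ w') = z₀ := MulAction.injective x h4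
          show w' = X.lam z₀
          rw [← h1.2.2, h5]
      have hall : ∀ᶠ w' in 𝓝[≠] (X.lam z₀), ∀ x ∈ E.R, x • ofComplex (φ w') ∉ Z := by
        rw [Filter.eventually_all_finset]
        intro x hx
        have h1 := (hT x hx).eventually (loc (x • z₀))
        filter_upwards [h1] with w' h2
        rwa [ofComplex_apply] at h2
      filter_upwards [hall, hφ.filter_mono nhdsWithin_le_nhds] with w' h1 h2 z hz hzZ
      have h3 : X.lam (ofComplex (φ w')) = X.lam z := by rw [h2.2.2, hz]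
      obtain ⟨x, hx, hxm⟩ := hrep _ _ h3
      exact h1 x hx (hxm hzZ)
  · obtain ⟨Y', hY, hY'⟩ := hbd (fun x ζ => x • E.s' ζ ∉ Z) hi
    filter_upwards [EN6_eventually_ee_infty Y'] with w' hw' z hz hzZ
    obtain ⟨ζ, hζ, hζw⟩ := hw'
    have h1 : X.lam (E.s' ζ) = X.lam z := by
      rw [E.s'_lam ζ (hY.trans hζ), hz, hζw]
    obtain ⟨x, hx, hxm⟩ := hrep _ _ h1
    exact hY' x hx ζ hζ (hxm hzZ)

/-- Finiteness from local finiteness and the behaviour at the ends. -/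
theorem finite_of_local (X : Curve) (Z : Set ℍ)
    (inv : ∀ g ∈ X.P, ∀ z : ℍ, g • z ∈ Z ↔ z ∈ Z)
    (loc : ∀ z : ℍ, ∀ᶠ w in 𝓝[≠] (z : ℂ), ofComplex w ∉ Z)
    (ends : ∀ (s : ℂ → ℍ) (Y : ℝ), X.IsEnd s Y → ∃ Y' : ℝ, ∀ ζ : ℂ, Y' < ζ.im → s ζ ∉ Z) :
    ((fun z : ℍ => (Quotient.mk'' z : X.Pts)) '' Z).Finite := by
  classical
  obtain ⟨E⟩ := X.nonempty_ends
  have hlam : ∀ g ∈ X.G, ∀ z : ℍ, X.lam (g • z) = X.lam z := fun g hg z =>
    ((X.lam_fib z (g • z)).2 ⟨g, hg, rfl⟩).symm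
  have hEb : ∀ b ∈ X.B, ∀ x ∈ E.R, X.IsEnd (fun ζ => x • E.s b ζ) E.Y := fun b hb x hx =>
    ⟨(E.s_cont b hb).const_smul x, Or.inl ⟨b, hb, fun ζ hζ => by
      rw [hlam x (E.R_mem x hx), E.s_lam b hb ζ hζ]⟩⟩
  have hEi : ∀ x ∈ E.R, X.IsEnd (fun ζ => x • E.s' ζ) E.Y := fun x hx =>
    ⟨E.s'_cont.const_smul x, Or.inr fun ζ hζ => by
      rw [hlam x (E.R_mem x hx), E.s'_lam ζ hζ]⟩
  have hfin : {w : ℂ | ∃ z : ℍ, X.lam z = w ∧ z ∈ Z}.Finite :=
    EN6_finite_image X E Z inv loc (fun b hb x hx => ends _ _ (hEb b hb x hx))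
      (fun x hx => ends _ _ (hEi x hx))
  have hex : ∀ u : ℂ, (∃ z : ℍ, X.lam z = u) → ∃ z : ℍ, X.lam z = u := fun _ h => h
  choose! sec hsec using hex
  refine ((hfin.prod (Finset.finite_toSet E.R)).image
    fun q : ℂ × SL(2, ℝ) => (Quotient.mk'' (q.2 • sec q.1) : X.Pts)).subset ?_
  rintro q ⟨z, hz, rfl⟩
  have h1 : X.lam (sec (X.lam z)) = X.lam z := hsec _ ⟨z, rfl⟩
  obtain ⟨g, hg, hgz⟩ := (X.lam_fib _ _).1 h1
  obtain ⟨x, ⟨hx, p, hp, hgp⟩, -⟩ := E.R_unique g hg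
  refine ⟨(X.lam z, x), ⟨⟨z, rfl, hz⟩, hx⟩, ?_⟩
  simp only []
  apply Quotient.sound
  show MulAction.orbitRel X.P ℍ _ _
  rw [MulAction.orbitRel_apply]
  refine ⟨⟨p⁻¹, X.P.inv_mem hp⟩, ?_⟩
  show p⁻¹ • z = x • sec (X.lam z)
  rw [inv_smul_eq_iff, ← mul_smul, ← hgp]
  exact hgz.symm

theorem EN7_jInv_smul (M : SL(2, ℤ)) (z : ℍ) : LibUB33.jInv (M • z) = LibUB33.jInv z := by
  have hdet : (M 0 0) * M 1 1 - M 0 1 * M 1 0 = 1 := by
    have := M.2
    rwa [Matrix.det_fin_two] at this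
  have h4 : ((M • z : ℍ) : ℂ) =
      ((M 0 0 : ℤ) * (z : ℂ) + (M 0 1 : ℤ)) / ((M 1 0 : ℤ) * (z : ℂ) + (M 1 1 : ℤ)) := by
    rw [coe_specialLinearGroup_apply]
    simp
  rw [← LibUB33.jForm_eq_zero_iff, h4, LibUB33.jForm_smul _ _ _ _ _ hdet z.im_pos,
    (LibUB33.jForm_eq_zero_iff _ z).2 rfl, mul_zero]

theorem EN7_bound {V : Variation k X} {s : ℂ → ℍ} {Y : ℝ} (E : EndForm V s Y) (hm : E.m = 0) :
    ∃ C Y' : ℝ, ∀ ζ : ℂ, Y' < ζ.im → ‖LibUB33.jInv (V.τ (s ζ))‖ ≤ C := by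
  have him := E.hF0 hm
  have hcj : ContinuousAt (fun w : ℂ => LibUB33.jInv (ofComplex w)) (E.F 0) :=
    (LibUB33.jInv_differentiableAt ⟨E.F 0, him⟩).continuousAt
  have hG : ContinuousAt (fun q : ℂ => LibUB33.jInv (ofComplex (E.F q))) 0 :=
    ContinuousAt.comp (f := E.F) (g := fun w : ℂ => LibUB33.jInv (ofComplex w)) hcj
      E.hF.continuousAt
  have h1 : ∀ᶠ q in 𝓝 (0 : ℂ), ‖LibUB33.jInv (ofComplex (E.F q))‖ <
      ‖LibUB33.jInv (ofComplex (E.F 0))‖ + 1 :=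
    hG.norm.eventually_lt_const (lt_add_one _)
  have h2 := ((LibUB33.tendsto_ee E.hn).mono_right nhdsWithin_le_nhds).eventually h1
  rw [Filter.eventually_comap] at h2
  obtain ⟨Y₁, h3⟩ := Filter.eventually_atTop.1 h2
  refine ⟨‖LibUB33.jInv (ofComplex (E.F 0))‖ + 1, max E.Y' Y₁, fun ζ hζ => ?_⟩
  have h4 : E.Y' < ζ.im := lt_of_le_of_lt (le_max_left _ _) hζ
  have h5 : Y₁ < ζ.im := lt_of_le_of_lt (le_max_right _ _) hζ
  have h6 := E.hτ ζ h4
  rw [hm, Nat.cast_zero, zero_mul, zero_add] at h6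
  have h7 : LibUB33.jInv (V.τ (s ζ)) = LibUB33.jInv (ofComplex (E.F (ee (ζ / E.n)))) := by
    rw [← EN7_jInv_smul E.M (V.τ (s ζ)), ← h6, ofComplex_apply]
  rw [h7]
  exact (h3 ζ.im h5.le ζ rfl).le

/-- There is a puncture with infinite monodromy. -/
theorem Variation.exists_infinite_end (V : Variation k X) :
    ∃ (s : ℂ → ℍ) (Y : ℝ) (_ : X.IsEnd s Y) (E : EndForm V s Y), 0 < E.m := by
  by_contra hcon
  push Not at hcon
  obtain ⟨c, hc⟩ := liouville X (fun z => LibUB33.jInv (V.τ z))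
    (fun z => (V.pure.jInv_hasDerivAt z).differentiableAt)
    (fun g hg z => (V.pure.jInv_smul _ ⟨g, hg⟩ z).2 rfl)
    (fun s Y hE => by
      obtain ⟨E⟩ := V.nonempty_endForm hE
      exact EN7_bound E (Nat.le_zero.1 (hcon s Y hE E)))
  obtain ⟨z₀, -⟩ := V.τ_nonconst
  have hτ : AnalyticOnNhd ℂ (fun w : ℂ => (V.τ (ofComplex w) : ℂ)) {w : ℂ | 0 < w.im} := by
    refine DifferentiableOn.analyticOnNhd ?_ (isOpen_lt continuous_const Complex.continuous_im)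
    intro w hw
    have h1 := V.τ_hol ⟨w, hw⟩
    exact h1.differentiableWithinAt
  rcases (hτ z₀ z₀.im_pos).eventually_constant_or_nhds_le_map_nhds with h | h
  · refine V.pure.dτ_not_eventually z₀ ?_
    filter_upwards [h.eventually_nhds] with t ht
    have h1 : (fun w : ℂ => (V.τ (ofComplex w) : ℂ)) =ᶠ[𝓝 t]
        fun _ => (V.τ (ofComplex (z₀ : ℂ)) : ℂ) := ht
    have h2 : deriv (fun w : ℂ => (V.τ (ofComplex w) : ℂ)) t = 0 := by
      rw [h1.deriv_eq]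
      simp
    exact h2
  · have h1 : {t : ℂ | LibUB33.jInv (ofComplex t) = c} ∈
        Filter.map (fun w : ℂ => (V.τ (ofComplex w) : ℂ)) (𝓝 (z₀ : ℂ)) := by
      rw [Filter.mem_map]
      refine Filter.univ_mem' fun w => ?_
      have h2 : LibUB33.jInv (ofComplex (V.τ (ofComplex w) : ℂ)) = c := by
        rw [ofComplex_apply]
        exact hc _
      exact h2
    have h3 := h h1
    rw [ofComplex_apply] at h3
    exact LibUB33.jInv_nonconst (V.τ z₀) c h3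

theorem EN8_entries (M R : SL(2, ℤ)) (m : ℕ) (h : M * R = ModularGroup.T ^ m * M) :
    R 0 0 = 1 + m * (M 1 0 * M 1 1) ∧ R 0 1 = m * M 1 1 ^ 2 ∧ R 1 0 = -(m * M 1 0 ^ 2) ∧
      R 1 1 = 1 - m * (M 1 0 * M 1 1) := by
  have hdet : M 0 0 * M 1 1 - M 0 1 * M 1 0 = 1 := by
    have := M.2
    rwa [Matrix.det_fin_two] at this
  have hT : ((ModularGroup.T ^ m : SL(2, ℤ)) : Matrix (Fin 2) (Fin 2) ℤ) = !![1, (m : ℤ); 0, 1] := by
    have := ModularGroup.coe_T_zpow (m : ℤ)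
    rwa [zpow_natCast] at this
  have hR : ∀ i j, (M * R) i j = (ModularGroup.T ^ m * M) i j := by
    intro i j
    rw [h]
  have e : ∀ (A B : SL(2, ℤ)) (i j : Fin 2), (A * B) i j = A i 0 * B 0 j + A i 1 * B 1 j := by
    intro A B i j
    change ((A * B : SL(2, ℤ)) : Matrix (Fin 2) (Fin 2) ℤ) i j = _
    rw [Matrix.SpecialLinearGroup.coe_mul, Matrix.mul_apply, Fin.sum_univ_two]
  have hT' : ∀ i j, (ModularGroup.T ^ m : SL(2, ℤ)) i j = !![1, (m : ℤ); 0, 1] i j := by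
    intro i j
    change ((ModularGroup.T ^ m : SL(2, ℤ)) : Matrix (Fin 2) (Fin 2) ℤ) i j = _
    rw [hT]
  have h00 := hR 0 0
  have h01 := hR 0 1
  have h10 := hR 1 0
  have h11 := hR 1 1
  simp only [e, hT'] at h00 h01 h10 h11
  simp at h00 h01 h10 h11
  refine ⟨?_, ?_, ?_, ?_⟩
  · linear_combination (M 1 1) * h00 - (M 0 1) * h10 - (R 0 0) * hdet + hdet
  · linear_combination (M 1 1) * h01 - (M 0 1) * h11 - (R 0 1) * hdet
  · linear_combination (M 0 0) * h10 - (M 1 0) * h00 - (R 1 0) * hdet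
  · linear_combination (M 0 0) * h11 - (M 1 0) * h01 - (R 1 1) * hdet + hdet

theorem EN8_bra {M R M' R' : SL(2, ℤ)} {m : ℕ} (hm : 0 < m)
    (h : M * R = ModularGroup.T ^ m * M) (h' : M' * R' = ModularGroup.T ^ m * M')
    (h0 : bra (nb R) (nb R') = 0) : M 1 0 * M' 1 1 = M' 1 0 * M 1 1 := by
  obtain ⟨a1, a2, a3, a4⟩ := EN8_entries M R m h
  obtain ⟨b1, b2, b3, b4⟩ := EN8_entries M' R' m h'
  have e0 := congrFun h0 0
  have e1 := congrFun h0 1
  have e2 := congrFun h0 2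
  simp only [bra, nb, Matrix.cons_val, Pi.zero_apply, a1, a2, a3, a4, b1, b2, b3, b4] at e0 e1 e2
  generalize M 1 0 = c at *
  generalize M 1 1 = d at *
  generalize M' 1 0 = c' at *
  generalize M' 1 1 = d' at *
  have hm' : (m : ℤ) ≠ 0 := by positivity
  have f0 : 2 * (m : ℤ) ^ 2 * (d * d' * (c * d' - c' * d)) = 0 := by
    have : ((2 * (m : ℤ) ^ 2 * (d * d' * (c * d' - c' * d)) : ℤ) : ℂ) = 0 := by
      push_cast at e0 ⊢
      linear_combination e0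
    exact_mod_cast this
  have f1 : 2 * (m : ℤ) ^ 2 * ((c * d' + c' * d) * (c * d' - c' * d)) = 0 := by
    have : ((2 * (m : ℤ) ^ 2 * ((c * d' + c' * d) * (c * d' - c' * d)) : ℤ) : ℂ) = 0 := by
      push_cast at e1 ⊢
      linear_combination e1
    exact_mod_cast this
  have f2 : 2 * (m : ℤ) ^ 2 * (c * c' * (c * d' - c' * d)) = 0 := by
    have : ((2 * (m : ℤ) ^ 2 * (c * c' * (c * d' - c' * d)) : ℤ) : ℂ) = 0 := by
      push_cast at e2 ⊢
      linear_combination e2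
    exact_mod_cast this
  have hm2 : 2 * (m : ℤ) ^ 2 ≠ 0 := by positivity
  rw [mul_eq_zero, or_iff_right hm2] at f0 f1 f2
  by_contra hne
  have hne' : c * d' - c' * d ≠ 0 := sub_ne_zero.mpr hne
  rw [mul_eq_zero, or_iff_left hne'] at f0 f1 f2
  rw [mul_eq_zero] at f0 f2
  rcases f0 with f0 | f0 <;> rcases f2 with f2 | f2 <;> subst f0 <;> subst f2 <;> simp_all

theorem EN8_mob (M B : SL(2, ℤ)) (h : (M * B) 1 0 * M 1 1 = M 1 0 * (M * B) 1 1) (t : ℍ) :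
    ∃ n : ℤ, ((M • B • t : ℍ) : ℂ) = ((M • t : ℍ) : ℂ) + n := by
  set A : SL(2, ℤ) := M * B * M⁻¹ with hA
  have e : ∀ (A B : SL(2, ℤ)) (i j : Fin 2), (A * B) i j = A i 0 * B 0 j + A i 1 * B 1 j := by
    intro A B i j
    change ((A * B : SL(2, ℤ)) : Matrix (Fin 2) (Fin 2) ℤ) i j = _
    rw [Matrix.SpecialLinearGroup.coe_mul, Matrix.mul_apply, Fin.sum_univ_two]
  have i00 : (M⁻¹ : SL(2, ℤ)) 0 0 = M 1 1 := by
    change ((M⁻¹ : SL(2, ℤ)) : Matrix (Fin 2) (Fin 2) ℤ) 0 0 = _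
    rw [Matrix.SpecialLinearGroup.coe_inv, Matrix.adjugate_fin_two]
    simp
  have i10 : (M⁻¹ : SL(2, ℤ)) 1 0 = - M 1 0 := by
    change ((M⁻¹ : SL(2, ℤ)) : Matrix (Fin 2) (Fin 2) ℤ) 1 0 = _
    rw [Matrix.SpecialLinearGroup.coe_inv, Matrix.adjugate_fin_two]
    simp
  have hA10 : A 1 0 = 0 := by
    rw [hA, e, i00, i10]
    linear_combination h
  have hdet : A 0 0 * A 1 1 = 1 := by
    have := A.2
    rw [Matrix.det_fin_two] at this
    change A 0 0 * A 1 1 - A 0 1 * A 1 0 = 1 at this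
    rw [hA10] at this
    linarith
  have hM : M • B • t = A • M • t := by
    rw [hA, ← mul_smul, ← mul_smul]
    congr 1
    group
  refine ⟨A 0 1 * A 1 1, ?_⟩
  rw [hM, UpperHalfPlane.coe_specialLinearGroup_apply]
  generalize ((M • t : ℍ) : ℂ) = w
  simp only [hA10]
  have hd1 : A 1 1 * A 1 1 = 1 := by
    rcases Int.isUnit_iff.mp (IsUnit.of_mul_eq_one _ ((mul_comm _ _).trans hdet)) with h1 | h1 <;>
      rw [h1] <;> norm_num
  have h00 : A 0 0 = A 1 1 := by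
    have : A 0 0 * (A 1 1 * A 1 1) = A 1 1 := by rw [← mul_assoc, hdet, one_mul]
    rwa [hd1, mul_one] at this
  have hd2 : ((A 1 1 : ℤ) : ℂ) * (A 1 1 : ℤ) = 1 := by exact_mod_cast hd1
  have hd3 : ((A 1 1 : ℤ) : ℂ) ≠ 0 := left_ne_zero_of_mul (hd2.trans_ne one_ne_zero)
  simp only [h00]
  simp
  field_simp
  linear_combination (-(A 0 1 : ℂ)) * hd2

theorem EN8_ee_norm (w : ℂ) (hw : 0 < w.im) : ‖ee w‖ ≤ 1 := by
  unfold Pool.Agent.LibUB33.ee
  rw [Complex.norm_exp]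
  have : (2 * Real.pi * Complex.I * w).re = -(2 * Real.pi * w.im) := by
    simp
  rw [this, Real.exp_le_one_iff, neg_nonpos]
  positivity

theorem EN8_ee_int (w : ℂ) (n : ℤ) : ee (w + n) = ee w := by
  unfold Pool.Agent.LibUB33.ee
  rw [mul_add, Complex.exp_add]
  have : Complex.exp (2 * Real.pi * Complex.I * n) = 1 := by
    rw [mul_comm]
    exact Complex.exp_int_mul_two_pi_mul_I n
  rw [this, mul_one]

theorem EN8_hasDeriv (V : Variation k X) (M : SL(2, ℤ)) {w : ℂ} (hw : 0 < w.im) :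
    HasDerivAt (fun u : ℂ => ee ((M • V.τ (ofComplex u) : ℍ) : ℂ))
      (ee ((M • V.τ (ofComplex w) : ℍ) : ℂ) * (2 * Real.pi * Complex.I *
        (deriv V.tauC w / ((M 1 0 : ℂ) * V.tauC w + (M 1 1 : ℂ)) ^ 2))) w := by
  have hT : HasDerivAt V.tauC (deriv V.tauC w) w := by
    have := V.τ_hol ⟨w, hw⟩
    exact this.hasDerivAt
  have hpos : 0 < (V.tauC w).im := (V.τ (ofComplex w)).im_pos
  have hd : (M 1 0 : ℂ) * V.tauC w + (M 1 1 : ℂ) ≠ 0 := by
    have := denom_ne_zero (Matrix.SpecialLinearGroup.mapGL ℝ M) (V.τ (ofComplex w))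
    simpa [denom, Variation.tauC] using this
  have hdet : ((M 0 0 : ℤ) : ℂ) * (M 1 1 : ℤ) - (M 0 1 : ℤ) * (M 1 0 : ℤ) = 1 := by
    have := M.2
    rw [Matrix.det_fin_two] at this
    exact_mod_cast this
  have hform : ∀ u : ℂ, ((M • V.τ (ofComplex u) : ℍ) : ℂ) =
      ((M 0 0 : ℂ) * V.tauC u + (M 0 1 : ℂ)) / ((M 1 0 : ℂ) * V.tauC u + (M 1 1 : ℂ)) := by
    intro u
    rw [UpperHalfPlane.coe_specialLinearGroup_apply]
    simp [Variation.tauC]
  simp only [hform]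
  have h1 := ((hT.const_mul (M 0 0 : ℂ)).add_const (M 0 1 : ℂ)).div
    ((hT.const_mul (M 1 0 : ℂ)).add_const (M 1 1 : ℂ)) hd
  have h2 := (h1.const_mul (2 * Real.pi * Complex.I)).cexp
  refine h2.congr_deriv ?_
  unfold Pool.Agent.LibUB33.ee
  simp only [Pi.div_apply]
  congr 2
  rw [div_left_inj' (pow_ne_zero 2 hd)]
  linear_combination (deriv V.tauC w) * hdet

/-- There are two unipotent elements with different fixed lines. -/
theorem Variation.exists_unipotent (V : Variation k X) :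
    ∃ γ γ' : X.P, V.ρ γ 0 0 + V.ρ γ 1 1 = 2 ∧ V.ρ γ' 0 0 + V.ρ γ' 1 1 = 2 ∧
      bra (nb (V.ρ γ)) (nb (V.ρ γ')) ≠ 0 := by
  obtain ⟨s, Y, hE, E, hm⟩ := V.exists_infinite_end
  by_contra hcon
  push Not at hcon
  obtain ⟨a1, a2, a3, a4⟩ := EN8_entries E.M (V.ρ E.p) E.m E.hρ
  have htr : V.ρ E.p 0 0 + V.ρ E.p 1 1 = 2 := by rw [a1, a4]; ring
  have key : ∀ g : X.P, (E.M * V.ρ g) 1 0 * E.M 1 1 = E.M 1 0 * (E.M * V.ρ g) 1 1 := by
    intro g
    have h' : (E.M * V.ρ g) * V.ρ (g⁻¹ * E.p * g) = ModularGroup.T ^ E.m * (E.M * V.ρ g) := by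
      rw [map_mul, map_mul, map_inv, ← mul_assoc _ E.M, ← E.hρ]
      group
    obtain ⟨b1, b2, b3, b4⟩ := EN8_entries _ _ E.m h'
    have htr' : V.ρ (g⁻¹ * E.p * g) 0 0 + V.ρ (g⁻¹ * E.p * g) 1 1 = 2 := by rw [b1, b4]; ring
    have h0 := hcon E.p (g⁻¹ * E.p * g) htr htr'
    have := EN8_bra hm E.hρ h' h0
    linear_combination -this
  have hc := liouville X (fun z => ee ((E.M • V.τ z : ℍ) : ℂ)) ?_ ?_ ?_
  · obtain ⟨c, hc⟩ := hc
    have hz : ∀ t : ℂ, 0 < t.im → deriv V.tauC t = 0 := by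
      intro t ht
      have h1 := EN8_hasDeriv V E.M ht
      have h2 : HasDerivAt (fun u : ℂ => ee ((E.M • V.τ (ofComplex u) : ℍ) : ℂ)) 0 t := by
        have : (fun u : ℂ => ee ((E.M • V.τ (ofComplex u) : ℍ) : ℂ)) = fun _ => c := by
          funext u
          exact hc _
        rw [this]
        exact hasDerivAt_const _ _
      have h3 := h1.unique h2
      have hd : (E.M 1 0 : ℂ) * V.tauC t + (E.M 1 1 : ℂ) ≠ 0 := by
        have := denom_ne_zero (Matrix.SpecialLinearGroup.mapGL ℝ E.M) (V.τ (ofComplex t))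
        simpa [denom, Variation.tauC] using this
      have hee : ee ((E.M • V.τ (ofComplex t) : ℍ) : ℂ) ≠ 0 := Complex.exp_ne_zero _
      have hpi : (2 * Real.pi * Complex.I : ℂ) ≠ 0 := Complex.two_pi_I_ne_zero
      rw [mul_eq_zero, or_iff_right hee, mul_eq_zero, or_iff_right hpi, div_eq_zero_iff,
        or_iff_left (pow_ne_zero 2 hd)] at h3
      exact h3
    obtain ⟨z, -⟩ := V.τ_nonconst
    apply V.pure.dτ_not_eventually z
    filter_upwards [Pool.Agent.LibUB33.eventually_im_pos z] with t ht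
    exact hz t ht
  · intro z
    exact (EN8_hasDeriv V E.M z.im_pos).differentiableAt
  · intro g hg z
    obtain ⟨n, hn⟩ := EN8_mob E.M (V.ρ ⟨g, hg⟩) (key ⟨g, hg⟩) (V.τ z)
    have h1 : V.τ (g • z) = V.ρ ⟨g, hg⟩ • V.τ z := V.τ_equiv ⟨g, hg⟩ z
    rw [h1, hn, EN8_ee_int]
  · intro s Y _
    exact ⟨1, 0, fun ζ _ => EN8_ee_norm _ (UpperHalfPlane.im_pos _)⟩

end Ends

/-! ## Differentiation and invariants -/

section Base
variable {k : ℕ} {X : Curve}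

theorem BA1_deriv {f : ℂ → ℂ} (hf : ∀ w : ℂ, 0 < w.im → DifferentiableAt ℂ f w) {w : ℂ}
    (hw : 0 < w.im) : AnalyticAt ℂ (deriv f) w := by
  refine AnalyticAt.deriv ?_
  refine DifferentiableOn.analyticAt (s := {w : ℂ | 0 < w.im}) ?_
    ((isOpen_lt continuous_const Complex.continuous_im).mem_nhds hw)
  intro w hw
  exact (hf w hw).differentiableWithinAt

theorem lamC_diff (X : Curve) {w : ℂ} (hw : 0 < w.im) :
    DifferentiableAt ℂ (lamC X) w ∧ deriv (lamC X) w ≠ 0 :=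
  ⟨X.lam_hol ⟨w, hw⟩, X.lam_deriv ⟨w, hw⟩⟩

theorem dx_diff (X : Curve) {f : ℂ → ℂ} (hf : ∀ w : ℂ, 0 < w.im → DifferentiableAt ℂ f w) {w : ℂ}
    (hw : 0 < w.im) : DifferentiableAt ℂ (dx (lamC X) f) w :=
  (BA1_deriv hf hw).differentiableAt.div
    (BA1_deriv (fun _ hu => (lamC_diff X hu).1) hw).differentiableAt (lamC_diff X hw).2

theorem BA1_mob (g : SL(2, ℝ)) {w : ℂ} (hw : 0 < w.im) : DifferentiableAt ℂ (mob g) w :=
  LibUB33.smul_differentiableAt g hw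

theorem BA1_lam (X : Curve) {g : SL(2, ℝ)} (hg : g ∈ X.G) {w : ℂ} (hw : 0 < w.im) :
    deriv (lamC X) (mob g w) * deriv (mob g) w = deriv (lamC X) w := by
  have h := X.dlam_smul hg ⟨w, hw⟩
  have h1 : mob g w = ((g • (⟨w, hw⟩ : ℍ) : ℍ) : ℂ) := by
    unfold mob
    rw [ofComplex_apply_of_im_pos hw]
  rw [h1]
  exact h

theorem BA1_im (g : SL(2, ℝ)) (w : ℂ) : 0 < (mob g w).im := (g • ofComplex w : ℍ).im_pos

theorem dx_mob (X : Curve) {g : SL(2, ℝ)} (hg : g ∈ X.G) {f : ℂ → ℂ}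
    (hf : ∀ w : ℂ, 0 < w.im → DifferentiableAt ℂ f w) {w : ℂ} (hw : 0 < w.im) :
    dx (lamC X) (fun u => f (mob g u)) w = dx (lamC X) f (mob g w) := by
  have h1 := BA1_lam X hg hw
  have h2 : deriv (fun u => f (mob g u)) w = deriv f (mob g w) * deriv (mob g) w :=
    ((hf _ (BA1_im g w)).hasDerivAt.comp w (BA1_mob g hw).hasDerivAt).deriv
  have h3 := (lamC_diff X hw).2
  have h4 := (lamC_diff X (BA1_im g w)).2
  unfold dx
  rw [h2, div_eq_div_iff h3 h4, ← h1]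
  ring

theorem Variation.tauC_diff (V : Variation k X) {w : ℂ} (hw : 0 < w.im) :
    DifferentiableAt ℂ V.tauC w ∧ 0 < (V.tauC w).im :=
  ⟨V.τ_hol ⟨w, hw⟩, (V.τ (ofComplex w)).im_pos⟩

theorem Variation.vC_diff (V : Variation k X) (j : Fin (k + 1)) {w : ℂ} (hw : 0 < w.im) :
    DifferentiableAt ℂ (V.vC j) w := by
  obtain ⟨g, hg⟩ := V.transversal ⟨w, hw⟩
  exact (hasDerivAt_pi.1 hg j).differentiableAt

/-- The period is locally nonconstant. -/
theorem Variation.t1_ne (V : Variation k X) {w : ℂ} (hw : 0 < w.im) :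
    ∀ᶠ u in 𝓝[≠] w, V.t1 u ≠ 0 ∧ deriv V.tauC u ≠ 0 := by
  have h1 : AnalyticAt ℂ (deriv V.tauC) w := BA1_deriv (fun _ hu => (V.tauC_diff hu).1) hw
  have h2 : ∀ᶠ u in 𝓝[≠] w, deriv V.tauC u ≠ 0 :=
    h1.eventually_eq_zero_or_eventually_ne_zero.resolve_left fun h =>
      V.pure.dτ_not_eventually ⟨w, hw⟩ h
  have h3 : ∀ᶠ u in 𝓝[≠] w, 0 < u.im := nhdsWithin_le_nhds
    ((isOpen_lt continuous_const Complex.continuous_im).mem_nhds hw)
  filter_upwards [h2, h3] with u hu hu'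
  exact ⟨div_ne_zero hu (lamC_diff X hu').2, hu⟩

theorem BA2_last (k : ℕ) (t : ℂ) : frm k t t k (Fin.last k) = 1 := by
  unfold frm
  rw [Nat.sub_self, pow_zero, mul_one, Fin.val_last]
  have h1 : ((Polynomial.X - C t) ^ k : ℂ[X]).natDegree = k := by
    rw [Polynomial.natDegree_pow, Polynomial.natDegree_X_sub_C, mul_one]
  have h2 : ((Polynomial.X - C t) ^ k : ℂ[X]).Monic := (Polynomial.monic_X_sub_C t).pow k
  have h3 := h2.coeff_natDegree
  rw [h1] at h3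
  exact h3

theorem BA2_deriv (V : Variation k X) {w : ℂ} (hw : 0 < w.im) :
    ∃ g : ℂ, ∀ j, deriv (V.vC j) w = g * frm k (V.tauC w) (V.tauC w) k j := by
  obtain ⟨g, hg⟩ := V.transversal ⟨w, hw⟩
  refine ⟨g, fun j => ?_⟩
  have h1 := (hasDerivAt_pi.1 hg j).deriv
  have h2 : ofComplex w = ⟨w, hw⟩ := UpperHalfPlane.ofComplex_apply_of_im_pos hw
  unfold Variation.tauC
  rw [h2]
  exact h1

/-- The derivatives of the extension period. -/
theorem Variation.dx_vC (V : Variation k X) (j : Fin (k + 1)) {w : ℂ} (hw : 0 < w.im) :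
    dx (lamC X) (V.vC j) w = V.gC w * frm k (V.tauC w) (V.tauC w) k j := by
  obtain ⟨g, hg⟩ := BA2_deriv V hw
  unfold Variation.gC dx
  rw [hg j, hg (Fin.last k), BA2_last]
  ring

theorem BA3_hasDeriv (X : Curve) {f : ℂ → ℂ} {w : ℂ} (hw : 0 < w.im)
    (hf : DifferentiableAt ℂ f w) :
    HasDerivAt f (dx (lamC X) f w * deriv (lamC X) w) w := by
  have h := hf.hasDerivAt
  have hL := (lamC_diff X hw).2
  have e : dx (lamC X) f w * deriv (lamC X) w = deriv f w := by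
    unfold dx
    field_simp
  rwa [e]

theorem BA3_dx_eq (X : Curve) {f F : ℂ → ℂ} {w F' : ℂ} (hw : 0 < w.im)
    (hf : ∀ u : ℂ, 0 < u.im → f u = F u) (hF : HasDerivAt F (F' * deriv (lamC X) w) w) :
    dx (lamC X) f w = F' := by
  have hL := (lamC_diff X hw).2
  have h1 : f =ᶠ[𝓝 w] F := by
    filter_upwards [(isOpen_lt continuous_const Complex.continuous_im).mem_nhds hw] with u hu
    exact hf u hu
  have h2 : deriv f w = F' * deriv (lamC X) w := by rw [h1.deriv_eq, hF.deriv]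
  unfold dx
  rw [h2]
  field_simp

theorem BA3_step (X : Curve) {g : SL(2, ℝ)} (hg : g ∈ X.G) {f F : ℂ → ℂ}
    (hf : ∀ w : ℂ, 0 < w.im → DifferentiableAt ℂ f w) {w F' : ℂ} (hw : 0 < w.im)
    (hfF : ∀ u : ℂ, 0 < u.im → f (mob g u) = F u)
    (hF : HasDerivAt F (F' * deriv (lamC X) w) w) :
    dx (lamC X) f (mob g w) = F' := by
  rw [← dx_mob X hg hf hw]
  exact BA3_dx_eq X hw hfF hF

/-- The transformation of the derivatives of the period. -/
theorem Variation.t_smul (V : Variation k X) (γ : X.P) {w : ℂ} (hw : 0 < w.im) :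
    V.jf γ w ≠ 0 ∧
    V.tauC (mob (γ : SL(2, ℝ)) w) = ((V.ρ γ 0 0 : ℂ) * V.tauC w + (V.ρ γ 0 1 : ℂ)) / V.jf γ w ∧
    V.t1 (mob (γ : SL(2, ℝ)) w) = V.t1 w / V.jf γ w ^ 2 ∧
    V.t2 (mob (γ : SL(2, ℝ)) w) = V.t2 w / V.jf γ w ^ 2 -
      2 * (V.ρ γ 1 0 : ℂ) * V.t1 w ^ 2 / V.jf γ w ^ 3 ∧
    V.t3 (mob (γ : SL(2, ℝ)) w) = V.t3 w / V.jf γ w ^ 2 -
      6 * (V.ρ γ 1 0 : ℂ) * V.t1 w * V.t2 w / V.jf γ w ^ 3 +
      6 * (V.ρ γ 1 0 : ℂ) ^ 2 * V.t1 w ^ 3 / V.jf γ w ^ 4 := by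
  have hg : (γ : SL(2, ℝ)) ∈ X.G := X.P_le γ.2
  have hj : ∀ u : ℂ, V.jf γ u ≠ 0 := by
    intro u
    have := denom_ne_zero (Matrix.SpecialLinearGroup.mapGL ℝ (V.ρ γ)) (V.τ (ofComplex u))
    simpa [denom, Variation.jf, Variation.tauC] using this
  have hdet : (V.ρ γ 0 0 : ℂ) * (V.ρ γ 1 1 : ℂ) - (V.ρ γ 0 1 : ℂ) * (V.ρ γ 1 0 : ℂ) = 1 := by
    have := (V.ρ γ).2
    rw [Matrix.det_fin_two] at this
    exact_mod_cast this
  have h0 : ∀ u : ℂ, 0 < u.im → V.tauC (mob (γ : SL(2, ℝ)) u) =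
      ((V.ρ γ 0 0 : ℂ) * V.tauC u + (V.ρ γ 0 1 : ℂ)) / V.jf γ u := by
    intro u hu
    unfold Variation.tauC mob Variation.jf Variation.tauC
    rw [ofComplex_apply, V.τ_equiv γ, UpperHalfPlane.coe_specialLinearGroup_apply]
    simp
  have dT : ∀ u : ℂ, 0 < u.im → DifferentiableAt ℂ V.tauC u := fun u hu => (V.tauC_diff hu).1
  have d1 : ∀ u : ℂ, 0 < u.im → DifferentiableAt ℂ V.t1 u := fun u hu => dx_diff X dT hu
  have d2 : ∀ u : ℂ, 0 < u.im → DifferentiableAt ℂ V.t2 u := fun u hu => dx_diff X d1 hu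
  have hT : ∀ u : ℂ, 0 < u.im → HasDerivAt V.tauC (V.t1 u * deriv (lamC X) u) u :=
    fun u hu => BA3_hasDeriv X hu (dT u hu)
  have h1' : ∀ u : ℂ, 0 < u.im → HasDerivAt V.t1 (V.t2 u * deriv (lamC X) u) u :=
    fun u hu => BA3_hasDeriv X hu (d1 u hu)
  have h2' : ∀ u : ℂ, 0 < u.im → HasDerivAt V.t2 (V.t3 u * deriv (lamC X) u) u :=
    fun u hu => BA3_hasDeriv X hu (d2 u hu)
  have hJ : ∀ u : ℂ, 0 < u.im →
      HasDerivAt (V.jf γ) ((V.ρ γ 1 0 : ℂ) * (V.t1 u * deriv (lamC X) u)) u :=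
    fun u hu => ((hT u hu).const_mul _).add_const _
  have h1 : ∀ u : ℂ, 0 < u.im → V.t1 (mob (γ : SL(2, ℝ)) u) = V.t1 u / V.jf γ u ^ 2 := by
    intro u hu
    refine BA3_step X hg dT hu h0 ?_
    have h := (((hT u hu).const_mul (V.ρ γ 0 0 : ℂ)).add_const (V.ρ γ 0 1 : ℂ)).div (hJ u hu) (hj u)
    refine h.congr_deriv ?_
    have hju := hj u
    rw [div_mul_eq_mul_div, div_left_inj' (pow_ne_zero 2 hju)]
    unfold Variation.jf
    linear_combination (V.t1 u * deriv (lamC X) u) * hdet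
  have h2 : ∀ u : ℂ, 0 < u.im → V.t2 (mob (γ : SL(2, ℝ)) u) = V.t2 u / V.jf γ u ^ 2 -
      2 * (V.ρ γ 1 0 : ℂ) * V.t1 u ^ 2 / V.jf γ u ^ 3 := by
    intro u hu
    refine BA3_step X hg d1 hu h1 ?_
    have hju := hj u
    have h := (h1' u hu).div ((hJ u hu).pow 2) (pow_ne_zero 2 hju)
    refine h.congr_deriv ?_
    simp only [Pi.pow_apply]
    field_simp
    ring
  have h3 : ∀ u : ℂ, 0 < u.im → V.t3 (mob (γ : SL(2, ℝ)) u) = V.t3 u / V.jf γ u ^ 2 -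
      6 * (V.ρ γ 1 0 : ℂ) * V.t1 u * V.t2 u / V.jf γ u ^ 3 +
      6 * (V.ρ γ 1 0 : ℂ) ^ 2 * V.t1 u ^ 3 / V.jf γ u ^ 4 := by
    intro u hu
    refine BA3_step X hg d2 hu h2 ?_
    have hju := hj u
    have h := ((h2' u hu).div ((hJ u hu).pow 2) (pow_ne_zero 2 hju)).sub
      ((((h1' u hu).pow 2).const_mul (2 * (V.ρ γ 1 0 : ℂ))).div ((hJ u hu).pow 3)
        (pow_ne_zero 3 hju))
    refine h.congr_deriv ?_
    simp only [Pi.pow_apply]
    field_simp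
    ring
  exact ⟨hj w, h0 w hw, h1 w hw, h2 w hw, h3 w hw⟩

theorem BA4_toP_coeff (p : ℂ[X]) (hp : p.natDegree < k + 1) :
    toP (fun i : Fin (k + 1) => p.coeff i) = p := by
  unfold toP
  rw [Fin.sum_univ_eq_sum_range (fun i => C (p.coeff i) * Polynomial.X ^ i) (k + 1)]
  conv_rhs => rw [Polynomial.as_sum_range' p (k + 1) hp]
  refine Finset.sum_congr rfl fun i _ => ?_
  rw [Polynomial.C_mul_X_pow_eq_monomial]

theorem BA4_deg (a b c d : ℚ) (j : ℕ) (hj : j ≤ k) :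
    ((C d * Polynomial.X - C b) ^ j * (C a - C c * Polynomial.X) ^ (k - j) : ℚ[X]).natDegree
      ≤ k := by
  have h1 : (C d * Polynomial.X - C b : ℚ[X]).natDegree ≤ 1 := by compute_degree
  have h2 : (C a - C c * Polynomial.X : ℚ[X]).natDegree ≤ 1 := by compute_degree
  have h3 : ((C d * Polynomial.X - C b) ^ j : ℚ[X]).natDegree ≤ j * 1 :=
    (Polynomial.natDegree_pow_le_of_le j h1)
  have h4 : ((C a - C c * Polynomial.X) ^ (k - j) : ℚ[X]).natDegree ≤ (k - j) * 1 :=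
    (Polynomial.natDegree_pow_le_of_le (k - j) h2)
  have h5 := Polynomial.natDegree_mul_le (p := ((C d * Polynomial.X - C b) ^ j : ℚ[X]))
    (q := ((C a - C c * Polynomial.X) ^ (k - j) : ℚ[X]))
  omega

/-- The action on forms, as substitution. -/
theorem toP_act (γ : SL(2, ℤ)) (v : Fin (k + 1) → ℂ) :
    toP ((act k γ).map (algebraMap ℚ ℂ) *ᵥ v) = ∑ j : Fin (k + 1), C (v j) *
      ((C (γ 1 1 : ℂ) * Polynomial.X - C (γ 0 1 : ℂ)) ^ (j : ℕ) *
        (C (γ 0 0 : ℂ) - C (γ 1 0 : ℂ) * Polynomial.X) ^ (k - (j : ℕ))) := by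
  have hp : ∀ j : Fin (k + 1),
      ((C (γ 1 1 : ℂ) * Polynomial.X - C (γ 0 1 : ℂ)) ^ (j : ℕ) *
        (C (γ 0 0 : ℂ) - C (γ 1 0 : ℂ) * Polynomial.X) ^ (k - (j : ℕ)))
      = ((C (γ 1 1 : ℚ) * Polynomial.X - C (γ 0 1 : ℚ)) ^ (j : ℕ) *
        (C (γ 0 0 : ℚ) - C (γ 1 0 : ℚ) * Polynomial.X) ^ (k - (j : ℕ))).map
          (algebraMap ℚ ℂ) := by
    intro j
    simp [Polynomial.map_mul, Polynomial.map_pow, Polynomial.map_sub]
  have hc : ∀ j : Fin (k + 1),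
      ((C (γ 1 1 : ℂ) * Polynomial.X - C (γ 0 1 : ℂ)) ^ (j : ℕ) *
        (C (γ 0 0 : ℂ) - C (γ 1 0 : ℂ) * Polynomial.X) ^ (k - (j : ℕ)))
      = toP (fun i : Fin (k + 1) => algebraMap ℚ ℂ (act k γ i j)) := by
    intro j
    have h1 := BA4_toP_coeff (k := k) (((C (γ 1 1 : ℚ) * Polynomial.X - C (γ 0 1 : ℚ)) ^ (j : ℕ) *
        (C (γ 0 0 : ℚ) - C (γ 1 0 : ℚ) * Polynomial.X) ^ (k - (j : ℕ))).map
          (algebraMap ℚ ℂ)) (by
            rw [Polynomial.natDegree_map]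
            exact Nat.lt_succ_of_le (BA4_deg _ _ _ _ j (by omega)))
    rw [hp j, ← h1]
    congr 1
    funext i
    rw [Polynomial.coeff_map]
    rfl
  rw [Finset.sum_congr rfl fun j _ => by rw [hc j]]
  unfold toP
  simp only [Matrix.mulVec, dotProduct, Matrix.map_apply, map_sum, Finset.sum_mul,
    Finset.mul_sum, map_mul]
  rw [Finset.sum_comm]
  refine Finset.sum_congr rfl fun j _ => Finset.sum_congr rfl fun i _ => ?_
  ring

theorem BA4_key (s t : ℂ) {i : ℕ} (hi : i ≤ k) (a b : ℂ) (hb : b ≠ 0) :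
    ∑ j : Fin (k + 1), frm k s t i j * (a ^ (j : ℕ) * b ^ (k - (j : ℕ)))
      = (a - s * b) ^ i * (a - t * b) ^ (k - i) := by
  set p : ℂ[X] := (Polynomial.X - C s) ^ i * (Polynomial.X - C t) ^ (k - i) with hp
  have hdeg : p.natDegree < k + 1 := by
    have h1 : (Polynomial.X - C s : ℂ[X]).natDegree ≤ 1 := by compute_degree
    have h2 : (Polynomial.X - C t : ℂ[X]).natDegree ≤ 1 := by compute_degree
    have h3 : ((Polynomial.X - C s) ^ i : ℂ[X]).natDegree ≤ i * 1 :=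
      Polynomial.natDegree_pow_le_of_le i h1
    have h4 : ((Polynomial.X - C t) ^ (k - i) : ℂ[X]).natDegree ≤ (k - i) * 1 :=
      Polynomial.natDegree_pow_le_of_le (k - i) h2
    have h5 := Polynomial.natDegree_mul_le (p := ((Polynomial.X - C s) ^ i : ℂ[X]))
      (q := ((Polynomial.X - C t) ^ (k - i) : ℂ[X]))
    rw [hp]
    omega
  have h1 : ∑ j : Fin (k + 1), frm k s t i j * (a ^ (j : ℕ) * b ^ (k - (j : ℕ)))
      = ∑ j ∈ Finset.range (k + 1), p.coeff j * (a ^ j * b ^ (k - j)) :=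
    Fin.sum_univ_eq_sum_range (fun j => p.coeff j * (a ^ j * b ^ (k - j))) (k + 1)
  have h2 : ∑ j ∈ Finset.range (k + 1), p.coeff j * (a ^ j * b ^ (k - j))
      = b ^ k * p.eval (a / b) := by
    rw [Polynomial.eval_eq_sum_range' hdeg, Finset.mul_sum]
    refine Finset.sum_congr rfl fun j hj => ?_
    have hjk : j ≤ k := Nat.lt_succ_iff.1 (Finset.mem_range.1 hj)
    have h3 : b ^ k = b ^ j * b ^ (k - j) := by rw [← pow_add, Nat.add_sub_cancel' hjk]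
    rw [h3, div_pow]
    field_simp
  rw [h1, h2, hp, Polynomial.eval_mul, Polynomial.eval_pow, Polynomial.eval_pow,
    Polynomial.eval_sub, Polynomial.eval_sub, Polynomial.eval_X, Polynomial.eval_C,
    Polynomial.eval_C]
  have h3 : b ^ k = b ^ i * b ^ (k - i) := by rw [← pow_add, Nat.add_sub_cancel' hi]
  have h4 : a - s * b = b * (a / b - s) := by field_simp
  have h5 : a - t * b = b * (a / b - t) := by field_simp
  rw [h3, h4, h5, mul_pow, mul_pow]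
  ring

/-- The action on the basis forms. -/
theorem act_frm (γ : SL(2, ℤ)) {s t s' t' : ℂ} {i : ℕ} (hi : i ≤ k)
    (hs : s' * ((γ 1 0 : ℂ) * s + γ 1 1) = (γ 0 0 : ℂ) * s + γ 0 1)
    (ht : t' * ((γ 1 0 : ℂ) * t + γ 1 1) = (γ 0 0 : ℂ) * t + γ 0 1) :
    (act k γ).map (algebraMap ℚ ℂ) *ᵥ frm k s t i =
      (((γ 1 0 : ℂ) * s + γ 1 1) ^ i * ((γ 1 0 : ℂ) * t + γ 1 1) ^ (k - i)) • frm k s' t' i := by
  apply toP_injective
  rw [toP_act]
  have h0 : toP ((((γ 1 0 : ℂ) * s + γ 1 1) ^ i * ((γ 1 0 : ℂ) * t + γ 1 1) ^ (k - i)) •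
      frm k s' t' i) = C (((γ 1 0 : ℂ) * s + γ 1 1) ^ i * ((γ 1 0 : ℂ) * t + γ 1 1) ^ (k - i)) *
      ((Polynomial.X - C s') ^ i * (Polynomial.X - C t') ^ (k - i)) := by
    rw [← toP_frm k s' t' hi]
    unfold toP
    rw [Finset.mul_sum]
    refine Finset.sum_congr rfl fun j _ => ?_
    rw [Pi.smul_apply, smul_eq_mul, map_mul, mul_assoc]
  rw [h0]
  have hB : (C (γ 0 0 : ℂ) - C (γ 1 0 : ℂ) * Polynomial.X : ℂ[X]) ≠ 0 := by
    intro h
    have h1 := congrArg (Polynomial.eval 0) h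
    have h2 := congrArg (Polynomial.eval 1) h
    simp only [Polynomial.eval_sub, Polynomial.eval_mul, Polynomial.eval_C, Polynomial.eval_X,
      mul_zero, sub_zero, mul_one, Polynomial.eval_zero] at h1 h2
    have hdet : (γ 0 0 : ℂ) * γ 1 1 - (γ 0 1 : ℂ) * γ 1 0 = 1 := by
      have := γ.det_coe
      rw [Matrix.det_fin_two] at this
      exact_mod_cast this
    rw [h1] at h2 hdet
    rw [zero_sub, neg_eq_zero] at h2
    rw [h2] at hdet
    norm_num at hdet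
  refine mul_right_cancel₀ hB (Polynomial.funext fun x => ?_)
  rw [Polynomial.eval_mul, Polynomial.eval_mul]
  by_cases hx : (C (γ 0 0 : ℂ) - C (γ 1 0 : ℂ) * Polynomial.X : ℂ[X]).eval x = 0
  · rw [hx, mul_zero, mul_zero]
  · congr 1
    have h1 : (∑ j : Fin (k + 1), C (frm k s t i j) *
      ((C (γ 1 1 : ℂ) * Polynomial.X - C (γ 0 1 : ℂ)) ^ (j : ℕ) *
        (C (γ 0 0 : ℂ) - C (γ 1 0 : ℂ) * Polynomial.X) ^ (k - (j : ℕ)))).eval x
        = ∑ j : Fin (k + 1), frm k s t i j * (((γ 1 1 : ℂ) * x - γ 0 1) ^ (j : ℕ)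
          * ((γ 0 0 : ℂ) - γ 1 0 * x) ^ (k - (j : ℕ))) := by
      rw [Polynomial.eval_finsetSum]
      refine Finset.sum_congr rfl fun j _ => ?_
      simp only [Polynomial.eval_sub, Polynomial.eval_mul, Polynomial.eval_C, Polynomial.eval_X,
        Polynomial.eval_pow]
    have hx' : (γ 0 0 : ℂ) - γ 1 0 * x ≠ 0 := by
      simpa only [Polynomial.eval_sub, Polynomial.eval_mul, Polynomial.eval_C, Polynomial.eval_X]
        using hx
    rw [h1, BA4_key s t hi _ _ hx']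
    simp only [Polynomial.eval_sub, Polynomial.eval_mul, Polynomial.eval_C, Polynomial.eval_X,
        Polynomial.eval_pow]
    have e1 : (γ 1 1 : ℂ) * x - γ 0 1 - s * ((γ 0 0 : ℂ) - γ 1 0 * x)
        = ((γ 1 0 : ℂ) * s + γ 1 1) * (x - s') := by
      linear_combination hs
    have e2 : (γ 1 1 : ℂ) * x - γ 0 1 - t * ((γ 0 0 : ℂ) - γ 1 0 * x)
        = ((γ 1 0 : ℂ) * t + γ 1 1) * (x - t') := by
      linear_combination ht
    rw [e1, e2, mul_pow, mul_pow]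
    ring

/-- The transformation of the factor of the derivative of the extension period. -/
theorem Variation.g_smul (V : Variation k X) (γ : X.P) {w : ℂ} (hw : 0 < w.im) :
    V.gC (mob (γ : SL(2, ℝ)) w) = V.jf γ w ^ k * V.gC w := by
  obtain ⟨hj, hτ, -⟩ := V.t_smul γ hw
  have hG : (γ : SL(2, ℝ)) ∈ X.G := X.P_le γ.2
  have hmw : 0 < (mob (γ : SL(2, ℝ)) w).im := ((γ : SL(2, ℝ)) • ofComplex w).im_pos
  have h1 := dx_mob X hG (f := V.vC (Fin.last k)) (fun u hu => V.vC_diff (Fin.last k) hu) hw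
  have h2 : (fun u => V.vC (Fin.last k) (mob (γ : SL(2, ℝ)) u))
      = fun u => ∑ j, algebraMap ℚ ℂ (act k (V.ρ γ) (Fin.last k) j) * V.vC j u
        + (V.c γ (Fin.last k) : ℂ) := by
    funext u
    show V.v (ofComplex ((((γ : SL(2, ℝ)) • ofComplex u : ℍ)) : ℂ)) (Fin.last k) = _
    rw [ofComplex_apply, V.v_equiv γ (ofComplex u)]
    rfl
  have h3 : dx (lamC X) (fun u => ∑ j, algebraMap ℚ ℂ (act k (V.ρ γ) (Fin.last k) j) * V.vC j u
        + (V.c γ (Fin.last k) : ℂ)) w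
      = ∑ j, algebraMap ℚ ℂ (act k (V.ρ γ) (Fin.last k) j) * dx (lamC X) (V.vC j) w := by
    have h4 : HasDerivAt (fun u => ∑ j, algebraMap ℚ ℂ (act k (V.ρ γ) (Fin.last k) j) * V.vC j u
        + (V.c γ (Fin.last k) : ℂ))
        (∑ j, algebraMap ℚ ℂ (act k (V.ρ γ) (Fin.last k) j) * deriv (V.vC j) w) w :=
      (HasDerivAt.fun_sum fun j _ => ((V.vC_diff j hw).hasDerivAt.const_mul _)).add_const _
    unfold dx
    rw [h4.deriv, Finset.sum_div]
    refine Finset.sum_congr rfl fun j _ => ?_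
    rw [mul_div_assoc]
  rw [h2, h3] at h1
  have h5 : ∑ j, algebraMap ℚ ℂ (act k (V.ρ γ) (Fin.last k) j) * dx (lamC X) (V.vC j) w
      = V.gC w * ((act k (V.ρ γ)).map (algebraMap ℚ ℂ) *ᵥ
        frm k (V.tauC w) (V.tauC w) k) (Fin.last k) := by
    have e : ((act k (V.ρ γ)).map (algebraMap ℚ ℂ) *ᵥ
        frm k (V.tauC w) (V.tauC w) k) (Fin.last k)
        = ∑ j, algebraMap ℚ ℂ (act k (V.ρ γ) (Fin.last k) j)
          * frm k (V.tauC w) (V.tauC w) k j := rfl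
    rw [e, Finset.mul_sum]
    refine Finset.sum_congr rfl fun j _ => ?_
    rw [V.dx_vC j hw]
    ring
  have hs : V.tauC (mob (γ : SL(2, ℝ)) w) * ((V.ρ γ 1 0 : ℂ) * V.tauC w + (V.ρ γ 1 1 : ℂ))
      = (V.ρ γ 0 0 : ℂ) * V.tauC w + (V.ρ γ 0 1 : ℂ) := by
    rw [hτ]
    exact div_mul_cancel₀ _ hj
  have h6 : frm k (V.tauC (mob (γ : SL(2, ℝ)) w)) (V.tauC (mob (γ : SL(2, ℝ)) w)) k
      (Fin.last k) = 1 := by
    show ((Polynomial.X - C (V.tauC (mob (γ : SL(2, ℝ)) w))) ^ k *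
      (Polynomial.X - C (V.tauC (mob (γ : SL(2, ℝ)) w))) ^ (k - k)).coeff
        ((Fin.last k : Fin (k + 1)) : ℕ) = 1
    rw [Nat.sub_self, pow_zero, mul_one, Fin.val_last]
    have hm : ((Polynomial.X - C (V.tauC (mob (γ : SL(2, ℝ)) w))) ^ k : ℂ[X]).Monic :=
      (Polynomial.monic_X_sub_C _).pow k
    have hd : ((Polynomial.X - C (V.tauC (mob (γ : SL(2, ℝ)) w))) ^ k : ℂ[X]).natDegree = k := by
      rw [Polynomial.natDegree_pow, Polynomial.natDegree_X_sub_C, mul_one]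
    have := hm.coeff_natDegree
    rwa [hd] at this
  rw [h5, act_frm (V.ρ γ) (le_refl k) hs hs, Pi.smul_apply, h6, smul_eq_mul, mul_one,
    Nat.sub_self, pow_zero, mul_one] at h1
  have h7 : V.gC (mob (γ : SL(2, ℝ)) w) = dx (lamC X) (V.vC (Fin.last k))
      (mob (γ : SL(2, ℝ)) w) := rfl
  rw [h7, ← h1, mul_comm]
  rfl

theorem BA5_disc (g : SL(2, ℤ)) (z : ℍ) :
    ModularForm.discriminant (g • z) =
      ((g 1 0 : ℂ) * (z : ℂ) + (g 1 1 : ℂ)) ^ 12 * ModularForm.discriminant z := by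
  have hmem : Matrix.SpecialLinearGroup.mapGL ℝ g ∈ 𝒮ℒ := ⟨g, rfl⟩
  have hden : denom (Matrix.SpecialLinearGroup.mapGL ℝ g) z =
      (g 1 0 : ℂ) * (z : ℂ) + (g 1 1 : ℂ) := by
    unfold denom
    have e1 : (Matrix.SpecialLinearGroup.mapGL ℝ g : GL (Fin 2) ℝ) 1 0 = (g 1 0 : ℝ) := by
      rw [Matrix.SpecialLinearGroup.mapGL_coe_matrix]
      rfl
    have e2 : (Matrix.SpecialLinearGroup.mapGL ℝ g : GL (Fin 2) ℝ) 1 1 = (g 1 1 : ℝ) := by
      rw [Matrix.SpecialLinearGroup.mapGL_coe_matrix]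
      rfl
    rw [e1, e2]
    simp
  have := SlashInvariantForm.slash_action_eqn'' CuspForm.discriminant hmem z
  rw [hden] at this
  exact_mod_cast this

theorem BA5_del (V : Variation k X) (γ : X.P) (w : ℂ) :
    V.del (mob (γ : SL(2, ℝ)) w) = V.jf γ w ^ 12 * V.del w := by
  unfold Variation.del Variation.jf Variation.tauC mob
  rw [ofComplex_apply, V.τ_equiv, BA5_disc]

/-- The three functions are invariant and holomorphic. -/
theorem Variation.psi_smul (V : Variation k X) (γ : X.P) {w : ℂ} (hw : 0 < w.im) :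
    V.psi1 (mob (γ : SL(2, ℝ)) w) = V.psi1 w ∧ V.psi2 (mob (γ : SL(2, ℝ)) w) = V.psi2 w ∧
      V.mm (mob (γ : SL(2, ℝ)) w) = V.mm w := by
  obtain ⟨hj, -, h1, h2, h3⟩ := V.t_smul γ hw
  have hg := V.g_smul γ hw
  have hd := BA5_del V γ w
  refine ⟨?_, ?_, ?_⟩
  · unfold Variation.psi1
    rw [h1, hd]
    field_simp
  · unfold Variation.psi2
    rw [h1, h2, h3, hd]
    field_simp
    ring
  · unfold Variation.mm
    rw [h1, hg, div_pow, mul_pow, ← pow_mul, ← pow_mul, mul_comm k 2]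
    have hj' : V.jf γ w ^ (2 * k) ≠ 0 := pow_ne_zero _ hj
    field_simp

theorem BA5_disc_diff {t : ℂ} (ht : 0 < t.im) :
    DifferentiableAt ℂ (fun t : ℂ => ModularForm.discriminant (ofComplex t)) t := by
  have h1 := UpperHalfPlane.mdifferentiable_iff.1 (CuspForm.discriminant).holo'
  exact (h1 t ht).differentiableAt
    ((isOpen_lt continuous_const Complex.continuous_im).mem_nhds ht)

theorem Variation.psi_diff (V : Variation k X) {w : ℂ} (hw : 0 < w.im) :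
    DifferentiableAt ℂ V.psi1 w ∧ DifferentiableAt ℂ V.psi2 w ∧ DifferentiableAt ℂ V.mm w := by
  have d0 : ∀ u : ℂ, 0 < u.im → DifferentiableAt ℂ V.tauC u := fun u hu => (V.tauC_diff hu).1
  have d1 : ∀ u : ℂ, 0 < u.im → DifferentiableAt ℂ V.t1 u := fun u hu => dx_diff X d0 hu
  have d2 : ∀ u : ℂ, 0 < u.im → DifferentiableAt ℂ V.t2 u := fun u hu => dx_diff X d1 hu
  have d3 : ∀ u : ℂ, 0 < u.im → DifferentiableAt ℂ V.t3 u := fun u hu => dx_diff X d2 hu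
  have dg : ∀ u : ℂ, 0 < u.im → DifferentiableAt ℂ V.gC u := fun u hu =>
    dx_diff X (fun w hw => V.vC_diff (Fin.last k) hw) hu
  have dd : DifferentiableAt ℂ V.del w := by
    have h1 := BA5_disc_diff (V.tauC_diff hw).2
    have h2 := DifferentiableAt.comp w h1 (d0 w hw)
    have h3 : ((fun t : ℂ => ModularForm.discriminant (ofComplex t)) ∘ V.tauC) = V.del := by
      funext u
      show ModularForm.discriminant (ofComplex ((V.τ (ofComplex u) : ℂ))) =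
        ModularForm.discriminant (V.τ (ofComplex u))
      rw [ofComplex_apply]
    rwa [h3] at h2
  refine ⟨?_, ?_, ?_⟩
  · exact ((d1 w hw).pow 6).mul dd
  · exact ((((d1 w hw).mul (d3 w hw)).sub (((d2 w hw).pow 2).const_mul (3 / 2))).mul
      ((d1 w hw).pow 4)).mul dd
  · exact ((dg w hw).pow 2).mul ((d1 w hw).pow k)

private theorem BA6_two_le {y : ℝ} (hy : 1 ≤ y) : (2 : ℝ) ≤ Real.exp y := by
  have := Real.add_one_le_exp y
  linarith

private theorem BA6_mono {C C' y : ℝ} (hC : C ≤ C') (hy : 0 ≤ y) :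
    Real.exp (C * y) ≤ Real.exp (C' * y) :=
  Real.exp_le_exp.mpr (mul_le_mul_of_nonneg_right hC hy)

theorem SG.add {f g : ℂ → ℂ} (hf : SG f) (hg : SG g) : SG (fun ζ => f ζ + g ζ) := by
  obtain ⟨Y1, hY1, hd1, hb1⟩ := hf
  obtain ⟨Y2, hY2, hd2, hb2⟩ := hg
  refine ⟨max Y1 Y2, hY1.trans (le_max_left _ _), ?_, ?_⟩
  · intro ζ hζ
    exact (hd1 ζ ((le_max_left _ _).trans_lt hζ)).add (hd2 ζ ((le_max_right _ _).trans_lt hζ))
  · intro R
    obtain ⟨C1, h1⟩ := hb1 R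
    obtain ⟨C2, h2⟩ := hb2 R
    refine ⟨1 + max C1 C2, fun ζ hR hy => ?_⟩
    have hy1 : Y1 + 1 ≤ ζ.im := by linarith [le_max_left Y1 Y2]
    have hy2 : Y2 + 1 ≤ ζ.im := by linarith [le_max_right Y1 Y2]
    have hy3 : 1 ≤ ζ.im := by linarith
    have e1 := (h1 ζ hR hy1).trans (BA6_mono (le_max_left C1 C2) (by linarith))
    have e2 := (h2 ζ hR hy2).trans (BA6_mono (le_max_right C1 C2) (by linarith))
    have e3 := BA6_two_le hy3
    rw [add_mul, one_mul, Real.exp_add]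
    have e4 := Real.exp_pos (max C1 C2 * ζ.im)
    have e5 := norm_add_le (f ζ) (g ζ)
    nlinarith

theorem SG.mul {f g : ℂ → ℂ} (hf : SG f) (hg : SG g) : SG (fun ζ => f ζ * g ζ) := by
  obtain ⟨Y1, hY1, hd1, hb1⟩ := hf
  obtain ⟨Y2, hY2, hd2, hb2⟩ := hg
  refine ⟨max Y1 Y2, hY1.trans (le_max_left _ _), ?_, ?_⟩
  · intro ζ hζ
    exact (hd1 ζ ((le_max_left _ _).trans_lt hζ)).mul (hd2 ζ ((le_max_right _ _).trans_lt hζ))
  · intro R
    obtain ⟨C1, h1⟩ := hb1 R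
    obtain ⟨C2, h2⟩ := hb2 R
    refine ⟨C1 + C2, fun ζ hR hy => ?_⟩
    have hy1 : Y1 + 1 ≤ ζ.im := by linarith [le_max_left Y1 Y2]
    have hy2 : Y2 + 1 ≤ ζ.im := by linarith [le_max_right Y1 Y2]
    rw [norm_mul, add_mul, Real.exp_add]
    exact mul_le_mul (h1 ζ hR hy1) (h2 ζ hR hy2) (norm_nonneg _) (Real.exp_pos _).le

theorem SG.const (c : ℂ) : SG (fun _ => c) := by
  refine ⟨0, le_rfl, fun ζ _ => differentiableAt_const _, fun R => ⟨‖c‖, fun ζ _ hy => ?_⟩⟩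
  have h1 : 1 ≤ ζ.im := by linarith
  have h2 : ‖c‖ ≤ ‖c‖ * ζ.im := le_mul_of_one_le_right (norm_nonneg _) h1
  have h3 := Real.add_one_le_exp (‖c‖ * ζ.im)
  linarith

theorem SG.pow {f : ℂ → ℂ} (hf : SG f) (n : ℕ) : SG (fun ζ => f ζ ^ n) := by
  induction n with
  | zero =>
    simp only [pow_zero]
    exact SG.const 1
  | succ n ih =>
    simp only [pow_succ]
    exact ih.mul hf

theorem SG.deriv {f : ℂ → ℂ} (hf : SG f) : SG (deriv f) := by
  obtain ⟨Y, hY, hd, hb⟩ := hf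
  have hopen : IsOpen {ζ : ℂ | Y < ζ.im} := isOpen_lt continuous_const Complex.continuous_im
  have hdo : DifferentiableOn ℂ f {ζ : ℂ | Y < ζ.im} := fun ζ hζ =>
    (hd ζ hζ).differentiableWithinAt
  refine ⟨Y + 1, by linarith, ?_, ?_⟩
  · intro ζ hζ
    exact (hdo.deriv hopen).differentiableAt (hopen.mem_nhds (by
      have : Y < ζ.im := by linarith
      exact this))
  · intro R
    obtain ⟨C, h1⟩ := hb (R + 1)
    refine ⟨1 + 2 * |C|, fun ζ hR hy => ?_⟩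
    have hdist : ∀ z : ℂ, dist z ζ ≤ 1 / 2 →
        |z.re| ≤ R + 1 ∧ Y + 1 ≤ z.im ∧ z.im ≤ 2 * ζ.im := by
      intro z hz
      rw [Complex.dist_eq] at hz
      have e1 := (Complex.abs_re_le_norm (z - ζ)).trans hz
      have e2 := (Complex.abs_im_le_norm (z - ζ)).trans hz
      rw [Complex.sub_re] at e1
      rw [Complex.sub_im] at e2
      rw [abs_le] at e1 e2 hR
      refine ⟨abs_le.mpr ⟨by linarith [e1.1, hR.1], by linarith [e1.2, hR.2]⟩, by linarith [e2.1],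
        by linarith [e2.2]⟩
    have h2 := Complex.norm_deriv_le_of_forall_mem_sphere_norm_le (c := ζ) (R := 1 / 2)
      (C := Real.exp (2 * |C| * ζ.im)) (f := f) (by norm_num) (by
        refine (hdo.mono ?_).diffContOnCl
        intro z hz
        rw [closure_ball ζ (by norm_num)] at hz
        have h3 := (hdist z (Metric.mem_closedBall.mp hz)).2.1
        have h4 : Y < z.im := by linarith
        exact h4) (by
        intro z hz
        obtain ⟨a1, a2, a3⟩ := hdist z (Metric.mem_sphere.mp hz).le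
        refine (h1 z a1 a2).trans (Real.exp_le_exp.mpr ?_)
        have hz0 : 0 ≤ z.im := by linarith
        have a4 : C * z.im ≤ |C| * z.im := mul_le_mul_of_nonneg_right (le_abs_self _) hz0
        have a5 : |C| * z.im ≤ |C| * (2 * ζ.im) := mul_le_mul_of_nonneg_left a3 (abs_nonneg _)
        linarith)
    refine h2.trans ?_
    rw [add_mul, one_mul, Real.exp_add]
    have h3 := BA6_two_le (y := ζ.im) (by linarith)
    have h4 := Real.exp_pos (2 * |C| * ζ.im)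
    have h5 : Real.exp (2 * |C| * ζ.im) / (1 / 2) = 2 * Real.exp (2 * |C| * ζ.im) := by ring
    rw [h5]
    exact mul_le_mul_of_nonneg_right h3 h4.le

theorem SG.congr {f g : ℂ → ℂ} (hf : SG f) (Y : ℝ) (h : ∀ ζ : ℂ, Y < ζ.im → g ζ = f ζ) : SG g := by
  obtain ⟨Y1, hY1, hd, hb⟩ := hf
  have hopen : IsOpen {ζ : ℂ | Y < ζ.im} := isOpen_lt continuous_const Complex.continuous_im
  refine ⟨max Y1 Y, hY1.trans (le_max_left _ _), ?_, ?_⟩
  · intro ζ hζ
    refine (hd ζ ((le_max_left _ _).trans_lt hζ)).congr_of_eventuallyEq ?_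
    filter_upwards [hopen.mem_nhds ((le_max_right Y1 Y).trans_lt hζ)] with z hz
    exact h z hz
  · intro R
    obtain ⟨C, h1⟩ := hb R
    refine ⟨C, fun ζ hR hy => ?_⟩
    have hy1 : Y1 + 1 ≤ ζ.im := by linarith [le_max_left Y1 Y]
    have hy2 : Y < ζ.im := by linarith [le_max_right Y1 Y]
    rw [h ζ hy2]
    exact h1 ζ hR hy1

/-- Periodic functions of the class are of exponential growth. -/
theorem SG.of_periodic {f : ℂ → ℂ} (hf : SG f) {n : ℕ} (hn : 0 < n) (Y : ℝ)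
    (hp : ∀ ζ : ℂ, Y < ζ.im → f (ζ + n) = f ζ) :
    ∃ C Y' : ℝ, ∀ ζ : ℂ, Y' < ζ.im → ‖f ζ‖ ≤ Real.exp (C * ζ.im) := by
  obtain ⟨Y1, hY1, hd, hb⟩ := hf
  obtain ⟨C, h1⟩ := hb n
  have hpn : ∀ (m : ℕ) (ζ : ℂ), Y < ζ.im → f (ζ + m * n) = f ζ := by
    intro m
    induction m with
    | zero =>
      intro ζ _
      simp
    | succ m ih =>
      intro ζ hζ
      have h2 : ζ + ((m + 1 : ℕ) : ℂ) * n = (ζ + m * n) + n := by
        push_cast
        ring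
      have h3 : Y < (ζ + (m : ℂ) * n).im := by
        have h4 : (ζ + (m : ℂ) * n).im = ζ.im := by simp
        rw [h4]
        exact hζ
      rw [h2, hp _ h3, ih ζ hζ]
  have hpz : ∀ (m : ℤ) (ζ : ℂ), Y < ζ.im → f (ζ + m * n) = f ζ := by
    intro m ζ hζ
    rcases Int.le_total 0 m with h | h
    · obtain ⟨l, rfl⟩ := Int.eq_ofNat_of_zero_le h
      have h2 := hpn l ζ hζ
      simpa using h2
    · obtain ⟨l, hl⟩ := Int.eq_ofNat_of_zero_le (neg_nonneg.mpr h)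
      have h3 : m = -(l : ℤ) := by omega
      have h4 : Y < (ζ + (m : ℂ) * n).im := by
        have h5 : (ζ + (m : ℂ) * n).im = ζ.im := by simp
        rw [h5]
        exact hζ
      have h2 := hpn l (ζ + m * n) h4
      rw [← h2]
      congr 1
      rw [h3]
      push_cast
      ring
  refine ⟨C, max Y (Y1 + 1), fun ζ hζ => ?_⟩
  have hy1 : Y < ζ.im := (le_max_left _ _).trans_lt hζ
  have hy2 : Y1 + 1 < ζ.im := (le_max_right _ _).trans_lt hζ
  have hn0 : (0 : ℝ) < n := by exact_mod_cast hn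
  set m : ℤ := ⌊ζ.re / n⌋ with hm
  have h2 := hpz (-m) ζ hy1
  have him : (ζ + ((-m : ℤ) : ℂ) * n).im = ζ.im := by simp
  have hre : (ζ + ((-m : ℤ) : ℂ) * n).re = ζ.re - m * n := by
    simp
    ring
  rw [← h2, ← him]
  apply h1
  · rw [hre]
    have e1 : (m : ℝ) ≤ ζ.re / n := Int.floor_le _
    have e2 : ζ.re / n < m + 1 := Int.lt_floor_add_one _
    rw [le_div_iff₀ hn0] at e1
    rw [div_lt_iff₀ hn0] at e2
    rw [abs_le]
    constructor <;> linarith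
  · rw [him]
    exact hy2.le

theorem BA7_ee_hasDerivAt (ζ : ℂ) : HasDerivAt ee (2 * Real.pi * Complex.I * ee ζ) ζ := by
  have h1 : HasDerivAt (fun ζ : ℂ => 2 * (Real.pi : ℂ) * Complex.I * ζ)
      (2 * (Real.pi : ℂ) * Complex.I) ζ := by
    simpa using (hasDerivAt_id ζ).const_mul (2 * (Real.pi : ℂ) * Complex.I)
  exact h1.cexp.congr_deriv (mul_comm _ _)

theorem BA7_norm_ee (z : ℂ) : ‖ee z‖ = Real.exp (-(2 * Real.pi) * z.im) := by
  unfold Pool.Agent.LibUB33.ee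
  rw [Complex.norm_exp]
  congr 1
  simp [Complex.mul_re, Complex.mul_im]

theorem BA7_ee_neg_mul (ζ : ℂ) : ee (-ζ) * ee ζ = 1 := by
  unfold Pool.Agent.LibUB33.ee
  rw [← Complex.exp_add]
  have : 2 * (Real.pi : ℂ) * Complex.I * -ζ + 2 * (Real.pi : ℂ) * Complex.I * ζ = 0 := by ring
  rw [this, Complex.exp_zero]

theorem BA7_sg_ee : SG (fun ζ => ee ζ) := by
  refine ⟨0, le_refl _, fun ζ _ => (BA7_ee_hasDerivAt ζ).differentiableAt, fun R =>
    ⟨-(2 * Real.pi), fun ζ _ _ => ?_⟩⟩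
  exact (BA7_norm_ee ζ).le

theorem BA7_sg_ee_neg : SG (fun ζ => ee (-ζ)) := by
  refine ⟨0, le_refl _, fun ζ _ => ?_, fun R => ⟨2 * Real.pi, fun ζ _ _ => ?_⟩⟩
  · exact ((BA7_ee_hasDerivAt (-ζ)).comp ζ (hasDerivAt_neg ζ)).differentiableAt
  · have h := BA7_norm_ee (-ζ)
    show ‖ee (-ζ)‖ ≤ _
    rw [h, Complex.neg_im]
    apply le_of_eq
    congr 1
    ring

/-- Differentiation with respect to the coordinate of the plane at an end. -/
theorem SG.dx {s : ℂ → ℍ} {Y : ℝ} (hE : X.IsEnd s Y) {f : ℂ → ℂ}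
    (hf : ∀ w : ℂ, 0 < w.im → DifferentiableAt ℂ f w) (h : SG fun ζ => f (s ζ : ℂ)) :
    SG fun ζ => LibSym94.dx (lamC X) f (s ζ : ℂ) := by
  have hpi : (2 * (Real.pi : ℂ) * Complex.I) ≠ 0 := Complex.two_pi_I_ne_zero
  -- the common part
  have key : ∀ ψ g : ℂ → ℂ, (∀ ζ : ℂ, Y < ζ.im → X.lam (s ζ) = ψ ζ) →
      (∀ ζ : ℂ, ∃ d : ℂ, HasDerivAt ψ d ζ ∧ d * g ζ = 1) → SG g →
      SG fun ζ => LibSym94.dx (lamC X) f (s ζ : ℂ) := by
    intro ψ g hψ hd hg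
    refine SG.congr (SG.mul (SG.deriv h) hg) Y ?_
    intro ζ hζ
    obtain ⟨d, hd1, hd2⟩ := hd ζ
    obtain ⟨h1, h2⟩ := X.lift_differentiable hE.1 hψ
      (fun ζ _ => (hd ζ).choose_spec.1.differentiableAt) hζ
    rw [hd1.deriv] at h2
    have h3 : HasDerivAt (fun ζ => f (s ζ : ℂ))
        (_root_.deriv f (s ζ : ℂ) * _root_.deriv (fun z => (s z : ℂ)) ζ) ζ :=
      HasDerivAt.comp ζ (hf _ (s ζ).im_pos).hasDerivAt h1.hasDerivAt
    have h4 : _root_.deriv (lamC X) (s ζ : ℂ) * _root_.deriv (fun z => (s z : ℂ)) ζ = d := h2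
    have h5 : _root_.deriv (lamC X) (s ζ : ℂ) ≠ 0 := (lamC_diff X (s ζ).im_pos).2
    show LibSym94.dx (lamC X) f (s ζ : ℂ) = _root_.deriv (fun ζ => f (s ζ : ℂ)) ζ * g ζ
    rw [h3.deriv]
    unfold LibSym94.dx
    rw [div_eq_iff h5]
    calc _root_.deriv f (s ζ : ℂ) = _root_.deriv f (s ζ : ℂ) * (d * g ζ) := by
          rw [hd2, mul_one]
      _ = _ := by
          rw [← h4]
          ring
  rcases hE.2 with ⟨b, hb, h2⟩ | h2
  · refine key _ (fun ζ => (2 * (Real.pi : ℂ) * Complex.I)⁻¹ * ee (-ζ)) h2 (fun ζ =>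
      ⟨_, (BA7_ee_hasDerivAt ζ).const_add b, ?_⟩) (SG.mul (SG.const _) BA7_sg_ee_neg)
    have := BA7_ee_neg_mul ζ
    calc 2 * (Real.pi : ℂ) * Complex.I * ee ζ * ((2 * (Real.pi : ℂ) * Complex.I)⁻¹ * ee (-ζ))
        = (2 * (Real.pi : ℂ) * Complex.I * (2 * (Real.pi : ℂ) * Complex.I)⁻¹) *
          (ee (-ζ) * ee ζ) := by ring
      _ = 1 := by rw [this, mul_inv_cancel₀ hpi, mul_one]
  · refine key _ (fun ζ => (-(2 * (Real.pi : ℂ) * Complex.I)⁻¹) * ee ζ) h2 (fun ζ =>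
      ⟨-(2 * (Real.pi : ℂ) * Complex.I * ee (-ζ)), ?_, ?_⟩) (SG.mul (SG.const _) BA7_sg_ee)
    · have h3 := (BA7_ee_hasDerivAt (-ζ)).comp ζ (hasDerivAt_neg ζ)
      rw [mul_neg, mul_one] at h3
      exact h3
    · have := BA7_ee_neg_mul ζ
      calc -(2 * (Real.pi : ℂ) * Complex.I * ee (-ζ)) *
            (-(2 * (Real.pi : ℂ) * Complex.I)⁻¹ * ee ζ)
          = (2 * (Real.pi : ℂ) * Complex.I * (2 * (Real.pi : ℂ) * Complex.I)⁻¹) *
            (ee (-ζ) * ee ζ) := by ring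
        _ = 1 := by rw [this, mul_inv_cancel₀ hpi, mul_one]

theorem BA8_s_diff {s : ℂ → ℍ} {Y : ℝ} (hE : X.IsEnd s Y) {ζ : ℂ} (hζ : Y < ζ.im) :
    DifferentiableAt ℂ (fun z => (s z : ℂ)) ζ := by
  obtain ⟨hc, ⟨b, hb, h⟩ | h⟩ := hE
  · exact (LibUB33.Curve.lift_differentiable X hc h
      (fun ζ _ => by unfold ee; fun_prop) hζ).1
  · exact (LibUB33.Curve.lift_differentiable X hc h
      (fun ζ _ => by unfold ee; fun_prop) hζ).1

theorem BA8_disc_diff {t : ℂ} (ht : 0 < t.im) :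
    DifferentiableAt ℂ (fun t : ℂ => ModularForm.discriminant (ofComplex t)) t := by
  have h1 := UpperHalfPlane.mdifferentiable_iff.1 (CuspForm.discriminant).holo'
  exact (h1 t ht).differentiableAt
    ((isOpen_lt continuous_const Complex.continuous_im).mem_nhds ht)

theorem BA8_disc_bound : ∃ C : ℝ, 0 ≤ C ∧ ∀ τ : ℍ,
    ‖ModularForm.discriminant τ‖ ≤ C / τ.im ^ 6 := by
  obtain ⟨C, hC⟩ := CuspFormClass.exists_bound CuspForm.discriminant
  refine ⟨|C|, abs_nonneg C, fun τ => ?_⟩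
  have h := hC τ
  have h1 : ((12 : ℤ) : ℝ) / 2 = ((6 : ℕ) : ℝ) := by norm_num
  rw [h1, Real.rpow_natCast] at h
  refine h.trans ?_
  have : (0 : ℝ) < τ.im ^ 6 := pow_pos τ.im_pos 6
  gcongr
  exact le_abs_self C

theorem BA8_SG {f : ℂ → ℂ} {Y K : ℝ} {N : ℕ} (hY : 0 ≤ Y)
    (hd : ∀ ζ : ℂ, Y < ζ.im → DifferentiableAt ℂ f ζ)
    (hb : ∀ ζ : ℂ, Y < ζ.im → ‖f ζ‖ ≤ K * (1 + ‖ζ‖) ^ N) : SG f := by
  refine ⟨Y, hY, hd, fun R => ⟨|K| + N * (|R| + 1), fun ζ h1 h2 => ?_⟩⟩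
  have hy : 1 ≤ ζ.im := by linarith
  have hR : |ζ.re| ≤ |R| := h1.trans (le_abs_self R)
  have h3 := hb ζ (by linarith)
  have h4 : ‖ζ‖ ≤ |ζ.re| + |ζ.im| := Complex.norm_le_abs_re_add_abs_im ζ
  rw [abs_of_pos (by linarith : 0 < ζ.im)] at h4
  have h5 : 1 + ‖ζ‖ ≤ Real.exp ((|R| + 1) * ζ.im) := by
    have h6 := Real.add_one_le_exp ((|R| + 1) * ζ.im)
    have h7 : |R| * 1 ≤ |R| * ζ.im := mul_le_mul_of_nonneg_left hy (abs_nonneg R)
    nlinarith
  have h8 : |K| ≤ Real.exp (|K| * ζ.im) := by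
    have h9 := Real.add_one_le_exp (|K| * ζ.im)
    have h10 : |K| * 1 ≤ |K| * ζ.im := mul_le_mul_of_nonneg_left hy (abs_nonneg K)
    linarith
  have h11 : 0 ≤ 1 + ‖ζ‖ := by positivity
  calc ‖f ζ‖ ≤ K * (1 + ‖ζ‖) ^ N := h3
    _ ≤ |K| * (1 + ‖ζ‖) ^ N := mul_le_mul_of_nonneg_right (le_abs_self K) (by positivity)
    _ ≤ Real.exp (|K| * ζ.im) * (Real.exp ((|R| + 1) * ζ.im)) ^ N := by gcongr
    _ = Real.exp ((|K| + N * (|R| + 1)) * ζ.im) := by
      rw [← Real.exp_nat_mul, ← Real.exp_add]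
      congr 1
      ring

/-- Bounds for the normal form. -/
theorem BA8_form (V : Variation k X) {s : ℂ → ℍ} {Y : ℝ} (E : EndForm V s Y) :
    ∃ δ A Y1 : ℝ, 0 < δ ∧ δ ≤ 1 ∧ 0 ≤ A ∧ 0 ≤ Y1 ∧ Y ≤ Y1 ∧ ∀ ζ : ℂ, Y1 < ζ.im →
      δ ≤ (E.M • V.τ (s ζ) : ℍ).im ∧ ‖((E.M • V.τ (s ζ) : ℍ) : ℂ)‖ ≤ A * (1 + ‖ζ‖) := by
  have hn1 : (1 : ℝ) ≤ E.n := by exact_mod_cast E.hn
  have ht : Tendsto (fun z : ℂ => E.F (ee (z / E.n))) (comap Complex.im atTop) (𝓝 (E.F 0)) :=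
    E.hF.continuousAt.tendsto.comp ((LibUB33.tendsto_ee E.hn).mono_right nhdsWithin_le_nhds)
  obtain ⟨ε, hε, hε1, hεm⟩ : ∃ ε : ℝ, 0 < ε ∧ ε ≤ 1 ∧ (E.m = 0 → ε ≤ (E.F 0).im / 2) := by
    by_cases hm : E.m = 0
    · have := E.hF0 hm
      exact ⟨min 1 ((E.F 0).im / 2), by positivity, min_le_left _ _, fun _ => min_le_right _ _⟩
    · exact ⟨1, one_pos, le_rfl, fun h => absurd h hm⟩
  have hev := ht.eventually (Metric.ball_mem_nhds (E.F 0) hε)
  rw [Filter.eventually_comap] at hev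
  obtain ⟨Y2, hY2⟩ := Filter.eventually_atTop.mp hev
  refine ⟨ε, E.m + ‖E.F 0‖ + 1, max (max (max 0 E.Y') Y2) (E.n * (‖E.F 0‖ + 2)), hε, hε1,
    by positivity, ?_, ?_, fun ζ hζ => ?_⟩
  · exact (le_max_left 0 E.Y').trans ((le_max_left _ _).trans (le_max_left _ _))
  · exact E.hY.trans ((le_max_right 0 E.Y').trans ((le_max_left _ _).trans (le_max_left _ _)))
  have h1 : max (max 0 E.Y') Y2 < ζ.im := lt_of_le_of_lt (le_max_left _ _) hζ
  have h2 : E.n * (‖E.F 0‖ + 2) < ζ.im := lt_of_le_of_lt (le_max_right _ _) hζ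
  have h3 : max 0 E.Y' < ζ.im := lt_of_le_of_lt (le_max_left _ _) h1
  have h4 : Y2 < ζ.im := lt_of_le_of_lt (le_max_right _ _) h1
  have h5 : E.Y' < ζ.im := lt_of_le_of_lt (le_max_right _ _) h3
  have h6 : 0 < ζ.im := lt_of_le_of_lt (le_max_left _ _) h3
  have h7 : ‖E.F (ee (ζ / E.n)) - E.F 0‖ < ε := by
    have := hY2 ζ.im h4.le ζ rfl
    rwa [dist_eq_norm] at this
  have h8 := E.hτ ζ h5
  set q := E.F (ee (ζ / E.n)) with hq
  have h9 : |q.im - (E.F 0).im| < ε := by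
    rw [← Complex.sub_im]
    exact lt_of_le_of_lt (Complex.abs_im_le_norm _) h7
  have hnc : (E.n : ℂ) = ((E.n : ℝ) : ℂ) := by push_cast; rfl
  have him : ((E.m : ℂ) * (ζ / E.n) + q).im = E.m * (ζ.im / E.n) + q.im := by
    rw [hnc, show (E.m : ℂ) = ((E.m : ℝ) : ℂ) by push_cast; rfl, Complex.add_im,
      Complex.im_ofReal_mul, Complex.div_ofReal_im]
  constructor
  · change ε ≤ ((E.M • V.τ (s ζ) : ℍ) : ℂ).im
    rw [h8, him]
    by_cases hm : E.m = 0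
    · have h10 := hεm hm
      rw [hm]
      have := (abs_lt.mp h9).1
      push_cast
      linarith
    · have hm1 : (1 : ℝ) ≤ E.m := by exact_mod_cast Nat.pos_of_ne_zero hm
      have h10 : ‖E.F 0‖ + 2 < ζ.im / E.n := by
        rw [lt_div_iff₀ (by linarith)]; linarith
      have h11 : 1 * (ζ.im / E.n) ≤ E.m * (ζ.im / E.n) :=
        mul_le_mul_of_nonneg_right hm1 (by positivity)
      have h12 := (abs_lt.mp h9).1
      have h13 : -‖E.F 0‖ ≤ (E.F 0).im := by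
        have := (abs_le.mp (Complex.abs_im_le_norm (E.F 0))).1
        exact this
      linarith
  · rw [h8]
    have h10 : ‖(E.m : ℂ) * (ζ / E.n)‖ ≤ E.m * ‖ζ‖ := by
      rw [norm_mul, norm_div, Complex.norm_natCast, Complex.norm_natCast]
      refine mul_le_mul_of_nonneg_left ?_ (by positivity)
      exact div_le_self (norm_nonneg _) hn1
    have h11 : ‖q‖ ≤ ‖E.F 0‖ + 1 := by
      have := norm_sub_norm_le q (E.F 0)
      linarith
    calc ‖(E.m : ℂ) * (ζ / E.n) + q‖ ≤ E.m * ‖ζ‖ + (‖E.F 0‖ + 1) :=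
          (norm_add_le _ _).trans (add_le_add h10 h11)
      _ ≤ (E.m + ‖E.F 0‖ + 1) * (1 + ‖ζ‖) := by
        have := norm_nonneg ζ
        have := norm_nonneg (E.F 0)
        have : (0 : ℝ) ≤ E.m := by positivity
        nlinarith [mul_nonneg (norm_nonneg (E.F 0)) (norm_nonneg ζ)]

/-- Bounds for the period. -/
theorem BA8_tau (V : Variation k X) {s : ℂ → ℍ} {Y : ℝ} (E : EndForm V s Y) :
    ∃ K δ Y1 : ℝ, 0 < K ∧ 0 < δ ∧ 0 ≤ Y1 ∧ Y ≤ Y1 ∧ ∀ ζ : ℂ, Y1 < ζ.im →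
      ‖(V.τ (s ζ) : ℂ)‖ ≤ K * (1 + ‖ζ‖) ∧ δ / (1 + ‖ζ‖) ^ 2 ≤ (V.τ (s ζ)).im := by
  obtain ⟨δ, A, Y1, hδ, hδ1, hA, hY1, hYY, h⟩ := BA8_form V E
  set g : SL(2, ℤ) := E.M⁻¹ with hg
  set B : ℝ := |(g 0 0 : ℝ)| + |(g 0 1 : ℝ)| + |(g 1 0 : ℝ)| + |(g 1 1 : ℝ)| with hB
  have hB0 : 0 ≤ B := by positivity
  have hden : ∀ T : ℍ, δ ≤ T.im → δ ≤ ‖((g 1 0 : ℤ) : ℂ) * T + ((g 1 1 : ℤ) : ℂ)‖ := by
    intro T hT
    by_cases hc : g 1 0 = 0
    · have hdet := g.det_coe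
      rw [Matrix.det_fin_two, hc, mul_zero, sub_zero] at hdet
      have hd : g 1 1 ≠ 0 := by
        intro h0; rw [h0, mul_zero] at hdet; exact zero_ne_one hdet
      rw [hc, Int.cast_zero, zero_mul, zero_add]
      have h2 : (1 : ℝ) ≤ ‖((g 1 1 : ℤ) : ℂ)‖ := by
        rw [Complex.norm_intCast]
        exact_mod_cast Int.one_le_abs hd
      linarith
    · have h2 : (1 : ℝ) ≤ |((g 1 0 : ℤ) : ℝ)| := by exact_mod_cast Int.one_le_abs hc
      have h3 : (((g 1 0 : ℤ) : ℂ) * T + ((g 1 1 : ℤ) : ℂ)).im = (g 1 0 : ℝ) * T.im := by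
        have e1 : ((g 1 0 : ℤ) : ℂ) = (((g 1 0 : ℤ) : ℝ) : ℂ) := by push_cast; rfl
        have e2 : ((g 1 1 : ℤ) : ℂ) = (((g 1 1 : ℤ) : ℝ) : ℂ) := by push_cast; rfl
        rw [e1, e2, Complex.add_im, Complex.im_ofReal_mul, Complex.ofReal_im, add_zero]
        rfl
      have h4 := Complex.abs_im_le_norm (((g 1 0 : ℤ) : ℂ) * T + ((g 1 1 : ℤ) : ℂ))
      rw [h3, abs_mul, abs_of_pos T.im_pos] at h4
      nlinarith [T.im_pos]
  have hup : ∀ (T : ℍ) (i : Fin 2) (ζ : ℂ), ‖(T : ℂ)‖ ≤ A * (1 + ‖ζ‖) →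
      ‖((g i 0 : ℤ) : ℂ) * T + ((g i 1 : ℤ) : ℂ)‖ ≤ B * (A + 1) * (1 + ‖ζ‖) := by
    intro T i ζ hT
    have c0 := abs_nonneg (g 0 0 : ℝ)
    have c1 := abs_nonneg (g 0 1 : ℝ)
    have c2 := abs_nonneg (g 1 0 : ℝ)
    have c3 := abs_nonneg (g 1 1 : ℝ)
    have h1 : |(g i 0 : ℝ)| ≤ B := by
      fin_cases i
      · change |(g 0 0 : ℝ)| ≤ B
        rw [hB]; linarith
      · change |(g 1 0 : ℝ)| ≤ B
        rw [hB]; linarith
    have h2 : |(g i 1 : ℝ)| ≤ B := by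
      fin_cases i
      · change |(g 0 1 : ℝ)| ≤ B
        rw [hB]; linarith
      · change |(g 1 1 : ℝ)| ≤ B
        rw [hB]; linarith
    have h3 := norm_nonneg ζ
    calc ‖((g i 0 : ℤ) : ℂ) * T + ((g i 1 : ℤ) : ℂ)‖
        ≤ |(g i 0 : ℝ)| * ‖(T : ℂ)‖ + |(g i 1 : ℝ)| := by
          refine (norm_add_le _ _).trans ?_
          rw [norm_mul, Complex.norm_intCast, Complex.norm_intCast]
      _ ≤ B * (A * (1 + ‖ζ‖)) + B := by gcongr
      _ ≤ B * (A + 1) * (1 + ‖ζ‖) := by nlinarith [mul_nonneg hB0 h3]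
  refine ⟨B * (A + 1) / δ + 1, δ / (B * (A + 1) + 1) ^ 2, Y1, by positivity, by positivity, hY1,
    hYY, fun ζ hζ => ?_⟩
  obtain ⟨h1, h2⟩ := h ζ hζ
  set T : ℍ := E.M • V.τ (s ζ) with hT
  have hτ : V.τ (s ζ) = g • T := by rw [hT, hg, inv_smul_smul]
  have hz := norm_nonneg ζ
  have hd0 := hden T h1
  have hdne : ((g 1 0 : ℤ) : ℂ) * T + ((g 1 1 : ℤ) : ℂ) ≠ 0 := by
    intro h0; rw [h0, norm_zero] at hd0; linarith
  have hco : ((g • T : ℍ) : ℂ) = (((g 0 0 : ℤ) : ℂ) * T + ((g 0 1 : ℤ) : ℂ)) /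
      (((g 1 0 : ℤ) : ℂ) * T + ((g 1 1 : ℤ) : ℂ)) := by
    rw [coe_specialLinearGroup_apply]
    simp
  have hu0 := hup T 0 ζ h2
  have hu1 := hup T 1 ζ h2
  constructor
  · rw [hτ, hco, norm_div, div_le_iff₀ (lt_of_lt_of_le hδ hd0)]
    calc ‖((g 0 0 : ℤ) : ℂ) * T + ((g 0 1 : ℤ) : ℂ)‖ ≤ B * (A + 1) * (1 + ‖ζ‖) := hu0
      _ = B * (A + 1) / δ * (1 + ‖ζ‖) * δ := by field_simp
      _ ≤ (B * (A + 1) / δ + 1) * (1 + ‖ζ‖) *
          ‖((g 1 0 : ℤ) : ℂ) * T + ((g 1 1 : ℤ) : ℂ)‖ := by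
        gcongr
        linarith
  · have him : (g • T : ℍ).im = T.im / ‖((g 1 0 : ℤ) : ℂ) * T + ((g 1 1 : ℤ) : ℂ)‖ ^ 2 := by
      rw [ModularGroup.im_smul_eq_div_normSq, Complex.normSq_eq_norm_sq]
      rw [ModularGroup.denom_apply]
    rw [hτ, him]
    have h3 : (0 : ℝ) < ‖((g 1 0 : ℤ) : ℂ) * T + ((g 1 1 : ℤ) : ℂ)‖ ^ 2 := by
      have := lt_of_lt_of_le hδ hd0
      positivity
    have h4 : ‖((g 1 0 : ℤ) : ℂ) * T + ((g 1 1 : ℤ) : ℂ)‖ ^ 2 ≤
        ((B * (A + 1) + 1) * (1 + ‖ζ‖)) ^ 2 := by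
      refine pow_le_pow_left₀ (norm_nonneg _) (hu1.trans ?_) 2
      gcongr
      linarith
    rw [div_div, ← mul_pow]
    exact div_le_div₀ T.im_pos.le h1 h3 h4

/-- The period and the discriminant at an end. -/
theorem Variation.tau_SG (V : Variation k X) {s : ℂ → ℍ} {Y : ℝ} (hE : X.IsEnd s Y) :
    (SG fun ζ => V.tauC (s ζ : ℂ)) ∧ SG fun ζ => V.del (s ζ : ℂ) := by
  obtain ⟨E⟩ := V.nonempty_endForm hE
  obtain ⟨K, δ, Y1, hK, hδ, hY1, hYY, h⟩ := BA8_tau V E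
  have hsd : ∀ ζ : ℂ, Y1 < ζ.im → DifferentiableAt ℂ (fun z => (s z : ℂ)) ζ := fun ζ hζ =>
    BA8_s_diff hE (lt_of_le_of_lt hYY hζ)
  have htd : ∀ ζ : ℂ, Y1 < ζ.im → DifferentiableAt ℂ (fun ζ => V.tauC (s ζ : ℂ)) ζ := fun ζ hζ =>
    DifferentiableAt.comp (g := V.tauC) (f := fun z => (s z : ℂ)) ζ
      (V.tauC_diff (s ζ).im_pos).1 (hsd ζ hζ)
  constructor
  · refine BA8_SG (Y := Y1) (K := K) (N := 1) hY1 htd fun ζ hζ => ?_
    have := (h ζ hζ).1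
    simp only [Variation.tauC, ofComplex_apply, pow_one]
    exact this
  · obtain ⟨C, hC, hCb⟩ := BA8_disc_bound
    refine BA8_SG (Y := Y1) (K := C / δ ^ 6) (N := 12) hY1 (fun ζ hζ => ?_) fun ζ hζ => ?_
    · have h1 : (fun ζ => V.del (s ζ : ℂ)) = fun ζ =>
          (fun t : ℂ => ModularForm.discriminant (ofComplex t)) (V.tauC (s ζ : ℂ)) := by
        funext ζ
        simp only [Variation.del, Variation.tauC, ofComplex_apply]
      rw [h1]
      exact DifferentiableAt.comp (g := fun t : ℂ => ModularForm.discriminant (ofComplex t))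
        (f := fun ζ => V.tauC (s ζ : ℂ)) ζ (BA8_disc_diff (V.tauC_diff (s ζ).im_pos).2) (htd ζ hζ)
    · simp only [Variation.del, ofComplex_apply]
      refine (hCb _).trans ?_
      have h2 := (h ζ hζ).2
      have h3 : 0 < δ / (1 + ‖ζ‖) ^ 2 := by positivity
      calc C / (V.τ (s ζ)).im ^ 6 ≤ C / (δ / (1 + ‖ζ‖) ^ 2) ^ 6 := by gcongr
        _ = C / δ ^ 6 * (1 + ‖ζ‖) ^ 12 := by
          rw [div_pow, ← pow_mul]
          field_simp

theorem BA9_s_diff {s : ℂ → ℍ} {Y : ℝ} (hE : X.IsEnd s Y) {ζ : ℂ} (hζ : Y < ζ.im) :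
    DifferentiableAt ℂ (fun z => (s z : ℂ)) ζ := by
  obtain ⟨hc, ⟨b, hb, h⟩ | h⟩ := hE
  · exact (LibUB33.Curve.lift_differentiable X hc h
      (fun ζ _ => by unfold ee; fun_prop) hζ).1
  · exact (LibUB33.Curve.lift_differentiable X hc h
      (fun ζ _ => by unfold ee; fun_prop) hζ).1

theorem Variation.v_SG (V : Variation k X) {s : ℂ → ℍ} {Y : ℝ} (hE : X.IsEnd s Y)
    (j : Fin (k + 1)) : SG fun ζ => V.vC j (s ζ : ℂ) := by
  refine ⟨max Y 0, le_max_right _ _, fun ζ hζ => ?_, fun R => ?_⟩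
  · exact DifferentiableAt.comp (g := V.vC j) (f := fun z => (s z : ℂ)) ζ
      (V.vC_diff j (s ζ).im_pos) (BA9_s_diff hE (lt_of_le_of_lt (le_max_left _ _) hζ))
  · obtain ⟨C, N, hC⟩ := V.growth s Y hE R
    refine ⟨|C| + N, fun ζ h1 h2 => ?_⟩
    have h3 : Y + 1 ≤ ζ.im := (add_le_add_left (le_max_left _ _) 1).trans h2
    have h4 : 1 ≤ ζ.im := by
      have := (add_le_add_left (le_max_right Y 0) 1).trans h2
      linarith
    have h5 := hC ζ h1 h3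
    have h6 : ‖V.vC j (s ζ : ℂ)‖ ≤ ‖V.v (s ζ)‖ := by
      simp only [Variation.vC, ofComplex_apply]
      exact norm_le_pi_norm _ _
    rw [abs_of_pos (by linarith : 0 < ζ.im)] at h5
    have h7 : 1 + ζ.im ≤ Real.exp ζ.im := by
      have := Real.add_one_le_exp ζ.im
      linarith
    have h8 : |C| ≤ Real.exp (|C| * ζ.im) := by
      have h9 := Real.add_one_le_exp (|C| * ζ.im)
      have h10 : |C| * 1 ≤ |C| * ζ.im := mul_le_mul_of_nonneg_left h4 (abs_nonneg C)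
      linarith
    have h11 : 0 ≤ 1 + ζ.im := by linarith
    calc ‖V.vC j (s ζ : ℂ)‖ ≤ C * (1 + ζ.im) ^ N := h6.trans h5
      _ ≤ |C| * (1 + ζ.im) ^ N := mul_le_mul_of_nonneg_right (le_abs_self C) (by positivity)
      _ ≤ Real.exp (|C| * ζ.im) * Real.exp ζ.im ^ N := by gcongr
      _ = Real.exp ((|C| + N) * ζ.im) := by
        rw [← Real.exp_nat_mul, ← Real.exp_add]
        congr 1
        ring

/-- A function of the class at all ends which is invariant and holomorphic is algebraic. -/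
theorem BA9_alg (V : Variation k X) {f : ℂ → ℂ}
    (hd : ∀ w : ℂ, 0 < w.im → DifferentiableAt ℂ f w)
    (hi : ∀ (γ : X.P) {w : ℂ}, 0 < w.im → f (mob (γ : SL(2, ℝ)) w) = f w)
    (hs : ∀ (s : ℂ → ℍ) (Y : ℝ), X.IsEnd s Y → SG fun ζ => f (s ζ : ℂ)) :
    ∃ P : ℂ[X][X], P ≠ 0 ∧ ∀ w : ℂ, 0 < w.im → EV P (lamC X w) (f w) = 0 := by
  have hmob : ∀ (γ : X.P) (z : ℍ), mob (γ : SL(2, ℝ)) (z : ℂ) = (((γ : SL(2, ℝ)) • z : ℍ) : ℂ) := by
    intro γ z
    simp only [mob, ofComplex_apply]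
  have c1 : ∀ z : ℍ, DifferentiableAt ℂ (fun w : ℂ => (fun z : ℍ => f (z : ℂ)) (ofComplex w)) z := by
    intro z
    refine (hd z z.im_pos).congr_of_eventuallyEq ?_
    filter_upwards [(isOpen_lt continuous_const Complex.continuous_im).mem_nhds z.im_pos] with w hw
    change f ((ofComplex w : ℍ) : ℂ) = f w
    rw [ofComplex_apply_of_im_pos hw]
  have c2 : ∀ g ∈ X.P, ∀ z : ℍ, (fun z : ℍ => f (z : ℂ)) (g • z) = (fun z : ℍ => f (z : ℂ)) z := by
    intro g hg z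
    have h1 := hi ⟨g, hg⟩ z.im_pos
    rw [hmob] at h1
    exact h1
  have c3 : ∀ (s : ℂ → ℍ) (Y : ℝ), X.IsEnd s Y → ∃ C Y' : ℝ, ∀ ζ : ℂ, Y' < ζ.im →
      ‖(fun z : ℍ => f (z : ℂ)) (s ζ)‖ ≤ Real.exp (C * ζ.im) := by
    intro s Y hE
    obtain ⟨E⟩ := V.nonempty_endForm hE
    refine SG.of_periodic (hs s Y hE) E.hn Y fun ζ hζ => ?_
    rw [E.hp ζ hζ]
    exact c2 E.p E.p.2 (s ζ)
  obtain ⟨P, hP, h⟩ := algebraic_of_growth X (fun z : ℍ => f (z : ℂ)) c1 c2 c3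
  refine ⟨P, hP, fun w hw => ?_⟩
  have h1 := h (ofComplex w)
  have h2 : ((ofComplex w : ℍ) : ℂ) = w := by
    rw [ofComplex_apply_of_im_pos hw]
  simp only [h2] at h1
  exact h1

/-- The three functions are algebraic. -/
theorem Variation.psi_alg (V : Variation k X) :
    (∃ P : ℂ[X][X], P ≠ 0 ∧ ∀ w : ℂ, 0 < w.im → EV P (lamC X w) (V.psi1 w) = 0) ∧
    (∃ P : ℂ[X][X], P ≠ 0 ∧ ∀ w : ℂ, 0 < w.im → EV P (lamC X w) (V.psi2 w) = 0) ∧
    ∃ P : ℂ[X][X], P ≠ 0 ∧ ∀ w : ℂ, 0 < w.im → EV P (lamC X w) (V.mm w) = 0 := by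
  have d1 : ∀ w : ℂ, 0 < w.im → DifferentiableAt ℂ V.t1 w := fun w hw =>
    dx_diff X (fun w hw => (V.tauC_diff hw).1) hw
  have d2 : ∀ w : ℂ, 0 < w.im → DifferentiableAt ℂ V.t2 w := fun w hw => dx_diff X d1 hw
  have s1 : ∀ (s : ℂ → ℍ) (Y : ℝ), X.IsEnd s Y → SG fun ζ => V.t1 (s ζ : ℂ) := fun s Y hE =>
    SG.dx hE (fun w hw => (V.tauC_diff hw).1) (V.tau_SG hE).1
  have s2 : ∀ (s : ℂ → ℍ) (Y : ℝ), X.IsEnd s Y → SG fun ζ => V.t2 (s ζ : ℂ) := fun s Y hE =>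
    SG.dx hE d1 (s1 s Y hE)
  have s3 : ∀ (s : ℂ → ℍ) (Y : ℝ), X.IsEnd s Y → SG fun ζ => V.t3 (s ζ : ℂ) := fun s Y hE =>
    SG.dx hE d2 (s2 s Y hE)
  have sg : ∀ (s : ℂ → ℍ) (Y : ℝ), X.IsEnd s Y → SG fun ζ => V.gC (s ζ : ℂ) := fun s Y hE =>
    SG.dx hE (fun w hw => V.vC_diff _ hw) (V.v_SG hE _)
  refine ⟨BA9_alg V (fun w hw => (V.psi_diff hw).1) (fun γ {w} hw => (V.psi_smul γ hw).1)
      fun s Y hE => ?_,
    BA9_alg V (fun w hw => (V.psi_diff hw).2.1) (fun γ {w} hw => (V.psi_smul γ hw).2.1)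
      fun s Y hE => ?_,
    BA9_alg V (fun w hw => (V.psi_diff hw).2.2) (fun γ {w} hw => (V.psi_smul γ hw).2.2)
      fun s Y hE => ?_⟩
  · exact ((s1 s Y hE).pow 6).mul (V.tau_SG hE).2
  · have h1 : SG fun ζ => -(3 / 2) * V.t2 (s ζ : ℂ) ^ 2 := (SG.const _).mul ((s2 s Y hE).pow 2)
    have h2 := (((((s1 s Y hE).mul (s3 s Y hE)).add h1).mul ((s1 s Y hE).pow 4)).mul
      (V.tau_SG hE).2)
    refine h2.congr 0 fun ζ _ => ?_
    simp only [Variation.psi2]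
    ring
  · exact ((sg s Y hE).pow 2).mul ((s1 s Y hE).pow k)

theorem BA10_EV (P : ℂ[X][X]) (x y : ℂ) : EV P x y =
    ∑ i ∈ Finset.range (P.natDegree + 1), (P.coeff i).eval x * y ^ i := by
  rw [EV, Polynomial.eval₂_eq_sum_range]
  refine Finset.sum_congr rfl fun i _ => ?_
  simp

theorem BA10_infinite (X : Curve) {w₀ : ℂ} (hw : 0 < w₀.im) {q : ℂ[X]}
    (h : ∀ᶠ w in 𝓝 w₀, q.eval (lamC X w) = 0) : q = 0 := by
  have hst : HasStrictDerivAt (lamC X) (deriv (lamC X) w₀) w₀ := by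
    have han : AnalyticAt ℂ (lamC X) w₀ := by
      have hopen : IsOpen {w : ℂ | 0 < w.im} := isOpen_lt continuous_const Complex.continuous_im
      exact DifferentiableOn.analyticAt
        (fun y hy => (lamC_diff X hy).1.differentiableWithinAt) (hopen.mem_nhds hw)
    exact han.hasStrictDerivAt
  have hmap := (hst.hasStrictFDerivAt_equiv (lamC_diff X hw).2).map_nhds_eq_of_equiv
  have hmem : {y | q.eval y = 0} ∈ 𝓝 (lamC X w₀) := by
    rw [← hmap]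
    exact h
  refine Polynomial.eq_zero_of_infinite_isRoot q ?_
  exact infinite_of_mem_nhds _ hmem

/-- The Schwarzian derivative is algebraic. -/
theorem Variation.schw_alg (V : Variation k X) :
    ∃ P : ℂ[X][X], P ≠ 0 ∧ ∀ w : ℂ, 0 < w.im → V.t1 w ≠ 0 →
      EV P (lamC X w) (schw (lamC X) V.tauC w) = 0 := by
  have hopen : IsOpen {w : ℂ | 0 < w.im} := isOpen_lt continuous_const Complex.continuous_im
  have hpre : IsPreconnected {w : ℂ | 0 < w.im} := (convex_halfSpace_im_gt 0).isPreconnected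
  have hdisc : ∀ w, V.del w ≠ 0 := fun w => ModularForm.discriminant_ne_zero _
  have hdiv : ∀ w : ℂ, V.t1 w ≠ 0 → schw (lamC X) V.tauC w = V.psi2 w / V.psi1 w := by
    intro w h1
    have h2 := hdisc w
    change (V.t1 w * V.t3 w - 3 / 2 * V.t2 w ^ 2) / V.t1 w ^ 2 = _
    simp only [Variation.psi1, Variation.psi2]
    field_simp
  have an : ∀ {f : ℂ → ℂ}, (∀ w : ℂ, 0 < w.im → DifferentiableAt ℂ f w) →
      AnalyticOnNhd ℂ f {w : ℂ | 0 < w.im} := fun {f} hf w hw => DifferentiableOn.analyticAt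
    (fun y hy => (hf y hy).differentiableWithinAt) (hopen.mem_nhds hw)
  have anl := an (fun w hw => (lamC_diff X hw).1)
  have an1 := an (fun w hw => (V.psi_diff hw).1)
  have an2 := an (fun w hw => (V.psi_diff hw).2.1)
  obtain ⟨w₀, hw₀, ht₀⟩ : ∃ w₀ : ℂ, 0 < w₀.im ∧ V.t1 w₀ ≠ 0 := by
    have h1 := V.t1_ne (w := Complex.I) (by simp)
    have h2 : ∀ᶠ u in 𝓝[≠] Complex.I, 0 < u.im :=
      mem_nhdsWithin_of_mem_nhds (hopen.mem_nhds (by simp))
    obtain ⟨u, hu1, hu2⟩ := (h1.and h2).exists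
    exact ⟨u, hu2, hu1.1⟩
  have hp1 : V.psi1 w₀ ≠ 0 := mul_ne_zero (pow_ne_zero _ ht₀) (hdisc w₀)
  obtain ⟨⟨P₁, hP₁, h₁⟩, ⟨P₂, hP₂, h₂⟩, _⟩ := V.psi_alg
  set x := germ w₀ (lamC X) with hx
  set a := germ w₀ V.psi1 with ha
  set b := germ w₀ V.psi2 with hb
  have hev : ∀ᶠ w in 𝓝 w₀, 0 < w.im := hopen.mem_nhds hw₀
  have e1 : EV P₁ x a = 0 := by
    rw [(germ_EV (anl w₀ hw₀) (an1 w₀ hw₀) P₁).1,
      germ_eq_zero (germ_EV (anl w₀ hw₀) (an1 w₀ hw₀) P₁).2]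
    exact hev.mono fun w hw => h₁ w hw
  have e2 : EV P₂ x b = 0 := by
    rw [(germ_EV (anl w₀ hw₀) (an2 w₀ hw₀) P₂).1,
      germ_eq_zero (germ_EV (anl w₀ hw₀) (an2 w₀ hw₀) P₂).2]
    exact hev.mono fun w hw => h₂ w hw
  have htr : Transcendental ℂ x := by
    rw [transcendental_iff]
    intro q hq
    have h3 := germ_EV (anl w₀ hw₀) (anl w₀ hw₀) (Polynomial.C q)
    have h4 : EV (Polynomial.C q) x x = 0 := by
      rw [EV, Polynomial.eval₂_C]
      exact hq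
    rw [h3.1, germ_eq_zero h3.2] at h4
    refine BA10_infinite X hw₀ (h4.mono fun w hw => ?_)
    rw [EV, Polynomial.eval₂_C] at hw
    simpa using hw
  have ha0 : a ≠ 0 := fun h0 => hp1 ((germ_eq_zero (an1 w₀ hw₀)).mp h0).self_of_nhds
  have hdep : ¬ AlgebraicIndependent ℂ ![x, b / a] := by
    refine dep_of_killed fun D hD => ?_
    have k1 := killed_of_dep htr (dep_of_EV hP₁ e1) D hD
    have k2 := killed_of_dep htr (dep_of_EV hP₂ e2) D hD
    have k3 : D (b / a * a) = 0 := by rw [div_mul_cancel₀ _ ha0, k2]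
    rw [Derivation.leibniz, k1, smul_zero, zero_add, smul_eq_mul] at k3
    exact (mul_eq_zero.mp k3).resolve_left ha0
  obtain ⟨P, hP, h3⟩ := exists_EV hdep
  refine ⟨P, hP, fun w hw ht => ?_⟩
  have hga : germ w₀ (fun z => V.psi2 z / V.psi1 z) = b / a :=
    germ_div (an2 w₀ hw₀) (an1 w₀ hw₀) hp1
  have hgan : AnalyticAt ℂ (fun z => V.psi2 z / V.psi1 z) w₀ := (an2 w₀ hw₀).div (an1 w₀ hw₀) hp1
  rw [← hga, (germ_EV (anl w₀ hw₀) hgan P).1, germ_eq_zero (germ_EV (anl w₀ hw₀) hgan P).2] at h3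
  set d := P.natDegree with hd
  let G : ℂ → ℂ := fun w => ∑ i ∈ Finset.range (d + 1), (P.coeff i).eval (lamC X w) *
    (V.psi2 w ^ i * V.psi1 w ^ (d - i))
  have hG : ∀ w, V.psi1 w ≠ 0 → G w = V.psi1 w ^ d * EV P (lamC X w) (V.psi2 w / V.psi1 w) := by
    intro w h4
    rw [BA10_EV, Finset.mul_sum]
    refine Finset.sum_congr rfl fun i hi => ?_
    rw [Finset.mem_range] at hi
    have h5 : V.psi1 w ^ d = V.psi1 w ^ (d - i) * V.psi1 w ^ i := by
      rw [← pow_add]; congr 1; omega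
    rw [h5, div_pow]
    have h6 : V.psi1 w ^ i ≠ 0 := pow_ne_zero i h4
    field_simp
  have hGan : AnalyticOnNhd ℂ G {w : ℂ | 0 < w.im} := by
    intro y hy
    refine Finset.analyticAt_fun_sum _ fun i _ => ?_
    refine AnalyticAt.mul ?_ (((an2 y hy).pow i).mul ((an1 y hy).pow (d - i)))
    have hl := anl y hy
    have : AnalyticAt ℂ (fun z => (P.coeff i).eval z) (lamC X y) :=
      (Polynomial.differentiable (P.coeff i)).analyticAt _
    exact this.comp hl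
  have hG0 : ∀ᶠ w in 𝓝 w₀, G w = 0 := by
    have h5 : ∀ᶠ w in 𝓝 w₀, V.psi1 w ≠ 0 := (an1 w₀ hw₀).continuousAt.eventually_ne hp1
    filter_upwards [h3, h5] with w h6 h7
    rw [hG w h7, h6, mul_zero]
  have h8 := hGan.eqOn_zero_of_preconnected_of_eventuallyEq_zero hpre hw₀ hG0 hw
  have h9 : V.psi1 w ≠ 0 := mul_ne_zero (pow_ne_zero _ ht) (hdisc w)
  have h10 : G w = 0 := h8
  rw [hG w h9] at h10
  rw [hdiv w ht]
  exact (mul_eq_zero.mp h10).resolve_left (pow_ne_zero d h9)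

end Base

end Pool.Agent.LibSym94
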