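import Pool.Agent.LibSym94.BDefs
import Pool.Agent.LibSym94.END

open UpperHalfPlane Matrix Filter Topology Polynomial
open scoped MatrixGroups ComplexConjugate
open Pool.Agent.LibUB33 (Curve ee)

namespace Pool.Agent.LibSym94

/-! ## Plane algebraic curves -/

section Plane

theorem B1_EV_map (P : ℂ[X][X]) (x y : ℂ) :
    EV P x y = (P.map (Polynomial.evalRingHom x)).eval y := by
  rw [Polynomial.eval_map]
  rfl

theorem B1_EV_sum (P : ℂ[X][X]) (x y : ℂ) :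
    EV P x y = ∑ b ∈ Finset.range (P.natDegree + 1), (P.coeff b).eval x * y ^ b := by
  unfold EV
  rw [Polynomial.eval₂_eq_sum_range]
  rfl

theorem EV_eq_EVh (P : ℂ[X][X]) (x p : ℂ) {q : ℂ} (hq : q ≠ 0) :
    EV P x (p / q) * q ^ P.natDegree = EVh P x p q := by
  rw [B1_EV_sum, Finset.sum_mul]
  unfold EVh
  refine Finset.sum_congr rfl fun b hb => ?_
  have hb' : b ≤ P.natDegree := Nat.lt_succ_iff.1 (Finset.mem_range.1 hb)
  have h1 : q ^ P.natDegree = q ^ b * q ^ (P.natDegree - b) := by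
    rw [← pow_add, Nat.add_sub_cancel' hb']
  have h2 : (p / q) ^ b * q ^ b = p ^ b := by
    rw [← mul_pow, div_mul_cancel₀ _ hq]
  rw [h1, ← h2]
  ring

theorem EVh_analytic (P : ℂ[X][X]) {x p q : ℂ → ℂ} {z : ℂ} (hx : DifferentiableAt ℂ x z)
    (hp : DifferentiableAt ℂ p z) (hq : DifferentiableAt ℂ q z) :
    DifferentiableAt ℂ (fun u => EVh P (x u) (p u) (q u)) z := by
  unfold EVh
  refine DifferentiableAt.fun_sum fun b _ => ?_
  have h1 : DifferentiableAt ℂ (fun u => (P.coeff b).eval (x u)) z :=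
    ((P.coeff b).differentiableAt).comp z hx
  exact (h1.mul (hp.pow b)).mul (hq.pow (P.natDegree - b))

/-- For all but finitely many `x` the polynomial `P(x, ·)` is not zero, and then it has at most
`deg P` roots. -/
theorem finite_roots {P : ℂ[X][X]} (hP : P ≠ 0) : {x : ℂ | ∀ y, EV P x y = 0}.Finite ∧
    ∀ x : ℂ, (∃ y, EV P x y ≠ 0) → ∀ f : ℕ → ℂ, (∀ j ≤ P.natDegree, EV P x (f j) = 0) →
      ∃ i j, i < j ∧ j ≤ P.natDegree ∧ f i = f j := by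
  classical
  constructor
  · have ha : P.leadingCoeff ≠ 0 := Polynomial.leadingCoeff_ne_zero.2 hP
    refine (Finset.finite_toSet P.leadingCoeff.roots.toFinset).subset fun x hx => ?_
    rw [Finset.mem_coe, Multiset.mem_toFinset, Polynomial.mem_roots ha]
    have h0 : P.map (Polynomial.evalRingHom x) = 0 := by
      refine Polynomial.funext fun y => ?_
      rw [← B1_EV_map, Polynomial.eval_zero]
      exact hx y
    have h1 := congrArg (fun Q : ℂ[X] => Q.coeff P.natDegree) h0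
    simp only [Polynomial.coeff_map, Polynomial.coeff_zero] at h1
    exact h1
  · rintro x ⟨y, hy⟩ f hf
    have hne : P.map (Polynomial.evalRingHom x) ≠ 0 := by
      intro h0
      apply hy
      rw [B1_EV_map, h0, Polynomial.eval_zero]
    have hcard : (P.map (Polynomial.evalRingHom x)).roots.toFinset.card <
        (Finset.range (P.natDegree + 1)).card := by
      rw [Finset.card_range]
      refine Nat.lt_succ_of_le ((Multiset.toFinset_card_le _).trans ?_)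
      exact (Polynomial.card_roots' _).trans Polynomial.natDegree_map_le
    obtain ⟨i, hi, j, hj, hij, hfij⟩ := Finset.exists_ne_map_eq_of_card_lt_of_maps_to hcard
      (f := f) (fun i hi => by
        have hi' : i ≤ P.natDegree := Nat.lt_succ_iff.1 (Finset.mem_range.1 hi)
        rw [Finset.mem_coe, Multiset.mem_toFinset, Polynomial.mem_roots hne, Polynomial.IsRoot.def,
          ← B1_EV_map]
        exact hf i hi')
    have hi' : i ≤ P.natDegree := Nat.lt_succ_iff.1 (Finset.mem_range.1 hi)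
    have hj' : j ≤ P.natDegree := Nat.lt_succ_iff.1 (Finset.mem_range.1 hj)
    rcases lt_or_gt_of_ne hij with h | h
    · exact ⟨i, j, h, hj', hfij⟩
    · exact ⟨j, i, h, hi', hfij.symm⟩

theorem B2_EV_sum (P : ℂ[X][X]) (x y : ℂ) :
    EV P x y = ∑ b ∈ Finset.range (P.natDegree + 1), (P.coeff b).eval x * y ^ b := by
  unfold EV
  rw [Polynomial.eval₂_eq_sum_range]
  rfl

theorem B2_mul (P Q : ℂ[X][X]) (x y : ℂ) : EV (P * Q) x y = EV P x y * EV Q x y :=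
  Polynomial.eval₂_mul _ _

theorem B2_unit {P : ℂ[X][X]} (hP : IsUnit P) (x y : ℂ) : EV P x y ≠ 0 := by
  have h1 : IsUnit (Polynomial.eval₂RingHom (Polynomial.eval₂RingHom (algebraMap ℂ ℂ) x) y P) :=
    hP.map _
  exact h1.ne_zero

theorem B2_analytic (P : ℂ[X][X]) {x y : ℂ → ℂ} {z : ℂ} (hx : AnalyticAt ℂ x z)
    (hy : AnalyticAt ℂ y z) : AnalyticAt ℂ (fun u => EV P (x u) (y u)) z := by
  have h1 : (fun u => EV P (x u) (y u)) =
      fun u => ∑ b ∈ Finset.range (P.natDegree + 1), (P.coeff b).eval (x u) * y u ^ b :=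
    funext fun u => B2_EV_sum P _ _
  rw [h1]
  refine Finset.analyticAt_fun_sum _ fun b _ => ?_
  have h2 : AnalyticAt ℂ (fun u => (P.coeff b).eval (x u)) z :=
    ((P.coeff b).differentiable.analyticAt (x z)).comp hx
  exact h2.mul (hy.pow b)

theorem B2_factor {x y : ℂ → ℂ} {z : ℂ} (hx : AnalyticAt ℂ x z) (hy : AnalyticAt ℂ y z)
    (P : ℂ[X][X]) : P ≠ 0 → (∀ᶠ u in 𝓝 z, EV P (x u) (y u) = 0) →
      ∃ Q : ℂ[X][X], Prime Q ∧ ∀ᶠ u in 𝓝 z, EV Q (x u) (y u) = 0 := by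
  induction P using UniqueFactorizationMonoid.induction_on_prime with
  | h₁ => exact fun h => absurd rfl h
  | h₂ a ha => exact fun _ h => absurd h.self_of_nhds (B2_unit ha _ _)
  | h₃ a p ha hp ih =>
    intro _ h
    have hap := B2_analytic p hx hy
    rcases hap.eventually_eq_zero_or_eventually_ne_zero with h1 | h1
    · exact ⟨p, hp, h1⟩
    · refine ih ha ?_
      have haa := B2_analytic a hx hy
      rw [← haa.frequently_zero_iff_eventually_zero]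
      refine Eventually.frequently ?_
      filter_upwards [h1, h.filter_mono nhdsWithin_le_nhds] with u h2 h3
      rw [B2_mul] at h3
      exact (mul_eq_zero.1 h3).resolve_left h2

/-- A relation between nonconstant functions gives an irreducible one. -/
theorem exists_irreducible {P : ℂ[X][X]} (hP : P ≠ 0) {x y : ℂ → ℂ} {z : ℂ}
    (hx : AnalyticAt ℂ x z) (hy : AnalyticAt ℂ y z) (hx' : deriv x z ≠ 0) (hy' : deriv y z ≠ 0)
    (h : ∀ᶠ u in 𝓝 z, EV P (x u) (y u) = 0) :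
    ∃ Q : ℂ[X][X], Irreducible Q ∧ 0 < Q.natDegree ∧ (∀ c : ℂ, Q.eval (C c) ≠ 0) ∧
      ∀ᶠ u in 𝓝 z, EV Q (x u) (y u) = 0 := by
  obtain ⟨Q, hQ, hQ0⟩ := B2_factor hx hy P hP h
  refine ⟨Q, hQ.irreducible, ?_, ?_, hQ0⟩
  · by_contra h0
    have h1 : Q = C (Q.coeff 0) := Polynomial.eq_C_of_natDegree_eq_zero (by omega)
    have hne : Q.coeff 0 ≠ 0 := by
      intro h2
      rw [h2, C_0] at h1
      exact hQ.ne_zero h1
    have h3 : ∀ᶠ u in 𝓝 z, (Q.coeff 0).eval (x u) = 0 := by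
      filter_upwards [hQ0] with u hu
      rw [h1] at hu
      rw [← hu]
      unfold EV
      rw [Polynomial.eval₂_C]
      rfl
    have hmap : Filter.map x (𝓝 z) = 𝓝 (x z) :=
      hx.hasStrictDerivAt.map_nhds_eq hx'
    have h4 : ∀ᶠ w in 𝓝 (x z), (Q.coeff 0).eval w = 0 := by
      rw [← hmap, eventually_map]
      exact h3
    exact hne (Polynomial.eq_zero_of_infinite_isRoot _ (infinite_of_mem_nhds (x z) h4))
  · intro c hc
    obtain ⟨R, hR⟩ := Polynomial.dvd_iff_isRoot.2 (show Q.IsRoot (C c) from hc)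
    have hRu : IsUnit R := (hQ.irreducible.isUnit_or_isUnit hR).resolve_left
      (Polynomial.not_isUnit_X_sub_C _)
    have h3 : ∀ᶠ u in 𝓝 z, y u = c := by
      filter_upwards [hQ0] with u hu
      rw [hR, B2_mul] at hu
      have h4 := (mul_eq_zero.1 hu).resolve_right (B2_unit hRu _ _)
      have h5 : EV (X - C (C c)) (x u) (y u) = y u - c := by
        unfold EV
        simp
      rw [h5] at h4
      exact sub_eq_zero.1 h4
    apply hy'
    have h6 : y =ᶠ[𝓝 z] fun _ => c := h3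
    rw [h6.deriv_eq, deriv_const]

theorem B3_bezout {Q : ℂ[X][X]} (hQ : Irreducible Q) (hd : 0 < Q.natDegree) :
    ∃ (A B : ℂ[X][X]) (d : ℂ[X]), d ≠ 0 ∧ A * Q + B * derivative Q = C d := by
  have hprim : Q.IsPrimitive := hQ.isPrimitive hd.ne'
  have hirr : Irreducible (Q.map (algebraMap ℂ[X] (FractionRing ℂ[X]))) :=
    (hprim.irreducible_iff_irreducible_map_fraction_map).1 hQ
  obtain ⟨a, b, hab⟩ := hirr.separable
  obtain ⟨d₁, hd₁, h₁⟩ := IsLocalization.integerNormalization_spec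
    (nonZeroDivisors ℂ[X]) a
  obtain ⟨d₂, hd₂, h₂⟩ := IsLocalization.integerNormalization_spec
    (nonZeroDivisors ℂ[X]) b
  set A := IsLocalization.integerNormalization (nonZeroDivisors ℂ[X]) a with hA
  set B := IsLocalization.integerNormalization (nonZeroDivisors ℂ[X]) b with hB
  refine ⟨C d₂ * A, C d₁ * B, d₁ * d₂, mul_ne_zero
    (nonZeroDivisors.ne_zero hd₁) (nonZeroDivisors.ne_zero hd₂), ?_⟩
  apply Polynomial.map_injective (algebraMap ℂ[X] (FractionRing ℂ[X]))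
    (IsFractionRing.injective ℂ[X] (FractionRing ℂ[X]))
  rw [Polynomial.map_add, Polynomial.map_mul, Polynomial.map_mul, Polynomial.map_mul,
    Polynomial.map_mul, h₁, h₂, Polynomial.map_C, Polynomial.map_C, Polynomial.map_C, map_mul,
    ← Polynomial.derivative_map, Algebra.smul_def, Algebra.smul_def,
    Polynomial.algebraMap_apply, Polynomial.algebraMap_apply, Polynomial.C_mul]
  linear_combination (C (algebraMap ℂ[X] (FractionRing ℂ[X]) d₁) *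
    C (algebraMap ℂ[X] (FractionRing ℂ[X]) d₂)) * hab

/-- The bad points of an irreducible polynomial. -/
theorem bad_set {Q : ℂ[X][X]} (hQ : Irreducible Q) (hd : 0 < Q.natDegree)
    (hc : ∀ c : ℂ, Q.eval (C c) ≠ 0) (B : Finset ℂ) :
    ∃ B' : Finset ℂ, Simple Q B' ∧ ∀ x ∉ B', ∀ b ∈ B, EV Q x (conj b) ≠ 0 := by
  classical
  obtain ⟨A, D, d, hd0, h⟩ := B3_bezout hQ hd
  have hQ0 : Q ≠ 0 := hQ.ne_zero
  refine ⟨d.roots.toFinset ∪ Q.leadingCoeff.roots.toFinset ∪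
    B.biUnion fun b => (Q.eval (C (conj b))).roots.toFinset, ⟨fun x hx => ?_, fun x hx y hy => ?_⟩,
    fun x hx b hb => ?_⟩
  · intro h0
    apply hx
    simp only [Finset.mem_union, Multiset.mem_toFinset]
    left; right
    exact (Polynomial.mem_roots (leadingCoeff_ne_zero.2 hQ0)).2 h0
  · intro h0
    apply hx
    simp only [Finset.mem_union, Multiset.mem_toFinset]
    left; left
    refine (Polynomial.mem_roots hd0).2 ?_
    have h1 := congrArg (fun P : ℂ[X][X] => EV P x y) h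
    simp only [EV, Polynomial.eval₂_add, Polynomial.eval₂_mul, Polynomial.eval₂_C] at h1 hy h0
    rw [hy, h0, mul_zero, mul_zero, add_zero] at h1
    have h2 : (0 : ℂ) = d.eval x := by
      rw [h1]
      simp [Polynomial.eval₂_eq_eval_map]
    exact h2.symm
  · intro h0
    apply hx
    simp only [Finset.mem_union, Finset.mem_biUnion, Multiset.mem_toFinset]
    right
    refine ⟨b, hb, (Polynomial.mem_roots (hc _)).2 ?_⟩
    have h1 : EV Q x (conj b) = (Q.eval (C (conj b))).eval x := by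
      have h2 := Polynomial.hom_eval₂ Q (RingHom.id ℂ[X])
        (Polynomial.eval₂RingHom (algebraMap ℂ ℂ) x) (C (conj b))
      rw [RingHom.comp_id] at h2
      simp only [Polynomial.coe_eval₂RingHom, Polynomial.eval₂_C] at h2
      rw [EV]
      have h3 : (algebraMap ℂ ℂ) (conj b) = conj b := rfl
      rw [h3] at h2
      rw [← h2]
      rfl
    rw [h1] at h0
    exact h0

theorem B4_EV_sum (P : ℂ[X][X]) (x y : ℂ) :
    EV P x y = ∑ b ∈ Finset.range (P.natDegree + 1), (P.coeff b).eval x * y ^ b := by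
  unfold EV
  rw [Polynomial.eval₂_eq_sum_range]
  rfl

theorem B4_EV_map (P : ℂ[X][X]) (x y : ℂ) :
    EV P x y = (P.map (Polynomial.evalRingHom x)).eval y := by
  rw [Polynomial.eval_map]
  rfl

theorem B4_cont (P : ℂ[X][X]) : Continuous fun p : ℂ × ℂ => EV P p.1 p.2 := by
  have h : (fun p : ℂ × ℂ => EV P p.1 p.2) = fun p : ℂ × ℂ =>
      ∑ b ∈ Finset.range (P.natDegree + 1), (P.coeff b).eval p.1 * p.2 ^ b :=
    funext fun p => B4_EV_sum P _ _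
  rw [h]
  refine continuous_finsetSum _ fun b _ => ?_
  exact ((P.coeff b).continuous.comp continuous_fst).mul (continuous_snd.pow b)

/-- The difference quotient. -/
noncomputable def B4_R (P : ℂ[X][X]) (p : ℂ × ℂ × ℂ) : ℂ :=
  ∑ b ∈ Finset.range (P.natDegree + 1), (P.coeff b).eval p.1 *
    ∑ i ∈ Finset.range b, p.2.1 ^ i * p.2.2 ^ (b - 1 - i)

theorem B4_R_cont (P : ℂ[X][X]) : Continuous (B4_R P) := by
  unfold B4_R
  refine continuous_finsetSum _ fun b _ => ?_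
  refine ((P.coeff b).continuous.comp continuous_fst).mul (continuous_finsetSum _ fun i _ => ?_)
  exact ((continuous_fst.comp continuous_snd).pow i).mul
    ((continuous_snd.comp continuous_snd).pow _)

theorem B4_R_eq (P : ℂ[X][X]) (x y y' : ℂ) :
    B4_R P (x, y, y') * (y - y') = EV P x y - EV P x y' := by
  rw [B4_EV_sum, B4_EV_sum, ← Finset.sum_sub_distrib, B4_R, Finset.sum_mul]
  refine Finset.sum_congr rfl fun b _ => ?_
  simp only []
  rw [mul_assoc, geom_sum₂_mul]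
  ring

theorem B4_R_diag (P : ℂ[X][X]) (x y : ℂ) : B4_R P (x, y, y) = EV (derivative P) x y := by
  have h1 : derivative P = ∑ b ∈ Finset.range (P.natDegree + 1),
      C (P.coeff b * b) * X ^ (b - 1) := by
    conv_lhs => rw [P.as_sum_range_C_mul_X_pow]
    rw [derivative_sum]
    exact Finset.sum_congr rfl fun b _ => derivative_C_mul_X_pow _ _
  have h2 : EV (derivative P) x y = ∑ b ∈ Finset.range (P.natDegree + 1),
      (P.coeff b).eval x * (b * y ^ (b - 1)) := by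
    rw [h1]
    unfold EV
    rw [Polynomial.eval₂_finsetSum]
    refine Finset.sum_congr rfl fun b _ => ?_
    rw [Polynomial.eval₂_mul, Polynomial.eval₂_C, Polynomial.eval₂_X_pow, map_mul, map_natCast,
      mul_assoc]
    rfl
  rw [h2, B4_R]
  refine Finset.sum_congr rfl fun b _ => ?_
  simp only []
  congr 1
  rw [Finset.sum_congr rfl (g := fun _ => y ^ (b - 1)) fun i hi => ?_, Finset.sum_const,
    Finset.card_range, nsmul_eq_mul]
  rw [← pow_add]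
  congr 1
  have := Finset.mem_range.1 hi
  omega

theorem B4_prod {δ : ℝ} (hδ : 0 ≤ δ) (y₀ : ℂ) (m : Multiset ℂ) :
    (∀ r ∈ m, δ ≤ ‖y₀ - r‖) → δ ^ m.card ≤ ‖(m.map fun r => y₀ - r).prod‖ := by
  induction m using Multiset.induction_on with
  | empty => simp
  | cons r m ih =>
    intro h
    rw [Multiset.card_cons, pow_succ', Multiset.map_cons, Multiset.prod_cons, norm_mul]
    exact mul_le_mul (h r (Multiset.mem_cons_self r m))
      (ih fun s hs => h s (Multiset.mem_cons_of_mem hs)) (pow_nonneg hδ _) (norm_nonneg _)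

theorem B4_near (Q : ℂ[X][X]) {x y₀ : ℂ} {δ : ℝ} (hδ : 0 < δ)
    (ha : Q.leadingCoeff.eval x ≠ 0)
    (h : ‖EV Q x y₀‖ < ‖Q.leadingCoeff.eval x‖ * δ ^ Q.natDegree) :
    ∃ y, EV Q x y = 0 ∧ ‖y - y₀‖ < δ := by
  by_contra hcon
  push Not at hcon
  have ha' : (Polynomial.evalRingHom x) Q.leadingCoeff ≠ 0 := ha
  have hl : (Q.map (Polynomial.evalRingHom x)).leadingCoeff = Q.leadingCoeff.eval x :=
    Polynomial.leadingCoeff_map_of_leadingCoeff_ne_zero _ ha'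
  have hd : (Q.map (Polynomial.evalRingHom x)).natDegree = Q.natDegree :=
    Polynomial.natDegree_map_of_leadingCoeff_ne_zero _ ha'
  have hne : Q.map (Polynomial.evalRingHom x) ≠ 0 := by
    intro h0
    rw [h0, Polynomial.leadingCoeff_zero] at hl
    exact ha hl.symm
  have hs := IsAlgClosed.splits (Q.map (Polynomial.evalRingHom x))
  have hr : (Q.map (Polynomial.evalRingHom x)).roots.card = Q.natDegree := by
    rw [← hd, ← hs.natDegree_eq_card_roots]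
  have h1 : ∀ r ∈ (Q.map (Polynomial.evalRingHom x)).roots, δ ≤ ‖y₀ - r‖ := by
    intro r hr
    rw [Polynomial.mem_roots hne, Polynomial.IsRoot.def, ← B4_EV_map] at hr
    rw [norm_sub_rev]
    exact hcon r hr
  have h2 := B4_prod hδ.le y₀ _ h1
  rw [hr] at h2
  rw [B4_EV_map, hs.eval_eq_prod_roots, hl, norm_mul] at h
  exact absurd (lt_of_mul_lt_mul_left h (norm_nonneg _)) (not_lt.2 h2)

/-- The bound of the roots. -/
theorem B4_bound (Q : ℂ[X][X]) {x y : ℂ} (ha : Q.leadingCoeff.eval x ≠ 0) (h : EV Q x y = 0) :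
    ‖y‖ ≤ 1 + (∑ b ∈ Finset.range Q.natDegree, ‖(Q.coeff b).eval x‖) /
      ‖Q.leadingCoeff.eval x‖ := by
  have hA : 0 < ‖Q.leadingCoeff.eval x‖ := norm_pos_iff.2 ha
  have hS : 0 ≤ ∑ b ∈ Finset.range Q.natDegree, ‖(Q.coeff b).eval x‖ :=
    Finset.sum_nonneg fun b _ => norm_nonneg _
  by_cases h1 : ‖y‖ ≤ 1
  · exact h1.trans (le_add_of_nonneg_right (div_nonneg hS hA.le))
  push Not at h1
  rcases Nat.eq_zero_or_pos Q.natDegree with hn | hn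
  · exfalso
    rw [B4_EV_sum, hn, zero_add, Finset.sum_range_one, pow_zero, mul_one] at h
    apply ha
    rw [Polynomial.leadingCoeff, hn]
    exact h
  have h2 : ‖Q.leadingCoeff.eval x‖ * ‖y‖ ^ Q.natDegree ≤
      (∑ b ∈ Finset.range Q.natDegree, ‖(Q.coeff b).eval x‖) * ‖y‖ ^ (Q.natDegree - 1) := by
    rw [B4_EV_sum, Finset.sum_range_succ] at h
    have h3 : (Q.coeff Q.natDegree).eval x * y ^ Q.natDegree =
        -∑ b ∈ Finset.range Q.natDegree, (Q.coeff b).eval x * y ^ b := by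
      linear_combination h
    have h4 := congrArg norm h3
    rw [norm_mul, norm_pow, norm_neg] at h4
    calc ‖Q.leadingCoeff.eval x‖ * ‖y‖ ^ Q.natDegree
        = ‖∑ b ∈ Finset.range Q.natDegree, (Q.coeff b).eval x * y ^ b‖ := h4
      _ ≤ ∑ b ∈ Finset.range Q.natDegree, ‖(Q.coeff b).eval x * y ^ b‖ := norm_sum_le _ _
      _ ≤ ∑ b ∈ Finset.range Q.natDegree, ‖(Q.coeff b).eval x‖ * ‖y‖ ^ (Q.natDegree - 1) := by
        refine Finset.sum_le_sum fun b hb => ?_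
        rw [norm_mul, norm_pow]
        refine mul_le_mul_of_nonneg_left (pow_le_pow_right₀ h1.le ?_) (norm_nonneg _)
        have := Finset.mem_range.1 hb
        omega
      _ = _ := by rw [Finset.sum_mul]
  have h3 : ‖y‖ ^ Q.natDegree = ‖y‖ ^ (Q.natDegree - 1) * ‖y‖ := by
    rw [← pow_succ, Nat.sub_add_cancel hn]
  have h4 : 0 < ‖y‖ ^ (Q.natDegree - 1) := pow_pos (by linarith) _
  rw [h3] at h2
  have h5 : ‖Q.leadingCoeff.eval x‖ * ‖y‖ ≤
      ∑ b ∈ Finset.range Q.natDegree, ‖(Q.coeff b).eval x‖ := by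
    refine le_of_mul_le_mul_right ?_ h4
    calc _ = ‖Q.leadingCoeff.eval x‖ * (‖y‖ ^ (Q.natDegree - 1) * ‖y‖) := by ring
      _ ≤ _ := h2
  have h6 : ‖y‖ ≤ (∑ b ∈ Finset.range Q.natDegree, ‖(Q.coeff b).eval x‖) /
      ‖Q.leadingCoeff.eval x‖ := by
    rw [le_div_iff₀ hA, mul_comm]
    exact h5
  linarith

/-- The total space of the roots. -/
def B4_E (Q : ℂ[X][X]) (B' : Finset ℂ) : Set (ℂ × ℂ) := {p | p.1 ∉ B' ∧ EV Q p.1 p.2 = 0}

/-- The base. -/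
def B4_S (B' : Finset ℂ) : Set ℂ := {x | x ∉ B'}

/-- The projection. -/
def B4_f (Q : ℂ[X][X]) (B' : Finset ℂ) : B4_E Q B' → B4_S B' := fun e => ⟨e.1.1, e.2.1⟩

theorem B4_f_cont (Q : ℂ[X][X]) (B' : Finset ℂ) : Continuous (B4_f Q B') :=
  Continuous.subtype_mk (continuous_fst.comp continuous_subtype_val) _

theorem B4_open {Q : ℂ[X][X]} {B' : Finset ℂ} (H : Simple Q B') : IsOpenMap (B4_f Q B') := by
  rw [isOpenMap_iff_nhds_le]
  rintro ⟨⟨x₀, y₀⟩, hx₀, hy₀⟩ N hN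
  rw [Filter.mem_map, Metric.mem_nhds_iff] at hN
  obtain ⟨ε, hε, hN⟩ := hN
  have ha : Q.leadingCoeff.eval x₀ ≠ 0 := H.lead x₀ hx₀
  have h1 : ∀ᶠ x : ℂ in 𝓝 x₀, ‖EV Q x y₀‖ < ‖Q.leadingCoeff.eval x‖ * ε ^ Q.natDegree := by
    have c1 : Continuous fun x : ℂ => ‖EV Q x y₀‖ :=
      ((B4_cont Q).comp (continuous_id.prodMk continuous_const)).norm
    have c2 : Continuous fun x : ℂ => ‖Q.leadingCoeff.eval x‖ * ε ^ Q.natDegree :=
      (Q.leadingCoeff.continuous.norm).mul continuous_const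
    refine c1.continuousAt.eventually_lt c2.continuousAt ?_
    have hy : EV Q x₀ y₀ = 0 := hy₀
    rw [hy, norm_zero]
    exact mul_pos (norm_pos_iff.2 ha) (pow_pos hε _)
  have h2 : ∀ᶠ x : ℂ in 𝓝 x₀, dist x x₀ < ε := Metric.ball_mem_nhds x₀ hε
  have h3 : Tendsto (fun x : B4_S B' => (x : ℂ)) (𝓝 (B4_f Q B' ⟨(x₀, y₀), hx₀, hy₀⟩)) (𝓝 x₀) :=
    continuous_subtype_val.continuousAt
  filter_upwards [h3.eventually h1, h3.eventually h2] with x hx1 hx2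
  obtain ⟨y, hy, hyd⟩ := B4_near Q hε (H.lead x x.2) hx1
  have h4 : (⟨(x.1, y), x.2, hy⟩ : B4_E Q B') ∈ Metric.ball (⟨(x₀, y₀), hx₀, hy₀⟩ : B4_E Q B') ε := by
    rw [Metric.mem_ball, Subtype.dist_eq, Prod.dist_eq, max_lt_iff]
    exact ⟨hx2, by rw [dist_eq_norm]; exact hyd⟩
  exact hN h4

theorem B4_local {Q : ℂ[X][X]} {B' : Finset ℂ} (H : Simple Q B') :
    IsLocalHomeomorph (B4_f Q B') := by
  rw [isLocalHomeomorph_iff_isOpenEmbedding_restrict]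
  rintro ⟨⟨x₀, y₀⟩, hx₀, hy₀⟩
  have hR : B4_R Q (x₀, y₀, y₀) ≠ 0 := by
    rw [B4_R_diag]
    exact H.simple x₀ hx₀ y₀ hy₀
  obtain ⟨ε, hε, hball⟩ := Metric.eventually_nhds_iff.1
    ((B4_R_cont Q).continuousAt.eventually_ne hR)
  refine ⟨Metric.ball (⟨(x₀, y₀), hx₀, hy₀⟩ : B4_E Q B') ε, Metric.ball_mem_nhds _ hε,
    IsOpenEmbedding.of_continuous_injective_isOpenMap ?_ ?_ ?_⟩
  · exact (B4_f_cont Q B').comp continuous_subtype_val
  · rintro ⟨⟨⟨x, y⟩, hx, hy⟩, h1⟩ ⟨⟨⟨x', y'⟩, hx', hy'⟩, h1'⟩ h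
    have hxx : x = x' := congrArg Subtype.val h
    subst hxx
    rw [Metric.mem_ball, Subtype.dist_eq, Prod.dist_eq, max_lt_iff] at h1 h1'
    have hne : B4_R Q (x, y, y') ≠ 0 := by
      apply hball
      rw [Prod.dist_eq, Prod.dist_eq]
      exact max_lt h1.1 (max_lt h1.2 h1'.2)
    have h2 := B4_R_eq Q x y y'
    have hy0 : EV Q x y = 0 := hy
    have hy0' : EV Q x y' = 0 := hy'
    rw [hy0, hy0', sub_zero] at h2
    have h3 := sub_eq_zero.1 ((mul_eq_zero.1 h2).resolve_left hne)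
    subst h3
    rfl
  · exact (B4_open H).comp Metric.isOpen_ball.isOpenMap_subtype_val

theorem B4_isOpen (B' : Finset ℂ) : IsOpen (B4_S B') := by
  have h : IsClosed ((B' : Set ℂ)) := B'.finite_toSet.isClosed
  exact h.isOpen_compl

theorem B4_closed {Q : ℂ[X][X]} {B' : Finset ℂ} (H : Simple Q B') : IsClosedMap (B4_f Q B') := by
  have : LocallyCompactSpace (B4_S B') := (B4_isOpen B').locallyCompactSpace
  refine IsProperMap.isClosedMap (isProperMap_iff_isCompact_preimage.2 ⟨B4_f_cont Q B', ?_⟩)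
  intro K hK
  have hK' : IsCompact (Subtype.val '' K) := hK.image continuous_subtype_val
  have hcont : ContinuousOn (fun x : ℂ => 1 + (∑ b ∈ Finset.range Q.natDegree,
      ‖(Q.coeff b).eval x‖) / ‖Q.leadingCoeff.eval x‖) (Subtype.val '' K) := by
    refine ContinuousOn.add continuousOn_const (ContinuousOn.div ?_ ?_ ?_)
    · exact (continuous_finsetSum _ fun b _ => (Q.coeff b).continuous.norm).continuousOn
    · exact Q.leadingCoeff.continuous.norm.continuousOn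
    · rintro _ ⟨x, -, rfl⟩
      exact norm_ne_zero_iff.2 (H.lead x x.2)
  obtain ⟨M, hM⟩ := hK'.exists_bound_of_continuousOn hcont
  rw [Subtype.isCompact_iff]
  have himg : Subtype.val '' (B4_f Q B' ⁻¹' K) =
      ((Subtype.val '' K) ×ˢ Metric.closedBall (0 : ℂ) M) ∩ {p | EV Q p.1 p.2 = 0} := by
    ext ⟨x, y⟩
    constructor
    · rintro ⟨⟨⟨x', y'⟩, hx, hy⟩, h1, h2⟩
      obtain ⟨rfl, rfl⟩ := Prod.mk.inj h2
      refine ⟨⟨⟨_, h1, rfl⟩, ?_⟩, hy⟩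
      rw [Metric.mem_closedBall, dist_zero_right]
      refine (B4_bound Q (H.lead x' hx) hy).trans ?_
      refine (le_abs_self _).trans ?_
      have := hM x' ⟨_, h1, rfl⟩
      rwa [Real.norm_eq_abs] at this
    · rintro ⟨⟨⟨x', h1, h2⟩, -⟩, hy⟩
      have h2' : (x' : ℂ) = x := h2
      subst h2'
      exact ⟨⟨(x', y), x'.2, hy⟩, h1, rfl⟩
  rw [himg]
  exact (hK'.prod (isCompact_closedBall 0 M)).inter_right
    (isClosed_eq (B4_cont Q) continuous_const)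

theorem B4_covering {Q : ℂ[X][X]} {B' : Finset ℂ} (H : Simple Q B') :
    IsCoveringMap (B4_f Q B') := by
  rw [isCoveringMap_iff_isCoveringMapOn_univ]
  refine (B4_closed H).isCoveringMapOn_of_isLocalHomeomorphOn ?_ ?_
  · rintro ⟨x, hx⟩ -
    have hne : Q.map (Polynomial.evalRingHom x) ≠ 0 := by
      intro h0
      have ha' : (Polynomial.evalRingHom x) Q.leadingCoeff ≠ 0 := H.lead x hx
      have hl := Polynomial.leadingCoeff_map_of_leadingCoeff_ne_zero (Polynomial.evalRingHom x) ha'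
      rw [h0, Polynomial.leadingCoeff_zero] at hl
      exact ha' hl.symm
    refine Set.Finite.of_finite_image (f := fun e : B4_E Q B' => (e : ℂ × ℂ).2)
      (((Q.map (Polynomial.evalRingHom x)).roots.toFinset.finite_toSet).subset ?_) ?_
    · rintro _ ⟨⟨⟨x', y⟩, hx', hy⟩, h1, rfl⟩
      have h2 : x' = x := congrArg Subtype.val h1
      subst h2
      rw [Finset.mem_coe, Multiset.mem_toFinset, Polynomial.mem_roots hne,
        Polynomial.IsRoot.def, ← B4_EV_map]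
      exact hy
    · rintro ⟨⟨x₁, y₁⟩, hx₁, hy₁⟩ h1 ⟨⟨x₂, y₂⟩, hx₂, hy₂⟩ h2 h3
      have e1 : x₁ = x := congrArg Subtype.val h1
      have e2 : x₂ = x := congrArg Subtype.val h2
      have e3 : y₁ = y₂ := h3
      subst e3
      subst e1
      subst e2
      rfl
  · exact isLocalHomeomorph_iff_isLocalHomeomorphOn_univ.1 (B4_local H)

theorem B4_diff {Q : ℂ[X][X]} {ξ η : ℂ → ℂ} {ζ₁ : ℂ} (hξ : DifferentiableAt ℂ ξ ζ₁)
    (hη : ContinuousAt η ζ₁) (h : ∀ᶠ ζ in 𝓝 ζ₁, EV Q (ξ ζ) (η ζ) = 0)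
    (h' : EV (derivative Q) (ξ ζ₁) (η ζ₁) ≠ 0) : DifferentiableAt ℂ η ζ₁ := by
  have hg : DifferentiableAt ℂ (fun ζ => EV Q (ξ ζ) (η ζ₁)) ζ₁ := by
    have h1 : (fun ζ => EV Q (ξ ζ) (η ζ₁)) = fun ζ =>
        ∑ b ∈ Finset.range (Q.natDegree + 1), (Q.coeff b).eval (ξ ζ) * η ζ₁ ^ b :=
      funext fun ζ => B4_EV_sum Q _ _
    rw [h1]
    refine DifferentiableAt.fun_sum fun b _ => ?_
    have h2 : DifferentiableAt ℂ (fun ζ => (Q.coeff b).eval (ξ ζ)) ζ₁ :=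
      ((Q.coeff b).differentiableAt).comp ζ₁ hξ
    exact h2.mul_const _
  have hslope := hasDerivAt_iff_tendsto_slope.1 hg.hasDerivAt
  have hRc : ContinuousAt (fun ζ => B4_R Q (ξ ζ, η ζ, η ζ₁)) ζ₁ :=
    (B4_R_cont Q).continuousAt.comp (f := fun ζ => (ξ ζ, η ζ, η ζ₁))
      (hξ.continuousAt.prodMk (hη.prodMk continuousAt_const))
  have hR0 : B4_R Q (ξ ζ₁, η ζ₁, η ζ₁) ≠ 0 := by
    rw [B4_R_diag]
    exact h'
  have hlim := (hslope.neg).div (hRc.tendsto.mono_left nhdsWithin_le_nhds) hR0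
  have hev : (fun ζ => -slope (fun ζ => EV Q (ξ ζ) (η ζ₁)) ζ₁ ζ /
      B4_R Q (ξ ζ, η ζ, η ζ₁)) =ᶠ[𝓝[≠] ζ₁] slope η ζ₁ := by
    filter_upwards [(hRc.eventually_ne hR0).filter_mono nhdsWithin_le_nhds,
      h.filter_mono nhdsWithin_le_nhds] with ζ h1 h2
    have h3 := B4_R_eq Q (ξ ζ) (η ζ) (η ζ₁)
    rw [h2, zero_sub] at h3
    have h4 : EV Q (ξ ζ₁) (η ζ₁) = 0 := h.self_of_nhds
    rw [div_eq_iff h1]
    simp only [slope, vsub_eq_sub, smul_eq_mul]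
    rw [h4, sub_zero]
    linear_combination (ζ - ζ₁)⁻¹ * (-h3)
  exact (hasDerivAt_iff_tendsto_slope.2 (hlim.congr' hev)).differentiableAt

/-- The roots are a covering: existence of lifts over convex open sets. -/
theorem root_lift {Q : ℂ[X][X]} {B' : Finset ℂ} (H : Simple Q B') {U : Set ℂ} (hU : IsOpen U)
    (hc : Convex ℝ U) {ξ : ℂ → ℂ} (hξ : DifferentiableOn ℂ ξ U) (hB : ∀ ζ ∈ U, ξ ζ ∉ B') {ζ₀ : ℂ}
    (hζ₀ : ζ₀ ∈ U) {y₀ : ℂ} (hy : EV Q (ξ ζ₀) y₀ = 0) :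
    ∃ η : ℂ → ℂ, DifferentiableOn ℂ η U ∧ η ζ₀ = y₀ ∧ ∀ ζ ∈ U, EV Q (ξ ζ) (η ζ) = 0 := by
  classical
  have := hc.contractibleSpace ⟨ζ₀, hζ₀⟩
  have := hU.locallyPathConnectedSpace
  have hcont : Continuous fun x : U => (⟨ξ x, hB x x.2⟩ : B4_S B') :=
    Continuous.subtype_mk (continuousOn_iff_continuous_domRestrict.1 hξ.continuousOn) _
  obtain ⟨F, ⟨hF0, hF⟩, -⟩ := (B4_covering H).existsUnique_continuousMap_lifts
    (A := U) ⟨fun x : U => (⟨ξ x, hB x x.2⟩ : B4_S B'), hcont⟩ (a₀ := ⟨ζ₀, hζ₀⟩)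
    (e₀ := ⟨(ξ ζ₀, y₀), hB ζ₀ hζ₀, hy⟩) rfl
  have hF1 : ∀ a : U, ((F a : B4_E Q B') : ℂ × ℂ).1 = ξ a := fun a =>
    congrArg Subtype.val (congrFun hF a)
  set η : ℂ → ℂ := fun ζ => if hζ : ζ ∈ U then ((F ⟨ζ, hζ⟩ : B4_E Q B') : ℂ × ℂ).2 else 0 with hη
  have hηc : ContinuousOn η U := by
    rw [continuousOn_iff_continuous_domRestrict]
    have h1 : U.domRestrict η = fun a : U => ((F a : B4_E Q B') : ℂ × ℂ).2 := by
      funext a
      simp only [Set.domRestrict_apply, hη]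
      rw [dif_pos a.2]
    rw [h1]
    exact continuous_snd.comp (continuous_subtype_val.comp F.continuous)
  have hroot : ∀ ζ ∈ U, EV Q (ξ ζ) (η ζ) = 0 := by
    intro ζ hζ
    have h1 := (F ⟨ζ, hζ⟩).2.2
    rw [hF1 ⟨ζ, hζ⟩] at h1
    have h2 : η ζ = ((F ⟨ζ, hζ⟩ : B4_E Q B') : ℂ × ℂ).2 := by
      simp only [hη]
      rw [dif_pos hζ]
    rw [h2]
    exact h1
  refine ⟨η, fun ζ hζ => ?_, ?_, hroot⟩
  · refine (B4_diff (hξ.differentiableAt (hU.mem_nhds hζ)) (hηc.continuousAt (hU.mem_nhds hζ)) ?_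
      (H.simple _ (hB ζ hζ) _ (hroot ζ hζ))).differentiableWithinAt
    filter_upwards [hU.mem_nhds hζ] with w hw
    exact hroot w hw
  · simp only [hη]
    rw [dif_pos hζ₀, hF0]

/-- The divided difference in the second variable. -/
noncomputable def B5_D (Q : ℂ[X][X]) (x y y' : ℂ) : ℂ :=
  ∑ b ∈ Finset.range (Q.natDegree + 1), (Q.coeff b).eval x *
    ∑ i ∈ Finset.range b, y ^ i * y' ^ (b - 1 - i)

theorem B5_EV (Q : ℂ[X][X]) (x y : ℂ) :
    EV Q x y = ∑ b ∈ Finset.range (Q.natDegree + 1), (Q.coeff b).eval x * y ^ b := by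
  rw [EV, eval₂_eq_sum_range]
  refine Finset.sum_congr rfl fun b _ => ?_
  rw [coe_eval₂RingHom]
  rfl

theorem B5_sub (Q : ℂ[X][X]) (x y y' : ℂ) :
    EV Q x y - EV Q x y' = B5_D Q x y y' * (y - y') := by
  rw [B5_EV, B5_EV, B5_D, ← Finset.sum_sub_distrib, Finset.sum_mul]
  refine Finset.sum_congr rfl fun b _ => ?_
  rw [mul_assoc, (Commute.all y y').geom_sum₂_mul b, mul_sub]

theorem B5_diag (Q : ℂ[X][X]) (x y : ℂ) : EV (derivative Q) x y = B5_D Q x y y := by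
  have h1 : derivative Q = ∑ b ∈ Finset.range (Q.natDegree + 1),
      C (Q.coeff b * (b : ℂ[X])) * Polynomial.X ^ (b - 1) := by
    conv_lhs => rw [Q.as_sum_range_C_mul_X_pow]
    rw [derivative_sum]
    refine Finset.sum_congr rfl fun b _ => ?_
    rw [derivative_C_mul_X_pow]
  rw [h1, EV, eval₂_finsetSum, B5_D]
  refine Finset.sum_congr rfl fun b _ => ?_
  have h2 : ∑ i ∈ Finset.range b, y ^ i * y ^ (b - 1 - i) = (b : ℂ) * y ^ (b - 1) := by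
    have h3 : ∀ i ∈ Finset.range b, y ^ i * y ^ (b - 1 - i) = y ^ (b - 1) := by
      intro i hi
      rw [← pow_add]
      congr 1
      have := Finset.mem_range.1 hi
      omega
    rw [Finset.sum_congr rfl h3, Finset.sum_const, Finset.card_range, nsmul_eq_mul]
  rw [h2, eval₂_mul, eval₂_C, eval₂_pow, eval₂_X, map_mul, map_natCast, coe_eval₂RingHom]
  change (Q.coeff b).eval x * (b : ℂ) * y ^ (b - 1) = _
  rw [mul_assoc]

theorem B5_cont (Q : ℂ[X][X]) {U : Set ℂ} {ξ η η' : ℂ → ℂ} (hξ : ContinuousOn ξ U)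
    (hη : ContinuousOn η U) (hη' : ContinuousOn η' U) :
    ContinuousOn (fun ζ => B5_D Q (ξ ζ) (η ζ) (η' ζ)) U := by
  unfold B5_D
  refine continuousOn_finsetSum _ fun b _ => ContinuousOn.mul ?_ ?_
  · exact (Q.coeff b).continuous.comp_continuousOn hξ
  · exact continuousOn_finsetSum _ fun i _ => (hη.pow i).mul (hη'.pow (b - 1 - i))

theorem root_unique {Q : ℂ[X][X]} {B' : Finset ℂ} (H : Simple Q B') {U : Set ℂ} (hU : IsOpen U)
    (hc : IsPreconnected U) {ξ : ℂ → ℂ} (hξ : ContinuousOn ξ U) (hB : ∀ ζ ∈ U, ξ ζ ∉ B')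
    {η η' : ℂ → ℂ} (hη : ContinuousOn η U) (hη' : ContinuousOn η' U)
    (h : ∀ ζ ∈ U, EV Q (ξ ζ) (η ζ) = 0) (h' : ∀ ζ ∈ U, EV Q (ξ ζ) (η' ζ) = 0) {ζ₀ : ℂ}
    (hζ₀ : ζ₀ ∈ U) (h0 : η ζ₀ = η' ζ₀) : ∀ ζ ∈ U, η ζ = η' ζ := by
  have hA : ∀ ζ ∈ U, (η ζ = η' ζ ↔ B5_D Q (ξ ζ) (η ζ) (η' ζ) ≠ 0) := by
    intro ζ hζ
    constructor
    · intro he
      rw [← he, ← B5_diag]
      exact H.simple (ξ ζ) (hB ζ hζ) (η ζ) (h ζ hζ)
    · intro hne
      have h1 := B5_sub Q (ξ ζ) (η ζ) (η' ζ)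
      rw [h ζ hζ, h' ζ hζ, sub_zero] at h1
      exact sub_eq_zero.1 ((mul_eq_zero.1 h1.symm).resolve_left hne)
  have hu : IsOpen (U ∩ (fun ζ => B5_D Q (ξ ζ) (η ζ) (η' ζ)) ⁻¹' {0}ᶜ) :=
    (B5_cont Q hξ hη hη').isOpen_inter_preimage hU isOpen_compl_singleton
  have hv : IsOpen (U ∩ (fun ζ => η ζ - η' ζ) ⁻¹' {0}ᶜ) :=
    (hη.sub hη').isOpen_inter_preimage hU isOpen_compl_singleton
  have hd : Disjoint (U ∩ (fun ζ => B5_D Q (ξ ζ) (η ζ) (η' ζ)) ⁻¹' {0}ᶜ)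
      (U ∩ (fun ζ => η ζ - η' ζ) ⁻¹' {0}ᶜ) := by
    rw [Set.disjoint_left]
    rintro ζ ⟨hζ, h1⟩ ⟨_, h2⟩
    exact h2 (sub_eq_zero.2 ((hA ζ hζ).2 h1))
  have hs : U ⊆ (U ∩ (fun ζ => B5_D Q (ξ ζ) (η ζ) (η' ζ)) ⁻¹' {0}ᶜ) ∪
      (U ∩ (fun ζ => η ζ - η' ζ) ⁻¹' {0}ᶜ) := by
    intro ζ hζ
    by_cases he : η ζ = η' ζ
    · exact Or.inl ⟨hζ, (hA ζ hζ).1 he⟩
    · exact Or.inr ⟨hζ, fun h1 => he (sub_eq_zero.1 h1)⟩
  have hne : (U ∩ (U ∩ (fun ζ => B5_D Q (ξ ζ) (η ζ) (η' ζ)) ⁻¹' {0}ᶜ)).Nonempty :=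
    ⟨ζ₀, hζ₀, hζ₀, (hA ζ₀ hζ₀).1 h0⟩
  have hsub := hc.subset_left_of_subset_union hu hv hd hs hne
  exact fun ζ hζ => (hA ζ hζ).2 (hsub hζ).2

end Plane

/-! ## Lifting to the half plane -/

section Lift

theorem B6_diff (X : Curve) {U : Set ℂ} (hU : IsOpen U) {s : ℂ → ℍ} {ψ : ℂ → ℂ}
    (hs : ContinuousOn s U) (h : ∀ ζ ∈ U, X.lam (s ζ) = ψ ζ)
    (hψ : ∀ ζ ∈ U, DifferentiableAt ℂ ψ ζ) {ζ : ℂ} (hζ : ζ ∈ U) :
    DifferentiableAt ℂ (fun z => (s z : ℂ)) ζ := by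
  obtain ⟨e, h1, h2, h3⟩ := LibUB33.endsB_local X (s ζ).im_pos
  have hsc : ContinuousAt (fun z => (s z : ℂ)) ζ :=
    continuous_coe.continuousAt.comp (hs.continuousAt (hU.mem_nhds hζ))
  have hev : (fun z => (s z : ℂ)) =ᶠ[𝓝 ζ] fun z => e.symm (ψ z) := by
    filter_upwards [hU.mem_nhds hζ, hsc.eventually_mem (e.open_source.mem_nhds h1)] with z hz hz'
    have h4 : e (s z : ℂ) = ψ z := by rw [h2, LibUB33.endsB_f_coe, h z hz]
    rw [← h4, e.left_inv hz']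
  have hmem : ψ ζ ∈ e.target := by
    have h4 : e (s ζ : ℂ) = ψ ζ := by rw [h2, LibUB33.endsB_f_coe, h ζ hζ]
    rw [← h4]
    exact e.map_source h1
  have hd := LibUB33.endsB_symm_hasDerivAt X h2 h3 hmem
  have hd2 := HasDerivAt.comp ζ hd (hψ ζ hζ).hasDerivAt
  exact (hd2.congr_of_eventuallyEq hev).differentiableAt

theorem lam_lift (X : Curve) {U : Set ℂ} (hU : IsOpen U) (hc : Convex ℝ U) {η : ℂ → ℂ}
    (hη : DifferentiableOn ℂ η U) (hB : ∀ ζ ∈ U, η ζ ∉ X.B) {ζ₀ : ℂ} (hζ₀ : ζ₀ ∈ U) {w₀ : ℂ}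
    (hw : 0 < w₀.im) (h0 : lamC X w₀ = η ζ₀) :
    ∃ σ : ℂ → ℂ, DifferentiableOn ℂ σ U ∧ σ ζ₀ = w₀ ∧
      ∀ ζ ∈ U, 0 < (σ ζ).im ∧ lamC X (σ ζ) = η ζ := by
  classical
  have hUne : U.Nonempty := ⟨ζ₀, hζ₀⟩
  have := hc.contractibleSpace hUne
  have := hU.locallyPathConnectedSpace
  set e₀ : ℍ := ⟨w₀, hw⟩ with he
  have he₀ : X.lam e₀ = η ζ₀ := by
    rw [← h0, lamC, UpperHalfPlane.ofComplex_apply_of_im_pos hw]
  obtain ⟨F, ⟨hF0, hF⟩, -⟩ := X.lam_cov.existsUnique_continuousMap_lifts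
    (A := U) ⟨fun x => η x, continuousOn_iff_continuous_domRestrict.1 hη.continuousOn⟩
    (a₀ := ⟨ζ₀, hζ₀⟩) (e₀ := e₀) he₀ (fun a => hB a a.2)
  obtain ⟨s, hs1, hs2, hs3⟩ : ∃ s : ℂ → ℍ, ContinuousOn s U ∧ s ζ₀ = e₀ ∧
      ∀ ζ ∈ U, X.lam (s ζ) = η ζ := by
    refine ⟨fun ζ => if hζ : ζ ∈ U then F ⟨ζ, hζ⟩ else e₀, ?_, ?_, ?_⟩
    · rw [continuousOn_iff_continuous_domRestrict]
      have h1 : U.domRestrict (fun ζ => if hζ : ζ ∈ U then F ⟨ζ, hζ⟩ else e₀) = F := by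
        funext x
        simp only [Set.domRestrict_apply]
        rw [dif_pos x.2]
      rw [h1]
      exact F.continuous
    · simp only []
      rw [dif_pos hζ₀]
      exact hF0
    · intro ζ hζ
      simp only []
      rw [dif_pos hζ]
      exact congrFun hF ⟨ζ, hζ⟩
  refine ⟨fun ζ => (s ζ : ℂ), ?_, ?_, ?_⟩
  · intro ζ hζ
    exact (B6_diff X hU hs1 hs3 (fun z hz => (hη z hz).differentiableAt (hU.mem_nhds hz))
      hζ).differentiableWithinAt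
  · simp only []
    rw [hs2]
  · intro ζ hζ
    refine ⟨(s ζ).im_pos, ?_⟩
    rw [lamC, ofComplex_apply]
    exact hs3 ζ hζ

theorem B6_conj {U : Set ℂ} {f : ℂ → ℂ} (hU : IsOpen U) (hf : DifferentiableOn ℂ f U) :
    DifferentiableOn ℂ (fun z => conj (f (conj z))) {z | conj z ∈ U} := by
  intro z hz
  have h1 : DifferentiableAt ℂ f (conj z) := (hf _ hz).differentiableAt (hU.mem_nhds hz)
  have h2 := h1.conj_conj
  rw [Complex.conj_conj] at h2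
  exact h2.differentiableWithinAt

/-- The mirror image. -/
theorem lam_lift_cc (X : Curve) {U : Set ℂ} (hU : IsOpen U) (hc : Convex ℝ U) {η : ℂ → ℂ}
    (hη : DifferentiableOn ℂ η U) (hB : ∀ ζ ∈ U, conj (η ζ) ∉ X.B) {ζ₀ : ℂ} (hζ₀ : ζ₀ ∈ U) {w₀ : ℂ}
    (hw : w₀.im < 0) (h0 : cc (lamC X) w₀ = η ζ₀) :
    ∃ W : ℂ → ℂ, DifferentiableOn ℂ W U ∧ W ζ₀ = w₀ ∧
      ∀ ζ ∈ U, (W ζ).im < 0 ∧ cc (lamC X) (W ζ) = η ζ := by
  have hU' : IsOpen {z : ℂ | conj z ∈ U} := hU.preimage Complex.continuous_conj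
  have hc' : Convex ℝ {z : ℂ | conj z ∈ U} := by
    intro a ha b hb s t hs ht hst
    have h1 := hc ha hb hs ht hst
    have h2 : conj (s • a + t • b) = s • conj a + t • conj b := by
      simp [Complex.real_smul]
    show conj (s • a + t • b) ∈ U
    rw [h2]
    exact h1
  obtain ⟨σ, h1, h2, h3⟩ := lam_lift X hU' hc' (η := fun z => conj (η (conj z)))
    (B6_conj hU hη) (fun ζ hζ => hB _ hζ) (ζ₀ := conj ζ₀) (by
      show conj (conj ζ₀) ∈ U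
      rw [Complex.conj_conj]
      exact hζ₀) (w₀ := conj w₀) (by
      rw [Complex.conj_im]
      linarith) (by
      simp only [Complex.conj_conj]
      rw [← h0, cc, Complex.conj_conj])
  refine ⟨fun z => conj (σ (conj z)), ?_, ?_, ?_⟩
  · have h4 := B6_conj hU' h1
    apply h4.mono
    intro z hz
    show conj (conj z) ∈ U
    rw [Complex.conj_conj]
    exact hz
  · simp only []
    rw [h2, Complex.conj_conj]
  · intro ζ hζ
    have h5 := h3 (conj ζ) (by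
      show conj (conj ζ) ∈ U
      rw [Complex.conj_conj]
      exact hζ)
    refine ⟨?_, ?_⟩
    · simp only [Complex.conj_im]
      linarith [h5.1]
    · have h6 := h5.2
      rw [Complex.conj_conj] at h6
      rw [cc, Complex.conj_conj, h6, Complex.conj_conj]

theorem B7_unique (X : Curve) {U : Set ℂ} (hc : IsPreconnected U) {s s' : ℂ → ℍ}
    (hs : ContinuousOn s U) (hs' : ContinuousOn s' U)
    (h : ∀ ζ ∈ U, X.lam (s ζ) = X.lam (s' ζ)) {ζ₀ : ℂ} (hζ₀ : ζ₀ ∈ U) (h0 : s ζ₀ = s' ζ₀) :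
    ∀ ζ ∈ U, s ζ = s' ζ := fun _ hζ =>
  IsSeparatedMap.eqOn_of_comp_eqOn (T2Space.isSeparatedMap X.lam) (LibUB33.endsB_locInj X)
    hc hs hs' h hζ₀ h0 hζ

theorem B7_cont {U : Set ℂ} {σ : ℂ → ℂ} (hσ : ContinuousOn σ U) (him : ∀ ζ ∈ U, 0 < (σ ζ).im) :
    ContinuousOn (fun ζ => ofComplex (σ ζ)) U := by
  intro ζ hζ
  have h1 : ContinuousAt ofComplex (σ ζ) := by
    have h2 := (mdifferentiableAt_ofComplex (him ζ hζ)).continuousAt
    exact h2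
  exact h1.comp_continuousWithinAt (hσ ζ hζ)

theorem lam_unique (X : Curve) {U : Set ℂ} (hc : IsPreconnected U) {σ σ' : ℂ → ℂ}
    (hσ : ContinuousOn σ U) (hσ' : ContinuousOn σ' U) (him : ∀ ζ ∈ U, 0 < (σ ζ).im)
    (him' : ∀ ζ ∈ U, 0 < (σ' ζ).im) (h : ∀ ζ ∈ U, lamC X (σ ζ) = lamC X (σ' ζ)) {ζ₀ : ℂ}
    (hζ₀ : ζ₀ ∈ U) : (σ ζ₀ = σ' ζ₀ → ∀ ζ ∈ U, σ ζ = σ' ζ) ∧
      ∃ g ∈ X.G, ∀ ζ ∈ U, σ' ζ = mob g (σ ζ) := by
  have hs := B7_cont hσ him
  have hs' := B7_cont hσ' him'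
  have he : ∀ ζ ∈ U, ((ofComplex (σ ζ) : ℍ) : ℂ) = σ ζ := fun ζ hζ => by
    rw [ofComplex_apply_of_im_pos (him ζ hζ)]
  have he' : ∀ ζ ∈ U, ((ofComplex (σ' ζ) : ℍ) : ℂ) = σ' ζ := fun ζ hζ => by
    rw [ofComplex_apply_of_im_pos (him' ζ hζ)]
  constructor
  · intro h0 ζ hζ
    rw [← he ζ hζ, ← he' ζ hζ, B7_unique X hc hs hs' h hζ₀ (congrArg ofComplex h0) ζ hζ]
  · obtain ⟨g, hg, hgs⟩ := (X.lam_fib _ _).1 (h ζ₀ hζ₀)
    refine ⟨g, hg, fun ζ hζ => ?_⟩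
    have hcont : ContinuousOn (fun ζ => g • ofComplex (σ ζ)) U :=
      (continuous_const_smul g).comp_continuousOn hs
    have h1 := B7_unique X hc hcont hs' (fun ζ hζ => by
      rw [← show lamC X (σ' ζ) = X.lam (ofComplex (σ' ζ)) from rfl, ← h ζ hζ]
      exact ((X.lam_fib _ _).2 ⟨g, hg, rfl⟩).symm) hζ₀ hgs ζ hζ
    rw [← he' ζ hζ, ← h1]
    rfl

end Lift

/-! ## Continuation of the correspondence -/

section Cont
variable {k : ℕ} {X : Curve}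

theorem B8_cc {f : ℂ → ℂ} {w : ℂ} (hf : DifferentiableAt ℂ f (conj w)) :
    HasDerivAt (cc f) (conj (deriv f (conj w))) w := by
  have h := hf.hasDerivAt.conj_conj
  rw [Complex.conj_conj] at h
  exact h

theorem cc_diff (V : Variation k X) {w : ℂ} (hw : w.im < 0) :
    DifferentiableAt ℂ (cc (lamC X)) w ∧ deriv (cc (lamC X)) w ≠ 0 ∧
      DifferentiableAt ℂ (cc V.tauC) w ∧ (cc V.tauC w).im < 0 ∧ DifferentiableAt ℂ (cc V.t1) w ∧
      dx (cc (lamC X)) (cc V.tauC) w = cc V.t1 w := by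
  have hw' : 0 < (conj w).im := by
    rw [Complex.conj_im]
    linarith
  have h1 := lamC_diff X hw'
  have h2 := V.tauC_diff hw'
  have h3 : DifferentiableAt ℂ V.t1 (conj w) := dx_diff X (fun w hw => (V.tauC_diff hw).1) hw'
  refine ⟨(B8_cc h1.1).differentiableAt, ?_, (B8_cc h2.1).differentiableAt, ?_,
    (B8_cc h3).differentiableAt, ?_⟩
  · rw [(B8_cc h1.1).deriv]
    exact (_root_.map_ne_zero (starRingEnd ℂ)).2 h1.2
  · change (conj (V.tauC (conj w))).im < 0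
    rw [Complex.conj_im]
    linarith [h2.2]
  · unfold dx
    rw [(B8_cc h1.1).deriv, (B8_cc h2.1).deriv, ← map_div₀]
    rfl

/-- The continuation of a good germ over a convex set. -/
theorem germ_extend (V : Variation k X) {Q P : ℂ[X][X]} {B' : Finset ℂ} (H : Corr X Q B')
    {U : Set ℂ} (hU : IsOpen U) (hc : Convex ℝ U) {s : ℂ → ℂ} (hs : DifferentiableOn ℂ s U)
    (him : ∀ ζ ∈ U, 0 < (s ζ).im) (hB : ∀ ζ ∈ U, lamC X (s ζ) ∉ B') {ζ₀ : ℂ} (hζ₀ : ζ₀ ∈ U)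
    (h : V.Good Q P (s ζ₀)) :
    ∃ W : ℂ → ℂ, DifferentiableOn ℂ W U ∧ ∀ ζ ∈ U, V.GoodPt Q P (s ζ) (W ζ) := by
  obtain ⟨φ, hφ, hgood⟩ := h
  have hsd : ∀ ζ ∈ U, DifferentiableAt ℂ s ζ := fun ζ hζ => hs.differentiableAt (hU.mem_nhds hζ)
  have hξd : ∀ ζ ∈ U, DifferentiableAt ℂ (fun ζ => lamC X (s ζ)) ζ := fun ζ hζ =>
    (lamC_diff X (him ζ hζ)).1.comp ζ (hsd ζ hζ)
  have hg0 := hgood.self_of_nhds
  obtain ⟨η, hηd, hη0, hη⟩ := root_lift H.toSimple hU hc (ξ := fun ζ => lamC X (s ζ))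
    (fun ζ hζ => (hξd ζ hζ).differentiableWithinAt) hB hζ₀ (y₀ := cc (lamC X) (φ (s ζ₀))) hg0.2.1
  have hav : ∀ ζ ∈ U, conj (η ζ) ∉ X.B := by
    intro ζ hζ hmem
    have h1 := H.avoid _ (hB ζ hζ) _ hmem
    rw [Complex.conj_conj] at h1
    exact h1 (hη ζ hζ)
  obtain ⟨W, hWd, hW0, hW⟩ := lam_lift_cc X hU hc hηd hav hζ₀ hg0.1 hη0.symm
  have hWd' : ∀ ζ ∈ U, DifferentiableAt ℂ W ζ := fun ζ hζ => hWd.differentiableAt (hU.mem_nhds hζ)
  refine ⟨W, hWd, ?_⟩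
  -- near `ζ₀` the two functions agree
  have hev : ∀ᶠ ζ in 𝓝 ζ₀, ζ ∈ U ∧ AnalyticAt ℂ φ (s ζ) ∧ V.GoodPt Q P (s ζ) (φ (s ζ)) := by
    have hc0 := (hsd ζ₀ hζ₀).continuousAt
    filter_upwards [hU.mem_nhds hζ₀, hc0.eventually hφ.eventually_analyticAt,
      hc0.eventually hgood] with ζ h1 h2 h3
    exact ⟨h1, h2, h3⟩
  obtain ⟨ε, hε, hball⟩ := Metric.eventually_nhds_iff_ball.1 hev
  have hζb : ζ₀ ∈ Metric.ball ζ₀ ε := Metric.mem_ball_self hε
  have hpre : IsPreconnected (Metric.ball ζ₀ ε) := (convex_ball ζ₀ ε).isPreconnected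
  have hφc : ∀ ζ ∈ Metric.ball ζ₀ ε, ContinuousAt (fun ζ => φ (s ζ)) ζ := fun ζ hζ =>
    ContinuousAt.comp (f := s) (g := φ) (hball ζ hζ).2.1.continuousAt
      (hsd ζ (hball ζ hζ).1).continuousAt
  have heq1 : ∀ ζ ∈ Metric.ball ζ₀ ε, cc (lamC X) (φ (s ζ)) = η ζ := by
    refine root_unique H.toSimple Metric.isOpen_ball hpre (ξ := fun ζ => lamC X (s ζ)) ?_ ?_ ?_ ?_
      ?_ ?_ hζb hη0.symm
    · exact fun ζ hζ => (hξd ζ (hball ζ hζ).1).continuousAt.continuousWithinAt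
    · exact fun ζ hζ => hB ζ (hball ζ hζ).1
    · intro ζ hζ
      have h1 := (cc_diff V (hball ζ hζ).2.2.1).1.continuousAt
      exact (ContinuousAt.comp (f := fun ζ => φ (s ζ)) (g := cc (lamC X)) h1
        (hφc ζ hζ)).continuousWithinAt
    · exact hηd.continuousOn.mono fun ζ hζ => (hball ζ hζ).1
    · exact fun ζ hζ => (hball ζ hζ).2.2.2.1
    · exact fun ζ hζ => hη ζ (hball ζ hζ).1
  have heq2 : ∀ ζ ∈ Metric.ball ζ₀ ε, W ζ = φ (s ζ) := by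
    have h1 := (lam_unique X hpre (σ := fun ζ => conj (W ζ)) (σ' := fun ζ => conj (φ (s ζ)))
      ?_ ?_ ?_ ?_ ?_ hζb).1 ?_
    · intro ζ hζ
      have h2 := h1 ζ hζ
      exact (starRingEnd ℂ).injective h2
    · intro ζ hζ
      exact (Complex.continuous_conj.continuousAt.comp
        (hWd' ζ (hball ζ hζ).1).continuousAt).continuousWithinAt
    · intro ζ hζ
      exact (Complex.continuous_conj.continuousAt.comp (hφc ζ hζ)).continuousWithinAt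
    · intro ζ hζ
      have h2 := (hW ζ (hball ζ hζ).1).1
      simp only [Complex.conj_im]
      linarith
    · intro ζ hζ
      have h2 := (hball ζ hζ).2.2.1
      simp only [Complex.conj_im]
      linarith
    · intro ζ hζ
      have h2 : cc (lamC X) (W ζ) = cc (lamC X) (φ (s ζ)) := by
        rw [(hW ζ (hball ζ hζ).1).2, heq1 ζ hζ]
      exact (starRingEnd ℂ).injective h2
    · simp only [hW0]
  -- the relation
  have hG : AnalyticOnNhd ℂ (fun ζ => EVh P (lamC X (s ζ)) ((V.tauC (s ζ) - cc V.tauC (W ζ)) ^ 2)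
      (V.t1 (s ζ) * cc V.t1 (W ζ))) U := by
    refine DifferentiableOn.analyticOnNhd (fun ζ hζ => ?_) hU
    have hs1 := him ζ hζ
    have hw1 := (hW ζ hζ).1
    have d1 : DifferentiableAt ℂ (fun ζ => V.tauC (s ζ)) ζ :=
      (V.tauC_diff hs1).1.comp ζ (hsd ζ hζ)
    have d2 : DifferentiableAt ℂ (fun ζ => cc V.tauC (W ζ)) ζ :=
      (cc_diff V hw1).2.2.1.comp ζ (hWd' ζ hζ)
    have d3 : DifferentiableAt ℂ (fun ζ => V.t1 (s ζ)) ζ := by
      have h3 : DifferentiableAt ℂ V.t1 (s ζ) := dx_diff X (fun w hw => (V.tauC_diff hw).1) hs1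
      exact h3.comp ζ (hsd ζ hζ)
    have d4 : DifferentiableAt ℂ (fun ζ => cc V.t1 (W ζ)) ζ :=
      (cc_diff V hw1).2.2.2.2.1.comp ζ (hWd' ζ hζ)
    exact (EVh_analytic P (hξd ζ hζ) ((d1.sub d2).pow 2) (d3.mul d4)).differentiableWithinAt
  have hzero := hG.eqOn_zero_of_preconnected_of_eventuallyEq_zero hc.isPreconnected hζ₀ (by
    filter_upwards [Metric.ball_mem_nhds ζ₀ hε] with ζ hζ
    rw [heq2 ζ hζ]
    exact (hball ζ hζ).2.2.2.2)
  intro ζ hζ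
  refine ⟨(hW ζ hζ).1, ?_, hzero hζ⟩
  rw [(hW ζ hζ).2]
  exact hη ζ hζ

theorem B9_ball (V : Variation k X) {Q P : ℂ[X][X]} {B' : Finset ℂ} (H : Corr X Q B') {c : ℂ}
    {r : ℝ} (hr : ∀ w ∈ Metric.ball c r, 0 < w.im ∧ lamC X w ∉ B') {w₀ w₁ : ℂ}
    (h₀ : w₀ ∈ Metric.ball c r) (h₁ : w₁ ∈ Metric.ball c r) (hg : V.Good Q P w₀) :
    V.Good Q P w₁ := by
  obtain ⟨W, hW, hW'⟩ := germ_extend V H Metric.isOpen_ball (convex_ball c r) (s := fun u => u)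
    differentiableOn_id (fun ζ hζ => (hr ζ hζ).1) (fun ζ hζ => (hr ζ hζ).2) h₀ hg
  refine ⟨W, hW.analyticAt (Metric.isOpen_ball.mem_nhds h₁), ?_⟩
  filter_upwards [Metric.isOpen_ball.mem_nhds h₁] with u hu
  exact hW' u hu

theorem B9_conn (z : ℂ) {r : ℝ} (hr : 0 < r) : IsPreconnected (Metric.ball z r \ {z}) := by
  have h1 : IsPreconnected {w : ℂ | w.re < Real.log r} :=
    (convex_halfSpace_re_lt (Real.log r)).isPreconnected
  have h2 := h1.image (fun w : ℂ => z + Complex.exp w)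
    (by fun_prop : Continuous fun w : ℂ => z + Complex.exp w).continuousOn
  have h3 : (fun w : ℂ => z + Complex.exp w) '' {w : ℂ | w.re < Real.log r} =
      Metric.ball z r \ {z} := by
    ext w
    constructor
    · rintro ⟨u, hu, rfl⟩
      refine ⟨?_, ?_⟩
      · rw [Metric.mem_ball, dist_eq_norm, add_sub_cancel_left, Complex.norm_exp]
        calc Real.exp u.re < Real.exp (Real.log r) := Real.exp_lt_exp.2 hu
          _ = r := Real.exp_log hr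
      · intro h4
        have h5 : z + Complex.exp u = z := h4
        exact Complex.exp_ne_zero u (add_eq_left.1 h5)
    · rintro ⟨hw, hw'⟩
      have hne : w - z ≠ 0 := sub_ne_zero.2 hw'
      refine ⟨Complex.log (w - z), ?_, ?_⟩
      · rw [Metric.mem_ball, dist_eq_norm] at hw
        change (Complex.log (w - z)).re < Real.log r
        rw [Complex.log_re]
        exact Real.log_lt_log (norm_pos_iff.2 hne) hw
      · change z + Complex.exp (Complex.log (w - z)) = w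
        rw [Complex.exp_log hne]
        ring
  rw [← h3]
  exact h2

theorem B9_iso (X : Curve) (B' : Finset ℂ) {z : ℂ} (hz : 0 < z.im) :
    ∀ᶠ w in 𝓝[≠] z, lamC X w ∉ B' := by
  obtain ⟨h1, h2⟩ := lamC_diff X hz
  have h3 : ∀ b ∈ B', ∀ᶠ w in 𝓝[≠] z, lamC X w ≠ b := fun b _ => h1.hasDerivAt.eventually_ne h2
  have h4 := (Filter.eventually_all_finset B').2 h3
  filter_upwards [h4] with w hw hw'
  exact hw _ hw' rfl

/-- If one point is good, all are, away from the bad points. -/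
theorem good_all (V : Variation k X) {Q P : ℂ[X][X]} {B' : Finset ℂ} (H : Corr X Q B') {z₁ : ℂ}
    (hz₁ : 0 < z₁.im) (h : V.Good Q P z₁) {z : ℂ} (hz : 0 < z.im) (hB : lamC X z ∉ B') :
    V.Good Q P z := by
  have hopen : IsOpen {w : ℂ | 0 < w.im} := isOpen_lt continuous_const Complex.continuous_im
  -- the first point
  have hA₁ : ∀ᶠ w in 𝓝[≠] z₁, V.Good Q P w := by
    obtain ⟨φ, hφ, hφ'⟩ := h
    have h1 : ∀ᶠ w in 𝓝 z₁, V.Good Q P w := by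
      filter_upwards [hφ.eventually_analyticAt, hφ'.eventually_nhds] with w hw hw'
      exact ⟨φ, hw, hw'⟩
    exact h1.filter_mono nhdsWithin_le_nhds
  -- punctured balls
  have hpb : ∀ x : ℂ, 0 < x.im → ∃ r : ℝ, 0 < r ∧ (∀ w ∈ Metric.ball x r, 0 < w.im) ∧
      (∀ w ∈ Metric.ball x r \ {x}, lamC X w ∉ B') ∧
      ∀ w ∈ Metric.ball x r \ {x}, ∀ w' ∈ Metric.ball x r \ {x},
        V.Good Q P w → V.Good Q P w' := by
    intro x hx
    have h1 : ∀ᶠ w in 𝓝 x, w ≠ x → lamC X w ∉ B' := by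
      have h2 := B9_iso X B' hx
      rw [eventually_nhdsWithin_iff] at h2
      exact h2
    obtain ⟨r, hr, h3⟩ := Metric.eventually_nhds_iff_ball.1 (h1.and (hopen.mem_nhds hx))
    refine ⟨r, hr, fun w hw => (h3 w hw).2, fun w hw => (h3 w hw.1).1 hw.2, ?_⟩
    have hop : IsOpen (Metric.ball x r \ {x}) := Metric.isOpen_ball.sdiff isClosed_singleton
    intro w hw w' hw' hg
    refine (B9_conn x hr).induction₂' (fun a b => V.Good Q P a → V.Good Q P b) ?_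
      (fun _ _ _ _ _ _ h1 h2 h3 => h2 (h1 h3)) hw hw' hg
    intro y hy
    obtain ⟨ρ, hρ, h4⟩ := Metric.isOpen_iff.1 hop y hy
    have h5 : ∀ u ∈ Metric.ball y ρ, 0 < u.im ∧ lamC X u ∉ B' := fun u hu =>
      ⟨(h3 u (h4 hu).1).2, (h3 u (h4 hu).1).1 (h4 hu).2⟩
    have h6 : ∀ᶠ u in 𝓝 y, u ∈ Metric.ball y ρ := Metric.ball_mem_nhds y hρ
    filter_upwards [h6.filter_mono nhdsWithin_le_nhds] with u hu
    exact ⟨B9_ball V H h5 (Metric.mem_ball_self hρ) hu, B9_ball V H h5 hu (Metric.mem_ball_self hρ)⟩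
  -- the property of punctured neighbourhoods is locally constant
  have hA : ∀ᶠ w in 𝓝[≠] z, V.Good Q P w := by
    have hconn : IsPreconnected {w : ℂ | 0 < w.im} := (convex_halfSpace_im_gt 0).isPreconnected
    refine hconn.induction₂' (fun a b => (∀ᶠ w in 𝓝[≠] a, V.Good Q P w) →
      ∀ᶠ w in 𝓝[≠] b, V.Good Q P w) ?_ (fun _ _ _ _ _ _ h1 h2 h3 => h2 (h1 h3)) hz₁ hz hA₁
    intro x hx
    obtain ⟨r, hr, -, -, h3⟩ := hpb x hx
    have h4 : ∀ a ∈ Metric.ball x r, ∀ᶠ w in 𝓝[≠] a, w ∈ Metric.ball x r \ {x} := by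
      intro a ha
      rcases eq_or_ne a x with rfl | hax
      · filter_upwards [nhdsWithin_le_nhds (Metric.isOpen_ball.mem_nhds ha),
          self_mem_nhdsWithin] with w hw hw'
        exact ⟨hw, hw'⟩
      · refine nhdsWithin_le_nhds ?_
        exact (Metric.isOpen_ball.sdiff isClosed_singleton).mem_nhds ⟨ha, hax⟩
    have h5 : ∀ a ∈ Metric.ball x r, ∀ b ∈ Metric.ball x r, (∀ᶠ w in 𝓝[≠] a, V.Good Q P w) →
        ∀ᶠ w in 𝓝[≠] b, V.Good Q P w := by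
      intro a ha b hb h6
      obtain ⟨w, hw, hw'⟩ := (h6.and (h4 a ha)).exists
      filter_upwards [h4 b hb] with w' hw''
      exact h3 w hw' w' hw'' hw
    filter_upwards [nhdsWithin_le_nhds (Metric.ball_mem_nhds x hr)] with y hy
    exact ⟨h5 x (Metric.mem_ball_self hr) y hy, h5 y hy x (Metric.mem_ball_self hr)⟩
  -- the point itself
  have h1 : ∀ᶠ w in 𝓝 z, lamC X w ∉ B' := by
    have h2 : ContinuousAt (lamC X) z := (lamC_diff X hz).1.continuousAt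
    exact h2.eventually (B'.finite_toSet.isClosed.isOpen_compl.mem_nhds hB)
  obtain ⟨r, hr, h3⟩ := Metric.eventually_nhds_iff_ball.1 (h1.and (hopen.mem_nhds hz))
  have h4 : ∀ᶠ w in 𝓝[≠] z, w ∈ Metric.ball z r :=
    nhdsWithin_le_nhds (Metric.ball_mem_nhds z hr)
  obtain ⟨w, hw, hw'⟩ := (hA.and h4).exists
  exact B9_ball V H (fun u hu => ⟨(h3 u hu).2, (h3 u hu).1⟩) hw' (Metric.mem_ball_self hr) hw

theorem B10_norm (z : ℂ) : ‖ee z‖ = Real.exp (-(2 * Real.pi * z.im)) := by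
  unfold ee
  rw [Complex.norm_exp]
  congr 1
  simp

theorem B10_small (b w : ℂ) : ∃ y : ℝ, ∀ ζ : ℂ, y < ζ.im → b + ee ζ ≠ w := by
  by_cases hw : w = b
  · refine ⟨0, fun ζ _ h => ?_⟩
    have h1 : ee ζ = 0 := by
      rw [hw] at h
      simpa using h
    exact LibUB33.ee_ne ζ h1
  · have h0 : 0 < ‖w - b‖ := norm_pos_iff.2 (sub_ne_zero.2 hw)
    refine ⟨-Real.log ‖w - b‖ / (2 * Real.pi), fun ζ hζ h => ?_⟩
    have h1 : ee ζ = w - b := by rw [← h]; ring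
    have h2 := B10_norm ζ
    rw [h1] at h2
    have h3 : Real.log ‖w - b‖ = -(2 * Real.pi * ζ.im) := by rw [h2, Real.log_exp]
    rw [h3, neg_neg, mul_div_cancel_left₀ _ (by positivity)] at hζ
    exact lt_irrefl _ hζ

theorem B10_large (w : ℂ) : ∃ y : ℝ, ∀ ζ : ℂ, y < ζ.im → ee (-ζ) ≠ w := by
  by_cases hw : w = 0
  · refine ⟨0, fun ζ _ h => ?_⟩
    exact LibUB33.ee_ne (-ζ) (h.trans hw)
  · refine ⟨Real.log ‖w‖ / (2 * Real.pi), fun ζ hζ h => ?_⟩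
    have h2 := B10_norm (-ζ)
    rw [h] at h2
    have h3 : Real.log ‖w‖ = 2 * Real.pi * ζ.im := by
      rw [h2, Real.log_exp, Complex.neg_im]
      ring
    rw [h3, mul_div_cancel_left₀ _ (by positivity)] at hζ
    exact lt_irrefl _ hζ

theorem B10_unif (B' : Finset ℂ) (Y : ℝ) (ψ : ℂ → ℂ)
    (h : ∀ w : ℂ, ∃ y : ℝ, ∀ ζ : ℂ, y < ζ.im → ψ ζ ≠ w) :
    ∃ Y' : ℝ, Y ≤ Y' ∧ ∀ ζ : ℂ, Y' < ζ.im → ψ ζ ∉ B' := by
  choose y hy using h
  obtain ⟨M, hM⟩ := (B'.image y).exists_le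
  refine ⟨max Y M, le_max_left _ _, fun ζ hζ hm => ?_⟩
  have h1 : y (ψ ζ) ≤ M := hM _ (Finset.mem_image_of_mem y hm)
  exact hy (ψ ζ) ζ (lt_of_le_of_lt (h1.trans (le_max_right _ _)) hζ) rfl

/-- The branch at an end. -/
theorem end_branch (V : Variation k X) {Q P : ℂ[X][X]} {B' : Finset ℂ} (H : Corr X Q B')
    (h : ∀ z : ℂ, 0 < z.im → lamC X z ∉ B' → V.Good Q P z) {s : ℂ → ℍ} {Y : ℝ}
    (hE : X.IsEnd s Y) : ∃ (Y' : ℝ) (W : ℂ → ℂ), Y ≤ Y' ∧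
      ∀ ζ : ℂ, Y' < ζ.im → DifferentiableAt ℂ (fun u => (s u : ℂ)) ζ ∧ DifferentiableAt ℂ W ζ ∧
        lamC X (s ζ) ∉ B' ∧ V.GoodPt Q P (s ζ) (W ζ) := by
  obtain ⟨ψ, hψ, hd, hv⟩ : ∃ ψ : ℂ → ℂ, (∀ ζ : ℂ, Y < ζ.im → X.lam (s ζ) = ψ ζ) ∧
      (∀ ζ : ℂ, Y < ζ.im → DifferentiableAt ℂ ψ ζ) ∧
      ∀ w : ℂ, ∃ y : ℝ, ∀ ζ : ℂ, y < ζ.im → ψ ζ ≠ w := by
    rcases hE.2 with ⟨b, -, hb⟩ | hb
    · exact ⟨fun ζ => b + ee ζ, hb,
        fun ζ _ => ((LibUB33.hasDerivAt_ee ζ).const_add b).differentiableAt, B10_small b⟩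
    · refine ⟨fun ζ => ee (-ζ), hb, fun ζ _ => ?_, B10_large⟩
      exact (LibUB33.hasDerivAt_ee (-ζ)).differentiableAt.comp ζ differentiableAt_id.neg
  obtain ⟨Y', hY, hB⟩ := B10_unif B' Y ψ hv
  have hU : IsOpen {ζ : ℂ | Y' < ζ.im} := isOpen_lt continuous_const Complex.continuous_im
  have hc : Convex ℝ {ζ : ℂ | Y' < ζ.im} := convex_halfSpace_im_gt Y'
  have hs : ∀ ζ : ℂ, Y' < ζ.im → DifferentiableAt ℂ (fun u => (s u : ℂ)) ζ := fun ζ hζ =>
    (X.lift_differentiable hE.1 hψ hd (lt_of_le_of_lt hY hζ)).1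
  have hl : ∀ ζ : ℂ, Y' < ζ.im → lamC X (s ζ) ∉ B' := fun ζ hζ => by
    have h1 : lamC X (s ζ) = ψ ζ := by
      unfold lamC
      rw [ofComplex_apply, hψ ζ (lt_of_le_of_lt hY hζ)]
    rw [h1]
    exact hB ζ hζ
  have h0 : Complex.I * ((Y' + 1 : ℝ) : ℂ) ∈ {ζ : ℂ | Y' < ζ.im} := by
    change Y' < (Complex.I * ((Y' + 1 : ℝ) : ℂ)).im
    simp
  obtain ⟨W, hW, hW'⟩ := germ_extend V H hU hc (s := fun u => (s u : ℂ))
    (fun ζ hζ => (hs ζ hζ).differentiableWithinAt) (fun ζ _ => (s ζ).im_pos) hl h0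
    (h _ (s _).im_pos (hl _ h0))
  exact ⟨Y', W, hY, fun ζ hζ => ⟨hs ζ hζ, (hW ζ hζ).differentiableAt (hU.mem_nhds hζ), hl ζ hζ,
    hW' ζ hζ⟩⟩

theorem B11_EV (Q : ℂ[X][X]) (x y : ℂ) : EV Q x y = (Q.eval (C y)).eval x := by
  have h1 := Polynomial.eval₂_at_apply (p := Q) (Polynomial.evalRingHom x) (C y)
  rw [Polynomial.coe_evalRingHom, Polynomial.eval_C] at h1
  rw [← h1]
  rfl

theorem B11_EV' (Q : ℂ[X][X]) (x y : ℂ) : EV Q x y = (Q.map (Polynomial.evalRingHom x)).eval y := by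
  rw [Polynomial.eval_map]
  rfl

theorem B11_ex {Q : ℂ[X][X]} {B' : Finset ℂ} (H : Simple Q B') {x : ℂ} (hx : x ∉ B') :
    ∃ y, EV Q x y ≠ 0 := by
  by_contra hc
  push Not at hc
  have h1 : Q.map (Polynomial.evalRingHom x) = 0 := by
    apply Polynomial.funext
    intro y
    rw [← B11_EV', hc, Polynomial.eval_zero]
  have h2 := congrArg (fun p : ℂ[X] => p.coeff Q.natDegree) h1
  simp only [Polynomial.coeff_map, Polynomial.coeff_zero, Polynomial.coe_evalRingHom] at h2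
  exact H.lead x hx h2

theorem B11_lam {s : ℂ → ℍ} {Y : ℝ} (hE : X.IsEnd s Y) {ζ : ℂ} (hζ : Y < ζ.im) (j : ℕ) :
    lamC X (s (ζ + j)) = lamC X (s ζ) := by
  unfold lamC
  rw [ofComplex_apply, ofComplex_apply]
  have h1 : Y < (ζ + (j : ℂ)).im := by
    rw [Complex.add_im, Complex.natCast_im, add_zero]
    exact hζ
  have h2 : ee (ζ + j) = ee ζ := by
    unfold ee
    rw [mul_add, Complex.exp_add, mul_comm _ (j : ℂ), Complex.exp_nat_mul_two_pi_mul_I, mul_one]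
  have h3 : ee (-(ζ + j)) = ee (-ζ) := by
    unfold ee
    have e : 2 * (Real.pi : ℂ) * Complex.I * (-(ζ + j)) + (j : ℂ) * (2 * Real.pi * Complex.I)
        = 2 * (Real.pi : ℂ) * Complex.I * (-ζ) := by ring
    rw [← e, Complex.exp_add, Complex.exp_nat_mul_two_pi_mul_I, mul_one]
  rcases hE.2 with ⟨b, -, hb⟩ | hb
  · rw [hb _ h1, hb _ hζ, h2]
  · rw [hb _ h1, hb _ hζ, h3]

theorem B11_inf {s : ℂ → ℍ} {Y : ℝ} (hE : X.IsEnd s Y) {M : ℝ} (hM : Y ≤ M) :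
    Function.Injective fun n : ℕ => lamC X (s (((M + 1 + n : ℝ) : ℂ) * Complex.I)) := by
  have him : ∀ n : ℕ, Y < (((M + 1 + n : ℝ) : ℂ) * Complex.I).im := by
    intro n
    rw [Complex.mul_I_im, Complex.ofReal_re]
    have : (0 : ℝ) ≤ n := Nat.cast_nonneg n
    linarith
  have hee : ∀ n : ℕ, ee (((M + 1 + n : ℝ) : ℂ) * Complex.I)
      = ((Real.exp (-(2 * Real.pi * (M + 1 + n))) : ℝ) : ℂ) := by
    intro n
    unfold ee
    rw [Complex.ofReal_exp]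
    congr 1
    push_cast
    linear_combination (2 * (Real.pi : ℂ) * (M + 1 + n)) * Complex.I_mul_I
  have hee' : ∀ n : ℕ, ee (-(((M + 1 + n : ℝ) : ℂ) * Complex.I))
      = ((Real.exp (2 * Real.pi * (M + 1 + n)) : ℝ) : ℂ) := by
    intro n
    unfold ee
    rw [Complex.ofReal_exp]
    congr 1
    push_cast
    linear_combination (-(2 * (Real.pi : ℂ) * (M + 1 + n))) * Complex.I_mul_I
  have hpi := Real.pi_pos
  intro m n hmn
  simp only at hmn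
  unfold lamC at hmn
  rw [ofComplex_apply, ofComplex_apply] at hmn
  rcases hE.2 with ⟨b, -, hb⟩ | hb
  · rw [hb _ (him m), hb _ (him n), hee, hee, add_right_inj, Complex.ofReal_inj,
      Real.exp_eq_exp] at hmn
    have h1 : (m : ℝ) = n := by
      have h2 : 2 * Real.pi * (M + 1 + m) = 2 * Real.pi * (M + 1 + n) := by linarith
      have h3 := mul_left_cancel₀ (by positivity) h2
      linarith
    exact_mod_cast h1
  · rw [hb _ (him m), hb _ (him n), hee', hee', Complex.ofReal_inj, Real.exp_eq_exp] at hmn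
    have h1 : (m : ℝ) = n := by
      have h3 := mul_left_cancel₀ (by positivity) hmn
      linarith
    exact_mod_cast h1

theorem B11_mob_mul (g h : SL(2, ℝ)) (w : ℂ) : mob g (mob h w) = mob (g * h) w := by
  unfold mob
  rw [ofComplex_apply, mul_smul]

theorem B11_mob_one {w : ℂ} (hw : 0 < w.im) : mob 1 w = w := by
  unfold mob
  rw [one_smul, ofComplex_apply_of_im_pos hw]

/-- The branch is periodic up to the fundamental group. -/
theorem branch_period (V : Variation k X) {Q P : ℂ[X][X]} {B' : Finset ℂ} (H : Corr X Q B')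
    {s : ℂ → ℍ} {Y : ℝ} (hE : X.IsEnd s Y) (E : EndForm V s Y) {Y' : ℝ} (hY : Y ≤ Y') {W : ℂ → ℂ}
    (hW : ∀ ζ : ℂ, Y' < ζ.im → DifferentiableAt ℂ (fun u => (s u : ℂ)) ζ ∧
      DifferentiableAt ℂ W ζ ∧ lamC X (s ζ) ∉ B' ∧ V.GoodPt Q P (s ζ) (W ζ)) :
    (∀ Y'' : ℝ, ∃ ζ : ℂ, Y' < ζ.im ∧ Y'' < ζ.im ∧ deriv W ζ ≠ 0) ∧
    ∃ (N : ℕ) (q : X.P), 0 < N ∧
      ∀ ζ : ℂ, Y' < ζ.im → conj (W (ζ + (N * E.n : ℕ))) = mob (q : SL(2, ℝ)) (conj (W ζ)) := by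
  have hU : IsOpen {ζ : ℂ | Y' < ζ.im} := isOpen_lt continuous_const Complex.continuous_im
  refine ⟨?_, ?_⟩
  · intro Y''
    by_contra hcon
    push Not at hcon
    have hc : Convex ℝ {ζ : ℂ | max Y' Y'' < ζ.im} := convex_halfSpace_im_gt _
    have hU2 : IsOpen {ζ : ℂ | max Y' Y'' < ζ.im} :=
      isOpen_lt continuous_const Complex.continuous_im
    have hpt : ∀ n : ℕ, (((max Y' Y'' + 1 + n : ℝ) : ℂ) * Complex.I) ∈
        {ζ : ℂ | max Y' Y'' < ζ.im} := by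
      intro n
      have h1 : (((max Y' Y'' + 1 + n : ℝ) : ℂ) * Complex.I).im = max Y' Y'' + 1 + n := by
        rw [Complex.mul_I_im, Complex.ofReal_re]
      have h2 : (0 : ℝ) ≤ n := Nat.cast_nonneg n
      change max Y' Y'' < (((max Y' Y'' + 1 + n : ℝ) : ℂ) * Complex.I).im
      rw [h1]
      linarith
    have hconst : ∀ ζ ∈ {ζ : ℂ | max Y' Y'' < ζ.im}, ∀ ζ' ∈ {ζ : ℂ | max Y' Y'' < ζ.im},
        W ζ = W ζ' := by
      intro ζ hζ ζ' hζ'
      apply hU2.is_const_of_deriv_eq_zero hc.isPreconnected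
      · intro u hu
        exact (hW u (lt_of_le_of_lt (le_max_left _ _) hu)).2.1.differentiableWithinAt
      · intro u hu
        exact hcon u (lt_of_le_of_lt (le_max_left _ _) hu) (lt_of_le_of_lt (le_max_right _ _) hu)
      · exact hζ
      · exact hζ'
    have hroot : ∀ n : ℕ, (Q.eval (C (cc (lamC X) (W (((max Y' Y'' + 1 + (0 : ℕ) : ℝ) : ℂ) *
        Complex.I))))).IsRoot (lamC X (s (((max Y' Y'' + 1 + n : ℝ) : ℂ) * Complex.I))) := by
      intro n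
      rw [Polynomial.IsRoot.def, ← B11_EV, hconst _ (hpt 0) _ (hpt n)]
      exact (hW _ (lt_of_le_of_lt (le_max_left _ _) (hpt n))).2.2.2.2.1
    apply H.nonconst (cc (lamC X) (W (((max Y' Y'' + 1 + (0 : ℕ) : ℝ) : ℂ) * Complex.I)))
    apply Polynomial.eq_zero_of_infinite_isRoot
    exact Set.infinite_of_injective_forall_mem (B11_inf hE (hY.trans (le_max_left _ _))) hroot
  · have hgood := fun ζ hζ => (hW ζ hζ).2.2.2
    have him : ∀ (j : ℕ) {ζ : ℂ}, Y' < ζ.im → Y' < (ζ + (j : ℂ)).im := by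
      intro j ζ hζ
      rw [Complex.add_im, Complex.natCast_im, add_zero]
      exact hζ
    have hcc : ∀ ζ, Y' < ζ.im → ContinuousAt (fun u => cc (lamC X) (W u)) ζ := by
      intro ζ hζ
      exact (cc_diff V (hgood ζ hζ).1).1.continuousAt.comp (hW ζ hζ).2.1.continuousAt
    have hroot : ∀ (j : ℕ) (ζ : ℂ), Y' < ζ.im →
        EV Q (lamC X (s ζ)) (cc (lamC X) (W (ζ + (j : ℂ)))) = 0 := by
      intro j ζ hζ
      rw [← B11_lam hE (lt_of_le_of_lt hY hζ) j]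
      exact (hgood _ (him j hζ)).2.1
    have hcj : ∀ j : ℕ, ContinuousOn (fun ζ => cc (lamC X) (W (ζ + (j : ℂ)))) {ζ : ℂ | Y' < ζ.im} := by
      intro j ζ hζ
      apply ContinuousAt.continuousWithinAt
      exact (hcc _ (him j hζ)).comp (f := fun ζ : ℂ => ζ + (j : ℂ))
        (continuousAt_id.add continuousAt_const)
    let ζ₀ : ℂ := ((Y' + 1 : ℝ) : ℂ) * Complex.I
    have hζ₀ : Y' < ζ₀.im := by
      change Y' < (((Y' + 1 : ℝ) : ℂ) * Complex.I).im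
      rw [Complex.mul_I_im, Complex.ofReal_re]
      linarith
    have hQ : Q ≠ 0 := by
      intro h0
      apply H.nonconst 0
      rw [h0, Polynomial.eval_zero]
    obtain ⟨i, j, hij, -, he⟩ := (finite_roots hQ).2 _ (B11_ex H.toSimple (hW ζ₀ hζ₀).2.2.1)
      (fun j => cc (lamC X) (W (ζ₀ + ((j * E.n : ℕ) : ℂ)))) (fun j _ => hroot _ ζ₀ hζ₀)
    have hsC : ContinuousOn (fun ζ => lamC X (s ζ)) {ζ : ℂ | Y' < ζ.im} := by
      intro ζ hζ
      apply ContinuousAt.continuousWithinAt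
      exact ContinuousAt.comp (g := lamC X) (f := fun u => (s u : ℂ))
        (lamC_diff X (s ζ).im_pos).1.continuousAt (hW ζ hζ).1.continuousAt
    have hall := root_unique H.toSimple hU (convex_halfSpace_im_gt Y').isPreconnected hsC
      (fun ζ hζ => (hW ζ hζ).2.2.1) (hcj (i * E.n)) (hcj (j * E.n))
      (fun ζ hζ => hroot _ ζ hζ) (fun ζ hζ => hroot _ ζ hζ) hζ₀ he
    have hper : ∀ ζ : ℂ, Y' < ζ.im →
        cc (lamC X) (W (ζ + (((j - i) * E.n : ℕ) : ℂ))) = cc (lamC X) (W ζ) := by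
      intro ζ hζ
      have h1 : Y' < (ζ - ((i * E.n : ℕ) : ℂ)).im := by
        rw [Complex.sub_im, Complex.natCast_im, sub_zero]
        exact hζ
      have h2 := hall _ h1
      have e1 : ζ - ((i * E.n : ℕ) : ℂ) + ((i * E.n : ℕ) : ℂ) = ζ := by ring
      have e2 : ζ - ((i * E.n : ℕ) : ℂ) + ((j * E.n : ℕ) : ℂ) = ζ + (((j - i) * E.n : ℕ) : ℂ) := by
        push_cast [Nat.cast_sub hij.le]
        ring
      rw [e1, e2] at h2
      exact h2.symm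
    have hWc : ∀ ζ, Y' < ζ.im → ContinuousAt W ζ := fun ζ hζ => (hW ζ hζ).2.1.continuousAt
    obtain ⟨-, g, hg, hgs⟩ := lam_unique X (convex_halfSpace_im_gt Y').isPreconnected
      (σ := fun ζ => conj (W ζ)) (σ' := fun ζ => conj (W (ζ + (((j - i) * E.n : ℕ) : ℂ))))
      (fun ζ hζ => (Complex.continuous_conj.continuousAt.comp
        (hWc ζ hζ)).continuousWithinAt)
      (fun ζ hζ => (Complex.continuous_conj.continuousAt.comp ((hWc _ (him _ hζ)).comp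
        (f := fun ζ : ℂ => ζ + (((j - i) * E.n : ℕ) : ℂ))
        (continuousAt_id.add continuousAt_const))).continuousWithinAt)
      (fun ζ hζ => by
        rw [Complex.conj_im]
        have := (hgood ζ hζ).1
        linarith)
      (fun ζ hζ => by
        rw [Complex.conj_im]
        have := (hgood _ (him ((j - i) * E.n) hζ)).1
        linarith)
      (fun ζ hζ => by
        have h1 := hper ζ hζ
        unfold cc at h1
        have h2 := congrArg (starRingEnd ℂ) h1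
        rw [Complex.conj_conj, Complex.conj_conj] at h2
        exact h2.symm) (ζ₀ := ζ₀) hζ₀
    have hpow : ∀ (m : ℕ) (ζ : ℂ), Y' < ζ.im →
        conj (W (ζ + ((m * ((j - i) * E.n) : ℕ) : ℂ))) = mob (g ^ m) (conj (W ζ)) := by
      intro m
      induction m with
      | zero =>
        intro ζ hζ
        rw [pow_zero, B11_mob_one]
        · simp
        · rw [Complex.conj_im]
          have := (hgood ζ hζ).1
          linarith
      | succ m ih =>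
        intro ζ hζ
        have e1 : ζ + (((m + 1) * ((j - i) * E.n) : ℕ) : ℂ)
            = (ζ + ((m * ((j - i) * E.n) : ℕ) : ℂ)) + (((j - i) * E.n : ℕ) : ℂ) := by
          push_cast
          ring
        rw [e1]
        have h1 := hgs _ (him (m * ((j - i) * E.n)) hζ)
        rw [h1, ih ζ hζ, B11_mob_mul, pow_succ']
    obtain ⟨m, hm, -, hmP⟩ := Subgroup.exists_pow_mem_of_relIndex_ne_zero X.index_ne hg
    refine ⟨m * (j - i), ⟨g ^ m, hmP.1⟩, Nat.mul_pos hm (by omega), fun ζ hζ => ?_⟩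
    rw [mul_assoc]
    exact hpow m ζ hζ


theorem B12_prod {U : Set ℂ} (hU : IsPreconnected U) (hne : U.Nonempty) {ι : Type}
    (s : Finset ι) (f : ι → ℂ → ℂ) (hf : ∀ i ∈ s, AnalyticOnNhd ℂ (f i) U)
    (h : ∀ z ∈ U, ∏ i ∈ s, f i z = 0) : ∃ i ∈ s, ∀ z ∈ U, f i z = 0 := by
  classical
  induction s using Finset.induction_on with
  | empty =>
    obtain ⟨z, hz⟩ := hne
    exact absurd (h z hz) (by simp)
  | insert a s ha ih =>
    have h1 : AnalyticOnNhd ℂ (f a) U := hf a (Finset.mem_insert_self a s)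
    have h2 : AnalyticOnNhd ℂ (fun z => ∏ i ∈ s, f i z) U := by
      have h3 := Finset.analyticOnNhd_fun_prod s (f := f) (s := U)
        fun i hi => hf i (Finset.mem_insert_of_mem hi)
      exact h3
    have h4 : ∀ z ∈ U, f a z * ∏ i ∈ s, f i z = 0 := fun z hz => by
      have h5 := h z hz
      rw [Finset.prod_insert ha] at h5
      exact h5
    rcases AnalyticOnNhd.eq_zero_or_eq_zero_of_mul_eq_zero h1 h2 h4 hU with h5 | h5
    · exact ⟨a, Finset.mem_insert_self a s, h5⟩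
    · obtain ⟨i, hi, h6⟩ := ih (fun i hi => hf i (Finset.mem_insert_of_mem hi)) h5
      exact ⟨i, Finset.mem_insert_of_mem hi, h6⟩

/-- The invariant is periodic. -/
theorem theta_period {P : ℂ[X][X]} (hP : P ≠ 0) {Y : ℝ} {n : ℕ} (hn : 0 < n) {x A D : ℂ → ℂ}
    (hx : ∀ ζ : ℂ, Y < ζ.im → DifferentiableAt ℂ x ζ ∧ x (ζ + n) = x ζ)
    (hxn : ∃ ζ : ℂ, Y < ζ.im ∧ deriv x ζ ≠ 0)
    (hA : ∀ ζ : ℂ, Y < ζ.im → DifferentiableAt ℂ A ζ)
    (hD : ∀ ζ : ℂ, Y < ζ.im → DifferentiableAt ℂ D ζ) (hD0 : ∃ ζ : ℂ, Y < ζ.im ∧ D ζ ≠ 0)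
    (h : ∀ ζ : ℂ, Y < ζ.im → EVh P (x ζ) (A ζ) (D ζ) = 0) :
    ∃ N : ℕ, 0 < N ∧ ∀ ζ : ℂ, Y < ζ.im →
      A (ζ + (N * n : ℕ)) * D ζ = A ζ * D (ζ + (N * n : ℕ)) := by
  classical
  set U : Set ℂ := {ζ | Y < ζ.im} with hUdef
  have hUo : IsOpen U := isOpen_lt continuous_const Complex.continuous_im
  have hUc : IsPreconnected U := (convex_halfSpace_im_gt Y).isPreconnected
  have hUne : U.Nonempty := by
    obtain ⟨ζ, hζ, -⟩ := hD0
    exact ⟨ζ, hζ⟩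
  have him : ∀ (m : ℕ) (ζ : ℂ), Y < ζ.im → Y < (ζ + (m : ℂ)).im := by
    intro m ζ hζ
    simpa using hζ
  -- periodicity of `x`
  have hxp : ∀ (j : ℕ) (ζ : ℂ), Y < ζ.im → x (ζ + (j * n : ℕ)) = x ζ := by
    intro j
    induction j with
    | zero =>
      intro ζ _
      simp
    | succ j ih =>
      intro ζ hζ
      have h1 : ζ + ((j + 1) * n : ℕ) = (ζ + (j * n : ℕ)) + n := by
        push_cast
        ring
      rw [h1, (hx _ (him _ ζ hζ)).2, ih ζ hζ]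
  -- shifted functions
  have hshift : ∀ (f : ℂ → ℂ), (∀ ζ : ℂ, Y < ζ.im → DifferentiableAt ℂ f ζ) → ∀ m : ℕ,
      AnalyticOnNhd ℂ (fun ζ => f (ζ + (m : ℂ))) U := by
    intro f hf m
    refine DifferentiableOn.analyticOnNhd (fun ζ hζ => ?_) hUo
    have h1 : DifferentiableAt ℂ f (ζ + (m : ℂ)) := hf _ (him m ζ hζ)
    exact (h1.comp ζ ((differentiableAt_id).add_const _)).differentiableWithinAt
  obtain ⟨hfin, hroots⟩ := finite_roots hP
  set d := P.natDegree with hd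
  -- three kinds of factors
  let ι := (ℕ × ℕ) ⊕ (ℕ ⊕ ℂ)
  let f : ι → ℂ → ℂ := fun i => match i with
    | Sum.inl (i, j) => fun ζ => A (ζ + (i * n : ℕ)) * D (ζ + (j * n : ℕ)) -
        A (ζ + (j * n : ℕ)) * D (ζ + (i * n : ℕ))
    | Sum.inr (Sum.inl j) => fun ζ => D (ζ + (j * n : ℕ))
    | Sum.inr (Sum.inr c) => fun ζ => x ζ - c
  let s1 : Finset (ℕ × ℕ) := ((Finset.range (d + 1)) ×ˢ (Finset.range (d + 1))).filter
    fun p => p.1 < p.2
  let s : Finset ι := s1.disjSum ((Finset.range (d + 1)).disjSum hfin.toFinset)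
  have hfa : ∀ i ∈ s, AnalyticOnNhd ℂ (f i) U := by
    intro i _
    rcases i with ⟨i, j⟩ | j | c
    · exact ((hshift A hA _).mul (hshift D hD _)).sub ((hshift A hA _).mul (hshift D hD _))
    · exact hshift D hD _
    · have h1 : AnalyticOnNhd ℂ x U :=
        DifferentiableOn.analyticOnNhd (fun ζ hζ => (hx ζ hζ).1.differentiableWithinAt) hUo
      exact h1.sub analyticOnNhd_const
  have hprod : ∀ z ∈ U, ∏ i ∈ s, f i z = 0 := by
    intro z hz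
    have hz' : Y < z.im := hz
    by_cases hDz : ∃ j ≤ d, D (z + (j * n : ℕ)) = 0
    · obtain ⟨j, hj, hj0⟩ := hDz
      refine Finset.prod_eq_zero (i := Sum.inr (Sum.inl j)) ?_ hj0
      exact Finset.inr_mem_disjSum.2 (Finset.inl_mem_disjSum.2
        (Finset.mem_range.2 (by omega)))
    · by_cases hxz : ∀ y, EV P (x z) y = 0
      · refine Finset.prod_eq_zero (i := Sum.inr (Sum.inr (x z))) ?_ (sub_self (x z))
        exact Finset.inr_mem_disjSum.2 (Finset.inr_mem_disjSum.2 (hfin.mem_toFinset.2 hxz))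
      · push Not at hDz hxz
        obtain ⟨i, j, hij, hj, he⟩ := hroots (x z) hxz
          (fun j => A (z + (j * n : ℕ)) / D (z + (j * n : ℕ))) (by
            intro j hj
            have h1 := EV_eq_EVh P (x z) (A (z + (j * n : ℕ))) (hDz j hj)
            have h2 := h (z + (j * n : ℕ)) (him _ z hz')
            rw [hxp j z hz'] at h2
            rw [h2] at h1
            exact (mul_eq_zero.1 h1).resolve_right (pow_ne_zero _ (hDz j hj)))
        have he' : A (z + (i * n : ℕ)) * D (z + (j * n : ℕ)) =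
            A (z + (j * n : ℕ)) * D (z + (i * n : ℕ)) :=
          (div_eq_div_iff (hDz i (by omega)) (hDz j hj)).1 he
        refine Finset.prod_eq_zero (i := Sum.inl (i, j)) ?_ (sub_eq_zero.2 he')
        refine Finset.inl_mem_disjSum.2 (Finset.mem_filter.2 ⟨?_, hij⟩)
        exact Finset.mem_product.2 ⟨Finset.mem_range.2 (by omega), Finset.mem_range.2 (by omega)⟩
  obtain ⟨k, hk, hk0⟩ := B12_prod hUc hUne s f hfa hprod
  rcases k with ⟨i, j⟩ | j | c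
  · have hij : i < j := by
      have h1 := Finset.inl_mem_disjSum.1 hk
      exact (Finset.mem_filter.1 h1).2
    refine ⟨j - i, by omega, fun ζ hζ => ?_⟩
    have hζ' : Y < (ζ - (i * n : ℕ)).im := by
      rw [Complex.sub_im, Complex.natCast_im, sub_zero]
      exact hζ
    have h1 := hk0 (ζ - (i * n : ℕ)) hζ'
    have h2 : ζ - (i * n : ℕ) + (i * n : ℕ) = ζ := by ring
    have h3 : ζ - (i * n : ℕ) + (j * n : ℕ) = ζ + ((j - i) * n : ℕ) := by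
      push_cast [Nat.cast_sub hij.le]
      ring
    have h4 : A (ζ - (i * n : ℕ) + (i * n : ℕ)) * D (ζ - (i * n : ℕ) + (j * n : ℕ)) -
        A (ζ - (i * n : ℕ) + (j * n : ℕ)) * D (ζ - (i * n : ℕ) + (i * n : ℕ)) = 0 := h1
    rw [h2, h3] at h4
    exact (sub_eq_zero.1 h4).symm
  · exfalso
    obtain ⟨ζ, hζ, hne⟩ := hD0
    have hζ' : Y < (ζ - (j * n : ℕ)).im := by
      rw [Complex.sub_im, Complex.natCast_im, sub_zero]
      exact hζ
    have h1 : D (ζ - (j * n : ℕ) + (j * n : ℕ)) = 0 := hk0 (ζ - (j * n : ℕ)) hζ'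
    have h2 : ζ - (j * n : ℕ) + (j * n : ℕ) = ζ := by ring
    rw [h2] at h1
    exact hne h1
  · exfalso
    obtain ⟨ζ, hζ, hne⟩ := hxn
    apply hne
    have h1 : x =ᶠ[𝓝 ζ] fun _ => c := by
      filter_upwards [hUo.mem_nhds hζ] with u hu
      exact sub_eq_zero.1 (hk0 u hu)
    rw [h1.deriv_eq, deriv_const]

end Cont

/-! ## Comparison of the monodromies -/

section Mirror

theorem B13_nil {N : Matrix (Fin 2) (Fin 2) ℂ} (h : N * N = 0) : N.trace = 0 ∧ N.det = 0 := by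
  have h00 := congrFun (congrFun h 0) 0
  have h01 := congrFun (congrFun h 0) 1
  have h10 := congrFun (congrFun h 1) 0
  have h11 := congrFun (congrFun h 1) 1
  simp only [Matrix.mul_apply, Fin.sum_univ_two, Matrix.zero_apply] at h00 h01 h10 h11
  rw [Matrix.trace_fin_two, Matrix.det_fin_two]
  have ht : N 0 0 + N 1 1 = 0 := by
    by_contra hne
    have hb : N 0 1 = 0 := by
      have : N 0 1 * (N 0 0 + N 1 1) = 0 := by linear_combination h01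
      exact (mul_eq_zero.mp this).resolve_right hne
    have hc : N 1 0 = 0 := by
      have : N 1 0 * (N 0 0 + N 1 1) = 0 := by linear_combination h10
      exact (mul_eq_zero.mp this).resolve_right hne
    rw [hb, hc] at h00 h11
    have ha : N 0 0 = 0 := by
      have : N 0 0 * N 0 0 = 0 := by linear_combination h00
      exact mul_self_eq_zero.mp this
    have hd : N 1 1 = 0 := by
      have : N 1 1 * N 1 1 = 0 := by linear_combination h11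
      exact mul_self_eq_zero.mp this
    exact hne (by rw [ha, hd, add_zero])
  refine ⟨ht, ?_⟩
  linear_combination (-1 : ℂ) * h00 + N 0 0 * ht

theorem B13_det_sub {A B : Matrix (Fin 2) (Fin 2) ℂ} (hA : A * A = 0) (hB : B * B = 0)
    (hAB : A * B = 0) : (B - A).det = 0 := by
  obtain ⟨a1, a2⟩ := B13_nil hA
  obtain ⟨b1, b2⟩ := B13_nil hB
  have h00 := congrFun (congrFun hAB 0) 0
  have h11 := congrFun (congrFun hAB 1) 1
  simp only [Matrix.mul_apply, Fin.sum_univ_two, Matrix.zero_apply] at h00 h11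
  rw [Matrix.trace_fin_two] at a1 b1
  rw [Matrix.det_fin_two] at a2 b2 ⊢
  simp only [Matrix.sub_apply]
  linear_combination a2 + b2 + h00 + h11 - (A 0 0 + A 1 1) * b1

theorem B13_plus (S : Submodule ℂ (Matrix (Fin 2) (Fin 2) ℂ)) {A B : Matrix (Fin 2) (Fin 2) ℂ}
    {i j : ℂ} (hi : i ≠ 0) (hj : j ≠ 0) (hij : i ≠ j) (h₁ : i • A - i ^ 2 • B ∈ S)
    (h₂ : j • A - j ^ 2 • B ∈ S) : A ∈ S ∧ B ∈ S := by
  have hB : B ∈ S := by
    have h : (i * j * (j - i))⁻¹ • (j • (i • A - i ^ 2 • B) - i • (j • A - j ^ 2 • B)) ∈ S :=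
      S.smul_mem _ (S.sub_mem (S.smul_mem _ h₁) (S.smul_mem _ h₂))
    have hne : i * j * (j - i) ≠ 0 := mul_ne_zero (mul_ne_zero hi hj) (sub_ne_zero.mpr hij.symm)
    have e : (i * j * (j - i))⁻¹ • (j • (i • A - i ^ 2 • B) - i • (j • A - j ^ 2 • B)) = B := by
      have e1 : j • (i • A - i ^ 2 • B) - i • (j • A - j ^ 2 • B) = (i * j * (j - i)) • B := by
        module
      rw [e1, inv_smul_smul₀ hne]
    rwa [e] at h
  refine ⟨?_, hB⟩
  have h : i⁻¹ • ((i • A - i ^ 2 • B) + i ^ 2 • B) ∈ S :=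
    S.smul_mem _ (S.add_mem h₁ (S.smul_mem _ hB))
  rwa [sub_add_cancel, inv_smul_smul₀ hi] at h

theorem B13_minus (S : Submodule ℂ (Matrix (Fin 2) (Fin 2) ℂ)) {A B : Matrix (Fin 2) (Fin 2) ℂ}
    {i j l : ℂ} (hij : i ≠ j) (hil : i ≠ l) (hjl : j ≠ l)
    (h₁ : (2 : ℂ) • 1 + (i • A - i ^ 2 • B) ∈ S) (h₂ : (2 : ℂ) • 1 + (j • A - j ^ 2 • B) ∈ S)
    (h₃ : (2 : ℂ) • 1 + (l • A - l ^ 2 • B) ∈ S) : (1 : Matrix (Fin 2) (Fin 2) ℂ) ∈ S := by
  have h12 : A - (i + j) • B ∈ S := by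
    have h : (i - j)⁻¹ • (((2 : ℂ) • 1 + (i • A - i ^ 2 • B)) -
      ((2 : ℂ) • 1 + (j • A - j ^ 2 • B))) ∈ S := S.smul_mem _ (S.sub_mem h₁ h₂)
    have e1 : ((2 : ℂ) • (1 : Matrix (Fin 2) (Fin 2) ℂ) + (i • A - i ^ 2 • B)) -
      ((2 : ℂ) • 1 + (j • A - j ^ 2 • B)) = (i - j) • (A - (i + j) • B) := by module
    rwa [e1, inv_smul_smul₀ (sub_ne_zero.mpr hij)] at h
  have h13 : A - (i + l) • B ∈ S := by
    have h : (i - l)⁻¹ • (((2 : ℂ) • 1 + (i • A - i ^ 2 • B)) -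
      ((2 : ℂ) • 1 + (l • A - l ^ 2 • B))) ∈ S := S.smul_mem _ (S.sub_mem h₁ h₃)
    have e1 : ((2 : ℂ) • (1 : Matrix (Fin 2) (Fin 2) ℂ) + (i • A - i ^ 2 • B)) -
      ((2 : ℂ) • 1 + (l • A - l ^ 2 • B)) = (i - l) • (A - (i + l) • B) := by module
    rwa [e1, inv_smul_smul₀ (sub_ne_zero.mpr hil)] at h
  have hB : B ∈ S := by
    have h : (l - j)⁻¹ • ((A - (i + j) • B) - (A - (i + l) • B)) ∈ S :=
      S.smul_mem _ (S.sub_mem h12 h13)
    have e1 : (A - (i + j) • B) - (A - (i + l) • B) = (l - j) • B := by module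
    rwa [e1, inv_smul_smul₀ (sub_ne_zero.mpr hjl.symm)] at h
  have hA : A ∈ S := by
    have h := S.add_mem h12 (S.smul_mem (i + j) hB)
    rwa [sub_add_cancel] at h
  have h : (2 : ℂ)⁻¹ • (((2 : ℂ) • 1 + (i • A - i ^ 2 • B)) - (i • A - i ^ 2 • B)) ∈ S :=
    S.smul_mem _ (S.sub_mem h₁ (S.sub_mem (S.smul_mem _ hA) (S.smul_mem _ hB)))
  rwa [add_sub_cancel_right, inv_smul_smul₀ two_ne_zero] at h

theorem mirror_lin (S : Submodule ℂ (Matrix (Fin 2) (Fin 2) ℂ)) (hS : ∀ A ∈ S, A.det = 0 → A = 0)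
    (h1 : (1 : Matrix (Fin 2) (Fin 2) ℂ) ∉ S) {N₁ N₂ : Matrix (Fin 2) (Fin 2) ℂ}
    (hN₁ : N₁ * N₁ = 0) (hN₂ : N₂ * N₂ = 0) (hne : N₁ ≠ 0) (e : ℕ → ℂ)
    (he : ∀ n, e n = 1 ∨ e n = -1)
    (hmem : ∀ n : ℕ, (1 - (n : ℂ) • N₁) * (1 + (n : ℂ) • N₂) - e n • 1 ∈ S) : N₁ = N₂ := by
  have hexp : ∀ n : ℂ, (1 - n • N₁) * (1 + n • N₂) = 1 + (n • (N₂ - N₁) - n ^ 2 • (N₁ * N₂)) := by
    intro n
    rw [sub_mul, mul_add, mul_add, one_mul, one_mul, mul_one, smul_mul_smul_comm]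
    module
  have hp : ∀ n : ℕ, e n = 1 → (n : ℂ) • (N₂ - N₁) - (n : ℂ) ^ 2 • (N₁ * N₂) ∈ S := by
    intro n hn
    have h := hmem n
    rw [hexp, hn, one_smul, add_sub_cancel_left] at h
    exact h
  have hm : ∀ n : ℕ, e n = -1 →
      (2 : ℂ) • 1 + ((n : ℂ) • (N₂ - N₁) - (n : ℂ) ^ 2 • (N₁ * N₂)) ∈ S := by
    intro n hn
    have h := hmem n
    rw [hexp, hn] at h
    have e1 : (1 : Matrix (Fin 2) (Fin 2) ℂ) + ((n : ℂ) • (N₂ - N₁) - (n : ℂ) ^ 2 • (N₁ * N₂)) -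
        (-1 : ℂ) • 1 = (2 : ℂ) • 1 + ((n : ℂ) • (N₂ - N₁) - (n : ℂ) ^ 2 • (N₁ * N₂)) := by module
    rwa [e1] at h
  -- two equal signs
  have key : (N₂ - N₁) ∈ S ∧ N₁ * N₂ ∈ S := by
    have hpp : ∀ i j : ℕ, i ≠ 0 → j ≠ 0 → i ≠ j → e i = 1 → e j = 1 →
        (N₂ - N₁) ∈ S ∧ N₁ * N₂ ∈ S := by
      intro i j hi hj hij ei ej
      exact B13_plus S (by exact_mod_cast hi) (by exact_mod_cast hj) (by exact_mod_cast hij)
        (hp i ei) (hp j ej)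
    have hmm : ∀ i j l : ℕ, i ≠ j → i ≠ l → j ≠ l → e i = -1 → e j = -1 → e l = -1 → False := by
      intro i j l hij hil hjl ei ej el
      exact h1 (B13_minus S (by exact_mod_cast hij) (by exact_mod_cast hil)
        (by exact_mod_cast hjl) (hm i ei) (hm j ej) (hm l el))
    rcases he 1 with e1 | e1 <;> rcases he 2 with e2 | e2 <;> rcases he 3 with e3 | e3 <;>
      rcases he 4 with e4 | e4
    · exact hpp 1 2 (by norm_num) (by norm_num) (by norm_num) e1 e2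
    · exact hpp 1 2 (by norm_num) (by norm_num) (by norm_num) e1 e2
    · exact hpp 1 2 (by norm_num) (by norm_num) (by norm_num) e1 e2
    · exact hpp 1 2 (by norm_num) (by norm_num) (by norm_num) e1 e2
    · exact hpp 1 3 (by norm_num) (by norm_num) (by norm_num) e1 e3
    · exact hpp 1 3 (by norm_num) (by norm_num) (by norm_num) e1 e3
    · exact hpp 1 4 (by norm_num) (by norm_num) (by norm_num) e1 e4
    · exact (hmm 2 3 4 (by norm_num) (by norm_num) (by norm_num) e2 e3 e4).elim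
    · exact hpp 2 3 (by norm_num) (by norm_num) (by norm_num) e2 e3
    · exact hpp 2 3 (by norm_num) (by norm_num) (by norm_num) e2 e3
    · exact hpp 2 4 (by norm_num) (by norm_num) (by norm_num) e2 e4
    · exact (hmm 1 3 4 (by norm_num) (by norm_num) (by norm_num) e1 e3 e4).elim
    · exact hpp 3 4 (by norm_num) (by norm_num) (by norm_num) e3 e4
    · exact (hmm 1 2 4 (by norm_num) (by norm_num) (by norm_num) e1 e2 e4).elim
    · exact (hmm 1 2 3 (by norm_num) (by norm_num) (by norm_num) e1 e2 e3).elim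
    · exact (hmm 1 2 3 (by norm_num) (by norm_num) (by norm_num) e1 e2 e3).elim
  have hB : N₁ * N₂ = 0 := by
    refine hS _ key.2 ?_
    rw [Matrix.det_mul, (B13_nil hN₁).2, zero_mul]
  have hA : N₂ - N₁ = 0 := hS _ key.1 (B13_det_sub hN₁ hN₂ hB)
  exact (sub_eq_zero.mp hA).symm

theorem B14_pow (g : SL(2, ℤ)) (j : ℕ) (a b : Fin 2) :
    (((g ^ (j + 1)) a b : ℤ) : ℂ) = (g a 0 : ℂ) * (g ^ j) 0 b + (g a 1 : ℂ) * (g ^ j) 1 b := by
  rw [pow_succ', Matrix.SpecialLinearGroup.coe_mul, Matrix.mul_apply, Fin.sum_univ_two]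
  push_cast
  ring

/-- The relation satisfied by all powers of the monodromy. -/
theorem mirror_iter {n : ℕ} {Y : ℝ} {T Tb : ℂ → ℂ} (hT : ∀ ζ : ℂ, Y < ζ.im → 0 < (T ζ).im)
    (hTb : ∀ ζ : ℂ, Y < ζ.im → (Tb ζ).im < 0) (g₁ g₂ : SL(2, ℤ))
    (h₁ : ∀ ζ : ℂ, Y < ζ.im → T (ζ + n) * ((g₁ 1 0 : ℂ) * T ζ + g₁ 1 1) = g₁ 0 0 * T ζ + g₁ 0 1)
    (h₂ : ∀ ζ : ℂ, Y < ζ.im →
      Tb (ζ + n) * ((g₂ 1 0 : ℂ) * Tb ζ + g₂ 1 1) = g₂ 0 0 * Tb ζ + g₂ 0 1)
    (hinv : ∀ ζ : ℂ, Y < ζ.im → (((g₁ 0 0 : ℂ) * T ζ + g₁ 0 1) * (g₂ 1 0 * Tb ζ + g₂ 1 1) -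
      (g₂ 0 0 * Tb ζ + g₂ 0 1) * (g₁ 1 0 * T ζ + g₁ 1 1)) ^ 2 = (T ζ - Tb ζ) ^ 2) (j : ℕ) (ζ : ℂ)
    (hζ : Y < ζ.im) :
    T (ζ + (j * n : ℕ)) * (((g₁ ^ j) 1 0 : ℂ) * T ζ + (g₁ ^ j) 1 1) =
      (g₁ ^ j) 0 0 * T ζ + (g₁ ^ j) 0 1 ∧
    Tb (ζ + (j * n : ℕ)) * (((g₂ ^ j) 1 0 : ℂ) * Tb ζ + (g₂ ^ j) 1 1) =
      (g₂ ^ j) 0 0 * Tb ζ + (g₂ ^ j) 0 1 ∧
    ((((g₁ ^ j) 0 0 : ℂ) * T ζ + (g₁ ^ j) 0 1) * ((g₂ ^ j) 1 0 * Tb ζ + (g₂ ^ j) 1 1) -
      ((g₂ ^ j) 0 0 * Tb ζ + (g₂ ^ j) 0 1) * ((g₁ ^ j) 1 0 * T ζ + (g₁ ^ j) 1 1)) ^ 2 =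
      (T ζ - Tb ζ) ^ 2 := by
  induction j with
  | zero => simp
  | succ j ih =>
    obtain ⟨i1, i2, i3⟩ := ih
    have hz : Y < (ζ + (j * n : ℕ)).im := by
      rw [Complex.add_im, Complex.natCast_im, add_zero]
      exact hζ
    have k1 := h₁ _ hz
    have k2 := h₂ _ hz
    have k3 := hinv _ hz
    have e : ζ + (((j + 1) * n : ℕ) : ℂ) = ζ + (j * n : ℕ) + n := by
      push_cast
      ring
    rw [e]
    simp only [B14_pow]
    generalize T (ζ + (j * n : ℕ) + n) = S1 at *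
    generalize Tb (ζ + (j * n : ℕ) + n) = S2 at *
    generalize T (ζ + (j * n : ℕ)) = R1 at *
    generalize Tb (ζ + (j * n : ℕ)) = R2 at *
    generalize T ζ = t1 at *
    generalize Tb ζ = t2 at *
    refine ⟨?_, ?_, ?_⟩
    · have h := congrArg (fun z => z * (((g₁ ^ j) 1 0 : ℂ) * t1 + (g₁ ^ j) 1 1)) k1
      linear_combination h + (-(S1 * (g₁ 1 0 : ℂ)) + (g₁ 0 0 : ℂ)) * i1
    · have h := congrArg (fun z => z * (((g₂ ^ j) 1 0 : ℂ) * t2 + (g₂ ^ j) 1 1)) k2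
      linear_combination h + (-(S2 * (g₂ 1 0 : ℂ)) + (g₂ 0 0 : ℂ)) * i2
    · rw [← i3]
      have h := congrArg (fun z => z * ((((g₁ ^ j) 1 0 : ℂ) * t1 + (g₁ ^ j) 1 1) *
        (((g₂ ^ j) 1 0 : ℂ) * t2 + (g₂ ^ j) 1 1)) ^ 2) k3
      rw [← i1, ← i2]
      have e1 : ((g₁ 0 0 : ℂ) * (g₁ ^ j) 0 0 + (g₁ 0 1 : ℂ) * (g₁ ^ j) 1 0) * t1
          + ((g₁ 0 0 : ℂ) * (g₁ ^ j) 0 1 + (g₁ 0 1 : ℂ) * (g₁ ^ j) 1 1)
          = ((g₁ 0 0 : ℂ) * R1 + g₁ 0 1) * (((g₁ ^ j) 1 0 : ℂ) * t1 + (g₁ ^ j) 1 1) := by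
        linear_combination -(g₁ 0 0 : ℂ) * i1
      have e2 : ((g₁ 1 0 : ℂ) * (g₁ ^ j) 0 0 + (g₁ 1 1 : ℂ) * (g₁ ^ j) 1 0) * t1
          + ((g₁ 1 0 : ℂ) * (g₁ ^ j) 0 1 + (g₁ 1 1 : ℂ) * (g₁ ^ j) 1 1)
          = ((g₁ 1 0 : ℂ) * R1 + g₁ 1 1) * (((g₁ ^ j) 1 0 : ℂ) * t1 + (g₁ ^ j) 1 1) := by
        linear_combination -(g₁ 1 0 : ℂ) * i1
      have e3 : ((g₂ 0 0 : ℂ) * (g₂ ^ j) 0 0 + (g₂ 0 1 : ℂ) * (g₂ ^ j) 1 0) * t2
          + ((g₂ 0 0 : ℂ) * (g₂ ^ j) 0 1 + (g₂ 0 1 : ℂ) * (g₂ ^ j) 1 1)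
          = ((g₂ 0 0 : ℂ) * R2 + g₂ 0 1) * (((g₂ ^ j) 1 0 : ℂ) * t2 + (g₂ ^ j) 1 1) := by
        linear_combination -(g₂ 0 0 : ℂ) * i2
      have e4 : ((g₂ 1 0 : ℂ) * (g₂ ^ j) 0 0 + (g₂ 1 1 : ℂ) * (g₂ ^ j) 1 0) * t2
          + ((g₂ 1 0 : ℂ) * (g₂ ^ j) 0 1 + (g₂ 1 1 : ℂ) * (g₂ ^ j) 1 1)
          = ((g₂ 1 0 : ℂ) * R2 + g₂ 1 1) * (((g₂ ^ j) 1 0 : ℂ) * t2 + (g₂ ^ j) 1 1) := by
        linear_combination -(g₂ 1 0 : ℂ) * i2
      rw [e1, e2, e3, e4]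
      linear_combination h

/-- The complex matrix of an integral matrix. -/
noncomputable def B15_G (g : SL(2, ℤ)) : Matrix (Fin 2) (Fin 2) ℂ :=
  Matrix.of fun i j => ((g i j : ℤ) : ℂ)

theorem B15_entry (A B : SL(2, ℤ)) (i j : Fin 2) :
    (A * B) i j = A i 0 * B 0 j + A i 1 * B 1 j := by
  change ((A * B : SL(2, ℤ)) : Matrix (Fin 2) (Fin 2) ℤ) i j = _
  rw [Matrix.SpecialLinearGroup.coe_mul, Matrix.mul_apply, Fin.sum_univ_two]

theorem B15_G_mul (g h : SL(2, ℤ)) : B15_G (g * h) = B15_G g * B15_G h := by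
  ext i j
  rw [Matrix.mul_apply, Fin.sum_univ_two]
  simp only [B15_G, Matrix.of_apply, B15_entry]
  push_cast
  ring

theorem B15_G_one : B15_G 1 = 1 := by
  ext i j
  fin_cases i <;> fin_cases j <;> simp [B15_G]

theorem B15_G_pow (g : SL(2, ℤ)) (n : ℕ) : B15_G (g ^ n) = B15_G g ^ n := by
  induction n with
  | zero => rw [pow_zero, pow_zero, B15_G_one]
  | succ n ih => rw [pow_succ, pow_succ, B15_G_mul, ih]

theorem B15_G_det (g : SL(2, ℤ)) : B15_G g 0 0 * B15_G g 1 1 - B15_G g 0 1 * B15_G g 1 0 = 1 := by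
  have := g.2
  rw [Matrix.det_fin_two] at this
  simp only [B15_G, Matrix.of_apply]
  exact_mod_cast this

theorem B15_G_inj {g h : SL(2, ℤ)} (hgh : B15_G g = B15_G h) : g = h := by
  ext i j
  have := congrFun (congrFun hgh i) j
  simp only [B15_G, Matrix.of_apply] at this
  exact_mod_cast this

theorem B15_T (m : ℤ) : B15_G (ModularGroup.T ^ m) = !![1, (m : ℂ); 0, 1] := by
  have h := ModularGroup.coe_T_zpow m
  have h' : ∀ i j, (ModularGroup.T ^ m : SL(2, ℤ)) i j = !![1, m; 0, 1] i j := by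
    intro i j
    change ((ModularGroup.T ^ m : SL(2, ℤ)) : Matrix (Fin 2) (Fin 2) ℤ) i j = _
    rw [h]
  ext i j
  simp only [B15_G, Matrix.of_apply, h']
  fin_cases i <;> fin_cases j <;> simp

theorem B15_nil {A g : SL(2, ℤ)} {m : ℤ} (h : A * g * A⁻¹ = ModularGroup.T ^ m) :
    (B15_G g - 1) * (B15_G g - 1) = 0 := by
  have hg : g = A⁻¹ * ModularGroup.T ^ m * A := by
    rw [← h]
    group
  have h1 : B15_G A⁻¹ * B15_G A = 1 := by
    rw [← B15_G_mul, inv_mul_cancel, B15_G_one]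
  have h2 : B15_G A * B15_G A⁻¹ = 1 := by
    rw [← B15_G_mul, mul_inv_cancel, B15_G_one]
  have h3 : B15_G g - 1 = B15_G A⁻¹ * (B15_G (ModularGroup.T ^ m) - 1) * B15_G A := by
    rw [mul_sub, sub_mul, mul_one, h1]
    conv_lhs => rw [hg, B15_G_mul, B15_G_mul]
  have h4 : (B15_G (ModularGroup.T ^ m) - 1) * (B15_G (ModularGroup.T ^ m) - 1) = 0 := by
    rw [B15_T]
    ext i j
    fin_cases i <;> fin_cases j <;> simp [Matrix.mul_apply, Fin.sum_univ_two]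
  calc (B15_G g - 1) * (B15_G g - 1) = B15_G A⁻¹ * ((B15_G (ModularGroup.T ^ m) - 1) *
        (B15_G A * B15_G A⁻¹) * (B15_G (ModularGroup.T ^ m) - 1)) * B15_G A := by
        rw [h3]
        simp only [Matrix.mul_assoc]
    _ = 0 := by
        rw [h2, mul_one, h4, mul_zero, zero_mul]

theorem B15_pow {N : Matrix (Fin 2) (Fin 2) ℂ} (hN : N * N = 0) (n : ℕ) :
    (1 + N) ^ n = 1 + (n : ℂ) • N := by
  induction n with
  | zero => simp
  | succ n ih =>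
    rw [pow_succ, ih, add_mul, mul_add, mul_add, one_mul, one_mul, mul_one, smul_mul_assoc, hN,
      smul_zero, add_zero]
    push_cast
    module

theorem B15_rank {C : Matrix (Fin 2) (Fin 2) ℂ} (h : C.det = 0) :
    ∃ p1 p2 q1 q2 : ℂ, C 0 0 = p1 * q1 ∧ C 0 1 = p1 * q2 ∧ C 1 0 = p2 * q1 ∧ C 1 1 = p2 * q2 := by
  rw [Matrix.det_fin_two] at h
  by_cases h0 : C 0 0 = 0
  · by_cases h1 : C 0 1 = 0
    · exact ⟨0, 1, C 1 0, C 1 1, by simp [h0], by simp [h1], by simp, by simp⟩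
    · refine ⟨1, C 1 1 / C 0 1, 0, C 0 1, by simp [h0], by simp, ?_, by field_simp⟩
      rw [h0, zero_mul, zero_sub, neg_eq_zero, mul_eq_zero] at h
      simpa using h.resolve_left h1
  · refine ⟨1, C 1 0 / C 0 0, C 0 0, C 0 1, by simp, by simp, by field_simp, ?_⟩
    field_simp
    linear_combination h

theorem B15_const {Y : ℝ} {T : ℂ → ℂ} (hnc : ∃ ζ : ℂ, Y < ζ.im ∧ deriv T ζ ≠ 0) {p q : ℂ}
    (h : ∀ ζ : ℂ, Y < ζ.im → p * T ζ + q = 0) : p = 0 ∧ q = 0 := by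
  obtain ⟨ζ, hζ, hd⟩ := hnc
  have hp : p = 0 := by
    by_contra hp
    apply hd
    have h1 : T =ᶠ[𝓝 ζ] fun _ => -q / p := by
      filter_upwards [(isOpen_lt continuous_const Complex.continuous_im).mem_nhds hζ] with u hu
      have := h u hu
      field_simp
      linear_combination this
    rw [h1.deriv_eq, deriv_const]
  refine ⟨hp, ?_⟩
  have := h ζ hζ
  rwa [hp, zero_mul, zero_add] at this

/-- The matrices annihilating the pair of functions. -/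
def B15_S (Y : ℝ) (T Tb : ℂ → ℂ) : Submodule ℂ (Matrix (Fin 2) (Fin 2) ℂ) where
  carrier := {C | ∀ ζ : ℂ, Y < ζ.im → T ζ * (C 1 0 * Tb ζ + C 1 1) - (C 0 0 * Tb ζ + C 0 1) = 0}
  add_mem' := by
    intro A B hA hB ζ hζ
    have h1 := hA ζ hζ
    have h2 := hB ζ hζ
    simp only [Matrix.add_apply]
    linear_combination h1 + h2
  zero_mem' := by
    intro ζ _
    simp
  smul_mem' := by
    intro c A hA ζ hζ
    have h1 := hA ζ hζ
    simp only [Matrix.smul_apply, smul_eq_mul]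
    linear_combination c * h1

theorem B15_mem {Y : ℝ} {T Tb : ℂ → ℂ} {C : Matrix (Fin 2) (Fin 2) ℂ}
    (h : ∀ ζ : ℂ, Y < ζ.im → T ζ * (C 1 0 * Tb ζ + C 1 1) - (C 0 0 * Tb ζ + C 0 1) = 0) :
    C ∈ B15_S Y T Tb := h

theorem B15_denom (γ : SL(2, ℤ)) {t : ℂ} (ht : t.im < 0) :
    ((γ 1 0 : ℤ) : ℂ) * t + ((γ 1 1 : ℤ) : ℂ) ≠ 0 := by
  intro h
  have him := congrArg Complex.im h
  have hre := congrArg Complex.re h
  have hd := γ.2
  rw [Matrix.det_fin_two] at hd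
  generalize γ 1 0 = x at *
  generalize γ 1 1 = y at *
  simp at him hre
  rcases him with h1 | h1
  · rw [h1] at hre
    simp at hre
    simp [h1, hre] at hd
  · exact ht.ne h1

theorem B15_sing {Y : ℝ} {T Tb : ℂ → ℂ} (hT : ∀ ζ : ℂ, Y < ζ.im → DifferentiableAt ℂ T ζ)
    (hTb : ∀ ζ : ℂ, Y < ζ.im → DifferentiableAt ℂ Tb ζ)
    (hnc : ∃ ζ : ℂ, Y < ζ.im ∧ deriv T ζ ≠ 0) (hnc' : ∃ ζ : ℂ, Y < ζ.im ∧ deriv Tb ζ ≠ 0)
    {C : Matrix (Fin 2) (Fin 2) ℂ} (hC : C ∈ B15_S Y T Tb) (hd : C.det = 0) : C = 0 := by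
  obtain ⟨p1, p2, q1, q2, h00, h01, h10, h11⟩ := B15_rank hd
  have hop : IsOpen {ζ : ℂ | Y < ζ.im} := isOpen_lt continuous_const Complex.continuous_im
  have hU : IsPreconnected {ζ : ℂ | Y < ζ.im} := (convex_halfSpace_im_gt Y).isPreconnected
  have ha : AnalyticOnNhd ℂ (fun ζ => p2 * T ζ + -p1) {ζ : ℂ | Y < ζ.im} := by
    refine DifferentiableOn.analyticOnNhd ?_ hop
    intro ζ hζ
    exact (((hT ζ hζ).const_mul p2).add_const _).differentiableWithinAt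
  have hb : AnalyticOnNhd ℂ (fun ζ => q1 * Tb ζ + q2) {ζ : ℂ | Y < ζ.im} := by
    refine DifferentiableOn.analyticOnNhd ?_ hop
    intro ζ hζ
    exact (((hTb ζ hζ).const_mul q1).add_const _).differentiableWithinAt
  have hz : ∀ ζ ∈ {ζ : ℂ | Y < ζ.im}, (p2 * T ζ + -p1) * (q1 * Tb ζ + q2) = 0 := by
    intro ζ hζ
    have := hC ζ hζ
    rw [h00, h01, h10, h11] at this
    linear_combination this
  rcases ha.eq_zero_or_eq_zero_of_mul_eq_zero hb hz hU with h | h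
  · obtain ⟨e1, e2⟩ := B15_const hnc h
    have e3 : p1 = 0 := neg_eq_zero.mp e2
    ext i j
    fin_cases i <;> fin_cases j <;> simp [h00, h01, h10, h11, e1, e3]
  · obtain ⟨e1, e2⟩ := B15_const hnc' h
    ext i j
    fin_cases i <;> fin_cases j <;> simp [h00, h01, h10, h11, e1, e2]

theorem B15_sign {Y : ℝ} {f g : ℂ → ℂ} (hf : ∀ ζ : ℂ, Y < ζ.im → DifferentiableAt ℂ f ζ)
    (hg : ∀ ζ : ℂ, Y < ζ.im → DifferentiableAt ℂ g ζ)
    (h : ∀ ζ : ℂ, Y < ζ.im → f ζ ^ 2 = g ζ ^ 2) :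
    ∃ e : ℂ, (e = 1 ∨ e = -1) ∧ ∀ ζ : ℂ, Y < ζ.im → f ζ = e * g ζ := by
  have hop : IsOpen {ζ : ℂ | Y < ζ.im} := isOpen_lt continuous_const Complex.continuous_im
  have hU : IsPreconnected {ζ : ℂ | Y < ζ.im} := (convex_halfSpace_im_gt Y).isPreconnected
  have ha : AnalyticOnNhd ℂ (fun ζ => f ζ - g ζ) {ζ : ℂ | Y < ζ.im} := by
    refine DifferentiableOn.analyticOnNhd ?_ hop
    intro ζ hζ
    exact ((hf ζ hζ).sub (hg ζ hζ)).differentiableWithinAt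
  have hb : AnalyticOnNhd ℂ (fun ζ => f ζ + g ζ) {ζ : ℂ | Y < ζ.im} := by
    refine DifferentiableOn.analyticOnNhd ?_ hop
    intro ζ hζ
    exact ((hf ζ hζ).add (hg ζ hζ)).differentiableWithinAt
  have hz : ∀ ζ ∈ {ζ : ℂ | Y < ζ.im}, (f ζ - g ζ) * (f ζ + g ζ) = 0 := by
    intro ζ hζ
    linear_combination h ζ hζ
  rcases ha.eq_zero_or_eq_zero_of_mul_eq_zero hb hz hU with h | h
  · refine ⟨1, Or.inl rfl, fun ζ hζ => ?_⟩
    linear_combination h ζ hζ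
  · refine ⟨-1, Or.inr rfl, fun ζ hζ => ?_⟩
    linear_combination h ζ hζ

theorem B15_inv {α E : Matrix (Fin 2) (Fin 2) ℂ} (hdet : α 0 0 * α 1 1 - α 0 1 * α 1 0 = 1)
    (hE : E * α = 1) : E = !![α 1 1, -α 0 1; -α 1 0, α 0 0] := by
  have hαD : α * !![α 1 1, -α 0 1; -α 1 0, α 0 0] = 1 := by
    ext i j
    fin_cases i <;> fin_cases j <;> simp [Matrix.mul_apply, Fin.sum_univ_two] <;>
      first | linear_combination hdet | ring
  calc E = E * (α * !![α 1 1, -α 0 1; -α 1 0, α 0 0]) := by rw [hαD, mul_one]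
    _ = _ := by rw [← mul_assoc, hE, one_mul]

theorem B15_final {n : ℕ} (hn : 0 < n) {Y : ℝ} {Tb : ℂ → ℂ}
    (hTb : ∀ ζ : ℂ, Y < ζ.im → DifferentiableAt ℂ Tb ζ ∧ (Tb ζ).im < 0)
    {γ M : SL(2, ℤ)} {m : ℕ} (hm : 0 < m) (hg : M * γ = ModularGroup.T ^ m * M)
    (h₂ : ∀ ζ : ℂ, Y < ζ.im →
      Tb (ζ + n) * ((γ 1 0 : ℂ) * Tb ζ + γ 1 1) = γ 0 0 * Tb ζ + γ 0 1) : False := by
  have hdet : M 0 0 * M 1 1 - M 0 1 * M 1 0 = 1 := by
    have := M.2
    rwa [Matrix.det_fin_two] at this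
  let M' : SL(2, ℤ) := ⟨!![M 0 0, -M 0 1; -M 1 0, M 1 1], by
    rw [Matrix.det_fin_two]
    simp only [Matrix.of_apply, Matrix.cons_val', Matrix.cons_val_zero, Matrix.cons_val_one]
    linarith⟩
  have hM' : ∀ w : ℍ, ((M' • w : ℍ) : ℂ) =
      ((M 0 0 : ℂ) * w + -(M 0 1 : ℂ)) / (-(M 1 0 : ℂ) * w + (M 1 1 : ℂ)) := by
    intro w
    rw [UpperHalfPlane.coe_specialLinearGroup_apply]
    simp [M']
  have hne : ∀ ζ : ℂ, Y < ζ.im → (M 1 0 : ℂ) * Tb ζ + (M 1 1 : ℂ) ≠ 0 := by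
    intro ζ hζ
    exact B15_denom M (hTb ζ hζ).2
  have hneg : ∀ ζ : ℂ, Y < ζ.im → (γ 1 0 : ℂ) * Tb ζ + (γ 1 1 : ℂ) ≠ 0 := by
    intro ζ hζ
    exact B15_denom γ (hTb ζ hζ).2
  have hper := Pool.Agent.LibUB33.period_at_cusp hn (Y := Y)
    (T := fun ζ => -(((M 0 0 : ℂ) * Tb ζ + (M 0 1 : ℂ)) / ((M 1 0 : ℂ) * Tb ζ + (M 1 1 : ℂ))))
    ?_ ?_ (-(m : ℤ)) ?_
  · have := hper.1
    omega
  · intro ζ hζ
    exact ((((hTb ζ hζ).1.const_mul _).add_const _).div (((hTb ζ hζ).1.const_mul _).add_const _)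
      (hne ζ hζ)).neg
  · intro ζ hζ
    have hpos : 0 < (-(Tb ζ)).im := by
      rw [Complex.neg_im]
      linarith [(hTb ζ hζ).2]
    have h1 := hM' ⟨-(Tb ζ), hpos⟩
    have h2 := (M' • (⟨-(Tb ζ), hpos⟩ : ℍ)).im_pos
    have h3 : -(((M 0 0 : ℂ) * Tb ζ + (M 0 1 : ℂ)) / ((M 1 0 : ℂ) * Tb ζ + (M 1 1 : ℂ))) =
        ((M' • (⟨-(Tb ζ), hpos⟩ : ℍ) : ℍ) : ℂ) := by
      rw [h1, ← neg_div]
      congr 1
      · simp only
        ring
      · simp only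
        ring
    rw [h3]
    exact h2
  · intro ζ hζ
    have hζ' : Y < (ζ + n).im := by simpa using hζ
    have hT' : ∀ i j, (ModularGroup.T ^ m * M) i j = (if i = 0 then M 0 j + m * M 1 j else M 1 j) := by
      intro i j
      have hT : ((ModularGroup.T ^ m : SL(2, ℤ)) : Matrix (Fin 2) (Fin 2) ℤ) =
          !![1, (m : ℤ); 0, 1] := by
        have := ModularGroup.coe_T_zpow (m : ℤ)
        rwa [zpow_natCast] at this
      have hT2 : ∀ i j, (ModularGroup.T ^ m : SL(2, ℤ)) i j = !![1, (m : ℤ); 0, 1] i j := by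
        intro i j
        change ((ModularGroup.T ^ m : SL(2, ℤ)) : Matrix (Fin 2) (Fin 2) ℤ) i j = _
        rw [hT]
      rw [B15_entry, hT2, hT2]
      fin_cases i <;> simp
    have e : ∀ i j, M i 0 * γ 0 j + M i 1 * γ 1 j =
        (if i = 0 then M 0 j + m * M 1 j else M 1 j) := by
      intro i j
      rw [← hT', ← B15_entry, hg]
    have e00 : (M 0 0 : ℂ) * γ 0 0 + M 0 1 * γ 1 0 = M 0 0 + m * M 1 0 := by
      have := e 0 0
      simp only [if_true] at this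
      exact_mod_cast this
    have e01 : (M 0 0 : ℂ) * γ 0 1 + M 0 1 * γ 1 1 = M 0 1 + m * M 1 1 := by
      have := e 0 1
      simp only [if_true] at this
      exact_mod_cast this
    have e10 : (M 1 0 : ℂ) * γ 0 0 + M 1 1 * γ 1 0 = M 1 0 := by
      have := e 1 0
      simp only [one_ne_zero, if_false] at this
      exact_mod_cast this
    have e11 : (M 1 0 : ℂ) * γ 0 1 + M 1 1 * γ 1 1 = M 1 1 := by
      have := e 1 1
      simp only [one_ne_zero, if_false] at this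
      exact_mod_cast this
    have h1 := h₂ ζ hζ
    have d1 := hne ζ hζ
    have d2 := hne _ hζ'
    have d3 := hneg ζ hζ
    show -(((M 0 0 : ℂ) * Tb (ζ + n) + (M 0 1 : ℂ)) / ((M 1 0 : ℂ) * Tb (ζ + n) + (M 1 1 : ℂ))) =
      -(((M 0 0 : ℂ) * Tb ζ + (M 0 1 : ℂ)) / ((M 1 0 : ℂ) * Tb ζ + (M 1 1 : ℂ))) + ((-(m : ℤ) : ℤ) : ℂ)
    generalize Tb (ζ + n) = t' at *
    generalize Tb ζ = t at *
    have f1 : ((M 0 0 : ℂ) * t' + M 0 1) * ((γ 1 0 : ℂ) * t + γ 1 1) =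
        ((M 0 0 : ℂ) * t + M 0 1) + m * ((M 1 0 : ℂ) * t + M 1 1) := by
      linear_combination (M 0 0 : ℂ) * h1 + t * e00 + e01
    have f2 : ((M 1 0 : ℂ) * t' + M 1 1) * ((γ 1 0 : ℂ) * t + γ 1 1) =
        ((M 1 0 : ℂ) * t + M 1 1) := by
      linear_combination (M 1 0 : ℂ) * h1 + t * e10 + e11
    have f3 : ((M 0 0 : ℂ) * t' + M 0 1) / ((M 1 0 : ℂ) * t' + M 1 1) =
        (((M 0 0 : ℂ) * t + M 0 1) + m * ((M 1 0 : ℂ) * t + M 1 1)) /
          ((M 1 0 : ℂ) * t + M 1 1) := by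
      rw [← f1, ← f2, mul_div_mul_right _ _ d3]
    rw [f3, add_div, mul_div_assoc, div_self d1]
    push_cast
    ring

/-- The mirror image of an infinite puncture does not look like the puncture. -/
theorem no_mirror {n : ℕ} (hn : 0 < n) {Y : ℝ} {T Tb : ℂ → ℂ}
    (hT : ∀ ζ : ℂ, Y < ζ.im → DifferentiableAt ℂ T ζ ∧ 0 < (T ζ).im)
    (hTb : ∀ ζ : ℂ, Y < ζ.im → DifferentiableAt ℂ Tb ζ ∧ (Tb ζ).im < 0)
    (hnc : ∃ ζ : ℂ, Y < ζ.im ∧ deriv T ζ ≠ 0) (hnc' : ∃ ζ : ℂ, Y < ζ.im ∧ deriv Tb ζ ≠ 0)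
    {g₁ g₂ M : SL(2, ℤ)} {m : ℕ} (hm : 0 < m) (hg : M * g₁ = ModularGroup.T ^ m * M)
    (h₁ : ∀ ζ : ℂ, Y < ζ.im → T (ζ + n) * ((g₁ 1 0 : ℂ) * T ζ + g₁ 1 1) = g₁ 0 0 * T ζ + g₁ 0 1)
    (h₂ : ∀ ζ : ℂ, Y < ζ.im →
      Tb (ζ + n) * ((g₂ 1 0 : ℂ) * Tb ζ + g₂ 1 1) = g₂ 0 0 * Tb ζ + g₂ 0 1)
    (hinv : ∀ ζ : ℂ, Y < ζ.im → (((g₁ 0 0 : ℂ) * T ζ + g₁ 0 1) * (g₂ 1 0 * Tb ζ + g₂ 1 1) -
      (g₂ 0 0 * Tb ζ + g₂ 0 1) * (g₁ 1 0 * T ζ + g₁ 1 1)) ^ 2 = (T ζ - Tb ζ) ^ 2) : False := by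
  -- the second matrix is quasi-unipotent
  have htr : (g₂ 0 0 + g₂ 1 1) ^ 2 ≤ 4 := by
    refine Pool.Agent.LibUB33.trace_sq_le hn (Y := Y) (T := fun z => -(Tb z))
      (fun z hz => (hTb z hz).1.neg) (fun z hz => ?_) (g₂ 0 0) (-g₂ 0 1) (-g₂ 1 0) (g₂ 1 1) ?_ ?_
    · rw [Complex.neg_im]
      linarith [(hTb z hz).2]
    · have := g₂.2
      rw [Matrix.det_fin_two] at this
      linarith
    · intro z hz
      push_cast
      linear_combination -(h₂ z hz)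
  obtain ⟨A, m₂, hA⟩ := Pool.Agent.LibUB33.exists_conj g₂ htr
  have hpow : ∀ j : ℕ, M * g₁ ^ j = ModularGroup.T ^ (m * j) * M := by
    intro j
    induction j with
    | zero => simp
    | succ j ih =>
      rw [pow_succ, ← mul_assoc, ih, mul_assoc, hg, ← mul_assoc, ← pow_add]
      ring_nf
  have hM12 : M * g₁ ^ 12 * M⁻¹ = ModularGroup.T ^ ((m * 12 : ℕ) : ℤ) := by
    rw [hpow, zpow_natCast, mul_assoc, mul_inv_cancel, mul_one]
  set N₁ := B15_G (g₁ ^ 12) - 1 with hN₁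
  set N₂ := B15_G (g₂ ^ 12) - 1 with hN₂
  have q1 : N₁ * N₁ = 0 := B15_nil hM12
  have q2 : N₂ * N₂ = 0 := B15_nil hA
  have hG1 : ∀ n : ℕ, B15_G (g₁ ^ (12 * n)) = 1 + (n : ℂ) • N₁ := by
    intro n
    rw [pow_mul, B15_G_pow (g₁ ^ 12), ← B15_pow q1, hN₁, add_sub_cancel]
  have hG2 : ∀ n : ℕ, B15_G (g₂ ^ (12 * n)) = 1 + (n : ℂ) • N₂ := by
    intro n
    rw [pow_mul, B15_G_pow (g₂ ^ 12), ← B15_pow q2, hN₂, add_sub_cancel]
  have hne : N₁ ≠ 0 := by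
    intro h0
    have h1 : g₁ ^ 12 = 1 := by
      apply B15_G_inj
      rw [B15_G_one]
      exact sub_eq_zero.mp h0
    rw [h1, mul_one, mul_inv_cancel] at hM12
    have h2 := congrFun (congrFun (B15_T ((m * 12 : ℕ) : ℤ)) 0) 1
    rw [← hM12, B15_G_one] at h2
    simp at h2
    omega
  have hiter := mirror_iter (fun ζ hζ => (hT ζ hζ).2) (fun ζ hζ => (hTb ζ hζ).2) g₁ g₂ h₁ h₂ hinv
  have hex : ∀ n : ℕ, ∃ e : ℂ, (e = 1 ∨ e = -1) ∧
      (1 - (n : ℂ) • N₁) * (1 + (n : ℂ) • N₂) - e • 1 ∈ B15_S Y T Tb := by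
    intro n
    obtain ⟨e, he, hee⟩ := B15_sign (Y := Y)
      (f := fun ζ => ((((g₁ ^ (12 * n)) 0 0 : ℂ) * T ζ + (g₁ ^ (12 * n)) 0 1) *
        ((g₂ ^ (12 * n)) 1 0 * Tb ζ + (g₂ ^ (12 * n)) 1 1) -
      ((g₂ ^ (12 * n)) 0 0 * Tb ζ + (g₂ ^ (12 * n)) 0 1) *
        ((g₁ ^ (12 * n)) 1 0 * T ζ + (g₁ ^ (12 * n)) 1 1)))
      (g := fun ζ => T ζ - Tb ζ) (fun ζ hζ => by
        have a := (hT ζ hζ).1
        have b := (hTb ζ hζ).1
        fun_prop) (fun ζ hζ => (hT ζ hζ).1.sub (hTb ζ hζ).1)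
      (fun ζ hζ => (hiter (12 * n) ζ hζ).2.2)
    refine ⟨e, he, B15_mem fun ζ hζ => ?_⟩
    have h3 := hee ζ hζ
    set α := B15_G (g₁ ^ (12 * n)) with hα
    set β := B15_G (g₂ ^ (12 * n)) with hβ
    have hdet := B15_G_det (g₁ ^ (12 * n))
    rw [← hα] at hdet
    have hinv1 : (1 - (n : ℂ) • N₁) * α = 1 := by
      rw [hα, hG1, sub_mul, one_mul, mul_add, mul_one, smul_mul_smul_comm, q1]
      simp
    set D : Matrix (Fin 2) (Fin 2) ℂ := !![α 1 1, -α 0 1; -α 1 0, α 0 0] with hD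
    have hDe : 1 - (n : ℂ) • N₁ = D := B15_inv hdet hinv1
    have hC : (1 - (n : ℂ) • N₁) * (1 + (n : ℂ) • N₂) = D * β := by rw [hDe, hβ, hG2]
    rw [hC]
    simp only [Matrix.sub_apply, Matrix.smul_apply, Matrix.mul_apply, Fin.sum_univ_two, hD,
      smul_eq_mul, Matrix.one_apply_eq]
    have a1 : (1 : Matrix (Fin 2) (Fin 2) ℂ) 1 0 = 0 := Matrix.one_apply_ne (by decide)
    have a2 : (1 : Matrix (Fin 2) (Fin 2) ℂ) 0 1 = 0 := Matrix.one_apply_ne (by decide)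
    rw [a1, a2]
    simp only [Matrix.of_apply, Matrix.cons_val', Matrix.cons_val_zero, Matrix.cons_val_one,
      Matrix.cons_val_fin_one]
    have b : ∀ i j, ((g₁ ^ (12 * n)) i j : ℂ) = α i j := fun i j => rfl
    have b' : ∀ i j, ((g₂ ^ (12 * n)) i j : ℂ) = β i j := fun i j => rfl
    simp only [b, b'] at h3
    linear_combination h3
  choose e he hmem using hex
  have h1S : (1 : Matrix (Fin 2) (Fin 2) ℂ) ∉ B15_S Y T Tb := by
    intro h
    obtain ⟨ζ, hζ, -⟩ := hnc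
    have h2 := h ζ hζ
    simp at h2
    have h3 := congrArg Complex.im h2
    rw [Complex.sub_im, Complex.zero_im] at h3
    linarith [(hT ζ hζ).2, (hTb ζ hζ).2]
  have hNN : N₁ = N₂ := mirror_lin (B15_S Y T Tb)
    (fun C hC hd => B15_sing (fun ζ hζ => (hT ζ hζ).1) (fun ζ hζ => (hTb ζ hζ).1) hnc hnc' hC hd)
    h1S q1 q2 hne e he hmem
  have hgg : g₁ ^ 12 = g₂ ^ 12 := by
    apply B15_G_inj
    have := hNN
    rw [hN₁, hN₂] at this
    exact sub_left_injective this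
  refine B15_final (n := 12 * n) (by omega) hTb (γ := g₂ ^ 12) (M := M) (m := m * 12) (by omega) ?_ ?_
  · rw [← hgg]
    exact hpow 12
  · intro ζ hζ
    exact (hiter 12 ζ hζ).2.1

end Mirror

/-! ## Conclusion -/

section Concl
variable {k : ℕ} {X : Curve}

theorem B16_mob_mul (g h : SL(2, ℝ)) (w : ℂ) : mob g (mob h w) = mob (g * h) w := by
  unfold mob
  rw [ofComplex_apply, mul_smul]

theorem B16_mob_one {w : ℂ} (hw : 0 < w.im) : mob 1 w = w := by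
  unfold mob
  rw [one_smul, ofComplex_apply_of_im_pos hw]

theorem B16_an {f : ℂ → ℂ} {Y : ℝ} (hf : ∀ ζ : ℂ, Y < ζ.im → DifferentiableAt ℂ f ζ) {ζ : ℂ}
    (h : Y < ζ.im) : AnalyticAt ℂ f ζ := by
  have hU : IsOpen {ζ : ℂ | Y < ζ.im} := isOpen_lt continuous_const Complex.continuous_im
  have hd : DifferentiableOn ℂ f {ζ : ℂ | Y < ζ.im} := fun u hu => (hf u hu).differentiableWithinAt
  exact hd.analyticAt (hU.mem_nhds h)

theorem B16_an' {f : ℂ → ℂ} (hf : ∀ ζ : ℂ, ζ.im < 0 → DifferentiableAt ℂ f ζ) {ζ : ℂ}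
    (h : ζ.im < 0) : AnalyticAt ℂ f ζ := by
  have hU : IsOpen {ζ : ℂ | ζ.im < 0} := isOpen_lt Complex.continuous_im continuous_const
  have hd : DifferentiableOn ℂ f {ζ : ℂ | ζ.im < 0} := fun u hu => (hf u hu).differentiableWithinAt
  exact hd.analyticAt (hU.mem_nhds h)

theorem B16_tau (V : Variation k X) (γ : X.P) {w u : ℂ} (hw : 0 < w.im)
    (hu : u = mob (γ : SL(2, ℝ)) w) :
    ((V.ρ γ 1 0 : ℂ) * V.tauC w + V.ρ γ 1 1 ≠ 0) ∧
    V.tauC u * ((V.ρ γ 1 0 : ℂ) * V.tauC w + V.ρ γ 1 1) = V.ρ γ 0 0 * V.tauC w + V.ρ γ 0 1 ∧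
    V.t1 u * ((V.ρ γ 1 0 : ℂ) * V.tauC w + V.ρ γ 1 1) ^ 2 = V.t1 w := by
  obtain ⟨h0, h1, h2, -, -⟩ := V.t_smul γ hw
  have h0' : (V.ρ γ 1 0 : ℂ) * V.tauC w + V.ρ γ 1 1 ≠ 0 := h0
  refine ⟨h0', ?_, ?_⟩
  · rw [hu, h1]
    exact div_mul_cancel₀ _ h0'
  · rw [hu, h2]
    exact div_mul_cancel₀ _ (pow_ne_zero 2 h0')

theorem B16_tau' (V : Variation k X) (γ : X.P) {w u : ℂ} (hw : w.im < 0)
    (hu : conj u = mob (γ : SL(2, ℝ)) (conj w)) :
    ((V.ρ γ 1 0 : ℂ) * cc V.tauC w + V.ρ γ 1 1 ≠ 0) ∧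
    cc V.tauC u * ((V.ρ γ 1 0 : ℂ) * cc V.tauC w + V.ρ γ 1 1)
      = V.ρ γ 0 0 * cc V.tauC w + V.ρ γ 0 1 ∧
    cc V.t1 u * ((V.ρ γ 1 0 : ℂ) * cc V.tauC w + V.ρ γ 1 1) ^ 2 = cc V.t1 w := by
  have hw' : 0 < (conj w).im := by
    rw [Complex.conj_im]
    linarith
  obtain ⟨h0, h1, h2⟩ := B16_tau V γ hw' hu
  unfold cc
  refine ⟨?_, ?_, ?_⟩
  · intro h3
    apply h0
    have h4 := congrArg (starRingEnd ℂ) h3
    simp only [map_add, map_mul, Complex.conj_conj, map_intCast, map_zero] at h4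
    exact h4
  · have h4 := congrArg (starRingEnd ℂ) h1
    simp only [map_add, map_mul, map_intCast] at h4
    exact h4
  · have h4 := congrArg (starRingEnd ℂ) h2
    simp only [map_add, map_mul, map_intCast, map_pow] at h4
    exact h4

theorem B16_lam {s : ℂ → ℍ} {Y : ℝ} (hE : X.IsEnd s Y) {ζ : ℂ} (hζ : Y < ζ.im) :
    (∀ j : ℕ, lamC X (s (ζ + j)) = lamC X (s ζ)) ∧
      deriv (fun u => lamC X (s u)) ζ ≠ 0 := by
  have hU : IsOpen {ζ : ℂ | Y < ζ.im} := isOpen_lt continuous_const Complex.continuous_im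
  have hl : ∀ u, lamC X (s u) = X.lam (s u) := by
    intro u
    unfold lamC
    rw [ofComplex_apply]
  have hd : HasDerivAt (fun u : ℂ => 2 * (Real.pi : ℂ) * Complex.I * u)
      (2 * (Real.pi : ℂ) * Complex.I) ζ := by
    simpa using (hasDerivAt_id ζ).const_mul (2 * (Real.pi : ℂ) * Complex.I)
  have hd' : HasDerivAt (fun u : ℂ => 2 * (Real.pi : ℂ) * Complex.I * (-u))
      (2 * (Real.pi : ℂ) * Complex.I * (-1)) ζ := by
    simpa using (hasDerivAt_neg ζ).const_mul (2 * (Real.pi : ℂ) * Complex.I)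
  have hpi : (2 : ℂ) * (Real.pi : ℂ) * Complex.I ≠ 0 := by
    simp [Real.pi_ne_zero]
  refine ⟨?_, ?_⟩
  · intro j
    rw [hl, hl]
    have h1 : Y < (ζ + (j : ℂ)).im := by
      rw [Complex.add_im, Complex.natCast_im, add_zero]
      exact hζ
    have h2 : ee (ζ + j) = ee ζ := by
      unfold ee
      rw [mul_add, Complex.exp_add, mul_comm _ (j : ℂ), Complex.exp_nat_mul_two_pi_mul_I, mul_one]
    have h3 : ee (-(ζ + j)) = ee (-ζ) := by
      unfold ee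
      have e : 2 * (Real.pi : ℂ) * Complex.I * (-(ζ + j)) + (j : ℂ) * (2 * Real.pi * Complex.I)
          = 2 * (Real.pi : ℂ) * Complex.I * (-ζ) := by ring
      rw [← e, Complex.exp_add, Complex.exp_nat_mul_two_pi_mul_I, mul_one]
    rcases hE.2 with ⟨b, -, hb⟩ | hb
    · rw [hb _ h1, hb _ hζ, h2]
    · rw [hb _ h1, hb _ hζ, h3]
  · rcases hE.2 with ⟨b, -, hb⟩ | hb
    · have h1 : (fun u => lamC X (s u)) =ᶠ[𝓝 ζ] fun u => b + ee u := by
        filter_upwards [hU.mem_nhds hζ] with u hu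
        rw [hl]
        exact hb u hu
      rw [h1.deriv_eq]
      have h2 : HasDerivAt (fun u => b + ee u) (Complex.exp (2 * (Real.pi : ℂ) * Complex.I * ζ) *
          (2 * (Real.pi : ℂ) * Complex.I)) ζ := hd.cexp.const_add b
      rw [h2.deriv]
      exact mul_ne_zero (Complex.exp_ne_zero _) hpi
    · have h1 : (fun u => lamC X (s u)) =ᶠ[𝓝 ζ] fun u => ee (-u) := by
        filter_upwards [hU.mem_nhds hζ] with u hu
        rw [hl]
        exact hb u hu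
      rw [h1.deriv_eq]
      have h2 : HasDerivAt (fun u => ee (-u))
          (Complex.exp (2 * (Real.pi : ℂ) * Complex.I * (-ζ)) *
          (2 * (Real.pi : ℂ) * Complex.I * (-1))) ζ := hd'.cexp
      rw [h2.deriv]
      exact mul_ne_zero (Complex.exp_ne_zero _) (mul_ne_zero hpi (by norm_num))

/-- The end of the argument, at an infinite puncture. -/
theorem B16_end (V : Variation k X) {Q P : ℂ[X][X]} (hP : P ≠ 0) {B' : Finset ℂ} (H : Corr X Q B')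
    {s : ℂ → ℍ} {Y : ℝ} (hE : X.IsEnd s Y) (E : EndForm V s Y) (hm : 0 < E.m) {Y' : ℝ}
    (hY : Y ≤ Y') {W : ℂ → ℂ}
    (hW : ∀ ζ : ℂ, Y' < ζ.im → DifferentiableAt ℂ (fun u => (s u : ℂ)) ζ ∧
      DifferentiableAt ℂ W ζ ∧ lamC X (s ζ) ∉ B' ∧ V.GoodPt Q P (s ζ) (W ζ)) : False := by
  obtain ⟨hWd, N, q, hN, hq⟩ := branch_period V H hE E hY hW
  have hUo : IsOpen {ζ : ℂ | Y' < ζ.im} := isOpen_lt continuous_const Complex.continuous_im
  have hWim : ∀ ζ : ℂ, Y' < ζ.im → (W ζ).im < 0 := fun ζ hζ => (hW ζ hζ).2.2.2.1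
  have him : ∀ (j : ℕ) {ζ : ℂ}, Y' < ζ.im → Y' < (ζ + (j : ℂ)).im := by
    intro j ζ hζ
    rw [Complex.add_im, Complex.natCast_im, add_zero]
    exact hζ
  have ht1 : ∀ w : ℂ, 0 < w.im → DifferentiableAt ℂ V.t1 w := fun w hw =>
    dx_diff X (fun w hw => (V.tauC_diff hw).1) hw
  have hTd : ∀ ζ : ℂ, Y' < ζ.im → DifferentiableAt ℂ (fun u => V.tauC (s u)) ζ := fun ζ hζ =>
    DifferentiableAt.comp (g := V.tauC) (f := fun u => (s u : ℂ)) ζ
      (V.tauC_diff (s ζ).im_pos).1 (hW ζ hζ).1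
  have hTbd : ∀ ζ : ℂ, Y' < ζ.im → DifferentiableAt ℂ (fun u => cc V.tauC (W u)) ζ := fun ζ hζ =>
    DifferentiableAt.comp (g := cc V.tauC) (f := W) ζ
      (cc_diff V (hWim ζ hζ)).2.2.1 (hW ζ hζ).2.1
  have hxd : ∀ ζ : ℂ, Y' < ζ.im → DifferentiableAt ℂ (fun u => lamC X (s u)) ζ := fun ζ hζ =>
    DifferentiableAt.comp (g := lamC X) (f := fun u => (s u : ℂ)) ζ
      (lamC_diff X (s ζ).im_pos).1 (hW ζ hζ).1
  have hDd : ∀ ζ : ℂ, Y' < ζ.im → DifferentiableAt ℂ (fun u => V.t1 (s u) * cc V.t1 (W u)) ζ :=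
    fun ζ hζ => (DifferentiableAt.comp (g := V.t1) (f := fun u => (s u : ℂ)) ζ
      (ht1 _ (s ζ).im_pos) (hW ζ hζ).1).mul (DifferentiableAt.comp (g := cc V.t1) (f := W) ζ
      (cc_diff V (hWim ζ hζ)).2.2.2.2.1 (hW ζ hζ).2.1)
  -- the derivative of the section does not vanish
  have hsd : ∀ ζ : ℂ, Y' < ζ.im → deriv (fun u => (s u : ℂ)) ζ ≠ 0 := by
    intro ζ hζ h0
    apply (B16_lam hE (lt_of_le_of_lt hY hζ)).2
    have h1 : HasDerivAt (fun u => lamC X (s u)) (deriv (lamC X) (s ζ) *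
        deriv (fun u => (s u : ℂ)) ζ) ζ :=
      HasDerivAt.comp (h₂ := lamC X) (h := fun u => (s u : ℂ)) ζ
        (lamC_diff X (s ζ).im_pos).1.hasDerivAt (hW ζ hζ).1.hasDerivAt
    rw [h1.deriv, h0, mul_zero]
  -- a point where everything is nonzero
  obtain ⟨ζ₀, hζ₀, -, hW0⟩ := hWd 0
  have hgen : ∀ᶠ ζ in 𝓝[≠] ζ₀, Y' < ζ.im ∧ (V.t1 (s ζ) ≠ 0 ∧ deriv V.tauC (s ζ) ≠ 0) ∧
      cc V.t1 (W ζ) ≠ 0 ∧ deriv W ζ ≠ 0 := by
    have g1 : ∀ᶠ ζ in 𝓝[≠] ζ₀, Y' < ζ.im := nhdsWithin_le_nhds (hUo.mem_nhds hζ₀)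
    have g2 : ∀ᶠ ζ in 𝓝[≠] ζ₀, V.t1 (s ζ) ≠ 0 ∧ deriv V.tauC (s ζ) ≠ 0 := by
      have h1 : Tendsto (fun u => (s u : ℂ)) (𝓝[≠] ζ₀) (𝓝[≠] (s ζ₀ : ℂ)) :=
        (hW ζ₀ hζ₀).1.hasDerivAt.tendsto_nhdsNE (hsd ζ₀ hζ₀)
      exact h1.eventually (V.t1_ne (s ζ₀).im_pos)
    have g3 : ∀ᶠ ζ in 𝓝[≠] ζ₀, cc V.t1 (W ζ) ≠ 0 := by
      have h1 : Tendsto W (𝓝[≠] ζ₀) (𝓝[≠] (W ζ₀)) :=
        (hW ζ₀ hζ₀).2.1.hasDerivAt.tendsto_nhdsNE hW0
      have h2 : Tendsto (starRingEnd ℂ) (𝓝[≠] (W ζ₀)) (𝓝[≠] (conj (W ζ₀))) := by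
        apply tendsto_nhdsWithin_of_tendsto_nhds_of_eventually_within
        · exact Complex.continuous_conj.continuousAt.tendsto.mono_left nhdsWithin_le_nhds
        · filter_upwards [self_mem_nhdsWithin] with u hu h3
          apply hu
          have h4 := congrArg (starRingEnd ℂ) (show conj u = conj (W ζ₀) from h3)
          rw [Complex.conj_conj, Complex.conj_conj] at h4
          exact h4
      have h3 : 0 < (conj (W ζ₀)).im := by
        rw [Complex.conj_im]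
        have := hWim ζ₀ hζ₀
        linarith
      filter_upwards [(h2.comp h1).eventually (V.t1_ne h3)] with ζ hζ h4
      apply hζ.1
      unfold cc at h4
      exact (map_eq_zero _).1 h4
    have g4 : ∀ᶠ ζ in 𝓝[≠] ζ₀, deriv W ζ ≠ 0 := by
      have h1 : AnalyticAt ℂ W ζ₀ := B16_an (fun ζ hζ => (hW ζ hζ).2.1) hζ₀
      exact nhdsWithin_le_nhds (h1.deriv.continuousAt.eventually_ne hW0)
    filter_upwards [g1, g2, g3, g4] with ζ a1 a2 a3 a4
    exact ⟨a1, a2, a3, a4⟩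
  obtain ⟨ζ₁, hζ₁, ⟨hs1, hs2⟩, hw1, hw2⟩ := hgen.exists
  have hD1 : V.t1 (s ζ₁) * cc V.t1 (W ζ₁) ≠ 0 := mul_ne_zero hs1 hw1
  obtain ⟨N', hN', hth⟩ := theta_period (P := P) hP (Y := Y') (n := N * E.n)
    (Nat.mul_pos hN E.hn) (x := fun u => lamC X (s u))
    (A := fun u => (V.tauC (s u) - cc V.tauC (W u)) ^ 2)
    (D := fun u => V.t1 (s u) * cc V.t1 (W u))
    (fun ζ hζ => ⟨hxd ζ hζ, (B16_lam hE (lt_of_le_of_lt hY hζ)).1 _⟩)
    ⟨ζ₁, hζ₁, (B16_lam hE (lt_of_le_of_lt hY hζ₁)).2⟩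
    (fun ζ hζ => ((hTd ζ hζ).sub (hTbd ζ hζ)).pow 2) hDd ⟨ζ₁, hζ₁, hD1⟩
    (fun ζ hζ => (hW ζ hζ).2.2.2.2.2)
  -- the monodromy over the total period
  have hsp : ∀ (j : ℕ) (ζ : ℂ), Y' < ζ.im →
      ((s (ζ + (j * E.n : ℕ)) : ℍ) : ℂ) = mob ((E.p ^ j : X.P) : SL(2, ℝ)) (s ζ) := by
    intro j
    induction j with
    | zero =>
      intro ζ hζ
      rw [pow_zero]
      change _ = mob 1 (s ζ : ℂ)
      rw [B16_mob_one (s ζ).im_pos]
      simp
    | succ j ih =>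
      intro ζ hζ
      have e1 : ζ + (((j + 1) * E.n : ℕ) : ℂ) = (ζ + ((j * E.n : ℕ) : ℂ)) + (E.n : ℂ) := by
        push_cast
        ring
      rw [e1, E.hp _ (lt_of_le_of_lt hY (him (j * E.n) hζ))]
      have e2 : (((E.p : SL(2, ℝ)) • s (ζ + ((j * E.n : ℕ) : ℂ)) : ℍ) : ℂ)
          = mob (E.p : SL(2, ℝ)) (s (ζ + ((j * E.n : ℕ) : ℂ))) := by
        unfold mob
        rw [ofComplex_apply]
      rw [e2, ih ζ hζ, B16_mob_mul, pow_succ']
      rfl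
  have hwp : ∀ (j : ℕ) (ζ : ℂ), Y' < ζ.im →
      conj (W (ζ + (j * (N * E.n) : ℕ))) = mob ((q ^ j : X.P) : SL(2, ℝ)) (conj (W ζ)) := by
    intro j
    induction j with
    | zero =>
      intro ζ hζ
      rw [pow_zero]
      change _ = mob 1 (conj (W ζ))
      rw [B16_mob_one]
      · simp
      · rw [Complex.conj_im]
        have := hWim ζ hζ
        linarith
    | succ j ih =>
      intro ζ hζ
      have e1 : ζ + (((j + 1) * (N * E.n) : ℕ) : ℂ)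
          = (ζ + ((j * (N * E.n) : ℕ) : ℂ)) + ((N * E.n : ℕ) : ℂ) := by
        push_cast
        ring
      rw [e1, hq _ (him (j * (N * E.n)) hζ), ih ζ hζ, B16_mob_mul, pow_succ']
      rfl
  have hs' : ∀ ζ : ℂ, Y' < ζ.im → ((s (ζ + (N' * (N * E.n) : ℕ)) : ℍ) : ℂ)
      = mob ((E.p ^ (N' * N) : X.P) : SL(2, ℝ)) (s ζ) := by
    intro ζ hζ
    rw [← hsp (N' * N) ζ hζ, mul_assoc]
  have hw' := hwp N'
  have hconj : ∀ ζ : ℂ, Y' < ζ.im → 0 < (s ζ : ℂ).im := fun ζ _ => (s ζ).im_pos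
  have k1 := fun (ζ : ℂ) (hζ : Y' < ζ.im) => B16_tau V (E.p ^ (N' * N)) (hconj ζ hζ) (hs' ζ hζ)
  have k2 := fun (ζ : ℂ) (hζ : Y' < ζ.im) => B16_tau' V (q ^ N') (hWim ζ hζ) (hw' ζ hζ)
  have hTn := fun (ζ : ℂ) (hζ : Y' < ζ.im) => (k1 ζ hζ).2.1
  have hTbn := fun (ζ : ℂ) (hζ : Y' < ζ.im) => (k2 ζ hζ).2.1
  -- the relation where `D` does not vanish
  have hrel : ∀ ζ : ℂ, Y' < ζ.im → V.t1 (s ζ) * cc V.t1 (W ζ) ≠ 0 →
      (((V.ρ (E.p ^ (N' * N)) 0 0 : ℂ) * V.tauC (s ζ) + V.ρ (E.p ^ (N' * N)) 0 1) *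
        (V.ρ (q ^ N') 1 0 * cc V.tauC (W ζ) + V.ρ (q ^ N') 1 1) -
      (V.ρ (q ^ N') 0 0 * cc V.tauC (W ζ) + V.ρ (q ^ N') 0 1) *
        (V.ρ (E.p ^ (N' * N)) 1 0 * V.tauC (s ζ) + V.ρ (E.p ^ (N' * N)) 1 1)) ^ 2
        = (V.tauC (s ζ) - cc V.tauC (W ζ)) ^ 2 := by
    intro ζ hζ hD
    have h1 := hth ζ hζ
    rw [← hTn ζ hζ, ← hTbn ζ hζ]
    have h2 := (k1 ζ hζ).2.2
    have h3 := (k2 ζ hζ).2.2
    apply mul_right_cancel₀ hD
    generalize V.tauC (s (ζ + (N' * (N * E.n) : ℕ))) = T' at *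
    generalize cc V.tauC (W (ζ + (N' * (N * E.n) : ℕ))) = Tb' at *
    generalize V.t1 (s (ζ + (N' * (N * E.n) : ℕ))) = d1 at *
    generalize cc V.t1 (W (ζ + (N' * (N * E.n) : ℕ))) = d2 at *
    generalize (V.ρ (E.p ^ (N' * N)) 1 0 : ℂ) * V.tauC (s ζ) + V.ρ (E.p ^ (N' * N)) 1 1 = j1 at *
    generalize (V.ρ (q ^ N') 1 0 : ℂ) * cc V.tauC (W ζ) + V.ρ (q ^ N') 1 1 = j2 at *
    generalize V.tauC (s ζ) = T at *
    generalize cc V.tauC (W ζ) = Tb at *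
    rw [← h2, ← h3] at h1 ⊢
    linear_combination j1 ^ 2 * j2 ^ 2 * h1
  have hinv : ∀ ζ : ℂ, Y' < ζ.im →
      (((V.ρ (E.p ^ (N' * N)) 0 0 : ℂ) * V.tauC (s ζ) + V.ρ (E.p ^ (N' * N)) 0 1) *
        (V.ρ (q ^ N') 1 0 * cc V.tauC (W ζ) + V.ρ (q ^ N') 1 1) -
      (V.ρ (q ^ N') 0 0 * cc V.tauC (W ζ) + V.ρ (q ^ N') 0 1) *
        (V.ρ (E.p ^ (N' * N)) 1 0 * V.tauC (s ζ) + V.ρ (E.p ^ (N' * N)) 1 1)) ^ 2
        = (V.tauC (s ζ) - cc V.tauC (W ζ)) ^ 2 := by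
    have hTa : AnalyticOnNhd ℂ (fun u => V.tauC (s u)) {ζ : ℂ | Y' < ζ.im} :=
      fun ζ hζ => B16_an hTd hζ
    have hTba : AnalyticOnNhd ℂ (fun u => cc V.tauC (W u)) {ζ : ℂ | Y' < ζ.im} :=
      fun ζ hζ => B16_an hTbd hζ
    have hL : AnalyticOnNhd ℂ (fun ζ =>
      (((V.ρ (E.p ^ (N' * N)) 0 0 : ℂ) * V.tauC (s ζ) + V.ρ (E.p ^ (N' * N)) 0 1) *
        (V.ρ (q ^ N') 1 0 * cc V.tauC (W ζ) + V.ρ (q ^ N') 1 1) -
      (V.ρ (q ^ N') 0 0 * cc V.tauC (W ζ) + V.ρ (q ^ N') 0 1) *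
        (V.ρ (E.p ^ (N' * N)) 1 0 * V.tauC (s ζ) + V.ρ (E.p ^ (N' * N)) 1 1)) ^ 2)
        {ζ : ℂ | Y' < ζ.im} := by
      intro ζ hζ
      have a1 := hTa ζ hζ
      have a2 := hTba ζ hζ
      exact ((((analyticAt_const.mul a1).add analyticAt_const).mul
        ((analyticAt_const.mul a2).add analyticAt_const)).sub
        (((analyticAt_const.mul a2).add analyticAt_const).mul
        ((analyticAt_const.mul a1).add analyticAt_const))).pow 2
    have hR : AnalyticOnNhd ℂ (fun ζ => (V.tauC (s ζ) - cc V.tauC (W ζ)) ^ 2)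
        {ζ : ℂ | Y' < ζ.im} := fun ζ hζ => ((hTa ζ hζ).sub (hTba ζ hζ)).pow 2
    have hev := (hDd ζ₁ hζ₁).continuousAt.eventually_ne hD1
    have heq := hL.eqOn_of_preconnected_of_eventuallyEq hR
      (convex_halfSpace_im_gt Y').isPreconnected hζ₁ (by
        filter_upwards [hev, hUo.mem_nhds hζ₁] with ζ a1 a2
        exact hrel ζ a2 a1)
    intro ζ hζ
    exact heq hζ
  have hg : E.M * V.ρ (E.p ^ (N' * N)) = ModularGroup.T ^ (E.m * (N' * N)) * E.M := by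
    rw [map_pow]
    generalize N' * N = j
    induction j with
    | zero => simp
    | succ j ih =>
      rw [pow_succ, ← mul_assoc, ih, mul_assoc, E.hρ, ← mul_assoc, ← pow_add]
      congr 2
  refine no_mirror (n := N' * (N * E.n)) (Nat.mul_pos hN' (Nat.mul_pos hN E.hn)) (Y := Y')
    (T := fun u => V.tauC (s u)) (Tb := fun u => cc V.tauC (W u))
    (fun ζ hζ => ⟨hTd ζ hζ, (V.tauC_diff (s ζ).im_pos).2⟩)
    (fun ζ hζ => ⟨hTbd ζ hζ, (cc_diff V (hWim ζ hζ)).2.2.2.1⟩) ⟨ζ₁, hζ₁, ?_⟩ ⟨ζ₁, hζ₁, ?_⟩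
    (M := E.M) (Nat.mul_pos hm (Nat.mul_pos hN' hN)) hg hTn hTbn hinv
  · have h1 : HasDerivAt (fun u => V.tauC (s u)) (deriv V.tauC (s ζ₁) *
        deriv (fun u => (s u : ℂ)) ζ₁) ζ₁ :=
      HasDerivAt.comp (h₂ := V.tauC) (h := fun u => (s u : ℂ)) ζ₁
        (V.tauC_diff (s ζ₁).im_pos).1.hasDerivAt (hW ζ₁ hζ₁).1.hasDerivAt
    rw [h1.deriv]
    exact mul_ne_zero hs2 (hsd ζ₁ hζ₁)
  · have c := cc_diff V (hWim ζ₁ hζ₁)
    have h1 : HasDerivAt (fun u => cc V.tauC (W u)) (deriv (cc V.tauC) (W ζ₁) *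
        deriv W ζ₁) ζ₁ :=
      HasDerivAt.comp (h₂ := cc V.tauC) (h := W) ζ₁ c.2.2.1.hasDerivAt
        (hW ζ₁ hζ₁).2.1.hasDerivAt
    rw [h1.deriv]
    refine mul_ne_zero ?_ hw2
    intro h0
    apply hw1
    rw [← c.2.2.2.2.2]
    unfold dx
    rw [h0, zero_div]

/-- The two relations cannot hold. -/
theorem Variation.no_relation (V : Variation k X) {z₁ : ℂ} (hz : 0 < z₁.im) {φ : ℂ → ℂ}
    (hφ : AnalyticAt ℂ φ z₁) (him : (φ z₁).im < 0) (hd : deriv φ z₁ ≠ 0) {P₁ P₂ : ℂ[X][X]}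
    (h₁ : P₁ ≠ 0) (h₂ : P₂ ≠ 0) (ht : V.t1 z₁ ≠ 0) (ht' : cc V.t1 (φ z₁) ≠ 0)
    (e₁ : ∀ᶠ u in 𝓝 z₁, EV P₁ (lamC X u) (cc (lamC X) (φ u)) = 0)
    (e₂ : ∀ᶠ u in 𝓝 z₁, EV P₂ (lamC X u) ((V.tauC u - cc V.tauC (φ u)) ^ 2 /
      (dx (lamC X) V.tauC u * dx (cc (lamC X)) (cc V.tauC) (φ u))) = 0) : False := by
  have hup : ∀ᶠ u in 𝓝 z₁, 0 < u.im :=
    (isOpen_lt continuous_const Complex.continuous_im).mem_nhds hz
  have hlow : ∀ᶠ u in 𝓝 z₁, (φ u).im < 0 :=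
    hφ.continuousAt.eventually ((isOpen_lt Complex.continuous_im continuous_const).mem_nhds him)
  have c1 := cc_diff V him
  have hx : AnalyticAt ℂ (lamC X) z₁ := B16_an (fun w hw => (lamC_diff X hw).1) hz
  have hccan : AnalyticAt ℂ (cc (lamC X)) (φ z₁) := B16_an' (fun w hw => (cc_diff V hw).1) him
  have hy : AnalyticAt ℂ (fun u => cc (lamC X) (φ u)) z₁ := hccan.comp hφ
  have hy' : deriv (fun u => cc (lamC X) (φ u)) z₁ ≠ 0 := by
    have h1 : HasDerivAt (fun u => cc (lamC X) (φ u)) (deriv (cc (lamC X)) (φ z₁) *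
        deriv φ z₁) z₁ :=
      HasDerivAt.comp (h₂ := cc (lamC X)) (h := φ) z₁ c1.1.hasDerivAt
        hφ.differentiableAt.hasDerivAt
    rw [h1.deriv]
    exact mul_ne_zero c1.2.1 hd
  obtain ⟨Q, hQ, hQd, hQc, hQe⟩ := exists_irreducible h₁ hx hy (lamC_diff X hz).2 hy' e₁
  obtain ⟨B', hB1, hB2⟩ := bad_set hQ hQd hQc X.B
  have H : Corr X Q B' := { toSimple := hB1, avoid := hB2, nonconst := hQc }
  have ht1 : ∀ᶠ u in 𝓝 z₁, V.t1 u ≠ 0 :=
    (dx_diff X (fun w hw => (V.tauC_diff hw).1) hz).continuousAt.eventually_ne ht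
  have ht2 : ∀ᶠ u in 𝓝 z₁, cc V.t1 (φ u) ≠ 0 := by
    have h1 : ContinuousAt (fun u => cc V.t1 (φ u)) z₁ :=
      ContinuousAt.comp (g := cc V.t1) (f := φ) c1.2.2.2.2.1.continuousAt hφ.continuousAt
    exact h1.eventually_ne ht'
  have hgood : V.Good Q P₂ z₁ := by
    refine ⟨φ, hφ, ?_⟩
    filter_upwards [hlow, hQe, ht1, ht2, e₂] with u a1 a2 a3 a4 a5
    refine ⟨a1, a2, ?_⟩
    rw [← EV_eq_EVh P₂ _ _ (mul_ne_zero a3 a4)]
    have h1 : dx (lamC X) V.tauC u = V.t1 u := rfl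
    rw [h1, (cc_diff V a1).2.2.2.2.2] at a5
    rw [a5, zero_mul]
  have hall := fun (z : ℂ) (hz' : 0 < z.im) (hB : lamC X z ∉ B') => good_all V H hz hgood hz' hB
  obtain ⟨s, Y, hE, E, hm⟩ := V.exists_infinite_end
  obtain ⟨Y', W, hY, hW⟩ := end_branch V H hall hE
  exact B16_end V h₂ H hE E hm hY hW

end Concl

end Pool.Agent.LibSym94
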