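import Pool.Agent.LibSym94.PerDefs

/-!
# Correspondences between a variation and its mirror image: definitions
-/

open UpperHalfPlane Matrix Filter Topology Polynomial
open scoped MatrixGroups ComplexConjugate
open Pool.Agent.LibUB33 (Curve ee)

namespace Pool.Agent.LibSym94

/-- Homogeneous evaluation. -/
noncomputable def EVh (P : ℂ[X][X]) (x p q : ℂ) : ℂ :=
  ∑ b ∈ Finset.range (P.natDegree + 1), (P.coeff b).eval x * p ^ b * q ^ (P.natDegree - b)

/-- Outside `B'` the roots of `Q(x, ·)` are simple and finite. -/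
structure Simple (Q : ℂ[X][X]) (B' : Finset ℂ) : Prop where
  lead : ∀ x ∉ B', Q.leadingCoeff.eval x ≠ 0
  simple : ∀ x ∉ B', ∀ y, EV Q x y = 0 → EV (derivative Q) x y ≠ 0

variable {k : ℕ} {X : Curve}

/-- The algebraic correspondence `Q` and the set of bad points. -/
structure Corr (X : Curve) (Q : ℂ[X][X]) (B' : Finset ℂ) : Prop extends Simple Q B' where
  avoid : ∀ x ∉ B', ∀ b ∈ X.B, EV Q x (conj b) ≠ 0
  nonconst : ∀ y : ℂ, Q.eval (C y) ≠ 0

namespace Variation

variable (V : Variation k X)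

/-- The points `u` in the upper and `w` in the lower half plane satisfy the two relations. -/
def GoodPt (Q P : ℂ[X][X]) (u w : ℂ) : Prop :=
  w.im < 0 ∧ EV Q (lamC X u) (cc (lamC X) w) = 0 ∧
    EVh P (lamC X u) ((V.tauC u - cc V.tauC w) ^ 2) (V.t1 u * cc V.t1 w) = 0

/-- There is a germ of a function at `z` with values in the lower half plane satisfying the
relations. -/
def Good (Q P : ℂ[X][X]) (z : ℂ) : Prop :=
  ∃ φ : ℂ → ℂ, AnalyticAt ℂ φ z ∧ ∀ᶠ u in 𝓝 z, V.GoodPt Q P u (φ u)

end Variation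

end Pool.Agent.LibSym94
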