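import Pool.Agent.LibSym94.LocDefs

/-!
# The period map at an infinite puncture: definitions
-/

open Matrix Filter Topology Polynomial UpperHalfPlane
open scoped MatrixGroups ComplexConjugate
open Pool.Agent.LibUB33 (Curve ee)
open Pool.Agent.LibEis68 (form act)

namespace Pool.Agent.LibSym94

/-- The data at a puncture with infinite unipotent monodromy. -/
structure CuspD (k n m : ℕ) (Y : ℝ) (T F : ℂ → ℂ) (W : Fin (k + 1) → ℂ → ℂ)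
    (c : Fin (k + 1) → ℝ) : Prop where
  hn : 0 < n
  hm : 0 < m
  F_an : AnalyticAt ℂ F 0
  hT : ∀ ζ : ℂ, Y < ζ.im → T ζ = m * (ζ / n) + F (ee (ζ / n))
  hTd : ∀ ζ : ℂ, Y < ζ.im → DifferentiableAt ℂ T ζ
  hW : ∀ j, ∀ ζ : ℂ, Y < ζ.im → DifferentiableAt ℂ (W j) ζ
  trans : ∀ ζ : ℂ, Y < ζ.im → ∃ g : ℂ, ∀ j, deriv (W j) ζ = g * frm k (T ζ) (T ζ) k j
  per : ∀ ζ : ℂ, Y < ζ.im → toP (fun j => W j (ζ + n)) =
    (toP fun j => W j ζ).comp (X - C (m : ℂ)) + toP fun j => (c j : ℂ)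
  growth : ∃ (C : ℝ) (N : ℕ), ∀ (ζ : ℂ) (j : Fin (k + 1)), |ζ.re| ≤ n → Y < ζ.im →
    ‖W j ζ‖ ≤ C * (1 + |ζ.im|) ^ N
  nc : ∀ Y' : ℝ, ∃ ζ : ℂ, Y < ζ.im ∧ Y' < ζ.im ∧ deriv (W (Fin.last k)) ζ ≠ 0

/-- The polynomial with the given coefficients in powers of `X - s` and the standard terms. -/
noncomputable def nform (k : ℕ) (rr : ℝ) (N : ℝ[X]) (c₀ : ℂ) (u : ℕ → ℂ) (s : ℂ) : ℂ[X] :=
  C ((rr / (k + 1) : ℝ) : ℂ) * (X ^ (k + 1) - (X - C s) ^ (k + 1)) +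
    N.map (algebraMap ℝ ℂ) + C c₀ + ∑ j ∈ Finset.range (k + 1), C (u j) * (X - C s) ^ j

/-- The normal form at an infinite puncture. -/
structure NForm (k n : ℕ) (Y : ℝ) (T : ℂ → ℂ) (W : Fin (k + 1) → ℂ → ℂ) (rr : ℝ) (N : ℝ[X])
    (c₀ : ℂ) (u : ℕ → ℂ → ℂ) : Prop where
  hN : N.natDegree ≤ k
  u_an : ∀ j, AnalyticAt ℂ (u j) 0
  u_zero : ∀ j, u j 0 = 0
  eq : ∀ ζ : ℂ, Y < ζ.im →
    toP (fun j => W j ζ) = nform k rr N c₀ (fun j => u j (ee (ζ / n))) (T ζ)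
  der : ∀ j < k, ∀ ζ : ℂ, Y < ζ.im → deriv (fun ζ : ℂ => u j (ee (ζ / n))) ζ =
    (j + 1 : ℕ) * u (j + 1) (ee (ζ / n)) * deriv T ζ

/-- The component of the imaginary part of the extension period, up to a nonzero factor. -/
noncomputable def Variation.zc {k : ℕ} {X : Curve} (V : Variation k X) (i : ℕ) (z : ℍ) : ℂ :=
  gco k (V.τ z) (conj (V.τ z : ℂ)) (fun j => V.v z j - conj (V.v z j)) i

end Pool.Agent.LibSym94
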