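import Mathlib
import Pool.Agent.LibUB33.Defs
import Pool.Agent.LibEis68.Defs

/-!
# Extensions of `ℚ(0)` by `Sym^k H¹(E)(k+1)` over curves

All definitions used by the statement, except those on curves (`LibUB33.Defs`) and on a single
mixed Hodge structure (`LibEis68.Defs`).
-/

open UpperHalfPlane Matrix
open scoped MatrixGroups ComplexConjugate
open Pool.Agent.LibUB33 (Curve)
open Pool.Agent.LibEis68 (form act)

namespace Pool.Agent.LibSym94

/-- An admissible variation of mixed Hodge structure on the curve `X`, an extension of `ℚ(0)` by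
`Sym^k H¹(E/X)(k+1)`, `E/X` a family of elliptic curves with nonconstant period `τ`. In a flat
rational basis of the pull back to the upper half plane the local system is `ℚ ⊕ Sym^k ℚ²`, the
Hodge structure on `Sym^k` at `z` has the form `(X - τY)^i (X - τ̄Y)^(k-i)` of type
`(i-k-1, -i-1)`, and `F⁰` is spanned by `(1, v z)`; an element `δ` of the fundamental group acts
by `ρ δ` on `ℚ²` and by `1 ↦ 1 + c δ`. -/
structure Variation (k : ℕ) (X : Curve) where
  /-- The monodromy on `H¹(E)`. -/
  ρ : X.P →* SL(2, ℤ)
  /-- The monodromy cocycle. -/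
  c : X.P → Fin (k + 1) → ℚ
  /-- The period of the elliptic curve. -/
  τ : ℍ → ℍ
  /-- The period of the extension. -/
  v : ℍ → Fin (k + 1) → ℂ
  τ_hol : ∀ z : ℍ, DifferentiableAt ℂ (fun w : ℂ => (τ (ofComplex w) : ℂ)) z
  τ_nonconst : ∃ z w : ℍ, τ z ≠ τ w
  τ_equiv : ∀ (δ : X.P) (z : ℍ), τ ((δ : SL(2, ℝ)) • z) = ρ δ • τ z
  v_equiv : ∀ (δ : X.P) (z : ℍ), v ((δ : SL(2, ℝ)) • z) =
    (act k (ρ δ)).map (algebraMap ℚ ℂ) *ᵥ v z + fun j => (c δ j : ℂ)
  /-- Griffiths transversality: `v` is holomorphic and its derivative is a multiple of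
  `(X - τY)^k`. -/
  transversal : ∀ z : ℍ, ∃ g : ℂ,
    HasDerivAt (fun w : ℂ => v (ofComplex w)) (g • form k (τ z) (τ z) k) z
  /-- Admissibility: near each puncture the extension period grows at most like a power of the
  logarithm of the coordinate, on every sector. -/
  growth : ∀ (s : ℂ → ℍ) (Y : ℝ), X.IsEnd s Y → ∀ M : ℝ, ∃ (C : ℝ) (N : ℕ), ∀ ζ : ℂ,
    |ζ.re| ≤ M → Y + 1 ≤ ζ.im → ‖v (s ζ)‖ ≤ C * (1 + |ζ.im|) ^ N

namespace Variation

variable {k : ℕ} {X : Curve} (V : Variation k X)

/-- The dimension of the Mumford-Tate group of the fibre at `z`. -/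
noncomputable def mtDim (z : ℍ) : ℕ := LibEis68.mtDim (fun _ => V.v z) (V.τ z)

/-- The dimension of the generic Mumford-Tate group. -/
noncomputable def genericMtDim : ℕ := ⨆ z : ℍ, V.mtDim z

/-- The dimension of the Mumford-Tate domain of the fibre at `z`. -/
noncomputable def domDim (z : ℍ) : ℕ := LibEis68.domainDim (fun _ => V.v z) (V.τ z)

/-- The dimension of the generic Mumford-Tate domain. -/
noncomputable def genericDomDim : ℕ := ⨆ z : ℍ, V.domDim z

/-- The Hodge locus (as a subset of the upper half plane invariant under `P`). -/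
def hodgeLocus : Set ℍ := {z | V.mtDim z < V.genericMtDim}

/-- The atypical locus: the special points for which the codimension of the Mumford-Tate domain in
the generic one is not `1`, the codimension of the point in the image of the period map. -/
def atypicalLocus : Set ℍ := {z | z ∈ V.hodgeLocus ∧ V.genericDomDim - V.domDim z ≠ 1}

/-- The atypical points of the curve. -/
def atypicalPoints : Set X.Pts := (fun z : ℍ => (Quotient.mk'' z : X.Pts)) '' V.atypicalLocus

/-- The coordinates of the imaginary part of the extension period at `z` in the basis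
`(X - τY)^i (X - τ̄Y)^(k-i)`, `i = 0, …, k`, of the forms of degree `k`. -/
noncomputable def comp (z : ℍ) : Fin (k + 1) → ℂ :=
  (Matrix.of fun (j i : Fin (k + 1)) => form k (V.τ z) (conj (V.τ z : ℂ)) i j)⁻¹ *ᵥ
    fun j => ((V.v z j).im : ℂ)

/-- The part of type `(-k/2-1, -k/2-1)` of the imaginary part of the extension period, as a
function on the curve (for `k` even). -/
noncomputable def middle (z : ℍ) : ℝ :=
  (V.τ z).im ^ (k / 2) * (V.comp z ⟨k / 2, by omega⟩).re

/-- The variation splits over `ℚ`. -/
def Split : Prop := ∃ r : Fin (k + 1) → ℚ, ∀ (z : ℍ) (i : Fin (k + 1)), V.v z i = r i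

end Variation

end Pool.Agent.LibSym94
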