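import Pool.Agent.LibSym94.Z1Defs
import Pool.Agent.LibSym94.END

open UpperHalfPlane Matrix Filter Topology
open scoped MatrixGroups ComplexConjugate
open Pool.Agent.LibUB33 (Curve ee)
open Pool.Agent.LibEis68 (form act)

namespace Pool.Agent.LibSym94

/-! ## Algebra of unipotent elements -/

section Algebra
variable {k : ℕ}

theorem Z1_ext (γ γ' : SL(2, ℤ)) (p q : (Polynomial ℂ))
    (h : ∀ x : ℂ, (γ 0 0 : ℂ) - (γ 1 0 : ℂ) * x ≠ 0 → (γ' 0 0 : ℂ) - (γ' 1 0 : ℂ) * x ≠ 0 →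
      p.eval x = q.eval x) : p = q := by
  have hne0 : ∀ a c : ℂ, (Polynomial.C a - Polynomial.C c * Polynomial.X : (Polynomial ℂ)) = 0 →
      a = 0 ∧ c = 0 := by
    intro a c h0
    have h1 := congrArg (fun r : (Polynomial ℂ) => r.coeff 0) h0
    have h2 := congrArg (fun r : (Polynomial ℂ) => r.coeff 1) h0
    simp [Polynomial.coeff_X, Polynomial.coeff_C] at h1 h2
    exact ⟨h1, h2⟩
  have hne : ∀ δ : SL(2, ℤ),
      (Polynomial.C (δ 0 0 : ℂ) - Polynomial.C (δ 1 0 : ℂ) * Polynomial.X : (Polynomial ℂ)) ≠ 0 := by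
    intro δ h0
    obtain ⟨h1, h2⟩ := hne0 _ _ h0
    have h3 := δ.det_coe
    rw [Matrix.det_fin_two] at h3
    have h1' : δ.1 0 0 = 0 := by exact_mod_cast h1
    have h2' : δ.1 1 0 = 0 := by exact_mod_cast h2
    rw [h1', h2'] at h3
    simp at h3
  have h0 : (p - q) * (Polynomial.C (γ 0 0 : ℂ) - Polynomial.C (γ 1 0 : ℂ) * Polynomial.X) *
      (Polynomial.C (γ' 0 0 : ℂ) - Polynomial.C (γ' 1 0 : ℂ) * Polynomial.X) = 0 := by
    apply Polynomial.funext
    intro x
    simp only [Polynomial.eval_mul, Polynomial.eval_sub, Polynomial.eval_C, Polynomial.eval_X,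
      Polynomial.eval_zero]
    by_cases h1 : (γ 0 0 : ℂ) - (γ 1 0 : ℂ) * x = 0
    · rw [h1]; ring
    · by_cases h2 : (γ' 0 0 : ℂ) - (γ' 1 0 : ℂ) * x = 0
      · rw [h2]; ring
      · rw [h x h1 h2]; ring
  rcases mul_eq_zero.1 h0 with h1 | h1
  · rcases mul_eq_zero.1 h1 with h2 | h2
    · exact sub_eq_zero.1 h2
    · exact absurd h2 (hne γ)
  · exact absurd h1 (hne γ')

theorem Z1_eval (γ : SL(2, ℤ)) (v : Fin (k + 1) → ℂ) {x : ℂ}
    (hx : (γ 0 0 : ℂ) - (γ 1 0 : ℂ) * x ≠ 0) :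
    (toP ((act k γ).map (algebraMap ℚ ℂ) *ᵥ v)).eval x =
      ((γ 0 0 : ℂ) - (γ 1 0 : ℂ) * x) ^ k *
        (toP v).eval (((γ 1 1 : ℂ) * x - γ 0 1) / ((γ 0 0 : ℂ) - (γ 1 0 : ℂ) * x)) := by
  rw [toP_act]
  unfold toP
  rw [Polynomial.eval_finsetSum, Polynomial.eval_finsetSum, Finset.mul_sum]
  apply Finset.sum_congr rfl
  intro j _
  simp only [Polynomial.eval_mul, Polynomial.eval_pow, Polynomial.eval_sub, Polynomial.eval_C,
    Polynomial.eval_X]
  have hj : (j : ℕ) ≤ k := Nat.lt_succ_iff.1 j.2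
  rw [div_pow]
  have h1 : ((γ 0 0 : ℂ) - (γ 1 0 : ℂ) * x) ^ k =
      ((γ 0 0 : ℂ) - (γ 1 0 : ℂ) * x) ^ (j : ℕ) *
        ((γ 0 0 : ℂ) - (γ 1 0 : ℂ) * x) ^ (k - (j : ℕ)) := by
    rw [← pow_add]
    congr 1
    omega
  rw [h1]
  have h2 : ((γ 0 0 : ℂ) - (γ 1 0 : ℂ) * x) ^ (j : ℕ) ≠ 0 := pow_ne_zero _ hx
  generalize ((γ 0 0 : ℂ) - (γ 1 0 : ℂ) * x) ^ (j : ℕ) = A at h2
  generalize ((γ 0 0 : ℂ) - (γ 1 0 : ℂ) * x) ^ (k - (j : ℕ)) = B
  field_simp

/-- The action on forms is multiplicative. -/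
theorem act_mul (γ δ : SL(2, ℤ)) : act k (γ * δ) = act k γ * act k δ := by
  have hinj : Function.Injective (fun M : Matrix (Fin (k + 1)) (Fin (k + 1)) ℚ =>
      M.map (algebraMap ℚ ℂ)) := by
    apply Matrix.map_injective
    exact (algebraMap ℚ ℂ).injective
  apply hinj
  simp only [Matrix.map_mul]
  apply Matrix.mulVec_injective
  funext v
  apply toP_injective
  apply Z1_ext γ (γ * δ)
  intro x h1 h2
  rw [← Matrix.mulVec_mulVec, Z1_eval _ _ h2, Z1_eval _ _ h1]
  have e : ∀ i j : Fin 2, (((γ * δ : SL(2, ℤ)) i j : ℤ) : ℂ) =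
      (γ i 0 : ℂ) * (δ 0 j : ℂ) + (γ i 1 : ℂ) * (δ 1 j : ℂ) := by
    intro i j
    have : (γ * δ : SL(2, ℤ)) i j = γ i 0 * δ 0 j + γ i 1 * δ 1 j := by
      rw [Matrix.SpecialLinearGroup.coe_mul, Matrix.mul_apply, Fin.sum_univ_two]
    rw [this]
    push_cast
    ring
  obtain ⟨V, hV⟩ : ∃ V : ℂ, V = (γ 0 0 : ℂ) - (γ 1 0 : ℂ) * x := ⟨_, rfl⟩
  obtain ⟨W, hW⟩ : ∃ W : ℂ, W = (((γ * δ : SL(2, ℤ)) 0 0 : ℤ) : ℂ) -
    (((γ * δ : SL(2, ℤ)) 1 0 : ℤ) : ℂ) * x := ⟨_, rfl⟩
  rw [← hV] at h1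
  rw [← hW] at h2
  rw [← hV, ← hW]
  have h3 : (δ 0 0 : ℂ) - (δ 1 0 : ℂ) * (((γ 1 1 : ℂ) * x - γ 0 1) / V) = W / V := by
    rw [eq_div_iff h1, sub_mul, mul_assoc, div_mul_cancel₀ _ h1, hW, hV, e, e]
    ring
  have h4 : (δ 0 0 : ℂ) - (δ 1 0 : ℂ) * (((γ 1 1 : ℂ) * x - γ 0 1) / V) ≠ 0 := by
    rw [h3]
    exact div_ne_zero h2 h1
  rw [Z1_eval _ _ h4, ← mul_assoc, ← mul_pow]
  have h5 : V * ((δ 0 0 : ℂ) - (δ 1 0 : ℂ) * (((γ 1 1 : ℂ) * x - γ 0 1) / V)) = W := by
    rw [h3, mul_div_cancel₀ _ h1]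
  have h6 : ((δ 1 1 : ℂ) * (((γ 1 1 : ℂ) * x - γ 0 1) / V) - (δ 0 1 : ℂ)) /
      ((δ 0 0 : ℂ) - (δ 1 0 : ℂ) * (((γ 1 1 : ℂ) * x - γ 0 1) / V)) =
      ((((γ * δ : SL(2, ℤ)) 1 1 : ℤ) : ℂ) * x - (((γ * δ : SL(2, ℤ)) 0 1 : ℤ) : ℂ)) / W := by
    rw [h3, div_div_eq_mul_div]
    congr 1
    rw [sub_mul, mul_assoc, div_mul_cancel₀ _ h1, hV, e, e]
    ring
  rw [h5, h6]

theorem act_one : act k (1 : SL(2, ℤ)) = 1 := by
  ext i j
  unfold act
  simp only [Matrix.of_apply, Matrix.SpecialLinearGroup.coe_one, Matrix.one_apply]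
  simp [Polynomial.coeff_X_pow, Fin.ext_iff]

/-- `f'` is the coefficientwise derivative of `f`. -/
def Z1_HD (f f' : (Polynomial (Polynomial ℂ))) : Prop := ∀ i, Polynomial.derivative (f.coeff i) = f'.coeff i

theorem Z1_HD_mul {f f' g g' : (Polynomial (Polynomial ℂ))} (hf : Z1_HD f f') (hg : Z1_HD g g') :
    Z1_HD (f * g) (f' * g + f * g') := by
  intro i
  rw [Polynomial.coeff_mul, Polynomial.coeff_add, Polynomial.coeff_mul, Polynomial.coeff_mul,
    Polynomial.derivative_sum, ← Finset.sum_add_distrib]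
  apply Finset.sum_congr rfl
  intro x _
  rw [Polynomial.derivative_mul, hf, hg]

theorem Z1_HD_pow {f f' : (Polynomial (Polynomial ℂ))} (hf : Z1_HD f f') (n : ℕ) :
    Z1_HD (f ^ n) (n * f ^ (n - 1) * f') := by
  induction n with
  | zero =>
    intro i
    simp [Polynomial.coeff_one]
    split_ifs <;> simp
  | succ n ih =>
    have h := Z1_HD_mul ih hf
    rw [pow_succ]
    have e : (((n + 1 : ℕ) : (Polynomial (Polynomial ℂ)))) * f ^ (n + 1 - 1) * f' =
        ↑n * f ^ (n - 1) * f' * f + f ^ n * f' := by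
      cases n with
      | zero => simp
      | succ m =>
        simp only [Nat.add_sub_cancel]
        push_cast
        ring
    rw [e]
    exact h

/-- All coefficients have degree at most `n`. -/
def Z1_Deg (f : (Polynomial (Polynomial ℂ))) (n : ℕ) : Prop := ∀ i, (f.coeff i).natDegree ≤ n

theorem Z1_Deg_mul {f g : (Polynomial (Polynomial ℂ))} {m n : ℕ} (hf : Z1_Deg f m) (hg : Z1_Deg g n) :
    Z1_Deg (f * g) (m + n) := by
  intro i
  rw [Polynomial.coeff_mul]
  apply Polynomial.natDegree_sum_le_of_forall_le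
  intro x _
  exact Polynomial.natDegree_mul_le_of_le (hf _) (hg _)

theorem Z1_Deg_pow {f : (Polynomial (Polynomial ℂ))} (hf : Z1_Deg f 1) (n : ℕ) : Z1_Deg (f ^ n) n := by
  induction n with
  | zero =>
    intro i
    simp [Polynomial.coeff_one]
    split_ifs <;> simp
  | succ n ih =>
    rw [pow_succ]
    exact Z1_Deg_mul ih hf

/-- The linear polynomials. -/
noncomputable def Z1_u (α b : ℂ) : (Polynomial (Polynomial ℂ)) :=
  Polynomial.C (1 - Polynomial.C α * Polynomial.X) * Polynomial.X -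
    Polynomial.C (Polynomial.C b * Polynomial.X)

noncomputable def Z1_v (α c : ℂ) : (Polynomial (Polynomial ℂ)) :=
  Polynomial.C (1 + Polynomial.C α * Polynomial.X) -
    Polynomial.C (Polynomial.C c * Polynomial.X) * Polynomial.X

noncomputable def Z1_u' (α b : ℂ) : (Polynomial (Polynomial ℂ)) :=
  -(Polynomial.C (Polynomial.C α) * Polynomial.X + Polynomial.C (Polynomial.C b))

noncomputable def Z1_v' (α c : ℂ) : (Polynomial (Polynomial ℂ)) :=
  Polynomial.C (Polynomial.C α) - Polynomial.C (Polynomial.C c) * Polynomial.X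

theorem Z1_HD_u (α b : ℂ) : Z1_HD (Z1_u α b) (Z1_u' α b) := by
  intro i
  unfold Z1_u Z1_u'
  rcases i with _ | _ | i
  · simp
  · simp [Polynomial.coeff_C, Polynomial.coeff_one]
  · simp [Polynomial.coeff_X, Polynomial.coeff_C, Polynomial.coeff_one]

theorem Z1_HD_v (α c : ℂ) : Z1_HD (Z1_v α c) (Z1_v' α c) := by
  intro i
  unfold Z1_v Z1_v'
  rcases i with _ | _ | i
  · simp
  · simp [Polynomial.coeff_C, Polynomial.coeff_one]
  · simp [Polynomial.coeff_X, Polynomial.coeff_C, Polynomial.coeff_one]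

theorem Z1_deg_lin (a b : ℂ) : (Polynomial.C a + Polynomial.C b * Polynomial.X : (Polynomial ℂ)).natDegree ≤ 1 := by
  compute_degree

theorem Z1_Deg_u (α b : ℂ) : Z1_Deg (Z1_u α b) 1 := by
  intro i
  unfold Z1_u
  rcases i with _ | _ | i
  · simp
    compute_degree
  · simp [Polynomial.coeff_C, Polynomial.coeff_one]
    compute_degree
  · simp [Polynomial.coeff_X, Polynomial.coeff_C, Polynomial.coeff_one]

theorem Z1_Deg_v (α c : ℂ) : Z1_Deg (Z1_v α c) 1 := by
  intro i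
  unfold Z1_v
  rcases i with _ | _ | i
  · simp
    compute_degree
  · simp [Polynomial.coeff_C, Polynomial.coeff_one]
    compute_degree
  · simp [Polynomial.coeff_X, Polynomial.coeff_C, Polynomial.coeff_one]

theorem Z1_toP {p : (Polynomial ℂ)} (hp : p.natDegree ≤ k) :
    toP (fun i : Fin (k + 1) => p.coeff i) = p := by
  unfold toP
  conv_rhs => rw [p.as_sum_range' (k + 1) (by omega)]
  rw [Finset.sum_range]
  apply Finset.sum_congr rfl
  intro i _
  rw [Polynomial.C_mul_X_pow_eq_monomial]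

theorem Z1_pow {γ : SL(2, ℤ)} (h : γ 0 0 + γ 1 1 = 2) (n : ℕ) :
    (γ ^ n) 0 0 = 1 + n * (γ 0 0 - 1) ∧ (γ ^ n) 0 1 = n * γ 0 1 ∧ (γ ^ n) 1 0 = n * γ 1 0 ∧
      (γ ^ n) 1 1 = 1 - n * (γ 0 0 - 1) := by
  have hd := γ.det_coe
  rw [Matrix.det_fin_two] at hd
  have h1 : γ 1 1 = 2 - γ 0 0 := by omega
  have h2 : (γ 0 0 - 1) ^ 2 + γ 0 1 * γ 1 0 = 0 := by
    have hd' : γ 0 0 * γ 1 1 - γ 0 1 * γ 1 0 = 1 := hd
    rw [h1] at hd'
    linear_combination -hd'
  induction n with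
  | zero => simp
  | succ n ih =>
    obtain ⟨a1, a2, a3, a4⟩ := ih
    have e : ∀ i j : Fin 2, (γ ^ (n + 1)) i j = (γ ^ n) i 0 * γ 0 j + (γ ^ n) i 1 * γ 1 j := by
      intro i j
      rw [pow_succ, Matrix.SpecialLinearGroup.coe_mul, Matrix.mul_apply, Fin.sum_univ_two]
    rw [e, e, e, e, a1, a2, a3, a4, h1]
    push_cast
    refine ⟨?_, ?_, ?_, ?_⟩
    · linear_combination (n : ℤ) * h2
    · ring
    · ring
    · linear_combination (n : ℤ) * h2

/-- The action of a unipotent element. -/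
theorem unip_act {γ : SL(2, ℤ)} (h : γ 0 0 + γ 1 1 = 2) (n : ℕ) :
    (act k (γ ^ n)).map (algebraMap ℚ ℂ) =
      ∑ i ∈ Finset.range (k + 1), ((n : ℂ) ^ i / (i.factorial : ℂ)) • slm k (nb γ) ^ i ∧
    slm k (nb γ) ^ (k + 1) = 0 := by
  have hd := γ.det_coe
  rw [Matrix.det_fin_two] at hd
  have h1 : γ 1 1 = 2 - γ 0 0 := by omega
  have h2 : (γ 0 0 - 1) ^ 2 + γ 0 1 * γ 1 0 = 0 := by
    have hd' : γ 0 0 * γ 1 1 - γ 0 1 * γ 1 0 = 1 := hd
    rw [h1] at hd'
    linear_combination -hd'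
  set α : ℂ := (γ 0 0 : ℂ) - 1 with hα
  set b : ℂ := (γ 0 1 : ℂ) with hb
  set c : ℂ := (γ 1 0 : ℂ) with hc
  have h3 : α ^ 2 + b * c = 0 := by
    rw [hα, hb, hc]
    exact_mod_cast h2
  have hnb : nb γ = ![b, 2 * α, -c] := by
    unfold nb
    rw [h1]
    push_cast
    rw [hα]
    funext i
    fin_cases i
    · rfl
    · simp
      ring
    · rfl
  set f : Fin (k + 1) → (Polynomial (Polynomial ℂ)) := fun j => Z1_u α b ^ (j : ℕ) * Z1_v α c ^ (k - (j : ℕ)) with hf
  set f' : Fin (k + 1) → (Polynomial (Polynomial ℂ)) := fun j =>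
    ((j : ℕ) * Z1_u α b ^ ((j : ℕ) - 1) * Z1_u' α b) * Z1_v α c ^ (k - (j : ℕ)) +
      Z1_u α b ^ (j : ℕ) * ((k - (j : ℕ) : ℕ) * Z1_v α c ^ (k - (j : ℕ) - 1) * Z1_v' α c) with hf'
  have hHD : ∀ j, Z1_HD (f j) (f' j) := fun j =>
    Z1_HD_mul (Z1_HD_pow (Z1_HD_u α b) _) (Z1_HD_pow (Z1_HD_v α c) _)
  have hDeg : ∀ j, Z1_Deg (f j) k := by
    intro j
    have h := Z1_Deg_mul (Z1_Deg_pow (Z1_Deg_u α b) j) (Z1_Deg_pow (Z1_Deg_v α c) (k - (j : ℕ)))
    have e : (j : ℕ) + (k - (j : ℕ)) = k := by omega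
    rw [e] at h
    exact h
  -- evaluation of the linear forms
  have mu : ∀ t : ℂ, (Z1_u α b).map (Polynomial.evalRingHom t) =
      (Polynomial.C (1 - t * α) * Polynomial.X - Polynomial.C (t * b) : (Polynomial ℂ)) := by
    intro t
    unfold Z1_u
    simp
    ring
  have mv : ∀ t : ℂ, (Z1_v α c).map (Polynomial.evalRingHom t) =
      (Polynomial.C (1 + t * α) - Polynomial.C (t * c) * Polynomial.X : (Polynomial ℂ)) := by
    intro t
    unfold Z1_v
    simp
    ring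
  have mu' : ∀ t : ℂ, (Z1_u' α b).map (Polynomial.evalRingHom t) =
      (-(Polynomial.C α * Polynomial.X + Polynomial.C b) : (Polynomial ℂ)) := by
    intro t
    unfold Z1_u'
    simp
  have mv' : ∀ t : ℂ, (Z1_v' α c).map (Polynomial.evalRingHom t) =
      (Polynomial.C α - Polynomial.C c * Polynomial.X : (Polynomial ℂ)) := by
    intro t
    unfold Z1_v'
    simp
  set A : Matrix (Fin (k + 1)) (Fin (k + 1)) (Polynomial ℂ) := Matrix.of fun i j => (f j).coeff i with hA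
  have hode : ∀ i j, Polynomial.derivative (A i j) =
      ∑ l, Polynomial.C (slm k (nb γ) i l) * A l j := by
    intro i j
    apply Polynomial.funext
    intro t
    have e1 : (Polynomial.derivative (A i j)).eval t =
        ((f' j).map (Polynomial.evalRingHom t)).coeff i := by
      rw [hA, Matrix.of_apply, hHD j i, Polynomial.coeff_map, Polynomial.coe_evalRingHom]
    have e2 : ∀ l : Fin (k + 1), (A l j).eval t =
        ((f j).map (Polynomial.evalRingHom t)).coeff l := by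
      intro l
      rw [hA, Matrix.of_apply, Polynomial.coeff_map, Polynomial.coe_evalRingHom]
    rw [e1, Polynomial.eval_finsetSum]
    simp only [Polynomial.eval_mul, Polynomial.eval_C, e2]
    have hdeg : ((f j).map (Polynomial.evalRingHom t)).natDegree ≤ k := by
      rw [hf]
      simp only [Polynomial.map_mul, Polynomial.map_pow, mu, mv]
      have hj : (j : ℕ) ≤ k := Nat.lt_succ_iff.1 j.2
      have g1 : ((Polynomial.C (1 - t * α) * Polynomial.X - Polynomial.C (t * b) : (Polynomial ℂ)) ^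
          (j : ℕ)).natDegree ≤ (j : ℕ) * 1 := by
        apply Polynomial.natDegree_pow_le_of_le
        compute_degree
      have g2 : ((Polynomial.C (1 + t * α) - Polynomial.C (t * c) * Polynomial.X : (Polynomial ℂ)) ^
          (k - (j : ℕ))).natDegree ≤ (k - (j : ℕ)) * 1 := by
        apply Polynomial.natDegree_pow_le_of_le
        compute_degree
      refine (Polynomial.natDegree_mul_le_of_le g1 g2).trans ?_
      omega
    have e3 : ∑ l : Fin (k + 1), slm k (nb γ) i l *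
        ((f j).map (Polynomial.evalRingHom t)).coeff l =
        (toP (slm k (nb γ) *ᵥ fun l : Fin (k + 1) =>
          ((f j).map (Polynomial.evalRingHom t)).coeff l)).coeff i := by
      rw [coeff_toP]
      rfl
    rw [e3, toP_slm, Z1_toP hdeg]
    congr 1
    have e4 : toP (nb γ) = Polynomial.C b + Polynomial.C (2 * α) * Polynomial.X -
        Polynomial.C c * Polynomial.X ^ 2 := by
      rw [hnb]
      unfold toP
      rw [Fin.sum_univ_three]
      simp
      ring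
    rw [e4, hf', hf]
    simp only [Polynomial.map_mul, Polynomial.map_pow, Polynomial.map_add, mu, mv, mu', mv',
      Polynomial.map_natCast]
    have hj : (j : ℕ) ≤ k := Nat.lt_succ_iff.1 j.2
    obtain ⟨l, hl⟩ := Nat.exists_eq_add_of_le hj
    have hl' : k - (j : ℕ) = l := by omega
    rw [hl']
    generalize (j : ℕ) = j' at hl
    have hk : (k : ℂ) = (j' : ℂ) + l := by rw [hl]; push_cast; ring
    rw [hk]
    have hP : ∀ (p : (Polynomial ℂ)) (m : ℕ), (m : (Polynomial ℂ)) * p ^ m = (m : (Polynomial ℂ)) * p ^ (m - 1) * p := by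
      intro p m
      cases m with
      | zero => simp
      | succ m => simp [pow_succ, mul_assoc]
    set u : (Polynomial ℂ) := Polynomial.C (1 - t * α) * Polynomial.X - Polynomial.C (t * b) with hu
    set v : (Polynomial ℂ) := Polynomial.C (1 + t * α) - Polynomial.C (t * c) * Polynomial.X with hv
    have du : Polynomial.derivative u = Polynomial.C (1 - t * α) := by
      rw [hu]; simp
    have dv : Polynomial.derivative v = -Polynomial.C (t * c) := by
      rw [hv]; simp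
    have dd : Polynomial.derivative (Polynomial.C b + Polynomial.C (2 * α) * Polynomial.X -
        Polynomial.C c * Polynomial.X ^ 2) =
        Polynomial.C (2 : ℂ) * (Polynomial.C α - Polynomial.C c * Polynomial.X) := by
      have h2C : (Polynomial.C (2 : ℂ) : (Polynomial ℂ)) = 2 := rfl
      simp
      rw [h2C]
      ring
    rw [dd, Polynomial.derivative_mul, Polynomial.derivative_pow, Polynomial.derivative_pow, du, dv]
    have q1 : (Polynomial.C (((j' : ℂ) + l) / 2) : (Polynomial ℂ)) *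
        (Polynomial.C (2 : ℂ) * (Polynomial.C α - Polynomial.C c * Polynomial.X)) *
        (u ^ j' * v ^ l) = (Polynomial.C α - Polynomial.C c * Polynomial.X) *
          (((j' : (Polynomial ℂ)) * u ^ (j' - 1) * u) * v ^ l + u ^ j' * ((l : (Polynomial ℂ)) * v ^ (l - 1) * v)) := by
      rw [← hP, ← hP]
      have : (Polynomial.C (((j' : ℂ) + l) / 2) : (Polynomial ℂ)) * Polynomial.C (2 : ℂ) =
          (j' : (Polynomial ℂ)) + l := by
        rw [← Polynomial.C_mul]
        have : ((j' : ℂ) + l) / 2 * 2 = (j' : ℂ) + l := by ring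
        rw [this]
        simp
      linear_combination ((Polynomial.C α - Polynomial.C c * Polynomial.X) *
        (u ^ j' * v ^ l)) * this
    rw [q1]
    have r1 : (Polynomial.C α - Polynomial.C c * Polynomial.X) * u -
        (Polynomial.C b + Polynomial.C (2 * α) * Polynomial.X -
        Polynomial.C c * Polynomial.X ^ 2) * Polynomial.C (1 - t * α) =
        -(Polynomial.C α * Polynomial.X + Polynomial.C b) := by
      have h3' : (Polynomial.C α : (Polynomial ℂ)) ^ 2 + Polynomial.C b * Polynomial.C c = 0 := by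
        rw [← Polynomial.C_pow, ← Polynomial.C_mul, ← Polynomial.C_add, h3, Polynomial.C_0]
      rw [hu]
      simp only [Polynomial.C_sub, Polynomial.C_mul, Polynomial.C_1, Polynomial.C_add]
      have : (Polynomial.C (2 : ℂ) : (Polynomial ℂ)) = 2 := rfl
      rw [this]
      linear_combination (Polynomial.C t * Polynomial.X) * h3'
    have r2 : (Polynomial.C α - Polynomial.C c * Polynomial.X) * v +
        (Polynomial.C b + Polynomial.C (2 * α) * Polynomial.X -
        Polynomial.C c * Polynomial.X ^ 2) * Polynomial.C (t * c) =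
        (Polynomial.C α - Polynomial.C c * Polynomial.X) := by
      have h3' : (Polynomial.C α : (Polynomial ℂ)) ^ 2 + Polynomial.C b * Polynomial.C c = 0 := by
        rw [← Polynomial.C_pow, ← Polynomial.C_mul, ← Polynomial.C_add, h3, Polynomial.C_0]
      rw [hv]
      simp only [Polynomial.C_sub, Polynomial.C_mul, Polynomial.C_1, Polynomial.C_add]
      have : (Polynomial.C (2 : ℂ) : (Polynomial ℂ)) = 2 := rfl
      rw [this]
      linear_combination (Polynomial.C t) * h3'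
    simp only [map_natCast]
    linear_combination (-(j' : (Polynomial ℂ)) * u ^ (j' - 1) * v ^ l) * r1 -
      ((l : (Polynomial ℂ)) * u ^ j' * v ^ (l - 1)) * r2
  -- the coefficients of the powers of the parameter
  obtain ⟨B, hB⟩ : ∃ B : ℕ → Matrix (Fin (k + 1)) (Fin (k + 1)) ℂ,
    B = fun m => Matrix.of fun i j => (A i j).coeff m := ⟨_, rfl⟩
  have hB0 : B 0 = 1 := by
    ext i j
    have e1 : B 0 i j = ((f j).map (Polynomial.evalRingHom (0 : ℂ))).coeff i := by
      rw [hB, Polynomial.coeff_map, Polynomial.coe_evalRingHom, hA]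
      simp [Polynomial.coeff_zero_eq_eval_zero]
    rw [e1, hf]
    simp only [Polynomial.map_mul, Polynomial.map_pow, mu, mv, Matrix.one_apply]
    simp [Polynomial.coeff_X_pow, Fin.ext_iff]
  have hBs : ∀ m : ℕ, ((m : ℂ) + 1) • B (m + 1) = slm k (nb γ) * B m := by
    intro m
    ext i j
    have h := congrArg (fun p : (Polynomial ℂ) => p.coeff m) (hode i j)
    simp only [Polynomial.coeff_derivative, Polynomial.finsetSum_coeff,
      Polynomial.coeff_C_mul] at h
    rw [Matrix.smul_apply, Matrix.mul_apply, hB, smul_eq_mul, mul_comm]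
    exact h
  have hBf : ∀ m, B m = ((1 : ℂ) / (m.factorial : ℂ)) • slm k (nb γ) ^ m := by
    intro m
    induction m with
    | zero => rw [hB0]; simp
    | succ m ih =>
      have h := hBs m
      rw [ih, Matrix.mul_smul, ← pow_succ'] at h
      have hm : ((m : ℂ) + 1) ≠ 0 := by exact_mod_cast Nat.succ_ne_zero m
      have h' := congrArg (fun M => ((m : ℂ) + 1)⁻¹ • M) h
      simp only [smul_smul] at h'
      rw [inv_mul_cancel₀ hm, one_smul] at h'
      rw [h', Nat.factorial_succ]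
      congr 1
      push_cast
      field_simp
  have hBk : ∀ m, k < m → B m = 0 := by
    intro m hm
    ext i j
    rw [hB]
    simp only [Matrix.of_apply, Matrix.zero_apply]
    apply Polynomial.coeff_eq_zero_of_natDegree_lt
    exact lt_of_le_of_lt (hDeg j i) hm
  constructor
  · have hp := Z1_pow h n
    ext i j
    rw [Matrix.map_apply]
    have e1 : algebraMap ℚ ℂ (act k (γ ^ n) i j) =
        ((f j).map (Polynomial.evalRingHom (n : ℂ))).coeff i := by
      unfold act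
      rw [Matrix.of_apply, ← Polynomial.coeff_map, hf]
      simp only [Polynomial.map_mul, Polynomial.map_pow, Polynomial.map_sub, Polynomial.map_C,
        Polynomial.map_X, mu, mv, map_intCast]
      rw [hp.1, hp.2.1, hp.2.2.1, hp.2.2.2, hα, hb, hc]
      simp only [Int.cast_add, Int.cast_sub, Int.cast_mul, Int.cast_one, Int.cast_natCast,
        Polynomial.map_add, Polynomial.map_sub, Polynomial.map_mul, Polynomial.map_one,
        Polynomial.map_natCast, Polynomial.map_intCast, Polynomial.C_add, Polynomial.C_sub,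
        Polynomial.C_mul, Polynomial.C_1, map_natCast, map_intCast]
    rw [e1, Polynomial.coeff_map, Polynomial.coe_evalRingHom,
      Polynomial.eval_eq_sum_range' (lt_of_le_of_lt (hDeg j i) (Nat.lt_succ_self k)),
      Matrix.sum_apply]
    apply Finset.sum_congr rfl
    intro m _
    have e2 : ((f j).coeff i).coeff m = B m i j := by rw [hB, hA]; rfl
    rw [e2, hBf m, Matrix.smul_apply, Matrix.smul_apply, smul_eq_mul, smul_eq_mul]
    ring
  · have h := hBk (k + 1) (Nat.lt_succ_self k)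
    rw [hBf] at h
    rcases smul_eq_zero.1 h with h' | h'
    · exfalso
      have : ((k + 1).factorial : ℂ) ≠ 0 := by exact_mod_cast (Nat.factorial_pos _).ne'
      exact (one_div_ne_zero this) h'
    · exact h'

theorem Z2_regroup {M : Type*} [AddCommMonoid M] (K : ℕ) (g : ℕ → ℕ → M)
    (hg : ∀ i j, K ≤ i + j → g i j = 0) :
    ∑ j ∈ Finset.range K, ∑ i ∈ Finset.range K, g i j =
      ∑ m ∈ Finset.range K, ∑ p ∈ Finset.HasAntidiagonal.antidiagonal m, g p.1 p.2 := by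
  rw [Finset.sum_comm, ← Finset.sum_product']
  rw [← Finset.sum_filter_add_sum_filter_not (Finset.range K ×ˢ Finset.range K)
    (fun p => p.1 + p.2 < K)]
  have h0 : ∑ x ∈ (Finset.range K ×ˢ Finset.range K).filter (fun p => ¬ (p.1 + p.2 < K)),
      g x.1 x.2 = 0 := by
    apply Finset.sum_eq_zero
    intro x hx
    rw [Finset.mem_filter] at hx
    exact hg _ _ (not_lt.1 hx.2)
  rw [h0, add_zero]
  rw [← Finset.sum_fiberwise_of_maps_to (t := Finset.range K) (g := fun p : ℕ × ℕ => p.1 + p.2)]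
  · apply Finset.sum_congr rfl
    intro m hm
    rw [Finset.mem_range] at hm
    apply Finset.sum_congr
    · ext p
      simp only [Finset.mem_filter, Finset.mem_product, Finset.mem_range,
        Finset.HasAntidiagonal.mem_antidiagonal]
      omega
    · intro x _
      rfl
  · intro x hx
    rw [Finset.mem_filter] at hx
    exact Finset.mem_range.2 hx.2

theorem Z2_binom (m n : ℕ) :
    ∑ p ∈ Finset.HasAntidiagonal.antidiagonal m, ((n : ℂ) ^ (p.1 + 1) / ((p.1 + 1).factorial : ℂ)) *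
      ((1 : ℂ) / (p.2.factorial : ℂ)) =
    (((n : ℂ) + 1) ^ (m + 1) - 1) / ((m + 1).factorial : ℂ) := by
  have h1 : ((n : ℂ) + 1) ^ (m + 1) = ∑ p ∈ Finset.HasAntidiagonal.antidiagonal (m + 1),
      (n : ℂ) ^ p.1 * ((m + 1).choose p.1 : ℂ) := by
    rw [add_pow, Finset.Nat.sum_antidiagonal_eq_sum_range_succ_mk]
    apply Finset.sum_congr rfl
    intro i _
    simp
  rw [Finset.Nat.antidiagonal_succ] at h1
  rw [Finset.sum_cons, Finset.sum_map] at h1
  simp only [pow_zero, Nat.choose_zero_right, Nat.cast_one, mul_one] at h1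
  rw [h1, add_sub_cancel_left, Finset.sum_div]
  apply Finset.sum_congr rfl
  intro p hp
  rw [Finset.HasAntidiagonal.mem_antidiagonal] at hp
  simp only [Function.Embedding.prodMap, Function.Embedding.coeFn_mk, Prod.map,
    Function.Embedding.refl_apply]
  have h2 : m + 1 = (p.1 + 1) + p.2 := by omega
  have h3 : ((m + 1).choose (p.1 + 1) : ℂ) * ((p.1 + 1).factorial : ℂ) * (p.2.factorial : ℂ)
      = ((m + 1).factorial : ℂ) := by
    rw [h2, Nat.choose_symm_add]
    exact_mod_cast Nat.add_choose_mul_factorial_mul_factorial (p.1 + 1) p.2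
  have f1 : ((p.1 + 1).factorial : ℂ) ≠ 0 := by exact_mod_cast Nat.factorial_ne_zero _
  have f2 : (p.2.factorial : ℂ) ≠ 0 := by exact_mod_cast Nat.factorial_ne_zero _
  have f3 : ((m + 1).factorial : ℂ) ≠ 0 := by exact_mod_cast Nat.factorial_ne_zero _
  change _ = (n : ℂ) ^ (p.1 + 1) * ((m + 1).choose (p.1 + 1) : ℂ) / ((m + 1).factorial : ℂ)
  rw [eq_div_iff f3, ← h3]
  field_simp

theorem Z2_unit {L : Matrix (Fin (k + 1)) (Fin (k + 1)) ℂ} (hL : L ^ (k + 1) = 0) :
    IsUnit (∑ i ∈ Finset.range (k + 1), ((1 : ℂ) / ((i + 1).factorial : ℂ)) • L ^ i) := by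
  rw [Finset.sum_range_succ']
  have h1 : ∑ i ∈ Finset.range k, ((1 : ℂ) / ((i + 1 + 1).factorial : ℂ)) • L ^ (i + 1)
      = L * ∑ i ∈ Finset.range k, ((1 : ℂ) / ((i + 1 + 1).factorial : ℂ)) • L ^ i := by
    rw [Finset.mul_sum]
    apply Finset.sum_congr rfl
    intro i _
    rw [Matrix.mul_smul, pow_succ']
  have h2 : IsNilpotent (L * ∑ i ∈ Finset.range k,
      ((1 : ℂ) / ((i + 1 + 1).factorial : ℂ)) • L ^ i) := by
    apply Commute.isNilpotent_mul_right
    · apply Commute.sum_right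
      intro i _
      exact ((Commute.refl L).pow_right i).smul_right _
    · exact ⟨k + 1, hL⟩
  rw [h1]
  simp only [zero_add, Nat.factorial_one, Nat.cast_one, div_one, pow_zero, one_smul]
  have h3 := h2.isUnit_one_add
  rwa [add_comm (1 : Matrix (Fin (k + 1)) (Fin (k + 1)) ℂ)] at h3

/-- Cocycles of a unipotent element. -/
theorem unip_cocycle {L : Matrix (Fin (k + 1)) (Fin (k + 1)) ℂ} (hL : L ^ (k + 1) = 0)
    (c : ℕ → Fin (k + 1) → ℂ) (h0 : c 0 = 0)
    (hc : ∀ n, c (n + 1) =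
      (∑ i ∈ Finset.range (k + 1), ((1 : ℂ) / (i.factorial : ℂ)) • L ^ i) *ᵥ c n + c 1) :
    ∃ a : Fin (k + 1) → ℂ, ∀ n, c n = ∑ i ∈ Finset.range (k + 1),
      ((n : ℂ) ^ (i + 1) / ((i + 1).factorial : ℂ)) • (L ^ i *ᵥ a) := by
  obtain ⟨u, hu⟩ := Z2_unit hL
  let a : Fin (k + 1) → ℂ := (u⁻¹ : (Matrix (Fin (k + 1)) (Fin (k + 1)) ℂ)ˣ).1 *ᵥ c 1
  have ha : ∑ i ∈ Finset.range (k + 1), ((1 : ℂ) / ((i + 1).factorial : ℂ)) • (L ^ i *ᵥ a)
      = c 1 := by
    have h1 : (∑ i ∈ Finset.range (k + 1), ((1 : ℂ) / ((i + 1).factorial : ℂ)) • L ^ i) *ᵥ a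
        = c 1 := by
      rw [← hu]
      change u.1 *ᵥ ((u⁻¹ : (Matrix (Fin (k + 1)) (Fin (k + 1)) ℂ)ˣ).1 *ᵥ c 1) = c 1
      rw [Matrix.mulVec_mulVec, Units.mul_inv, Matrix.one_mulVec]
    rw [← h1, Matrix.sum_mulVec]
    apply Finset.sum_congr rfl
    intro i _
    rw [Matrix.smul_mulVec]
  refine ⟨a, fun n => ?_⟩
  induction n with
  | zero =>
    rw [h0]
    symm
    apply Finset.sum_eq_zero
    intro i _
    simp
  | succ n ih =>
    rw [hc, ih, ← ha, Matrix.sum_mulVec]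
    have h1 : ∀ j ∈ Finset.range (k + 1), (((1 : ℂ) / (j.factorial : ℂ)) • L ^ j) *ᵥ
        ∑ i ∈ Finset.range (k + 1), ((n : ℂ) ^ (i + 1) / ((i + 1).factorial : ℂ)) • (L ^ i *ᵥ a)
        = ∑ i ∈ Finset.range (k + 1), (((n : ℂ) ^ (i + 1) / ((i + 1).factorial : ℂ)) *
          ((1 : ℂ) / (j.factorial : ℂ))) • (L ^ (i + j) *ᵥ a) := by
      intro j _
      rw [Matrix.mulVec_sum]
      apply Finset.sum_congr rfl
      intro i _
      rw [Matrix.mulVec_smul, Matrix.smul_mulVec, Matrix.mulVec_mulVec, smul_smul, ← pow_add,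
        add_comm j i]
    rw [Finset.sum_congr rfl h1, Z2_regroup (k + 1) (fun i j =>
      (((n : ℂ) ^ (i + 1) / ((i + 1).factorial : ℂ)) *
          ((1 : ℂ) / (j.factorial : ℂ))) • (L ^ (i + j) *ᵥ a)), ← Finset.sum_add_distrib]
    · apply Finset.sum_congr rfl
      intro m _
      have h2 : ∑ p ∈ Finset.HasAntidiagonal.antidiagonal m, (((n : ℂ) ^ (p.1 + 1) / ((p.1 + 1).factorial : ℂ)) *
          ((1 : ℂ) / (p.2.factorial : ℂ))) • (L ^ (p.1 + p.2) *ᵥ a)
          = (∑ p ∈ Finset.HasAntidiagonal.antidiagonal m, ((n : ℂ) ^ (p.1 + 1) / ((p.1 + 1).factorial : ℂ)) *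
          ((1 : ℂ) / (p.2.factorial : ℂ))) • (L ^ m *ᵥ a) := by
        rw [Finset.sum_smul]
        apply Finset.sum_congr rfl
        intro p hp
        rw [Finset.HasAntidiagonal.mem_antidiagonal] at hp
        rw [hp]
      rw [h2, Z2_binom, ← add_smul]
      congr 1
      push_cast
      ring
    · intro i j hij
      have h3 : L ^ (i + j) = 0 := by
        obtain ⟨d, hd⟩ := Nat.exists_eq_add_of_le hij
        rw [hd, pow_add, hL, zero_mul]
      simp only [h3, Matrix.zero_mulVec, smul_zero]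

/-- Two nilpotent quadratic polynomials which do not commute pair to something nonzero. -/
theorem Z3_prr_ne {b b' : Fin 3 → ℂ} (hb : prr b b = 0) (hb' : prr b' b' = 0)
    (hbb : bra b b' ≠ 0) : prr b b' ≠ 0 := by
  intro hp
  apply hbb
  simp only [prr] at hb hb' hp
  have h2 : b 1 * b' 0 - b 0 * b' 1 = 0 := by
    apply pow_eq_zero_iff (two_ne_zero) |>.1
    linear_combination (b' 0 ^ 2) * hb + (b 0 ^ 2) * hb' - 2 * (b 0 * b' 0) * hp
  have h0 : b 2 * b' 1 - b 1 * b' 2 = 0 := by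
    apply pow_eq_zero_iff (two_ne_zero) |>.1
    linear_combination (b' 2 ^ 2) * hb + (b 2 ^ 2) * hb' - 2 * (b 2 * b' 2) * hp
  have h1 : b 2 * b' 0 - b 0 * b' 2 = 0 := by
    apply pow_eq_zero_iff (two_ne_zero) |>.1
    linear_combination (-(1 / 4) * (b 1 * b' 1) - (1 / 2) * (b 0 * b' 2 + b 2 * b' 0)) * hp +
      (1 / 4 * b' 1 ^ 2) * hb + (b 0 * b 2) * hb'
  funext i
  fin_cases i
  · simpa [bra] using h2
  · simp only [bra]
    simpa using h1
  · simpa [bra] using h0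

theorem Z3_expand {b b' : Fin 3 → ℂ} (hb : prr b b = 0) (hb' : prr b' b' = 0)
    (hbb : bra b b' ≠ 0) (c : Fin 3 → ℂ) :
    ∃ x y z : ℂ, c = x • b + (y • b' + z • bra b b') := by
  have hp := Z3_prr_ne hb hb' hbb
  refine ⟨prr c b' / prr b b', prr c b / prr b b', prr c (bra b b') / prr b b' ^ 2, ?_⟩
  have key : ∀ i, prr b b' ^ 2 * c i = prr b b' * prr c b' * b i +
      (prr b b' * prr c b * b' i + prr c (bra b b') * bra b b' i) := by
    intro i
    fin_cases i
    · simp only [prr, bra] at hb hb' ⊢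
      simp only [Fin.zero_eta, Matrix.cons_val_zero, Matrix.cons_val_one, Matrix.cons_val]
      linear_combination ((b' 1 * b' 1 - 2 * (b' 0 * b' 2 + b' 2 * b' 0)) * c 0 -
        (c 1 * b' 1 - 2 * (c 0 * b' 2 + c 2 * b' 0)) * b' 0) * hb -
        ((c 1 * b 1 - 2 * (c 0 * b 2 + c 2 * b 0)) * b 0) * hb'
    · simp only [prr, bra] at hb hb' ⊢
      simp only [Fin.mk_one, Matrix.cons_val_zero, Matrix.cons_val_one, Matrix.cons_val]
      linear_combination ((b' 1 * b' 1 - 2 * (b' 0 * b' 2 + b' 2 * b' 0)) * c 1 -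
        (c 1 * b' 1 - 2 * (c 0 * b' 2 + c 2 * b' 0)) * b' 1) * hb -
        ((c 1 * b 1 - 2 * (c 0 * b 2 + c 2 * b 0)) * b 1) * hb'
    · simp only [prr, bra] at hb hb' ⊢
      simp only [Fin.reduceFinMk, Matrix.cons_val_zero, Matrix.cons_val_one, Matrix.cons_val]
      linear_combination ((b' 1 * b' 1 - 2 * (b' 0 * b' 2 + b' 2 * b' 0)) * c 2 -
        (c 1 * b' 1 - 2 * (c 0 * b' 2 + c 2 * b' 0)) * b' 2) * hb -
        ((c 1 * b 1 - 2 * (c 0 * b 2 + c 2 * b 0)) * b 2) * hb'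
  funext i
  have hk := key i
  simp only [Pi.add_apply, Pi.smul_apply, smul_eq_mul]
  have h2 : prr b b' ^ 2 ≠ 0 := pow_ne_zero 2 hp
  apply mul_left_cancel₀ h2
  rw [hk]
  field_simp

theorem Z3_nb_null {γ : SL(2, ℤ)} (h : γ 0 0 + γ 1 1 = 2) : prr (nb γ) (nb γ) = 0 := by
  have hdet : γ 0 0 * γ 1 1 - γ 0 1 * γ 1 0 = 1 := by
    have := γ.2
    rw [Matrix.det_fin_two] at this
    exact this
  have h1 : ((γ 0 0 : ℤ) : ℂ) + ((γ 1 1 : ℤ) : ℂ) = 2 := by exact_mod_cast h
  have h2 : ((γ 0 0 : ℤ) : ℂ) * ((γ 1 1 : ℤ) : ℂ) - ((γ 0 1 : ℤ) : ℂ) * ((γ 1 0 : ℤ) : ℂ) = 1 := by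
    exact_mod_cast hdet
  simp only [prr, nb]
  simp only [Matrix.cons_val_zero, Matrix.cons_val_one, Matrix.cons_val]
  linear_combination (((γ 0 0 : ℤ) : ℂ) + ((γ 1 1 : ℤ) : ℂ) + 2) * h1 - 4 * h2

theorem Z3_kill {γ : SL(2, ℤ)} (h : γ 0 0 + γ 1 1 = 2) (hk : 1 ≤ k) {d : Fin (k + 1) → ℂ}
    (hd : (act k γ).map (algebraMap ℚ ℂ) *ᵥ d = d) : slm k (nb γ) *ᵥ d = 0 := by
  obtain ⟨h1, h2⟩ := unip_act (k := k) h 1
  rw [pow_one] at h1
  set L := slm k (nb γ) with hL
  rw [h1] at hd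
  have hrel : ∑ i ∈ Finset.range k, ((1 : ℂ) / ((i + 1).factorial : ℂ)) • (L ^ (i + 1) *ᵥ d) = 0 := by
    rw [Finset.sum_range_succ', Matrix.add_mulVec, Matrix.sum_mulVec] at hd
    simp only [Nat.cast_one, one_pow, pow_zero, Nat.factorial_zero, div_one, one_smul,
      Matrix.one_mulVec, Matrix.smul_mulVec] at hd
    have := congrArg (fun v => v - d) hd
    simpa using this
  have step : ∀ m, 1 ≤ m → L ^ (m + 1) *ᵥ d = 0 → L ^ m *ᵥ d = 0 := by
    intro m hm h0
    have hv := congrArg (fun v => L ^ (m - 1) *ᵥ v) hrel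
    simp only [Matrix.mulVec_zero] at hv
    rw [Matrix.mulVec_sum] at hv
    rw [Finset.sum_eq_single 0] at hv
    · simp only [Matrix.mulVec_smul, Matrix.mulVec_mulVec, ← pow_add, zero_add] at hv
      rw [show m - 1 + 1 = m by omega] at hv
      simpa using hv
    · intro i _ hi
      simp only [Matrix.mulVec_smul, Matrix.mulVec_mulVec, ← pow_add]
      rw [show m - 1 + (i + 1) = (i - 1) + (m + 1) by omega, pow_add, ← Matrix.mulVec_mulVec, h0,
        Matrix.mulVec_zero, smul_zero]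
    · intro hn
      exact absurd (Finset.mem_range.2 (by omega)) hn
  have all : ∀ j, j ≤ k → L ^ (k + 1 - j) *ᵥ d = 0 := by
    intro j
    induction j with
    | zero =>
      intro _
      rw [Nat.sub_zero, h2, Matrix.zero_mulVec]
    | succ j ih =>
      intro hj
      apply step _ (by omega)
      rw [show k + 1 - (j + 1) + 1 = k + 1 - j by omega]
      exact ih (by omega)
  have := all k le_rfl
  rwa [show k + 1 - k = 1 by omega, pow_one] at this

theorem Z3_all_kill (hk : 1 ≤ k) {d : Fin (k + 1) → ℂ}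
    (h : ∀ c : Fin 3 → ℂ, slm k c *ᵥ d = 0) : d = 0 := by
  by_contra hne
  have hN := irreducible (k := k) (Submodule.span ℂ {d}) (by
    intro b a ha
    obtain ⟨c, rfl⟩ := Submodule.mem_span_singleton.1 ha
    rw [Matrix.mulVec_smul, h b, smul_zero]
    exact Submodule.zero_mem _) (by
    rw [Ne, Submodule.span_singleton_eq_bot]
    exact hne)
  have h1 := congrArg (fun N : Submodule ℂ (Fin (k + 1) → ℂ) => Module.finrank ℂ N) hN
  simp only [finrank_top] at h1
  rw [finrank_span_singleton hne] at h1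
  simp only [Module.finrank_fintype_fun_eq_card, Fintype.card_fin] at h1
  omega

/-- Two vectors fixed by two unipotent elements. -/
theorem fixed_zero (hk : 1 ≤ k) {γ γ' : SL(2, ℤ)} (h : γ 0 0 + γ 1 1 = 2)
    (h' : γ' 0 0 + γ' 1 1 = 2) (hb : bra (nb γ) (nb γ') ≠ 0) {d : Fin (k + 1) → ℂ}
    (hd : (act k γ).map (algebraMap ℚ ℂ) *ᵥ d = d)
    (hd' : (act k γ').map (algebraMap ℚ ℂ) *ᵥ d = d) : d = 0 := by
  have h1 := Z3_kill h hk hd
  have h2 := Z3_kill h' hk hd'
  have h3 : slm k (bra (nb γ) (nb γ')) *ᵥ d = 0 := by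
    rw [← slm_bracket, Matrix.sub_mulVec, ← Matrix.mulVec_mulVec, ← Matrix.mulVec_mulVec, h1, h2,
      Matrix.mulVec_zero, Matrix.mulVec_zero, sub_zero]
  apply Z3_all_kill hk
  intro c
  obtain ⟨x, y, z, hc⟩ := Z3_expand (Z3_nb_null h) (Z3_nb_null h') hb c
  have h0 : slm k (0 : Fin 3 → ℂ) *ᵥ d = 0 := by
    have := slm_add_smul (k := k) (1 : ℂ) (0 : Fin 3 → ℂ) 0
    rw [smul_zero, add_zero, one_smul] at this
    have h5 : slm k (0 : Fin 3 → ℂ) = 0 := by
      have h6 := congrArg (fun M => M - slm k (0 : Fin 3 → ℂ)) this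
      simpa using h6.symm
    rw [h5, Matrix.zero_mulVec]
  have hz : slm k (z • bra (nb γ) (nb γ')) *ᵥ d = 0 := by
    have := slm_add_smul (k := k) z (bra (nb γ) (nb γ')) 0
    rw [add_zero] at this
    rw [this, Matrix.add_mulVec, Matrix.smul_mulVec, h3, h0, smul_zero, add_zero]
  rw [hc, slm_add_smul, slm_add_smul, Matrix.add_mulVec, Matrix.add_mulVec, Matrix.smul_mulVec,
    Matrix.smul_mulVec, h1, h2, hz, smul_zero, smul_zero, add_zero, add_zero]

/-- Two nilpotent elements generate. -/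
theorem proj_top (S : Submodule ℂ ((Fin 3 → ℂ) × (Fin (k + 1) → ℂ)))
    (hS : ∀ c ∈ S, ∀ c' ∈ S,
      ((bra c.1 c'.1, slm k c.1 *ᵥ c'.2 - slm k c'.1 *ᵥ c.2) : (Fin 3 → ℂ) × (Fin (k + 1) → ℂ)) ∈ S)
    {b b' : Fin 3 → ℂ} {a a' : Fin (k + 1) → ℂ} (h : (b, a) ∈ S) (h' : (b', a') ∈ S)
    (hb : prr b b = 0) (hb' : prr b' b' = 0) (hbb : bra b b' ≠ 0) (c : Fin 3 → ℂ) :
    ∃ a'' : Fin (k + 1) → ℂ, (c, a'') ∈ S := by
  obtain ⟨x, y, z, hc⟩ := Z3_expand hb hb' hbb c
  have h3 := hS _ h _ h'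
  have h4 := S.add_mem (S.smul_mem x h) (S.add_mem (S.smul_mem y h') (S.smul_mem z h3))
  refine ⟨(x • (b, a) + (y • (b', a') + z • (bra (b, a).1 (b', a').1,
    slm k (b, a).1 *ᵥ (b', a').2 - slm k (b', a').1 *ᵥ (b, a).2)) :
      (Fin 3 → ℂ) × (Fin (k + 1) → ℂ)).2, ?_⟩
  rw [hc]
  exact h4

/-- A coefficient vector extended by zero. -/
noncomputable def Z4_ext (v : Fin (k + 1) → ℂ) (j : ℕ) : ℂ :=
  if h : j < k + 1 then v ⟨j, h⟩ else 0

theorem Z4_ext_val (v : Fin (k + 1) → ℂ) (j : Fin (k + 1)) : Z4_ext v (j : ℕ) = v j := by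
  unfold Z4_ext
  rw [dif_pos j.2]

theorem Z4_ext_big (v : Fin (k + 1) → ℂ) {j : ℕ} (h : k < j) : Z4_ext v j = 0 := by
  unfold Z4_ext
  rw [dif_neg (by omega)]

/-- The action of `1`. -/
theorem Z4_act0 (v : Fin (k + 1) → ℂ) (i : Fin (k + 1)) :
    (slm k ![1, 0, 0] *ᵥ v) i = -(((i : ℕ) : ℂ) + 1) * Z4_ext v ((i : ℕ) + 1) := by
  rw [Matrix.mulVec, dotProduct]
  simp only [slm, Matrix.of_apply, Matrix.cons_val_zero, Matrix.cons_val_one, Matrix.cons_val,
    zero_mul, ite_self, add_zero, zero_add, zero_sub, one_mul]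
  by_cases hi : (i : ℕ) + 1 < k + 1
  · rw [Finset.sum_eq_single ⟨(i : ℕ) + 1, hi⟩]
    · unfold Z4_ext
      rw [dif_pos hi, if_pos rfl]
      push_cast
      ring
    · intro j _ hj
      rw [if_neg, neg_zero, zero_mul]
      intro h
      exact hj (Fin.ext h.symm)
    · intro h
      exact absurd (Finset.mem_univ _) h
  · rw [Z4_ext_big v (by omega), mul_zero]
    apply Finset.sum_eq_zero
    intro j _
    rw [if_neg, neg_zero, zero_mul]
    intro h
    have := j.2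
    omega

/-- The action of `X`. -/
theorem Z4_act1 (v : Fin (k + 1) → ℂ) (i : Fin (k + 1)) :
    (slm k ![0, 1, 0] *ᵥ v) i = ((k : ℂ) / 2 - ((i : ℕ) : ℂ)) * v i := by
  rw [Matrix.mulVec, dotProduct]
  simp only [slm, Matrix.of_apply, Matrix.cons_val_zero, Matrix.cons_val_one, Matrix.cons_val,
    zero_mul, ite_self, add_zero, zero_add, sub_zero, one_mul]
  rw [Finset.sum_eq_single i]
  · rw [if_pos rfl]
  · intro j _ hj
    rw [if_neg (fun h => hj h.symm), zero_mul]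
  · intro h
    exact absurd (Finset.mem_univ _) h

/-- The action of `X ^ 2`. -/
theorem Z4_act2 (v : Fin (k + 1) → ℂ) (i : Fin (k + 1)) :
    (slm k ![0, 0, 1] *ᵥ v) i =
      if (i : ℕ) = 0 then 0 else ((k : ℂ) - (((i : ℕ) : ℂ) - 1)) * Z4_ext v ((i : ℕ) - 1) := by
  rw [Matrix.mulVec, dotProduct]
  simp only [slm, Matrix.of_apply, Matrix.cons_val_zero, Matrix.cons_val_one, Matrix.cons_val,
    zero_mul, ite_self, add_zero, zero_add, sub_zero, one_mul]
  by_cases hi : (i : ℕ) = 0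
  · rw [if_pos hi]
    apply Finset.sum_eq_zero
    intro j _
    rw [if_neg (by omega), zero_mul]
  · rw [if_neg hi]
    have h1 : (i : ℕ) - 1 < k + 1 := by have := i.2; omega
    rw [Finset.sum_eq_single ⟨(i : ℕ) - 1, h1⟩]
    · unfold Z4_ext
      rw [dif_pos h1, if_pos (by simp; omega)]
      simp only
      rw [Nat.cast_sub (by omega : 1 ≤ (i : ℕ)), Nat.cast_one]
    · intro j _ hj
      rw [if_neg, zero_mul]
      intro h
      exact hj (Fin.ext (by simp; omega))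
    · intro h
      exact absurd (Finset.mem_univ _) h

/-- Linearity in the quadratic polynomial. -/
theorem Z4_lin (b : Fin 3 → ℂ) (v : Fin (k + 1) → ℂ) :
    slm k b *ᵥ v = b 0 • (slm k ![1, 0, 0] *ᵥ v) + (b 1 • (slm k ![0, 1, 0] *ᵥ v) +
      b 2 • (slm k ![0, 0, 1] *ᵥ v)) := by
  have h0 : slm k (0 : Fin 3 → ℂ) = 0 := by
    have h5 := slm_add_smul (k := k) (1 : ℂ) (0 : Fin 3 → ℂ) 0
    rw [smul_zero, add_zero, one_smul] at h5
    have h6 := congrArg (fun M => M - slm k (0 : Fin 3 → ℂ)) h5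
    simpa using h6.symm
  have hb : b = b 0 • ![1, 0, 0] + (b 1 • ![0, 1, 0] + (b 2 • ![0, 0, 1] + 0)) := by
    funext i
    fin_cases i <;> simp
  conv_lhs => rw [hb]
  rw [slm_add_smul, slm_add_smul, slm_add_smul, h0, add_zero, Matrix.add_mulVec,
    Matrix.add_mulVec, Matrix.smul_mulVec, Matrix.smul_mulVec, Matrix.smul_mulVec]

/-- The explicit solution of the cocycle equations. -/
theorem Z4_solve (hk : 1 ≤ k) (s0 s1 s2 : Fin (k + 1) → ℂ)
    (R1 : s0 = slm k ![0, 1, 0] *ᵥ s0 - slm k ![1, 0, 0] *ᵥ s1)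
    (R2 : -s2 = slm k ![0, 1, 0] *ᵥ s2 - slm k ![0, 0, 1] *ᵥ s1)
    (R3 : (-2 : ℂ) • s1 = slm k ![1, 0, 0] *ᵥ s2 - slm k ![0, 0, 1] *ᵥ s0) :
    ∃ n : Fin (k + 1) → ℂ, slm k ![1, 0, 0] *ᵥ n = -s0 ∧ slm k ![0, 1, 0] *ᵥ n = -s1 ∧
      slm k ![0, 0, 1] *ᵥ n = -s2 := by
  have e1 : ∀ j : ℕ, j < k + 1 → Z4_ext s0 j * (1 - ((k : ℂ) / 2 - j)) =
      ((j : ℂ) + 1) * Z4_ext s1 (j + 1) := by
    intro j hj
    have h := congrFun R1 ⟨j, hj⟩
    rw [Pi.sub_apply, Z4_act1, Z4_act0] at h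
    have h2 := Z4_ext_val s0 ⟨j, hj⟩
    simp only at h h2
    rw [h2]
    linear_combination h
  have e2 : ∀ j : ℕ, j + 1 < k + 1 → Z4_ext s2 (j + 1) * (1 + ((k : ℂ) / 2 - (j + 1))) =
      ((k : ℂ) - j) * Z4_ext s1 j := by
    intro j hj
    have h := congrFun R2 ⟨j + 1, hj⟩
    rw [Pi.neg_apply, Pi.sub_apply, Z4_act1, Z4_act2, if_neg (by simp)] at h
    have h2 := Z4_ext_val s2 ⟨j + 1, hj⟩
    simp only [Nat.add_sub_cancel] at h h2
    rw [h2]
    push_cast at h ⊢
    linear_combination -h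
  have e20 : Z4_ext s2 0 = 0 := by
    have h := congrFun R2 ⟨0, by omega⟩
    rw [Pi.neg_apply, Pi.sub_apply, Z4_act1, Z4_act2, if_pos rfl] at h
    have h2 := Z4_ext_val s2 ⟨0, by omega⟩
    simp only [Nat.cast_zero, sub_zero] at h h2
    have h3 : (1 + (k : ℂ) / 2) * s2 ⟨0, by omega⟩ = 0 := by linear_combination -h
    have h4 : (1 + (k : ℂ) / 2) ≠ 0 := by
      have : ((1 + (k : ℝ) / 2 : ℝ) : ℂ) ≠ 0 := by
        rw [Complex.ofReal_ne_zero]
        positivity
      push_cast at this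
      exact this
    rw [h2]
    exact (mul_eq_zero.1 h3).resolve_left h4
  have e3 : ∀ j : ℕ, j + 1 < k + 1 → -2 * Z4_ext s1 (j + 1) =
      -((j : ℂ) + 1 + 1) * Z4_ext s2 (j + 1 + 1) - ((k : ℂ) - j) * Z4_ext s0 j := by
    intro j hj
    have h := congrFun R3 ⟨j + 1, hj⟩
    rw [Pi.smul_apply, Pi.sub_apply, Z4_act0, Z4_act2, if_neg (by simp), smul_eq_mul] at h
    have h2 := Z4_ext_val s1 ⟨j + 1, hj⟩
    simp only [Nat.add_sub_cancel] at h h2
    rw [h2]
    push_cast at h ⊢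
    linear_combination h
  have hne : ∀ j : ℕ, 2 * j ≠ k → (k : ℂ) / 2 - j ≠ 0 := by
    intro j hj h
    apply hj
    have h2 : ((2 * j : ℕ) : ℂ) = (k : ℂ) := by
      push_cast
      linear_combination -2 * h
    exact_mod_cast h2
  let N : ℕ → ℂ := fun j =>
    if 2 * j = k then Z4_ext s0 (j - 1) / j else -Z4_ext s1 j / ((k : ℂ) / 2 - j)
  have hN : ∀ j : ℕ, j < k + 1 → Z4_ext (fun i : Fin (k + 1) => N i) j = N j := by
    intro j hj
    exact Z4_ext_val (fun i : Fin (k + 1) => N i) ⟨j, hj⟩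
  have hmid : ∀ j : ℕ, 2 * j = k → Z4_ext s1 j = 0 := by
    intro j hj
    have hj1 : 1 ≤ j := by omega
    have h := e1 (j - 1) (by omega)
    rw [Nat.sub_add_cancel hj1, Nat.cast_sub hj1, Nat.cast_one] at h
    have hkc : (k : ℂ) = 2 * j := by
      rw [← hj]
      push_cast
      ring
    rw [hkc] at h
    have hj0 : (j : ℂ) ≠ 0 := by
      exact_mod_cast (by omega : j ≠ 0)
    have h5 : (j : ℂ) * Z4_ext s1 j = 0 := by linear_combination -h
    exact (mul_eq_zero.1 h5).resolve_left hj0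
  refine ⟨fun i => N i, ?_, ?_, ?_⟩
  · funext i
    rw [Z4_act0, Pi.neg_apply, ← Z4_ext_val s0 i]
    have hi := i.2
    by_cases hik : (i : ℕ) = k
    · rw [Z4_ext_big _ (by omega), mul_zero]
      have h := e1 i hi
      rw [Z4_ext_big s1 (by omega), mul_zero, hik] at h
      have h4 : (1 - ((k : ℂ) / 2 - k)) ≠ 0 := by
        have : ((1 - ((k : ℝ) / 2 - k) : ℝ) : ℂ) ≠ 0 := by
          rw [Complex.ofReal_ne_zero]
          have : (0 : ℝ) ≤ k := Nat.cast_nonneg k
          intro h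
          linarith
        push_cast at this
        exact this
      rw [hik]
      rw [(mul_eq_zero.1 h).resolve_right h4, neg_zero]
    · rw [hN _ (by omega)]
      simp only [N]
      by_cases hm : 2 * ((i : ℕ) + 1) = k
      · rw [if_pos hm, Nat.add_sub_cancel]
        have h5 : ((((i : ℕ) + 1 : ℕ)) : ℂ) ≠ 0 := by
          exact_mod_cast (by omega : (i : ℕ) + 1 ≠ 0)
        push_cast at h5 ⊢
        field_simp
      · rw [if_neg hm]
        have h := e1 i hi
        have h6 := hne _ hm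
        push_cast at h6 ⊢
        have h7 : (k : ℂ) / 2 - ((i : ℕ) + 1) = -(1 - ((k : ℂ) / 2 - (i : ℕ))) := by ring
        rw [h7] at h6 ⊢
        have h8 : (1 - ((k : ℂ) / 2 - (i : ℕ))) ≠ 0 := fun h0 => h6 (by rw [h0, neg_zero])
        rw [neg_div_neg_eq]
        rw [mul_div_assoc', div_eq_iff h8]
        linear_combination h
  · funext i
    rw [Z4_act1, Pi.neg_apply, ← Z4_ext_val s1 i]
    simp only [N]
    by_cases hm : 2 * (i : ℕ) = k
    · rw [hmid _ hm, neg_zero]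
      have hkc : (k : ℂ) = 2 * ((i : ℕ) : ℂ) := by
        have h5 := congrArg (Nat.cast (R := ℂ)) hm
        push_cast at h5
        exact h5.symm
      rw [hkc]
      ring
    · rw [if_neg hm]
      have h6 := hne _ hm
      rw [mul_div_assoc', mul_div_cancel_left₀ _ h6]
  · funext i
    rw [Z4_act2, Pi.neg_apply, ← Z4_ext_val s2 i]
    have hi := i.2
    by_cases h0 : (i : ℕ) = 0
    · rw [if_pos h0, h0, e20, neg_zero]
    · rw [if_neg h0]
      obtain ⟨j, hj⟩ : ∃ j, (i : ℕ) = j + 1 := ⟨(i : ℕ) - 1, by omega⟩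
      rw [hj, Nat.add_sub_cancel, hN j (by omega)]
      simp only [N]
      push_cast
      by_cases hm : 2 * j = k
      · rw [if_pos hm]
        have hj1 : 1 ≤ j := by omega
        have h := e3 (j - 1) (by omega)
        rw [Nat.sub_add_cancel hj1, Nat.cast_sub hj1, Nat.cast_one, hmid j hm, mul_zero] at h
        have hkc : (k : ℂ) = 2 * j := by
          rw [← hm]
          push_cast
          ring
        rw [hkc] at h ⊢
        have hj0 : (j : ℂ) ≠ 0 := by
          exact_mod_cast (by omega : j ≠ 0)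
        have hj2 : (j : ℂ) + 1 ≠ 0 := by
          exact_mod_cast (by omega : j + 1 ≠ 0)
        have h9 : ((j : ℂ) + 1) * (Z4_ext s2 (j + 1) + Z4_ext s0 (j - 1)) = 0 := by
          linear_combination h
        have h10 := (mul_eq_zero.1 h9).resolve_left hj2
        have h11 : (2 * (j : ℂ) - ((j : ℂ) + 1 - 1)) * (Z4_ext s0 (j - 1) / j) =
            Z4_ext s0 (j - 1) := by
          field_simp
          ring
        rw [h11]
        linear_combination h10
      · rw [if_neg hm]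
        have h := e2 j (by omega)
        have h6 := hne _ hm
        have h7 : (1 + ((k : ℂ) / 2 - (j + 1))) = (k : ℂ) / 2 - j := by ring
        rw [h7] at h
        rw [mul_div_assoc', div_eq_iff h6]
        linear_combination h

/-- Subalgebras of `sl₂ ⋉ Sym^k` projecting onto `sl₂`. -/
theorem whitehead (hk : 1 ≤ k) (S : Submodule ℂ ((Fin 3 → ℂ) × (Fin (k + 1) → ℂ)))
    (hS : ∀ c ∈ S, ∀ c' ∈ S,
      ((bra c.1 c'.1, slm k c.1 *ᵥ c'.2 - slm k c'.1 *ᵥ c.2) : (Fin 3 → ℂ) × (Fin (k + 1) → ℂ)) ∈ S)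
    (hp : ∀ b, ∃ a, (b, a) ∈ S) :
    S = ⊤ ∨ ∃ n : Fin (k + 1) → ℂ, ∀ b a, (b, a) ∈ S ↔ slm k b *ᵥ n + a = 0 := by
  let N : Submodule ℂ (Fin (k + 1) → ℂ) :=
    S.comap (LinearMap.inr ℂ (Fin 3 → ℂ) (Fin (k + 1) → ℂ))
  have memN : ∀ a, a ∈ N ↔ ((0 : Fin 3 → ℂ), a) ∈ S := fun a => Iff.rfl
  have hsl0 : slm k (0 : Fin 3 → ℂ) = 0 := by
    have h5 := slm_add_smul (k := k) (1 : ℂ) (0 : Fin 3 → ℂ) 0
    rw [smul_zero, add_zero, one_smul] at h5
    have h6 := congrArg (fun M => M - slm k (0 : Fin 3 → ℂ)) h5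
    simpa using h6.symm
  have hbra0 : ∀ b : Fin 3 → ℂ, bra b 0 = 0 := by
    intro b
    funext i
    fin_cases i <;> simp [bra]
  by_cases hN : N = ⊥
  · right
    have uniq : ∀ b a a', (b, a) ∈ S → (b, a') ∈ S → a = a' := by
      intro b a a' h h'
      have h1 := S.sub_mem h h'
      rw [Prod.mk_sub_mk, sub_self] at h1
      have h2 : a - a' ∈ N := (memN _).2 h1
      rw [hN, Submodule.mem_bot] at h2
      exact sub_eq_zero.1 h2
    obtain ⟨s0, h0⟩ := hp ![1, 0, 0]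
    obtain ⟨s1, h1⟩ := hp ![0, 1, 0]
    obtain ⟨s2, h2⟩ := hp ![0, 0, 1]
    have R1 : s0 = slm k ![0, 1, 0] *ᵥ s0 - slm k ![1, 0, 0] *ᵥ s1 := by
      have h3 := hS _ h1 _ h0
      have hb : bra (![0, 1, 0] : Fin 3 → ℂ) ![1, 0, 0] = ![1, 0, 0] := by
        funext i
        fin_cases i <;> simp [bra]
      simp only at h3
      rw [hb] at h3
      exact uniq _ _ _ h0 h3
    have R2 : -s2 = slm k ![0, 1, 0] *ᵥ s2 - slm k ![0, 0, 1] *ᵥ s1 := by
      have h3 := hS _ h1 _ h2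
      have hb : bra (![0, 1, 0] : Fin 3 → ℂ) ![0, 0, 1] = -![0, 0, 1] := by
        funext i
        fin_cases i <;> simp [bra]
      simp only at h3
      rw [hb] at h3
      exact uniq _ _ _ (by simpa using S.neg_mem h2) h3
    have R3 : (-2 : ℂ) • s1 = slm k ![1, 0, 0] *ᵥ s2 - slm k ![0, 0, 1] *ᵥ s0 := by
      have h3 := hS _ h0 _ h2
      have hb : bra (![1, 0, 0] : Fin 3 → ℂ) ![0, 0, 1] = (-2 : ℂ) • ![0, 1, 0] := by
        funext i
        fin_cases i <;> simp [bra]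
      simp only at h3
      rw [hb] at h3
      exact uniq _ _ _ (S.smul_mem (-2 : ℂ) h1) h3
    obtain ⟨n, n0, n1, n2⟩ := Z4_solve hk s0 s1 s2 R1 R2 R3
    refine ⟨n, fun b a => ?_⟩
    have hmem : (b, b 0 • s0 + (b 1 • s1 + b 2 • s2)) ∈ S := by
      have h4 := S.add_mem (S.smul_mem (b 0) h0)
        (S.add_mem (S.smul_mem (b 1) h1) (S.smul_mem (b 2) h2))
      have hb : b = b 0 • ![1, 0, 0] + (b 1 • ![0, 1, 0] + b 2 • ![0, 0, 1]) := by
        funext i
        fin_cases i <;> simp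
      have h5 : ((b, b 0 • s0 + (b 1 • s1 + b 2 • s2)) : (Fin 3 → ℂ) × (Fin (k + 1) → ℂ)) =
          b 0 • (![1, 0, 0], s0) + (b 1 • (![0, 1, 0], s1) + b 2 • (![0, 0, 1], s2)) := by
        apply Prod.ext
        · exact hb
        · rfl
      rw [h5]
      exact h4
    have hn : slm k b *ᵥ n = -(b 0 • s0 + (b 1 • s1 + b 2 • s2)) := by
      rw [Z4_lin, n0, n1, n2]
      simp only [smul_neg, neg_add]
    constructor
    · intro h
      rw [hn, uniq _ _ _ h hmem, neg_add_cancel]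
    · intro h
      have : a = b 0 • s0 + (b 1 • s1 + b 2 • s2) := by
        rw [hn] at h
        exact (neg_add_eq_zero.1 h).symm
      rw [this]
      exact hmem
  · left
    have htop := irreducible (k := k) N (by
      intro b a ha
      obtain ⟨a0, h0⟩ := hp b
      have h3 := hS _ h0 _ ((memN a).1 ha)
      simp only at h3
      rw [hbra0, hsl0, Matrix.zero_mulVec, sub_zero] at h3
      exact (memN _).2 h3) hN
    rw [Submodule.eq_top_iff']
    rintro ⟨b, a⟩
    obtain ⟨a0, h0⟩ := hp b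
    have h1 : a - a0 ∈ N := by
      rw [htop]
      exact Submodule.mem_top
    have h2 := S.add_mem h0 ((memN _).1 h1)
    rw [Prod.mk_add_mk, add_zero, add_sub_cancel] at h2
    exact h2

end Algebra

/-! ## The relations between the jets -/

section Rel
variable {k : ℕ} {X : Curve}

theorem Z5_x0 (b : Fin 3 → ℂ) (a : Fin (k + 1) → ℂ) :
    xi k b a (MvPolynomial.X (Sum.inl 0)) = 0 := by
  unfold xi
  rw [MvPolynomial.mkDerivation_X]
  rfl

theorem Z5_x1 (b : Fin 3 → ℂ) (a : Fin (k + 1) → ℂ) :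
    xi k b a (MvPolynomial.X (Sum.inl 1)) = MvPolynomial.C (b 0) +
      MvPolynomial.C (b 1) * MvPolynomial.X (Sum.inl 1) +
      MvPolynomial.C (b 2) * MvPolynomial.X (Sum.inl 1) ^ 2 := by
  unfold xi
  rw [MvPolynomial.mkDerivation_X]
  rfl

theorem Z5_x2 (b : Fin 3 → ℂ) (a : Fin (k + 1) → ℂ) :
    xi k b a (MvPolynomial.X (Sum.inl 2)) = (MvPolynomial.C (b 1) +
      2 * MvPolynomial.C (b 2) * MvPolynomial.X (Sum.inl 1)) * MvPolynomial.X (Sum.inl 2) := by
  unfold xi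
  rw [MvPolynomial.mkDerivation_X]
  rfl

theorem Z5_x3 (b : Fin 3 → ℂ) (a : Fin (k + 1) → ℂ) :
    xi k b a (MvPolynomial.X (Sum.inl 3)) = (MvPolynomial.C (b 1) +
      2 * MvPolynomial.C (b 2) * MvPolynomial.X (Sum.inl 1)) * MvPolynomial.X (Sum.inl 3) +
      2 * MvPolynomial.C (b 2) * MvPolynomial.X (Sum.inl 2) ^ 2 := by
  unfold xi
  rw [MvPolynomial.mkDerivation_X]
  rfl

theorem Z5_xv (b : Fin 3 → ℂ) (a : Fin (k + 1) → ℂ) (j : Fin (k + 1)) :
    xi k b a (MvPolynomial.X (Sum.inr j)) =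
      (∑ l, MvPolynomial.C (slm k b j l) * MvPolynomial.X (Sum.inr l)) +
        MvPolynomial.C (a j) := by
  unfold xi
  rw [MvPolynomial.mkDerivation_X]
  rfl

theorem Z5_c (b : Fin 3 → ℂ) (a : Fin (k + 1) → ℂ) (c : ℂ) :
    xi k b a (MvPolynomial.C c) = 0 :=
  (xi k b a).map_algebraMap c

theorem Z5_two (b : Fin 3 → ℂ) (a : Fin (k + 1) → ℂ) : xi k b a 2 = 0 := Z5_c b a 2

theorem Z5_cm (b : Fin 3 → ℂ) (a : Fin (k + 1) → ℂ) (c : ℂ) (P : MvPolynomial (JI k) ℂ) :
    xi k b a (MvPolynomial.C c * P) = MvPolynomial.C c * xi k b a P := by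
  rw [Derivation.leibniz, Z5_c]
  simp

theorem Z5_2m (b : Fin 3 → ℂ) (a : Fin (k + 1) → ℂ) (P : MvPolynomial (JI k) ℂ) :
    xi k b a (2 * P) = 2 * xi k b a P := Z5_cm b a 2 P

theorem Z5_ext {D D' : Derivation ℂ (MvPolynomial (JI k) ℂ) (MvPolynomial (JI k) ℂ)}
    (h0 : D (MvPolynomial.X (Sum.inl 0)) = D' (MvPolynomial.X (Sum.inl 0)))
    (h1 : D (MvPolynomial.X (Sum.inl 1)) = D' (MvPolynomial.X (Sum.inl 1)))
    (h2 : D (MvPolynomial.X (Sum.inl 2)) = D' (MvPolynomial.X (Sum.inl 2)))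
    (h3 : D (MvPolynomial.X (Sum.inl 3)) = D' (MvPolynomial.X (Sum.inl 3)))
    (hv : ∀ j, D (MvPolynomial.X (Sum.inr j)) = D' (MvPolynomial.X (Sum.inr j))) : D = D' := by
  apply MvPolynomial.derivation_ext
  intro i
  rcases i with i | j
  · fin_cases i
    · exact h0
    · exact h1
    · exact h2
    · exact h3
  · exact hv j

theorem Z5_lin (u : ℂ) (b b' : Fin 3 → ℂ) (a a' : Fin (k + 1) → ℂ) :
    xi k (u • b + b') (u • a + a') =
      (MvPolynomial.C u : MvPolynomial (JI k) ℂ) • xi k b a + xi k b' a' := by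
  have hs := slm_add_smul (k := k) u b b'
  apply Z5_ext
  · simp only [Derivation.add_apply, Derivation.smul_apply, Z5_x0, smul_zero, add_zero]
  · simp only [Derivation.add_apply, Derivation.smul_apply, Z5_x1, smul_eq_mul, Pi.add_apply,
      Pi.smul_apply, MvPolynomial.C_add, MvPolynomial.C_mul]
    ring
  · simp only [Derivation.add_apply, Derivation.smul_apply, Z5_x2, smul_eq_mul, Pi.add_apply,
      Pi.smul_apply, MvPolynomial.C_add, MvPolynomial.C_mul]
    ring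
  · simp only [Derivation.add_apply, Derivation.smul_apply, Z5_x3, smul_eq_mul, Pi.add_apply,
      Pi.smul_apply, MvPolynomial.C_add, MvPolynomial.C_mul]
    ring
  · intro j
    have h1 : ∀ l, (MvPolynomial.C (slm k (u • b + b') j l) : MvPolynomial (JI k) ℂ) *
        MvPolynomial.X (Sum.inr l) = MvPolynomial.C u * (MvPolynomial.C (slm k b j l) *
          MvPolynomial.X (Sum.inr l)) + MvPolynomial.C (slm k b' j l) *
          MvPolynomial.X (Sum.inr l) := by
      intro l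
      rw [hs, Matrix.add_apply, Matrix.smul_apply, smul_eq_mul, MvPolynomial.C_add,
        MvPolynomial.C_mul]
      ring
    have h2 : (u • a + a') j = u * a j + a' j := rfl
    have h3 : ((MvPolynomial.C u : MvPolynomial (JI k) ℂ) • xi k b a + xi k b' a')
        (MvPolynomial.X (Sum.inr j)) = MvPolynomial.C u * xi k b a (MvPolynomial.X (Sum.inr j)) +
        xi k b' a' (MvPolynomial.X (Sum.inr j)) := rfl
    rw [h3, Z5_xv, Z5_xv, Z5_xv, Finset.sum_congr rfl fun l _ => h1 l, Finset.sum_add_distrib,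
      ← Finset.mul_sum, h2, MvPolynomial.C_add, MvPolynomial.C_mul]
    ring

theorem Z5_vec0 {R : Type*} [CommRing R] (φ : ℂ →+* R) (x : Fin (k + 1) → R)
    (M N : Matrix (Fin (k + 1)) (Fin (k + 1)) ℂ) (a : Fin (k + 1) → ℂ) (j : Fin (k + 1)) :
    ∑ l, φ (M j l) * ((∑ m, φ (N l m) * x m) + φ (a l)) =
      (∑ m, φ ((M * N) j m) * x m) + φ ((M *ᵥ a) j) := by
  simp only [mul_add, Finset.sum_add_distrib]
  congr 1
  · simp only [Finset.mul_sum, Matrix.mul_apply, map_sum, Finset.sum_mul]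
    rw [Finset.sum_comm]
    apply Finset.sum_congr rfl
    intro l _
    apply Finset.sum_congr rfl
    intro m _
    rw [map_mul]
    ring
  · simp only [Matrix.mulVec, dotProduct, map_sum, map_mul]

theorem Z5_vec (M : Matrix (Fin (k + 1)) (Fin (k + 1)) ℂ) (b : Fin 3 → ℂ)
    (a : Fin (k + 1) → ℂ) (j : Fin (k + 1)) :
    xi k b a (∑ l, MvPolynomial.C (M j l) * MvPolynomial.X (Sum.inr l)) =
      (∑ l, MvPolynomial.C ((M * slm k b) j l) * MvPolynomial.X (Sum.inr l)) +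
        MvPolynomial.C ((M *ᵥ a) j) := by
  rw [← Z5_vec0 (MvPolynomial.C : ℂ →+* MvPolynomial (JI k) ℂ)
    (fun l => MvPolynomial.X (Sum.inr l)) M (slm k b) a j, map_sum]
  apply Finset.sum_congr rfl
  intro l _
  rw [Z5_cm, Z5_xv]

theorem Z5_bra (b b' : Fin 3 → ℂ) (a a' : Fin (k + 1) → ℂ) (P : MvPolynomial (JI k) ℂ) :
    xi k (bra b b') (slm k b *ᵥ a' - slm k b' *ᵥ a) P =
      xi k b' a' (xi k b a P) - xi k b a (xi k b' a' P) := by
  have e0 : bra b b' 0 = b 1 * b' 0 - b 0 * b' 1 := rfl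
  have e1 : bra b b' 1 = 2 * (b 2 * b' 0 - b 0 * b' 2) := rfl
  have e2 : bra b b' 2 = b 2 * b' 1 - b 1 * b' 2 := rfl
  have c2 : (MvPolynomial.C (2 : ℂ) : MvPolynomial (JI k) ℂ) = 2 := rfl
  have h : xi k (bra b b') (slm k b *ᵥ a' - slm k b' *ᵥ a) = ⁅xi k b' a', xi k b a⁆ := by
    apply Z5_ext
    · rw [Derivation.commutator_apply, Z5_x0, Z5_x0, Z5_x0, map_zero, map_zero, sub_zero]
    · rw [Derivation.commutator_apply, Z5_x1, Z5_x1, Z5_x1]
      simp only [map_add, Z5_c, Z5_cm, Z5_x1, Derivation.leibniz_pow, smul_eq_mul, nsmul_eq_mul,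
        e0, e1, e2, MvPolynomial.C_sub, MvPolynomial.C_mul, c2]
      push_cast
      ring
    · rw [Derivation.commutator_apply, Z5_x2, Z5_x2, Z5_x2]
      simp only [map_add, Z5_c, Z5_two, Z5_x1, Z5_x2, Derivation.leibniz,
        smul_eq_mul, e0, e1, e2, MvPolynomial.C_sub, MvPolynomial.C_mul, c2]
      ring
    · rw [Derivation.commutator_apply, Z5_x3, Z5_x3, Z5_x3]
      simp only [map_add, Z5_c, Z5_two, Z5_x1, Z5_x2, Z5_x3, Derivation.leibniz,
        Derivation.leibniz_pow, nsmul_eq_mul,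
        smul_eq_mul, e0, e1, e2, MvPolynomial.C_sub, MvPolynomial.C_mul, c2]
      push_cast
      ring
    · intro j
      rw [Derivation.commutator_apply, Z5_xv, Z5_xv, Z5_xv, map_add, map_add, Z5_c, Z5_c,
        add_zero, add_zero, Z5_vec, Z5_vec, ← slm_bracket]
      simp only [Matrix.sub_apply, Pi.sub_apply, MvPolynomial.C_sub, sub_mul,
        Finset.sum_sub_distrib]
      ring
  rw [h, Derivation.commutator_apply]

/-- The vector fields respecting the relations form a subalgebra. -/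
theorem Variation.stab_submodule (V : Variation k X) :
    ∃ S : Submodule ℂ ((Fin 3 → ℂ) × (Fin (k + 1) → ℂ)), (∀ b a, (b, a) ∈ S ↔ V.Stab b a) ∧
      ∀ c ∈ S, ∀ c' ∈ S, ((bra c.1 c'.1, slm k c.1 *ᵥ c'.2 - slm k c'.1 *ᵥ c.2) :
        (Fin 3 → ℂ) × (Fin (k + 1) → ℂ)) ∈ S := by
  have h0 : V.Stab 0 0 := by
    intro P _ w _
    have h : xi k 0 0 P = 0 := by
      have h1 := Z5_lin (k := k) (-1) 0 0 0 0
      simp only [smul_zero, add_zero] at h1
      have h2 := congrArg (fun D => D P) h1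
      simp only [Derivation.add_apply, Derivation.smul_apply, smul_eq_mul, map_neg,
        map_one] at h2
      linear_combination h2
    rw [h]
    simp
  have h1 : ∀ (u : ℂ) (b b' : Fin 3 → ℂ) (a a' : Fin (k + 1) → ℂ), V.Stab b a → V.Stab b' a' →
      V.Stab (u • b + b') (u • a + a') := by
    intro u b b' a a' h h' P hP w hw
    rw [Z5_lin]
    simp only [Derivation.add_apply, Derivation.smul_apply, smul_eq_mul, map_add, map_mul]
    rw [h P hP w hw, h' P hP w hw]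
    simp
  refine ⟨{ carrier := {c | V.Stab c.1 c.2}
            add_mem' := ?_
            zero_mem' := h0
            smul_mem' := ?_ }, fun b a => Iff.rfl, ?_⟩
  · intro c c' hc hc'
    have h := h1 1 _ _ _ _ hc hc'
    simp only [one_smul] at h
    exact h
  · intro u c hc
    have h := h1 u _ _ _ _ hc h0
    simp only [add_zero] at h
    exact h
  · intro c hc c' hc' P hP w hw
    have hc1 : V.Stab c.1 c.2 := hc
    have hc2 : V.Stab c'.1 c'.2 := hc'
    rw [Z5_bra, map_sub, hc2 _ (hc1 P hP) w hw, hc1 _ (hc2 P hP) w hw, sub_zero]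

theorem Z6_clear {ι : Type*} (q : ι → Polynomial ℂ) (j : Polynomial ℂ) (D : ℕ)
    (P : MvPolynomial ι ℂ) : ∃ (N : ℕ) (R : Polynomial ℂ), ∀ t : ℂ, j.eval t ≠ 0 →
      j.eval t ^ N * MvPolynomial.eval (fun i => (q i).eval t / j.eval t ^ D) P = R.eval t := by
  induction P using MvPolynomial.induction_on with
  | C a => exact ⟨0, Polynomial.C a, fun t _ => by simp⟩
  | add p p' hp hp' =>
    obtain ⟨N, R, h⟩ := hp
    obtain ⟨N', R', h'⟩ := hp'
    refine ⟨N + N', j ^ N' * R + j ^ N * R', fun t ht => ?_⟩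
    rw [map_add, Polynomial.eval_add, Polynomial.eval_mul, Polynomial.eval_mul,
      Polynomial.eval_pow, Polynomial.eval_pow, ← h t ht, ← h' t ht, pow_add]
    ring
  | mul_X p i hp =>
    obtain ⟨N, R, h⟩ := hp
    refine ⟨N + D, R * q i, fun t ht => ?_⟩
    rw [map_mul, MvPolynomial.eval_X, Polynomial.eval_mul, ← h t ht, pow_add]
    have : j.eval t ^ D ≠ 0 := pow_ne_zero _ ht
    field_simp

theorem Z6_chain {ι : Type*} (P : MvPolynomial ι ℂ) (f : ι → ℂ → ℂ)
    (δ : Derivation ℂ (MvPolynomial ι ℂ) (MvPolynomial ι ℂ))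
    (h : ∀ i, HasDerivAt (f i) (MvPolynomial.eval (fun l => f l 0) (δ (MvPolynomial.X i))) 0) :
    HasDerivAt (fun t => MvPolynomial.eval (fun l => f l t) P)
      (MvPolynomial.eval (fun l => f l 0) (δ P)) 0 := by
  induction P using MvPolynomial.induction_on with
  | C a =>
    have e : δ (MvPolynomial.C a) = 0 := by
      rw [← MvPolynomial.algebraMap_eq]
      exact δ.map_algebraMap a
    rw [e, map_zero]
    simp only [MvPolynomial.eval_C]
    exact hasDerivAt_const _ _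
  | add p p' hp hp' =>
    rw [map_add, map_add]
    simp only [map_add]
    exact hp.add hp'
  | mul_X p i hp =>
    rw [Derivation.leibniz]
    simp only [map_mul, MvPolynomial.eval_X, map_add, smul_eq_mul]
    refine HasDerivAt.congr_deriv (hp.mul (h i)) ?_
    ring

/-- If a curve of points `q(t) / j(t)^D` in the jet space, polynomial in `t`, satisfies the
relations at all natural numbers then its derivative at `0` does. -/
theorem deriv_of_nat {ι : Type*} [Finite ι] (P : MvPolynomial ι ℂ) (q : ι → Polynomial ℂ)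
    (j : Polynomial ℂ) (D : ℕ) (hj : j.eval 0 = 1) (hne : ∀ n : ℕ, j.eval (n : ℂ) ≠ 0)
    (h : ∀ n : ℕ, MvPolynomial.eval (fun i => (q i).eval (n : ℂ) / j.eval (n : ℂ) ^ D) P = 0)
    (δ : Derivation ℂ (MvPolynomial ι ℂ) (MvPolynomial ι ℂ))
    (hδ : ∀ i, MvPolynomial.eval (fun l => (q l).eval 0) (δ (MvPolynomial.X i)) =
      deriv (fun t : ℂ => (q i).eval t / j.eval t ^ D) 0) :
    MvPolynomial.eval (fun l => (q l).eval 0) (δ P) = 0 := by
  obtain ⟨N, R, hR⟩ := Z6_clear q j D P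
  have hR0 : R = 0 := by
    refine Polynomial.eq_zero_of_infinite_isRoot R ?_
    refine (Set.infinite_range_of_injective (f := fun n : ℕ => (n : ℂ)) Nat.cast_injective).mono ?_
    rintro _ ⟨n, rfl⟩
    show R.eval (n : ℂ) = 0
    rw [← hR _ (hne n), h n, mul_zero]
  have hz : ∀ t : ℂ, j.eval t ≠ 0 →
      MvPolynomial.eval (fun i => (q i).eval t / j.eval t ^ D) P = 0 := by
    intro t ht
    have := hR t ht
    rw [hR0, Polynomial.eval_zero] at this
    exact (mul_eq_zero.mp this).resolve_left (pow_ne_zero _ ht)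
  have h0 : ∀ l, (q l).eval 0 / j.eval 0 ^ D = (q l).eval 0 := fun l => by
    rw [hj, one_pow, div_one]
  have hc := Z6_chain P (fun l t => (q l).eval t / j.eval t ^ D) δ (by
    intro i
    simp only [h0]
    rw [hδ i]
    refine DifferentiableAt.hasDerivAt ?_
    refine ((q i).differentiable _).div ((j.differentiable _).pow D) ?_
    rw [hj]
    simp)
  simp only [h0] at hc
  have hev : (fun t => MvPolynomial.eval (fun l => (q l).eval t / j.eval t ^ D) P) =ᶠ[𝓝 0]
      fun _ => 0 := by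
    have hne0 : ∀ᶠ t in 𝓝 (0 : ℂ), j.eval t ≠ 0 := by
      refine (j.continuous.continuousAt).eventually_ne ?_
      rw [hj]
      exact one_ne_zero
    filter_upwards [hne0] with t ht using hz t ht
  exact hc.unique ((hasDerivAt_const (0 : ℂ) (0 : ℂ)).congr_of_eventuallyEq hev)

theorem Z7_mat (ρ : SL(2, ℤ)) (h : ρ 0 0 + ρ 1 1 = 2) (n : ℕ) :
    (ρ ^ n) 0 0 = 1 + n * (ρ 0 0 - 1) ∧ (ρ ^ n) 0 1 = n * ρ 0 1 ∧ (ρ ^ n) 1 0 = n * ρ 1 0 ∧
      (ρ ^ n) 1 1 = 1 - n * (ρ 0 0 - 1) := by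
  have hd : ρ 0 0 * ρ 1 1 - ρ 0 1 * ρ 1 0 = 1 := by
    rw [← Matrix.det_fin_two]
    exact ρ.det_coe
  have h1 : ρ 1 1 = 2 - ρ 0 0 := by linarith
  rw [h1] at hd
  induction n with
  | zero => simp
  | succ n ih =>
    obtain ⟨e1, e2, e3, e4⟩ := ih
    rw [pow_succ]
    simp only [Matrix.SpecialLinearGroup.coe_mul, Matrix.mul_apply, Fin.sum_univ_two, e1, e2, e3,
      e4, h1]
    push_cast
    refine ⟨?_, ?_, ?_, ?_⟩
    · linear_combination (-(n : ℤ)) * hd
    · ring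
    · ring
    · linear_combination (-(n : ℤ)) * hd

theorem Z7_act_mul (V : Variation k X) (γ δ : X.P) (v : Fin (k + 1) → ℂ) :
    (act k (V.ρ (γ * δ))).map (algebraMap ℚ ℂ) *ᵥ v =
      (act k (V.ρ γ)).map (algebraMap ℚ ℂ) *ᵥ ((act k (V.ρ δ)).map (algebraMap ℚ ℂ) *ᵥ v) := by
  rw [map_mul, act_mul, Matrix.map_mul, Matrix.mulVec_mulVec]

theorem Z7_coc (V : Variation k X) (γ δ : X.P) : (fun j => (V.c (γ * δ) j : ℂ)) =
    (act k (V.ρ γ)).map (algebraMap ℚ ℂ) *ᵥ (fun j => (V.c δ j : ℂ)) +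
      fun j => (V.c γ j : ℂ) := by
  have h1 := V.v_equiv (γ * δ) UpperHalfPlane.I
  have h2 := V.v_equiv γ ((δ : SL(2, ℝ)) • UpperHalfPlane.I)
  rw [V.v_equiv δ, Matrix.mulVec_add, ← Z7_act_mul, ← mul_smul, ← Subgroup.coe_mul, h1,
    add_assoc] at h2
  exact add_left_cancel h2

theorem Z7_c_one (V : Variation k X) : (fun j => (V.c 1 j : ℂ)) = 0 := by
  have h1 := V.v_equiv 1 UpperHalfPlane.I
  rw [map_one, act_one, Subgroup.coe_one, one_smul, Matrix.map_one _ (map_zero _) (map_one _),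
    Matrix.one_mulVec] at h1
  exact left_eq_add.mp h1

theorem Z7_deriv (Q j : Polynomial ℂ) (hj : j.eval 0 = 1) :
    deriv (fun t : ℂ => Q.eval t / j.eval t ^ 3) 0 =
      Q.derivative.eval 0 - Q.eval 0 * (3 * j.derivative.eval 0) := by
  have h1 : HasDerivAt (fun t : ℂ => Q.eval t) (Q.derivative.eval 0) 0 := Q.hasDerivAt 0
  have h2 : HasDerivAt (fun t : ℂ => j.eval t ^ 3) (3 * j.derivative.eval 0) 0 := by
    have := (j.hasDerivAt 0).pow 3
    refine HasDerivAt.congr_deriv this ?_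
    rw [hj]
    norm_num
  have h3 := h1.div h2 (by rw [hj]; norm_num)
  refine h3.deriv.trans ?_
  rw [hj]
  norm_num

theorem Z7_sum (k : ℕ) (x y : ℕ → ℂ) (h : k = 0 → x 1 = 0) :
    (Polynomial.derivative (∑ i ∈ Finset.range (k + 1), Polynomial.C (x i) * Polynomial.X ^ i +
      ∑ i ∈ Finset.range (k + 1), Polynomial.C (y i) * Polynomial.X ^ (i + 1))).eval 0 =
      x 1 + y 0 := by
  rw [Polynomial.derivative_add, Polynomial.eval_add, Polynomial.derivative_sum,
    Polynomial.derivative_sum, Polynomial.eval_finsetSum, Polynomial.eval_finsetSum]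
  congr 1
  · rcases Nat.eq_zero_or_pos k with hk | hk
    · subst hk
      simp [h rfl]
    · rw [Finset.sum_eq_single 1]
      · simp
      · intro b _ hb
        rcases b with _ | b
        · simp
        · have : b ≠ 0 := fun h => hb (by rw [h])
          simp [this]
      · intro hn
        exact absurd (Finset.mem_range.mpr (by omega)) hn
  · rw [Finset.sum_eq_single 0]
    · simp
    · intro b _ hb
      simp [hb]
    · intro hn
      exact absurd (Finset.mem_range.mpr (by omega)) hn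

/-- A unipotent element of the monodromy gives a vector field. -/
theorem Variation.parabolic (V : Variation k X) (γ : X.P) (h : V.ρ γ 0 0 + V.ρ γ 1 1 = 2) :
    ∃ a : Fin (k + 1) → ℂ, V.Stab (nb (V.ρ γ)) a ∧
      ∀ n : Fin (k + 1) → ℂ, slm k (nb (V.ρ γ)) *ᵥ n + a = 0 → V.aff γ n = n := by
  obtain ⟨hact1, hL⟩ := unip_act (k := k) h 1
  have hact := fun n => (unip_act (k := k) h n).1
  set L := slm k (nb (V.ρ γ)) with hLdef
  set c : ℕ → Fin (k + 1) → ℂ := fun n j => (V.c (γ ^ n) j : ℂ) with hcdef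
  have hc1 : c 1 = fun j => (V.c γ j : ℂ) := by
    simp only [hcdef, pow_one]
  have hA : (act k (V.ρ γ)).map (algebraMap ℚ ℂ) =
      ∑ i ∈ Finset.range (k + 1), ((1 : ℂ) / (i.factorial : ℂ)) • L ^ i := by
    have := hact 1
    rw [pow_one] at this
    rw [this]
    refine Finset.sum_congr rfl fun i _ => ?_
    rw [Nat.cast_one, one_pow]
  obtain ⟨a, ha⟩ := unip_cocycle hL c (by
    simp only [hcdef, pow_zero]
    exact Z7_c_one V) (by
    intro n
    rw [hc1, ← hA]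
    simp only [hcdef]
    rw [pow_succ']
    exact Z7_coc V γ (γ ^ n))
  refine ⟨a, ?_, ?_⟩
  · -- the vector field
    intro P hP w hw
    set p : ℂ := ((V.ρ γ 0 0 : ℤ) : ℂ) - 1 with hp
    set q : ℂ := ((V.ρ γ 0 1 : ℤ) : ℂ) with hq
    set r : ℂ := ((V.ρ γ 1 0 : ℤ) : ℂ) with hr
    set τ : ℂ := V.tauC w with hτ
    have hm : ∀ n : ℕ, ((V.ρ (γ ^ n) 0 0 : ℤ) : ℂ) = 1 + n * p ∧
        ((V.ρ (γ ^ n) 0 1 : ℤ) : ℂ) = n * q ∧ ((V.ρ (γ ^ n) 1 0 : ℤ) : ℂ) = n * r ∧
        ((V.ρ (γ ^ n) 1 1 : ℤ) : ℂ) = 1 - n * p := by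
      intro n
      obtain ⟨e1, e2, e3, e4⟩ := Z7_mat (V.ρ γ) h n
      rw [map_pow, e1, e2, e3, e4]
      refine ⟨?_, ?_, ?_, ?_⟩ <;> push_cast <;> ring
    set j : Polynomial ℂ := 1 + Polynomial.C (r * τ - p) * Polynomial.X with hjdef
    have hjev : ∀ t : ℂ, j.eval t = 1 + (r * τ - p) * t := fun t => by simp [hjdef]
    have hj0 : j.eval 0 = 1 := by rw [hjev]; ring
    have hjd : j.derivative.eval 0 = r * τ - p := by simp [hjdef]
    have hjf : ∀ n : ℕ, V.jf (γ ^ n) w = j.eval (n : ℂ) := by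
      intro n
      obtain ⟨e1, e2, e3, e4⟩ := hm n
      rw [Variation.jf, e3, e4, hjev]
      ring
    have hne : ∀ n : ℕ, j.eval (n : ℂ) ≠ 0 := fun n => by
      rw [← hjf]
      exact (V.t_smul (γ ^ n) hw).1
    set Q : JI k → Polynomial ℂ := Sum.elim
      ![Polynomial.C (lamC X w) * j ^ 3,
        (Polynomial.C τ + Polynomial.C (p * τ + q) * Polynomial.X) * j ^ 2,
        Polynomial.C (V.t1 w) * j,
        Polynomial.C (V.t2 w) * j - Polynomial.C (2 * r * V.t1 w ^ 2) * Polynomial.X]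
      (fun l => (∑ i ∈ Finset.range (k + 1),
          Polynomial.C (1 / (i.factorial : ℂ) * (L ^ i *ᵥ fun l => V.vC l w) l) * Polynomial.X ^ i +
        ∑ i ∈ Finset.range (k + 1),
          Polynomial.C (1 / ((i + 1).factorial : ℂ) * (L ^ i *ᵥ a) l) * Polynomial.X ^ (i + 1)) *
            j ^ 3) with hQ
    have hQ0 : (fun l => (Q l).eval 0) = jetpt (lamC X) V.tauC V.vC w := by
      funext l
      rcases l with l | l
      · fin_cases l
        · simp [hQ, jetpt, hj0]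
        · simp [hQ, jetpt, hj0, hτ]
        · simp [hQ, jetpt, hj0, Variation.t1]
        · simp [hQ, jetpt, hj0, Variation.t2]
          rfl
      · simp only [hQ, jetpt, Sum.elim_inr, Polynomial.eval_mul, Polynomial.eval_pow, hj0,
          one_pow, mul_one, Polynomial.eval_add, Polynomial.eval_finsetSum, Polynomial.eval_C,
          Polynomial.eval_X]
        rw [Finset.sum_eq_single 0, Finset.sum_eq_zero]
        · simp
        · intro i _
          simp
        · intro b _ hb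
          simp [hb]
        · intro hn
          exact absurd (Finset.mem_range.mpr (by omega)) hn
    have hQn : ∀ n : ℕ, (fun l => (Q l).eval (n : ℂ) / j.eval (n : ℂ) ^ 3) =
        jetpt (lamC X) V.tauC V.vC (mob ((γ ^ n : X.P) : SL(2, ℝ)) w) := by
      intro n
      obtain ⟨-, s1, s2, s3, -⟩ := V.t_smul (γ ^ n) hw
      obtain ⟨e1, e2, e3, e4⟩ := hm n
      have hn := hne n
      rw [hjf n] at s1 s2 s3
      funext l
      rcases l with l | l
      · fin_cases l
        · have hl : lamC X (mob ((γ ^ n : X.P) : SL(2, ℝ)) w) = lamC X w := by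
            unfold lamC mob
            rw [ofComplex_apply]
            exact ((X.lam_fib _ _).mpr ⟨_, X.P_le (γ ^ n).2, rfl⟩).symm
          simp only [hQ, jetpt, hl]
          simp [hn]
        · simp only [hQ, jetpt]
          simp only [Sum.elim_inl, Fin.mk_one, Matrix.cons_val_one, Matrix.cons_val_zero, s1,
            Polynomial.eval_mul, Polynomial.eval_add, Polynomial.eval_C, Polynomial.eval_X,
            Polynomial.eval_pow, e1, e2]
          rw [← hτ]
          field_simp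
          ring
        · simp only [hQ, jetpt]
          change (Polynomial.C (V.t1 w) * j).eval (n : ℂ) / j.eval (n : ℂ) ^ 3 =
            V.t1 (mob ((γ ^ n : X.P) : SL(2, ℝ)) w)
          rw [s2]
          simp only [Polynomial.eval_mul, Polynomial.eval_C]
          field_simp
        · simp only [hQ, jetpt]
          change (Polynomial.C (V.t2 w) * j - Polynomial.C (2 * r * V.t1 w ^ 2) *
            Polynomial.X).eval (n : ℂ) / j.eval (n : ℂ) ^ 3 =
            V.t2 (mob ((γ ^ n : X.P) : SL(2, ℝ)) w)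
          rw [s3]
          simp only [Polynomial.eval_mul, Polynomial.eval_C, Polynomial.eval_sub,
            Polynomial.eval_X, e3]
          field_simp
      · have hv : V.vC l (mob ((γ ^ n : X.P) : SL(2, ℝ)) w) =
            ((act k (V.ρ (γ ^ n))).map (algebraMap ℚ ℂ) *ᵥ (fun l => V.vC l w)) l + c n l := by
          unfold Variation.vC mob
          rw [ofComplex_apply, V.v_equiv (γ ^ n)]
          rfl
        simp only [hQ, jetpt, Sum.elim_inr]
        rw [hv, map_pow, hact n, ha n, Polynomial.eval_mul, Polynomial.eval_pow,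
          mul_div_assoc, div_self (pow_ne_zero _ hn), mul_one, Polynomial.eval_add,
          Polynomial.eval_finsetSum, Polynomial.eval_finsetSum, Matrix.sum_mulVec,
          Finset.sum_apply, Finset.sum_apply]
        congr 1
        · refine Finset.sum_congr rfl fun i _ => ?_
          rw [Matrix.smul_mulVec, Pi.smul_apply, smul_eq_mul]
          simp only [Polynomial.eval_mul, Polynomial.eval_C, Polynomial.eval_pow,
            Polynomial.eval_X]
          ring
        · refine Finset.sum_congr rfl fun i _ => ?_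
          rw [Pi.smul_apply, smul_eq_mul]
          simp only [Polynomial.eval_mul, Polynomial.eval_C, Polynomial.eval_pow,
            Polynomial.eval_X]
          ring
    rw [← hQ0]
    refine deriv_of_nat P Q j 3 hj0 hne ?_ (xi k (nb (V.ρ γ)) a) ?_
    · intro n
      rw [hQn n]
      refine hP _ ?_
      unfold mob
      exact ((((γ ^ n : X.P) : SL(2, ℝ)) • ofComplex w : ℍ)).im_pos
    · intro l
      rw [Z7_deriv _ _ hj0, hjd, hQ0, xi, MvPolynomial.mkDerivation_X]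
      have h11 : ((V.ρ γ 1 1 : ℤ) : ℂ) = 1 - p := by
        have := (hm 1).2.2.2
        rw [pow_one, Nat.cast_one, one_mul] at this
        exact this
      have hb0 : nb (V.ρ γ) 0 = q := rfl
      have hb1 : nb (V.ρ γ) 1 = 2 * p := by
        show ((V.ρ γ 0 0 : ℤ) : ℂ) - ((V.ρ γ 1 1 : ℤ) : ℂ) = 2 * p
        rw [h11, hp]
        ring
      have hb2 : nb (V.ρ γ) 2 = -r := rfl
      have ht1 : dx (lamC X) V.tauC w = V.t1 w := rfl
      have ht2 : dx (lamC X) (dx (lamC X) V.tauC) w = V.t2 w := rfl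
      rcases l with l | l
      · fin_cases l
        · simp [hQ, hj0, hjd, Polynomial.derivative_mul, Polynomial.derivative_pow]
        · simp [hQ, hj0, hjd, jetpt, hb0, hb1, hb2, Polynomial.derivative_mul,
            Polynomial.derivative_pow, ← hτ]
          ring
        · simp [hQ, hj0, hjd, jetpt, hb0, hb1, hb2, Polynomial.derivative_mul, ht1, ← hτ]
          ring
        · simp [hQ, hj0, hjd, jetpt, hb0, hb1, hb2, Polynomial.derivative_mul, ht1, ht2, ← hτ]
          ring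
      · simp only [hQ, Sum.elim_inr]
        rw [Polynomial.derivative_mul, Polynomial.eval_add, Polynomial.eval_mul,
          Z7_sum k (fun i => 1 / (i.factorial : ℂ) * (L ^ i *ᵥ fun l => V.vC l w) l)
            (fun i => 1 / ((i + 1).factorial : ℂ) * (L ^ i *ᵥ a) l) ?_]
        · simp only [pow_zero, Matrix.one_mulVec, pow_one]
          simp [jetpt, hj0, hjd, Polynomial.derivative_pow, Matrix.mulVec, dotProduct, hLdef]
        · intro hk
          subst hk
          have hL0 : L = 0 := by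
            have h0 := hL
            simpa using h0
          simp [hL0]
  · -- fixed vectors
    intro n hn
    have han : a = -(L *ᵥ n) := eq_neg_of_add_eq_zero_right hn
    have h1 := ha 1
    rw [hc1] at h1
    rw [Variation.aff, h1, hA, han, Matrix.sum_mulVec]
    have e1 : ∀ i ∈ Finset.range (k + 1),
        (((1 : ℕ) : ℂ) ^ (i + 1) / ((i + 1).factorial : ℂ)) • (L ^ i *ᵥ (-(L *ᵥ n))) =
          -(((1 : ℂ) / ((i + 1).factorial : ℂ)) • (L ^ (i + 1) *ᵥ n)) := by
      intro i _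
      rw [Nat.cast_one, one_pow, Matrix.mulVec_neg, Matrix.mulVec_mulVec, ← pow_succ, smul_neg]
    rw [Finset.sum_congr rfl e1, Finset.sum_neg_distrib]
    have e2 : ∑ i ∈ Finset.range (k + 1), (((1 : ℂ) / (i.factorial : ℂ)) • L ^ i) *ᵥ n =
        ∑ i ∈ Finset.range (k + 2), ((1 : ℂ) / (i.factorial : ℂ)) • (L ^ i *ᵥ n) := by
      rw [Finset.sum_range_succ (n := k + 1), hL, Matrix.zero_mulVec, smul_zero, add_zero]
      exact Finset.sum_congr rfl fun i _ => Matrix.smul_mulVec _ _ _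
    rw [e2, Finset.sum_range_succ' (n := k + 1)]
    simp

theorem Z8_sum {σ : Type*} [Fintype σ]
    (D : Derivation ℂ (MvPolynomial σ ℂ) (MvPolynomial σ ℂ)) (P : MvPolynomial σ ℂ) :
    D P = ∑ i, D (MvPolynomial.X i) * MvPolynomial.pderiv i P := by
  classical
  induction P using MvPolynomial.induction_on with
  | C a =>
    rw [MvPolynomial.derivation_C]
    symm
    apply Finset.sum_eq_zero
    intro i _
    rw [MvPolynomial.pderiv_C, mul_zero]
  | add p q hp hq =>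
    rw [map_add, hp, hq, ← Finset.sum_add_distrib]
    apply Finset.sum_congr rfl
    intro i _
    rw [map_add, mul_add]
  | mul_X p i hp =>
    rw [Derivation.leibniz, hp, smul_eq_mul, smul_eq_mul]
    have h1 : ∀ l, D (MvPolynomial.X l) * MvPolynomial.pderiv l (p * MvPolynomial.X i)
        = MvPolynomial.X i * (D (MvPolynomial.X l) * MvPolynomial.pderiv l p)
          + p * (D (MvPolynomial.X l) * Pi.single (M := fun _ => MvPolynomial σ ℂ) l 1 i) := by
      intro l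
      rw [MvPolynomial.pderiv_mul, MvPolynomial.pderiv_X]
      ring
    have h2 : ∑ l, D (MvPolynomial.X l) * Pi.single (M := fun _ => MvPolynomial σ ℂ) l 1 i
        = D (MvPolynomial.X i) := by
      rw [Finset.sum_eq_single i]
      · rw [Pi.single_eq_same, mul_one]
      · intro l _ hl
        rw [Pi.single_eq_of_ne hl.symm, mul_zero]
      · intro h
        exact absurd (Finset.mem_univ _) h
    rw [Finset.sum_congr rfl fun l _ => h1 l, Finset.sum_add_distrib, ← Finset.mul_sum,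
      ← Finset.mul_sum, h2]
    ring

theorem Z8_slm (j l : Fin (k + 1)) : slm k (0 : Fin 3 → ℂ) j l = 0 := by
  simp [slm]

theorem Z8_inr (V : Variation k X) (h : ∀ b a, V.Stab b a) {P : MvPolynomial (JI k) ℂ}
    (hP : V.Rel P) (j : Fin (k + 1)) : V.Rel (MvPolynomial.pderiv (Sum.inr j) P) := by
  have h1 : xi k 0 (Pi.single j 1) = MvPolynomial.pderiv (Sum.inr j) := by
    apply MvPolynomial.derivation_ext
    rintro (i | i)
    · rw [xi, MvPolynomial.mkDerivation_X, MvPolynomial.pderiv_X_of_ne (by simp)]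
      fin_cases i <;> simp
    · rw [xi, MvPolynomial.mkDerivation_X, Sum.elim_inr]
      simp only [Z8_slm, map_zero, zero_mul, Finset.sum_const_zero, zero_add]
      by_cases hij : i = j
      · subst hij
        rw [MvPolynomial.pderiv_X_self, Pi.single_eq_same, map_one]
      · rw [MvPolynomial.pderiv_X_of_ne (by simpa using hij), Pi.single_eq_of_ne hij, map_zero]
  rw [← h1]
  exact h _ _ P hP

theorem Z8_eval (b : Fin 3 → ℂ) (P : MvPolynomial (JI k) ℂ) (w : JI k → ℂ)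
    (hj : ∀ j, MvPolynomial.eval w (MvPolynomial.pderiv (Sum.inr j) P) = 0) :
    MvPolynomial.eval w (xi k b 0 P)
      = (b 0 + b 1 * w (Sum.inl 1) + b 2 * w (Sum.inl 1) ^ 2)
          * MvPolynomial.eval w (MvPolynomial.pderiv (Sum.inl 1) P)
        + (b 1 + 2 * b 2 * w (Sum.inl 1)) * w (Sum.inl 2)
          * MvPolynomial.eval w (MvPolynomial.pderiv (Sum.inl 2) P)
        + ((b 1 + 2 * b 2 * w (Sum.inl 1)) * w (Sum.inl 3) + 2 * b 2 * w (Sum.inl 2) ^ 2)
          * MvPolynomial.eval w (MvPolynomial.pderiv (Sum.inl 3) P) := by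
  have h0 : xi k b 0 (MvPolynomial.X (Sum.inl 0)) = 0 := by
    rw [xi, MvPolynomial.mkDerivation_X]
    rfl
  have h1 : xi k b 0 (MvPolynomial.X (Sum.inl 1)) = MvPolynomial.C (b 0)
      + MvPolynomial.C (b 1) * MvPolynomial.X (Sum.inl 1)
      + MvPolynomial.C (b 2) * MvPolynomial.X (Sum.inl 1) ^ 2 := by
    rw [xi, MvPolynomial.mkDerivation_X]
    rfl
  have h2 : xi k b 0 (MvPolynomial.X (Sum.inl 2)) = (MvPolynomial.C (b 1)
      + 2 * MvPolynomial.C (b 2) * MvPolynomial.X (Sum.inl 1)) * MvPolynomial.X (Sum.inl 2) := by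
    rw [xi, MvPolynomial.mkDerivation_X]
    rfl
  have h3 : xi k b 0 (MvPolynomial.X (Sum.inl 3)) = (MvPolynomial.C (b 1)
      + 2 * MvPolynomial.C (b 2) * MvPolynomial.X (Sum.inl 1)) * MvPolynomial.X (Sum.inl 3)
      + 2 * MvPolynomial.C (b 2) * MvPolynomial.X (Sum.inl 2) ^ 2 := by
    rw [xi, MvPolynomial.mkDerivation_X]
    rfl
  rw [Z8_sum, Fintype.sum_sum_type, Fin.sum_univ_four, h0, h1, h2, h3]
  simp only [map_add, map_mul, map_sum, map_pow, map_ofNat, MvPolynomial.eval_C,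
    MvPolynomial.eval_X, hj, mul_zero, Finset.sum_const_zero, zero_mul, zero_add, add_zero]

theorem Z8_t1d (V : Variation k X) {w : ℂ} (hw : 0 < w.im) :
    DifferentiableAt ℂ (dx (lamC X) V.tauC) w :=
  dx_diff X (fun _ h => (V.tauC_diff h).1) hw

theorem Z8_cont (V : Variation k X) (Q : MvPolynomial (JI k) ℂ) {w : ℂ} (hw : 0 < w.im) :
    ContinuousAt (fun u => MvPolynomial.eval (jetpt (lamC X) V.tauC V.vC u) Q) w := by
  have h1 : ContinuousAt (fun u => jetpt (lamC X) V.tauC V.vC u) w := by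
    rw [continuousAt_pi]
    rintro (i | i)
    · fin_cases i
      · exact (lamC_diff X hw).1.continuousAt
      · exact (V.tauC_diff hw).1.continuousAt
      · exact (Z8_t1d V hw).continuousAt
      · exact (dx_diff X (fun _ h => Z8_t1d V h) hw).continuousAt
    · exact (V.vC_diff i hw).continuousAt
  exact ContinuousAt.comp (g := fun v : JI k → ℂ => MvPolynomial.eval v Q)
    (MvPolynomial.continuous_eval Q).continuousAt h1

theorem Z8_ext (V : Variation k X) (Q : MvPolynomial (JI k) ℂ)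
    (h : ∀ w : ℂ, 0 < w.im → V.t1 w ≠ 0 →
      MvPolynomial.eval (jetpt (lamC X) V.tauC V.vC w) Q = 0) : V.Rel Q := by
  intro w hw
  have h1 : Tendsto (fun u => MvPolynomial.eval (jetpt (lamC X) V.tauC V.vC u) Q) (𝓝[≠] w)
      (𝓝 (MvPolynomial.eval (jetpt (lamC X) V.tauC V.vC w) Q)) :=
    (Z8_cont V Q hw).tendsto.mono_left nhdsWithin_le_nhds
  have h2 : ∀ᶠ u in 𝓝[≠] w, (0 : ℂ) = MvPolynomial.eval (jetpt (lamC X) V.tauC V.vC u) Q := by
    have h3 : ∀ᶠ u in 𝓝[≠] w, 0 < u.im :=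
      nhdsWithin_le_nhds ((isOpen_lt continuous_const Complex.continuous_im).mem_nhds hw)
    filter_upwards [V.t1_ne hw, h3] with u hu hu2
    exact (h u hu2 hu.1).symm
  exact tendsto_nhds_unique h1 ((tendsto_congr' h2).1 tendsto_const_nhds)

theorem Z8_poly (X : Curve) : ∀ (n : ℕ) (Q : Polynomial ℂ), Q.natDegree ≤ n →
    (∀ w : ℂ, 0 < w.im → Q.eval (lamC X w) = 0) → Q = 0 := by
  have h0 : ∀ (Q : Polynomial ℂ), Q.natDegree ≤ 0 →
      (∀ w : ℂ, 0 < w.im → Q.eval (lamC X w) = 0) → Q = 0 := by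
    intro Q hQ h
    rw [Polynomial.eq_C_of_natDegree_le_zero hQ] at h ⊢
    have h1 := h Complex.I (by simp)
    rw [Polynomial.eval_C] at h1
    rw [h1, map_zero]
  intro n
  induction n with
  | zero => exact h0
  | succ n ih =>
    intro Q hQ h
    have h1 : Polynomial.derivative Q = 0 := by
      apply ih
      · have := Polynomial.natDegree_derivative_le Q
        omega
      · intro w hw
        have h2 : HasDerivAt (fun u => Q.eval (lamC X u))
            ((Polynomial.derivative Q).eval (lamC X w) * deriv (lamC X) w) w :=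
          (Q.hasDerivAt (lamC X w)).comp w (lamC_diff X hw).1.hasDerivAt
        have h3 : HasDerivAt (fun u => Q.eval (lamC X u)) 0 w := by
          apply (hasDerivAt_const w (0 : ℂ)).congr_of_eventuallyEq
          filter_upwards [(isOpen_lt continuous_const Complex.continuous_im).mem_nhds hw] with u hu
          exact h u hu
        have h4 := h2.unique h3
        exact (mul_eq_zero.1 h4).resolve_right (lamC_diff X hw).2
    exact h0 Q (Polynomial.derivative_eq_zero.1 h1).le h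

theorem Z8_stab (V : Variation k X) (h : ∀ b a, V.Stab b a) {P : MvPolynomial (JI k) ℂ}
    (hP : V.Rel P) (i : JI k) (hi : i ≠ Sum.inl 0) : V.Rel (MvPolynomial.pderiv i P) := by
  have hr : ∀ w : ℂ, 0 < w.im → ∀ j, MvPolynomial.eval (jetpt (lamC X) V.tauC V.vC w)
      (MvPolynomial.pderiv (Sum.inr j) P) = 0 := fun w hw j => Z8_inr V h hP j w hw
  have h1 : V.Rel (MvPolynomial.pderiv (Sum.inl 1) P) := by
    intro w hw
    have h2 := h ![1, 0, 0] 0 P hP w hw
    rw [Z8_eval _ _ _ (hr w hw)] at h2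
    simpa using h2
  have h23 : ∀ w : ℂ, 0 < w.im → V.t1 w ≠ 0 →
      MvPolynomial.eval (jetpt (lamC X) V.tauC V.vC w) (MvPolynomial.pderiv (Sum.inl 2) P) = 0 ∧
      MvPolynomial.eval (jetpt (lamC X) V.tauC V.vC w) (MvPolynomial.pderiv (Sum.inl 3) P) = 0 := by
    intro w hw ht
    have ht' : jetpt (lamC X) V.tauC V.vC w (Sum.inl 2) ≠ 0 := ht
    have h2 := h ![0, 1, 0] 0 P hP w hw
    have h3 := h ![0, 0, 1] 0 P hP w hw
    rw [Z8_eval _ _ _ (hr w hw), h1 w hw] at h2 h3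
    simp only [Matrix.cons_val_zero, Matrix.cons_val_one, Matrix.cons_val] at h2 h3
    generalize jetpt (lamC X) V.tauC V.vC w (Sum.inl 1) = x1 at h2 h3
    generalize jetpt (lamC X) V.tauC V.vC w (Sum.inl 3) = x3 at h2 h3
    generalize jetpt (lamC X) V.tauC V.vC w (Sum.inl 2) = x2 at h2 h3 ht'
    generalize MvPolynomial.eval (jetpt (lamC X) V.tauC V.vC w)
      (MvPolynomial.pderiv (Sum.inl 2) P) = p2 at h2 h3 ⊢
    generalize MvPolynomial.eval (jetpt (lamC X) V.tauC V.vC w)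
      (MvPolynomial.pderiv (Sum.inl 3) P) = p3 at h2 h3 ⊢
    have h4 : x2 ^ 2 * p3 = 0 := by
      linear_combination (1 / 2) * h3 - x1 * h2
    have h5 : p3 = 0 := (mul_eq_zero.1 h4).resolve_left (pow_ne_zero 2 ht')
    have h6 : x2 * p2 = 0 := by
      rw [h5] at h2
      linear_combination h2
    exact ⟨(mul_eq_zero.1 h6).resolve_left ht', h5⟩
  obtain i | j := i
  · fin_cases i
    · exact absurd rfl hi
    · exact h1
    · exact Z8_ext V _ fun w hw ht => (h23 w hw ht).1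
    · exact Z8_ext V _ fun w hw ht => (h23 w hw ht).2
  · exact Z8_inr V h hP j

theorem Z8_main (V : Variation k X) (h : ∀ b a, V.Stab b a) : ∀ (n : ℕ)
    (P : MvPolynomial (JI k) ℂ), V.Rel P → (∀ m ∈ P.support, m.degree < n) → P = 0 := by
  classical
  intro n
  induction n with
  | zero =>
    intro P _ hm
    rw [← MvPolynomial.support_eq_empty, Finset.eq_empty_iff_forall_notMem]
    intro m hm2
    exact absurd (hm m hm2) (Nat.not_lt_zero _)
  | succ n ih =>
    intro P hP hm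
    have h1 : ∀ i : JI k, i ≠ Sum.inl 0 → MvPolynomial.pderiv i P = 0 := by
      intro i hi
      apply ih _ (Z8_stab V h hP i hi)
      intro m hm2
      rw [MvPolynomial.mem_support_iff, MvPolynomial.coeff_pderiv] at hm2
      have h2 := left_ne_zero_of_mul hm2
      have h3 := hm _ (MvPolynomial.mem_support_iff.2 h2)
      rw [map_add, Finsupp.degree_single] at h3
      omega
    have h2 : ∀ m ∈ P.support, ∀ i : JI k, i ≠ Sum.inl 0 → m i = 0 := by
      intro m hm2 i hi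
      by_contra hc
      have h3 := MvPolynomial.coeff_pderiv (i := i) P (m - Finsupp.single i 1)
      rw [h1 i hi, MvPolynomial.coeff_zero] at h3
      have h4 : m - Finsupp.single i 1 + Finsupp.single i 1 = m := by
        apply tsub_add_cancel_of_le
        rw [Finsupp.single_le_iff]
        omega
      rw [h4] at h3
      rcases mul_eq_zero.1 h3.symm with h5 | h5
      · exact (MvPolynomial.mem_support_iff.1 hm2) h5
      · exact Nat.cast_add_one_ne_zero _ h5
    have h3 : (∑ m ∈ P.support, Polynomial.C (P.coeff m) * Polynomial.X ^ (m (Sum.inl 0)) :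
        Polynomial ℂ) = 0 := by
      apply Z8_poly X _ _ le_rfl
      intro w hw
      have h4 := hP w hw
      rw [MvPolynomial.eval_eq'] at h4
      rw [Polynomial.eval_finsetSum, ← h4]
      apply Finset.sum_congr rfl
      intro m hm2
      rw [Polynomial.eval_mul, Polynomial.eval_C, Polynomial.eval_pow, Polynomial.eval_X,
        Finset.prod_eq_single (Sum.inl 0)]
      · rfl
      · intro i _ hi
        rw [h2 m hm2 i hi, pow_zero]
      · intro h5
        exact absurd (Finset.mem_univ _) h5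
    rw [← MvPolynomial.support_eq_empty, Finset.eq_empty_iff_forall_notMem]
    intro m hm2
    have h4 := congrArg (fun q : Polynomial ℂ => q.coeff (m (Sum.inl 0))) h3
    simp only [Polynomial.finsetSum_coeff, Polynomial.coeff_C_mul, Polynomial.coeff_X_pow,
      Polynomial.coeff_zero] at h4
    rw [Finset.sum_eq_single m] at h4
    · rw [if_pos rfl, mul_one] at h4
      exact (MvPolynomial.mem_support_iff.1 hm2) h4
    · intro m' hm' hne
      rw [if_neg, mul_zero]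
      intro h5
      apply hne
      ext i
      by_cases hi : i = Sum.inl 0
      · rw [hi, h5]
      · rw [h2 m' hm' i hi, h2 m hm2 i hi]
    · intro h5
      exact absurd hm2 h5

/-- If all vector fields respect the relations there are none. -/
theorem Variation.rel_zero (V : Variation k X) (h : ∀ b a, V.Stab b a)
    {P : MvPolynomial (JI k) ℂ} (hP : V.Rel P) : P = 0 := by
  obtain ⟨n, hn⟩ : ∃ n, ∀ m ∈ P.support, m.degree < n := by
    refine ⟨P.support.sup (fun m => m.degree) + 1, fun m hm => ?_⟩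
    exact Nat.lt_succ_of_le (Finset.le_sup (f := fun m : JI k →₀ ℕ => m.degree) hm)
  exact Z8_main V h n P hP hn

theorem Z9_c_mul (V : Variation k X) (γ δ : X.P) :
    (fun j => (V.c (γ * δ) j : ℂ)) =
      (act k (V.ρ γ)).map (algebraMap ℚ ℂ) *ᵥ (fun j => (V.c δ j : ℂ)) +
        fun j => (V.c γ j : ℂ) := by
  obtain ⟨z, -⟩ := V.τ_nonconst
  have h1 := V.v_equiv (γ * δ) z
  have h2 := V.v_equiv γ ((δ : SL(2, ℝ)) • z)
  have h3 := V.v_equiv δ z
  have h4 : (((γ * δ : X.P) : SL(2, ℝ)) • z : ℍ) = (γ : SL(2, ℝ)) • ((δ : SL(2, ℝ)) • z) := by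
    rw [Subgroup.coe_mul, mul_smul]
  rw [h4, h2, h3, map_mul, act_mul, Matrix.map_mul, Matrix.mulVec_add, Matrix.mulVec_mulVec,
    add_assoc] at h1
  exact (add_left_cancel h1).symm

theorem Z9_c_one (V : Variation k X) : (fun j => (V.c 1 j : ℂ)) = 0 := by
  obtain ⟨z, -⟩ := V.τ_nonconst
  have h1 := V.v_equiv 1 z
  have h2 : (((1 : X.P) : SL(2, ℝ)) • z : ℍ) = z := by
    rw [Subgroup.coe_one, one_smul]
  rw [h2, map_one, act_one, Matrix.map_one _ (map_zero _) (map_one _), Matrix.one_mulVec] at h1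
  exact left_eq_add.1 h1

theorem Variation.aff_mul (V : Variation k X) (γ δ : X.P) (n : Fin (k + 1) → ℂ) :
    V.aff (γ * δ) n = V.aff γ (V.aff δ n) ∧ V.aff 1 n = n := by
  constructor
  · unfold Variation.aff
    rw [Z9_c_mul, map_mul, act_mul, Matrix.map_mul, Matrix.mulVec_add, Matrix.mulVec_mulVec,
      add_assoc]
  · unfold Variation.aff
    rw [Z9_c_one, map_one, act_one, Matrix.map_one _ (map_zero _) (map_one _),
      Matrix.one_mulVec, add_zero]

theorem Z9_trace (A B : SL(2, ℤ)) (h : B 0 0 + B 1 1 = 2) :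
    (A * B * A⁻¹) 0 0 + (A * B * A⁻¹) 1 1 = 2 := by
  have h1 : ∀ M : SL(2, ℤ), M 0 0 + M 1 1 = Matrix.trace (M : Matrix (Fin 2) (Fin 2) ℤ) :=
    fun M => (Matrix.trace_fin_two (M : Matrix (Fin 2) (Fin 2) ℤ)).symm
  rw [h1] at h ⊢
  have h2 : A⁻¹ * (A * B) = B := inv_mul_cancel_left A B
  rw [Matrix.SpecialLinearGroup.coe_mul, Matrix.trace_mul_comm,
    ← Matrix.SpecialLinearGroup.coe_mul]
  have h3 : Matrix.trace ((A⁻¹ * (A * B) : SL(2, ℤ)) : Matrix (Fin 2) (Fin 2) ℤ) = 2 := by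
    rw [h2]
    exact h
  exact h3

/-- A vector fixed by the unipotent elements is fixed. -/
theorem Variation.fix_all (V : Variation k X) (hk : 1 ≤ k) {n : Fin (k + 1) → ℂ}
    (h : ∀ b a, V.Stab b a → slm k b *ᵥ n + a = 0) (γ : X.P) : V.aff γ n = n := by
  have hu : ∀ g : X.P, V.ρ g 0 0 + V.ρ g 1 1 = 2 → V.aff g n = n := by
    intro g hg
    obtain ⟨a, ha, ha'⟩ := V.parabolic g hg
    exact ha' n (h _ _ ha)
  obtain ⟨g, g', hg, hg', hb⟩ := V.exists_unipotent
  have key : ∀ g : X.P, V.ρ g 0 0 + V.ρ g 1 1 = 2 →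
      (act k (V.ρ g)).map (algebraMap ℚ ℂ) *ᵥ (V.aff γ⁻¹ n - n) = V.aff γ⁻¹ n - n := by
    intro g hg
    have h1 : V.aff (γ * g * γ⁻¹) n = n := by
      apply hu
      rw [map_mul, map_mul, map_inv]
      exact Z9_trace _ _ hg
    have h2 : V.aff g (V.aff γ⁻¹ n) = V.aff γ⁻¹ n := by
      calc V.aff g (V.aff γ⁻¹ n) = V.aff (g * γ⁻¹) n := ((V.aff_mul g γ⁻¹ n).1).symm
        _ = V.aff (γ⁻¹ * (γ * g * γ⁻¹)) n := by
          rw [mul_assoc γ g γ⁻¹, inv_mul_cancel_left]
        _ = V.aff γ⁻¹ (V.aff (γ * g * γ⁻¹) n) := (V.aff_mul _ _ n).1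
        _ = V.aff γ⁻¹ n := by rw [h1]
    have h3 := hu g hg
    generalize V.aff γ⁻¹ n = m at h2 ⊢
    unfold Variation.aff at h2 h3
    have h4 := congrArg₂ (fun x y : Fin (k + 1) → ℂ => x - y) h2 h3
    simp only [add_sub_add_right_eq_sub] at h4
    rw [Matrix.mulVec_sub]
    exact h4
  have h4 := fixed_zero hk hg hg' hb (key g hg) (key g' hg')
  have h5 : V.aff γ⁻¹ n = n := sub_eq_zero.1 h4
  calc V.aff γ n = V.aff γ (V.aff γ⁻¹ n) := by rw [h5]
    _ = V.aff (γ * γ⁻¹) n := ((V.aff_mul γ γ⁻¹ n).1).symm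
    _ = n := by
      rw [mul_inv_cancel]
      exact (V.aff_mul 1 1 n).2

theorem Z10_disc (g : SL(2, ℤ)) (z : ℍ) :
    ModularForm.discriminant (g • z) =
      ((g 1 0 : ℂ) * (z : ℂ) + (g 1 1 : ℂ)) ^ 12 * ModularForm.discriminant z := by
  have hmem : Matrix.SpecialLinearGroup.mapGL ℝ g ∈ 𝒮ℒ := ⟨g, rfl⟩
  have hden : denom (Matrix.SpecialLinearGroup.mapGL ℝ g) z =
      (g 1 0 : ℂ) * (z : ℂ) + (g 1 1 : ℂ) := by
    unfold denom
    have e1 : (Matrix.SpecialLinearGroup.mapGL ℝ g : GL (Fin 2) ℝ) 1 0 = (g 1 0 : ℝ) := by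
      rw [Matrix.SpecialLinearGroup.mapGL_coe_matrix]
      rfl
    have e2 : (Matrix.SpecialLinearGroup.mapGL ℝ g : GL (Fin 2) ℝ) 1 1 = (g 1 1 : ℝ) := by
      rw [Matrix.SpecialLinearGroup.mapGL_coe_matrix]
      rfl
    rw [e1, e2]
    simp
  have := SlashInvariantForm.slash_action_eqn'' CuspForm.discriminant hmem z
  rw [hden] at this
  exact_mod_cast this

theorem Z10_coe (g : SL(2, ℤ)) (z : ℍ) :
    ((g • z : ℍ) : ℂ) = ((g 0 0 : ℂ) * z + (g 0 1 : ℂ)) / ((g 1 0 : ℂ) * z + (g 1 1 : ℂ)) := by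
  rw [coe_specialLinearGroup_apply]
  simp

theorem Z10_den (g : SL(2, ℤ)) (z : ℍ) : (g 1 0 : ℂ) * z + (g 1 1 : ℂ) ≠ 0 := by
  have h := denom_ne_zero (Matrix.SpecialLinearGroup.mapGL ℝ g) z
  have hden : denom (Matrix.SpecialLinearGroup.mapGL ℝ g) z =
      (g 1 0 : ℂ) * (z : ℂ) + (g 1 1 : ℂ) := by
    unfold denom
    have e1 : (Matrix.SpecialLinearGroup.mapGL ℝ g : GL (Fin 2) ℝ) 1 0 = (g 1 0 : ℝ) := by
      rw [Matrix.SpecialLinearGroup.mapGL_coe_matrix]
      rfl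
    have e2 : (Matrix.SpecialLinearGroup.mapGL ℝ g : GL (Fin 2) ℝ) 1 1 = (g 1 1 : ℝ) := by
      rw [Matrix.SpecialLinearGroup.mapGL_coe_matrix]
      rfl
    rw [e1, e2]
    simp
  rwa [hden] at h

/-- Evaluation of the transformed form. -/
theorem Z10_eval (g : SL(2, ℤ)) (u : Fin (k + 1) → ℂ) (z : ℍ) :
    (toP ((act k g).map (algebraMap ℚ ℂ) *ᵥ u)).eval ((g • z : ℍ) : ℂ) *
      ((g 1 0 : ℂ) * z + (g 1 1 : ℂ)) ^ k = (toP u).eval (z : ℂ) := by
  have hd := Z10_den g z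
  have hdet : (g 0 0 : ℂ) * (g 1 1 : ℂ) - (g 0 1 : ℂ) * (g 1 0 : ℂ) = 1 := by
    have := g.det_coe
    rw [Matrix.det_fin_two] at this
    exact_mod_cast this
  rw [toP_act, Polynomial.eval_finsetSum, Finset.sum_mul]
  unfold toP
  rw [Polynomial.eval_finsetSum]
  refine Finset.sum_congr rfl fun j _ => ?_
  have hj : (j : ℕ) ≤ k := Nat.lt_succ_iff.mp j.2
  simp only [Polynomial.eval_mul, Polynomial.eval_pow, Polynomial.eval_sub, Polynomial.eval_C,
    Polynomial.eval_X]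
  have h1 : ((g 1 1 : ℂ) * ((g • z : ℍ) : ℂ) - (g 0 1 : ℂ)) *
      ((g 1 0 : ℂ) * z + (g 1 1 : ℂ)) = z := by
    rw [Z10_coe, sub_mul, mul_assoc, div_mul_cancel₀ _ hd]
    linear_combination (z : ℂ) * hdet
  have h2 : ((g 0 0 : ℂ) - (g 1 0 : ℂ) * ((g • z : ℍ) : ℂ)) *
      ((g 1 0 : ℂ) * z + (g 1 1 : ℂ)) = 1 := by
    rw [Z10_coe, sub_mul, mul_assoc, div_mul_cancel₀ _ hd]
    linear_combination hdet
  have h3 : ((g 1 0 : ℂ) * z + (g 1 1 : ℂ)) ^ k =
      ((g 1 0 : ℂ) * z + (g 1 1 : ℂ)) ^ (j : ℕ) *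
        ((g 1 0 : ℂ) * z + (g 1 1 : ℂ)) ^ (k - (j : ℕ)) := by
    rw [← pow_add, Nat.add_sub_cancel' hj]
  rw [h3]
  calc u j * (((g 1 1 : ℂ) * ((g • z : ℍ) : ℂ) - (g 0 1 : ℂ)) ^ (j : ℕ) *
        ((g 0 0 : ℂ) - (g 1 0 : ℂ) * ((g • z : ℍ) : ℂ)) ^ (k - (j : ℕ))) *
      (((g 1 0 : ℂ) * z + (g 1 1 : ℂ)) ^ (j : ℕ) *
        ((g 1 0 : ℂ) * z + (g 1 1 : ℂ)) ^ (k - (j : ℕ)))
      = u j * ((((g 1 1 : ℂ) * ((g • z : ℍ) : ℂ) - (g 0 1 : ℂ)) *
          ((g 1 0 : ℂ) * z + (g 1 1 : ℂ))) ^ (j : ℕ) *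
        (((g 0 0 : ℂ) - (g 1 0 : ℂ) * ((g • z : ℍ) : ℂ)) *
          ((g 1 0 : ℂ) * z + (g 1 1 : ℂ))) ^ (k - (j : ℕ))) := by
        rw [mul_pow, mul_pow]
        ring
    _ = u j * (z : ℂ) ^ (j : ℕ) := by rw [h1, h2, one_pow, mul_one]

theorem Z10_fix (V : Variation k X) {n : Fin (k + 1) → ℂ} (h : ∀ γ, V.aff γ n = n)
    (γ : X.P) (z : ℍ) :
    V.v ((γ : SL(2, ℝ)) • z) - n = (act k (V.ρ γ)).map (algebraMap ℚ ℂ) *ᵥ (V.v z - n) := by
  have h1 := h γ
  unfold Variation.aff at h1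
  rw [V.v_equiv, Matrix.mulVec_sub]
  nth_rw 1 [← h1]
  abel

theorem Variation.pw_smul (V : Variation k X) {n : Fin (k + 1) → ℂ} (h : ∀ γ, V.aff γ n = n)
    (γ : X.P) (z : ℍ) :
    V.pw n ((γ : SL(2, ℝ)) • z) * V.jf γ z ^ k = V.pw n z := by
  unfold Variation.pw Variation.jf Variation.tauC
  rw [Z10_fix V h γ z, V.τ_equiv, ofComplex_apply]
  exact Z10_eval (V.ρ γ) (V.v z - n) (V.τ z)

/-- The invariant function. -/
noncomputable def Z10_Phi (V : Variation k X) (n : Fin (k + 1) → ℂ) (z : ℍ) : ℂ :=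
  V.pw n z ^ 12 * ModularForm.discriminant (V.τ z) ^ k

theorem Z10_inv (V : Variation k X) {n : Fin (k + 1) → ℂ} (h : ∀ γ, V.aff γ n = n)
    (γ : X.P) (z : ℍ) : Z10_Phi V n ((γ : SL(2, ℝ)) • z) = Z10_Phi V n z := by
  unfold Z10_Phi
  rw [V.τ_equiv, Z10_disc, ← V.pw_smul h γ z]
  unfold Variation.jf Variation.tauC
  rw [ofComplex_apply, mul_pow, mul_pow, ← pow_mul, ← pow_mul, mul_comm k 12]
  ring

/-- The invariant function after a change of basis. -/
theorem Z10_M (V : Variation k X) (n : Fin (k + 1) → ℂ) (M : SL(2, ℤ)) (z : ℍ) :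
    Z10_Phi V n z =
      (toP ((act k M).map (algebraMap ℚ ℂ) *ᵥ (V.v z - n))).eval ((M • V.τ z : ℍ) : ℂ) ^ 12 *
        ModularForm.discriminant (M • V.τ z) ^ k := by
  unfold Z10_Phi Variation.pw
  rw [Z10_disc, ← Z10_eval M (V.v z - n) (V.τ z), mul_pow, mul_pow, ← pow_mul, ← pow_mul,
    mul_comm k 12]
  ring

theorem Z10_s_diff {s : ℂ → ℍ} {Y : ℝ} (hE : X.IsEnd s Y) {ζ : ℂ} (hζ : Y < ζ.im) :
    DifferentiableAt ℂ (fun z => (s z : ℂ)) ζ := by
  obtain ⟨hc, ⟨b, hb, h⟩ | h⟩ := hE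
  · exact (LibUB33.Curve.lift_differentiable X hc h
      (fun ζ _ => by unfold ee; fun_prop) hζ).1
  · exact (LibUB33.Curve.lift_differentiable X hc h
      (fun ζ _ => by unfold ee; fun_prop) hζ).1

theorem Z10_disc_diff {t : ℂ} (ht : 0 < t.im) :
    DifferentiableAt ℂ (fun t : ℂ => ModularForm.discriminant (ofComplex t)) t := by
  have h1 := UpperHalfPlane.mdifferentiable_iff.1 (CuspForm.discriminant).holo'
  exact (h1 t ht).differentiableAt
    ((isOpen_lt continuous_const Complex.continuous_im).mem_nhds ht)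

theorem Z10_disc_bound : ∃ C : ℝ, 0 ≤ C ∧ ∀ τ : ℍ,
    ‖ModularForm.discriminant τ‖ ≤ C / τ.im ^ 6 := by
  obtain ⟨C, hC⟩ := CuspFormClass.exists_bound CuspForm.discriminant
  refine ⟨|C|, abs_nonneg C, fun τ => ?_⟩
  have h := hC τ
  have h1 : ((12 : ℤ) : ℝ) / 2 = ((6 : ℕ) : ℝ) := by norm_num
  rw [h1, Real.rpow_natCast] at h
  refine h.trans ?_
  have : (0 : ℝ) < τ.im ^ 6 := pow_pos τ.im_pos 6
  gcongr
  exact le_abs_self C

theorem Z10_disc_exp : ∃ C A : ℝ, 0 ≤ C ∧ ∀ τ : ℍ, A ≤ τ.im →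
    ‖ModularForm.discriminant τ‖ ≤ C * Real.exp (-(2 * Real.pi) * τ.im) := by
  have h := CuspFormClass.exp_decay_atImInfty (h := 1) CuspForm.discriminant one_pos
    one_mem_strictPeriods_SL
  obtain ⟨C, hC⟩ := h.bound
  obtain ⟨A, hA⟩ := (UpperHalfPlane.atImInfty_mem _).mp hC
  refine ⟨|C|, A, abs_nonneg C, fun τ hτ => ?_⟩
  have h1 : ‖CuspForm.discriminant τ‖ ≤ C * ‖Real.exp (-2 * Real.pi * τ.im / 1)‖ := hA τ hτ
  rw [div_one, Real.norm_of_nonneg (Real.exp_pos _).le] at h1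
  have h2 : -2 * Real.pi * τ.im = -(2 * Real.pi) * τ.im := by ring
  rw [h2] at h1
  exact h1.trans (mul_le_mul_of_nonneg_right (le_abs_self C) (Real.exp_pos _).le)

/-- Bounds for the normal form. -/
theorem Z10_form (V : Variation k X) {s : ℂ → ℍ} {Y : ℝ} (E : EndForm V s Y) :
    ∃ δ A Y1 : ℝ, 0 < δ ∧ 0 ≤ A ∧ 0 ≤ Y1 ∧ Y ≤ Y1 ∧ ∀ ζ : ℂ, Y1 < ζ.im →
      δ ≤ (E.M • V.τ (s ζ) : ℍ).im ∧ ‖((E.M • V.τ (s ζ) : ℍ) : ℂ)‖ ≤ A * (1 + ‖ζ‖) ∧
      E.m * (ζ.im / E.n) - A ≤ (E.M • V.τ (s ζ) : ℍ).im := by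
  have hn1 : (1 : ℝ) ≤ E.n := by exact_mod_cast E.hn
  have ht : Tendsto (fun z : ℂ => E.F (ee (z / E.n))) (comap Complex.im atTop) (𝓝 (E.F 0)) :=
    E.hF.continuousAt.tendsto.comp ((LibUB33.tendsto_ee E.hn).mono_right nhdsWithin_le_nhds)
  obtain ⟨ε, hε, hε1, hεm⟩ : ∃ ε : ℝ, 0 < ε ∧ ε ≤ 1 ∧ (E.m = 0 → ε ≤ (E.F 0).im / 2) := by
    by_cases hm : E.m = 0
    · have := E.hF0 hm
      exact ⟨min 1 ((E.F 0).im / 2), by positivity, min_le_left _ _, fun _ => min_le_right _ _⟩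
    · exact ⟨1, one_pos, le_rfl, fun h => absurd h hm⟩
  have hev := ht.eventually (Metric.ball_mem_nhds (E.F 0) hε)
  rw [Filter.eventually_comap] at hev
  obtain ⟨Y2, hY2⟩ := Filter.eventually_atTop.mp hev
  refine ⟨ε, E.m + ‖E.F 0‖ + 1, max (max (max 0 E.Y') Y2) (E.n * (‖E.F 0‖ + 2)), hε,
    by positivity, ?_, ?_, fun ζ hζ => ?_⟩
  · exact (le_max_left 0 E.Y').trans ((le_max_left _ _).trans (le_max_left _ _))
  · exact E.hY.trans ((le_max_right 0 E.Y').trans ((le_max_left _ _).trans (le_max_left _ _)))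
  have h1 : max (max 0 E.Y') Y2 < ζ.im := lt_of_le_of_lt (le_max_left _ _) hζ
  have h2 : E.n * (‖E.F 0‖ + 2) < ζ.im := lt_of_le_of_lt (le_max_right _ _) hζ
  have h3 : max 0 E.Y' < ζ.im := lt_of_le_of_lt (le_max_left _ _) h1
  have h4 : Y2 < ζ.im := lt_of_le_of_lt (le_max_right _ _) h1
  have h5 : E.Y' < ζ.im := lt_of_le_of_lt (le_max_right _ _) h3
  have h6 : 0 < ζ.im := lt_of_le_of_lt (le_max_left _ _) h3
  have h7 : ‖E.F (ee (ζ / E.n)) - E.F 0‖ < ε := by
    have := hY2 ζ.im h4.le ζ rfl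
    rwa [dist_eq_norm] at this
  have h8 := E.hτ ζ h5
  set q := E.F (ee (ζ / E.n)) with hq
  have h9 : |q.im - (E.F 0).im| < ε := by
    rw [← Complex.sub_im]
    exact lt_of_le_of_lt (Complex.abs_im_le_norm _) h7
  have hnc : (E.n : ℂ) = ((E.n : ℝ) : ℂ) := by push_cast; rfl
  have him : ((E.m : ℂ) * (ζ / E.n) + q).im = E.m * (ζ.im / E.n) + q.im := by
    rw [hnc, show (E.m : ℂ) = ((E.m : ℝ) : ℂ) by push_cast; rfl, Complex.add_im,
      Complex.im_ofReal_mul, Complex.div_ofReal_im]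
  have h12 := (abs_lt.mp h9).1
  have h13 : -‖E.F 0‖ ≤ (E.F 0).im := by
    have := (abs_le.mp (Complex.abs_im_le_norm (E.F 0))).1
    exact this
  have him2 : (E.M • V.τ (s ζ) : ℍ).im = E.m * (ζ.im / E.n) + q.im := by
    change ((E.M • V.τ (s ζ) : ℍ) : ℂ).im = _
    rw [h8, him]
  refine ⟨?_, ?_, ?_⟩
  · rw [him2]
    by_cases hm : E.m = 0
    · have h10 := hεm hm
      rw [hm]
      push_cast
      linarith
    · have hm1 : (1 : ℝ) ≤ E.m := by exact_mod_cast Nat.pos_of_ne_zero hm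
      have h10 : ‖E.F 0‖ + 2 < ζ.im / E.n := by
        rw [lt_div_iff₀ (by linarith)]; linarith
      have h11 : 1 * (ζ.im / E.n) ≤ E.m * (ζ.im / E.n) :=
        mul_le_mul_of_nonneg_right hm1 (by positivity)
      linarith
  · rw [h8]
    have h10 : ‖(E.m : ℂ) * (ζ / E.n)‖ ≤ E.m * ‖ζ‖ := by
      rw [norm_mul, norm_div, Complex.norm_natCast, Complex.norm_natCast]
      refine mul_le_mul_of_nonneg_left ?_ (by positivity)
      exact div_le_self (norm_nonneg _) hn1
    have h11 : ‖q‖ ≤ ‖E.F 0‖ + 1 := by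
      have := norm_sub_norm_le q (E.F 0)
      linarith
    calc ‖(E.m : ℂ) * (ζ / E.n) + q‖ ≤ E.m * ‖ζ‖ + (‖E.F 0‖ + 1) :=
          (norm_add_le _ _).trans (add_le_add h10 h11)
      _ ≤ (E.m + ‖E.F 0‖ + 1) * (1 + ‖ζ‖) := by
        have := norm_nonneg ζ
        have := norm_nonneg (E.F 0)
        have : (0 : ℝ) ≤ E.m := by positivity
        nlinarith [mul_nonneg (norm_nonneg (E.F 0)) (norm_nonneg ζ)]
  · rw [him2]
    have : (0 : ℝ) ≤ E.m := by positivity
    linarith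

theorem Z10_toP_bound {N : ℕ} (w : Fin (N + 1) → ℂ) (t : ℂ) :
    ‖(toP w).eval t‖ ≤ (N + 1) * ‖w‖ * (1 + ‖t‖) ^ N := by
  unfold toP
  rw [Polynomial.eval_finsetSum]
  refine (norm_sum_le _ _).trans ?_
  have h1 : ∀ j ∈ (Finset.univ : Finset (Fin (N + 1))),
      ‖Polynomial.eval t (Polynomial.C (w j) * Polynomial.X ^ (j : ℕ))‖ ≤
        ‖w‖ * (1 + ‖t‖) ^ N := by
    intro j _
    simp only [Polynomial.eval_mul, Polynomial.eval_pow, Polynomial.eval_C, Polynomial.eval_X]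
    rw [norm_mul, norm_pow]
    have h2 : ‖w j‖ ≤ ‖w‖ := norm_le_pi_norm w j
    have h3 : ‖t‖ ^ (j : ℕ) ≤ (1 + ‖t‖) ^ N := by
      calc ‖t‖ ^ (j : ℕ) ≤ (1 + ‖t‖) ^ (j : ℕ) :=
            pow_le_pow_left₀ (norm_nonneg t) (by linarith) _
        _ ≤ (1 + ‖t‖) ^ N := pow_le_pow_right₀ (by linarith [norm_nonneg t])
            (Nat.lt_succ_iff.mp j.2)
    exact mul_le_mul h2 h3 (by positivity) (norm_nonneg w)
  refine (Finset.sum_le_card_nsmul _ _ _ h1).trans ?_
  rw [Finset.card_univ, Fintype.card_fin, nsmul_eq_mul]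
  push_cast
  rw [mul_assoc]

theorem Z10_mulVec_bound {N : ℕ} (A : Matrix (Fin N) (Fin N) ℂ) :
    ∃ K : ℝ, 0 ≤ K ∧ ∀ u : Fin N → ℂ, ‖A *ᵥ u‖ ≤ K * ‖u‖ :=
  ⟨‖(Matrix.mulVecLin A).toContinuousLinearMap‖, norm_nonneg _, fun u =>
    (Matrix.mulVecLin A).toContinuousLinearMap.le_opNorm u⟩

/-- The growth of the transformed form on a strip. -/
theorem Z10_growth (V : Variation k X) (n : Fin (k + 1) → ℂ) {s : ℂ → ℍ} {Y : ℝ}
    (hE : X.IsEnd s Y) (E : EndForm V s Y) :
    ∃ (C : ℝ) (N : ℕ) (Y1 δ A : ℝ), 0 ≤ C ∧ 0 ≤ Y1 ∧ Y ≤ Y1 ∧ 0 < δ ∧ ∀ ζ : ℂ,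
      |ζ.re| ≤ E.n → Y1 < ζ.im →
      ‖(toP ((act k E.M).map (algebraMap ℚ ℂ) *ᵥ (V.v (s ζ) - n))).eval
        ((E.M • V.τ (s ζ) : ℍ) : ℂ) ^ 12‖ ≤ C * (1 + |ζ.im|) ^ N ∧
      δ ≤ (E.M • V.τ (s ζ) : ℍ).im ∧ E.m * (ζ.im / E.n) - A ≤ (E.M • V.τ (s ζ) : ℍ).im := by
  obtain ⟨δ, A, Y1, hδ, hA, hY1, hYY, hf⟩ := Z10_form V E
  obtain ⟨C, N, hC⟩ := V.growth s Y hE E.n
  obtain ⟨K, hK, hKb⟩ := Z10_mulVec_bound ((act k E.M).map (algebraMap ℚ ℂ))
  have hn0 : (0 : ℝ) ≤ E.n := by positivity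
  refine ⟨((k + 1) * (K * (|C| + ‖n‖)) * (1 + A * (1 + E.n)) ^ k) ^ 12, (N + k) * 12, Y1 + 1, δ, A,
    by positivity, by linarith, by linarith, hδ, fun ζ hre him => ?_⟩
  obtain ⟨h1, h2, h3⟩ := hf ζ (by linarith)
  refine ⟨?_, h1, h3⟩
  have hy : 0 < ζ.im := by linarith
  have hx1 : 1 ≤ 1 + |ζ.im| := by linarith [abs_nonneg ζ.im]
  have hv := hC ζ hre (by linarith)
  have hz : ‖ζ‖ ≤ E.n + |ζ.im| :=
    (Complex.norm_le_abs_re_add_abs_im ζ).trans (by linarith)
  have h4 : ‖V.v (s ζ) - n‖ ≤ (|C| + ‖n‖) * (1 + |ζ.im|) ^ N := by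
    have hp : 1 ≤ (1 + |ζ.im|) ^ N := one_le_pow₀ hx1
    calc ‖V.v (s ζ) - n‖ ≤ ‖V.v (s ζ)‖ + ‖n‖ := norm_sub_le _ _
      _ ≤ |C| * (1 + |ζ.im|) ^ N + ‖n‖ * (1 + |ζ.im|) ^ N := by
        refine add_le_add (hv.trans ?_) ?_
        · exact mul_le_mul_of_nonneg_right (le_abs_self C) (by positivity)
        · exact le_mul_of_one_le_right (norm_nonneg n) hp
      _ = (|C| + ‖n‖) * (1 + |ζ.im|) ^ N := by ring
  have h5 : 1 + ‖((E.M • V.τ (s ζ) : ℍ) : ℂ)‖ ≤ (1 + A * (1 + E.n)) * (1 + |ζ.im|) := by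
    have h6 : 1 + ‖ζ‖ ≤ (1 + E.n) * (1 + |ζ.im|) := by
      nlinarith [mul_nonneg hn0 (abs_nonneg ζ.im)]
    have h7 : A * (1 + ‖ζ‖) ≤ A * ((1 + E.n) * (1 + |ζ.im|)) := mul_le_mul_of_nonneg_left h6 hA
    nlinarith
  have h8 := Z10_toP_bound ((act k E.M).map (algebraMap ℚ ℂ) *ᵥ (V.v (s ζ) - n))
    ((E.M • V.τ (s ζ) : ℍ) : ℂ)
  have h9 : ‖(toP ((act k E.M).map (algebraMap ℚ ℂ) *ᵥ (V.v (s ζ) - n))).eval
      ((E.M • V.τ (s ζ) : ℍ) : ℂ)‖ ≤
      ((k + 1) * (K * (|C| + ‖n‖)) * (1 + A * (1 + E.n)) ^ k) * (1 + |ζ.im|) ^ (N + k) := by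
    refine h8.trans ?_
    calc ((k : ℝ) + 1) * ‖(act k E.M).map (algebraMap ℚ ℂ) *ᵥ (V.v (s ζ) - n)‖ *
          (1 + ‖((E.M • V.τ (s ζ) : ℍ) : ℂ)‖) ^ k
        ≤ ((k : ℝ) + 1) * (K * ((|C| + ‖n‖) * (1 + |ζ.im|) ^ N)) *
          ((1 + A * (1 + E.n)) * (1 + |ζ.im|)) ^ k := by
          have h10 := (hKb (V.v (s ζ) - n)).trans (mul_le_mul_of_nonneg_left h4 hK)
          gcongr
      _ = ((k + 1) * (K * (|C| + ‖n‖)) * (1 + A * (1 + E.n)) ^ k) * (1 + |ζ.im|) ^ (N + k) := by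
          rw [mul_pow, pow_add]
          ring
  rw [norm_pow, pow_mul, ← mul_pow]
  exact pow_le_pow_left₀ (norm_nonneg _) h9 12

theorem Z10_tendsto (V : Variation k X) {n : Fin (k + 1) → ℂ} (h : ∀ γ, V.aff γ n = n)
    {s : ℂ → ℍ} {Y : ℝ} (hE : X.IsEnd s Y) (E : EndForm V s Y) :
    ∃ c : ℂ, Tendsto (fun ζ => Z10_Phi V n (s ζ)) (comap Complex.im atTop) (𝓝 c) := by
  obtain ⟨C, N, Y1, δ, A, hC, hY1, hYY, hδ, hg⟩ := Z10_growth V n hE E
  obtain ⟨D, hD, hDb⟩ := Z10_disc_bound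
  have hG1 : ∀ ζ : ℂ, Y1 < ζ.im → DifferentiableAt ℂ (fun ζ => Z10_Phi V n (s ζ)) ζ := by
    intro ζ hζ
    have hsd : DifferentiableAt ℂ (fun z => (s z : ℂ)) ζ := Z10_s_diff hE (by linarith)
    have hτd : DifferentiableAt ℂ (fun z => V.tauC (s z : ℂ)) ζ :=
      DifferentiableAt.comp (g := V.tauC) (f := fun z => (s z : ℂ)) ζ
        (V.tauC_diff (s ζ).im_pos).1 hsd
    have hvd : ∀ j, DifferentiableAt ℂ (fun z => V.vC j (s z : ℂ)) ζ := fun j =>
      DifferentiableAt.comp (g := V.vC j) (f := fun z => (s z : ℂ)) ζ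
        (V.vC_diff j (s ζ).im_pos) hsd
    have hdd : DifferentiableAt ℂ (fun z => V.del (s z : ℂ)) ζ := by
      have e : (fun ζ => V.del (s ζ : ℂ)) = fun ζ =>
          (fun t : ℂ => ModularForm.discriminant (ofComplex t)) (V.tauC (s ζ : ℂ)) := by
        funext ζ
        simp only [Variation.del, Variation.tauC, ofComplex_apply]
      rw [e]
      exact DifferentiableAt.comp (g := fun t : ℂ => ModularForm.discriminant (ofComplex t))
        (f := fun ζ => V.tauC (s ζ : ℂ)) ζ (Z10_disc_diff (V.tauC_diff (s ζ).im_pos).2) hτd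
    have e : (fun ζ => Z10_Phi V n (s ζ)) = fun ζ =>
        (∑ j : Fin (k + 1), (V.vC j (s ζ : ℂ) - n j) * V.tauC (s ζ : ℂ) ^ (j : ℕ)) ^ 12 *
          V.del (s ζ : ℂ) ^ k := by
      funext ζ
      unfold Z10_Phi Variation.pw toP Variation.vC Variation.tauC Variation.del
      rw [Polynomial.eval_finsetSum]
      simp only [Polynomial.eval_mul, Polynomial.eval_pow, Polynomial.eval_C, Polynomial.eval_X,
        ofComplex_apply, Pi.sub_apply]
    rw [e]
    refine DifferentiableAt.mul (DifferentiableAt.pow ?_ 12) (hdd.pow k)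
    exact DifferentiableAt.fun_sum fun j _ => ((hvd j).sub_const (n j)).mul (hτd.pow _)
  have hG2 : ∀ ζ : ℂ, Y1 < ζ.im → (fun ζ => Z10_Phi V n (s ζ)) (ζ + E.n) =
      (fun ζ => Z10_Phi V n (s ζ)) ζ := by
    intro ζ hζ
    show Z10_Phi V n (s (ζ + E.n)) = Z10_Phi V n (s ζ)
    rw [E.hp ζ (by linarith), Z10_inv V h]
  have hG3 : ∀ ζ : ℂ, |ζ.re| ≤ E.n → Y1 < ζ.im → ‖(fun ζ => Z10_Phi V n (s ζ)) ζ‖ ≤
      C * (D / δ ^ 6) ^ k * (1 + |ζ.im|) ^ N := by
    intro ζ hre him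
    show ‖Z10_Phi V n (s ζ)‖ ≤ _
    obtain ⟨h1, h2, -⟩ := hg ζ hre him
    rw [Z10_M V n E.M, norm_mul]
    have h3 : ‖ModularForm.discriminant (E.M • V.τ (s ζ))‖ ≤ D / δ ^ 6 := by
      refine (hDb _).trans ?_
      have : 0 < δ ^ 6 := by positivity
      gcongr
    have h4 : ‖ModularForm.discriminant (E.M • V.τ (s ζ)) ^ k‖ ≤ (D / δ ^ 6) ^ k := by
      rw [norm_pow]
      exact pow_le_pow_left₀ (norm_nonneg _) h3 k
    refine (mul_le_mul h1 h4 (norm_nonneg _) (by positivity)).trans (le_of_eq ?_)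
    ring
  obtain ⟨F, hF, Y', hY'⟩ := LibUB33.exists_of_growth E.hn hG1 hG2 _ N hG3
  refine ⟨F 0, ?_⟩
  have ht : Tendsto (fun z : ℂ => F (ee (z / E.n))) (comap Complex.im atTop) (𝓝 (F 0)) :=
    hF.continuousAt.tendsto.comp ((LibUB33.tendsto_ee E.hn).mono_right nhdsWithin_le_nhds)
  refine ht.congr' ?_
  rw [Filter.EventuallyEq, Filter.eventually_comap]
  filter_upwards [Filter.eventually_gt_atTop Y'] with b hb a ha
  exact (hY' a (by rw [ha]; exact hb)).symm

theorem Z10_zero (V : Variation k X) (hk : 1 ≤ k) (n : Fin (k + 1) → ℂ)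
    {s : ℂ → ℍ} {Y : ℝ} (hE : X.IsEnd s Y) (E : EndForm V s Y) (hm : 0 < E.m) :
    Tendsto (fun y : ℝ => Z10_Phi V n (s (y * Complex.I))) atTop (𝓝 0) := by
  obtain ⟨C, N, Y1, δ, A, hC, hY1, hYY, hδ, hg⟩ := Z10_growth V n hE E
  obtain ⟨D, hD, hDb⟩ := Z10_disc_bound
  obtain ⟨D', A', hD', hDb'⟩ := Z10_disc_exp
  have hn1 : (1 : ℝ) ≤ E.n := by exact_mod_cast E.hn
  have hm1 : (1 : ℝ) ≤ E.m := by exact_mod_cast hm
  set c : ℝ := 2 * Real.pi / E.n with hc
  have hcp : 0 < c := by positivity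
  set B : ℝ := C * (D / δ ^ 6) ^ (k - 1) * (D' * Real.exp (2 * Real.pi * A)) with hB
  have hB0 : 0 ≤ B := by positivity
  have hlim : Tendsto (fun y : ℝ => B * ((1 + y) ^ N * Real.exp (-c * y))) atTop (𝓝 0) := by
    have h1 : Tendsto (fun y : ℝ => y ^ N * Real.exp (-c * y)) atTop (𝓝 0) := by
      have h2 := Real.tendsto_pow_mul_exp_neg_atTop_nhds_zero N
      have h3 : Tendsto (fun y : ℝ => c * y) atTop atTop := tendsto_id.const_mul_atTop hcp
      have h4 := (h2.comp h3).const_mul ((c ^ N)⁻¹)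
      rw [mul_zero] at h4
      refine h4.congr fun y => ?_
      simp only [Function.comp_apply]
      rw [mul_pow, neg_mul]
      field_simp
    have h5 : Tendsto (fun y : ℝ => 1 + y) atTop atTop := tendsto_atTop_add_const_left _ _ tendsto_id
    have h6 := ((h1.comp h5).const_mul (B * Real.exp c))
    rw [mul_zero] at h6
    refine h6.congr fun y => ?_
    simp only [Function.comp_apply]
    have : Real.exp c * Real.exp (-c * (1 + y)) = Real.exp (-c * y) := by
      rw [← Real.exp_add]; congr 1; ring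
    rw [← this]
    ring
  rw [tendsto_zero_iff_norm_tendsto_zero]
  refine squeeze_zero' (Eventually.of_forall fun y => norm_nonneg _) ?_ hlim
  filter_upwards [eventually_gt_atTop (max Y1 (E.n * (A + |A'|)))] with y hy
  have hy1 : Y1 < y := lt_of_le_of_lt (le_max_left _ _) hy
  have hy2 : E.n * (A + |A'|) < y := lt_of_le_of_lt (le_max_right _ _) hy
  have hy0 : 0 < y := by linarith
  have hre : |((y : ℂ) * Complex.I).re| ≤ E.n := by simp
  have him : ((y : ℂ) * Complex.I).im = y := by simp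
  obtain ⟨h1, h2, h3⟩ := hg ((y : ℂ) * Complex.I) hre (by rw [him]; exact hy1)
  rw [him] at h1 h3
  rw [abs_of_pos hy0] at h1
  set T : ℍ := E.M • V.τ (s ((y : ℂ) * Complex.I)) with hT
  have h4 : y / E.n - A ≤ T.im := by
    have h5 : 1 * (y / E.n) ≤ E.m * (y / E.n) := mul_le_mul_of_nonneg_right hm1 (by positivity)
    linarith
  have h5 : A' ≤ T.im := by
    have h6 : A + |A'| < y / E.n := by
      rw [lt_div_iff₀ (by linarith)]
      linarith
    linarith [le_abs_self A']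
  have h6 := hDb' T h5
  have h7 : Real.exp (-(2 * Real.pi) * T.im) ≤ Real.exp (2 * Real.pi * A) * Real.exp (-c * y) := by
    rw [← Real.exp_add]
    apply Real.exp_le_exp.mpr
    have h8 : 2 * Real.pi * (y / E.n - A) ≤ 2 * Real.pi * T.im :=
      mul_le_mul_of_nonneg_left h4 (by positivity)
    have h9 : 2 * Real.pi * (y / E.n) = c * y := by rw [hc]; ring
    nlinarith
  have h8 : ‖ModularForm.discriminant T‖ ≤ D / δ ^ 6 := by
    refine (hDb _).trans ?_
    have : 0 < δ ^ 6 := by positivity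
    gcongr
  obtain ⟨l, hl⟩ : ∃ l, k = l + 1 := ⟨k - 1, by omega⟩
  have hl' : k - 1 = l := by omega
  rw [Z10_M V n E.M, norm_mul, ← hT]
  have h9 : ‖ModularForm.discriminant T ^ k‖ ≤ (D / δ ^ 6) ^ (k - 1) *
      (D' * (Real.exp (2 * Real.pi * A) * Real.exp (-c * y))) := by
    rw [hl', norm_pow, hl, pow_succ]
    refine mul_le_mul (pow_le_pow_left₀ (norm_nonneg _) h8 l) ?_ (norm_nonneg _) (by positivity)
    exact h6.trans (mul_le_mul_of_nonneg_left h7 hD')
  refine (mul_le_mul h1 h9 (norm_nonneg _) (by positivity)).trans (le_of_eq ?_)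
  rw [hB]
  ring

/-- The behaviour of the invariant attached to a fixed vector at the ends. -/
theorem Variation.pw_end (V : Variation k X) (hk : 1 ≤ k) {n : Fin (k + 1) → ℂ}
    (h : ∀ γ, V.aff γ n = n)
    {s : ℂ → ℍ} {Y : ℝ} (hE : X.IsEnd s Y) (E : EndForm V s Y) :
    (∃ C Y' : ℝ, ∀ ζ : ℂ, Y' < ζ.im →
      ‖V.pw n (s ζ) ^ 12 * ModularForm.discriminant (V.τ (s ζ)) ^ k‖ ≤ C) ∧
    (0 < E.m → ∀ ε : ℝ, 0 < ε → ∃ Y' : ℝ, ∀ ζ : ℂ, Y' < ζ.im →
      ‖V.pw n (s ζ) ^ 12 * ModularForm.discriminant (V.τ (s ζ)) ^ k‖ ≤ ε) := by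
  obtain ⟨c, hc⟩ := Z10_tendsto V h hE E
  have key : ∀ ε : ℝ, 0 < ε → ∃ Y' : ℝ, ∀ ζ : ℂ, Y' < ζ.im → ‖Z10_Phi V n (s ζ) - c‖ < ε := by
    intro ε hε
    have hev := hc.eventually (Metric.ball_mem_nhds c hε)
    rw [Filter.eventually_comap] at hev
    obtain ⟨Y2, hY2⟩ := Filter.eventually_atTop.mp hev
    refine ⟨Y2, fun ζ hζ => ?_⟩
    have := hY2 ζ.im hζ.le ζ rfl
    rwa [dist_eq_norm] at this
  constructor
  · obtain ⟨Y', hY'⟩ := key 1 one_pos
    refine ⟨‖c‖ + 1, Y', fun ζ hζ => ?_⟩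
    have h1 := hY' ζ hζ
    have h2 := norm_sub_norm_le (Z10_Phi V n (s ζ)) c
    change ‖Z10_Phi V n (s ζ)‖ ≤ _
    linarith
  · intro hm ε hε
    have hc0 : c = 0 := by
      have h1 : Tendsto (fun y : ℝ => (y : ℂ) * Complex.I) atTop (comap Complex.im atTop) := by
        rw [Filter.tendsto_comap_iff]
        refine tendsto_id.congr fun y => ?_
        simp
      exact tendsto_nhds_unique (hc.comp h1) (Z10_zero V hk n hE E hm)
    obtain ⟨Y', hY'⟩ := key ε hε
    refine ⟨Y', fun ζ hζ => ?_⟩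
    have h1 := hY' ζ hζ
    rw [hc0, sub_zero] at h1
    exact h1.le

theorem Z11_disc (g : SL(2, ℤ)) (z : ℍ) :
    ModularForm.discriminant (g • z) =
      ((g 1 0 : ℂ) * z + (g 1 1 : ℂ)) ^ 12 * ModularForm.discriminant z := by
  have hmem : Matrix.SpecialLinearGroup.mapGL ℝ g ∈ 𝒮ℒ := ⟨g, rfl⟩
  have hden : denom (Matrix.SpecialLinearGroup.mapGL ℝ g) z
      = (g 1 0 : ℂ) * z + (g 1 1 : ℂ) := by
    unfold denom
    have e1 : (Matrix.SpecialLinearGroup.mapGL ℝ g : GL (Fin 2) ℝ) 1 0 = ((g 1 0 : ℤ) : ℝ) := by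
      rw [Matrix.SpecialLinearGroup.mapGL_coe_matrix]
      rfl
    have e2 : (Matrix.SpecialLinearGroup.mapGL ℝ g : GL (Fin 2) ℝ) 1 1 = ((g 1 1 : ℤ) : ℝ) := by
      rw [Matrix.SpecialLinearGroup.mapGL_coe_matrix]
      rfl
    rw [e1, e2]
    simp
  have h := SlashInvariantForm.slash_action_eqn'' CuspForm.discriminant hmem z
  rw [hden] at h
  exact_mod_cast h

theorem Z11_pw (V : Variation k X) (n : Fin (k + 1) → ℂ) (w : ℂ) :
    V.pw n (ofComplex w) = ∑ j, (V.vC j w - n j) * V.tauC w ^ (j : ℕ) := by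
  unfold Variation.pw toP
  rw [Polynomial.eval_finsetSum]
  refine Finset.sum_congr rfl fun j _ => ?_
  rw [Polynomial.eval_mul, Polynomial.eval_C, Polynomial.eval_pow, Polynomial.eval_X]
  rfl

theorem Variation.pw_zero (V : Variation k X) (hk : 1 ≤ k) {n : Fin (k + 1) → ℂ}
    (h : ∀ γ, V.aff γ n = n) (z : ℍ) : V.pw n z = 0 := by
  obtain ⟨c, hc⟩ := liouville X
    (fun z => V.pw n z ^ 12 * ModularForm.discriminant (V.τ z) ^ k) (by
      intro z
      have hz : 0 < (z : ℂ).im := z.im_pos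
      have hτ := V.tauC_diff hz
      have h1 : DifferentiableAt ℂ (fun w : ℂ => V.pw n (ofComplex w)) z := by
        have h2 : (fun w : ℂ => V.pw n (ofComplex w))
            = fun w => ∑ j, (V.vC j w - n j) * V.tauC w ^ (j : ℕ) :=
          funext fun w => Z11_pw V n w
        rw [h2]
        exact DifferentiableAt.fun_sum fun j _ =>
          ((V.vC_diff j hz).sub_const _).mul (hτ.1.pow _)
      have h3 : DifferentiableAt ℂ
          (fun w : ℂ => ModularForm.discriminant (V.τ (ofComplex w))) z := by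
        have h4 : (fun w : ℂ => ModularForm.discriminant (V.τ (ofComplex w)))
            = fun w => ModularForm.eta (V.tauC w) ^ 24 := rfl
        rw [h4]
        exact ((ModularForm.differentiableAt_eta_of_mem_upperHalfPlaneSet hτ.2).comp
          (z : ℂ) hτ.1).pow 24
      exact (h1.pow 12).mul (h3.pow k)) (by
      intro g hg z
      have h1 := V.pw_smul h ⟨g, hg⟩ z
      have h2 := V.τ_equiv ⟨g, hg⟩ z
      show V.pw n (g • z) ^ 12 * ModularForm.discriminant (V.τ (g • z)) ^ k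
        = V.pw n z ^ 12 * ModularForm.discriminant (V.τ z) ^ k
      have h3 : V.τ (g • z) = V.ρ ⟨g, hg⟩ • V.τ z := h2
      have h4 : V.jf ⟨g, hg⟩ z
          = (V.ρ ⟨g, hg⟩ 1 0 : ℂ) * (V.τ z : ℂ) + (V.ρ ⟨g, hg⟩ 1 1 : ℂ) := by
        unfold Variation.jf Variation.tauC
        rw [ofComplex_apply]
      have h5 : V.pw n (g • z) * V.jf ⟨g, hg⟩ z ^ k = V.pw n z := h1
      rw [h3, Z11_disc, ← h4, ← h5]
      ring) (by
      intro s Y hE
      obtain ⟨E⟩ := V.nonempty_endForm hE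
      exact (V.pw_end hk h hE E).1)
  obtain ⟨s, Y, hE, E, hm⟩ := V.exists_infinite_end
  have hc0 : c = 0 := by
    by_contra hne
    have hpos : 0 < ‖c‖ / 2 := by positivity
    obtain ⟨Y', hY'⟩ := (V.pw_end hk h hE E).2 hm (‖c‖ / 2) hpos
    have h1 := hY' (((Y' + 1 : ℝ) : ℂ) * Complex.I) (by simp)
    have h2 := hc (s (((Y' + 1 : ℝ) : ℂ) * Complex.I))
    beta_reduce at h2
    rw [h2] at h1
    linarith [norm_nonneg c]
  have h1 := hc z
  beta_reduce at h1
  rw [hc0] at h1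
  have h2 : ModularForm.discriminant (V.τ z) ^ k ≠ 0 :=
    pow_ne_zero _ (ModularForm.discriminant_ne_zero _)
  have h3 := (mul_eq_zero.1 h1).resolve_right h2
  exact pow_eq_zero_iff (by norm_num) |>.1 h3

theorem Z12_lin (m : ℕ) (v : Fin (k + 1) → ℂ) (t : ℂ) :
    ((Polynomial.derivative^[m]) (toP v)).eval t =
      ∑ j : Fin (k + 1), v j *
        ((Polynomial.derivative^[m]) ((Polynomial.X : Polynomial ℂ) ^ (j : ℕ))).eval t := by
  unfold toP
  rw [Polynomial.iterate_derivative_sum, Polynomial.eval_finsetSum]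
  apply Finset.sum_congr rfl
  intro j _
  rw [Polynomial.iterate_derivative_C_mul, Polynomial.eval_mul, Polynomial.eval_C]

theorem Z12_form (t : ℂ) : toP (form k t t k) = (Polynomial.X - Polynomial.C t) ^ k := by
  unfold toP form
  have h1 : ((Polynomial.X - Polynomial.C t) ^ k * (Polynomial.X - Polynomial.C t) ^ (k - k) :
      Polynomial ℂ) = (Polynomial.X - Polynomial.C t) ^ k := by
    rw [Nat.sub_self, pow_zero, mul_one]
  rw [h1]
  have h2 : ((Polynomial.X - Polynomial.C t) ^ k : Polynomial ℂ).natDegree < k + 1 := by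
    rw [Polynomial.natDegree_pow, Polynomial.natDegree_X_sub_C, mul_one]
    exact Nat.lt_succ_self k
  conv_rhs => rw [Polynomial.as_sum_range_C_mul_X_pow' _ h2]
  rw [Finset.sum_range]

theorem Z12_zero {m : ℕ} (hm : m < k) (t : ℂ) :
    ∑ j : Fin (k + 1), form k t t k j *
        ((Polynomial.derivative^[m]) ((Polynomial.X : Polynomial ℂ) ^ (j : ℕ))).eval t = 0 := by
  rw [← Z12_lin, Z12_form, Polynomial.iterate_derivative_X_sub_pow]
  have h1 : k - m ≠ 0 := by omega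
  simp [h1]

theorem Z12_deriv (V : Variation k X) (n : Fin (k + 1) → ℂ) {m : ℕ} (hm : m < k) {w : ℂ}
    (hw : 0 < w.im) :
    HasDerivAt (fun w : ℂ => ∑ j : Fin (k + 1), (V.vC j w - n j) *
      ((Polynomial.derivative^[m]) ((Polynomial.X : Polynomial ℂ) ^ (j : ℕ))).eval (V.tauC w))
      ((∑ j : Fin (k + 1), (V.vC j w - n j) *
      ((Polynomial.derivative^[m + 1]) ((Polynomial.X : Polynomial ℂ) ^ (j : ℕ))).eval (V.tauC w)) *
        deriv V.tauC w) w := by
  obtain ⟨g, hg⟩ := V.transversal ⟨w, hw⟩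
  have e1 : ofComplex w = (⟨w, hw⟩ : ℍ) := ofComplex_apply_of_im_pos hw
  have e2 : V.tauC w = (V.τ (⟨w, hw⟩ : ℍ) : ℂ) := by
    unfold Variation.tauC
    rw [e1]
  have hv : ∀ j, HasDerivAt (V.vC j) (g * form k (V.tauC w) (V.tauC w) k j) w := by
    intro j
    rw [e2]
    exact (hasDerivAt_pi.1 hg) j
  have ht : HasDerivAt V.tauC (deriv V.tauC w) w := (V.tauC_diff hw).1.hasDerivAt
  have h1 := HasDerivAt.fun_sum (u := (Finset.univ : Finset (Fin (k + 1)))) fun j _ =>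
    ((hv j).sub_const (n j)).mul ((Polynomial.hasDerivAt
      ((Polynomial.derivative^[m]) ((Polynomial.X : Polynomial ℂ) ^ (j : ℕ))) (V.tauC w)).comp w ht)
  refine h1.congr_deriv ?_
  rw [Finset.sum_add_distrib]
  have h2 : ∑ j : Fin (k + 1), g * form k (V.tauC w) (V.tauC w) k j *
      ((Polynomial.derivative^[m]) ((Polynomial.X : Polynomial ℂ) ^ (j : ℕ))).eval (V.tauC w)
      = 0 := by
    have h3 := congrArg (fun z => g * z) (Z12_zero hm (V.tauC w))
    simp only [mul_zero] at h3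
    rw [← h3, Finset.mul_sum]
    apply Finset.sum_congr rfl
    intro j _
    ring
  refine Eq.trans (congrArg₂ (· + ·) h2 rfl) ?_
  rw [zero_add, Finset.sum_mul]
  apply Finset.sum_congr rfl
  intro j _
  rw [Function.iterate_succ_apply']
  ring

theorem Z12_key (V : Variation k X) {n : Fin (k + 1) → ℂ} (h : ∀ z, V.pw n z = 0) :
    ∀ m ≤ k, ∀ w : ℂ, 0 < w.im → ∑ j : Fin (k + 1), (V.vC j w - n j) *
      ((Polynomial.derivative^[m]) ((Polynomial.X : Polynomial ℂ) ^ (j : ℕ))).eval (V.tauC w)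
        = 0 := by
  intro m
  induction m with
  | zero =>
    intro _ w hw
    have h1 := h (ofComplex w)
    unfold Variation.pw at h1
    have h2 := Z12_lin 0 (V.v (ofComplex w) - n) (V.τ (ofComplex w) : ℂ)
    rw [Function.iterate_zero, id, h1] at h2
    exact h2.symm
  | succ m ih =>
    intro hm w hw
    have ih' := ih (by omega)
    have hopen : {u : ℂ | 0 < u.im} ∈ 𝓝 w :=
      (isOpen_lt continuous_const Complex.continuous_im).mem_nhds hw
    have h1 : ∀ u : ℂ, 0 < u.im → (∑ j : Fin (k + 1), (V.vC j u - n j) *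
      ((Polynomial.derivative^[m + 1]) ((Polynomial.X : Polynomial ℂ) ^ (j : ℕ))).eval (V.tauC u)) *
        deriv V.tauC u = 0 := by
      intro u hu
      have h2 := Z12_deriv V n (show m < k by omega) hu
      have h3 : (fun w : ℂ => ∑ j : Fin (k + 1), (V.vC j w - n j) *
          ((Polynomial.derivative^[m]) ((Polynomial.X : Polynomial ℂ) ^ (j : ℕ))).eval
            (V.tauC w)) =ᶠ[𝓝 u] fun _ => (0 : ℂ) := by
        filter_upwards [(isOpen_lt continuous_const Complex.continuous_im).mem_nhds hu] with x hx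
        exact ih' x hx
      have h4 := h3.deriv_eq
      rw [h2.deriv, deriv_const] at h4
      exact h4
    by_contra hne
    have hc : ContinuousAt (fun w : ℂ => ∑ j : Fin (k + 1), (V.vC j w - n j) *
      ((Polynomial.derivative^[m + 1]) ((Polynomial.X : Polynomial ℂ) ^ (j : ℕ))).eval
        (V.tauC w)) w := by
      apply tendsto_finsetSum
      intro j _
      exact ((V.vC_diff j hw).continuousAt.sub continuousAt_const).mul
        ((Polynomial.continuous _).continuousAt.comp (V.tauC_diff hw).1.continuousAt)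
    have h5 := hc.eventually_ne hne
    have h5' : ∀ᶠ u in 𝓝[≠] w, (∑ j : Fin (k + 1), (V.vC j u - n j) *
      ((Polynomial.derivative^[m + 1]) ((Polynomial.X : Polynomial ℂ) ^ (j : ℕ))).eval
        (V.tauC u)) ≠ 0 := nhdsWithin_le_nhds h5
    have hopen' : ∀ᶠ u in 𝓝[≠] w, 0 < u.im := nhdsWithin_le_nhds hopen
    have h6 := h5'.and ((V.t1_ne hw).and hopen')
    obtain ⟨u, hu1, hu2, hu3⟩ := h6.exists
    exact (mul_ne_zero hu1 hu2.2) (h1 u hu3)

theorem Variation.const_of_pw (V : Variation k X) {n : Fin (k + 1) → ℂ}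
    (h : ∀ z, V.pw n z = 0) (z : ℍ) : V.v z = n := by
  have hz : ofComplex (z : ℂ) = z := ofComplex_apply z
  have hroot : ∀ m ≤ k, ((Polynomial.derivative^[m]) (toP (V.v z - n))).IsRoot (V.τ z : ℂ) := by
    intro m hm
    have h1 := Z12_key V h m hm (z : ℂ) z.im_pos
    rw [Polynomial.IsRoot.def, Z12_lin]
    unfold Variation.vC Variation.tauC at h1
    rw [hz] at h1
    exact h1
  have hP : toP (V.v z - n) = 0 := by
    by_contra hne
    have h1 := Polynomial.lt_rootMultiplicity_of_isRoot_iterate_derivative hne hroot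
    have h2 : (toP (V.v z - n)).natDegree ≤ k := by
      unfold toP
      apply Polynomial.natDegree_sum_le_of_forall_le
      intro j _
      refine (Polynomial.natDegree_C_mul_X_pow_le _ _).trans ?_
      exact Nat.lt_succ_iff.1 j.2
    have h3 : (toP (V.v z - n)).rootMultiplicity (V.τ z : ℂ) ≤ (toP (V.v z - n)).natDegree := by
      rw [← Polynomial.count_roots]
      exact (Multiset.count_le_card _ _).trans (Polynomial.card_roots' _)
    omega
  funext j
  have h1 := congrArg (fun p : Polynomial ℂ => p.coeff (j : ℕ)) hP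
  simp only [Polynomial.coeff_zero] at h1
  unfold toP at h1
  rw [Polynomial.finsetSum_coeff, Finset.sum_eq_single j] at h1
  · rw [Polynomial.coeff_C_mul_X_pow, if_pos rfl, Pi.sub_apply, sub_eq_zero] at h1
    exact h1
  · intro i _ hij
    rw [Polynomial.coeff_C_mul_X_pow, if_neg]
    intro h2
    exact hij (Fin.ext h2.symm)
  · intro h2
    exact absurd (Finset.mem_univ j) h2

theorem Z13_lin : ∃ f : ℂ →ₗ[ℚ] ℚ, f 1 = 1 := by
  have h : ∃ f : ℂ →ₗ[ℚ] ℚ, f 1 ≠ 0 := by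
    by_contra hcon
    push Not at hcon
    exact one_ne_zero ((Module.forall_dual_apply_eq_zero_iff ℚ (1 : ℂ)).1 hcon)
  obtain ⟨f, hf⟩ := h
  refine ⟨(f 1)⁻¹ • f, ?_⟩
  rw [LinearMap.smul_apply, smul_eq_mul, inv_mul_cancel₀ hf]

/-- A constant extension period is rational. -/
theorem Variation.split_of_const (V : Variation k X) (hk : 1 ≤ k) {n : Fin (k + 1) → ℂ}
    (h : ∀ z, V.v z = n) : V.Split := by
  obtain ⟨f, hf⟩ := Z13_lin
  have hfix : ∀ δ : X.P, ∀ j, n j = (∑ l, ((act k (V.ρ δ) j l : ℚ) : ℂ) * n l) + (V.c δ j : ℂ) := by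
    intro δ j
    have h1 := V.v_equiv δ UpperHalfPlane.I
    rw [h, h] at h1
    have h2 := congrFun h1 j
    rw [Pi.add_apply, Matrix.mulVec, dotProduct] at h2
    simpa [Matrix.map_apply] using h2
  have hq : ∀ (q : ℚ) (x : ℂ), f ((q : ℂ) * x) = q * f x := by
    intro q x
    have : (q : ℂ) * x = q • x := by rw [Rat.smul_def]
    rw [this, map_smul, smul_eq_mul]
  have hr : ∀ δ : X.P, ∀ j, f (n j) = (∑ l, act k (V.ρ δ) j l * f (n l)) + V.c δ j := by
    intro δ j
    have h1 := congrArg f (hfix δ j)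
    rw [map_add, map_sum] at h1
    simp only [hq] at h1
    have h2 : f ((V.c δ j : ℚ) : ℂ) = V.c δ j := by
      have := hq (V.c δ j) 1
      rwa [mul_one, hf, mul_one] at this
    rw [h2] at h1
    exact h1
  have hd : ∀ δ : X.P, (act k (V.ρ δ)).map (algebraMap ℚ ℂ) *ᵥ
      (n - fun j => ((f (n j) : ℚ) : ℂ)) = n - fun j => ((f (n j) : ℚ) : ℂ) := by
    intro δ
    ext j
    rw [Matrix.mulVec, dotProduct]
    have h1 := hfix δ j
    have h2 : ((f (n j) : ℚ) : ℂ) =
        (∑ l, ((act k (V.ρ δ) j l : ℚ) : ℂ) * ((f (n l) : ℚ) : ℂ)) + (V.c δ j : ℂ) := by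
      exact_mod_cast congrArg (fun q : ℚ => (q : ℂ)) (hr δ j)
    simp only [Pi.sub_apply, Matrix.map_apply, mul_sub, Finset.sum_sub_distrib]
    have e : ∀ x : ℚ, (algebraMap ℚ ℂ) x = (x : ℂ) := fun _ => rfl
    simp only [e]
    linear_combination -h1 + h2
  obtain ⟨γ, γ', h1, h2, h3⟩ := V.exists_unipotent
  have h0 := fixed_zero hk h1 h2 h3 (hd γ) (hd γ')
  refine ⟨fun j => f (n j), fun z i => ?_⟩
  rw [h z]
  have := congrFun h0 i
  rw [Pi.sub_apply, Pi.zero_apply, sub_eq_zero] at this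
  exact this

theorem Z14_prr {γ : SL(2, ℤ)} (h : γ 0 0 + γ 1 1 = 2) : prr (nb γ) (nb γ) = 0 := by
  have hd := γ.det_coe
  rw [Matrix.det_fin_two] at hd
  have h1 : (γ 0 0 : ℂ) + (γ 1 1 : ℂ) = 2 := by exact_mod_cast h
  have h2 : (γ 0 0 : ℂ) * (γ 1 1 : ℂ) - (γ 0 1 : ℂ) * (γ 1 0 : ℂ) = 1 := by exact_mod_cast hd
  unfold prr nb
  simp only [Matrix.cons_val_zero, Matrix.cons_val_one, Matrix.cons_val]
  linear_combination ((γ 0 0 : ℂ) + (γ 1 1 : ℂ) + 2) * h1 - 4 * h2

/-- The jets of the period map of a nonsplit variation are algebraically independent. -/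
theorem Variation.gen (V : Variation k X) (hk : 1 ≤ k) (hns : ¬ V.Split) :
    Gen k {w | 0 < w.im} (lamC X) V.tauC V.vC := by
  have hol : Hol k {w | 0 < w.im} (lamC X) V.tauC V.vC := by
    refine ⟨isOpen_lt continuous_const Complex.continuous_im,
      (convex_halfSpace_im_gt 0).isPreconnected, ⟨Complex.I, by simp⟩, ?_, ?_, ?_, ?_, ?_⟩
    · exact fun w hw => (lamC_diff X hw).1.differentiableWithinAt
    · exact fun w hw => (V.tauC_diff hw).1.differentiableWithinAt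
    · exact fun j w hw => (V.vC_diff j hw).differentiableWithinAt
    · exact fun w hw => (lamC_diff X hw).2
    · intro w hw
      refine ⟨V.gC w * deriv (lamC X) w, fun j => ?_⟩
      have h1 := V.dx_vC j hw
      unfold dx at h1
      rw [div_eq_iff (lamC_diff X hw).2] at h1
      rw [h1]
      ring
  refine { toHol := hol, base_S := V.schw_alg, base_m := V.psi_alg.2.2, indep := ?_ }
  intro P hP
  have hR : V.Rel P := hP
  obtain ⟨S, hS, hbr⟩ := V.stab_submodule
  obtain ⟨γ, γ', h1, h2, h3⟩ := V.exists_unipotent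
  obtain ⟨a, ha, -⟩ := V.parabolic γ h1
  obtain ⟨a', ha', -⟩ := V.parabolic γ' h2
  have htop := proj_top S hbr ((hS _ _).2 ha) ((hS _ _).2 ha') (Z14_prr h1) (Z14_prr h2) h3
  rcases whitehead hk S hbr htop with h | ⟨n, hn⟩
  · refine V.rel_zero (fun b a => (hS b a).1 ?_) hR
    rw [h]
    trivial
  · exfalso
    have hfix : ∀ γ : X.P, V.aff γ n = n :=
      V.fix_all hk fun b a hs => (hn b a).1 ((hS b a).2 hs)
    exact hns (V.split_of_const hk (V.const_of_pw (V.pw_zero hk hfix)))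

end Rel

end Pool.Agent.LibSym94
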