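import Pool.Agent.LibSym94.LocDefs
import Pool.Agent.LibSym94.Z1
import Pool.Agent.LibSym94.B

open Matrix Filter Topology Polynomial UpperHalfPlane
open scoped MatrixGroups ComplexConjugate
open Pool.Agent.LibUB33 (Curve ee)
open Pool.Agent.LibEis68 (form act)

namespace Pool.Agent.LibSym94

/-! ## Formal part -/

section Formal
variable {R : Type*} [CommRing R]

theorem LC1_cast (n i : ℕ) :
    ((1 - X : R[X]) ^ n).coeff i = ((((1 - X : ℤ[X]) ^ n).coeff i : ℤ) : R) := by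
  have h : (1 - X : R[X]) ^ n = ((1 - X : ℤ[X]) ^ n).map (Int.castRingHom R) := by
    simp
  rw [h, Polynomial.coeff_map]
  rfl

theorem gcoR_eq_sum (k : ℕ) (s t : R) (p : Fin (k + 1) → R) (j : ℕ) :
    gcoR k s t p j = ∑ m : Fin (k + 1), ∑ e ∈ Finset.range (k + 1),
      (cg k m e j : R) * (p m * s ^ ((m : ℕ) - e) * t ^ e) := by
  unfold gcoR
  apply Finset.sum_congr rfl
  intro m _
  have hm : (m : ℕ) ≤ k := Nat.lt_succ_iff.1 m.2
  have h1 : (C s - C t * X : R[X]) ^ (m : ℕ) = ∑ e ∈ Finset.range ((m : ℕ) + 1),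
      C ((-1) ^ e * ((m : ℕ).choose e : R) * s ^ ((m : ℕ) - e) * t ^ e) * X ^ e := by
    rw [sub_eq_neg_add, add_pow]
    apply Finset.sum_congr rfl
    intro e _
    simp only [C_mul, C_pow, C_neg, C_1, ← map_natCast (C : R →+* R[X])]
    rw [neg_pow, mul_pow]
    ring
  rw [h1, Finset.sum_mul, Polynomial.finsetSum_coeff, Finset.mul_sum]
  have hsub : Finset.range ((m : ℕ) + 1) ⊆ Finset.range (k + 1) := by
    apply Finset.range_subset_range.2
    omega
  have h2 : ∀ e ∈ Finset.range (k + 1), e ∉ Finset.range ((m : ℕ) + 1) →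
      (cg k m e j : R) * (p m * s ^ ((m : ℕ) - e) * t ^ e) = 0 := by
    intro e _ he
    rw [Finset.mem_range, not_lt] at he
    unfold cg
    rw [if_neg (by omega)]
    simp
  rw [← Finset.sum_subset hsub h2]
  apply Finset.sum_congr rfl
  intro e he
  rw [Finset.mem_range] at he
  rw [mul_assoc (C _), Polynomial.coeff_C_mul, Polynomial.coeff_X_pow_mul']
  unfold cg
  by_cases hej : e ≤ j
  · rw [if_pos hej, if_pos ⟨by omega, hej⟩, LC1_cast]
    push_cast
    ring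
  · rw [if_neg hej, if_neg (fun h => hej h.2)]
    simp

theorem gco_eq_gcoR (k : ℕ) (s t : ℂ) (p : Fin (k + 1) → ℂ) (j : ℕ) :
    gco k s t p j = gcoR k s t p j := rfl

/-- Homogeneous substitution. -/
noncomputable def LC2_H (n : ℕ) (U V : R[X]) (p : R[X]) : R[X] :=
  MvPolynomial.aeval ![U, V] (p.homogenize n)

theorem LC2_H_eq (n : ℕ) (U V p : R[X]) :
    LC2_H n U V p = ∑ m : Fin (n + 1), C (p.coeff m) * (U ^ (m : ℕ) * V ^ (n - (m : ℕ))) := by
  unfold LC2_H Polynomial.homogenize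
  rw [map_sum, Finset.Nat.sum_antidiagonal_eq_sum_range_succ_mk, Finset.sum_range]
  apply Finset.sum_congr rfl
  intro m _
  rw [MvPolynomial.aeval_monomial]
  simp [Polynomial.C_eq_algebraMap]

theorem LC2_H_mul {m n : ℕ} (U V : R[X]) {p q : R[X]} (hp : p.natDegree ≤ m)
    (hq : q.natDegree ≤ n) : LC2_H (m + n) U V (p * q) = LC2_H m U V p * LC2_H n U V q := by
  unfold LC2_H
  rw [Polynomial.homogenize_mul p q hp hq, map_mul]

theorem LC2_H_lin (U V : R[X]) (s : R) : LC2_H 1 U V (X - C s) = U - C s * V := by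
  rw [LC2_H_eq, Fin.sum_univ_two]
  simp [Polynomial.coeff_C, Polynomial.coeff_X]
  ring

theorem LC2_H_pow (U V : R[X]) (s : R) (n : ℕ) :
    LC2_H n U V ((X - C s) ^ n) = (U - C s * V) ^ n := by
  induction n with
  | zero =>
    rw [LC2_H_eq]
    simp
  | succ n ih =>
    rw [pow_succ, LC2_H_mul U V _ _, ih, LC2_H_lin, pow_succ]
    · refine (Polynomial.natDegree_pow_le_of_le n (m := 1) ?_).trans (by omega)
      exact Polynomial.natDegree_X_sub_C_le s
    · exact Polynomial.natDegree_X_sub_C_le s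

theorem LC2_frm (k : ℕ) (s t : R) {l : ℕ} (hl : l ≤ k) :
    ∑ m : Fin (k + 1), C (frm k s t l m) *
      ((C s - C t * X : R[X]) ^ (m : ℕ) * (1 - X) ^ (k - (m : ℕ))) =
      C ((s - t) ^ k) * X ^ l := by
  have h1 : ∀ m : Fin (k + 1), frm k s t l m =
      (((X - C s) ^ l * (X - C t) ^ (k - l) : R[X])).coeff m := fun m => rfl
  simp only [h1]
  rw [← LC2_H_eq]
  have h2 : k = l + (k - l) := by omega
  have hd : ∀ (a : R) (n : ℕ), ((X - C a : R[X]) ^ n).natDegree ≤ n := by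
    intro a n
    refine (Polynomial.natDegree_pow_le_of_le n (m := 1) ?_).trans (by omega)
    exact Polynomial.natDegree_X_sub_C_le a
  have h3 := LC2_H_mul (C s - C t * X) (1 - X) (hd s l) (hd t (k - l))
  rw [← h2] at h3
  rw [h3, LC2_H_pow, LC2_H_pow]
  have e1 : (C s - C t * X - C s * (1 - X) : R[X]) = C (s - t) * X := by
    rw [C_sub]; ring
  have e2 : (C s - C t * X - C t * (1 - X) : R[X]) = C (s - t) := by
    rw [C_sub]; ring
  rw [e1, e2, mul_pow, C_pow]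
  conv_rhs => rw [h2, pow_add]
  ring

/-- `gcoR` computes coordinates. -/
theorem gcoR_frm (k : ℕ) {s t : R} {f : ℕ → R} {p : Fin (k + 1) → R}
    (hp : ∀ j, p j = ∑ l ∈ Finset.range (k + 1), f l * frm k s t l j) {j : ℕ} (hj : j ≤ k) :
    gcoR k s t p j = (s - t) ^ k * f j := by
  have h1 : gcoR k s t p j = (∑ m : Fin (k + 1), C (p m) *
      ((C s - C t * X : R[X]) ^ (m : ℕ) * (1 - X) ^ (k - (m : ℕ)))).coeff j := by
    unfold gcoR
    rw [Polynomial.finsetSum_coeff]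
    simp only [Polynomial.coeff_C_mul]
  have h2 : ∑ m : Fin (k + 1), C (p m) *
      ((C s - C t * X : R[X]) ^ (m : ℕ) * (1 - X) ^ (k - (m : ℕ))) =
      ∑ l ∈ Finset.range (k + 1), C (f l) * (C ((s - t) ^ k) * X ^ l) := by
    simp only [hp, map_sum, Finset.sum_mul, C_mul]
    rw [Finset.sum_comm]
    apply Finset.sum_congr rfl
    intro l hl
    rw [Finset.mem_range] at hl
    rw [← LC2_frm k s t (by omega : l ≤ k), Finset.mul_sum]
    apply Finset.sum_congr rfl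
    intro m _
    ring
  rw [h1, h2, Polynomial.finsetSum_coeff]
  simp only [Polynomial.coeff_C_mul, Polynomial.coeff_X_pow]
  rw [Finset.sum_eq_single j]
  · simp
    ring
  · intro b _ hb
    simp [Ne.symm hb]
  · intro h
    exact absurd (Finset.mem_range.2 (by omega)) h

/-- A form over a field in terms of `gco`. -/
theorem gco_expand {k : ℕ} {s t : ℂ} (h : s ≠ t) (p : Fin (k + 1) → ℂ) (j : Fin (k + 1)) :
    p j = ∑ l ∈ Finset.range (k + 1), (gco k s t p l / (s - t) ^ k) * frm k s t l j := by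
  have hst : s - t ≠ 0 := sub_ne_zero.2 h
  obtain ⟨c, _, hc⟩ := frm_span k (s := s) (t := t) (isUnit_iff_ne_zero.2 hst) p
  conv_lhs => rw [hc j]
  apply Finset.sum_congr rfl
  intro l hl
  rw [Finset.mem_range] at hl
  rw [gco_eq_gcoR, gcoR_frm k hc (by omega : l ≤ k), mul_div_cancel_left₀]
  exact pow_ne_zero _ hst

/-- The derivative of a power of a unit. -/
theorem LC3_pow {r ri : R} (hr : r * ri = 1) (D : Derivation ℤ R R) (k : ℕ) :
    D (r ^ k) = (k : R) * D r * ri * r ^ k := by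
  rw [Derivation.leibniz_pow]
  rcases k with _ | k
  · simp
  · rw [Nat.add_sub_cancel, smul_eq_mul, nsmul_eq_mul, pow_succ]
    linear_combination (-((k + 1 : ℕ) : R) * r ^ k * D r) * hr

/-- The derivative of the inverse of a unit. -/
theorem LC3_inv {r ri : R} (hr : r * ri = 1) (D : Derivation ℤ R R) :
    D ri = -(ri ^ 2 * D r) := by
  have h := congrArg D hr
  rw [D.leibniz, D.map_one_eq_zero, smul_eq_mul, smul_eq_mul] at h
  linear_combination ri * h - D ri * hr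

/-- The mixed derivative of a coordinate. -/
theorem LC3_mixed (k : ℕ) {s t ri : R} (hr : (s - t) * ri = 1) (Dz Dw : Derivation ℤ R R)
    (hc : ∀ u, Dz (Dw u) = Dw (Dz u)) (ht : Dz t = 0)
    {g g' : R} (hg' : Dz g' = 0) {f : ℕ → R}
    (hfz : ∀ j, j ≤ k → Dz (f j) = (if j = k then g else 0) +
      Dz s * ri * ((j + 1 : ℕ) * f (j + 1) - (j : ℕ) * f j))
    (hfw : ∀ j, j ≤ k → Dw (f j) = (if j = 0 then -g' else 0) +
      Dw t * ri * ((k - j : ℕ) * f j - if j = 0 then 0 else ((k - (j - 1) : ℕ) * f (j - 1))))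
    {j : ℕ} (hj : j ≤ k) :
    Dz (Dw (f j)) = (k - j : ℕ) * (Dw t * ri) * Dz (f j) - (j : ℕ) * (Dz s * ri) * Dw (f j) -
      (k : ℕ) * (Dz s * Dw t * ri ^ 2) * f j := by
  have htw : Dz (Dw t) = 0 := by rw [hc, ht, map_zero]
  have hri : Dz ri = -(ri ^ 2 * Dz s) := by
    rw [LC3_inv hr Dz, map_sub, ht, sub_zero]
  have hnat : ∀ n : ℕ, Dz (n : R) = 0 := fun n => by
    have h := Dz.map_natCast n
    exact h
  rcases j with _ | m
  · have h := congrArg Dz (hfw 0 hj)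
    simp only [if_true, Nat.sub_zero, sub_zero, map_add, map_neg, hg', neg_zero, zero_add,
      Dz.leibniz, smul_eq_mul, htw, hri, hnat, mul_zero, add_zero] at h
    rw [h, Nat.sub_zero]
    push_cast
    ring
  · have hm : m ≤ k := by omega
    have hmk : m ≠ k := by omega
    have hfm := hfz m hm
    rw [if_neg hmk, zero_add] at hfm
    have h0 := hfw (m + 1) hj
    rw [if_neg (Nat.succ_ne_zero m), if_neg (Nat.succ_ne_zero m), zero_add,
      Nat.add_sub_cancel] at h0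
    have h := congrArg Dz h0
    simp only [map_sub, Dz.leibniz, smul_eq_mul, htw, hri, hnat, mul_zero, add_zero, hfm] at h
    rw [h, h0, Nat.cast_sub hm, Nat.cast_sub hj]
    push_cast
    ring

/-- The Euler-Poisson-Darboux equation. -/
theorem epd (k : ℕ) {s t ri : R} (hr : (s - t) * ri = 1) (Dz Dw : Derivation ℤ R R)
    (hc : ∀ u, Dz (Dw u) = Dw (Dz u)) (hs : Dw s = 0) (ht : Dz t = 0)
    {V V' : Fin (k + 1) → R} {g g' : R} (hV : ∀ j, Dz (V j) = g * frm k s s k j)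
    (hVw : ∀ j, Dw (V j) = 0) (hV' : ∀ j, Dw (V' j) = g' * frm k t t k j)
    (hVz : ∀ j, Dz (V' j) = 0) (hg : Dw g = 0) (hg' : Dz g' = 0) {f : ℕ → R}
    (hf0 : f (k + 1) = 0)
    (hf : ∀ j, V j - V' j = ∑ l ∈ Finset.range (k + 1), f l * frm k s t l j) {j : ℕ}
    (hj : j ≤ k) :
    (s - t) * Dz (Dw ((s - t) ^ k * f j)) =
      ((k - j : ℕ) : R) * Dz s * Dw ((s - t) ^ k * f j) -
        (j : R) * Dw t * Dz ((s - t) ^ k * f j) := by
  have hfz : ∀ j, j ≤ k → Dz (f j) = (if j = k then g else 0) +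
      Dz s * ri * ((j + 1 : ℕ) * f (j + 1) - (j : ℕ) * f j) := by
    intro j hj
    have h := frm_deriv k hr Dz (f := f) (c := fun l => if l = k then g else 0)
      (F := fun j => V j - V' j) hf0 hf (fun j => ?_) hj
    · rw [h, ht, zero_mul, zero_mul, add_zero]
    · simp only [map_sub, hV, hVz, sub_zero, ite_mul, zero_mul]
      rw [Finset.sum_ite_eq' (Finset.range (k + 1)) k, if_pos (Finset.mem_range.2 (Nat.lt_succ_self k))]
      simp [frm]
  have hfw : ∀ j, j ≤ k → Dw (f j) = (if j = 0 then -g' else 0) +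
      Dw t * ri * ((k - j : ℕ) * f j - if j = 0 then 0 else ((k - (j - 1) : ℕ) * f (j - 1))) := by
    intro j hj
    have h := frm_deriv k hr Dw (f := f) (c := fun l => if l = 0 then -g' else 0)
      (F := fun j => V j - V' j) hf0 hf (fun j => ?_) hj
    · rw [h, hs, zero_mul, zero_mul, add_zero]
    · simp only [map_sub, hV', hVw, zero_sub, ite_mul, zero_mul]
      rw [Finset.sum_ite_eq' (Finset.range (k + 1)) 0, if_pos (Finset.mem_range.2 (Nat.succ_pos k))]
      simp [frm]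
  have hmix := LC3_mixed k hr Dz Dw hc ht hg' hfz hfw hj
  have htw : Dz (Dw t) = 0 := by rw [hc, ht, map_zero]
  have hri : Dz ri = -(ri ^ 2 * Dz s) := by
    rw [LC3_inv hr Dz, map_sub, ht, sub_zero]
  have hnat : Dz (k : R) = 0 := by
    have h := Dz.map_natCast k
    exact h
  have hGz : Dz ((s - t) ^ k * f j) = (s - t) ^ k * ((k : R) * Dz s * ri * f j + Dz (f j)) := by
    rw [Dz.leibniz, LC3_pow hr Dz, map_sub, ht, sub_zero, smul_eq_mul, smul_eq_mul]
    ring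
  have hGw : Dw ((s - t) ^ k * f j) = (s - t) ^ k * (-((k : R) * Dw t * ri * f j) + Dw (f j)) := by
    rw [Dw.leibniz, LC3_pow hr Dw, map_sub, hs, zero_sub, smul_eq_mul, smul_eq_mul]
    ring
  have hGzw : Dz (Dw ((s - t) ^ k * f j)) = (s - t) ^ k *
      ((k : R) * Dz s * ri * (-((k : R) * Dw t * ri * f j) + Dw (f j)) +
        (-((k : R) * Dw t * (-(ri ^ 2 * Dz s) * f j + ri * Dz (f j))) + Dz (Dw (f j)))) := by
    rw [hGw, Dz.leibniz, LC3_pow hr Dz, map_sub, ht, sub_zero, smul_eq_mul, smul_eq_mul]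
    simp only [map_add, map_neg, Dz.leibniz, smul_eq_mul, htw, hri, hnat]
    ring
  rw [hGzw, hGz, hGw, hmix, Nat.cast_sub hj]
  linear_combination ((s - t) ^ k * (-(k : R) ^ 2 * Dz s * Dw t * ri * f j +
    ((k : R) - j) * Dz s * Dw (f j) - (j : R) * Dw t * Dz (f j))) * hr

/-- The coefficientwise derivative. -/
noncomputable def LC4_fz (f : R2) : R2 :=
  PowerSeries.mk fun n => PowerSeries.derivative ℂ (PowerSeries.coeff n f)

theorem LC4_coeff_fz (f : R2) (n : ℕ) : PowerSeries.coeff n (LC4_fz f) =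
    PowerSeries.derivative ℂ (PowerSeries.coeff n f) :=
  PowerSeries.coeff_mk _ _

theorem LC4_fz_mul (f g : R2) : LC4_fz (f * g) = f * LC4_fz g + g * LC4_fz f := by
  ext1 n
  simp only [LC4_coeff_fz, smul_eq_mul, map_add, PowerSeries.coeff_mul, map_sum,
    Derivation.leibniz, Finset.sum_add_distrib]
  congr 1
  rw [← Finset.Nat.sum_antidiagonal_swap]
  rfl

/-- The coefficientwise derivation. -/
noncomputable def LC4_dz : Derivation ℤ R2 R2 :=
  Derivation.mk' (AddMonoidHom.toIntLinearMap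
    { toFun := LC4_fz
      map_zero' := by
        ext1 n
        simp only [LC4_coeff_fz, map_zero]
      map_add' := fun f g => by
        ext1 n
        simp only [LC4_coeff_fz, map_add] })
    (fun f g => LC4_fz_mul f g)

theorem LC4_coeff_dz (f : R2) (n : ℕ) : PowerSeries.coeff n (LC4_dz f) =
    PowerSeries.derivative ℂ (PowerSeries.coeff n f) :=
  LC4_coeff_fz f n

/-- The derivative of a power series. -/
noncomputable def LC4_fw {S : Type*} [CommRing S] (f : PowerSeries S) : PowerSeries S :=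
  PowerSeries.derivative S f

theorem LC4_fw_zero {S : Type*} [CommRing S] : LC4_fw (0 : PowerSeries S) = 0 :=
  map_zero (PowerSeries.derivative S)

theorem LC4_fw_add {S : Type*} [CommRing S] (f g : PowerSeries S) :
    LC4_fw (f + g) = LC4_fw f + LC4_fw g :=
  map_add (PowerSeries.derivative S) f g

theorem LC4_fw_mul {S : Type*} [CommRing S] (f g : PowerSeries S) :
    LC4_fw (f * g) = f * LC4_fw g + g * LC4_fw f :=
  (PowerSeries.derivative S).leibniz f g

theorem LC4_fw_C {S : Type*} [CommRing S] (a : S) : LC4_fw (PowerSeries.C a) = 0 :=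
  PowerSeries.derivative_C

theorem LC4_coeff_fw {S : Type*} [CommRing S] (f : PowerSeries S) (n : ℕ) :
    PowerSeries.coeff n (LC4_fw f) = PowerSeries.coeff (n + 1) f * (n + 1) :=
  PowerSeries.coeff_derivative f n

/-- The derivation in the outer variable. -/
noncomputable def LC4_dw : Derivation ℤ R2 R2 :=
  Derivation.mk' (AddMonoidHom.toIntLinearMap
    { toFun := LC4_fw
      map_zero' := LC4_fw_zero
      map_add' := LC4_fw_add })
    (fun f g => LC4_fw_mul f g)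

theorem LC4_coeff_dw (f : R2) (n : ℕ) : PowerSeries.coeff n (LC4_dw f) =
    PowerSeries.coeff (n + 1) f * (n + 1) := by
  exact LC4_coeff_fw f n

theorem exists_pder : ∃ Dz Dw : Derivation ℤ R2 R2, Pder Dz Dw := by
  refine ⟨LC4_dz, LC4_dw, ?_, ?_, ?_, ?_, ?_, ?_, ?_⟩
  · intro f p q
    rw [co, LC4_coeff_dz, PowerSeries.coeff_derivative, co, mul_comm]
    push_cast
    rfl
  · intro f p q
    have h : ((q : PowerSeries ℂ) + 1) = PowerSeries.C ((q + 1 : ℕ) : ℂ) := by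
      rw [map_natCast]
      push_cast
      rfl
    rw [co, LC4_coeff_dw, h, PowerSeries.coeff_mul_C, co, mul_comm]
  · intro f
    ext1 n
    have h : ((n : PowerSeries ℂ) + 1) = PowerSeries.C ((n + 1 : ℕ) : ℂ) := by
      rw [map_natCast]
      push_cast
      rfl
    rw [LC4_coeff_dz, LC4_coeff_dw, LC4_coeff_dw, LC4_coeff_dz, h, Derivation.leibniz,
      PowerSeries.derivative_C, smul_zero, zero_add, smul_eq_mul, mul_comm]
  · intro g
    ext1 n
    rw [LC4_coeff_dz, inz, PowerSeries.coeff_C, PowerSeries.coeff_C]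
    split_ifs with h
    · rfl
    · exact map_zero _
  · intro g
    exact LC4_fw_C g
  · intro g
    ext1 n
    rw [LC4_coeff_dz, inw, PowerSeries.coeff_map, PowerSeries.derivative_C, map_zero]
  · intro g
    ext1 n
    have h : ((n : PowerSeries ℂ) + 1) = PowerSeries.C ((n + 1 : ℕ) : ℂ) := by
      rw [map_natCast]
      push_cast
      rfl
    rw [LC4_coeff_dw, inw, PowerSeries.coeff_map, PowerSeries.coeff_map,
      PowerSeries.coeff_derivative, h, ← map_mul]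
    push_cast
    rfl

theorem LC5_co_mul (X Y : R2) (p q : ℕ) : co p q (X * Y) =
    ∑ u ∈ Finset.HasAntidiagonal.antidiagonal q, ∑ v ∈ Finset.HasAntidiagonal.antidiagonal p, co v.1 u.1 X * co v.2 u.2 Y := by
  simp only [co, PowerSeries.coeff_mul, map_sum]

theorem LC5_lt (X : R2) {Y : R2} {d : ℕ} (hY : ∀ p q, p + q < d → co p q Y = 0) {p q : ℕ}
    (h : p + q < d) : co p q (X * Y) = 0 := by
  rw [LC5_co_mul]
  refine Finset.sum_eq_zero fun u hu => Finset.sum_eq_zero fun v hv => ?_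
  rw [Finset.HasAntidiagonal.mem_antidiagonal] at hu hv
  rw [hY _ _ (by omega), mul_zero]

theorem LC5_eq (X : R2) {Y : R2} {d : ℕ} (hY : ∀ p q, p + q < d → co p q Y = 0) {p q : ℕ}
    (h : p + q = d) : co p q (X * Y) = co 0 0 X * co p q Y := by
  rw [LC5_co_mul, Finset.sum_eq_single (0, q), Finset.sum_eq_single (0, p)]
  · intro v hv hne
    rw [Finset.HasAntidiagonal.mem_antidiagonal] at hv
    have h1 : v.1 ≠ 0 := by
      intro h0
      apply hne
      ext
      · exact h0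
      · simp only; omega
    rw [hY _ _ (by simp only; omega), mul_zero]
  · intro h0
    exact absurd (Finset.HasAntidiagonal.mem_antidiagonal.2 (by simp)) h0
  · intro u hu hne
    rw [Finset.HasAntidiagonal.mem_antidiagonal] at hu
    have h1 : u.1 ≠ 0 := by
      intro h0
      apply hne
      ext
      · exact h0
      · simp only; omega
    refine Finset.sum_eq_zero fun v hv => ?_
    rw [Finset.HasAntidiagonal.mem_antidiagonal] at hv
    rw [hY _ _ (by omega), mul_zero]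
  · intro h0
    exact absurd (Finset.HasAntidiagonal.mem_antidiagonal.2 (by simp)) h0

/-- The form of lowest degree of a solution is a sum of two pure powers. -/
theorem lowest {Dz Dw : Derivation ℤ R2 R2} (H : Pder Dz Dw) {G r A B : R2} (hr : co 0 0 r ≠ 0)
    (h : r * Dz (Dw G) = A * Dw G + B * Dz G) {d : ℕ} (hd : ∀ p q, p + q < d → co p q G = 0)
    {p q : ℕ} (hpq : p + q = d) (hp : 0 < p) (hq : 0 < q) : co p q G = 0 := by
  obtain ⟨p, rfl⟩ : ∃ p', p = p' + 1 := ⟨p - 1, by omega⟩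
  obtain ⟨q, rfl⟩ : ∃ q', q = q' + 1 := ⟨q - 1, by omega⟩
  have h1 : ∀ p' q', p' + q' < p + q → co p' q' (Dz (Dw G)) = 0 := fun p' q' h' => by
    rw [H.z, H.w, hd _ _ (by omega), mul_zero, mul_zero]
  have h2 : ∀ p' q', p' + q' < p + q + 1 → co p' q' (Dw G) = 0 := fun p' q' h' => by
    rw [H.w, hd _ _ (by omega), mul_zero]
  have h3 : ∀ p' q', p' + q' < p + q + 1 → co p' q' (Dz G) = 0 := fun p' q' h' => by
    rw [H.z, hd _ _ (by omega), mul_zero]
  have h4 := congrArg (co p q) h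
  have h5 : co p q (A * Dw G + B * Dz G) = co p q (A * Dw G) + co p q (B * Dz G) := by
    simp only [co, map_add]
  rw [LC5_eq r h1 rfl, h5, LC5_lt A h2 (Nat.lt_succ_self _), LC5_lt B h3 (Nat.lt_succ_self _),
    add_zero, H.z, H.w] at h4
  have h6 := (mul_eq_zero.1 h4).resolve_left hr
  have h7 := (mul_eq_zero.1 h6).resolve_left (by exact_mod_cast Nat.succ_ne_zero p)
  exact (mul_eq_zero.1 h7).resolve_left (by exact_mod_cast Nat.succ_ne_zero q)

end Formal

/-! ## From functions to series -/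

section Series

/-- A function of two variables which is a sum of products, with its double series. -/
def LC6_P (F : ℂ → ℂ → ℂ) (G : R2) : Prop :=
  ∃ (n : ℕ) (a b : Fin n → ℂ → ℂ), (∀ l, AnalyticAt ℂ (a l) 0) ∧ (∀ l, AnalyticAt ℂ (b l) 0) ∧
    (∀ u w, F u w = ∑ l, a l u * b l w) ∧ ∀ p q, cf a b p q = co p q G

theorem LC6_co (f g : PowerSeries ℂ) (p q : ℕ) :
    co p q (inz f * inw g) = PowerSeries.coeff p f * PowerSeries.coeff q g := by
  simp [co, inz, inw, PowerSeries.coeff_C_mul, PowerSeries.coeff_mul_C]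

theorem LC6_zero : LC6_P (fun _ _ => 0) 0 :=
  ⟨0, Fin.elim0, Fin.elim0, fun l => l.elim0, fun l => l.elim0, fun _ _ => by simp,
    fun p q => by simp [cf, co]⟩

theorem LC6_one {a b : ℂ → ℂ} (ha : AnalyticAt ℂ a 0) (hb : AnalyticAt ℂ b 0) :
    LC6_P (fun u w => a u * b w) (inz (tay 0 a) * inw (tay 0 b)) :=
  ⟨1, fun _ => a, fun _ => b, fun _ => ha, fun _ => hb, fun _ _ => by simp,
    fun p q => by simp [cf, LC6_co]⟩

theorem LC6_add {F F' : ℂ → ℂ → ℂ} {G G' : R2} (h : LC6_P F G) (h' : LC6_P F' G') :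
    LC6_P (fun u w => F u w + F' u w) (G + G') := by
  obtain ⟨n, a, b, ha, hb, hF, hG⟩ := h
  obtain ⟨n', a', b', ha', hb', hF', hG'⟩ := h'
  refine ⟨n + n', Fin.addCases a a', Fin.addCases b b', fun l => ?_, fun l => ?_, fun u w => ?_,
    fun p q => ?_⟩
  · refine Fin.addCases (fun i => ?_) (fun i => ?_) l
    · simpa using ha i
    · simpa using ha' i
  · refine Fin.addCases (fun i => ?_) (fun i => ?_) l
    · simpa using hb i
    · simpa using hb' i
  · rw [Fin.sum_univ_add]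
    simp only [Fin.addCases_left, Fin.addCases_right]
    rw [hF, hF']
  · have e : co p q (G + G') = co p q G + co p q G' := by simp [co]
    rw [e, ← hG, ← hG', cf, Fin.sum_univ_add]
    simp only [Fin.addCases_left, Fin.addCases_right]
    rfl

theorem LC6_sum {ι : Type*} (s : Finset ι) {F : ι → ℂ → ℂ → ℂ} {G : ι → R2}
    (h : ∀ i ∈ s, LC6_P (F i) (G i)) :
    LC6_P (fun u w => ∑ i ∈ s, F i u w) (∑ i ∈ s, G i) := by
  classical
  induction s using Finset.induction_on with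
  | empty => simpa using LC6_zero
  | insert i s hi ih =>
    simp only [Finset.sum_insert hi]
    exact LC6_add (h i (Finset.mem_insert_self i s))
      (ih fun j hj => h j (Finset.mem_insert_of_mem hj))

theorem LC6_pow {f : ℂ → ℂ} (hf : AnalyticAt ℂ f 0) (n : ℕ) :
    tay 0 (fun z => f z ^ n) = tay 0 f ^ n := by
  induction n with
  | zero => simpa using tay_const 0 1
  | succ n ih =>
    simp only [pow_succ]
    have h : AnalyticAt ℂ (fun z => f z ^ n) 0 := hf.pow n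
    rw [tay_mul h hf, ih]

/-- `gco` of functions of two variables as a sum of products. -/
theorem gco_products (k : ℕ) {T T' : ℂ → ℂ} {W W' : Fin (k + 1) → ℂ → ℂ} (hT : AnalyticAt ℂ T 0)
    (hT' : AnalyticAt ℂ T' 0) (hW : ∀ j, AnalyticAt ℂ (W j) 0) (hW' : ∀ j, AnalyticAt ℂ (W' j) 0)
    (i : ℕ) : ∃ (n : ℕ) (a b : Fin n → ℂ → ℂ), (∀ l, AnalyticAt ℂ (a l) 0) ∧
      (∀ l, AnalyticAt ℂ (b l) 0) ∧
      (∀ u w, gco k (T u) (T' w) (fun j => W j u - W' j w) i = ∑ l, a l u * b l w) ∧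
      ∀ p q, cf a b p q = co p q (gcoR k (inz (tay 0 T)) (inw (tay 0 T'))
        (fun j => inz (tay 0 (W j)) - inw (tay 0 (W' j))) i) := by
  change LC6_P (fun u w => gco k (T u) (T' w) (fun j => W j u - W' j w) i)
    (gcoR k (inz (tay 0 T)) (inw (tay 0 T')) (fun j => inz (tay 0 (W j)) - inw (tay 0 (W' j))) i)
  simp only [gco_eq_gcoR, gcoR_eq_sum]
  refine LC6_sum _ fun m _ => LC6_sum _ fun e _ => ?_
  have hTp : AnalyticAt ℂ (fun z => T z ^ ((m : ℕ) - e)) 0 := hT.pow _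
  have hTp' : AnalyticAt ℂ (fun z => T' z ^ e) 0 := hT'.pow _
  have hWp : AnalyticAt ℂ (fun z => W m z * T z ^ ((m : ℕ) - e)) 0 := (hW m).mul hTp
  have hWp' : AnalyticAt ℂ (fun z => W' m z * T' z ^ e) 0 := (hW' m).mul hTp'
  have h1 := LC6_one (a := fun z => (cg k m e i : ℂ) * (W m z * T z ^ ((m : ℕ) - e)))
    (b := fun z => T' z ^ e) (analyticAt_const.mul hWp) hTp'
  have h2 := LC6_one (a := fun z => (-(cg k m e i) : ℂ) * T z ^ ((m : ℕ) - e))
    (b := fun z => W' m z * T' z ^ e) (analyticAt_const.mul hTp) hWp'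
  have h3 := LC6_add h1 h2
  rw [tay_mul analyticAt_const hWp, tay_mul (hW m) hTp, LC6_pow hT, LC6_pow hT', tay_const,
    tay_mul analyticAt_const hTp, LC6_pow hT, tay_const, tay_mul (hW' m) hTp', LC6_pow hT'] at h3
  have e1 : inz (PowerSeries.C (cg k m e i : ℂ)) = ((cg k m e i : ℤ) : R2) := by
    rw [map_intCast, map_intCast]
  have e2 : inz (PowerSeries.C (-(cg k m e i) : ℂ)) = -((cg k m e i : ℤ) : R2) := by
    rw [map_neg, map_neg, e1]
  simp only [map_mul, map_pow, e1, e2] at h3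
  convert h3 using 1
  · funext u w; ring
  · ring

theorem LC7_frm {A : Type*} [CommRing A] (k : ℕ) (s : A) (j : ℕ) (h : j < k + 1) :
    frm k s s k ⟨j, h⟩ = (-s) ^ (k - j) * (k.choose j : A) := by
  simp only [frm, Nat.sub_self, pow_zero, mul_one]
  have : (X - C s : A[X]) = X + C (-s) := by rw [C_neg]; ring
  rw [this, Polynomial.coeff_X_add_C_pow]

theorem LC7_pow {f : ℂ → ℂ} (hf : AnalyticAt ℂ f 0) (n : ℕ) :
    tay 0 (fun z => f z ^ n) = tay 0 f ^ n := by
  induction n with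
  | zero => simpa using tay_const 0 1
  | succ n ih =>
    simp only [pow_succ]
    have h : AnalyticAt ℂ (fun z => f z ^ n) 0 := hf.pow n
    rw [tay_mul h hf, ih]

theorem LC7_der {A : Type*} [CommRing A] (φ : A → A) (h0 : ∀ a b, φ (a + b) = φ a + φ b)
    (h1 : ∀ a b, φ (a * b) = a * φ b + b * φ a) : ∃ D : Derivation ℤ A A, ∀ x, D x = φ x := by
  refine ⟨Derivation.mk' (AddMonoidHom.toIntLinearMap (AddMonoidHom.mk' φ h0)) fun a b => ?_,
    fun x => rfl⟩
  change φ (a * b) = a • φ b + b • φ a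
  rw [h1]; rfl

theorem LC7_zero (f : ℂ → ℂ) : PowerSeries.coeff 0 (tay 0 f) = f 0 := by
  simp [tay]

theorem LC7_cc {f : ℂ → ℂ} (hf : AnalyticAt ℂ f 0) : AnalyticAt ℂ (cc f) 0 := by
  rw [Complex.analyticAt_iff_eventually_differentiableAt] at hf ⊢
  have hc : Tendsto (fun z : ℂ => conj z) (𝓝 0) (𝓝 0) := by
    have := Complex.continuous_conj.tendsto (0 : ℂ)
    rwa [map_zero] at this
  filter_upwards [hc.eventually hf] with z hz
  have := hz.conj_conj
  rw [Complex.conj_conj] at this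
  exact this

theorem LC7_cc_deriv (f : ℂ → ℂ) : deriv (cc f) = cc (deriv f) := deriv_conj_conj

/-- Data satisfying the transversality condition, as series. -/
theorem LC7_main {k : ℕ} {T : ℂ → ℂ} {W : Fin (k + 1) → ℂ → ℂ} (hT : AnalyticAt ℂ T 0)
    (hW : ∀ j, AnalyticAt ℂ (W j) 0)
    (h : ∀ᶠ u in 𝓝 (0 : ℂ), ∃ g : ℂ, ∀ j, deriv (W j) u = g * frm k (T u) (T u) k j)
    (j : Fin (k + 1)) : PowerSeries.derivative ℂ (tay 0 (W j)) =
      PowerSeries.derivative ℂ (tay 0 (W (Fin.last k))) *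
        ((-tay 0 T) ^ (k - (j : ℕ)) * ((k.choose j : ℕ) : PowerSeries ℂ)) := by
  rw [← tay_deriv, ← tay_deriv]
  have h1 : ∀ᶠ u in 𝓝 (0 : ℂ), deriv (W j) u =
      deriv (W (Fin.last k)) u * ((((-1) ^ (k - (j : ℕ)) * (k.choose j : ℂ))) *
        T u ^ (k - (j : ℕ))) := by
    filter_upwards [h] with u ⟨g, hg⟩
    have e1 := hg (Fin.last k)
    have e2 := hg j
    rw [show (Fin.last k) = ⟨k, Nat.lt_succ_self k⟩ from rfl, LC7_frm, Nat.sub_self, pow_zero,
      Nat.choose_self, Nat.cast_one, mul_one, mul_one] at e1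
    rw [show j = ⟨(j : ℕ), j.2⟩ from rfl, LC7_frm, ← e1, neg_pow] at e2
    rw [show j = ⟨(j : ℕ), j.2⟩ from rfl, e2,
      show (Fin.last k) = ⟨k, Nat.lt_succ_self k⟩ from rfl]
    ring
  have hTp : AnalyticAt ℂ (fun z => T z ^ (k - (j : ℕ))) 0 := hT.pow _
  have hc : AnalyticAt ℂ (fun z => ((-1) ^ (k - (j : ℕ)) * (k.choose j : ℂ)) *
    T z ^ (k - (j : ℕ))) 0 := analyticAt_const.mul hTp
  rw [tay_congr h1, tay_mul (hW (Fin.last k)).deriv hc, tay_mul analyticAt_const hTp, tay_const,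
    LC7_pow hT, neg_pow (tay 0 T)]
  simp only [map_mul, map_pow, map_neg, map_one, map_natCast]
  ring

/-- The formal equation for the local data. -/
theorem LocD.formal {k : ℕ} {T : ℂ → ℂ} {W : Fin (k + 1) → ℂ → ℂ} (H : LocD k T W)
    {Dz Dw : Derivation ℤ R2 R2} (hD : Pder Dz Dw) {i : ℕ} (hi : i ≤ k) {G : R2}
    (hG : G = gcoR k (inz (tay 0 T)) (inw (tay 0 (cc T)))
        (fun j => inz (tay 0 (W j)) - inw (tay 0 (cc (W j)))) i) :
    co 0 0 (inz (tay 0 T) - inw (tay 0 (cc T))) ≠ 0 ∧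
    (inz (tay 0 T) - inw (tay 0 (cc T))) * Dz (Dw G) =
      ((k - i : ℕ) : R2) * Dz (inz (tay 0 T)) * Dw G +
        (-((i : R2) * Dw (inw (tay 0 (cc T))))) * Dz G := by
  have h0 : co 0 0 (inz (tay 0 T) - inw (tay 0 (cc T))) ≠ 0 := by
    have e : co 0 0 (inz (tay 0 T) - inw (tay 0 (cc T))) = T 0 - conj (T 0) := by
      have e1 : co 0 0 (inz (tay 0 T)) = T 0 := by
        simp only [co, inz, PowerSeries.coeff_zero_C]
        exact LC7_zero T
      have e2 : co 0 0 (inw (tay 0 (cc T))) = conj (T 0) := by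
        simp only [co, inw, PowerSeries.coeff_map, PowerSeries.coeff_zero_C]
        rw [LC7_zero, cc, map_zero]
      rw [← e2, ← e1]
      simp only [co, map_sub]
    rw [e, sub_ne_zero]
    intro h
    have h1 := H.T_im
    have h2 := congrArg Complex.im h
    rw [Complex.conj_im] at h2
    linarith
  refine ⟨h0, ?_⟩
  have hu : IsUnit (inz (tay 0 T) - inw (tay 0 (cc T))) := by
    rw [PowerSeries.isUnit_iff_constantCoeff, PowerSeries.isUnit_iff_constantCoeff]
    refine isUnit_iff_ne_zero.mpr ?_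
    rw [← PowerSeries.coeff_zero_eq_constantCoeff_apply,
      ← PowerSeries.coeff_zero_eq_constantCoeff_apply]
    exact h0
  obtain ⟨ri, hri⟩ := hu.exists_right_inv
  obtain ⟨f, hf0, hf⟩ := frm_span k hu (fun j => inz (tay 0 (W j)) - inw (tay 0 (cc (W j))))
  have hcT := LC7_cc H.T_an
  have hcW : ∀ j, AnalyticAt ℂ (cc (W j)) 0 := fun j => LC7_cc (H.W_an j)
  have htr : ∀ᶠ u in 𝓝 (0 : ℂ), ∃ g : ℂ, ∀ j, deriv (cc (W j)) u =
      g * frm k (cc T u) (cc T u) k j := by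
    have hc : Tendsto (fun z : ℂ => conj z) (𝓝 0) (𝓝 0) := by
      have := Complex.continuous_conj.tendsto (0 : ℂ)
      rwa [map_zero] at this
    filter_upwards [hc.eventually H.trans] with u ⟨g, hg⟩
    refine ⟨conj g, fun j => ?_⟩
    rw [LC7_cc_deriv, cc, hg j, map_mul, show j = ⟨(j : ℕ), j.2⟩ from rfl, LC7_frm, LC7_frm]
    simp [cc]
  obtain ⟨Ez, hEz⟩ := LC7_der (fun x => Dz x) (fun a b => map_add Dz a b)
    (fun a b => Dz.leibniz a b)
  obtain ⟨Ew, hEw⟩ := LC7_der (fun x => Dw x) (fun a b => map_add Dw a b)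
    (fun a b => Dw.leibniz a b)
  have key := epd k hri Ez Ew (fun u => by rw [hEw, hEz, hEz, hEw]; exact hD.comm u)
    ((hEw _).trans (hD.wz _)) ((hEz _).trans (hD.zw _))
    (V := fun j => inz (tay 0 (W j))) (V' := fun j => inw (tay 0 (cc (W j))))
    (g := inz (PowerSeries.derivative ℂ (tay 0 (W (Fin.last k)))))
    (g' := inw (PowerSeries.derivative ℂ (tay 0 (cc (W (Fin.last k))))))
    (fun j => by
      rw [hEz]
      change Dz _ = _
      rw [hD.zz, LC7_main H.T_an H.W_an H.trans j, show j = ⟨(j : ℕ), j.2⟩ from rfl, LC7_frm]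
      simp only [map_mul, map_pow, map_neg, map_natCast])
    (fun j => (hEw _).trans (hD.wz _))
    (fun j => by
      rw [hEw]
      change Dw _ = _
      rw [hD.ww, LC7_main hcT hcW htr j, show j = ⟨(j : ℕ), j.2⟩ from rfl, LC7_frm]
      simp only [map_mul, map_pow, map_neg, map_natCast])
    (fun j => (hEz _).trans (hD.zw _)) ((hEw _).trans (hD.wz _)) ((hEz _).trans (hD.zw _)) (hf0 (k + 1) (Nat.lt_succ_self k)) hf hi
  have hG' : G = (inz (tay 0 T) - inw (tay 0 (cc T))) ^ k * f i := by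
    rw [hG, gcoR_frm k hf hi]
  rw [← hG'] at key
  simp only [hEz, hEw] at key
  rw [key]
  ring

theorem LC8_pow {f : ℂ → ℂ} (hf : AnalyticAt ℂ f 0) (n : ℕ) :
    tay 0 (fun z => f z ^ n) = tay 0 f ^ n := by
  induction n with
  | zero =>
    simp only [pow_zero]
    rw [tay_const, map_one]
  | succ n ih =>
    have h1 : (fun z => f z ^ (n + 1)) = fun z => f z ^ n * f z := by
      funext z
      rw [pow_succ]
    have h2 : AnalyticAt ℂ (fun z => f z ^ n) 0 := hf.pow n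
    rw [h1, tay_mul h2 hf, ih, pow_succ]

theorem LC8_neg {f : ℂ → ℂ} (hf : AnalyticAt ℂ f 0) :
    tay 0 (fun z => -f z) = -tay 0 f := by
  have h1 : (fun z => -f z) = fun z => (-1 : ℂ) * f z := by
    funext z
    ring
  rw [h1, tay_mul analyticAt_const hf, tay_const]
  simp

theorem LC8_frm {R : Type*} [CommRing R] (k : ℕ) (s t : R) (j : Fin (k + 1)) :
    frm k s t k j = (-s) ^ (k - (j : ℕ)) * (k.choose j : R) := by
  unfold frm
  rw [Nat.sub_self, pow_zero, mul_one, sub_eq_add_neg, ← Polynomial.C_neg,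
    Polynomial.coeff_X_add_C_pow]

theorem LC8_nat (n : ℕ) : ((n + 1 : ℕ) : R2) ≠ 0 := by
  intro h
  have h1 := congrArg (fun f : R2 => PowerSeries.constantCoeff (PowerSeries.constantCoeff f)) h
  simp only [map_natCast, map_zero] at h1
  exact Nat.cast_ne_zero.2 (Nat.succ_ne_zero n) h1

theorem LC8_ext {f : R2} (h : ∀ p q, co p q f = 0) : f = 0 := by
  apply PowerSeries.ext
  intro q
  apply PowerSeries.ext
  intro p
  rw [map_zero, map_zero]
  exact h p q

theorem LC8_inz {f : PowerSeries ℂ} (h : inz f = 0) : f = 0 := by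
  have h1 := congrArg (fun f : R2 => PowerSeries.constantCoeff f) h
  simp only [map_zero] at h1
  unfold inz at h1
  rw [PowerSeries.constantCoeff_C] at h1
  exact h1

theorem LC8_tay {f : ℂ → ℂ} (hf : AnalyticAt ℂ f 0) (h : ∀ᶠ u in 𝓝[≠] (0 : ℂ), f u ≠ 0) :
    inz (tay 0 f) ≠ 0 := by
  intro h0
  have h1 := (tay_eq_zero hf).1 (LC8_inz h0)
  have h2 : ∀ᶠ u in 𝓝[≠] (0 : ℂ), f u = 0 := nhdsWithin_le_nhds h1
  obtain ⟨u, hu1, hu2⟩ := (h.and h2).exists
  exact hu1 hu2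

theorem LC8_conv {R : Type*} [CommRing R] (a : R → R) (h1 : ∀ x y, a (x + y) = a x + a y)
    (h2 : ∀ x y, a (x * y) = x * a y + y * a x) : ∃ D : Derivation ℤ R R, ∀ x, D x = a x := by
  refine ⟨Derivation.mk' (AddMonoidHom.mk' a h1).toIntLinearMap ?_, fun x => rfl⟩
  intro x y
  exact h2 x y

/-- The derivative of the extension period as a series. -/
theorem LC8_W {k : ℕ} {T : ℂ → ℂ} {W : Fin (k + 1) → ℂ → ℂ} (H : LocD k T W)
    (j : Fin (k + 1)) :
    PowerSeries.derivative ℂ (tay 0 (W j)) = tay 0 (deriv (W (Fin.last k))) *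
      ((-tay 0 T) ^ (k - (j : ℕ)) * (k.choose j : PowerSeries ℂ)) := by
  have hT := H.T_an
  have hg := (H.W_an (Fin.last k)).deriv
  have h1 : ∀ᶠ u in 𝓝 (0 : ℂ), deriv (W j) u = deriv (W (Fin.last k)) u *
      ((-T u) ^ (k - (j : ℕ)) * (k.choose j : ℂ)) := by
    filter_upwards [H.trans] with u hu
    obtain ⟨g, hg⟩ := hu
    have h2 := hg (Fin.last k)
    rw [LC8_frm] at h2
    simp only [Fin.val_last, Nat.sub_self, pow_zero, Nat.choose_self, Nat.cast_one, mul_one] at h2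
    rw [h2, hg j, LC8_frm]
  have a1 : AnalyticAt ℂ (fun z => -T z) 0 := hT.neg
  have a2 : AnalyticAt ℂ (fun z => (-T z) ^ (k - (j : ℕ))) 0 := a1.pow _
  have a3 : AnalyticAt ℂ (fun _ : ℂ => (k.choose j : ℂ)) 0 := analyticAt_const
  have a4 : AnalyticAt ℂ (fun z => (-T z) ^ (k - (j : ℕ)) * (k.choose j : ℂ)) 0 := a2.mul a3
  rw [← tay_deriv, tay_congr h1, tay_mul hg a4, tay_mul a2 a3, LC8_pow a1, LC8_neg hT, tay_const,
    map_natCast]

/-- The series is not zero. -/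
theorem LocD.ne_zero {k : ℕ} {T : ℂ → ℂ} {W : Fin (k + 1) → ℂ → ℂ} (H : LocD k T W) {i : ℕ}
    (hi : i ≤ k) : ∃ p q, co p q (gcoR k (inz (tay 0 T)) (inw (tay 0 (cc T)))
        (fun j => inz (tay 0 (W j)) - inw (tay 0 (cc (W j)))) i) ≠ 0 := by
  by_contra hcon
  push Not at hcon
  obtain ⟨Dz, Dw, hD⟩ := exists_pder
  have hu := (H.formal hD hi rfl).1
  set s : R2 := inz (tay 0 T) with hs
  set t : R2 := inw (tay 0 (cc T)) with ht
  have hunit : IsUnit (s - t) := by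
    rw [PowerSeries.isUnit_iff_constantCoeff, PowerSeries.isUnit_iff_constantCoeff,
      isUnit_iff_ne_zero]
    unfold co at hu
    rw [PowerSeries.coeff_zero_eq_constantCoeff_apply,
      PowerSeries.coeff_zero_eq_constantCoeff_apply] at hu
    exact hu
  obtain ⟨ri, hri⟩ := hunit.exists_right_inv
  obtain ⟨f, hf0, hf⟩ := frm_span k hunit
    (fun j => inz (tay 0 (W j)) - inw (tay 0 (cc (W j))))
  have hfi : f i = 0 := by
    have h1 := gcoR_frm k hf hi
    rw [LC8_ext hcon] at h1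
    rcases mul_eq_zero.1 h1.symm with h2 | h2
    · exact absurd h2 (hunit.pow k).ne_zero
    · exact h2
  have hc : ∀ j : Fin (k + 1), Dz (inz (tay 0 (W j)) - inw (tay 0 (cc (W j))))
      = ∑ l ∈ Finset.range (k + 1),
        (if l = k then inz (tay 0 (deriv (W (Fin.last k)))) else 0) * frm k s t l j := by
    intro j
    rw [Finset.sum_eq_single k]
    · rw [if_pos rfl, map_sub, hD.zz, hD.zw, sub_zero, LC8_W H, LC8_frm, map_mul, map_mul,
        map_pow, map_neg, map_natCast]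
    · intro l _ hl
      rw [if_neg hl, zero_mul]
    · intro h
      exact absurd (Finset.mem_range.2 (Nat.lt_succ_self k)) h
  obtain ⟨D', hD'⟩ := LC8_conv (fun x : R2 => Dz x) (fun x y => map_add Dz x y)
    (fun x y => Dz.leibniz x y)
  simp only [← hD'] at hc
  have hder := fun (j : ℕ) (hj : j ≤ k) =>
    frm_deriv k hri D' (hf0 (k + 1) (Nat.lt_succ_self k)) hf hc hj
  simp only [hD'] at hder
  have hDt : Dz t = 0 := hD.zw _
  have hDs : Dz s ≠ 0 := by
    rw [hs, hD.zz, ← tay_deriv]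
    exact LC8_tay H.T_an.deriv H.T_nc
  have hrne : ri ≠ 0 := by
    intro h
    rw [h, mul_zero] at hri
    exact zero_ne_one hri
  have hstep : ∀ j, i ≤ j → j ≤ k → f j = 0 := by
    intro j hij
    induction j, hij using Nat.le_induction with
    | base => exact fun _ => hfi
    | succ j hij ih =>
      intro hjk
      have h1 := hder j (by omega)
      have hj0 := ih (by omega)
      rw [hDt, hj0, if_neg (by omega : ¬ j = k)] at h1
      simp only [map_zero, zero_mul, mul_zero, sub_zero, add_zero, zero_add] at h1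
      rcases mul_eq_zero.1 h1.symm with h2 | h2
      · rcases mul_eq_zero.1 h2 with h3 | h3
        · exact absurd h3 hDs
        · exact absurd h3 hrne
      · rcases mul_eq_zero.1 h2 with h3 | h3
        · exact absurd h3 (LC8_nat j)
        · exact h3
  have hk := hder k le_rfl
  rw [hDt, hstep k hi le_rfl, if_pos rfl, hf0 (k + 1) (Nat.lt_succ_self k)] at hk
  simp only [map_zero, zero_mul, mul_zero, sub_zero, add_zero] at hk
  exact LC8_tay (H.W_an (Fin.last k)).deriv H.W_nc hk.symm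

end Series

/-! ## Arcs -/

section Arcs

theorem LC9_tay {f : ℂ → ℂ} {p : FormalMultilinearSeries ℂ ℂ ℂ} (h : HasFPowerSeriesAt f p 0)
    (n : ℕ) : PowerSeries.coeff n (tay 0 f) = p.coeff n := by
  have h1 := h.analyticAt.hasFPowerSeriesAt
  rw [← h1.eq_formalMultilinearSeries h]
  simp [tay, FormalMultilinearSeries.coeff_ofScalars]

theorem LC9_zero (f : ℂ → ℂ) : PowerSeries.coeff 0 (tay 0 f) = f 0 := by
  simp [tay]

theorem LC9_step {f : ℂ → ℂ} (hf : AnalyticAt ℂ f 0) : AnalyticAt ℂ (dslope f 0) 0 ∧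
    (∀ n, PowerSeries.coeff n (tay 0 (dslope f 0)) = PowerSeries.coeff (n + 1) (tay 0 f)) ∧
    ∀ u, f u = f 0 + u * dslope f 0 u := by
  obtain ⟨p, hp⟩ := hf
  have h2 := hp.has_fpower_series_dslope_fslope
  refine ⟨h2.analyticAt, fun n => ?_, fun u => ?_⟩
  · rw [LC9_tay h2, LC9_tay hp, FormalMultilinearSeries.coeff_fslope]
  · have := sub_smul_dslope f 0 u
    rw [sub_zero, smul_eq_mul] at this
    rw [this]; ring

theorem LC9_rem (n : ℕ) : ∀ {f : ℂ → ℂ}, AnalyticAt ℂ f 0 → ∃ r : ℂ → ℂ, AnalyticAt ℂ r 0 ∧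
    r 0 = PowerSeries.coeff n (tay 0 f) ∧
    ∀ u, f u = ∑ p ∈ Finset.range n, PowerSeries.coeff p (tay 0 f) * u ^ p + u ^ n * r u := by
  induction n with
  | zero => exact fun {f} hf => ⟨f, hf, (LC9_zero f).symm, fun u => by simp⟩
  | succ n ih =>
    intro f hf
    obtain ⟨h1, h2, h3⟩ := LC9_step hf
    obtain ⟨r, hr, hr0, hru⟩ := ih h1
    refine ⟨r, hr, by rw [hr0, h2], fun u => ?_⟩
    rw [h3 u, hru u, Finset.sum_range_succ', LC9_zero, mul_add, Finset.mul_sum]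
    simp only [h2]
    have : ∀ x : ℕ, u * (PowerSeries.coeff (x + 1) (tay 0 f) * u ^ x) =
        PowerSeries.coeff (x + 1) (tay 0 f) * u ^ (x + 1) := fun x => by ring
    simp only [this]
    ring

/-- Blowing up the origin. -/
theorem blowup {n : ℕ} {a b : Fin n → ℂ → ℂ} (ha : ∀ l, AnalyticAt ℂ (a l) 0)
    (hb : ∀ l, AnalyticAt ℂ (b l) 0) {d : ℕ} (hlow : ∀ p q, p + q < d → cf a b p q = 0) :
    ∃ Φ : ℂ × ℂ → ℂ, (∀ t : ℂ, AnalyticAt ℂ Φ (0, t)) ∧
      (∀ t : ℂ, Φ (0, t) = ∑ q ∈ Finset.range (d + 1), cf a b (d - q) q * t ^ q) ∧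
      ∀ R : ℝ, ∀ᶠ u in 𝓝 (0 : ℂ), ∀ t : ℂ, ‖t‖ ≤ R →
        ∑ l, a l u * b l (u * t) = u ^ d * Φ (u, t) := by
  choose s hs hs0 hsu using fun l => LC9_rem d (ha l)
  choose r hr hr0 hru using fun (l : Fin n) (m : ℕ) => LC9_rem m (hb l)
  refine ⟨fun x => ∑ l, s l x.1 * b l (x.1 * x.2) + ∑ l, ∑ p ∈ Finset.range d,
    PowerSeries.coeff p (tay 0 (a l)) * x.2 ^ (d - p) * r l (d - p) (x.1 * x.2), fun t => ?_,
    fun t => ?_, fun R => Filter.Eventually.of_forall fun u t _ => ?_⟩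
  · have hm : AnalyticAt ℂ (fun x : ℂ × ℂ => x.1 * x.2) (0, t) := analyticAt_fst.mul analyticAt_snd
    have hc : ∀ g : ℂ → ℂ, AnalyticAt ℂ g 0 →
        AnalyticAt ℂ (fun x : ℂ × ℂ => g (x.1 * x.2)) (0, t) := fun g hg =>
      AnalyticAt.fun_comp (g := g) (f := fun x : ℂ × ℂ => x.1 * x.2) (by simpa using hg) hm
    have hc1 : ∀ g : ℂ → ℂ, AnalyticAt ℂ g 0 →
        AnalyticAt ℂ (fun x : ℂ × ℂ => g x.1) (0, t) := fun g hg =>
      AnalyticAt.fun_comp (g := g) (f := fun x : ℂ × ℂ => x.1) hg analyticAt_fst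
    refine AnalyticAt.add (Finset.analyticAt_fun_sum _ fun l _ => ?_)
      (Finset.analyticAt_fun_sum _ fun l _ => Finset.analyticAt_fun_sum _ fun p _ => ?_)
    · exact (hc1 _ (hs l)).mul (hc _ (hb l))
    · exact (analyticAt_const.mul (analyticAt_snd.pow _)).mul (hc _ (hr l (d - p)))
  · simp only [zero_mul]
    rw [Finset.sum_range_succ', Finset.sum_comm,
      ← Finset.sum_range_reflect (fun j => ∑ l, PowerSeries.coeff j (tay 0 (a l)) * t ^ (d - j) *
        r l (d - j) 0) d, add_comm]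
    congr 1
    · refine Finset.sum_congr rfl fun q hq => ?_
      have hq' := Finset.mem_range.mp hq
      have e1 : d - (q + 1) = d - 1 - q := by omega
      have e2 : d - (d - 1 - q) = q + 1 := by omega
      rw [cf, Finset.sum_mul, e1, e2]
      refine Finset.sum_congr rfl fun l _ => ?_
      rw [hr0]; ring
    · rw [cf, Finset.sum_mul]
      refine Finset.sum_congr rfl fun l _ => ?_
      rw [hs0, LC9_zero]; simp
  · have h1 : ∀ l, a l u * b l (u * t) = u ^ d * (s l u * b l (u * t)) +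
        ∑ p ∈ Finset.range d, PowerSeries.coeff p (tay 0 (a l)) * u ^ p * b l (u * t) := fun l => by
      rw [hsu l u, add_mul, Finset.sum_mul]; ring
    have h2 : ∀ l, ∀ p ∈ Finset.range d,
        PowerSeries.coeff p (tay 0 (a l)) * u ^ p * b l (u * t) =
        (∑ q ∈ Finset.range (d - p), PowerSeries.coeff p (tay 0 (a l)) *
          PowerSeries.coeff q (tay 0 (b l)) * (u ^ p * (u * t) ^ q)) +
        u ^ d * (PowerSeries.coeff p (tay 0 (a l)) * t ^ (d - p) * r l (d - p) (u * t)) := by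
      intro l p hp
      have hp' := Finset.mem_range.mp hp
      conv_lhs => rw [hru l (d - p) (u * t)]
      have e : u ^ d = u ^ p * u ^ (d - p) := by rw [← pow_add]; congr 1; omega
      rw [mul_add, Finset.mul_sum, e, mul_pow u t (d - p)]
      congr 1
      · exact Finset.sum_congr rfl fun q _ => by ring
      · ring
    have h3 : ∑ l, ∑ p ∈ Finset.range d, ∑ q ∈ Finset.range (d - p),
        PowerSeries.coeff p (tay 0 (a l)) *
          PowerSeries.coeff q (tay 0 (b l)) * (u ^ p * (u * t) ^ q) = 0 := by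
      rw [Finset.sum_comm]
      refine Finset.sum_eq_zero fun p hp => ?_
      rw [Finset.sum_comm]
      refine Finset.sum_eq_zero fun q hq => ?_
      have hp' := Finset.mem_range.mp hp
      have hq' := Finset.mem_range.mp hq
      rw [← Finset.sum_mul]
      have := hlow p q (by omega)
      rw [cf] at this
      rw [this, zero_mul]
    calc ∑ l, a l u * b l (u * t)
        = ∑ l, (u ^ d * (s l u * b l (u * t)) + ∑ p ∈ Finset.range d,
          ((∑ q ∈ Finset.range (d - p), PowerSeries.coeff p (tay 0 (a l)) *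
            PowerSeries.coeff q (tay 0 (b l)) * (u ^ p * (u * t) ^ q)) +
          u ^ d * (PowerSeries.coeff p (tay 0 (a l)) * t ^ (d - p) * r l (d - p) (u * t)))) := by
          refine Finset.sum_congr rfl fun l _ => ?_
          rw [h1 l, Finset.sum_congr rfl (h2 l)]
      _ = _ := by
          simp only [Finset.sum_add_distrib]
          rw [h3, zero_add]
          simp only [Finset.mul_sum, mul_add]

/-- The analytic implicit function theorem in two variables. -/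
theorem implicit {Φ : ℂ × ℂ → ℂ} {t₀ : ℂ} (hΦ : AnalyticAt ℂ Φ (0, t₀)) (h0 : Φ (0, t₀) = 0)
    (hd : deriv (fun t => Φ (0, t)) t₀ ≠ 0) :
    ∃ τ : ℂ → ℂ, AnalyticAt ℂ τ 0 ∧ τ 0 = t₀ ∧ (∀ᶠ u in 𝓝 (0 : ℂ), Φ (u, τ u) = 0) ∧
      ∀ᶠ x in 𝓝 ((0 : ℂ), t₀), Φ x = 0 → x.2 = τ x.1 := by
  have cdf : ContDiffAt ℂ ⊤ Φ ((0 : ℂ), t₀) := hΦ.contDiffAt
  have pn : (⊤ : WithTop ℕ∞) ≠ 0 := by simp
  have h1 : HasDerivAt (fun t : ℂ => ((0 : ℂ), t)) ((0 : ℂ), (1 : ℂ)) t₀ :=
    (hasDerivAt_const t₀ (0 : ℂ)).prodMk (hasDerivAt_id t₀)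
  have h2 : HasDerivAt (fun t : ℂ => Φ (0, t)) (fderiv ℂ Φ (0, t₀) ((0 : ℂ), (1 : ℂ))) t₀ :=
    HasFDerivAt.comp_hasDerivAt t₀ (hΦ.differentiableAt.hasFDerivAt) h1
  rw [h2.deriv] at hd
  have if₂ : (fderiv ℂ Φ ((0 : ℂ), t₀) ∘L .inr ℂ ℂ ℂ).IsInvertible := by
    refine ⟨ContinuousLinearEquiv.unitsEquivAut ℂ (Units.mk0 _ hd), ?_⟩
    ext
    simp
  refine ⟨cdf.implicitFunction pn if₂, ?_, cdf.implicitFunction_apply_self pn if₂, ?_, ?_⟩
  · exact (cdf.contDiffAt_implicitFunction pn if₂).analyticAt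
  · have h3 := cdf.eventually_apply_implicitFunction pn if₂
    simp only [h0] at h3
    exact h3
  · have h4 := cdf.eventually_apply_eq_iff_implicitFunction pn if₂
    filter_upwards [h4] with x hx hx0
    rw [h0] at hx
    exact (hx.1 hx0).symm

/-- A sequence of antidiagonal zeros lies on an analytic arc. -/
theorem exists_arc {n : ℕ} {a b : Fin n → ℂ → ℂ} (ha : ∀ l, AnalyticAt ℂ (a l) 0)
    (hb : ∀ l, AnalyticAt ℂ (b l) 0)
    (hform : ∀ d, (∀ p q, p + q < d → cf a b p q = 0) →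
      ∀ p q, p + q = d → 0 < p → 0 < q → cf a b p q = 0)
    (hne : ∃ p q, cf a b p q ≠ 0)
    (hz : ∃ᶠ u in 𝓝[≠] (0 : ℂ), ∑ l, a l u * b l (conj u) = 0) :
    ∃ S : ℂ → ℂ, AnalyticAt ℂ S 0 ∧ S 0 = 0 ∧ deriv S 0 ≠ 0 ∧
      (∀ᶠ u in 𝓝 (0 : ℂ), ∑ l, a l u * b l (S u) = 0) ∧
      ∃ᶠ u in 𝓝[≠] (0 : ℂ), conj u = S u ∧ ∑ l, a l u * b l (conj u) = 0 := by
  classical
  have hex : ∃ d, ∃ p q, p + q = d ∧ cf a b p q ≠ 0 := by
    obtain ⟨p, q, h⟩ := hne
    exact ⟨p + q, p, q, rfl, h⟩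
  obtain ⟨d, ⟨p0, q0, hpq, hc⟩, hmin⟩ :
      ∃ d, (∃ p q, p + q = d ∧ cf a b p q ≠ 0) ∧ ∀ p q, p + q < d → cf a b p q = 0 := by
    refine ⟨Nat.find hex, Nat.find_spec hex, ?_⟩
    intro p q hlt
    by_contra hcon
    exact Nat.find_min hex hlt ⟨p, q, rfl, hcon⟩
  obtain ⟨Φ, hΦan, hΦ0, hΦ⟩ := blowup ha hb hmin
  have hmid := hform d hmin
  -- the filter of zeros
  set Z : Set ℂ := {u | ∑ l, a l u * b l (conj u) = 0} with hZ
  set F : Filter ℂ := 𝓝[≠] (0 : ℂ) ⊓ 𝓟 Z with hF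
  have hFne : F.NeBot := by
    rw [hF, ← Filter.frequently_mem_iff_neBot]
    exact hz
  have hg : map (fun u : ℂ => conj u / u) F ≤ 𝓟 (Metric.sphere (0 : ℂ) 1) := by
    rw [Filter.le_principal_iff, Filter.mem_map]
    have h1 : {0}ᶜ ∈ F := Filter.mem_inf_of_left self_mem_nhdsWithin
    filter_upwards [h1] with u hu
    have hu0 : u ≠ 0 := hu
    simp only [Set.mem_preimage, mem_sphere_zero_iff_norm, norm_div]
    rw [RCLike.norm_conj, div_self (norm_ne_zero_iff.2 hu0)]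
  obtain ⟨t0, ht0, hcl⟩ := (isCompact_sphere (0 : ℂ) 1).exists_clusterPt hg
  have hnt : ‖t0‖ = 1 := by simpa using ht0
  have hcl' : MapClusterPt t0 F (fun u : ℂ => conj u / u) := hcl
  have hFle : F ≤ 𝓝 (0 : ℂ) := inf_le_left.trans nhdsWithin_le_nhds
  have hfreq : ∀ P : ℂ × ℂ → Prop, (∀ᶠ x in 𝓝 ((0 : ℂ), t0), P x) →
      ∃ᶠ u in F, P (u, conj u / u) := by
    intro P hP
    rw [nhds_prod_eq] at hP
    obtain ⟨U, hU, V, hV, hUV⟩ := Filter.mem_prod_iff.1 hP
    have h1 : ∃ᶠ u in F, conj u / u ∈ V := (mapClusterPt_iff_frequently.1 hcl') V hV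
    have h2 : ∀ᶠ u in F, u ∈ U := hFle hU
    exact (h1.and_eventually h2).mono (fun u hu => hUV ⟨hu.2, hu.1⟩)
  have hzero : ∀ᶠ u in F, Φ (u, conj u / u) = 0 := by
    have h1 : {0}ᶜ ∈ F := Filter.mem_inf_of_left self_mem_nhdsWithin
    have h2 : Z ∈ F := Filter.mem_inf_of_right (Filter.mem_principal_self Z)
    have h3 := hFle (hΦ 1)
    filter_upwards [h1, h2, h3] with u hu hu2 hu3
    have hu0 : u ≠ 0 := hu
    have h4 := hu3 (conj u / u) (by
      rw [norm_div, RCLike.norm_conj, div_self (norm_ne_zero_iff.2 hu0)])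
    rw [mul_div_cancel₀ _ hu0] at h4
    have h5 : ∑ l, a l u * b l (conj u) = 0 := hu2
    rw [h5] at h4
    rcases mul_eq_zero.1 h4.symm with h6 | h6
    · exact absurd h6 (pow_ne_zero _ hu0)
    · exact h6
  have hΦt0 : Φ (0, t0) = 0 := by
    by_contra hcon
    have h1 := (hΦan t0).continuousAt.eventually_ne hcon
    obtain ⟨u, hu1, hu2⟩ := ((hfreq _ h1).and_eventually hzero).exists
    exact hu1 hu2
  have hd : d ≠ 0 := by
    intro hd0
    have h1 := hΦ0 t0
    rw [hΦt0, hd0] at h1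
    have h2 : p0 = 0 ∧ q0 = 0 := by omega
    rw [h2.1, h2.2] at hc
    apply hc
    simpa using h1.symm
  have hfun : (fun t : ℂ => Φ (0, t)) = fun t => cf a b d 0 + cf a b 0 d * t ^ d := by
    funext t
    rw [hΦ0 t, Finset.sum_range_succ]
    obtain ⟨e, rfl⟩ : ∃ e, d = e + 1 := ⟨d - 1, by omega⟩
    rw [Finset.sum_range_succ']
    have h1 : ∑ k ∈ Finset.range e, cf a b (e + 1 - (k + 1)) (k + 1) * t ^ (k + 1) = 0 := by
      apply Finset.sum_eq_zero
      intro k hk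
      have hk' := Finset.mem_range.1 hk
      rw [hmid (e + 1 - (k + 1)) (k + 1) (by omega) (by omega) (by omega), zero_mul]
    rw [h1]
    simp
  have hB : cf a b 0 d ≠ 0 := by
    intro hB0
    have h1 : Φ (0, t0) = cf a b d 0 + cf a b 0 d * t0 ^ d := congrFun hfun t0
    rw [hΦt0, hB0, zero_mul, add_zero] at h1
    rcases Nat.eq_zero_or_pos p0 with h2 | h2
    · apply hc
      rw [h2]
      have : q0 = d := by omega
      rw [this]; exact hB0
    · rcases Nat.eq_zero_or_pos q0 with h3 | h3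
      · apply hc
        rw [h3]
        have : p0 = d := by omega
        rw [this]; exact h1.symm
      · exact hc (hmid p0 q0 hpq h2 h3)
  have ht0ne : t0 ≠ 0 := by
    intro h
    rw [h, norm_zero] at hnt
    exact zero_ne_one hnt
  have hder : deriv (fun t => Φ (0, t)) t0 ≠ 0 := by
    rw [hfun]
    have h1 : HasDerivAt (fun t : ℂ => cf a b d 0 + cf a b 0 d * t ^ d)
        (cf a b 0 d * (d * t0 ^ (d - 1))) t0 :=
      ((hasDerivAt_pow d t0).const_mul _).const_add _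
    rw [h1.deriv]
    refine mul_ne_zero hB (mul_ne_zero ?_ (pow_ne_zero _ ht0ne))
    exact_mod_cast hd
  obtain ⟨τ, hτan, hτ0, hτz, hτu⟩ := implicit (hΦan t0) hΦt0 hder
  refine ⟨fun u => u * τ u, analyticAt_id.mul hτan, by simp, ?_, ?_, ?_⟩
  · have h1 : HasDerivAt (fun u : ℂ => u * τ u) (1 * τ 0 + 0 * deriv τ 0) 0 :=
      (hasDerivAt_id (0:ℂ)).mul hτan.differentiableAt.hasDerivAt
    rw [h1.deriv, one_mul, zero_mul, add_zero, hτ0]
    exact ht0ne
  · have h1 : ∀ᶠ u in 𝓝 (0:ℂ), ‖τ u‖ < 2 := by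
      have h2 : ContinuousAt (fun u => ‖τ u‖) 0 := hτan.continuousAt.norm
      apply h2.eventually_lt continuousAt_const
      rw [hτ0, hnt]
      norm_num
    filter_upwards [h1, hΦ 2, hτz] with u hu1 hu2 hu3
    have h4 := hu2 (τ u) hu1.le
    rw [hu3, mul_zero] at h4
    exact h4
  · have h1 := (hfreq _ hτu).and_eventually hzero
    rw [hF, Filter.frequently_inf_principal] at h1
    have h2 : ∀ᶠ u in 𝓝[≠] (0:ℂ), u ≠ 0 := self_mem_nhdsWithin
    refine (h1.and_eventually h2).mono ?_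
    rintro u ⟨⟨hu1, hu2, hu3⟩, hu4⟩
    refine ⟨?_, hu1⟩
    have h5 : conj u / u = τ u := hu2 hu3
    show conj u = u * τ u
    rw [← h5, mul_div_cancel₀ _ hu4]

theorem LC12_frm (k : ℕ) (s t : ℂ) (i : ℕ) (j : Fin (k + 1)) :
    conj (frm k s t i j) = frm k (conj s) (conj t) i j := by
  unfold frm
  rw [← Polynomial.coeff_map]
  simp [Polynomial.map_mul, Polynomial.map_pow, Polynomial.map_sub]

theorem LC12_swap (k : ℕ) (s t : ℂ) {i : ℕ} (hi : i ≤ k) (j : Fin (k + 1)) :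
    frm k t s i j = frm k s t (k - i) j := by
  unfold frm
  have h : k - (k - i) = i := by omega
  rw [h, mul_comm]

/-- The mirror symmetry of the components. -/
theorem gco_conj (k : ℕ) {s : ℂ} (hs : 0 < s.im) (p : Fin (k + 1) → ℂ) {i : ℕ} (hi : i ≤ k) :
    gco k s (conj s) (fun j => p j - conj (p j)) i = 0 →
      gco k s (conj s) (fun j => p j - conj (p j)) (k - i) = 0 := by
  intro h0
  have hst : s ≠ conj s := by
    intro h
    have h1 := congrArg Complex.im h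
    rw [Complex.conj_im] at h1
    linarith
  have hne : (s - conj s) ^ k ≠ 0 := pow_ne_zero _ (sub_ne_zero.2 hst)
  set D : Fin (k + 1) → ℂ := fun j => p j - conj (p j) with hD
  have hDc : ∀ j, conj (D j) = -D j := by
    intro j
    rw [hD]
    simp
  set f : ℕ → ℂ := fun l => gco k s (conj s) D l / (s - conj s) ^ k with hf
  have h1 : ∀ j, D j = ∑ l ∈ Finset.range (k + 1), f l * frm k s (conj s) l j :=
    fun j => gco_expand hst D j
  have h2 : ∀ j, -D j = ∑ l ∈ Finset.range (k + 1), conj (f (k - l)) * frm k s (conj s) l j := by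
    intro j
    rw [← hDc, h1 j, map_sum,
      ← Finset.sum_range_reflect (fun l => conj (f (k - l)) * frm k s (conj s) l j) (k + 1)]
    refine Finset.sum_congr rfl fun l hl => ?_
    have hlk : l ≤ k := Nat.lt_succ_iff.1 (Finset.mem_range.1 hl)
    have e1 : k + 1 - 1 - l = k - l := by omega
    have e2 : k - (k - l) = l := by omega
    rw [e1, e2, map_mul, LC12_frm, Complex.conj_conj, LC12_swap k s (conj s) hlk]
  have h3 := frm_indep k (s := s) (t := conj s) (c := fun l => f l + conj (f (k - l)))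
    (isUnit_iff_ne_zero.2 (sub_ne_zero.2 hst)) (fun j => by
      have e : ∑ l ∈ Finset.range (k + 1), (f l + conj (f (k - l))) * frm k s (conj s) l j
          = D j + -D j := by
        rw [h2 j]
        conv_rhs => rw [h1 j]
        rw [← Finset.sum_add_distrib]
        exact Finset.sum_congr rfl fun l _ => add_mul _ _ _
      rw [e, add_neg_cancel])
  have h4 : f i = 0 := by
    show gco k s (conj s) D i / (s - conj s) ^ k = 0
    rw [h0, zero_div]
  have h5 : f (k - i) + conj (f (k - (k - i))) = 0 := h3 (k - i) (by omega)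
  have e3 : k - (k - i) = i := by omega
  rw [e3, h4, map_zero, add_zero] at h5
  have h6 : gco k s (conj s) D (k - i) / (s - conj s) ^ k = 0 := h5
  exact (div_eq_zero_iff.1 h6).resolve_right hne

theorem LC12_cc {f : ℂ → ℂ} (hf : AnalyticAt ℂ f 0) : AnalyticAt ℂ (cc f) 0 := by
  rw [Complex.analyticAt_iff_eventually_differentiableAt] at hf ⊢
  have h1 : Tendsto (fun w : ℂ => conj w) (𝓝 0) (𝓝 0) := by
    have := Complex.continuous_conj.tendsto (0 : ℂ)
    rwa [map_zero] at this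
  filter_upwards [h1.eventually hf] with w hw
  exact differentiableAt_conj_conj_iff.mpr hw

/-- Accumulating zeros give an arc. -/
theorem LocD.arc {k : ℕ} {T : ℂ → ℂ} {W : Fin (k + 1) → ℂ → ℂ} (H : LocD k T W) {i : ℕ}
    (hi : i ≤ k) (hz : ∃ᶠ u in 𝓝[≠] (0 : ℂ), zf k T W i u = 0) :
    ∃ S : ℂ → ℂ, AnalyticAt ℂ S 0 ∧ S 0 = 0 ∧ deriv S 0 ≠ 0 ∧
      (∀ᶠ u in 𝓝 (0 : ℂ), zf2 k T W i u (S u) = 0) ∧
      ∀ᶠ u in 𝓝 (0 : ℂ), zf2 k T W (k - i) u (S u) = 0 := by
  have hcT := LC12_cc H.T_an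
  have hcW : ∀ j, AnalyticAt ℂ (cc (W j)) 0 := fun j => LC12_cc (H.W_an j)
  have hzz : ∀ (i : ℕ) (u : ℂ), zf2 k T W i u (conj u) = zf k T W i u := by
    intro i u
    unfold zf2 zf cc
    simp only [Complex.conj_conj]
  obtain ⟨n, a, b, ha, hb, hsum, hcf⟩ := gco_products k H.T_an hcT H.W_an hcW i
  obtain ⟨Dz, Dw, hD⟩ := exists_pder
  obtain ⟨hr, heq⟩ := H.formal hD hi rfl
  have hsum' : ∀ u w, zf2 k T W i u w = ∑ l, a l u * b l w := hsum
  obtain ⟨S, hS, hS0, hSd, hS1, hS2⟩ := exists_arc ha hb (by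
    intro d hd p q hpq hp hq
    rw [hcf]
    exact lowest hD hr heq (d := d) (fun p q h => by rw [← hcf]; exact hd p q h) hpq hp hq) (by
    obtain ⟨p, q, h⟩ := H.ne_zero hi
    exact ⟨p, q, by rw [hcf]; exact h⟩) (hz.mono fun u hu => by
      rw [← hsum', hzz]
      exact hu)
  refine ⟨S, hS, hS0, hSd, hS1.mono fun u hu => by rw [hsum']; exact hu, ?_⟩
  obtain ⟨n', a', b', ha', hb', hsum2, -⟩ := gco_products k H.T_an hcT H.W_an hcW (k - i)
  have hsum2' : ∀ u w, zf2 k T W (k - i) u w = ∑ l, a' l u * b' l w := hsum2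
  have hF : AnalyticAt ℂ (fun u => zf2 k T W (k - i) u (S u)) 0 := by
    have e : (fun u => zf2 k T W (k - i) u (S u)) = fun u => ∑ l, a' l u * b' l (S u) :=
      funext fun u => hsum2' u (S u)
    rw [e]
    refine Finset.analyticAt_fun_sum _ fun l _ => (ha' l).mul ?_
    have hb0 : AnalyticAt ℂ (b' l) (S 0) := by rw [hS0]; exact hb' l
    exact hb0.comp hS
  refine hF.frequently_zero_iff_eventually_zero.1 ?_
  have hT : ∀ᶠ u in 𝓝[≠] (0 : ℂ), 0 < (T u).im := by
    have h1 : Tendsto (fun u => (T u).im) (𝓝 0) (𝓝 (T 0).im) :=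
      (Complex.continuous_im.tendsto _).comp H.T_an.continuousAt
    exact (h1.eventually (lt_mem_nhds H.T_im)).filter_mono nhdsWithin_le_nhds
  refine (hS2.and_eventually hT).mono ?_
  rintro u ⟨⟨h1, h2⟩, h3⟩
  rw [← hsum', hzz] at h2
  have h4 : zf k T W (k - i) u = 0 := gco_conj k h3 (fun j => W j u) hi h2
  rw [← h1, hzz]
  exact h4

end Arcs

/-! ## Charts -/

section Charts
variable {k : ℕ} {X : Curve}

/-- The behaviour of the components under a change of basis. -/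
theorem gco_smul (γ : SL(2, ℤ)) {s t s' t' : ℂ} (hst : s ≠ t)
    (hs : s' * ((γ 1 0 : ℂ) * s + γ 1 1) = (γ 0 0 : ℂ) * s + γ 0 1)
    (ht : t' * ((γ 1 0 : ℂ) * t + γ 1 1) = (γ 0 0 : ℂ) * t + γ 0 1)
    (p : Fin (k + 1) → ℂ) {i : ℕ} (hi : i ≤ k) :
    gco k s' t' ((act k γ).map (algebraMap ℚ ℂ) *ᵥ p) i *
      (((γ 1 0 : ℂ) * s + γ 1 1) ^ (k - i) * ((γ 1 0 : ℂ) * t + γ 1 1) ^ i) = gco k s t p i := by
  have hdet : (γ 0 0 : ℂ) * γ 1 1 - (γ 0 1 : ℂ) * γ 1 0 = 1 := by
    have h := γ.det_coe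
    rw [Matrix.det_fin_two] at h
    exact_mod_cast h
  have hjs : (γ 1 0 : ℂ) * s + γ 1 1 ≠ 0 := by
    intro h
    rw [h, mul_zero] at hs
    have h1 : (1 : ℂ) = 0 := by
      linear_combination (-1 : ℂ) * hdet + (γ 0 0 : ℂ) * h + (γ 1 0 : ℂ) * hs
    exact one_ne_zero h1
  have hjt : (γ 1 0 : ℂ) * t + γ 1 1 ≠ 0 := by
    intro h
    rw [h, mul_zero] at ht
    have h1 : (1 : ℂ) = 0 := by
      linear_combination (-1 : ℂ) * hdet + (γ 0 0 : ℂ) * h + (γ 1 0 : ℂ) * ht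
    exact one_ne_zero h1
  set js := (γ 1 0 : ℂ) * s + γ 1 1 with hjsd
  set jt := (γ 1 0 : ℂ) * t + γ 1 1 with hjtd
  have hdiff : (s' - t') * (js * jt) = s - t := by
    have e1 : s' * js * jt = ((γ 0 0 : ℂ) * s + γ 0 1) * jt := by rw [hs]
    have e2 : t' * jt * js = ((γ 0 0 : ℂ) * t + γ 0 1) * js := by rw [ht]
    have e3 : (s' - t') * (js * jt) = s' * js * jt - t' * jt * js := by ring
    rw [e3, e1, e2, hjsd, hjtd]
    linear_combination (s - t) * hdet
  have hstk : (s - t) ^ k ≠ 0 := pow_ne_zero _ (sub_ne_zero.2 hst)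
  -- expansion of the image
  have hexp : ∀ j : Fin (k + 1), ((act k γ).map (algebraMap ℚ ℂ) *ᵥ p) j =
      ∑ l ∈ Finset.range (k + 1), ((gco k s t p l / (s - t) ^ k) * (js ^ l * jt ^ (k - l))) *
        frm k s' t' l j := by
    intro j
    have h1 : p = ∑ l ∈ Finset.range (k + 1), (gco k s t p l / (s - t) ^ k) • frm k s t l := by
      funext j'
      rw [Finset.sum_apply]
      simp only [Pi.smul_apply, smul_eq_mul]
      exact gco_expand hst p j'
    conv_lhs => rw [h1]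
    rw [Matrix.mulVec_sum, Finset.sum_apply]
    apply Finset.sum_congr rfl
    intro l hl
    rw [Matrix.mulVec_smul, act_frm γ (by have := Finset.mem_range.1 hl; omega) hs ht]
    simp only [Pi.smul_apply, smul_eq_mul]
    rw [← hjsd, ← hjtd]
    ring
  rw [gco_eq_gcoR, gcoR_frm k (f := fun l => (gco k s t p l / (s - t) ^ k) * (js ^ l * jt ^ (k - l)))
    hexp hi]
  have hpow : (s' - t') ^ k * (js ^ k * jt ^ k) = (s - t) ^ k := by
    rw [← mul_pow, ← mul_pow, hdiff]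
  have e1 : js ^ k = js ^ i * js ^ (k - i) := by rw [← pow_add]; congr 1; omega
  have e2 : jt ^ k = jt ^ (k - i) * jt ^ i := by rw [← pow_add]; congr 1; omega
  calc (s' - t') ^ k * ((gco k s t p i / (s - t) ^ k) * (js ^ i * jt ^ (k - i))) *
        (js ^ (k - i) * jt ^ i)
      = ((s' - t') ^ k * ((js ^ i * js ^ (k - i)) * (jt ^ (k - i) * jt ^ i))) *
          (gco k s t p i / (s - t) ^ k) := by ring
    _ = (s - t) ^ k * (gco k s t p i / (s - t) ^ k) := by rw [← e1, ← e2, hpow]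
    _ = gco k s t p i := by field_simp

theorem LC14_open : IsOpen {w : ℂ | 0 < w.im} := isOpen_lt continuous_const Complex.continuous_im

theorem LC14_conn : IsPreconnected {w : ℂ | 0 < w.im} :=
  (convex_halfSpace_im_gt 0).isPreconnected

theorem LC14_an {f : ℂ → ℂ} (hf : ∀ w : ℂ, 0 < w.im → DifferentiableAt ℂ f w) :
    AnalyticOnNhd ℂ f {w : ℂ | 0 < w.im} :=
  DifferentiableOn.analyticOnNhd (fun w hw => (hf w hw).differentiableWithinAt) LC14_open

/-- The extension period is locally nonconstant. -/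
theorem Variation.g_ne (V : Variation k X) (hk : 1 ≤ k) (hns : ¬ V.Split) {w : ℂ}
    (hw : 0 < w.im) : ∀ᶠ u in 𝓝[≠] w, deriv (V.vC (Fin.last k)) u ≠ 0 := by
  by_contra hcon
  have h1 : ∃ᶠ u in 𝓝[≠] w, deriv (V.vC (Fin.last k)) u = 0 := by
    rw [Filter.not_eventually] at hcon
    exact hcon.mono fun u hu => not_not.1 hu
  have h2 : Set.EqOn (deriv (V.vC (Fin.last k))) 0 {w : ℂ | 0 < w.im} :=
    (LC14_an fun w hw => V.vC_diff (Fin.last k) hw).deriv.eqOn_zero_of_preconnected_of_frequently_eq_zero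
      LC14_conn hw h1
  have h3 : ∀ w : ℂ, 0 < w.im → V.gC w = 0 := by
    intro w hw
    show deriv (V.vC (Fin.last k)) w / deriv (lamC X) w = 0
    rw [h2 hw]
    exact zero_div _
  have h4 : ∀ j, Set.EqOn (deriv (V.vC j)) 0 {w : ℂ | 0 < w.im} := by
    intro j w hw
    have h5 := V.dx_vC j hw
    rw [h3 w hw, zero_mul] at h5
    have h6 : deriv (V.vC j) w / deriv (lamC X) w = 0 := h5
    exact (div_eq_zero_iff.1 h6).resolve_right (lamC_diff X hw).2
  refine hns (V.split_of_const hk (n := V.v UpperHalfPlane.I) fun z => ?_)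
  funext j
  have h5 := LC14_open.is_const_of_deriv_eq_zero LC14_conn
    (fun w hw => (V.vC_diff j hw).differentiableWithinAt) (h4 j) z.im_pos UpperHalfPlane.I.im_pos
  have h6 : V.vC j (z : ℂ) = V.v z j := by
    unfold Variation.vC
    rw [ofComplex_apply]
  have h7 : V.vC j (UpperHalfPlane.I : ℂ) = V.v UpperHalfPlane.I j := by
    unfold Variation.vC
    rw [ofComplex_apply]
  rw [← h6, ← h7]
  exact h5

theorem LC14_tend (z₀ : ℂ) : Tendsto (fun u : ℂ => z₀ + u) (𝓝 0) (𝓝 z₀) := by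
  have h : Tendsto (fun u : ℂ => z₀ + u) (𝓝 0) (𝓝 (z₀ + 0)) :=
    (continuous_const.add continuous_id).tendsto 0
  rwa [add_zero] at h

theorem LC14_tend' (z₀ : ℂ) : Tendsto (fun u : ℂ => z₀ + u) (𝓝[≠] 0) (𝓝[≠] z₀) := by
  refine tendsto_nhdsWithin_of_tendsto_nhds_of_eventually_within _
    ((LC14_tend z₀).mono_left nhdsWithin_le_nhds) ?_
  filter_upwards [self_mem_nhdsWithin] with u hu
  intro h
  exact hu (add_eq_left.1 h)

/-- The chart at a point of the curve. -/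
theorem Variation.chart (V : Variation k X) (hk : 1 ≤ k) (hns : ¬ V.Split) {z₀ : ℂ}
    (hz : 0 < z₀.im) : Chart V (fun u => V.tauC (z₀ + u)) (fun j u => V.vC j (z₀ + u)) 1 := by
  have hev : ∀ᶠ u in 𝓝 (0 : ℂ), 0 < (z₀ + u).im :=
    (LC14_tend z₀).eventually (LC14_open.mem_nhds hz)
  have hsh : AnalyticAt ℂ (fun u : ℂ => z₀ + u) 0 := analyticAt_const.add analyticAt_id
  have hcomp : ∀ f : ℂ → ℂ, (∀ w : ℂ, 0 < w.im → DifferentiableAt ℂ f w) →
      AnalyticAt ℂ (fun u => f (z₀ + u)) 0 := by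
    intro f hf
    have h1 : AnalyticAt ℂ f (z₀ + 0) := by
      rw [add_zero]
      exact LC14_an hf z₀ hz
    exact AnalyticAt.comp (f := fun u : ℂ => z₀ + u) h1 hsh
  refine
    { T_an := hcomp _ fun w hw => (V.tauC_diff hw).1
      T_im := ?_
      W_an := fun j => hcomp _ fun w hw => V.vC_diff j hw
      trans := ?_
      T_nc := ?_
      W_nc := ?_
      loc := ?_ }
  · show 0 < (V.tauC (z₀ + 0)).im
    rw [add_zero]
    exact (V.tauC_diff hz).2
  · filter_upwards [hev] with u hu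
    refine ⟨V.gC (z₀ + u) * deriv (lamC X) (z₀ + u), fun j => ?_⟩
    rw [deriv_comp_const_add]
    have h1 := V.dx_vC j hu
    have h2 : deriv (V.vC j) (z₀ + u) / deriv (lamC X) (z₀ + u)
        = V.gC (z₀ + u) * frm k (V.tauC (z₀ + u)) (V.tauC (z₀ + u)) k j := h1
    have h3 := (lamC_diff X hu).2
    rw [div_eq_iff h3] at h2
    rw [h2]
    ring
  · filter_upwards [(LC14_tend' z₀).eventually (V.t1_ne hz)] with u hu
    rw [deriv_comp_const_add]
    exact hu.2
  · filter_upwards [(LC14_tend' z₀).eventually (V.g_ne hk hns hz)] with u hu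
    rw [deriv_comp_const_add]
    exact hu
  · filter_upwards [hev.filter_mono nhdsWithin_le_nhds] with u hu
    refine ⟨fun u => z₀ + u, analyticAt_const.add analyticAt_id, ?_, hu,
      Eventually.of_forall fun u' => ⟨?_, fun j => ?_⟩⟩
    · rw [deriv_const_add, deriv_id'']
      exact one_ne_zero
    · simp
    · rw [act_one]
      have h1 : ((1 : Matrix (Fin (k + 1)) (Fin (k + 1)) ℚ).map (algebraMap ℚ ℂ)) = 1 :=
        Matrix.map_one _ (map_zero _) (map_one _)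
      rw [h1, Matrix.one_mulVec]

theorem LC15_frm (k : ℕ) (s t : ℂ) (j : Fin (k + 1)) :
    frm k s t k j = (-s) ^ (k - (j : ℕ)) * (k.choose j : ℂ) := by
  unfold frm
  rw [Nat.sub_self, pow_zero, mul_one, sub_eq_add_neg, ← Polynomial.C_neg,
    Polynomial.coeff_X_add_C_pow]

theorem LC15_act (M : SL(2, ℤ)) (t : ℍ) :
    ((M • t : ℍ) : ℂ) * ((M 1 0 : ℂ) * t + M 1 1) = (M 0 0 : ℂ) * t + M 0 1 := by
  have h0 : (M 1 0 : ℂ) * t + M 1 1 ≠ 0 := by
    intro h
    have h1 := congrArg Complex.im h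
    have h2 := congrArg Complex.re h
    simp only [Complex.add_im, Complex.mul_im, Complex.intCast_re, Complex.intCast_im, zero_mul,
      add_zero, Complex.zero_im, Complex.add_re, Complex.mul_re, Complex.zero_re, sub_zero]
      at h1 h2
    have h3 : (M 1 0 : ℝ) = 0 := by
      rcases mul_eq_zero.1 h1 with h3 | h3
      · exact h3
      · exact absurd h3 t.im_pos.ne'
    rw [h3, zero_mul, zero_add] at h2
    have h4 : M 1 0 = 0 := by exact_mod_cast h3
    have h5 : M 1 1 = 0 := by exact_mod_cast h2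
    have h6 := M.det_coe
    rw [Matrix.det_fin_two, h4, h5] at h6
    simp at h6
  rw [UpperHalfPlane.coe_specialLinearGroup_apply]
  simp only [algebraMap_int_eq, eq_intCast, Complex.ofReal_intCast]
  exact div_mul_cancel₀ _ h0

theorem LC15_lim {n : ℕ} (hn : 0 < n) {Ψ : ℂ → ℂ} (hΨ : ContinuousAt Ψ 0) {Y : ℝ}
    (h : ∀ ζ : ℂ, Y < ζ.im → Ψ (ee (ζ / n)) = 0) : Ψ 0 = 0 := by
  have hn' : (0 : ℝ) < n := by exact_mod_cast hn
  have h1 : Tendsto (fun t : ℝ => ee (((t : ℂ) * Complex.I) / n)) atTop (𝓝 0) := by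
    rw [tendsto_zero_iff_norm_tendsto_zero]
    have h2 : ∀ t : ℝ, ‖ee (((t : ℂ) * Complex.I) / n)‖ = Real.exp (-(2 * Real.pi / n * t)) := by
      intro t
      unfold ee
      rw [Complex.norm_exp]
      congr 1
      have h3 : 2 * (Real.pi : ℂ) * Complex.I * (((t : ℂ) * Complex.I) / n)
          = ((-(2 * Real.pi / n * t) : ℝ) : ℂ) := by
        push_cast
        linear_combination (2 * (Real.pi : ℂ) * t / n) * Complex.I_mul_I
      rw [h3, Complex.ofReal_re]
    simp only [h2]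
    apply Real.tendsto_exp_neg_atTop_nhds_zero.comp
    exact Filter.tendsto_id.const_mul_atTop (by positivity)
  have h4 := hΨ.tendsto.comp h1
  have h5 : ∀ᶠ t : ℝ in atTop, (Ψ ∘ fun t : ℝ => ee (((t : ℂ) * Complex.I) / n)) t = 0 := by
    filter_upwards [eventually_gt_atTop Y] with t ht
    apply h
    rw [Complex.mul_I_im, Complex.ofReal_re]
    exact ht
  have h6 : Tendsto (Ψ ∘ fun t : ℝ => ee (((t : ℂ) * Complex.I) / n)) atTop (𝓝 0) :=
    tendsto_const_nhds.congr' (h5.mono fun t ht => ht.symm)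
  exact tendsto_nhds_unique h4 h6

/-- The derivative of the transformed extension period at a puncture with finite monodromy. -/
theorem LC15_deriv (V : Variation k X) {s : ℂ → ℍ} {Y : ℝ} (hE : X.IsEnd s Y)
    (M : SL(2, ℤ)) {ζ : ℂ} (hζ : Y < ζ.im) {t : ℂ} (ht : ((M • V.τ (s ζ) : ℍ) : ℂ) = t) :
    ∃ G : ℂ, ∀ j, HasDerivAt (fun z => ((act k M).map (algebraMap ℚ ℂ) *ᵥ V.v (s z)) j)
      (G * frm k t t k j) ζ := by
  obtain ⟨s', -, hs⟩ := Pool.Agent.LibUB33.BridgeB94.end_deriv hE hζ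
  obtain ⟨g, hg⟩ := V.transversal (s ζ)
  refine ⟨s' * g * ((M 1 0 : ℂ) * V.τ (s ζ) + M 1 1) ^ k, fun j => ?_⟩
  have h1 : ∀ l, HasDerivAt (fun z => V.v (s z) l)
      ((g * form k (V.τ (s ζ)) (V.τ (s ζ)) k l) * s') ζ := by
    intro l
    have h2 : HasDerivAt (fun w : ℂ => V.v (ofComplex w) l)
        (g * form k (V.τ (s ζ)) (V.τ (s ζ)) k l) (s ζ : ℂ) := (hasDerivAt_pi.1 hg) l
    have h3 := HasDerivAt.comp ζ (h₂ := fun w : ℂ => V.v (ofComplex w) l)
      (h := fun z => (s z : ℂ)) h2 hs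
    have h4 : (fun w : ℂ => V.v (ofComplex w) l) ∘ (fun z => (s z : ℂ))
        = fun z => V.v (s z) l := by
      funext w
      simp only [Function.comp_apply, ofComplex_apply]
    rwa [h4] at h3
  have h5 := HasDerivAt.fun_sum (u := (Finset.univ : Finset (Fin (k + 1)))) fun l _ =>
    (h1 l).const_mul ((act k M).map (algebraMap ℚ ℂ) j l)
  refine h5.congr_deriv ?_
  have h6 := congrFun (act_frm (k := k) M (i := k) (s := (V.τ (s ζ) : ℂ))
    (t := (V.τ (s ζ) : ℂ)) (s' := t) (t' := t) le_rfl (by rw [← ht]; exact LC15_act M _)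
    (by rw [← ht]; exact LC15_act M _)) j
  rw [Nat.sub_self, pow_zero, mul_one, Pi.smul_apply, smul_eq_mul] at h6
  have h7 : ∑ l, (act k M).map (algebraMap ℚ ℂ) j l *
      ((g * form k (V.τ (s ζ)) (V.τ (s ζ)) k l) * s') = s' * g *
      ((act k M).map (algebraMap ℚ ℂ) *ᵥ frm k (V.τ (s ζ) : ℂ) (V.τ (s ζ) : ℂ) k) j := by
    simp only [Matrix.mulVec, dotProduct]
    rw [Finset.mul_sum]
    apply Finset.sum_congr rfl
    intro l _
    change _ = s' * g * ((act k M).map (algebraMap ℚ ℂ) j l *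
      form k (V.τ (s ζ)) (V.τ (s ζ)) k l)
    ring
  rw [h7, h6]
  ring

/-- At a puncture with finite monodromy the extension period is invariant. -/
theorem Variation.filled (V : Variation k X) (hk : 1 ≤ k) {s : ℂ → ℍ} {Y : ℝ} (hE : X.IsEnd s Y)
    (E : EndForm V s Y) (hm : E.m = 0) :
    ∃ (W : Fin (k + 1) → ℂ → ℂ) (Y' : ℝ), (∀ j, AnalyticAt ℂ (W j) 0) ∧
      ∀ ζ : ℂ, Y' < ζ.im → ∀ j,
        W j (ee (ζ / E.n)) = ((act k E.M).map (algebraMap ℚ ℂ) *ᵥ V.v (s ζ)) j := by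
  have hn := E.hn
  have hn' : (0 : ℝ) < E.n := by exact_mod_cast hn
  have hnc : (E.n : ℂ) ≠ 0 := by
    exact_mod_cast hn.ne'
  have hρ : V.ρ E.p = 1 := by
    have h1 := E.hρ
    rw [hm, pow_zero, one_mul] at h1
    exact mul_eq_left.1 h1
  set w : Fin (k + 1) → ℂ → ℂ := fun j ζ =>
    ((act k E.M).map (algebraMap ℚ ℂ) *ᵥ V.v (s ζ)) j with hw
  set c : Fin (k + 1) → ℝ := fun j => (((act k E.M *ᵥ V.c E.p) j : ℚ) : ℝ) with hc
  have hper : ∀ ζ : ℂ, Y < ζ.im → ∀ j, w j (ζ + E.n) = w j ζ + c j := by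
    intro ζ hζ j
    have h1 : V.v (s (ζ + E.n)) = V.v (s ζ) + fun j => (V.c E.p j : ℂ) := by
      rw [E.hp ζ hζ, V.v_equiv, hρ, act_one]
      congr 1
      rw [Matrix.map_one _ (map_zero _) (map_one _), Matrix.one_mulVec]
    simp only [hw]
    rw [h1, Matrix.mulVec_add, Pi.add_apply]
    congr 1
    simp only [hc, Matrix.mulVec, dotProduct, Matrix.map_apply]
    push_cast
    rfl
  have hder : ∀ ζ : ℂ, E.Y' < ζ.im → ∃ G : ℂ, ∀ j, HasDerivAt (w j)
      (G * frm k (E.F (ee (ζ / E.n))) (E.F (ee (ζ / E.n))) k j) ζ := by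
    intro ζ hζ
    apply LC15_deriv V hE E.M (lt_of_le_of_lt E.hY hζ)
    rw [E.hτ ζ hζ, hm, Nat.cast_zero, zero_mul, zero_add]
  -- moderate growth
  obtain ⟨C₁, N₁, hg⟩ := V.growth s Y hE E.n
  have hex : ∀ j, ∃ F : ℂ → ℂ, AnalyticAt ℂ F 0 ∧ ∃ Y' : ℝ, ∀ z : ℂ, Y' < z.im →
      w j z - c j * (z / E.n) = F (ee (z / E.n)) := by
    intro j
    apply Pool.Agent.LibUB33.exists_of_growth hn (Y := max E.Y' (Y + 1))
      (f := fun z => w j z - c j * (z / E.n))
      (C := (∑ l, ‖(act k E.M).map (algebraMap ℚ ℂ) j l‖) * |C₁| + |c j|) (N := N₁ + 1)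
    · intro z hz
      obtain ⟨G, hG⟩ := hder z ((le_max_left _ _).trans_lt hz)
      exact (hG j).differentiableAt.sub (by fun_prop)
    · intro z hz
      have h1 : Y < z.im := by
        have := (le_max_right _ _).trans_lt hz
        linarith
      rw [hper z h1 j]
      field_simp
      ring
    · intro z hz1 hz2
      have h1 := (le_max_right _ _).trans_lt hz2
      have h2 := hg z hz1 h1.le
      have h3 : ‖w j z‖ ≤ (∑ l, ‖(act k E.M).map (algebraMap ℚ ℂ) j l‖) *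
          (|C₁| * (1 + |z.im|) ^ N₁) := by
        simp only [hw, Matrix.mulVec, dotProduct]
        refine (norm_sum_le _ _).trans ?_
        rw [Finset.sum_mul]
        apply Finset.sum_le_sum
        intro l _
        rw [norm_mul]
        apply mul_le_mul_of_nonneg_left _ (norm_nonneg _)
        refine (norm_le_pi_norm _ l).trans (h2.trans ?_)
        exact mul_le_mul_of_nonneg_right (le_abs_self _) (by positivity)
      have h4 : ‖(c j : ℂ) * (z / E.n)‖ ≤ |c j| * (1 + |z.im|) := by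
        rw [norm_mul, Complex.norm_real, Real.norm_eq_abs]
        apply mul_le_mul_of_nonneg_left _ (abs_nonneg _)
        rw [norm_div, Complex.norm_natCast, div_le_iff₀ hn']
        have h5 := Complex.norm_le_abs_re_add_abs_im z
        have h6 : (1 : ℝ) ≤ E.n := by exact_mod_cast hn
        nlinarith [abs_nonneg z.im]
      refine (norm_sub_le _ _).trans ((add_le_add h3 h4).trans ?_)
      rw [add_mul, mul_assoc]
      have h7 : (1 + |z.im|) ^ N₁ ≤ (1 + |z.im|) ^ (N₁ + 1) :=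
        pow_le_pow_right₀ (by linarith [abs_nonneg z.im]) (Nat.le_succ _)
      have h8 : (1 + |z.im|) ≤ (1 + |z.im|) ^ (N₁ + 1) := by
        have h9 := pow_le_pow_right₀ (show (1 : ℝ) ≤ 1 + |z.im| by linarith [abs_nonneg z.im])
          (show 1 ≤ N₁ + 1 by omega)
        rwa [pow_one] at h9
      apply add_le_add
      · apply mul_le_mul_of_nonneg_left _ (Finset.sum_nonneg fun l _ => norm_nonneg _)
        exact mul_le_mul_of_nonneg_left h7 (abs_nonneg _)
      · exact mul_le_mul_of_nonneg_left h8 (abs_nonneg _)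
  choose W hWa Yj hWj using hex
  -- a common half plane
  obtain ⟨Y₂, hY2⟩ : ∃ Y₂ : ℝ, E.Y' ≤ Y₂ ∧ ∀ j, Yj j ≤ Y₂ := by
    refine ⟨max E.Y' (Finset.univ.sup' Finset.univ_nonempty Yj), le_max_left _ _, fun j => ?_⟩
    exact (Finset.le_sup' Yj (Finset.mem_univ j)).trans (le_max_right _ _)
  have hq : ∀ ζ : ℂ, HasDerivAt (fun z : ℂ => ee (z / E.n))
      (2 * Real.pi * Complex.I * ee (ζ / E.n) * (1 / E.n)) ζ := by
    intro ζ
    have h1 : HasDerivAt (fun z : ℂ => z / (E.n : ℂ)) (1 / (E.n : ℂ)) ζ :=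
      (hasDerivAt_id ζ).div_const _
    exact HasDerivAt.comp ζ (h₂ := ee) (h := fun z : ℂ => z / (E.n : ℂ))
      (Pool.Agent.LibUB33.BridgeB94.ee_hasDerivAt (ζ / E.n)) h1
  have han : ∀ᶠ q in 𝓝 (0 : ℂ), ∀ j, AnalyticAt ℂ (W j) q := by
    rw [Filter.eventually_all]
    exact fun j => (hWa j).eventually_analyticAt
  -- small q
  obtain ⟨Y₃, hY3, hY3'⟩ : ∃ Y₃ : ℝ, Y₂ ≤ Y₃ ∧ ∀ ζ : ℂ, Y₃ < ζ.im →
      ∀ j, AnalyticAt ℂ (W j) (ee (ζ / E.n)) := by
    obtain ⟨r, hr, hball⟩ := Metric.eventually_nhds_iff.1 han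
    refine ⟨max Y₂ (-(Real.log r) * E.n / (2 * Real.pi)), le_max_left _ _, fun ζ hζ => ?_⟩
    apply hball
    rw [dist_zero_right]
    unfold ee
    rw [Complex.norm_exp]
    have h1 : (2 * (Real.pi : ℂ) * Complex.I * (ζ / E.n)).re = -(2 * Real.pi * (ζ.im / E.n)) := by
      have h2 : 2 * (Real.pi : ℂ) * Complex.I * (ζ / E.n)
          = ((2 * Real.pi / E.n : ℝ) : ℂ) * (Complex.I * ζ) := by
        push_cast
        ring
      rw [h2, Complex.re_ofReal_mul, Complex.I_mul_re]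
      ring
    rw [h1, ← Real.lt_log_iff_exp_lt hr]
    have h3 := (le_max_right _ _).trans_lt hζ
    rw [div_lt_iff₀ (by positivity)] at h3
    have h4 : Real.log r * E.n > -(2 * Real.pi * ζ.im) := by nlinarith
    have h5 : -(2 * Real.pi * (ζ.im / E.n)) = -(2 * Real.pi * ζ.im) / E.n := by ring
    rw [h5, div_lt_iff₀ hn']
    exact h4
  -- the relation between the derivatives
  have hrel : ∀ j, ∀ ζ : ℂ, Y₃ < ζ.im →
      (c j / E.n + deriv (W j) (ee (ζ / E.n)) *
        (2 * Real.pi * Complex.I * ee (ζ / E.n) * (1 / E.n))) =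
      (c (Fin.last k) / E.n + deriv (W (Fin.last k)) (ee (ζ / E.n)) *
        (2 * Real.pi * Complex.I * ee (ζ / E.n) * (1 / E.n))) *
        ((-E.F (ee (ζ / E.n))) ^ (k - (j : ℕ)) * (k.choose j : ℂ)) := by
    intro j ζ hζ
    obtain ⟨G, hG⟩ := hder ζ (lt_of_le_of_lt (hY2.1.trans hY3) hζ)
    have hd : ∀ l, deriv (w l) ζ = c l / E.n + deriv (W l) (ee (ζ / E.n)) *
        (2 * Real.pi * Complex.I * ee (ζ / E.n) * (1 / E.n)) := by
      intro l
      have h1 : w l =ᶠ[𝓝 ζ] fun z => c l * (z / E.n) + W l (ee (z / E.n)) := by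
        have hU : IsOpen {ζ : ℂ | Y₃ < ζ.im} :=
          isOpen_lt continuous_const Complex.continuous_im
        filter_upwards [hU.mem_nhds hζ] with z hz
        have h2 := hWj l z (lt_of_le_of_lt ((hY2.2 l).trans hY3) hz)
        rw [← h2]
        ring
      rw [h1.deriv_eq]
      have h3 : HasDerivAt (fun z : ℂ => (c l : ℂ) * (z / E.n)) (c l / E.n) ζ := by
        have h4 := ((hasDerivAt_id ζ).div_const (E.n : ℂ)).const_mul (c l : ℂ)
        rw [mul_one_div] at h4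
        exact h4
      have h5 := HasDerivAt.comp ζ (h₂ := W l) (h := fun z : ℂ => ee (z / E.n))
        (hY3' ζ hζ l).differentiableAt.hasDerivAt (hq ζ)
      exact (h3.add h5).deriv
    have h6 := (hG (Fin.last k)).deriv
    rw [LC15_frm] at h6
    simp only [Fin.val_last, Nat.sub_self, pow_zero, Nat.choose_self, Nat.cast_one, mul_one]
      at h6
    rw [← hd j, ← hd (Fin.last k), h6, (hG j).deriv, LC15_frm]
  -- the limit
  have hlim : ∀ j : Fin (k + 1), (c j : ℂ) / E.n = (c (Fin.last k) : ℂ) / E.n *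
      ((-E.F 0) ^ (k - (j : ℕ)) * (k.choose j : ℂ)) := by
    intro j
    have hFc := E.hF.continuousAt
    have hc1 := (hWa j).deriv.continuousAt
    have hc2 := (hWa (Fin.last k)).deriv.continuousAt
    have h1 := LC15_lim hn (Ψ := fun q =>
      (c j / E.n + deriv (W j) q * (2 * Real.pi * Complex.I * q * (1 / E.n))) -
      (c (Fin.last k) / E.n + deriv (W (Fin.last k)) q *
        (2 * Real.pi * Complex.I * q * (1 / E.n))) *
        ((-E.F q) ^ (k - (j : ℕ)) * (k.choose j : ℂ))) (by fun_prop)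
      (Y := Y₃) (fun ζ hζ => sub_eq_zero.2 (hrel j ζ hζ))
    simp only [mul_zero, zero_mul, add_zero] at h1
    exact sub_eq_zero.1 h1
  have hFim := E.hF0 hm
  have hck : c (Fin.last k) = 0 := by
    have h1 := hlim ⟨k - 1, by omega⟩
    have h2 : k - (k - 1) = 1 := by omega
    have h3 : k.choose (k - 1) = k := by
      rw [Nat.choose_symm hk, Nat.choose_one_right]
    simp only [h2, h3, pow_one] at h1
    have h4 := congrArg (fun z : ℂ => (z * E.n).im) h1
    have h5 : ((c ⟨k - 1, by omega⟩ : ℂ) / E.n * E.n).im = 0 := by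
      rw [div_mul_cancel₀ _ hnc, Complex.ofReal_im]
    have h6 : ((c (Fin.last k) : ℂ) / E.n * (-E.F 0 * (k : ℂ)) * E.n).im
        = -(c (Fin.last k) * k * (E.F 0).im) := by
      have h7 : (c (Fin.last k) : ℂ) / E.n * (-E.F 0 * (k : ℂ)) * E.n
          = ((-(c (Fin.last k) * k) : ℝ) : ℂ) * E.F 0 := by
        push_cast
        field_simp
      rw [h7, Complex.im_ofReal_mul]
      ring
    rw [h5, h6] at h4
    have h8 : c (Fin.last k) * (k * (E.F 0).im) = 0 := by linarith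
    rcases mul_eq_zero.1 h8 with h9 | h9
    · exact h9
    · have h10 : (0 : ℝ) < k := by exact_mod_cast hk
      exact absurd h9 (mul_pos h10 hFim).ne'
  have hcj : ∀ j, c j = 0 := by
    intro j
    have h1 := hlim j
    rw [hck, Complex.ofReal_zero, zero_div, zero_mul] at h1
    have h2 : (c j : ℂ) = 0 := by
      rcases div_eq_zero_iff.1 h1 with h3 | h3
      · exact h3
      · exact absurd h3 hnc
    exact_mod_cast h2
  refine ⟨W, Y₃, hWa, fun ζ hζ j => ?_⟩
  have h1 := hWj j ζ (lt_of_le_of_lt ((hY2.2 j).trans hY3) hζ)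
  rw [hcj j, Complex.ofReal_zero, zero_mul, sub_zero] at h1
  exact h1.symm

theorem LC16_frm (k : ℕ) (t : ℂ) (j : Fin (k + 1)) :
    frm k t t k j = (-t) ^ (k - (j : ℕ)) * (k.choose j : ℂ) := by
  unfold frm
  rw [Nat.sub_self, pow_zero, mul_one, sub_eq_add_neg, ← map_neg, Polynomial.coeff_X_add_C_pow]

theorem LC16_last (k : ℕ) (t : ℂ) : frm k t t k (Fin.last k) = 1 := by
  rw [LC16_frm, Fin.val_last]
  simp

theorem LC16_dv (V : Variation k X) (j : Fin (k + 1)) {w : ℂ} (hw : 0 < w.im) :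
    deriv (V.vC j) w = deriv (V.vC (Fin.last k)) w * frm k (V.tauC w) (V.tauC w) k j := by
  have h1 := V.dx_vC j hw
  have h2 := (lamC_diff X hw).2
  unfold Variation.gC LibSym94.dx at h1
  rw [div_mul_eq_mul_div, div_left_inj' h2] at h1
  exact h1

theorem LC16_det (M : SL(2, ℤ)) : (M 0 0 : ℂ) * M 1 1 - M 0 1 * M 1 0 = 1 := by
  have h := M.det_coe
  rw [Matrix.det_fin_two] at h
  have h2 := congrArg (fun n : ℤ => (n : ℂ)) h
  push_cast at h2
  exact h2

theorem LC16_den (M : SL(2, ℤ)) {t : ℂ} (ht : 0 < t.im) : (M 1 0 : ℂ) * t + M 1 1 ≠ 0 := by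
  intro h
  have h1 := congrArg Complex.im h
  simp only [Complex.add_im, Complex.mul_im, Complex.intCast_re, Complex.intCast_im, zero_mul,
    add_zero, Complex.zero_im] at h1
  have h2 : ((M 1 0 : ℤ) : ℝ) = 0 := (mul_eq_zero.1 h1).resolve_right ht.ne'
  have h3 : (M 1 0 : ℤ) = 0 := by exact_mod_cast h2
  have h4 := LC16_det M
  rw [h3] at h h4
  simp only [Int.cast_zero, zero_mul, zero_add] at h
  rw [h] at h4
  simp at h4

theorem LC16_smul (M : SL(2, ℤ)) (t : ℍ) :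
    ((M • t : ℍ) : ℂ) * ((M 1 0 : ℂ) * t + M 1 1) = (M 0 0 : ℂ) * t + M 0 1 := by
  have h := LC16_den M t.im_pos
  rw [UpperHalfPlane.coe_specialLinearGroup_apply]
  simp only [algebraMap_int_eq, eq_intCast, Complex.ofReal_intCast]
  exact div_mul_cancel₀ _ h

theorem LC16_A (V : Variation k X) (M : SL(2, ℤ)) {F κ : ℂ → ℂ} {W : Fin (k + 1) → ℂ → ℂ} {u : ℂ}
    (hF : DifferentiableAt ℂ F u) (hκ : DifferentiableAt ℂ κ u) (him : 0 < (κ u).im)
    (h : ∀ᶠ u' in 𝓝 u, F u' * ((M 1 0 : ℂ) * V.tauC (κ u') + M 1 1) =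
        (M 0 0 : ℂ) * V.tauC (κ u') + M 0 1 ∧
      ∀ j, W j u' = ((act k M).map (algebraMap ℚ ℂ) *ᵥ fun l => V.vC l (κ u')) j) :
    deriv F u * ((M 1 0 : ℂ) * V.tauC (κ u) + M 1 1) ^ 2 = deriv V.tauC (κ u) * deriv κ u ∧
    ∀ j, deriv (W j) u = (deriv κ u * deriv (V.vC (Fin.last k)) (κ u) *
      ((M 1 0 : ℂ) * V.tauC (κ u) + M 1 1) ^ k) * frm k (F u) (F u) k j := by
  have hu := h.self_of_nhds
  have ht : HasDerivAt (fun u' => V.tauC (κ u')) (deriv V.tauC (κ u) * deriv κ u) u :=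
    HasDerivAt.comp u (V.tauC_diff him).1.hasDerivAt hκ.hasDerivAt
  constructor
  · have h1 : HasDerivAt (fun u' => F u' * ((M 1 0 : ℂ) * V.tauC (κ u') + M 1 1))
        (deriv F u * ((M 1 0 : ℂ) * V.tauC (κ u) + M 1 1)
          + F u * ((M 1 0 : ℂ) * (deriv V.tauC (κ u) * deriv κ u))) u :=
      hF.hasDerivAt.mul ((ht.const_mul _).add_const _)
    have h2 : HasDerivAt (fun u' => (M 0 0 : ℂ) * V.tauC (κ u') + M 0 1)
        ((M 0 0 : ℂ) * (deriv V.tauC (κ u) * deriv κ u)) u :=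
      (ht.const_mul _).add_const _
    have h3 : HasDerivAt (fun u' => F u' * ((M 1 0 : ℂ) * V.tauC (κ u') + M 1 1))
        ((M 0 0 : ℂ) * (deriv V.tauC (κ u) * deriv κ u)) u :=
      h2.congr_of_eventuallyEq (h.mono fun x hx => hx.1)
    have h4 := h1.unique h3
    have h5 := LC16_det M
    linear_combination ((M 1 0 : ℂ) * V.tauC (κ u) + M 1 1) * h4
      - (M 1 0 : ℂ) * (deriv V.tauC (κ u) * deriv κ u) * hu.1
      + (deriv V.tauC (κ u) * deriv κ u) * h5
  · intro j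
    have h1 : ∀ l, HasDerivAt (fun u' => V.vC l (κ u')) (deriv (V.vC l) (κ u) * deriv κ u) u :=
      fun l => HasDerivAt.comp u (V.vC_diff l him).hasDerivAt hκ.hasDerivAt
    have h2 : HasDerivAt (fun u' => ∑ l, (act k M).map (algebraMap ℚ ℂ) j l * V.vC l (κ u'))
        (∑ l, (act k M).map (algebraMap ℚ ℂ) j l * (deriv (V.vC l) (κ u) * deriv κ u)) u :=
      HasDerivAt.fun_sum fun l _ => (h1 l).const_mul _
    have h3 : HasDerivAt (W j)
        (∑ l, (act k M).map (algebraMap ℚ ℂ) j l * (deriv (V.vC l) (κ u) * deriv κ u)) u := by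
      apply h2.congr_of_eventuallyEq
      filter_upwards [h] with x hx
      rw [hx.2 j]
      rfl
    rw [h3.deriv]
    have h4 := congrFun (act_frm (k := k) M (i := k) le_rfl hu.1 hu.1) j
    rw [Nat.sub_self, pow_zero, mul_one, Pi.smul_apply, smul_eq_mul] at h4
    have h5 : ((act k M).map (algebraMap ℚ ℂ) *ᵥ frm k (V.tauC (κ u)) (V.tauC (κ u)) k) j
        = ∑ l, (act k M).map (algebraMap ℚ ℂ) j l
          * frm k (V.tauC (κ u)) (V.tauC (κ u)) k l := rfl
    rw [h5] at h4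
    rw [mul_assoc, ← h4, Finset.mul_sum]
    apply Finset.sum_congr rfl
    intro l _
    rw [LC16_dv V l him]
    ring

theorem LC16_far (V : Variation k X) (hk : 1 ≤ k) (hns : ¬ V.Split) (M : SL(2, ℤ))
    {F κ : ℂ → ℂ} {W : Fin (k + 1) → ℂ → ℂ} {u : ℂ} (hF : AnalyticAt ℂ F u)
    (hκ : AnalyticAt ℂ κ u) (hκ' : deriv κ u ≠ 0) (him : 0 < (κ u).im)
    (h : ∀ᶠ u' in 𝓝 u, F u' * ((M 1 0 : ℂ) * V.tauC (κ u') + M 1 1) =
        (M 0 0 : ℂ) * V.tauC (κ u') + M 0 1 ∧
      ∀ j, W j u' = ((act k M).map (algebraMap ℚ ℂ) *ᵥ fun l => V.vC l (κ u')) j) :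
    ∀ᶠ u' in 𝓝[≠] u, deriv F u' ≠ 0 ∧ deriv (W (Fin.last k)) u' ≠ 0 := by
  have h1 : ∀ᶠ u' in 𝓝[≠] u, AnalyticAt ℂ F u' ∧ AnalyticAt ℂ κ u' ∧ deriv κ u' ≠ 0 ∧
      0 < (κ u').im ∧ ∀ᶠ u'' in 𝓝 u', F u'' * ((M 1 0 : ℂ) * V.tauC (κ u'') + M 1 1) =
        (M 0 0 : ℂ) * V.tauC (κ u'') + M 0 1 ∧
      ∀ j, W j u'' = ((act k M).map (algebraMap ℚ ℂ) *ᵥ fun l => V.vC l (κ u'')) j := by
    apply nhdsWithin_le_nhds
    have h2 : ∀ᶠ u' in 𝓝 u, 0 < (κ u').im :=
      hκ.continuousAt.eventually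
        ((isOpen_lt continuous_const Complex.continuous_im).mem_nhds him)
    filter_upwards [hF.eventually_analyticAt, hκ.eventually_analyticAt,
      hκ.deriv.continuousAt.eventually_ne hκ', h2, eventually_eventually_nhds.2 h]
      with a h3 h4 h5 h6 h7
    exact ⟨h3, h4, h5, h6, h7⟩
  have h2 : Tendsto κ (𝓝[≠] u) (𝓝[≠] (κ u)) :=
    hκ.differentiableAt.hasDerivAt.tendsto_nhdsNE hκ'
  filter_upwards [h1, h2.eventually (V.t1_ne him), h2.eventually (V.g_ne hk hns him)]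
    with a h3 h4 h5
  obtain ⟨hFa, hκa, hκa', hima, hra⟩ := h3
  obtain ⟨hA, hB⟩ := LC16_A V M hFa.differentiableAt hκa.differentiableAt hima hra
  have hr : deriv V.tauC (κ a) * deriv κ a ≠ 0 := mul_ne_zero h4.2 hκa'
  rw [← hA] at hr
  have hd : (M 1 0 : ℂ) * V.tauC (κ a) + M 1 1 ≠ 0 := by
    intro h6
    rw [h6] at hr
    simp at hr
  refine ⟨left_ne_zero_of_mul hr, ?_⟩
  rw [hB, LC16_last, mul_one]
  exact mul_ne_zero (mul_ne_zero hκa' h5) (pow_ne_zero _ hd)

theorem LC16_ee (z : ℂ) : HasDerivAt ee (ee z * (2 * Real.pi * Complex.I)) z := by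
  unfold ee
  exact ((hasDerivAt_id z).const_mul (2 * Real.pi * Complex.I)).cexp.congr_deriv (by simp)

theorem LC16_s {s : ℂ → ℍ} {Y : ℝ} (hE : X.IsEnd s Y) {ζ : ℂ} (hζ : Y < ζ.im) :
    DifferentiableAt ℂ (fun z => (s z : ℂ)) ζ ∧ deriv (fun z => (s z : ℂ)) ζ ≠ 0 := by
  have hpi : (2 * Real.pi * Complex.I : ℂ) ≠ 0 := Complex.two_pi_I_ne_zero
  obtain ⟨hc, h⟩ := hE
  rcases h with ⟨b, _, h⟩ | h
  · have hd : ∀ z, HasDerivAt (fun z => b + ee z) (ee z * (2 * Real.pi * Complex.I)) z :=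
      fun z => (LC16_ee z).const_add b
    obtain ⟨h1, h2⟩ := X.lift_differentiable hc h (fun z _ => (hd z).differentiableAt) hζ
    refine ⟨h1, fun h3 => ?_⟩
    rw [h3, mul_zero, (hd ζ).deriv] at h2
    exact mul_ne_zero (Complex.exp_ne_zero _) hpi h2.symm
  · have hd : ∀ z, HasDerivAt (fun z => ee (-z)) (ee (-z) * (2 * Real.pi * Complex.I) * (-1)) z :=
      fun z => HasDerivAt.comp (h₂ := ee) z (LC16_ee (-z)) (hasDerivAt_neg z)
    obtain ⟨h1, h2⟩ := X.lift_differentiable hc h (fun z _ => (hd z).differentiableAt) hζ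
    refine ⟨h1, fun h3 => ?_⟩
    rw [h3, mul_zero, (hd ζ).deriv] at h2
    exact mul_ne_zero (mul_ne_zero (Complex.exp_ne_zero _) hpi) (by norm_num) h2.symm

theorem LC16_loc (V : Variation k X) {s : ℂ → ℍ}
    {Y : ℝ} (hE : X.IsEnd s Y) (E : EndForm V s Y) (hm : E.m = 0) {W : Fin (k + 1) → ℂ → ℂ}
    {Y' : ℝ} (h : ∀ ζ : ℂ, Y' < ζ.im → ∀ j,
        W j (ee (ζ / E.n)) = ((act k E.M).map (algebraMap ℚ ℂ) *ᵥ V.v (s ζ)) j) :
    ∀ᶠ u in 𝓝[≠] (0 : ℂ), ∃ κ : ℂ → ℂ, AnalyticAt ℂ κ u ∧ deriv κ u ≠ 0 ∧ 0 < (κ u).im ∧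
    ∀ᶠ u' in 𝓝 u, E.F u' * ((E.M 1 0 : ℂ) * V.tauC (κ u') + E.M 1 1) =
        (E.M 0 0 : ℂ) * V.tauC (κ u') + E.M 0 1 ∧
      ∀ j, W j u' = ((act k E.M).map (algebraMap ℚ ℂ) *ᵥ fun l => V.vC l (κ u')) j := by
  have hn0 : (E.n : ℂ) ≠ 0 := by
    have := E.hn
    rw [Nat.cast_ne_zero]
    omega
  have hpi : (2 * Real.pi * Complex.I : ℂ) ≠ 0 := Complex.two_pi_I_ne_zero
  filter_upwards [LibUB33.PerC94.ee_surj E.hn (max Y (max E.Y' Y')), self_mem_nhdsWithin] with u hu hu0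
  obtain ⟨ζ, hζ, hζu⟩ := hu
  have hu0' : u ≠ 0 := hu0
  set lam : ℂ → ℂ := fun u' => ζ + E.n / (2 * Real.pi * Complex.I) * Complex.log (u' / u)
    with hlam
  have hlamu : lam u = ζ := by
    rw [hlam]
    simp only []
    rw [div_self hu0', Complex.log_one, mul_zero, add_zero]
  have hslit : u / u ∈ Complex.slitPlane := by
    rw [div_self hu0']
    exact Complex.one_mem_slitPlane
  have hlam_an : AnalyticAt ℂ lam u := by
    apply analyticAt_const.add
    apply analyticAt_const.mul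
    exact AnalyticAt.clog (analyticAt_id.div_const) hslit
  have hlam_d : HasDerivAt lam (E.n / (2 * Real.pi * Complex.I) * (1 / u / (u / u))) u := by
    have h1 : HasDerivAt (fun u' : ℂ => Complex.log (u' / u)) (1 / u / (u / u)) u :=
      ((hasDerivAt_id u).div_const u).clog hslit
    exact (h1.const_mul _).const_add _
  have hlam_eq : ∀ u', u' ≠ 0 → ee (lam u' / E.n) = u' := by
    intro u' hu'
    have h1 : ee (lam u' / E.n) = ee (ζ / E.n) * (u' / u) := by
      have h2 : 2 * Real.pi * Complex.I * (lam u' / E.n)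
          = 2 * Real.pi * Complex.I * (ζ / E.n) + Complex.log (u' / u) := by
        rw [hlam]
        field_simp
      rw [ee, h2, Complex.exp_add, Complex.exp_log (div_ne_zero hu' hu0'), ee]
    rw [h1, hζu]
    field_simp
  have hYY : Y < ζ.im := lt_of_le_of_lt (le_max_left _ _) hζ
  have hopen : IsOpen {z : ℂ | Y < z.im} := isOpen_lt continuous_const Complex.continuous_im
  have hs_an : AnalyticAt ℂ (fun z => (s z : ℂ)) ζ := by
    have h1 : DifferentiableOn ℂ (fun z => (s z : ℂ)) {z : ℂ | Y < z.im} :=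
      fun z hz => (LC16_s hE hz).1.differentiableWithinAt
    exact h1.analyticAt (hopen.mem_nhds hYY)
  refine ⟨fun u' => (s (lam u') : ℂ), ?_, ?_, (s (lam u)).im_pos, ?_⟩
  · have h1 : AnalyticAt ℂ (fun z => (s z : ℂ)) (lam u) := by
      rw [hlamu]
      exact hs_an
    exact AnalyticAt.comp (g := fun z => (s z : ℂ)) (f := lam) h1 hlam_an
  · have h1 : HasDerivAt (fun z => (s z : ℂ)) (deriv (fun z => (s z : ℂ)) ζ) (lam u) := by
      rw [hlamu]
      exact (LC16_s hE hYY).1.hasDerivAt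
    have h2 : HasDerivAt (fun u' => (s (lam u') : ℂ)) _ u := HasDerivAt.comp u h1 hlam_d
    rw [h2.deriv, div_self hu0']
    apply mul_ne_zero (LC16_s hE hYY).2
    apply mul_ne_zero (div_ne_zero hn0 hpi)
    rw [div_one]
    exact one_div_ne_zero hu0'
  · have h1 : ∀ᶠ u' in 𝓝 u, max Y (max E.Y' Y') < (lam u').im := by
      have h9 : ∀ᶠ z in 𝓝 (lam u), max Y (max E.Y' Y') < z.im := by
        rw [hlamu]
        exact (isOpen_lt continuous_const Complex.continuous_im).mem_nhds hζ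
      exact hlam_an.continuousAt.eventually h9
    have h2 : ∀ᶠ u' in 𝓝 u, u' ≠ 0 := isOpen_ne.mem_nhds hu0'
    filter_upwards [h1, h2] with u' h3 h4
    have h5 := hlam_eq u' h4
    have h6 := E.hτ (lam u') (lt_of_le_of_lt ((le_max_left _ _).trans (le_max_right _ _)) h3)
    have h7 := h (lam u') (lt_of_le_of_lt ((le_max_right _ _).trans (le_max_right _ _)) h3)
    rw [hm, h5] at h6
    rw [h5] at h7
    simp only [Nat.cast_zero, zero_mul, zero_add] at h6
    constructor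
    · have h8 := LC16_smul E.M (V.τ (s (lam u')))
      rw [h6] at h8
      unfold Variation.tauC
      rw [ofComplex_apply]
      exact h8
    · intro j
      rw [h7 j]
      unfold Variation.vC
      simp only [ofComplex_apply]

theorem LC16_cont {F : ℂ → ℂ} (hF : AnalyticAt ℂ F 0) {W : Fin (k + 1) → ℂ → ℂ}
    (hW : ∀ j, AnalyticAt ℂ (W j) 0)
    (h : ∀ᶠ u in 𝓝[≠] (0 : ℂ), ∀ j, deriv (W j) u = deriv (W (Fin.last k)) u *
      frm k (F u) (F u) k j) :
    ∀ᶠ u in 𝓝 (0 : ℂ), ∀ j, deriv (W j) u = deriv (W (Fin.last k)) u *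
      frm k (F u) (F u) k j := by
  have h0 : ∀ j, deriv (W j) 0 = deriv (W (Fin.last k)) 0 * frm k (F 0) (F 0) k j := by
    intro j
    have h1 : Tendsto (fun u => deriv (W j) u) (𝓝[≠] 0) (𝓝 (deriv (W j) 0)) :=
      (hW j).deriv.continuousAt.tendsto.mono_left nhdsWithin_le_nhds
    have h2 : ContinuousAt (fun u => deriv (W (Fin.last k)) u * frm k (F u) (F u) k j) 0 := by
      simp only [LC16_frm]
      have h3 := (hW (Fin.last k)).deriv.continuousAt
      have h4 := hF.continuousAt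
      exact h3.mul ((h4.neg.pow _).mul continuousAt_const)
    have h3 : Tendsto (fun u => deriv (W (Fin.last k)) u * frm k (F u) (F u) k j) (𝓝[≠] 0)
        (𝓝 (deriv (W (Fin.last k)) 0 * frm k (F 0) (F 0) k j)) :=
      h2.tendsto.mono_left nhdsWithin_le_nhds
    apply tendsto_nhds_unique h1
    apply (tendsto_congr' _).1 h3
    filter_upwards [h] with u hu
    exact (hu j).symm
  filter_upwards [eventually_nhdsWithin_iff.1 h] with u hu
  by_cases hu0 : u = 0
  · rw [hu0]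
    exact h0
  · exact hu hu0

/-- The chart at a puncture with finite monodromy. -/
theorem Variation.filled_chart (V : Variation k X) (hk : 1 ≤ k) (hns : ¬ V.Split) {s : ℂ → ℍ}
    {Y : ℝ} (hE : X.IsEnd s Y) (E : EndForm V s Y) (hm : E.m = 0) {W : Fin (k + 1) → ℂ → ℂ}
    {Y' : ℝ} (hW : ∀ j, AnalyticAt ℂ (W j) 0) (h : ∀ ζ : ℂ, Y' < ζ.im → ∀ j,
        W j (ee (ζ / E.n)) = ((act k E.M).map (algebraMap ℚ ℂ) *ᵥ V.v (s ζ)) j) :
    Chart V E.F W E.M := by
  have hloc := LC16_loc V hE E hm h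
  have hF := E.hF
  have hFan : ∀ᶠ u in 𝓝[≠] (0 : ℂ), AnalyticAt ℂ E.F u :=
    nhdsWithin_le_nhds hF.eventually_analyticAt
  have htr : ∀ᶠ u in 𝓝[≠] (0 : ℂ), ∀ j, deriv (W j) u = deriv (W (Fin.last k)) u *
      frm k (E.F u) (E.F u) k j := by
    filter_upwards [hloc, hFan] with u hu hu2 j
    obtain ⟨κ, h1, h2, h3, h4⟩ := hu
    obtain ⟨_, hB⟩ := LC16_A V E.M hu2.differentiableAt h1.differentiableAt h3 h4
    rw [hB j, hB (Fin.last k), LC16_last, mul_one]
  have hfar : ∀ᶠ u in 𝓝[≠] (0 : ℂ), ∀ᶠ u' in 𝓝[≠] u, deriv E.F u' ≠ 0 ∧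
      deriv (W (Fin.last k)) u' ≠ 0 := by
    filter_upwards [hloc, hFan] with u hu hu2
    obtain ⟨κ, h1, h2, h3, h4⟩ := hu
    exact LC16_far V hk hns E.M hu2 h1 h2 h3 h4
  have key : ∀ f : ℂ → ℂ, AnalyticAt ℂ f 0 →
      (∀ᶠ u in 𝓝[≠] (0 : ℂ), ∀ᶠ u' in 𝓝[≠] u, f u' ≠ 0) → ∀ᶠ u in 𝓝[≠] (0 : ℂ), f u ≠ 0 := by
    intro f hf h1
    rcases hf.eventually_eq_zero_or_eventually_ne_zero with h2 | h2
    · exfalso
      have h3 : ∀ᶠ u in 𝓝[≠] (0 : ℂ), ∀ᶠ u' in 𝓝 u, f u' = 0 :=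
        nhdsWithin_le_nhds (eventually_eventually_nhds.2 h2)
      obtain ⟨u, h4, h5⟩ := (h1.and h3).exists
      obtain ⟨u', h6, h7⟩ := (h4.and (nhdsWithin_le_nhds h5)).exists
      exact h6 h7
    · exact h2
  refine ⟨⟨hF, E.hF0 hm, hW, ?_, ?_, ?_⟩, hloc⟩
  · filter_upwards [LC16_cont hF hW htr] with u hu
    exact ⟨_, hu⟩
  · exact key _ hF.deriv (hfar.mono fun u hu => hu.mono fun u' hu' => hu'.1)
  · exact key _ (hW _).deriv (hfar.mono fun u hu => hu.mono fun u' hu' => hu'.2)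

theorem LC17_cc_deriv {f : ℂ → ℂ} {w : ℂ} (h : DifferentiableAt ℂ f (conj w)) :
    HasDerivAt (cc f) (conj (deriv f (conj w))) w := by
  have h1 := h.hasDerivAt.conj_conj
  rw [Complex.conj_conj] at h1
  exact h1

theorem LC17_cc_an {f : ℂ → ℂ} {w : ℂ} (h : AnalyticAt ℂ f (conj w)) : AnalyticAt ℂ (cc f) w := by
  rw [Complex.analyticAt_iff_eventually_differentiableAt]
  have h1 := Complex.analyticAt_iff_eventually_differentiableAt.1 h
  have h2 : Tendsto (fun u : ℂ => (conj u : ℂ)) (𝓝 w) (𝓝 (conj w)) :=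
    Complex.continuous_conj.continuousAt
  filter_upwards [h2.eventually h1] with u hu
  exact (LC17_cc_deriv hu).differentiableAt

theorem LC17_den (M : SL(2, ℤ)) {s : ℂ} (hs : s.im ≠ 0) : (M 1 0 : ℂ) * s + M 1 1 ≠ 0 := by
  intro h
  have h1 := congrArg Complex.im h
  simp only [Complex.add_im, Complex.mul_im, Complex.intCast_re, Complex.intCast_im, zero_mul,
    add_zero, Complex.zero_im, mul_eq_zero, Int.cast_eq_zero] at h1
  have h2 : M 1 0 = 0 := h1.resolve_right hs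
  rw [h2, Int.cast_zero, zero_mul, zero_add, Int.cast_eq_zero] at h
  have h3 := M.2
  rw [Matrix.det_fin_two] at h3
  have h4 : (M : Matrix (Fin 2) (Fin 2) ℤ) 1 0 = 0 := h2
  have h5 : (M : Matrix (Fin 2) (Fin 2) ℤ) 1 1 = 0 := h
  rw [h4, h5] at h3
  simp at h3

theorem LC17_tauC_im (V : Variation k X) (w : ℂ) : 0 < (V.tauC w).im := (V.τ (ofComplex w)).im_pos

/-- The derivative of the period does not vanish at the point of the chart. -/
theorem LC17_t1 (V : Variation k X) {T κ : ℂ → ℂ} {M : SL(2, ℤ)} {u : ℂ}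
    (hκ : AnalyticAt ℂ κ u) (him : 0 < (κ u).im)
    (hrel : ∀ᶠ u' in 𝓝 u, T u' * ((M 1 0 : ℂ) * V.tauC (κ u') + M 1 1) =
        (M 0 0 : ℂ) * V.tauC (κ u') + M 0 1) (hT : DifferentiableAt ℂ T u) (hT' : deriv T u ≠ 0) :
    V.t1 (κ u) ≠ 0 := by
  intro h0
  have hτ := V.tauC_diff him
  have h1 : deriv V.tauC (κ u) = 0 := by
    have h2 : deriv V.tauC (κ u) / deriv (lamC X) (κ u) = 0 := h0
    exact (div_eq_zero_iff.1 h2).resolve_right (lamC_diff X him).2
  have h3 : HasDerivAt (fun u' => V.tauC (κ u')) 0 u := by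
    have h4 := hτ.1.hasDerivAt.comp u hκ.differentiableAt.hasDerivAt
    rw [h1, zero_mul] at h4
    exact h4
  have h5 : HasDerivAt (fun u' => T u' * ((M 1 0 : ℂ) * V.tauC (κ u') + M 1 1))
      (deriv T u * ((M 1 0 : ℂ) * V.tauC (κ u) + M 1 1) + T u * ((M 1 0 : ℂ) * 0)) u :=
    hT.hasDerivAt.mul ((h3.const_mul (M 1 0 : ℂ)).add_const _)
  have h6 : HasDerivAt (fun u' => (M 0 0 : ℂ) * V.tauC (κ u') + M 0 1) ((M 0 0 : ℂ) * 0) u :=
    (h3.const_mul (M 0 0 : ℂ)).add_const _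
  have h7 := (h6.congr_of_eventuallyEq hrel).unique h5
  rw [mul_zero, mul_zero, mul_zero, add_zero] at h7
  rcases mul_eq_zero.1 h7.symm with h8 | h8
  · exact hT' h8
  · exact LC17_den M (LC17_tauC_im V (κ u)).ne' h8

theorem LC17_conj_act (M : SL(2, ℤ)) (p : Fin (k + 1) → ℂ) (j : Fin (k + 1)) :
    conj (((act k M).map (algebraMap ℚ ℂ) *ᵥ p) j) =
      ((act k M).map (algebraMap ℚ ℂ) *ᵥ fun l => conj (p l)) j := by
  simp only [Matrix.mulVec, dotProduct, map_sum, map_mul, Matrix.map_apply]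
  refine Finset.sum_congr rfl fun l _ => ?_
  rw [eq_ratCast, map_ratCast]

/-- The relation between the coordinates. -/
theorem LC17_rel (V : Variation k X) {T : ℂ → ℂ} {W : Fin (k + 1) → ℂ → ℂ} {M : SL(2, ℤ)}
    {i : ℕ} (hi : i ≤ k) {u w z y : ℂ}
    (h1 : T u * ((M 1 0 : ℂ) * V.tauC z + M 1 1) = (M 0 0 : ℂ) * V.tauC z + M 0 1)
    (h2 : ∀ j, W j u = ((act k M).map (algebraMap ℚ ℂ) *ᵥ fun l => V.vC l z) j)
    (h3 : T (conj w) * ((M 1 0 : ℂ) * V.tauC (conj y) + M 1 1) =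
      (M 0 0 : ℂ) * V.tauC (conj y) + M 0 1)
    (h4 : ∀ j, W j (conj w) = ((act k M).map (algebraMap ℚ ℂ) *ᵥ fun l => V.vC l (conj y)) j)
    (h : zf2 k T W i u w = 0) :
    gco k (V.tauC z) (cc V.tauC y) (fun j => V.vC j z - cc (V.vC j) y) i = 0 := by
  have hst : V.tauC z ≠ cc V.tauC y := by
    intro e
    have e1 := congrArg Complex.im e
    have e2 : (cc V.tauC y).im = -(V.tauC (conj y)).im := Complex.conj_im _
    have e3 := LC17_tauC_im V z
    have e4 := LC17_tauC_im V (conj y)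
    rw [e2] at e1
    linarith
  have ht : cc T w * ((M 1 0 : ℂ) * cc V.tauC y + M 1 1) =
      (M 0 0 : ℂ) * cc V.tauC y + M 0 1 := by
    have e := congrArg (starRingEnd ℂ) h3
    simp only [map_mul, map_add, map_intCast] at e
    exact e
  have h5 := gco_smul M hst h1 ht (fun j => V.vC j z - cc (V.vC j) y) hi
  have h6 : (act k M).map (algebraMap ℚ ℂ) *ᵥ (fun j => V.vC j z - cc (V.vC j) y) =
      fun j => W j u - cc (W j) w := by
    have e1 : (fun j => V.vC j z - cc (V.vC j) y) =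
        (fun l => V.vC l z) - fun l => cc (V.vC l) y := rfl
    rw [e1, Matrix.mulVec_sub]
    funext j
    rw [Pi.sub_apply, h2 j]
    have e2 : cc (W j) w = ((act k M).map (algebraMap ℚ ℂ) *ᵥ fun l => cc (V.vC l) y) j := by
      have e3 : cc (W j) w = conj (W j (conj w)) := rfl
      rw [e3, h4 j, LC17_conj_act]
      rfl
    rw [e2]
  rw [h6] at h5
  have h7 : gco k (T u) (cc T w) (fun j => W j u - cc (W j) w) i = 0 := h
  rw [h7, zero_mul] at h5
  exact h5.symm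

/-- An arc in a chart gives a germ on the half plane. -/
theorem Chart.transfer {V : Variation k X} {T : ℂ → ℂ} {W : Fin (k + 1) → ℂ → ℂ} {M : SL(2, ℤ)}
    (H : Chart V T W M) {S : ℂ → ℂ} (hS : AnalyticAt ℂ S 0) (hS0 : S 0 = 0) (hS' : deriv S 0 ≠ 0)
    {i : ℕ} (hi : i ≤ k) (h : ∀ᶠ u in 𝓝 (0 : ℂ), zf2 k T W i u (S u) = 0)
    (h' : ∀ᶠ u in 𝓝 (0 : ℂ), zf2 k T W (k - i) u (S u) = 0) :
    ∃ (z₁ : ℂ) (φ : ℂ → ℂ), 0 < z₁.im ∧ AnalyticAt ℂ φ z₁ ∧ (φ z₁).im < 0 ∧ deriv φ z₁ ≠ 0 ∧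
      V.t1 z₁ ≠ 0 ∧ cc V.t1 (φ z₁) ≠ 0 ∧
      (∀ᶠ u in 𝓝 z₁, gco k (V.tauC u) (cc V.tauC (φ u))
        (fun j => V.vC j u - cc (V.vC j) (φ u)) i = 0) ∧
      ∀ᶠ u in 𝓝 z₁, gco k (V.tauC u) (cc V.tauC (φ u))
        (fun j => V.vC j u - cc (V.vC j) (φ u)) (k - i) = 0 := by
  -- the conjugate point
  have hconj : Tendsto (fun u => conj (S u)) (𝓝[≠] (0 : ℂ)) (𝓝[≠] (0 : ℂ)) := by
    apply tendsto_nhdsWithin_of_tendsto_nhds_of_eventually_within
    · have h1 : ContinuousAt (fun u => conj (S u)) 0 :=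
        Complex.continuous_conj.continuousAt.comp hS.continuousAt
      have h2 := h1.tendsto
      rw [hS0, map_zero] at h2
      exact h2.mono_left nhdsWithin_le_nhds
    · have h1 : ∀ᶠ u in 𝓝[≠] (0 : ℂ), S u ≠ 0 := by
        have := hS.differentiableAt.hasDerivAt.eventually_ne (c := S 0) hS'
        rwa [hS0] at this
      filter_upwards [h1] with u hu h2
      exact hu ((map_eq_zero (starRingEnd ℂ)).1 h2)
  have hTan : ∀ᶠ u in 𝓝 (0 : ℂ), AnalyticAt ℂ T u := H.T_an.eventually_analyticAt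
  have hSan : ∀ᶠ u in 𝓝 (0 : ℂ), AnalyticAt ℂ S u := hS.eventually_analyticAt
  have hSd : ∀ᶠ u in 𝓝 (0 : ℂ), deriv S u ≠ 0 := hS.deriv.continuousAt.eventually_ne hS'
  have hev : ∀ᶠ u in 𝓝[≠] (0 : ℂ),
      (∃ κ : ℂ → ℂ, AnalyticAt ℂ κ u ∧ deriv κ u ≠ 0 ∧ 0 < (κ u).im ∧
        ∀ᶠ u' in 𝓝 u, T u' * ((M 1 0 : ℂ) * V.tauC (κ u') + M 1 1) =
          (M 0 0 : ℂ) * V.tauC (κ u') + M 0 1 ∧
        ∀ j, W j u' = ((act k M).map (algebraMap ℚ ℂ) *ᵥ fun l => V.vC l (κ u')) j) ∧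
      (∃ κ : ℂ → ℂ, AnalyticAt ℂ κ (conj (S u)) ∧ deriv κ (conj (S u)) ≠ 0 ∧
        0 < (κ (conj (S u))).im ∧
        ∀ᶠ u' in 𝓝 (conj (S u)), T u' * ((M 1 0 : ℂ) * V.tauC (κ u') + M 1 1) =
          (M 0 0 : ℂ) * V.tauC (κ u') + M 0 1 ∧
        ∀ j, W j u' = ((act k M).map (algebraMap ℚ ℂ) *ᵥ fun l => V.vC l (κ u')) j) ∧
      (AnalyticAt ℂ T u ∧ deriv T u ≠ 0) ∧
      (AnalyticAt ℂ T (conj (S u)) ∧ deriv T (conj (S u)) ≠ 0) ∧
      (AnalyticAt ℂ S u ∧ deriv S u ≠ 0) ∧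
      (∀ᶠ u' in 𝓝 u, zf2 k T W i u' (S u') = 0) ∧
      (∀ᶠ u' in 𝓝 u, zf2 k T W (k - i) u' (S u') = 0) := by
    filter_upwards [H.loc, hconj.eventually H.loc, hTan.filter_mono nhdsWithin_le_nhds, H.T_nc,
      hconj.eventually (hTan.filter_mono nhdsWithin_le_nhds), hconj.eventually H.T_nc,
      hSan.filter_mono nhdsWithin_le_nhds, hSd.filter_mono nhdsWithin_le_nhds,
      h.eventually_nhds.filter_mono nhdsWithin_le_nhds,
      h'.eventually_nhds.filter_mono nhdsWithin_le_nhds] with u a1 a2 a3 a4 a5 a6 a7 a8 a9 a10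
    exact ⟨a1, a2, ⟨a3, a4⟩, ⟨a5, a6⟩, ⟨a7, a8⟩, a9, a10⟩
  obtain ⟨u₁, ⟨κ, k1, k2, k3, k4⟩, ⟨κ', l1, l2, l3, l4⟩, ⟨t1, t2⟩, ⟨t3, t4⟩, ⟨s1, s2⟩, e1, e2⟩ :=
    hev.exists
  clear hev hconj hTan hSan hSd h h' hS hS0 hS'
  -- the local inverse
  obtain ⟨lam, m1, m2, m3, m4⟩ : ∃ lam : ℂ → ℂ, AnalyticAt ℂ lam (κ u₁) ∧ lam (κ u₁) = u₁ ∧
      (∀ᶠ z in 𝓝 (κ u₁), κ (lam z) = z) ∧ deriv lam (κ u₁) ≠ 0 := by
    refine ⟨k1.hasStrictDerivAt.localInverse _ _ _ k2, k1.analyticAt_localInverse k2,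
      HasStrictFDerivAt.localInverse_apply_image .., ?_, ?_⟩
    · exact HasStrictDerivAt.eventually_right_inverse ..
    · have h1 : HasStrictDerivAt (k1.hasStrictDerivAt.localInverse _ _ _ k2) (deriv κ u₁)⁻¹
        (κ u₁) := HasStrictDerivAt.to_localInverse ..
      rw [h1.hasDerivAt.deriv]
      exact inv_ne_zero k2
  have hφan : AnalyticAt ℂ (cc κ') (S u₁) := LC17_cc_an l1
  have hSl : AnalyticAt ℂ (fun z => S (lam z)) (κ u₁) := by
    refine AnalyticAt.comp (g := S) ?_ m1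
    rw [m2]
    exact s1
  have hcont : Tendsto (fun z => conj (S (lam z))) (𝓝 (κ u₁)) (𝓝 (conj (S u₁))) := by
    have h1 : ContinuousAt (fun z => conj (S (lam z))) (κ u₁) :=
      Complex.continuous_conj.continuousAt.comp hSl.continuousAt
    have h2 := h1.tendsto
    rw [m2] at h2
    exact h2
  have hlt : Tendsto lam (𝓝 (κ u₁)) (𝓝 u₁) := by
    have h2 := m1.continuousAt.tendsto
    rw [m2] at h2
    exact h2
  have key : ∀ i' ≤ k, (∀ᶠ u' in 𝓝 u₁, zf2 k T W i' u' (S u') = 0) →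
      ∀ᶠ u in 𝓝 (κ u₁), gco k (V.tauC u) (cc V.tauC (cc κ' (S (lam u))))
        (fun j => V.vC j u - cc (V.vC j) (cc κ' (S (lam u)))) i' = 0 := by
    intro i' hi' he
    filter_upwards [m3, hlt.eventually k4, hcont.eventually l4, hlt.eventually he]
      with z a1 a2 a3 a4
    rw [a1] at a2
    have a5 : conj (cc κ' (S (lam z))) = κ' (conj (S (lam z))) := Complex.conj_conj _
    refine LC17_rel V hi' (y := cc κ' (S (lam z))) a2.1 a2.2 ?_ ?_ a4
    · rw [a5]
      exact a3.1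
    · rw [a5]
      exact a3.2
  refine ⟨κ u₁, fun z => cc κ' (S (lam z)), k3, ?_, ?_, ?_, ?_, ?_, key i hi e1,
    key (k - i) (Nat.sub_le _ _) e2⟩
  · refine AnalyticAt.comp (g := cc κ') ?_ hSl
    rw [m2]
    exact hφan
  · change (cc κ' (S (lam (κ u₁)))).im < 0
    rw [m2]
    have h1 : (cc κ' (S u₁)).im = -(κ' (conj (S u₁))).im := Complex.conj_im _
    rw [h1]
    linarith
  · have h1 : HasDerivAt (cc κ') (conj (deriv κ' (conj (S u₁)))) (S (lam (κ u₁))) := by
      rw [m2]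
      exact LC17_cc_deriv l1.differentiableAt
    have h2 : HasDerivAt S (deriv S u₁) (lam (κ u₁)) := by
      rw [m2]
      exact s1.differentiableAt.hasDerivAt
    have h3 := h1.comp (κ u₁) (h2.comp (κ u₁) m1.differentiableAt.hasDerivAt)
    have h4 : deriv (fun z => cc κ' (S (lam z))) (κ u₁) =
        conj (deriv κ' (conj (S u₁))) * (deriv S u₁ * deriv lam (κ u₁)) := h3.deriv
    rw [h4]
    exact mul_ne_zero ((map_ne_zero (starRingEnd ℂ)).2 l2) (mul_ne_zero s2 m4)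
  · exact LC17_t1 V k1 k3 (k4.mono fun _ a => a.1) t1.differentiableAt t2
  · change conj (V.t1 (conj (cc κ' (S (lam (κ u₁)))))) ≠ 0
    have a5 : conj (cc κ' (S (lam (κ u₁)))) = κ' (conj (S u₁)) := by
      rw [m2]
      exact Complex.conj_conj _
    rw [a5]
    exact (map_ne_zero (starRingEnd ℂ)).2
      (LC17_t1 V l1 l3 (l4.mono fun _ a => a.1) t3.differentiableAt t4)

theorem lc18_deriv_cc (f : ℂ → ℂ) (w : ℂ) : deriv (cc f) w = conj (deriv f (conj w)) := by
  have h : cc f = (starRingEnd ℂ : ℂ → ℂ) ∘ f ∘ (starRingEnd ℂ : ℂ → ℂ) := rfl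
  rw [h, deriv_conj_conj]
  rfl

/-- The zeros are isolated in every chart. -/
theorem Chart.isolated {V : Variation k X} (hk : 1 ≤ k) (hns : ¬ V.Split) {T : ℂ → ℂ}
    {W : Fin (k + 1) → ℂ → ℂ} {M : SL(2, ℤ)} (H : Chart V T W M) {i : ℕ} (hi : i ≤ k)
    (hi2 : 2 * i ≠ k) : ∀ᶠ u in 𝓝[≠] (0 : ℂ), zf k T W i u ≠ 0 := by
  by_contra hcon
  have hz : ∃ᶠ u in 𝓝[≠] (0 : ℂ), zf k T W i u = 0 := by
    rw [Filter.Frequently]
    exact hcon
  obtain ⟨S, hS, hS0, hS', h, h'⟩ := H.toLocD.arc hi hz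
  obtain ⟨z₁, φ, hz₁, hφ, him, hd, ht, ht', g, g'⟩ := H.transfer hS hS0 hS' hi h h'
  have G := V.gen hk hns
  have ht2 : dx (lamC X) V.tauC z₁ ≠ 0 := ht
  have h1 : deriv V.tauC z₁ ≠ 0 := by
    intro h0
    apply ht2
    simp only [dx, h0, zero_div]
  have ht3 : conj (dx (lamC X) V.tauC (conj (φ z₁))) ≠ 0 := ht'
  have h1' : deriv (cc V.tauC) (φ z₁) ≠ 0 := by
    rw [lc18_deriv_cc]
    intro h0
    apply ht3
    have h2 : deriv V.tauC (conj (φ z₁)) = 0 := by
      rw [← Complex.conj_conj (deriv V.tauC (conj (φ z₁))), h0, map_zero]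
    simp only [dx, h2, zero_div, map_zero]
  have hne : V.tauC z₁ ≠ cc V.tauC (φ z₁) := by
    intro h0
    have h2 : 0 < (V.tauC z₁).im := (V.τ (ofComplex z₁)).im_pos
    have h3 : 0 < (V.tauC (conj (φ z₁))).im := (V.τ (ofComplex (conj (φ z₁)))).im_pos
    have h4 : (cc V.tauC (φ z₁)).im = -(V.tauC (conj (φ z₁))).im := Complex.conj_im _
    rw [← h0] at h4
    linarith
  have hu' : φ z₁ ∈ (fun w : ℂ => conj w) ⁻¹' {w : ℂ | 0 < w.im} := by
    show 0 < (conj (φ z₁)).im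
    rw [Complex.conj_im]
    linarith
  obtain ⟨P₁, P₂, p1, p2, hP⟩ := Gen.relations hk G G.cc hφ hz₁ hu' hd h1 h1' hne hi hi2 g g'
  exact V.no_relation hz₁ hφ him hd p1 p2 ht ht' (hP.mono fun u hu => hu.1)
    (hP.mono fun u hu => hu.2)

end Charts

end Pool.Agent.LibSym94
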