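import Pool.Agent.LibEis68.B20

/-! # Mumford-Tate groups of extensions of `ℚ(0)` by `Sym^k H¹(E)(k+1)`, arbitrary class

All statements are for an arbitrary section `e`; only the value `e τ` matters. -/

open Complex Polynomial Matrix
open scoped ComplexConjugate MatrixGroups UpperHalfPlane

namespace Pool.Agent.LibSym94

open Pool.Agent.LibEis68

/-- `e τ` is rational. -/
def RatVec {k : ℕ} (v : Fin (k + 1) → ℂ) : Prop := ∃ r : Fin (k + 1) → ℚ, ∀ j, v j = r j

theorem adm_mtLie {k : ℕ} (e : ℂ → Fin (k + 1) → ℂ) (τ : ℂ) : Adm e τ (mtLie e τ) :=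
  ⟨(mtLie_spec e τ).1, (mtLie_spec e τ).2.1, (mtLie_spec e τ).2.2⟩

theorem mtLie_le_of_adm {k : ℕ} {e : ℂ → Fin (k + 1) → ℂ} {τ : ℂ} {L}
    (h : Adm e τ L) : mtLie e τ ≤ L := sInf_le ⟨h.closed, h.memP, h.memQ⟩

/-- A complex number killed by all `ℚ`-linear functionals vanishing at `1` is rational. -/
theorem rat_of_lin {z : ℂ} (h : ∀ f : ℂ →ₗ[ℚ] ℚ, f 1 = 0 → f z = 0) : ∃ q : ℚ, z = q := by
  by_contra hcon
  push Not at hcon
  have hz : z ∉ Submodule.span ℚ {(1 : ℂ)} := by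
    intro hm
    obtain ⟨q, hq⟩ := Submodule.mem_span_singleton.1 hm
    apply hcon q
    rw [← hq, Rat.smul_def, mul_one]
  obtain ⟨f, hf1, hf2⟩ := Submodule.exists_le_ker_of_notMem hz
  have h1 : f 1 = 0 := hf2 (Submodule.mem_span_singleton_self 1)
  exact hf1 (h f h1)

/-- If the unipotent part is trivial then `e τ` is rational. -/
theorem ratVec_of_uni {k : ℕ} {e : ℂ → Fin (k + 1) → ℂ} {τ : ℂ} (hτ : 0 < τ.im) {L}
    (h : Adm e τ L) (hU : uni L = ⊥) : RatVec (e τ) := by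
  have h1 : ∀ j, ∃ q : ℚ, e τ j = q := by
    intro j
    apply rat_of_lin
    intro f hf
    have h2 := (h.lin_mem hτ f).1
    have h3 : (![0, 0, 0, -f 1] : Fin 4 → ℚ) = 0 := by
      rw [hf]
      ext i
      fin_cases i <;> simp
    rw [h3] at h2
    have h4 : (fun j => f (e τ j)) ∈ uni L := h2
    rw [hU, Submodule.mem_bot] at h4
    exact congrFun h4 j
  choose r hr using h1
  exact ⟨r, hr⟩

theorem cxv_eq_top {k : ℕ} {τ : ℂ} (hτ : 0 < τ.im) (U : Submodule ℚ (Fin (k + 1) → ℚ))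
    (h : ∀ i : Fin (k + 1), form k τ (conj τ) i ∈ cxv U) : U = ⊤ := by
  have hWtop : cxv U = ⊤ := by
    rw [eq_top_iff, ← form_span k hτ, Submodule.span_le]
    rintro _ ⟨i, rfl⟩
    exact h i
  rw [eq_top_iff]
  intro u _
  obtain ⟨f, hf⟩ : ∃ f : ℂ →ₗ[ℚ] ℚ, f 1 ≠ 0 := by
    by_contra hcon
    push Not at hcon
    exact one_ne_zero ((Module.forall_dual_apply_eq_zero_iff ℚ (1 : ℂ)).1 hcon)
  have h1 : (fun j => (u j : ℂ)) ∈ cxv U := by rw [hWtop]; trivial
  have h2 := (mem_cxv_iff _ _).1 h1 f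
  have h3 : (fun j => f (u j : ℂ)) = f 1 • u := by
    ext j
    have : ((u j : ℚ) : ℂ) = u j • (1 : ℂ) := by rw [Rat.smul_def, mul_one]
    rw [this, map_smul]
    simp [mul_comm]
  rw [h3] at h2
  exact (Submodule.smul_mem_iff _ hf).1 h2

/-- At a point without complex multiplication and with `e τ` not rational the Mumford-Tate Lie
algebra is everything. -/
theorem mtLie_noncm {k : ℕ} {e : ℂ → Fin (k + 1) → ℂ} {τ : ℂ} (hτ : 0 < τ.im)
    (hcm : ¬ IsCM τ) (hv : ¬ RatVec (e τ)) : mtLie e τ = full k := by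
  have hA := adm_mtLie e τ
  have hle := mtLie_le_full e hτ
  have hproj := hA.proj_full hτ hle hcm
  refine le_antisymm hle ?_
  have hy : (τ.im : ℂ) ≠ 0 := by exact_mod_cast hτ.ne'
  have hU : uni (mtLie e τ) ≠ ⊥ := fun h => hv (ratVec_of_uni hτ hA h)
  set W := cxv (uni (mtLie e τ)) with hW
  obtain ⟨u, hu, hu0⟩ := Submodule.exists_mem_ne_zero_of_ne_bot hU
  have huW : (fun j => (u j : ℂ)) ∈ W := by
    rw [hW]
    unfold cxv
    exact Submodule.subset_span ⟨u, hu, rfl⟩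
  -- components of `u`
  have hspan : (fun j => (u j : ℂ)) ∈ Submodule.span ℂ
      (Set.range fun i : Fin (k + 1) => form k τ (conj τ) i) := by
    rw [form_span k hτ]
    trivial
  obtain ⟨c, hc⟩ := (Submodule.mem_span_range_iff_exists_fun ℂ).1 hspan
  obtain ⟨i₀, hi₀⟩ : ∃ i, c i ≠ 0 := by
    by_contra hcon
    push Not at hcon
    apply hu0
    ext j
    have h1 := congrFun hc j
    simp [hcon] at h1
    have h2 : ((u j : ℚ) : ℂ) = 0 := by
      first
        | exact h1.symm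
        | exact_mod_cast h1
    exact_mod_cast h2
  have hmid : form k τ (conj τ) i₀ ∈ W := by
    apply component_mem hτ W (fun w hw => hA.sl_stable hτ hw) c _ i₀ hi₀
    rw [hc]
    exact huW
  have hup : ∀ i, i < k → form k τ (conj τ) i ∈ W → form k τ (conj τ) (i + 1) ∈ W := by
    intro i hi hmem
    have h1 := b12_stable hA hproj ![1, τ, τ ^ 2, 0] hmem
    rw [sl_raise k hτ i hi] at h1
    have hc : (((k : ℂ) - i) * (2 * I * τ.im)) ≠ 0 := by
      apply mul_ne_zero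
      · have : (i : ℂ) ≠ k := by exact_mod_cast hi.ne
        exact sub_ne_zero.2 this.symm
      · exact mul_ne_zero (mul_ne_zero two_ne_zero I_ne_zero) hy
    exact (Submodule.smul_mem_iff _ hc).1 h1
  have hdown : ∀ i, i < k → form k τ (conj τ) (i + 1) ∈ W → form k τ (conj τ) i ∈ W := by
    intro i hi hmem
    have h1 := b12_stable hA hproj ![1, conj τ, conj τ ^ 2, 0] hmem
    rw [sl_lower k hτ i hi] at h1
    have hc : (-((i : ℂ) + 1) * (2 * I * τ.im)) ≠ 0 := by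
      apply mul_ne_zero
      · have : (i : ℂ) + 1 ≠ 0 := by exact_mod_cast Nat.succ_ne_zero i
        exact neg_ne_zero.2 this
      · exact mul_ne_zero (mul_ne_zero two_ne_zero I_ne_zero) hy
    exact (Submodule.smul_mem_iff _ hc).1 h1
  have hs := i₀.2
  have hge : ∀ j, (i₀ : ℕ) + j ≤ k → form k τ (conj τ) (i₀ + j) ∈ W := by
    intro j
    induction j with
    | zero => intro _; exact hmid
    | succ j ih => intro hj; exact hup (i₀ + j) (by omega) (ih (by omega))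
  have hle' : ∀ j, j ≤ (i₀ : ℕ) → form k τ (conj τ) (i₀ - j) ∈ W := by
    intro j
    induction j with
    | zero => intro _; exact hmid
    | succ j ih =>
      intro hj
      apply hdown _ (by omega)
      have : (i₀ : ℕ) - (j + 1) + 1 = i₀ - j := by omega
      rw [this]
      exact ih (by omega)
  have hall : ∀ i : Fin (k + 1), form k τ (conj τ) i ∈ W := by
    intro i
    have hi := i.2
    rcases le_total (i₀ : ℕ) i with h | h
    · have := hge (i - i₀) (by omega)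
      rwa [show (i₀ : ℕ) + ((i : ℕ) - i₀) = i by omega] at this
    · have := hle' (i₀ - i) (by omega)
      rwa [show (i₀ : ℕ) - (i₀ - (i : ℕ)) = i by omega] at this
  have huni : uni (mtLie e τ) = ⊤ := cxv_eq_top hτ _ hall
  rintro _ ⟨v, t, rfl⟩
  obtain ⟨v', hv'⟩ := hproj t
  have h1 : par k (v - v') 0 ∈ mtLie e τ := by
    have : v - v' ∈ uni (mtLie e τ) := by rw [huni]; trivial
    exact this
  have h2 := (mtLie e τ).add_mem h1 hv'
  rw [par_add, sub_add_cancel, zero_add] at h2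
  exact h2

/-- Not CM and `e τ` not rational: the generic dimensions. -/
theorem dims_noncm {k : ℕ} (hk : 1 ≤ k) {e : ℂ → Fin (k + 1) → ℂ} {τ : ℂ} (hτ : 0 < τ.im)
    (hcm : ¬ IsCM τ) (hv : ¬ RatVec (e τ)) : mtDim e τ = k + 5 ∧ domainDim e τ = k + 2 := by
  have h := mtLie_noncm hτ hcm hv
  unfold mtDim domainDim
  rw [h]
  exact ⟨finrank_full hk, finrank_full_map hk e hτ⟩

/-- CM and all components of `Im e(τ)` nonzero: the typical dimensions. -/
theorem dims_cm {k : ℕ} (hk : 1 ≤ k) {e : ℂ → Fin (k + 1) → ℂ} {τ : ℂ} (hτ : 0 < τ.im)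
    (hcm : IsCM τ)
    (hc : ∀ c : Fin (k + 1) → ℂ,
      (fun j => ((e τ j).im : ℂ)) = ∑ i, c i • form k τ (conj τ) i → ∀ i, c i ≠ 0) :
    mtDim e τ = k + 3 ∧ domainDim e τ = k + 1 := by
  have hA := adm_mtLie e τ
  obtain ⟨t₀, c₀, h0, h3, ht⟩ := exists_rational hτ hcm
  have htop : ∀ w : Fin (k + 1) → ℂ, w ∈ cxv (⊤ : Submodule ℚ (Fin (k + 1) → ℚ)) := by
    intro w
    rw [mem_cxv_iff]
    intro f
    exact Submodule.mem_top
  have hft : Module.finrank ℚ (⊤ : Submodule ℚ (Fin (k + 1) → ℚ)) = k + 1 := by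
    rw [finrank_top]; simp
  have hadm : Adm e τ (part k t₀ 0 ⊤) :=
    adm_part hτ ht (fun n _ => Submodule.mem_top) (htop _)
  have hspan : (fun j => ((e τ j).im : ℂ)) ∈ Submodule.span ℂ
      (Set.range fun i : Fin (k + 1) => form k τ (conj τ) i) := by
    rw [form_span k hτ]
    trivial
  obtain ⟨c, hcc⟩ := (Submodule.mem_span_range_iff_exists_fun ℂ).1 hspan
  have hc0 := hc c hcc.symm
  have hU : uni (mtLie e τ) = ⊤ := by
    apply cxv_eq_top hτ
    intro i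
    apply component_mem hτ _ (fun w hw => hA.sl_stable hτ hw) c _ i (hc0 i)
    rw [hcc]
    exact hA.im_mem hτ
  have h1 : part k t₀ 0 ⊤ ≤ mtLie e τ := hA.part_le hτ hU h3 ht
  have h2 : mtLie e τ = part k t₀ 0 ⊤ := le_antisymm (mtLie_le_of_adm hadm) h1
  unfold mtDim domainDim
  rw [h2, finrank_part hk h0 h3,
    finrank_part_map hk hτ h3 ht (fun n _ => Submodule.mem_top) (htop _), hft]
  exact ⟨rfl, rfl⟩

/-- CM: upper bounds. -/
theorem dims_cm_le {k : ℕ} (hk : 1 ≤ k) (e : ℂ → Fin (k + 1) → ℂ) {τ : ℂ} (hτ : 0 < τ.im)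
    (hcm : IsCM τ) : mtDim e τ ≤ k + 3 ∧ domainDim e τ ≤ k + 1 := by
  refine ⟨mtDim_cm_le hk e hτ hcm, ?_⟩
  obtain ⟨t₀, c, _, h3, ht⟩ := exists_rational hτ hcm
  have htop : ∀ w : Fin (k + 1) → ℂ, w ∈ cxv (⊤ : Submodule ℚ (Fin (k + 1) → ℚ)) := by
    intro w
    rw [mem_cxv_iff]
    intro f
    exact Submodule.mem_top
  have hadm : Adm e τ (part k t₀ 0 ⊤) :=
    adm_part hτ ht (fun n _ => Submodule.mem_top) (htop _)
  refine (domainDim_le_of_adm hadm).trans (le_of_eq ?_)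
  rw [finrank_part_map hk hτ h3 ht (fun n _ => Submodule.mem_top) (htop _), finrank_top]
  simp

/-- The Lie algebra `𝔤𝔩₂` embedded through the rational vector `r`. -/
def graph (k : ℕ) (r : Fin (k + 1) → ℚ) :
    Submodule ℚ (Matrix (Unit ⊕ Fin (k + 1)) (Unit ⊕ Fin (k + 1)) ℚ) where
  carrier := {M | ∃ t : Fin 4 → ℚ, M = par k (-(sl k t *ᵥ r)) t}
  add_mem' := by
    rintro _ _ ⟨t, rfl⟩ ⟨t', rfl⟩
    refine ⟨t + t', ?_⟩
    rw [par_add, sl_add, Matrix.add_mulVec, neg_add]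
  zero_mem' := ⟨0, by
    have h1 : sl k (0 : Fin 4 → ℚ) = 0 := by simpa using sl_smul k (0 : ℚ) 0
    have h2 : par k (0 : Fin (k + 1) → ℚ) 0 = 0 := by simpa using (par_smul k (0 : ℚ) 0 0).symm
    rw [h1]
    simp [h2]⟩
  smul_mem' := by
    rintro c _ ⟨t, rfl⟩
    refine ⟨c • t, ?_⟩
    rw [par_smul, sl_smul, Matrix.smul_mulVec, smul_neg]

theorem adm_graph {k : ℕ} {e : ℂ → Fin (k + 1) → ℂ} {τ : ℂ} (hτ : 0 < τ.im)
    {r : Fin (k + 1) → ℚ} (hr : ∀ j, e τ j = r j) : Adm e τ (graph k r) := by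
  have hcx : ∀ t : Fin 4 → ℂ, par k (-(sl k t *ᵥ e τ)) t ∈ cx (graph k r) := by
    intro t
    rw [mem_cx_iff]
    intro f
    refine ⟨fun j => f (t j), ?_⟩
    rw [par_map_lin]
    congr 1
    ext j
    have h1 : e τ = fun i => ((r i : ℚ) : ℂ) := funext hr
    rw [Pi.neg_apply, Pi.neg_apply, map_neg, h1, B07aux.lin_sl]
  have hs : opP e τ + opQ e τ ∈ cx (graph k r) := by
    rw [opP_add_opQ e hτ]
    have h1 := hcx ![0, 0, 0, -((k : ℂ) + 2)]
    rw [b14_sl_scalar] at h1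
    convert h1 using 2
    ext j
    simp
    ring
  have hd : opP e τ - opQ e τ ∈ cx (graph k r) := by
    rw [opP_sub_opQ e hτ]
    exact hcx (hvec τ)
  refine ⟨?_, ?_, ?_⟩
  · rintro _ ⟨t, rfl⟩ _ ⟨t', rfl⟩
    refine ⟨![2 * (t 1 * t' 0 - t 0 * t' 1), t 2 * t' 0 - t 0 * t' 2,
      2 * (t 2 * t' 1 - t 1 * t' 2), 0], ?_⟩
    rw [par_bracket]
    congr 1
    rw [← sl_bracket, Matrix.sub_mulVec, ← Matrix.mulVec_mulVec, ← Matrix.mulVec_mulVec,
      Matrix.mulVec_neg, Matrix.mulVec_neg]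
    abel
  · have h1 : opP e τ = (1 / 2 : ℂ) • ((opP e τ + opQ e τ) + (opP e τ - opQ e τ)) := by
      ext x y
      simp
      ring
    rw [h1]
    exact Submodule.smul_mem _ _ (Submodule.add_mem _ hs hd)
  · have h1 : opQ e τ = (1 / 2 : ℂ) • ((opP e τ + opQ e τ) - (opP e τ - opQ e τ)) := by
      ext x y
      simp
      ring
    rw [h1]
    exact Submodule.smul_mem _ _ (Submodule.sub_mem _ hs hd)

/-- Parametrisation of `graph`. -/
def graphQ (k : ℕ) (r : Fin (k + 1) → ℚ) : (Fin 4 → ℚ) →ₗ[ℚ]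
    Matrix (Unit ⊕ Fin (k + 1)) (Unit ⊕ Fin (k + 1)) ℚ where
  toFun t := par k (-(sl k t *ᵥ r)) t
  map_add' t t' := by rw [par_add, sl_add, Matrix.add_mulVec, neg_add]
  map_smul' c t := by rw [RingHom.id_apply, par_smul, sl_smul, Matrix.smul_mulVec, smul_neg]

/-- Parametrisation of the complexification of `graph`. -/
noncomputable def graphC (k : ℕ) (r : Fin (k + 1) → ℂ) : (Fin 4 → ℂ) →ₗ[ℂ]
    Matrix (Unit ⊕ Fin (k + 1)) (Unit ⊕ Fin (k + 1)) ℂ where
  toFun t := par k (-(sl k t *ᵥ r)) t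
  map_add' t t' := by rw [par_add, sl_add, Matrix.add_mulVec, neg_add]
  map_smul' c t := by rw [RingHom.id_apply, par_smul, sl_smul, Matrix.smul_mulVec, smul_neg]

theorem finrank_graph {k : ℕ} (hk : 1 ≤ k) (r : Fin (k + 1) → ℚ) :
    Module.finrank ℚ (graph k r) = 4 := by
  have h : graph k r = LinearMap.range (graphQ k r) := by
    ext M
    constructor
    · rintro ⟨t, rfl⟩
      exact ⟨t, rfl⟩
    · rintro ⟨t, rfl⟩
      exact ⟨t, rfl⟩
  have hinj : Function.Injective (graphQ k r) := by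
    intro t t' h
    exact (par_injective hk h).2
  rw [h, LinearMap.finrank_range_of_inj hinj]
  simp

theorem range_graphC (k : ℕ) (r : Fin (k + 1) → ℚ) :
    LinearMap.range (graphC k (fun j => (r j : ℂ))) = cx (graph k r) := by
  apply le_antisymm
  · rintro _ ⟨t, rfl⟩
    rw [mem_cx_iff]
    intro f
    refine ⟨fun j => f (t j), ?_⟩
    show (par k _ _).map f = _
    rw [par_map_lin]
    congr 1
    ext j
    rw [Pi.neg_apply, Pi.neg_apply, map_neg, B07aux.lin_sl]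
  · unfold cx
    rw [Submodule.span_le]
    rintro _ ⟨M, ⟨t, rfl⟩, rfl⟩
    refine ⟨fun j => (t j : ℂ), ?_⟩
    show par k _ _ = (par k _ _).map (algebraMap ℚ ℂ)
    rw [par_map_cast]
    congr 1
    rw [← sl_mulVec_cast]
    ext j
    simp

/-- The quadratic coordinate. -/
noncomputable def quadL (τ : ℂ) : (Fin 4 → ℂ) →ₗ[ℂ] ℂ where
  toFun t := t 0 * τ ^ 2 - 2 * t 1 * τ + t 2
  map_add' t t' := by
    simp only [Pi.add_apply]
    ring
  map_smul' c t := by
    simp only [Pi.smul_apply, smul_eq_mul, RingHom.id_apply]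
    ring

theorem finrank_range_eq' {V A B : Type*} [AddCommGroup V] [Module ℂ V]
    [FiniteDimensional ℂ V] [AddCommGroup A] [Module ℂ A] [AddCommGroup B] [Module ℂ B]
    (f : V →ₗ[ℂ] A) (g : V →ₗ[ℂ] B) (h : LinearMap.ker f = LinearMap.ker g) :
    Module.finrank ℂ (LinearMap.range f) = Module.finrank ℂ (LinearMap.range g) := by
  have h1 := f.finrank_range_add_finrank_ker
  have h2 := g.finrank_range_add_finrank_ker
  rw [h] at h1
  omega

theorem finrank_graph_map {k : ℕ} (hk : 1 ≤ k) {e : ℂ → Fin (k + 1) → ℂ} {τ : ℂ}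
    (hτ : 0 < τ.im) {r : Fin (k + 1) → ℚ} (hr : ∀ j, e τ j = r j) :
    Module.finrank ℂ ((cx (graph k r)).map (F0 e τ).mkQ) = 1 := by
  rw [← range_graphC, ← LinearMap.range_comp]
  have h : LinearMap.ker ((F0 e τ).mkQ ∘ₗ graphC k (fun j => (r j : ℂ))) =
      LinearMap.ker (quadL τ) := by
    ext t
    rw [LinearMap.mem_ker, LinearMap.mem_ker, LinearMap.comp_apply, Submodule.mkQ_apply,
      Submodule.Quotient.mk_eq_zero]
    show par k (-(sl k t *ᵥ fun j => (r j : ℂ))) t ∈ F0 e τ ↔ _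
    rw [par_mem_F0_iff hk e hτ]
    have h1 : e τ = fun i => ((r i : ℚ) : ℂ) := funext hr
    rw [h1]
    constructor
    · exact fun h => h.2
    · exact fun h => ⟨by abel, h⟩
  rw [finrank_range_eq' _ _ h]
  have hs : LinearMap.range (quadL τ) = ⊤ := by
    rw [LinearMap.range_eq_top]
    intro z
    refine ⟨![0, 0, z, 0], ?_⟩
    simp [quadL]
  rw [hs, finrank_top]
  simp

/-- `e τ` rational, not CM: dimensions `4` and `1`. -/
theorem dims_rat_noncm {k : ℕ} (hk : 1 ≤ k) {e : ℂ → Fin (k + 1) → ℂ} {τ : ℂ} (hτ : 0 < τ.im)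
    (hcm : ¬ IsCM τ) (hv : RatVec (e τ)) : mtDim e τ = 4 ∧ domainDim e τ = 1 := by
  obtain ⟨r, hr⟩ := hv
  have hA := adm_mtLie e τ
  have hle : mtLie e τ ≤ graph k r := mtLie_le_of_adm (adm_graph hτ hr)
  have hproj := hA.proj_full hτ (mtLie_le_full e hτ) hcm
  have heq : mtLie e τ = graph k r := by
    refine le_antisymm hle ?_
    rintro _ ⟨t, rfl⟩
    obtain ⟨v, hv⟩ := hproj t
    obtain ⟨t', ht'⟩ := hle hv
    obtain ⟨h1, h2⟩ := par_injective hk ht'
    rw [h1, ← h2] at hv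
    exact hv
  unfold mtDim domainDim
  rw [heq]
  exact ⟨finrank_graph hk r, finrank_graph_map hk hτ hr⟩

/-- `e τ` rational and CM: dimensions `2` and `0`. -/
theorem dims_rat_cm {k : ℕ} (hk : 1 ≤ k) {e : ℂ → Fin (k + 1) → ℂ} {τ : ℂ} (hτ : 0 < τ.im)
    (hcm : IsCM τ) (hv : RatVec (e τ)) : mtDim e τ = 2 ∧ domainDim e τ = 0 := by
  obtain ⟨r, hr⟩ := hv
  obtain ⟨t₀, c, h0, h3, ht⟩ := exists_rational hτ hcm
  have hN : ∀ n ∈ (⊥ : Submodule ℚ (Fin (k + 1) → ℚ)), sl k t₀ *ᵥ n ∈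
      (⊥ : Submodule ℚ (Fin (k + 1) → ℚ)) := by
    intro n hn
    rw [Submodule.mem_bot] at hn ⊢
    rw [hn, Matrix.mulVec_zero]
  have he : (fun j => e τ j - r j) ∈ cxv (⊥ : Submodule ℚ (Fin (k + 1) → ℚ)) := by
    have : (fun j => e τ j - (r j : ℂ)) = 0 := by
      ext j
      rw [hr j]
      simp
    rw [this]
    exact Submodule.zero_mem _
  have hadm : Adm e τ (part k t₀ r ⊥) := adm_part hτ ht hN he
  have hA := adm_mtLie e τ
  have hle : mtLie e τ ≤ part k t₀ r ⊥ := mtLie_le_of_adm hadm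
  have hsep : ∀ z : ℂ, z ≠ 0 → ∃ f : ℂ →ₗ[ℚ] ℚ, f z ≠ 0 := by
    intro z hz
    by_contra hcon
    push Not at hcon
    exact hz ((Module.forall_dual_apply_eq_zero_iff ℚ z).1 hcon)
  have hc : c ≠ 0 := by
    rintro rfl
    have h0 := ht 0
    simp only [hvec, zero_mul] at h0
    have hy : (τ.im : ℂ) ≠ 0 := by exact_mod_cast hτ.ne'
    have : I / (τ.im : ℂ) ≠ 0 := div_ne_zero I_ne_zero hy
    exact this (by simpa using h0)
  obtain ⟨f, hf⟩ := hsep 1 one_ne_zero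
  obtain ⟨g, hg⟩ := hsep c hc
  have hS : ∀ b : ℚ, ∃ v, par k v ![0, 0, 0, b] ∈ mtLie e τ := by
    intro b
    have h1 := (mtLie e τ).smul_mem (-(f 1)⁻¹ * b) (hA.lin_mem hτ f).1
    rw [par_smul] at h1
    have h2 : (-(f 1)⁻¹ * b) • (![0, 0, 0, -f 1] : Fin 4 → ℚ) = ![0, 0, 0, b] := by
      ext j
      fin_cases j <;> simp
      field_simp
    rw [h2] at h1
    exact ⟨_, h1⟩
  have hT : ∀ a : ℚ, ∃ v, par k v (a • t₀) ∈ mtLie e τ := by
    intro a
    have h1 := (mtLie e τ).smul_mem ((g c)⁻¹ * a) (hA.lin_mem hτ g).2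
    rw [par_smul] at h1
    have h2 : ((g c)⁻¹ * a) • (fun j => g (hvec τ j)) = a • t₀ := by
      ext j
      simp only [Pi.smul_apply, smul_eq_mul]
      rw [ht j]
      have : c * (t₀ j : ℂ) = t₀ j • c := by rw [Rat.smul_def, mul_comm]
      rw [this, map_smul, smul_eq_mul]
      field_simp
    rw [h2] at h1
    exact ⟨_, h1⟩
  have hge : part k t₀ r ⊥ ≤ mtLie e τ := by
    rintro _ ⟨n, hn, a, b, rfl⟩
    rw [Submodule.mem_bot] at hn
    obtain ⟨v, hv⟩ := hT a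
    obtain ⟨w, hw⟩ := hS b
    have h1 := (mtLie e τ).add_mem hv hw
    rw [par_add] at h1
    obtain ⟨n', hn', a', b', he'⟩ := hle h1
    rw [Submodule.mem_bot] at hn'
    obtain ⟨h4, h5⟩ := par_injective hk he'
    rw [h4, hn', ← h5] at h1
    rw [hn]
    exact h1
  have heq : mtLie e τ = part k t₀ r ⊥ := le_antisymm hle hge
  unfold mtDim domainDim
  rw [heq, finrank_part hk h0 h3, finrank_part_map hk hτ h3 ht hN he, finrank_bot]
  exact ⟨rfl, rfl⟩

end Pool.Agent.LibSym94
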