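import Pool.Agent.LibSym94.CuspDefs
import Pool.Agent.LibSym94.LOC
import Pool.Agent.LibSym94.MT

open Matrix Filter Topology Polynomial UpperHalfPlane
open scoped MatrixGroups ComplexConjugate
open Pool.Agent.LibUB33 (Curve ee)
open Pool.Agent.LibEis68 (form act)

namespace Pool.Agent.LibSym94

/-! ## Asymptotics at an infinite puncture -/

section Cusp
variable {k n m : ℕ}

theorem CU1_aux {m : ℕ} (hm : 0 < m) (d : ℕ) : ∀ c : ℝ[X], (∀ j, d ≤ j → c.coeff j = 0) →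
    ∃ Q : ℝ[X], (∀ j, d + 1 ≤ j → Q.coeff j = 0) ∧ Q - Q.comp (X - C (m : ℝ)) = c := by
  induction d with
  | zero =>
    intro c hc
    have h0 : c = 0 := by
      ext j
      rw [hc j (Nat.zero_le j), coeff_zero]
    exact ⟨0, fun j _ => coeff_zero j, by simp [h0]⟩
  | succ d ih =>
    intro c hc
    have hm0 : (m : ℝ) ≠ 0 := by exact_mod_cast hm.ne'
    have hd0 : ((d : ℝ) + 1) ≠ 0 := by positivity
    set b : ℝ := c.coeff d / (((d : ℝ) + 1) * m) with hb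
    have hcomp : (C b * X ^ (d + 1) : ℝ[X]).comp (X - C (m : ℝ)) =
        C b * (X - C (m : ℝ)) ^ (d + 1) := by
      simp
    have hco : ∀ j, (C b * X ^ (d + 1) - (C b * X ^ (d + 1) : ℝ[X]).comp (X - C (m : ℝ))).coeff j =
        b * ((if j = d + 1 then 1 else 0) - (-(m : ℝ)) ^ (d + 1 - j) * ((d + 1).choose j : ℝ)) := by
      intro j
      rw [hcomp, ← mul_sub, coeff_C_mul, coeff_sub, coeff_X_pow, sub_eq_add_neg (X : ℝ[X]), ← C_neg,
        coeff_X_add_C_pow]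
    obtain ⟨Q, hQ1, hQ2⟩ := ih
      (c - (C b * X ^ (d + 1) - (C b * X ^ (d + 1) : ℝ[X]).comp (X - C (m : ℝ)))) (by
        intro j hj
        rw [coeff_sub, hco]
        rcases Nat.lt_trichotomy j (d + 1) with h | h | h
        · have hjd : j = d := by omega
          subst hjd
          rw [if_neg (by omega), show j + 1 - j = 1 by omega, pow_one,
            Nat.choose_succ_self_right]
          push_cast
          rw [hb]
          field_simp
          ring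
        · subst h
          rw [hc _ le_rfl, if_pos rfl]
          simp
        · rw [hc _ (by omega), if_neg (by omega), Nat.choose_eq_zero_of_lt h]
          simp)
    refine ⟨Q + C b * X ^ (d + 1), ?_, ?_⟩
    · intro j hj
      rw [coeff_add, hQ1 j (by omega), coeff_C_mul, coeff_X_pow, if_neg (by omega)]
      simp
    · rw [add_comp]
      linear_combination hQ2

/-- Every real polynomial of degree `≤ k` is `Q(X) - Q(X - m)` with `Q` of degree `≤ k + 1`. -/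
theorem solve_shift (k : ℕ) {m : ℕ} (hm : 0 < m) (c : ℝ[X]) (hc : c.natDegree ≤ k) :
    ∃ (rr : ℝ) (N : ℝ[X]), N.natDegree ≤ k ∧
      C (rr / (k + 1)) * (X ^ (k + 1) - (X - C (m : ℝ)) ^ (k + 1)) + N -
        N.comp (X - C (m : ℝ)) = c := by
  obtain ⟨Q, hQ1, hQ2⟩ := CU1_aux hm (k + 1) c fun j hj =>
    coeff_eq_zero_of_natDegree_lt (by omega)
  have hk0 : ((k : ℝ) + 1) ≠ 0 := by positivity
  refine ⟨(k + 1) * Q.coeff (k + 1), Q - C (Q.coeff (k + 1)) * X ^ (k + 1), ?_, ?_⟩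
  · rw [natDegree_le_iff_coeff_eq_zero]
    intro j hj
    rw [coeff_sub, coeff_C_mul, coeff_X_pow]
    by_cases h : j = k + 1
    · subst h; simp
    · rw [if_neg h, hQ1 j (by omega)]
      simp
  · rw [mul_div_cancel_left₀ _ hk0, sub_comp, mul_comp, C_comp, pow_comp, X_comp]
    linear_combination hQ2

/-- The coefficients in powers of `X - t`. -/
noncomputable def CU2_c {n : ℕ} (v : Fin n → ℂ) (t : ℂ) (j : ℕ) : ℂ :=
  ∑ i : Fin n, v i * (t ^ ((i : ℕ) - j) * ((i : ℕ).choose j : ℂ))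

theorem CU2_taylor {n : ℕ} (v : Fin n → ℂ) (t : ℂ) (j : ℕ) :
    (taylor t (toP v)).coeff j = CU2_c v t j := by
  unfold toP CU2_c
  rw [map_sum, finsetSum_coeff]
  refine Finset.sum_congr rfl fun i _ => ?_
  rw [taylor_apply, mul_comp, C_comp, X_pow_comp, coeff_C_mul, coeff_X_add_C_pow]

theorem CU2_expand {k : ℕ} (v : Fin (k + 1) → ℂ) (t : ℂ) :
    toP v = ∑ j ∈ Finset.range (k + 1), C (CU2_c v t j) * (X - C t) ^ j := by
  have h1 : (toP v).natDegree < k + 1 := natDegree_toP_lt (Nat.succ_pos k) v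
  apply taylor_injective t
  have h2 : taylor t (∑ j ∈ Finset.range (k + 1), C (CU2_c v t j) * (X - C t) ^ j) =
      ∑ j ∈ Finset.range (k + 1), C (CU2_c v t j) * X ^ j := by
    rw [map_sum]
    refine Finset.sum_congr rfl fun j _ => ?_
    rw [taylor_apply, mul_comp, C_comp, pow_comp, sub_comp, X_comp, C_comp, add_sub_cancel_right]
  rw [h2]
  have h3 := (taylor t (toP v)).as_sum_range_C_mul_X_pow
  rw [natDegree_taylor] at h3
  have h4 : ∀ f : ℂ[X], f.natDegree < k + 1 →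
      f = ∑ j ∈ Finset.range (k + 1), C (f.coeff j) * X ^ j := by
    intro f hf
    exact f.as_sum_range_C_mul_X_pow' hf
  rw [h4 (taylor t (toP v)) (by rw [natDegree_taylor]; exact h1)]
  refine Finset.sum_congr rfl fun j _ => ?_
  rw [CU2_taylor]

theorem CU2_per {k : ℕ} {v v' : Fin (k + 1) → ℂ} {t a : ℂ}
    (h : toP v' = (toP v).comp (X - C a)) (j : ℕ) :
    CU2_c v' (t + a) j = CU2_c v t j := by
  rw [← CU2_taylor, ← CU2_taylor, h, taylor_apply, taylor_apply, comp_assoc]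
  congr 2
  rw [sub_comp, X_comp, C_comp, map_add]
  ring

theorem CU2_bound {k : ℕ} {v : Fin (k + 1) → ℂ} {t : ℂ} {A B : ℝ} (hB : 1 ≤ B)
    (ht : ‖t‖ ≤ B) (hA : 0 ≤ A) (hv : ∀ i, ‖v i‖ ≤ A) (j : ℕ) :
    ‖CU2_c v t j‖ ≤ (k + 1) * (A * (B ^ k * 2 ^ k)) := by
  unfold CU2_c
  refine (norm_sum_le _ _).trans ?_
  have h1 : ∀ i : Fin (k + 1), ‖v i * (t ^ ((i : ℕ) - j) * ((i : ℕ).choose j : ℂ))‖ ≤
      A * (B ^ k * 2 ^ k) := by
    intro i
    have hik : (i : ℕ) ≤ k := Nat.lt_succ_iff.mp i.2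
    rw [norm_mul, norm_mul, norm_pow, Complex.norm_natCast]
    have h2 : ‖t‖ ^ ((i : ℕ) - j) ≤ B ^ k := by
      calc ‖t‖ ^ ((i : ℕ) - j) ≤ B ^ ((i : ℕ) - j) := by gcongr
        _ ≤ B ^ k := pow_le_pow_right₀ hB (by omega)
    have h3 : (((i : ℕ).choose j : ℕ) : ℝ) ≤ 2 ^ k := by
      have h4 : (i : ℕ).choose j ≤ 2 ^ (i : ℕ) := Nat.choose_le_two_pow _ _
      have h5 : (2 : ℕ) ^ (i : ℕ) ≤ 2 ^ k := Nat.pow_le_pow_right (by norm_num) hik
      exact_mod_cast h4.trans h5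
    have h6 := hv i
    gcongr
  calc ∑ i : Fin (k + 1), ‖v i * (t ^ ((i : ℕ) - j) * ((i : ℕ).choose j : ℂ))‖
      ≤ ∑ i : Fin (k + 1), A * (B ^ k * 2 ^ k) := Finset.sum_le_sum fun i _ => h1 i
    _ = (k + 1) * (A * (B ^ k * 2 ^ k)) := by
      rw [Finset.sum_const, Finset.card_univ, Fintype.card_fin, nsmul_eq_mul]
      push_cast
      ring

theorem CU2_diff {k : ℕ} {W : Fin (k + 1) → ℂ → ℂ} {T : ℂ → ℂ} {ζ : ℂ}
    (hW : ∀ j, DifferentiableAt ℂ (W j) ζ) (hT : DifferentiableAt ℂ T ζ) (j : ℕ) :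
    DifferentiableAt ℂ (fun ζ => CU2_c (fun i => W i ζ) (T ζ) j) ζ := by
  unfold CU2_c
  apply DifferentiableAt.fun_sum
  intro i _
  exact (hW i).mul ((hT.pow _).mul_const _)

theorem CU2_deriv {k : ℕ} {W : Fin (k + 1) → ℂ → ℂ} {T : ℂ → ℂ} {ζ g : ℂ}
    (hW : ∀ j, DifferentiableAt ℂ (W j) ζ) (hT : DifferentiableAt ℂ T ζ)
    (hg : ∀ j, deriv (W j) ζ = g * frm k (T ζ) (T ζ) k j) {j : ℕ} (hj : j < k) :
    deriv (fun ζ => CU2_c (fun i => W i ζ) (T ζ) j) ζ =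
      ((j + 1 : ℕ) : ℂ) * CU2_c (fun i => W i ζ) (T ζ) (j + 1) * deriv T ζ := by
  have h1 : HasDerivAt (fun ζ => CU2_c (fun i => W i ζ) (T ζ) j)
      (∑ i : Fin (k + 1), (deriv (W i) ζ * (T ζ ^ ((i : ℕ) - j) * ((i : ℕ).choose j : ℂ)) +
        W i ζ * (((((i : ℕ) - j : ℕ) : ℂ) * T ζ ^ ((i : ℕ) - j - 1) * deriv T ζ) *
          ((i : ℕ).choose j : ℂ)))) ζ := by
    unfold CU2_c
    apply HasDerivAt.fun_sum
    intro i _
    exact (hW i).hasDerivAt.mul ((hT.hasDerivAt.pow _).mul_const _)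
  rw [h1.deriv, Finset.sum_add_distrib]
  have h2 : ∑ i : Fin (k + 1), deriv (W i) ζ * (T ζ ^ ((i : ℕ) - j) * ((i : ℕ).choose j : ℂ)) =
      0 := by
    have h3 : CU2_c (fun i => frm k (T ζ) (T ζ) k i) (T ζ) j = 0 := by
      rw [← CU2_taylor, toP_frm k (T ζ) (T ζ) le_rfl, Nat.sub_self, pow_zero, mul_one,
        taylor_apply, pow_comp, sub_comp, X_comp, C_comp, add_sub_cancel_right, coeff_X_pow,
        if_neg hj.ne]
    have h4 : ∑ i : Fin (k + 1), deriv (W i) ζ *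
        (T ζ ^ ((i : ℕ) - j) * ((i : ℕ).choose j : ℂ)) =
        g * CU2_c (fun i => frm k (T ζ) (T ζ) k i) (T ζ) j := by
      unfold CU2_c
      rw [Finset.mul_sum]
      refine Finset.sum_congr rfl fun i _ => ?_
      rw [hg i]
      ring
    rw [h4, h3, mul_zero]
  rw [h2, zero_add]
  unfold CU2_c
  rw [Finset.mul_sum, Finset.sum_mul]
  refine Finset.sum_congr rfl fun i _ => ?_
  have h5 : (((i : ℕ).choose (j + 1) * (j + 1) : ℕ) : ℂ) =
      (((i : ℕ).choose j * ((i : ℕ) - j) : ℕ) : ℂ) := by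
    rw [Nat.choose_succ_right_eq]
  rw [Nat.cast_mul, Nat.cast_mul] at h5
  rw [Nat.sub_sub]
  linear_combination (-W i ζ * T ζ ^ ((i : ℕ) - (j + 1)) * deriv T ζ) * h5

theorem CU2_neBot : (comap Complex.im (atTop : Filter ℝ)).NeBot := by
  apply Filter.NeBot.comap_of_surj inferInstance
  intro y
  exact ⟨Complex.I * y, by simp⟩

theorem CU2_hasDeriv {n : ℕ} {U : ℂ → ℂ} {ζ : ℂ} (hU : DifferentiableAt ℂ U (ee (ζ / n))) :
    HasDerivAt (fun ζ : ℂ => U (ee (ζ / n)))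
      (deriv U (ee (ζ / n)) * (ee (ζ / n) * (2 * Real.pi * Complex.I / n))) ζ := by
  have h1 : HasDerivAt (fun ζ : ℂ => ee (ζ / n)) (ee (ζ / n) * (2 * Real.pi * Complex.I / n))
      ζ := by
    unfold ee
    have h2 : HasDerivAt (fun ζ : ℂ => 2 * (Real.pi : ℂ) * Complex.I * (ζ / n))
        (2 * Real.pi * Complex.I / n) ζ := by
      have h3 := ((hasDerivAt_id ζ).div_const (n : ℂ)).const_mul
        (2 * (Real.pi : ℂ) * Complex.I)
      have h4 : 2 * (Real.pi : ℂ) * Complex.I * (1 / (n : ℂ)) =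
          2 * Real.pi * Complex.I / n := by ring
      rw [h4] at h3
      exact h3
    exact h2.cexp
  exact hU.hasDerivAt.comp ζ h1

theorem CU2_lim {n : ℕ} (hn : 0 < n) {U : ℂ → ℂ} (hU : AnalyticAt ℂ U 0) :
    Tendsto (fun ζ : ℂ => U (ee (ζ / n))) (comap Complex.im atTop) (𝓝 (U 0)) :=
  hU.continuousAt.tendsto.comp
    ((Pool.Agent.LibUB33.tendsto_ee hn).mono_right nhdsWithin_le_nhds)

theorem CU2_lim' {n : ℕ} (hn : 0 < n) {U : ℂ → ℂ} (hU : AnalyticAt ℂ U 0) (b : ℂ) :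
    Tendsto (fun ζ : ℂ => deriv U (ee (ζ / n)) * (ee (ζ / n) * b))
      (comap Complex.im atTop) (𝓝 0) := by
  have h1 := CU2_lim hn hU.deriv
  have h2 : Tendsto (fun ζ : ℂ => ee (ζ / n)) (comap Complex.im atTop) (𝓝 0) :=
    (Pool.Agent.LibUB33.tendsto_ee hn).mono_right nhdsWithin_le_nhds
  have h3 := h1.mul (h2.mul_const b)
  simpa using h3

theorem CU2_ev {P : ℂ → Prop} (h : ∀ᶠ ζ in comap Complex.im (atTop : Filter ℝ), P ζ) :
    ∃ Y : ℝ, ∀ ζ : ℂ, Y < ζ.im → P ζ := by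
  rw [Filter.eventually_comap] at h
  obtain ⟨Y, hY⟩ := h.exists_forall_of_atTop
  exact ⟨Y, fun ζ hζ => hY ζ.im hζ.le ζ rfl⟩

theorem CU2_ev' (Y : ℝ) : ∀ᶠ ζ in comap Complex.im (atTop : Filter ℝ), Y < ζ.im :=
  Filter.tendsto_comap.eventually (eventually_gt_atTop Y)

/-- Periodic forms of moderate growth. -/
theorem periodic_form {Y : ℝ} {T F : ℂ → ℂ} (hn : 0 < n) (hm : 0 < m) (hF : AnalyticAt ℂ F 0)
    (hT : ∀ ζ : ℂ, Y < ζ.im → T ζ = m * (ζ / n) + F (ee (ζ / n)))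
    (hTd : ∀ ζ : ℂ, Y < ζ.im → DifferentiableAt ℂ T ζ) {W : Fin (k + 1) → ℂ → ℂ}
    (hW : ∀ j, ∀ ζ : ℂ, Y < ζ.im → DifferentiableAt ℂ (W j) ζ)
    (tr : ∀ ζ : ℂ, Y < ζ.im → ∃ g : ℂ, ∀ j, deriv (W j) ζ = g * frm k (T ζ) (T ζ) k j)
    (per : ∀ ζ : ℂ, Y < ζ.im → toP (fun j => W j (ζ + n)) =
      (toP fun j => W j ζ).comp (X - C (m : ℂ)))
    (growth : ∃ (C : ℝ) (N : ℕ), ∀ (ζ : ℂ) (j : Fin (k + 1)), |ζ.re| ≤ n → Y < ζ.im →
      ‖W j ζ‖ ≤ C * (1 + |ζ.im|) ^ N) :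
    ∃ (c₀ : ℂ) (u : ℕ → ℂ → ℂ) (Y' : ℝ), Y ≤ Y' ∧ (∀ j, AnalyticAt ℂ (u j) 0 ∧ u j 0 = 0) ∧
      (∀ ζ : ℂ, Y' < ζ.im → toP (fun j => W j ζ) =
        C c₀ + ∑ j ∈ Finset.range (k + 1), C (u j (ee (ζ / n))) * (X - C (T ζ)) ^ j) ∧
      ∀ j < k, ∀ ζ : ℂ, Y' < ζ.im → deriv (fun ζ : ℂ => u j (ee (ζ / n))) ζ =
        (j + 1 : ℕ) * u (j + 1) (ee (ζ / n)) * deriv T ζ := by
  obtain ⟨CW, N, hgr⟩ := growth
  have hnc : (n : ℂ) ≠ 0 := by
    rw [Nat.cast_ne_zero]
    omega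
  have hmc : (m : ℂ) ≠ 0 := by
    rw [Nat.cast_ne_zero]
    omega
  have hn1 : (1 : ℝ) ≤ n := by exact_mod_cast hn
  have hm1 : (1 : ℝ) ≤ m := by exact_mod_cast hm
  -- `T` is bounded by a multiple of `1 + |im|`
  obtain ⟨Y1, hY1⟩ : ∃ Y1 : ℝ, ∀ ζ : ℂ, Y1 < ζ.im → ‖F (ee (ζ / n))‖ ≤ ‖F 0‖ + 1 := by
    apply CU2_ev
    have h1 := (CU2_lim hn hF).norm
    filter_upwards [h1.eventually (eventually_lt_nhds (show ‖F 0‖ < ‖F 0‖ + 1 by linarith))]
      with ζ hζ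
    exact hζ.le
  obtain ⟨Y2, hY2⟩ : ∃ Y2 : ℝ, ∀ ζ : ℂ, Y2 < ζ.im → DifferentiableAt ℂ F (ee (ζ / n)) := by
    apply CU2_ev
    have h1 : Tendsto (fun ζ : ℂ => ee (ζ / n)) (comap Complex.im atTop) (𝓝 0) :=
      (Pool.Agent.LibUB33.tendsto_ee hn).mono_right nhdsWithin_le_nhds
    filter_upwards [h1.eventually hF.eventually_analyticAt] with ζ hζ
    exact hζ.differentiableAt
  set Y0 : ℝ := max Y Y1 with hY0
  have hYY : Y ≤ Y0 := le_max_left _ _
  have hYY1 : Y1 ≤ Y0 := le_max_right _ _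
  set B0 : ℝ := m + ‖F 0‖ + 1 with hB0
  have hB01 : 1 ≤ B0 := by
    have := norm_nonneg (F 0)
    linarith
  have hTb : ∀ ζ : ℂ, |ζ.re| ≤ n → Y0 < ζ.im → ‖T ζ‖ ≤ B0 * (1 + |ζ.im|) := by
    intro ζ hζ hζ1
    rw [hT ζ (hYY.trans_lt hζ1)]
    refine (norm_add_le _ _).trans ?_
    have h1 := hY1 ζ (hYY1.trans_lt hζ1)
    have h2 : ‖(m : ℂ) * (ζ / n)‖ ≤ m * (1 + |ζ.im|) := by
      rw [norm_mul, norm_div, Complex.norm_natCast, Complex.norm_natCast]
      have h3 : ‖ζ‖ / n ≤ 1 + |ζ.im| := by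
        rw [div_le_iff₀ (by linarith)]
        have h4 := Complex.norm_le_abs_re_add_abs_im ζ
        have h5 := abs_nonneg ζ.im
        nlinarith
      gcongr
    have h6 := abs_nonneg ζ.im
    have h7 := norm_nonneg (F 0)
    rw [hB0]
    nlinarith
  -- the coefficients
  have hU : ∀ j : ℕ, ∃ U : ℂ → ℂ, AnalyticAt ℂ U 0 ∧ ∃ Y' : ℝ, ∀ ζ : ℂ, Y' < ζ.im →
      CU2_c (fun i => W i ζ) (T ζ) j = U (ee (ζ / n)) := by
    intro j
    refine Pool.Agent.LibUB33.exists_of_growth hn (Y := Y0)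
      (f := fun ζ => CU2_c (fun i => W i ζ) (T ζ) j) ?_ ?_
      ((k + 1) * (|CW| * (B0 ^ k * 2 ^ k))) (N + k) ?_
    · intro ζ hζ
      exact CU2_diff (fun i => hW i ζ (hYY.trans_lt hζ)) (hTd ζ (hYY.trans_lt hζ)) j
    · intro ζ hζ
      have hζ1 : Y < ζ.im := hYY.trans_lt hζ
      have h1 : T (ζ + n) = T ζ + m := by
        rw [hT ζ hζ1, hT (ζ + n) (by simpa using hζ1)]
        have h2 : ee ((ζ + n) / n) = ee (ζ / n) := by
          unfold ee
          have h3 : 2 * (Real.pi : ℂ) * Complex.I * ((ζ + n) / n) =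
              2 * Real.pi * Complex.I * (ζ / n) + 2 * Real.pi * Complex.I := by
            field_simp
          rw [h3, Complex.exp_add, Complex.exp_two_pi_mul_I, mul_one]
        rw [h2]
        field_simp
        ring
      simp only [h1]
      exact CU2_per (per ζ hζ1) j
    · intro ζ hζ hζ1
      have h1 := hTb ζ hζ hζ1
      have h0 : 1 ≤ 1 + |ζ.im| := by
        have := abs_nonneg ζ.im
        linarith
      have h2 : 1 ≤ B0 * (1 + |ζ.im|) := by nlinarith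
      have h3 := CU2_bound (v := fun i => W i ζ) (A := |CW| * (1 + |ζ.im|) ^ N) h2 h1
        (by positivity) (by
          intro i
          refine (hgr ζ i hζ (hYY.trans_lt hζ1)).trans ?_
          gcongr
          exact le_abs_self CW) j
      refine h3.trans (le_of_eq ?_)
      rw [mul_pow, pow_add]
      ring
  choose U hUan YU hUeq using hU
  set Y3 : ℝ := ∑ j ∈ Finset.range (k + 1), |YU j| with hY3
  have hY3le : ∀ j < k + 1, YU j ≤ Y3 := by
    intro j hj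
    have h1 : |YU j| ≤ Y3 :=
      Finset.single_le_sum (f := fun j => |YU j|) (fun i _ => abs_nonneg _)
        (Finset.mem_range.mpr hj)
    exact (le_abs_self _).trans h1
  set Y4 : ℝ := max (max Y0 Y2) Y3 with hY4
  have hY40 : Y0 ≤ Y4 := (le_max_left _ _).trans (le_max_left _ _)
  have hY42 : Y2 ≤ Y4 := (le_max_right _ _).trans (le_max_left _ _)
  have hY43 : Y3 ≤ Y4 := le_max_right _ _
  have hder : ∀ j < k, ∀ ζ : ℂ, Y4 < ζ.im →
      deriv (fun ζ : ℂ => U j (ee (ζ / n))) ζ =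
        ((j + 1 : ℕ) : ℂ) * U (j + 1) (ee (ζ / n)) * deriv T ζ := by
    intro j hj ζ hζ
    have hζY : Y < ζ.im := (hYY.trans hY40).trans_lt hζ
    obtain ⟨g, hg⟩ := tr ζ hζY
    have h1 := CU2_deriv (fun i => hW i ζ hζY) (hTd ζ hζY) hg hj
    rw [hUeq (j + 1) ζ ((hY3le (j + 1) (by omega)).trans hY43 |>.trans_lt hζ)] at h1
    rw [← h1]
    apply Filter.EventuallyEq.deriv_eq
    have h2 : {z : ℂ | Y4 < z.im} ∈ 𝓝 ζ :=
      (isOpen_lt continuous_const Complex.continuous_im).mem_nhds hζ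
    filter_upwards [h2] with z hz
    exact (hUeq j z ((hY3le j (by omega)).trans hY43 |>.trans_lt hz)).symm
  have hzero : ∀ j < k, U (j + 1) 0 = 0 := by
    intro j hj
    have := CU2_neBot
    set b : ℂ := 2 * Real.pi * Complex.I / n with hb
    have h1 : Tendsto (fun ζ : ℂ => deriv (U j) (ee (ζ / n)) * (ee (ζ / n) * b))
        (comap Complex.im atTop) (𝓝 0) := CU2_lim' hn (hUan j) b
    have h2 : Tendsto (fun ζ : ℂ => ((j + 1 : ℕ) : ℂ) * U (j + 1) (ee (ζ / n)) *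
        (m / n + deriv F (ee (ζ / n)) * (ee (ζ / n) * b))) (comap Complex.im atTop)
        (𝓝 (((j + 1 : ℕ) : ℂ) * U (j + 1) 0 * (m / n + 0))) :=
      ((CU2_lim hn (hUan (j + 1))).const_mul _).mul
        (tendsto_const_nhds.add (CU2_lim' hn hF b))
    have h3 : (fun ζ : ℂ => deriv (U j) (ee (ζ / n)) * (ee (ζ / n) * b))
        =ᶠ[comap Complex.im atTop] (fun ζ : ℂ => ((j + 1 : ℕ) : ℂ) * U (j + 1) (ee (ζ / n)) *
        (m / n + deriv F (ee (ζ / n)) * (ee (ζ / n) * b))) := by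
      have h4 : Tendsto (fun ζ : ℂ => ee (ζ / n)) (comap Complex.im atTop) (𝓝 0) :=
        (Pool.Agent.LibUB33.tendsto_ee hn).mono_right nhdsWithin_le_nhds
      filter_upwards [CU2_ev' Y4, h4.eventually (hUan j).eventually_analyticAt] with ζ hζ hζ1
      have h5 := hder j hj ζ hζ
      rw [(CU2_hasDeriv hζ1.differentiableAt).deriv] at h5
      rw [h5]
      congr 1
      have h6 : HasDerivAt (fun ζ : ℂ => (m : ℂ) * (ζ / n) + F (ee (ζ / n)))
          ((m : ℂ) * (1 / n) + deriv F (ee (ζ / n)) * (ee (ζ / n) * b)) ζ :=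
        (((hasDerivAt_id ζ).div_const (n : ℂ)).const_mul (m : ℂ)).add
          (CU2_hasDeriv (hY2 ζ (hY42.trans_lt hζ)))
      have h7 : T =ᶠ[𝓝 ζ] fun ζ : ℂ => (m : ℂ) * (ζ / n) + F (ee (ζ / n)) := by
        have h8 : {z : ℂ | Y4 < z.im} ∈ 𝓝 ζ :=
          (isOpen_lt continuous_const Complex.continuous_im).mem_nhds hζ
        filter_upwards [h8] with z hz
        exact hT z ((hYY.trans hY40).trans_lt hz)
      rw [h7.deriv_eq, h6.deriv]
      ring
    have h9 := tendsto_nhds_unique (h1.congr' h3) h2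
    rw [add_zero] at h9
    have h10 : ((j + 1 : ℕ) : ℂ) ≠ 0 := by
      rw [Nat.cast_ne_zero]
      omega
    have h11 : ((j + 1 : ℕ) : ℂ) * U (j + 1) 0 * (m / n) = 0 := h9.symm
    have h12 : (m : ℂ) / n ≠ 0 := div_ne_zero hmc hnc
    rcases mul_eq_zero.mp h11 with h13 | h13
    · rcases mul_eq_zero.mp h13 with h14 | h14
      · exact absurd h14 h10
      · exact h14
    · exact absurd h13 h12
  -- assembly
  set u : ℕ → ℂ → ℂ := fun j q => if j = 0 then U 0 q - U 0 0 else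
    if j ≤ k then U j q else 0 with hu
  have hu0 : ∀ q, u 0 q = U 0 q - U 0 0 := fun q => by simp [hu]
  have hus : ∀ j, j + 1 ≤ k → ∀ q, u (j + 1) q = U (j + 1) q := fun j hj q => by
    simp [hu, hj]
  refine ⟨U 0 0, u, Y4, hYY.trans hY40, ?_, ?_, ?_⟩
  · intro j
    rcases j with _ | j
    · constructor
      · have h1 : u 0 = fun q => U 0 q - U 0 0 := funext hu0
        rw [h1]
        exact (hUan 0).sub analyticAt_const
      · rw [hu0, sub_self]
    · by_cases hj : j + 1 ≤ k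
      · have h1 : u (j + 1) = U (j + 1) := funext (hus j hj)
        rw [h1]
        exact ⟨hUan _, hzero j (by omega)⟩
      · have h1 : u (j + 1) = fun _ => 0 := by
          funext q
          simp [hu, hj]
        rw [h1]
        exact ⟨analyticAt_const, rfl⟩
  · intro ζ hζ
    rw [CU2_expand (fun j => W j ζ) (T ζ), Finset.sum_range_succ', Finset.sum_range_succ']
    rw [pow_zero, mul_one, mul_one, hu0,
      hUeq 0 ζ ((hY3le 0 (by omega)).trans hY43 |>.trans_lt hζ)]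
    have h1 : ∑ j ∈ Finset.range k, C (CU2_c (fun j => W j ζ) (T ζ) (j + 1)) *
        (X - C (T ζ)) ^ (j + 1) =
        ∑ j ∈ Finset.range k, C (u (j + 1) (ee (ζ / n))) * (X - C (T ζ)) ^ (j + 1) := by
      refine Finset.sum_congr rfl fun j hj => ?_
      have hj' := Finset.mem_range.mp hj
      rw [hus j (by omega),
        hUeq (j + 1) ζ ((hY3le (j + 1) (by omega)).trans hY43 |>.trans_lt hζ)]
    rw [h1, map_sub]
    ring
  · intro j hj ζ hζ
    rw [hus j (by omega)]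
    rcases j with _ | j
    · have h1 := hder 0 hj ζ hζ
      rw [← h1]
      have h2 : (fun ζ : ℂ => u 0 (ee (ζ / n))) = fun ζ : ℂ => U 0 (ee (ζ / n)) - U 0 0 := by
        funext z
        exact hu0 _
      rw [h2, deriv_sub_const]
    · have h1 := hder (j + 1) hj ζ hζ
      rw [← h1]
      have h2 : (fun ζ : ℂ => u (j + 1) (ee (ζ / n))) =
          fun ζ : ℂ => U (j + 1) (ee (ζ / n)) := by
        funext z
        exact hus j (by omega) _
      rw [h2]

theorem CU3_toP_coeff {k : ℕ} {P : ℂ[X]} (hP : P.natDegree ≤ k) :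
    toP (fun j : Fin (k + 1) => P.coeff (j : ℕ)) = P := by
  unfold toP
  rw [Fin.sum_univ_eq_sum_range (fun j => C (P.coeff j) * X ^ j) (k + 1)]
  exact (P.as_sum_range_C_mul_X_pow' (by omega)).symm

theorem CU3_toP_sub {k : ℕ} (v w : Fin (k + 1) → ℂ) :
    toP (fun j => v j - w j) = toP v - toP w := by
  unfold toP
  rw [← Finset.sum_sub_distrib]
  refine Finset.sum_congr rfl fun j _ => ?_
  rw [map_sub, sub_mul]

theorem CU3_coeff_pow (s : ℂ) (a j : ℕ) :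
    ((X - C s) ^ a).coeff j = (-s) ^ (a - j) * (a.choose j : ℂ) := by
  rw [sub_eq_add_neg, ← C_neg, coeff_X_add_C_pow]

/-- The standard part. -/
noncomputable def CU3_P (k : ℕ) (rr : ℝ) (N : ℝ[X]) (s : ℂ) : ℂ[X] :=
  C ((rr / (k + 1) : ℝ) : ℂ) * (X ^ (k + 1) - (X - C s) ^ (k + 1)) + N.map (algebraMap ℝ ℂ)

theorem CU3_coeff (k : ℕ) (rr : ℝ) (N : ℝ[X]) (s : ℂ) {j : ℕ} (hj : j ≤ k) :
    (CU3_P k rr N s).coeff j = -(((rr / (k + 1) : ℝ) : ℂ) *
      ((-s) ^ (k + 1 - j) * ((k + 1).choose j : ℂ))) + (N.coeff j : ℂ) := by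
  unfold CU3_P
  rw [coeff_add, coeff_C_mul, coeff_sub, coeff_X_pow, if_neg (by omega), CU3_coeff_pow,
    coeff_map]
  simp

theorem CU3_natDegree (k : ℕ) (rr : ℝ) {N : ℝ[X]} (hN : N.natDegree ≤ k) (s : ℂ) :
    (CU3_P k rr N s).natDegree ≤ k := by
  rw [natDegree_le_iff_coeff_eq_zero]
  intro j hj
  unfold CU3_P
  rw [coeff_add, coeff_C_mul, coeff_sub, coeff_X_pow, CU3_coeff_pow, coeff_map,
    coeff_eq_zero_of_natDegree_lt (lt_of_le_of_lt hN hj), map_zero, add_zero]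
  rcases Nat.lt_or_ge (k + 1) j with h | h
  · rw [if_neg (by omega), Nat.choose_eq_zero_of_lt h]
    simp
  · have h1 : j = k + 1 := by omega
    subst h1
    simp

theorem CU3_T_bound {n m : ℕ} {Y : ℝ} {T F : ℂ → ℂ} (hn : 0 < n) (hF : AnalyticAt ℂ F 0)
    (hT : ∀ ζ : ℂ, Y < ζ.im → T ζ = m * (ζ / n) + F (ee (ζ / n))) :
    ∃ (B Y0 : ℝ), 1 ≤ B ∧ Y ≤ Y0 ∧ ∀ ζ : ℂ, |ζ.re| ≤ n → Y0 < ζ.im →
      ‖T ζ‖ ≤ B * (1 + |ζ.im|) := by
  have hn1 : (1 : ℝ) ≤ n := by exact_mod_cast hn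
  have h0 : Tendsto (fun ζ : ℂ => F (ee (ζ / n))) (comap Complex.im atTop) (𝓝 (F 0)) :=
    hF.continuousAt.tendsto.comp
      ((Pool.Agent.LibUB33.tendsto_ee hn).mono_right nhdsWithin_le_nhds)
  have h1 := h0.norm.eventually (eventually_lt_nhds (show ‖F 0‖ < ‖F 0‖ + 1 by linarith))
  rw [Filter.eventually_comap] at h1
  obtain ⟨Y1, hY1⟩ := h1.exists_forall_of_atTop
  have hm0 : (0 : ℝ) ≤ m := Nat.cast_nonneg m
  have hF0 := norm_nonneg (F 0)
  refine ⟨m + ‖F 0‖ + 1, max Y Y1, by linarith, le_max_left _ _, fun ζ hζ hζ1 => ?_⟩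
  rw [hT ζ ((le_max_left _ _).trans_lt hζ1)]
  refine (norm_add_le _ _).trans ?_
  have h2 : ‖F (ee (ζ / n))‖ < ‖F 0‖ + 1 :=
    hY1 ζ.im ((le_max_right _ _).trans_lt hζ1).le ζ rfl
  have h3 : ‖(m : ℂ) * (ζ / n)‖ ≤ m * (1 + |ζ.im|) := by
    rw [norm_mul, norm_div, Complex.norm_natCast, Complex.norm_natCast]
    have h3 : ‖ζ‖ / n ≤ 1 + |ζ.im| := by
      rw [div_le_iff₀ (by linarith)]
      have h4 := Complex.norm_le_abs_re_add_abs_im ζ
      have h5 := abs_nonneg ζ.im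
      nlinarith
    gcongr
  have h6 := abs_nonneg ζ.im
  nlinarith

theorem CU3_deriv (k : ℕ) (rr : ℝ) (N : ℝ[X]) {T : ℂ → ℂ} {ζ : ℂ}
    (hT : DifferentiableAt ℂ T ζ) {j : ℕ} (hj : j ≤ k) :
    HasDerivAt (fun ζ => (CU3_P k rr N (T ζ)).coeff j)
      ((rr : ℂ) * deriv T ζ * ((-(T ζ)) ^ (k - j) * (k.choose j : ℂ))) ζ := by
  have h0 : (fun ζ => (CU3_P k rr N (T ζ)).coeff j) = fun ζ => -(((rr / (k + 1) : ℝ) : ℂ) *
      ((-(T ζ)) ^ (k + 1 - j) * ((k + 1).choose j : ℂ))) + (N.coeff j : ℂ) := by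
    funext z
    exact CU3_coeff k rr N (T z) hj
  rw [h0]
  have h1 := (((((hT.hasDerivAt.neg.pow (k + 1 - j)).mul_const
    (((k + 1).choose j : ℕ) : ℂ)).const_mul ((rr / (k + 1) : ℝ) : ℂ)).neg).add_const
      (N.coeff j : ℂ))
  refine h1.congr_deriv ?_
  have h2 : ((k.choose j * (k + 1) : ℕ) : ℂ) =
      (((k + 1).choose j * (k + 1 - j) : ℕ) : ℂ) := by
    rw [Nat.choose_mul_succ_eq]
  rw [Nat.cast_mul, Nat.cast_mul] at h2
  have h3 : k + 1 - j - 1 = k - j := by omega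
  rw [h3]
  have h4 : ((k + 1 : ℕ) : ℂ) ≠ 0 := by
    rw [Nat.cast_ne_zero]
    omega
  have h5 : ((rr / (k + 1) : ℝ) : ℂ) = (rr : ℂ) / ((k + 1 : ℕ) : ℂ) := by
    push_cast
    rfl
  rw [h5]
  have h6 : (rr : ℂ) = (rr : ℂ) / ((k + 1 : ℕ) : ℂ) * ((k + 1 : ℕ) : ℂ) := by
    field_simp
  calc _ = ((rr : ℂ) / ((k + 1 : ℕ) : ℂ)) * deriv T ζ * (-(T ζ)) ^ (k - j) *
        ((((k + 1).choose j : ℕ) : ℂ) * ((k + 1 - j : ℕ) : ℂ)) := by
        simp only [Pi.neg_apply]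
        ring
    _ = ((rr : ℂ) / ((k + 1 : ℕ) : ℂ)) * deriv T ζ * (-(T ζ)) ^ (k - j) *
        (((k.choose j : ℕ) : ℂ) * ((k + 1 : ℕ) : ℂ)) := by rw [h2]
    _ = ((rr : ℂ) / ((k + 1 : ℕ) : ℂ) * ((k + 1 : ℕ) : ℂ)) * deriv T ζ *
        ((-(T ζ)) ^ (k - j) * (k.choose j : ℂ)) := by ring
    _ = _ := by rw [← h6]

theorem CU3_bound (k : ℕ) (rr : ℝ) (N : ℝ[X]) {s : ℂ} {B : ℝ} (hB : 1 ≤ B) (hs : ‖s‖ ≤ B)
    {j : ℕ} (hj : j ≤ k) :
    ‖(CU3_P k rr N s).coeff j‖ ≤ (|rr| * 2 ^ (k + 1) + ∑ i ∈ Finset.range (k + 1),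
      |N.coeff i|) * B ^ (k + 1) := by
  rw [CU3_coeff k rr N s hj]
  refine (norm_add_le _ _).trans ?_
  rw [norm_neg, norm_mul, norm_mul, norm_pow, norm_neg, Complex.norm_natCast,
    Complex.norm_real, Complex.norm_real, Real.norm_eq_abs, Real.norm_eq_abs]
  have h1 : |rr / (k + 1)| ≤ |rr| := by
    rw [abs_div]
    apply div_le_self (abs_nonneg _)
    have : (0 : ℝ) ≤ k := Nat.cast_nonneg k
    rw [abs_of_nonneg (by linarith)]
    linarith
  have h2 : ‖s‖ ^ (k + 1 - j) ≤ B ^ (k + 1) := by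
    calc ‖s‖ ^ (k + 1 - j) ≤ B ^ (k + 1 - j) := by gcongr
      _ ≤ B ^ (k + 1) := pow_le_pow_right₀ hB (by omega)
  have h3 : (((k + 1).choose j : ℕ) : ℝ) ≤ 2 ^ (k + 1) := by
    have h4 : (k + 1).choose j ≤ 2 ^ (k + 1) := Nat.choose_le_two_pow _ _
    exact_mod_cast h4
  have h5 : |N.coeff j| ≤ ∑ i ∈ Finset.range (k + 1), |N.coeff i| :=
    Finset.single_le_sum (f := fun i => |N.coeff i|) (fun i _ => abs_nonneg _)
      (Finset.mem_range.mpr (by omega))
  have h6 : (1 : ℝ) ≤ B ^ (k + 1) := one_le_pow₀ hB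
  have h7 : |rr / (k + 1)| * (‖s‖ ^ (k + 1 - j) * (((k + 1).choose j : ℕ) : ℝ)) ≤
      |rr| * (B ^ (k + 1) * 2 ^ (k + 1)) := by gcongr
  have h8 : 0 ≤ ∑ i ∈ Finset.range (k + 1), |N.coeff i| :=
    Finset.sum_nonneg fun i _ => abs_nonneg _
  nlinarith

theorem CuspD.nform {Y : ℝ} {T F : ℂ → ℂ} {W : Fin (k + 1) → ℂ → ℂ} {c : Fin (k + 1) → ℝ}
    (H : CuspD k n m Y T F W c) :
    ∃ (Y' rr : ℝ) (N : ℝ[X]) (c₀ : ℂ) (u : ℕ → ℂ → ℂ), Y ≤ Y' ∧ NForm k n Y' T W rr N c₀ u := by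
  have hnc : (n : ℂ) ≠ 0 := by
    rw [Nat.cast_ne_zero]
    exact H.hn.ne'
  obtain ⟨rr, N, hN, hc⟩ := solve_shift k H.hm (toP c)
    (by have := natDegree_toP_lt (Nat.succ_pos k) c; omega)
  obtain ⟨B, Y0, hB1, hYY, hTb⟩ := CU3_T_bound H.hn H.F_an H.hT
  -- the equation for `c`
  have hcC : C ((rr / (k + 1) : ℝ) : ℂ) * (X ^ (k + 1) - (X - C (m : ℂ)) ^ (k + 1)) +
      N.map (algebraMap ℝ ℂ) - (N.map (algebraMap ℝ ℂ)).comp (X - C (m : ℂ)) =
      toP fun j => (c j : ℂ) := by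
    have h1 := congrArg (Polynomial.map (algebraMap ℝ ℂ)) hc
    have h2 : (toP c).map (algebraMap ℝ ℂ) = toP fun j => (c j : ℂ) := by
      unfold toP
      rw [Polynomial.map_sum]
      refine Finset.sum_congr rfl fun j _ => ?_
      simp
    rw [h2] at h1
    rw [← h1]
    simp [Polynomial.map_comp]
  have hshift : ∀ ζ : ℂ, Y < ζ.im → T (ζ + n) = T ζ + m := by
    intro ζ hζ
    rw [H.hT ζ hζ, H.hT (ζ + n) (by simpa using hζ)]
    have h2 : ee ((ζ + n) / n) = ee (ζ / n) := by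
      unfold ee
      have h3 : 2 * (Real.pi : ℂ) * Complex.I * ((ζ + n) / n) =
          2 * Real.pi * Complex.I * (ζ / n) + 2 * Real.pi * Complex.I := by
        field_simp
      rw [h3, Complex.exp_add, Complex.exp_two_pi_mul_I, mul_one]
    rw [h2]
    field_simp
    ring
  set W1 : Fin (k + 1) → ℂ → ℂ := fun j ζ => W j ζ - (CU3_P k rr N (T ζ)).coeff (j : ℕ)
    with hW1
  have hle : ∀ j : Fin (k + 1), (j : ℕ) ≤ k := fun j => Nat.lt_succ_iff.mp j.2
  have htoP : ∀ ζ : ℂ, toP (fun j => W1 j ζ) =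
      toP (fun j => W j ζ) - CU3_P k rr N (T ζ) := by
    intro ζ
    have h1 := CU3_toP_sub (fun j => W j ζ) (fun j => (CU3_P k rr N (T ζ)).coeff (j : ℕ))
    rw [CU3_toP_coeff (CU3_natDegree k rr hN (T ζ))] at h1
    exact h1
  have hdW1 : ∀ (j : Fin (k + 1)) (ζ : ℂ), Y < ζ.im → HasDerivAt (W1 j)
      (deriv (W j) ζ - (rr : ℂ) * deriv T ζ *
        ((-(T ζ)) ^ (k - (j : ℕ)) * (k.choose (j : ℕ) : ℂ))) ζ := by
    intro j ζ hζ
    exact (H.hW j ζ hζ).hasDerivAt.sub (CU3_deriv k rr N (H.hTd ζ hζ) (hle j))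
  obtain ⟨CW, N0, hgr⟩ := H.growth
  obtain ⟨c₀, u, Y', hY', hu, hu1, hu2⟩ := periodic_form (k := k) (n := n) (m := m) (Y := Y0)
    (T := T) (F := F) H.hn H.hm H.F_an (fun ζ hζ => H.hT ζ (hYY.trans_lt hζ))
    (fun ζ hζ => H.hTd ζ (hYY.trans_lt hζ)) (W := W1)
    (fun j ζ hζ => (hdW1 j ζ (hYY.trans_lt hζ)).differentiableAt)
    (by
      intro ζ hζ
      obtain ⟨g, hg⟩ := H.trans ζ (hYY.trans_lt hζ)
      refine ⟨g - (rr : ℂ) * deriv T ζ, fun j => ?_⟩
      rw [(hdW1 j ζ (hYY.trans_lt hζ)).deriv, hg j, sub_mul]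
      congr 2
      unfold frm
      rw [Nat.sub_self, pow_zero, mul_one, CU3_coeff_pow])
    (by
      intro ζ hζ
      have hζ1 := hYY.trans_lt hζ
      rw [htoP, htoP, H.per ζ hζ1, hshift ζ hζ1, ← hcC]
      unfold CU3_P
      simp only [sub_comp, add_comp, mul_comp, pow_comp, C_comp, X_comp, map_add]
      ring)
    (by
      refine ⟨|CW| + (|rr| * 2 ^ (k + 1) + ∑ i ∈ Finset.range (k + 1), |N.coeff i|) *
        B ^ (k + 1), N0 + (k + 1), fun ζ j hζ hζ1 => ?_⟩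
      have h1 := hTb ζ hζ hζ1
      have h0 : 1 ≤ 1 + |ζ.im| := by
        have := abs_nonneg ζ.im
        linarith
      have h2 : 1 ≤ B * (1 + |ζ.im|) := by nlinarith
      have h3 := CU3_bound k rr N h2 h1 (hle j)
      have h4 := hgr ζ j hζ (hYY.trans_lt hζ1)
      have h5 : ‖W1 j ζ‖ ≤ ‖W j ζ‖ + ‖(CU3_P k rr N (T ζ)).coeff (j : ℕ)‖ := norm_sub_le _ _
      refine h5.trans ?_
      have h6 : (1 : ℝ) ≤ (1 + |ζ.im|) ^ N0 := one_le_pow₀ h0
      have h7 : (1 : ℝ) ≤ (1 + |ζ.im|) ^ (k + 1) := one_le_pow₀ h0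
      have h8 : ‖W j ζ‖ ≤ |CW| * (1 + |ζ.im|) ^ (N0 + (k + 1)) := by
        calc ‖W j ζ‖ ≤ CW * (1 + |ζ.im|) ^ N0 := h4
          _ ≤ |CW| * (1 + |ζ.im|) ^ N0 := by
            gcongr
            exact le_abs_self CW
          _ ≤ |CW| * (1 + |ζ.im|) ^ (N0 + (k + 1)) := by
            exact mul_le_mul_of_nonneg_left (pow_le_pow_right₀ h0 (by omega)) (abs_nonneg _)
      have h9 : 0 ≤ ∑ i ∈ Finset.range (k + 1), |N.coeff i| :=
        Finset.sum_nonneg fun i _ => abs_nonneg _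
      have h10 : ‖(CU3_P k rr N (T ζ)).coeff (j : ℕ)‖ ≤
          (|rr| * 2 ^ (k + 1) + ∑ i ∈ Finset.range (k + 1), |N.coeff i|) * B ^ (k + 1) *
            (1 + |ζ.im|) ^ (N0 + (k + 1)) := by
        refine h3.trans ?_
        rw [mul_pow, ← mul_assoc]
        exact mul_le_mul_of_nonneg_left (pow_le_pow_right₀ h0 (by omega)) (by positivity)
      rw [add_mul]
      exact add_le_add h8 h10)
  refine ⟨Y', rr, N, c₀, u, hYY.trans hY', ⟨hN, fun j => (hu j).1, fun j => (hu j).2, ?_, hu2⟩⟩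
  intro ζ hζ
  have h1 := hu1 ζ hζ
  rw [htoP] at h1
  have h2 : toP (fun j => W j ζ) = CU3_P k rr N (T ζ) + (C c₀ + ∑ j ∈ Finset.range (k + 1),
      C (u j (ee (ζ / n))) * (X - C (T ζ)) ^ j) := by
    rw [← h1]
    ring
  rw [h2]
  unfold CU3_P Pool.Agent.LibSym94.nform
  ring

theorem CU4_A (k : ℕ) (s t : ℂ) {m : ℕ} (hm : m ≤ k) :
    (C ((s - t) ^ k) : ℂ[X]) * (X - C s) ^ m = ∑ l ∈ Finset.range (k + 1),
      C (if m ≤ l then (-1) ^ (l - m) * ((k - m).choose (l - m) : ℂ) * (s - t) ^ m else 0) *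
        ((X - C s) ^ l * (X - C t) ^ (k - l)) := by
  have h1 : (C (s - t) : ℂ[X]) = -(X - C s) + (X - C t) := by
    rw [C_sub]
    ring
  have h2 : (C ((s - t) ^ k) : ℂ[X]) = C (s - t) ^ (k - m) * C ((s - t) ^ m) := by
    rw [C_pow, C_pow, ← pow_add, Nat.sub_add_cancel hm]
  have h3 : ∑ l ∈ Finset.Ico 0 m, C (if m ≤ l then (-1) ^ (l - m) *
      ((k - m).choose (l - m) : ℂ) * (s - t) ^ m else 0) *
        ((X - C s) ^ l * (X - C t) ^ (k - l)) = 0 := by
    apply Finset.sum_eq_zero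
    intro l hl
    rw [Finset.mem_Ico] at hl
    rw [if_neg (by omega), C_0, zero_mul]
  conv_rhs => rw [Finset.range_eq_Ico, ← Finset.sum_Ico_consecutive _ (Nat.zero_le m)
    (hm.trans (Nat.le_succ k)), h3, zero_add, Finset.sum_Ico_eq_sum_range,
    show (k + 1 : ℕ) - m = k - m + 1 by omega]
  rw [h2, h1, add_pow, Finset.sum_mul, Finset.sum_mul]
  apply Finset.sum_congr rfl
  intro e he
  rw [Finset.mem_range] at he
  rw [if_pos (by omega), Nat.add_sub_cancel_left, show k - (m + e) = k - m - e by omega, pow_add,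
    neg_pow]
  simp only [C_mul, C_pow, C_neg, C_1, C_eq_natCast]
  ring

theorem CU4_B (k : ℕ) (s t : ℂ) {m : ℕ} (hm : m ≤ k) :
    (C ((s - t) ^ k) : ℂ[X]) * (X - C t) ^ m = ∑ l ∈ Finset.range (k + 1),
      C (if m ≤ k - l then (-1) ^ l * ((k - m).choose l : ℂ) * (s - t) ^ m else 0) *
        ((X - C s) ^ l * (X - C t) ^ (k - l)) := by
  have h1 : (C (s - t) : ℂ[X]) = -(X - C s) + (X - C t) := by
    rw [C_sub]
    ring
  have h2 : (C ((s - t) ^ k) : ℂ[X]) = C (s - t) ^ (k - m) * C ((s - t) ^ m) := by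
    rw [C_pow, C_pow, ← pow_add, Nat.sub_add_cancel hm]
  rw [h2, h1, add_pow, Finset.range_eq_Ico, Finset.range_eq_Ico,
    ← Finset.sum_Ico_consecutive _ (Nat.zero_le (k - m + 1)) (show k - m + 1 ≤ k + 1 by omega)]
  have h3 : ∑ l ∈ Finset.Ico (k - m + 1) (k + 1), C (if m ≤ k - l then (-1) ^ l *
      ((k - m).choose l : ℂ) * (s - t) ^ m else 0) *
        ((X - C s) ^ l * (X - C t) ^ (k - l)) = 0 := by
    apply Finset.sum_eq_zero
    intro l hl
    rw [Finset.mem_Ico] at hl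
    rw [if_neg (by omega), C_0, zero_mul]
  rw [h3, add_zero, Finset.sum_mul, Finset.sum_mul]
  apply Finset.sum_congr rfl
  intro e he
  rw [Finset.mem_Ico] at he
  rw [if_pos (by omega), show k - e = k - m - e + m by omega, pow_add, neg_pow]
  simp only [C_mul, C_pow, C_neg, C_1, C_eq_natCast]
  ring

theorem CU4_geom (k : ℕ) (s t : ℂ) :
    (C ((s - t) ^ k) : ℂ[X]) * ((X - C t) ^ (k + 1) - (X - C s) ^ (k + 1)) =
      ∑ l ∈ Finset.range (k + 1), C ((s - t) ^ (k + 1)) *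
        ((X - C s) ^ l * (X - C t) ^ (k - l)) := by
  have h1 := geom_sum₂_mul (X - C s : ℂ[X]) (X - C t) (k + 1)
  have h2 : (X - C s : ℂ[X]) - (X - C t) = -C (s - t) := by
    rw [C_sub]
    ring
  rw [h2, Nat.add_sub_cancel] at h1
  rw [← Finset.mul_sum]
  simp only [C_pow]
  rw [pow_succ (C (s - t)) k]
  linear_combination (C (s - t)) ^ k * h1

theorem CU4_conj (v : Fin (k + 1) → ℂ) :
    toP (fun j => conj (v j)) = (toP v).map (starRingEnd ℂ) := by
  unfold toP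
  rw [Polynomial.map_sum]
  apply Finset.sum_congr rfl
  intro j _
  simp

theorem CU4_sub (v w : Fin (k + 1) → ℂ) :
    toP (fun j => v j - w j) = toP v - toP w := by
  unfold toP
  rw [← Finset.sum_sub_distrib]
  apply Finset.sum_congr rfl
  intro j _
  rw [C_sub, sub_mul]

theorem CU4_lin (s t : ℂ) (f : ℕ → ℂ) :
    toP (fun j : Fin (k + 1) => ∑ l ∈ Finset.range (k + 1), f l * frm k s t l j) =
      ∑ l ∈ Finset.range (k + 1), C (f l) * ((X - C s) ^ l * (X - C t) ^ (k - l)) := by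
  have h1 : ∀ l ∈ Finset.range (k + 1), C (f l) * ((X - C s) ^ l * (X - C t) ^ (k - l)) =
      C (f l) * toP (frm k s t l) := by
    intro l hl
    rw [toP_frm k s t (Nat.lt_succ_iff.1 (Finset.mem_range.1 hl))]
  rw [Finset.sum_congr rfl h1]
  unfold toP
  simp only [map_sum, Finset.sum_mul, Finset.mul_sum]
  rw [Finset.sum_comm]
  apply Finset.sum_congr rfl
  intro l _
  apply Finset.sum_congr rfl
  intro j _
  rw [C_mul]
  ring

theorem CU4_cut {M : Type*} [AddCommMonoid M] {a b : ℕ} (h : a ≤ b) (f : ℕ → M) :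
    ∑ m ∈ Finset.range (b + 1), (if m ≤ a then f m else 0) = ∑ m ∈ Finset.range (a + 1), f m := by
  rw [← Finset.sum_filter]
  apply Finset.sum_congr
  · ext m
    simp only [Finset.mem_filter, Finset.mem_range]
    omega
  · intro m _
    rfl

/-- The component in terms of the normal form. -/
theorem gco_nform (k : ℕ) {rr : ℝ} {N : ℝ[X]} (hN : N.natDegree ≤ k) {c₀ : ℂ} {u : ℕ → ℂ} {s : ℂ}
    (hs : 0 < s.im) {p : Fin (k + 1) → ℂ} (hp : toP p = LibSym94.nform k rr N c₀ u s) {i : ℕ}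
    (hi : i ≤ k) :
    gco k s (conj s) (fun j => p j - conj (p j)) i =
      ((rr / (k + 1) : ℝ) : ℂ) * (s - conj s) ^ (k + 1) +
      (c₀ - conj c₀) * (-1) ^ i * (k.choose i : ℂ) +
      ∑ m ∈ Finset.range (i + 1),
        (-1) ^ (i - m) * ((k - m).choose (i - m) : ℂ) * u m * (s - conj s) ^ m -
      (-1) ^ i * ∑ m ∈ Finset.range (k - i + 1),
        ((k - m).choose i : ℂ) * conj (u m) * (s - conj s) ^ m := by
  have hr : s - conj s ≠ 0 := by
    intro h
    have h1 := congrArg Complex.im h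
    rw [Complex.sub_im, Complex.conj_im, Complex.zero_im] at h1
    linarith
  set t := conj s with ht
  let g : ℕ → ℂ := fun i => ((rr / (k + 1) : ℝ) : ℂ) * (s - t) ^ (k + 1) +
      (c₀ - conj c₀) * (-1) ^ i * (k.choose i : ℂ) +
      ∑ m ∈ Finset.range (i + 1),
        (-1) ^ (i - m) * ((k - m).choose (i - m) : ℂ) * u m * (s - t) ^ m -
      (-1) ^ i * ∑ m ∈ Finset.range (k - i + 1),
        ((k - m).choose i : ℂ) * conj (u m) * (s - t) ^ m
  have hconj : toP (fun j => conj (p j)) = C ((rr / (k + 1) : ℝ) : ℂ) *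
      (X ^ (k + 1) - (X - C t) ^ (k + 1)) + N.map (algebraMap ℝ ℂ) + C (conj c₀) +
      ∑ j ∈ Finset.range (k + 1), C (conj (u j)) * (X - C t) ^ j := by
    rw [CU4_conj, hp]
    unfold LibSym94.nform
    have e1 : (starRingEnd ℂ).comp (algebraMap ℝ ℂ) = algebraMap ℝ ℂ :=
      RingHom.ext fun x => Complex.conj_ofReal x
    simp only [Polynomial.map_add, Polynomial.map_mul, Polynomial.map_sub, Polynomial.map_pow,
      Polynomial.map_C, Polynomial.map_X, Polynomial.map_sum, Polynomial.map_map, e1,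
      Complex.conj_ofReal]
    rw [ht]
  have hmain : (C ((s - t) ^ k) : ℂ[X]) * toP (fun j => p j - conj (p j)) =
      ∑ l ∈ Finset.range (k + 1), C (g l) * ((X - C s) ^ l * (X - C t) ^ (k - l)) := by
    rw [CU4_sub, hconj, hp]
    unfold LibSym94.nform
    have e1 : (C ((s - t) ^ k) : ℂ[X]) * (C ((rr / (k + 1) : ℝ) : ℂ) *
        (X ^ (k + 1) - (X - C s) ^ (k + 1)) + N.map (algebraMap ℝ ℂ) + C c₀ +
        ∑ j ∈ Finset.range (k + 1), C (u j) * (X - C s) ^ j -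
        (C ((rr / (k + 1) : ℝ) : ℂ) *
        (X ^ (k + 1) - (X - C t) ^ (k + 1)) + N.map (algebraMap ℝ ℂ) + C (conj c₀) +
        ∑ j ∈ Finset.range (k + 1), C (conj (u j)) * (X - C t) ^ j)) =
        C ((rr / (k + 1) : ℝ) : ℂ) * (C ((s - t) ^ k) *
          ((X - C t) ^ (k + 1) - (X - C s) ^ (k + 1))) +
        C (c₀ - conj c₀) * (C ((s - t) ^ k) * (X - C s) ^ 0) +
        ∑ j ∈ Finset.range (k + 1), C (u j) * (C ((s - t) ^ k) * (X - C s) ^ j) -
        ∑ j ∈ Finset.range (k + 1), C (conj (u j)) * (C ((s - t) ^ k) * (X - C t) ^ j) := by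
      have e2 : ∑ j ∈ Finset.range (k + 1), C (u j) * (C ((s - t) ^ k) * (X - C s) ^ j) =
          C ((s - t) ^ k) * ∑ j ∈ Finset.range (k + 1), C (u j) * (X - C s) ^ j := by
        rw [Finset.mul_sum]
        apply Finset.sum_congr rfl
        intro j _
        ring
      have e3 : ∑ j ∈ Finset.range (k + 1), C (conj (u j)) * (C ((s - t) ^ k) * (X - C t) ^ j) =
          C ((s - t) ^ k) * ∑ j ∈ Finset.range (k + 1), C (conj (u j)) * (X - C t) ^ j := by
        rw [Finset.mul_sum]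
        apply Finset.sum_congr rfl
        intro j _
        ring
      rw [e2, e3, C_sub (a := c₀)]
      ring
    rw [e1, CU4_geom, CU4_A k s t (Nat.zero_le k)]
    have e4 : ∑ j ∈ Finset.range (k + 1), C (u j) * (C ((s - t) ^ k) * (X - C s) ^ j) =
        ∑ l ∈ Finset.range (k + 1), C (∑ m ∈ Finset.range (l + 1),
        (-1) ^ (l - m) * ((k - m).choose (l - m) : ℂ) * u m * (s - t) ^ m) *
          ((X - C s) ^ l * (X - C t) ^ (k - l)) := by
      rw [Finset.sum_congr rfl fun j hj => by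
        rw [CU4_A k s t (Nat.lt_succ_iff.1 (Finset.mem_range.1 hj)), Finset.mul_sum]]
      rw [Finset.sum_comm]
      apply Finset.sum_congr rfl
      intro l hl
      rw [← CU4_cut (Nat.lt_succ_iff.1 (Finset.mem_range.1 hl)), map_sum, Finset.sum_mul]
      apply Finset.sum_congr rfl
      intro m _
      by_cases hm : m ≤ l
      · rw [if_pos hm, if_pos hm]
        simp only [C_mul]
        ring
      · rw [if_neg hm, if_neg hm]
        simp
    have e5 : ∑ j ∈ Finset.range (k + 1), C (conj (u j)) * (C ((s - t) ^ k) * (X - C t) ^ j) =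
        ∑ l ∈ Finset.range (k + 1), C ((-1) ^ l * ∑ m ∈ Finset.range (k - l + 1),
        ((k - m).choose l : ℂ) * conj (u m) * (s - t) ^ m) *
          ((X - C s) ^ l * (X - C t) ^ (k - l)) := by
      rw [Finset.sum_congr rfl fun j hj => by
        rw [CU4_B k s t (Nat.lt_succ_iff.1 (Finset.mem_range.1 hj)), Finset.mul_sum]]
      rw [Finset.sum_comm]
      apply Finset.sum_congr rfl
      intro l hl
      rw [← CU4_cut (Nat.sub_le k l), Finset.mul_sum, map_sum, Finset.sum_mul]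
      apply Finset.sum_congr rfl
      intro m _
      by_cases hm : m ≤ k - l
      · rw [if_pos hm, if_pos hm]
        simp only [C_mul]
        ring
      · rw [if_neg hm, if_neg hm]
        simp
    rw [e4, e5, Finset.mul_sum, Finset.mul_sum, ← Finset.sum_add_distrib,
      ← Finset.sum_add_distrib, ← Finset.sum_sub_distrib]
    apply Finset.sum_congr rfl
    intro l _
    simp only [g, Nat.zero_le, if_true, Nat.sub_zero, pow_zero, mul_one, C_add, C_sub, C_mul]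
    ring
  have hv : (fun j => p j - conj (p j)) =
      fun j : Fin (k + 1) => ∑ l ∈ Finset.range (k + 1), (g l / (s - t) ^ k) * frm k s t l j := by
    apply toP_injective
    rw [CU4_lin]
    have hr' : (C ((s - t) ^ k) : ℂ[X]) ≠ 0 := by
      rw [Ne, C_eq_zero]
      exact pow_ne_zero k hr
    apply mul_left_cancel₀ hr'
    rw [hmain, Finset.mul_sum]
    apply Finset.sum_congr rfl
    intro l _
    have e6 : (C (g l) : ℂ[X]) = C ((s - t) ^ k) * C (g l / (s - t) ^ k) := by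
      rw [← C_mul, mul_div_cancel₀ _ (pow_ne_zero k hr)]
    rw [e6]
    ring
  rw [gco_eq_gcoR, gcoR_frm k (fun j => congrFun hv j) hi, mul_div_cancel₀ _ (pow_ne_zero k hr)]

/-- every small nonzero number is a value of `q` -/
theorem CU5_surj {h : ℕ} (hh : 0 < h) (Y : ℝ) :
    ∀ᶠ q in 𝓝[≠] (0 : ℂ), ∃ z : ℂ, Y < z.im ∧ ee (z / h) = q := by
  have hh0 : (0 : ℝ) < h := by exact_mod_cast hh
  have hhc : (h : ℂ) ≠ 0 := by
    rw [Nat.cast_ne_zero]
    omega
  have hpc : (2 : ℂ) * Real.pi * Complex.I ≠ 0 := Complex.two_pi_I_ne_zero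
  have h1 : ∀ᶠ q in 𝓝[≠] (0 : ℂ), ‖q‖ < Real.exp (-(2 * Real.pi / h * Y)) := by
    have h2 : ∀ᶠ q in 𝓝 (0 : ℂ), ‖q‖ < Real.exp (-(2 * Real.pi / h * Y)) := by
      filter_upwards [Metric.ball_mem_nhds (0 : ℂ) (Real.exp_pos (-(2 * Real.pi / h * Y)))] with q hq
      simpa using hq
    exact h2.filter_mono nhdsWithin_le_nhds
  filter_upwards [h1, self_mem_nhdsWithin] with q hq hq0
  have hq0' : q ≠ 0 := hq0
  refine ⟨h * (Complex.log q / (2 * Real.pi * Complex.I)), ?_, ?_⟩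
  · have h3 : (h : ℂ) * (Complex.log q / (2 * Real.pi * Complex.I)) =
        ((h / (2 * Real.pi) : ℝ) : ℂ) * (-(Complex.I * Complex.log q)) := by
      push_cast
      field_simp
      rw [Complex.I_sq]
      ring
    rw [h3, Complex.im_ofReal_mul, Complex.neg_im, Complex.I_mul_im, Complex.log_re]
    have h4 : Real.log ‖q‖ < -(2 * Real.pi / h * Y) := by
      have h5 := Real.log_lt_log (norm_pos_iff.mpr hq0') hq
      rwa [Real.log_exp] at h5
    have hpi := Real.pi_pos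
    have h6 : Y = h / (2 * Real.pi) * (2 * Real.pi / h * Y) := by
      field_simp
    rw [h6]
    apply mul_lt_mul_of_pos_left _ (by positivity)
    linarith
  · rw [ee, mul_div_cancel_left₀ _ hhc, mul_div_cancel₀ _ hpc, Complex.exp_log hq0']

theorem CU5_dee (n : ℕ) (ζ : ℂ) :
    HasDerivAt (fun ζ : ℂ => ee (ζ / n)) (ee (ζ / n) * (2 * Real.pi * Complex.I / n)) ζ := by
  have h1 : HasDerivAt (fun ζ : ℂ => 2 * Real.pi * Complex.I * (ζ / n))
      (2 * Real.pi * Complex.I * (1 / n)) ζ :=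
    ((hasDerivAt_id ζ).div_const (n : ℂ)).const_mul _
  have h2 := h1.cexp
  refine h2.congr_deriv ?_
  rw [ee]
  ring

theorem CU5_eq {Y : ℝ} {T F : ℂ → ℂ} (hn : 0 < n) (hF : AnalyticAt ℂ F 0)
    (hT : ∀ ζ : ℂ, Y < ζ.im → T ζ = m * (ζ / n) + F (ee (ζ / n))) {u : ℕ → ℂ → ℂ}
    (hu : ∀ j, AnalyticAt ℂ (u j) 0)
    (der : ∀ j < k, ∀ ζ : ℂ, Y < ζ.im → deriv (fun ζ : ℂ => u j (ee (ζ / n))) ζ =
      (j + 1 : ℕ) * u (j + 1) (ee (ζ / n)) * deriv T ζ) {j : ℕ} (hj : j < k) :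
    ∀ᶠ q in 𝓝[≠] (0 : ℂ), 2 * Real.pi * Complex.I / n * (q * deriv (u j) q) =
      (j + 1 : ℕ) * u (j + 1) q * (m / n + 2 * Real.pi * Complex.I / n * (q * deriv F q)) := by
  have h1 : ∀ᶠ q in 𝓝[≠] (0 : ℂ), AnalyticAt ℂ (u j) q :=
    (hu j).eventually_analyticAt.filter_mono nhdsWithin_le_nhds
  have h2 : ∀ᶠ q in 𝓝[≠] (0 : ℂ), AnalyticAt ℂ F q :=
    hF.eventually_analyticAt.filter_mono nhdsWithin_le_nhds
  filter_upwards [CU5_surj hn Y, h1, h2] with q hq hA hB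
  obtain ⟨ζ, hζ, rfl⟩ := hq
  have h3 := der j hj ζ hζ
  have h4 : HasDerivAt (fun ζ : ℂ => u j (ee (ζ / n)))
      (deriv (u j) (ee (ζ / n)) * (ee (ζ / n) * (2 * Real.pi * Complex.I / n))) ζ :=
    HasDerivAt.comp ζ hA.differentiableAt.hasDerivAt (CU5_dee n ζ)
  have h5 : HasDerivAt (fun ζ : ℂ => F (ee (ζ / n)))
      (deriv F (ee (ζ / n)) * (ee (ζ / n) * (2 * Real.pi * Complex.I / n))) ζ :=
    HasDerivAt.comp ζ hB.differentiableAt.hasDerivAt (CU5_dee n ζ)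
  have h6 : HasDerivAt (fun ζ : ℂ => (m : ℂ) * (ζ / n)) (m * (1 / n)) ζ :=
    ((hasDerivAt_id ζ).div_const (n : ℂ)).const_mul _
  have h7 : deriv T ζ = m * (1 / n) +
      deriv F (ee (ζ / n)) * (ee (ζ / n) * (2 * Real.pi * Complex.I / n)) := by
    have h8 : T =ᶠ[𝓝 ζ] fun ζ : ℂ => (m : ℂ) * (ζ / n) + F (ee (ζ / n)) := by
      have h9 : {ζ : ℂ | Y < ζ.im} ∈ 𝓝 ζ :=
        (isOpen_lt continuous_const Complex.continuous_im).mem_nhds hζ
      filter_upwards [h9] with z hz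
      exact hT z hz
    rw [h8.deriv_eq]
    exact (h6.add h5).deriv
  rw [h4.deriv, h7] at h3
  calc 2 * Real.pi * Complex.I / n * (ee (ζ / n) * deriv (u j) (ee (ζ / n)))
      = deriv (u j) (ee (ζ / n)) * (ee (ζ / n) * (2 * Real.pi * Complex.I / n)) := by ring
    _ = _ := h3
    _ = _ := by ring

theorem CU5_pow {A B : ℂ → ℂ} {d e : ℕ} (hA : ContinuousAt A 0) (hB : ContinuousAt B 0)
    (hA0 : A 0 ≠ 0) (h : ∀ᶠ q in 𝓝[≠] (0 : ℂ), q ^ e * A q = q ^ d * B q) : d ≤ e := by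
  by_contra hlt
  rw [not_le] at hlt
  have h1 : ∀ᶠ q in 𝓝[≠] (0 : ℂ), A q = q ^ (d - e) * B q := by
    filter_upwards [h, self_mem_nhdsWithin] with q hq hq0
    have hq0' : q ≠ 0 := hq0
    have h2 : q ^ d = q ^ e * q ^ (d - e) := by
      rw [← pow_add]
      congr 1
      omega
    rw [h2, mul_assoc] at hq
    exact mul_left_cancel₀ (pow_ne_zero e hq0') hq
  have h3 : Tendsto A (𝓝[≠] (0 : ℂ)) (𝓝 (A 0)) := hA.tendsto.mono_left nhdsWithin_le_nhds
  have h4 : Tendsto (fun q : ℂ => q ^ (d - e) * B q) (𝓝[≠] (0 : ℂ)) (𝓝 (0 ^ (d - e) * B 0)) := by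
    refine Tendsto.mono_left ?_ nhdsWithin_le_nhds
    exact ((continuous_pow (d - e)).continuousAt.mul hB).tendsto
  have h5 : A 0 = 0 ^ (d - e) * B 0 := by
    refine tendsto_nhds_unique (h3.congr' h1) h4
  rw [zero_pow (by omega), zero_mul] at h5
  exact hA0 h5

theorem CU5_step {Y : ℝ} {T F : ℂ → ℂ} (hn : 0 < n) (hm : 0 < m) (hF : AnalyticAt ℂ F 0)
    (hT : ∀ ζ : ℂ, Y < ζ.im → T ζ = m * (ζ / n) + F (ee (ζ / n))) {u : ℕ → ℂ → ℂ}
    (hu : ∀ j, AnalyticAt ℂ (u j) 0) (hu0 : ∀ j, u j 0 = 0)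
    (der : ∀ j < k, ∀ ζ : ℂ, Y < ζ.im → deriv (fun ζ : ℂ => u j (ee (ζ / n))) ζ =
      (j + 1 : ℕ) * u (j + 1) (ee (ζ / n)) * deriv T ζ) {j d : ℕ} (hj : j < k)
    (hv : ∃ v : ℂ → ℂ, AnalyticAt ℂ v 0 ∧ v 0 ≠ 0 ∧
      ∀ᶠ q in 𝓝 (0 : ℂ), u (j + 1) q = q ^ d * v q) :
    ∃ v : ℂ → ℂ, AnalyticAt ℂ v 0 ∧ v 0 ≠ 0 ∧ ∀ᶠ q in 𝓝 (0 : ℂ), u j q = q ^ d * v q := by
  obtain ⟨v, hva, hv0, hve⟩ := hv
  have hnc : (n : ℂ) ≠ 0 := Nat.cast_ne_zero.mpr (by omega)
  have hmc : (m : ℂ) ≠ 0 := Nat.cast_ne_zero.mpr (by omega)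
  have hjc : ((j + 1 : ℕ) : ℂ) ≠ 0 := Nat.cast_ne_zero.mpr (by omega)
  have hpc : (2 : ℂ) * Real.pi * Complex.I ≠ 0 := Complex.two_pi_I_ne_zero
  have key := CU5_eq hn hF hT hu der hj
  set B : ℂ → ℂ := fun q => (j + 1 : ℕ) * v q *
    (m / n + 2 * Real.pi * Complex.I / n * (q * deriv F q)) with hB
  have hBc : ContinuousAt B 0 := by
    have h1 : ContinuousAt (deriv F) 0 := hF.deriv.continuousAt
    have h2 : ContinuousAt v 0 := hva.continuousAt
    exact (continuousAt_const.mul h2).mul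
      (continuousAt_const.add (continuousAt_const.mul (continuousAt_id.mul h1)))
  have hB0 : B 0 ≠ 0 := by
    rw [hB]
    simp only [zero_mul, mul_zero, add_zero]
    exact mul_ne_zero (mul_ne_zero hjc hv0) (div_ne_zero hmc hnc)
  have key2 : ∀ᶠ q in 𝓝[≠] (0 : ℂ), 2 * Real.pi * Complex.I / n * (q * deriv (u j) q) =
      q ^ d * B q := by
    filter_upwards [key, hve.filter_mono nhdsWithin_le_nhds] with q h1 h2
    rw [h1, h2, hB]
    ring
  have hnz : ¬ ∀ᶠ q in 𝓝 (0 : ℂ), u j q = 0 := by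
    intro hz
    have h1 : deriv (u j) =ᶠ[𝓝 0] deriv (fun _ => (0 : ℂ)) := by
      have h2 : u j =ᶠ[𝓝 0] fun _ => (0 : ℂ) := hz
      exact h2.deriv
    have h3 : ∀ᶠ q in 𝓝[≠] (0 : ℂ), B q ≠ 0 :=
      (hBc.eventually_ne hB0).filter_mono nhdsWithin_le_nhds
    have h4 : ∀ᶠ q in 𝓝[≠] (0 : ℂ), False := by
      filter_upwards [key2, h1.filter_mono nhdsWithin_le_nhds, h3, self_mem_nhdsWithin] with q h5 h6 h7 h8
      have h8' : q ≠ 0 := h8
      rw [h6, deriv_const, mul_zero, mul_zero] at h5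
      exact (mul_ne_zero (pow_ne_zero d h8') h7) h5.symm
    exact h4.exists.elim fun _ h => h
  obtain ⟨e, g, hga, hg0, hge⟩ := (hu j).exists_eventuallyEq_pow_smul_nonzero_iff.mpr hnz
  have hge' : ∀ᶠ q in 𝓝 (0 : ℂ), u j q = q ^ e * g q := by
    filter_upwards [hge] with q hq
    rw [hq, sub_zero, smul_eq_mul]
  have he1 : 1 ≤ e := by
    by_contra h
    have h0 : e = 0 := by omega
    have h1 := hge'.self_of_nhds
    rw [hu0 j, h0, pow_zero, one_mul] at h1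
    exact hg0 h1.symm
  set A : ℂ → ℂ := fun q => 2 * Real.pi * Complex.I / n * (e * g q + q * deriv g q) with hA
  have hAc : ContinuousAt A 0 := by
    have h1 : ContinuousAt (deriv g) 0 := hga.deriv.continuousAt
    have h2 : ContinuousAt g 0 := hga.continuousAt
    exact continuousAt_const.mul ((continuousAt_const.mul h2).add (continuousAt_id.mul h1))
  have hA0 : A 0 ≠ 0 := by
    rw [hA]
    simp only [zero_mul, add_zero]
    exact mul_ne_zero (div_ne_zero hpc hnc)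
      (mul_ne_zero (Nat.cast_ne_zero.mpr (by omega)) hg0)
  have hder : ∀ᶠ q in 𝓝[≠] (0 : ℂ), q * deriv (u j) q = q ^ e * (e * g q + q * deriv g q) := by
    have h1 : deriv (u j) =ᶠ[𝓝 0] deriv (fun q => q ^ e * g q) := by
      have h2 : u j =ᶠ[𝓝 0] fun q => q ^ e * g q := hge'
      exact h2.deriv
    filter_upwards [h1.filter_mono nhdsWithin_le_nhds,
      hga.eventually_analyticAt.filter_mono nhdsWithin_le_nhds] with q h3 h4
    have h5 : HasDerivAt (fun q => q ^ e * g q) (e * q ^ (e - 1) * g q + q ^ e * deriv g q) q :=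
      (hasDerivAt_pow e q).mul h4.differentiableAt.hasDerivAt
    rw [h3, h5.deriv]
    have h6 : q * q ^ (e - 1) = q ^ e := by
      rw [← pow_succ']
      congr 1
      omega
    calc q * (e * q ^ (e - 1) * g q + q ^ e * deriv g q)
        = e * (q * q ^ (e - 1)) * g q + q ^ e * (q * deriv g q) := by ring
      _ = _ := by rw [h6]; ring
  have hAB : ∀ᶠ q in 𝓝[≠] (0 : ℂ), q ^ e * A q = q ^ d * B q := by
    filter_upwards [key2, hder] with q h1 h2
    rw [← h1, h2, hA]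
    ring
  have hed : e = d := by
    apply le_antisymm
    · refine CU5_pow hBc hAc hB0 ?_
      filter_upwards [hAB] with q hq
      exact hq.symm
    · exact CU5_pow hAc hBc hA0 hAB
  subst hed
  exact ⟨g, hga, hg0, hge'⟩

/-- The orders of vanishing of the periodic functions agree. -/
theorem same_order {Y : ℝ} {T F : ℂ → ℂ} (hn : 0 < n) (hm : 0 < m) (hF : AnalyticAt ℂ F 0)
    (hT : ∀ ζ : ℂ, Y < ζ.im → T ζ = m * (ζ / n) + F (ee (ζ / n))) {u : ℕ → ℂ → ℂ}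
    (hu : ∀ j, AnalyticAt ℂ (u j) 0) (hu0 : ∀ j, u j 0 = 0)
    (der : ∀ j < k, ∀ ζ : ℂ, Y < ζ.im → deriv (fun ζ : ℂ => u j (ee (ζ / n))) ζ =
      (j + 1 : ℕ) * u (j + 1) (ee (ζ / n)) * deriv T ζ)
    (hk : ¬ ∀ᶠ q in 𝓝 (0 : ℂ), u k q = 0) :
    ∃ d : ℕ, 1 ≤ d ∧ ∀ j ≤ k, ∃ v : ℂ → ℂ, AnalyticAt ℂ v 0 ∧ v 0 ≠ 0 ∧
      ∀ᶠ q in 𝓝 (0 : ℂ), u j q = q ^ d * v q := by
  obtain ⟨d, g, hga, hg0, hge⟩ := (hu k).exists_eventuallyEq_pow_smul_nonzero_iff.mpr hk
  have hge' : ∀ᶠ q in 𝓝 (0 : ℂ), u k q = q ^ d * g q := by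
    filter_upwards [hge] with q hq
    rw [hq, sub_zero, smul_eq_mul]
  refine ⟨d, ?_, ?_⟩
  · by_contra h
    have h0 : d = 0 := by omega
    have h1 := hge'.self_of_nhds
    rw [hu0 k, h0, pow_zero, one_mul] at h1
    exact hg0 h1.symm
  · have main : ∀ i ≤ k, ∃ v : ℂ → ℂ, AnalyticAt ℂ v 0 ∧ v 0 ≠ 0 ∧
        ∀ᶠ q in 𝓝 (0 : ℂ), u (k - i) q = q ^ d * v q := by
      intro i
      induction i with
      | zero =>
        intro _
        exact ⟨g, hga, hg0, hge'⟩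
      | succ i ih =>
        intro hi
        have h1 := ih (by omega)
        have h2 : k - i = k - (i + 1) + 1 := by omega
        rw [h2] at h1
        exact CU5_step hn hm hF hT hu hu0 der (by omega) h1
    intro j hj
    have h1 := main (k - j) (by omega)
    have h2 : k - (k - j) = j := by omega
    rwa [h2] at h1

theorem CU6_norm (n : ℕ) (ζ : ℂ) : ‖ee (ζ / n)‖ = Real.exp (-(2 * Real.pi / n * ζ.im)) := by
  unfold ee
  rw [Complex.norm_exp]
  congr 1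
  have h1 : (2 * Real.pi * Complex.I * (ζ / n) : ℂ) =
      ((2 * Real.pi / n : ℝ) : ℂ) * (Complex.I * ζ) := by
    push_cast
    ring
  rw [h1, Complex.re_ofReal_mul, Complex.I_mul_re]
  ring

/-- Behaviour at the puncture of functions vanishing at `q = 0`. -/
theorem small_at_cusp {Y : ℝ} {T F : ℂ → ℂ} (hn : 0 < n) (hm : 0 < m) (hF : AnalyticAt ℂ F 0)
    (hT : ∀ ζ : ℂ, Y < ζ.im → T ζ = m * (ζ / n) + F (ee (ζ / n))) {v : ℂ → ℂ}
    (hv : AnalyticAt ℂ v 0) (hv0 : v 0 = 0) (N : ℕ) {ε : ℝ} (hε : 0 < ε) :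
    ∃ Y' : ℝ, ∀ ζ : ℂ, Y' < ζ.im → ε⁻¹ < ‖T ζ - conj (T ζ)‖ ∧
      ‖v (ee (ζ / n))‖ * ‖T ζ - conj (T ζ)‖ ^ N ≤ ε := by
  have hn' : (0 : ℝ) < n := by exact_mod_cast hn
  have hm' : (0 : ℝ) < m := by exact_mod_cast hm
  obtain ⟨B, hB0, hB⟩ : ∃ B : ℝ, 0 ≤ B ∧ ∀ᶠ q in 𝓝 (0 : ℂ), ‖F q‖ ≤ B :=
    ⟨‖F 0‖ + 1, by positivity, ((hF.continuousAt.norm).eventually_lt_const
      (lt_add_one ‖F 0‖)).mono fun q h => h.le⟩
  obtain ⟨C, hC0, hC⟩ : ∃ C : ℝ, 0 < C ∧ ∀ᶠ q in 𝓝 (0 : ℂ), ‖v q‖ ≤ C * ‖q‖ := by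
    have h1 := hv.differentiableAt.isBigO_sub
    obtain ⟨C, hC0, hC⟩ := h1.exists_pos
    refine ⟨C, hC0, hC.bound.mono fun q hq => ?_⟩
    simpa [hv0] using hq
  obtain ⟨δ, hδ, hball⟩ := Metric.eventually_nhds_iff.1 (hB.and hC)
  set c : ℝ := 2 * Real.pi / n with hc
  have hc0 : 0 < c := by positivity
  set a : ℝ := 2 * (m / n) with ha
  have ha0 : 0 < a := by positivity
  have t0 : Tendsto (fun y : ℝ => c * y) atTop atTop := tendsto_id.const_mul_atTop hc0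
  have t1 : Tendsto (fun y : ℝ => Real.exp (-(c * y))) atTop (𝓝 0) :=
    Real.tendsto_exp_neg_atTop_nhds_zero.comp t0
  have t2 : Tendsto (fun y : ℝ => a * y - 2 * B) atTop atTop :=
    tendsto_atTop_add_const_right _ _ (tendsto_id.const_mul_atTop ha0)
  have t3 : Tendsto (fun y : ℝ => C * Real.exp (-(c * y)) * (a * y + 2 * B) ^ N) atTop (𝓝 0) := by
    have u0 : Tendsto (fun y : ℝ => c * y + c * (2 * B) / a) atTop atTop :=
      tendsto_atTop_add_const_right _ _ t0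
    have u1 := (Real.tendsto_pow_mul_exp_neg_atTop_nhds_zero N).comp u0
    have u2 := u1.const_mul (C * (a / c) ^ N * Real.exp (c * (2 * B) / a))
    rw [mul_zero] at u2
    refine u2.congr fun y => ?_
    simp only [Function.comp_apply]
    have h1 : a * y + 2 * B = (a / c) * (c * y + c * (2 * B) / a) := by
      field_simp
    rw [h1, mul_pow, neg_add, Real.exp_add]
    have h2 : Real.exp (c * (2 * B) / a) * Real.exp (-(c * (2 * B) / a)) = 1 := by
      rw [← Real.exp_add, add_neg_cancel, Real.exp_zero]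
    linear_combination (C * (a / c) ^ N * (c * y + c * (2 * B) / a) ^ N * Real.exp (-(c * y))) * h2
  have key : ∀ᶠ y : ℝ in atTop, Y < y ∧ Real.exp (-(c * y)) < δ ∧ ε⁻¹ < a * y - 2 * B ∧
      C * Real.exp (-(c * y)) * (a * y + 2 * B) ^ N ≤ ε := by
    filter_upwards [eventually_gt_atTop Y, t1.eventually_lt_const hδ,
      t2.eventually_gt_atTop ε⁻¹, t3.eventually_lt_const hε] with y h1 h2 h3 h4
    exact ⟨h1, h2, h3, h4.le⟩
  obtain ⟨Y', hY'⟩ := eventually_atTop.1 key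
  refine ⟨Y', fun ζ hζ => ?_⟩
  obtain ⟨h1, h2, h3, h4⟩ := hY' ζ.im hζ.le
  have hq : ‖ee (ζ / n)‖ = Real.exp (-(c * ζ.im)) := CU6_norm n ζ
  have hd : dist (ee (ζ / n)) 0 < δ := by
    rw [dist_zero_right, hq]
    exact h2
  obtain ⟨hFq, hvq⟩ := hball hd
  have him : (T ζ).im = (m / n) * ζ.im + (F (ee (ζ / n))).im := by
    rw [hT ζ h1, Complex.add_im]
    congr 1
    have h5 : (m * (ζ / n) : ℂ) = ((m / n : ℝ) : ℂ) * ζ := by
      push_cast
      ring
    rw [h5, Complex.im_ofReal_mul]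
  have hFi := (Complex.abs_im_le_norm (F (ee (ζ / n)))).trans hFq
  have hFi' := abs_le.1 hFi
  have hnorm : ‖T ζ - conj (T ζ)‖ = |2 * (T ζ).im| := by
    rw [Complex.sub_conj, norm_mul, Complex.norm_I, mul_one, Complex.norm_real, Real.norm_eq_abs]
  have hε' : 0 < ε⁻¹ := inv_pos.2 hε
  have hlow : a * ζ.im - 2 * B ≤ 2 * (T ζ).im := by
    rw [him, ha]
    nlinarith [hFi'.1]
  have hup : 2 * (T ζ).im ≤ a * ζ.im + 2 * B := by
    rw [him, ha]
    nlinarith [hFi'.2]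
  rw [hnorm, abs_of_pos (by linarith)]
  refine ⟨by linarith, ?_⟩
  refine le_trans ?_ h4
  rw [← hq]
  have hTpos : 0 ≤ 2 * (T ζ).im := by linarith
  exact mul_le_mul hvq (pow_le_pow_left₀ hTpos hup N) (pow_nonneg hTpos N) (by positivity)

theorem CU7_ev (P : ℂ → Prop) :
    (∀ᶠ ζ in Filter.comap Complex.im Filter.atTop, P ζ) ↔ ∃ Y' : ℝ, ∀ ζ : ℂ, Y' < ζ.im → P ζ := by
  rw [Filter.eventually_comap, Filter.eventually_atTop]
  constructor
  · rintro ⟨Y', h⟩
    exact ⟨Y', fun ζ hζ => h _ hζ.le ζ rfl⟩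
  · rintro ⟨Y', h⟩
    refine ⟨Y' + 1, fun y hy ζ hζ => h ζ ?_⟩
    rw [hζ]
    linarith

instance CU7_neBot : (Filter.comap Complex.im Filter.atTop).NeBot := by
  apply Filter.NeBot.comap_of_surj inferInstance
  intro y
  exact ⟨(y : ℂ) * Complex.I, by simp⟩

section
variable {Y : ℝ} {T F : ℂ → ℂ}

theorem CU7_r (hn : 0 < n) (hm : 0 < m) (hF : AnalyticAt ℂ F 0)
    (hT : ∀ ζ : ℂ, Y < ζ.im → T ζ = m * (ζ / n) + F (ee (ζ / n))) :
    Tendsto (fun ζ => ‖T ζ - conj (T ζ)‖) (Filter.comap Complex.im Filter.atTop) atTop := by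
  rw [Filter.tendsto_atTop]
  intro b
  rw [CU7_ev]
  obtain ⟨Y', h⟩ := small_at_cusp hn hm hF hT (v := fun _ => 0) analyticAt_const rfl 0
    (ε := (|b| + 1)⁻¹) (by positivity)
  refine ⟨Y', fun ζ hζ => ?_⟩
  have h1 := (h ζ hζ).1
  rw [inv_inv] at h1
  have h2 := le_abs_self b
  linarith

theorem CU7_small (hn : 0 < n) (hm : 0 < m) (hF : AnalyticAt ℂ F 0)
    (hT : ∀ ζ : ℂ, Y < ζ.im → T ζ = m * (ζ / n) + F (ee (ζ / n))) {v : ℂ → ℂ}
    (hv : AnalyticAt ℂ v 0) (hv0 : v 0 = 0) (N : ℕ) :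
    Tendsto (fun ζ => v (ee (ζ / n)) * (T ζ - conj (T ζ)) ^ N)
      (Filter.comap Complex.im Filter.atTop) (𝓝 0) := by
  rw [NormedAddGroup.tendsto_nhds_zero]
  intro ε hε
  rw [CU7_ev]
  obtain ⟨Y', h⟩ := small_at_cusp hn hm hF hT hv hv0 N (ε := ε / 2) (by positivity)
  refine ⟨Y', fun ζ hζ => ?_⟩
  have h1 := (h ζ hζ).2
  rw [norm_mul, norm_pow]
  linarith

theorem CU7_lim (hn : 0 < n) (hm : 0 < m) (hF : AnalyticAt ℂ F 0)
    (hT : ∀ ζ : ℂ, Y < ζ.im → T ζ = m * (ζ / n) + F (ee (ζ / n))) {v : ℂ → ℂ}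
    (hv : AnalyticAt ℂ v 0) :
    Tendsto (fun ζ => v (ee (ζ / n))) (Filter.comap Complex.im Filter.atTop) (𝓝 (v 0)) := by
  have h1 := CU7_small hn hm hF hT (v := fun q => v q - v 0) (hv.sub analyticAt_const)
    (sub_self _) 0
  have h2 := h1.add (tendsto_const_nhds (x := v 0))
  simpa using h2

theorem CU7_im (hn : 0 < n) (hm : 0 < m) (hF : AnalyticAt ℂ F 0)
    (hT : ∀ ζ : ℂ, Y < ζ.im → T ζ = m * (ζ / n) + F (ee (ζ / n))) :
    ∀ᶠ ζ in Filter.comap Complex.im Filter.atTop, 0 < (T ζ).im := by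
  have h1 := (Complex.continuous_im.tendsto _).comp (CU7_lim hn hm hF hT hF)
  have h2 : ∀ᶠ ζ in Filter.comap Complex.im Filter.atTop,
      (F 0).im - 1 < (F (ee (ζ / n))).im := h1.eventually (lt_mem_nhds (by linarith))
  have hn' : (0 : ℝ) < n := by exact_mod_cast hn
  have hm' : (0 : ℝ) < m := by exact_mod_cast hm
  have h3 : ∀ᶠ ζ in Filter.comap Complex.im Filter.atTop,
      Y < ζ.im ∧ -((F 0).im - 1) < m * (ζ.im / n) := by
    rw [CU7_ev]
    refine ⟨max Y (-((F 0).im - 1) * n / m), fun ζ hζ => ⟨(le_max_left _ _).trans_lt hζ, ?_⟩⟩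
    have h4 := (le_max_right _ _).trans_lt hζ
    rw [div_lt_iff₀ hm'] at h4
    rw [← mul_div_assoc, lt_div_iff₀ hn']
    linarith
  filter_upwards [h2, h3] with ζ a1 a2
  rw [hT ζ a2.1, Complex.add_im]
  have h5 : ((m : ℂ) * (ζ / n)).im = m * (ζ.im / n) := by
    have h6 : (m : ℂ) * (ζ / n) = ((m / n : ℝ) : ℂ) * ζ := by
      push_cast
      ring
    rw [h6, Complex.im_ofReal_mul]
    ring
  rw [h5]
  linarith [a2.2]

end

theorem CU7_alg (a v q w r : ℂ) (hq : q ≠ 0) (hr : r ≠ 0) {l i : ℕ} (hl : l ≤ i) (d : ℕ) :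
    (w / q) ^ d * (a * v * (r⁻¹) ^ (i - l)) = (q ^ d * r ^ i)⁻¹ * (a * (w ^ d * v) * r ^ l) := by
  have h7 : r ^ i = r ^ (i - l) * r ^ l := by
    rw [← pow_add, Nat.sub_add_cancel hl]
  rw [h7, inv_pow, div_pow]
  have h1 : q ^ d ≠ 0 := pow_ne_zero _ hq
  have h2 : r ^ l ≠ 0 := pow_ne_zero _ hr
  have h3 : r ^ (i - l) ≠ 0 := pow_ne_zero _ hr
  generalize q ^ d = Q at *
  generalize r ^ l = A at *
  generalize r ^ (i - l) = B at *
  field_simp

/-- The leading coefficient of the normal form. -/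
theorem CU7_last (hk : 1 ≤ k) {N : ℝ[X]} {c₀ : ℂ} {u : ℕ → ℂ} {s : ℂ}
    {p : Fin (k + 1) → ℂ} (hp : toP p = LibSym94.nform k 0 N c₀ u s) :
    p (Fin.last k) = (N.coeff k : ℂ) + u k := by
  have h1 := coeff_toP p (Fin.last k)
  rw [hp] at h1
  unfold LibSym94.nform at h1
  rw [← h1]
  have h2 : ∀ j ∈ Finset.range (k + 1), (C (u j) * (X - C s) ^ j : ℂ[X]).coeff k
      = if j = k then u k else 0 := by
    intro j hj
    rw [Finset.mem_range] at hj
    rw [coeff_C_mul]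
    by_cases h : j = k
    · subst h
      have h3 : ((X - C s) ^ j : ℂ[X]).coeff j = 1 := by
        have h4 : ((X - C s) ^ j : ℂ[X]).Monic := (monic_X_sub_C s).pow j
        have h5 : ((X - C s) ^ j : ℂ[X]).natDegree = j := by
          rw [natDegree_pow, natDegree_X_sub_C, mul_one]
        have h6 := h4.coeff_natDegree
        rwa [h5] at h6
      rw [h3, if_pos rfl, mul_one]
    · have h3 : ((X - C s) ^ j : ℂ[X]).coeff k = 0 := by
        apply coeff_eq_zero_of_natDegree_lt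
        rw [natDegree_pow, natDegree_X_sub_C, mul_one]
        omega
      rw [h3, if_neg h, mul_zero]
  simp only [coeff_add, Fin.val_last, zero_div, Complex.ofReal_zero, C_0, zero_mul,
    zero_add, finsetSum_coeff]
  rw [Finset.sum_congr rfl h2, Finset.sum_ite_eq' (Finset.range (k + 1)) k (fun _ => u k),
    if_pos (Finset.mem_range.2 (Nat.lt_succ_self k)), coeff_map,
    coeff_C_of_ne_zero (by omega : k ≠ 0), add_zero]
  rfl

/-- The main case. -/
theorem CU7_main {Y : ℝ} {T F : ℂ → ℂ} {W : Fin (k + 1) → ℂ → ℂ} {c : Fin (k + 1) → ℝ}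
    (hk : 1 ≤ k) (H : CuspD k n m Y T F W c) {i : ℕ} (hi : i ≤ k) (hi2 : k < 2 * i) :
    ∀ᶠ ζ in Filter.comap Complex.im Filter.atTop, zf k T W i ζ ≠ 0 := by
  obtain ⟨Y₁, rr, N, c₀, u, hY, NF⟩ := H.nform
  have hn := H.hn
  have hm := H.hm
  have hF := H.F_an
  have hT := H.hT
  have hnorm := CU7_r hn hm hF hT
  have him := CU7_im hn hm hF hT
  have hY1 : ∀ᶠ ζ in Filter.comap Complex.im Filter.atTop, Y₁ < ζ.im :=
    (CU7_ev _).2 ⟨Y₁, fun ζ h => h⟩
  have hr0 : ∀ᶠ ζ in Filter.comap Complex.im Filter.atTop, T ζ - conj (T ζ) ≠ 0 := by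
    filter_upwards [hnorm.eventually_gt_atTop 0] with ζ h
    exact norm_pos_iff.1 h
  have hinv : Tendsto (fun ζ => (T ζ - conj (T ζ))⁻¹) (Filter.comap Complex.im Filter.atTop)
      (𝓝 0) := by
    rw [tendsto_zero_iff_norm_tendsto_zero]
    simp only [norm_inv]
    exact hnorm.inv_tendsto_atTop
  have hinvp : ∀ j : ℕ, 0 < j → Tendsto (fun ζ => ((T ζ - conj (T ζ))⁻¹) ^ j)
      (Filter.comap Complex.im Filter.atTop) (𝓝 0) := by
    intro j hj
    have h1 := hinv.pow j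
    rwa [zero_pow hj.ne'] at h1
  have hform : ∀ᶠ ζ in Filter.comap Complex.im Filter.atTop, zf k T W i ζ =
      ((rr / (k + 1) : ℝ) : ℂ) * (T ζ - conj (T ζ)) ^ (k + 1) +
      (c₀ - conj c₀) * (-1) ^ i * (k.choose i : ℂ) +
      ∑ l ∈ Finset.range (i + 1),
        (-1) ^ (i - l) * ((k - l).choose (i - l) : ℂ) * u l (ee (ζ / n)) *
          (T ζ - conj (T ζ)) ^ l -
      (-1) ^ i * ∑ l ∈ Finset.range (k - i + 1),
        ((k - l).choose i : ℂ) * conj (u l (ee (ζ / n))) * (T ζ - conj (T ζ)) ^ l := by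
    filter_upwards [him, hY1] with ζ a1 a2
    exact gco_nform k NF.hN a1 (NF.eq ζ a2) hi
  -- the small terms
  have hs1 : Tendsto (fun ζ => ∑ l ∈ Finset.range (i + 1),
        (-1) ^ (i - l) * ((k - l).choose (i - l) : ℂ) * u l (ee (ζ / n)) *
          (T ζ - conj (T ζ)) ^ l) (Filter.comap Complex.im Filter.atTop) (𝓝 0) := by
    rw [← Finset.sum_const_zero (s := Finset.range (i + 1))]
    apply tendsto_finsetSum
    intro l _
    have h1 := (CU7_small hn hm hF hT (NF.u_an l) (NF.u_zero l) l).const_mul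
      ((-1) ^ (i - l) * ((k - l).choose (i - l) : ℂ))
    rw [mul_zero] at h1
    refine h1.congr fun ζ => ?_
    ring
  have hs2 : Tendsto (fun ζ => (-1) ^ i * ∑ l ∈ Finset.range (k - i + 1),
        ((k - l).choose i : ℂ) * conj (u l (ee (ζ / n))) * (T ζ - conj (T ζ)) ^ l)
        (Filter.comap Complex.im Filter.atTop) (𝓝 0) := by
    have h0 : Tendsto (fun ζ => ∑ l ∈ Finset.range (k - i + 1),
        ((k - l).choose i : ℂ) * conj (u l (ee (ζ / n))) * (T ζ - conj (T ζ)) ^ l)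
        (Filter.comap Complex.im Filter.atTop) (𝓝 0) := by
      rw [← Finset.sum_const_zero (s := Finset.range (k - i + 1))]
      apply tendsto_finsetSum
      intro l _
      have h1 := CU7_small hn hm hF hT (NF.u_an l) (NF.u_zero l) l
      have h2 : Tendsto (fun ζ => conj (u l (ee (ζ / n))) * (T ζ - conj (T ζ)) ^ l)
          (Filter.comap Complex.im Filter.atTop) (𝓝 0) := by
        rw [tendsto_zero_iff_norm_tendsto_zero] at h1 ⊢
        refine h1.congr fun ζ => ?_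
        rw [norm_mul, norm_mul, RCLike.norm_conj]
      have h3 := h2.const_mul ((k - l).choose i : ℂ)
      rw [mul_zero] at h3
      refine h3.congr fun ζ => ?_
      ring
    have h4 := h0.const_mul ((-1 : ℂ) ^ i)
    rwa [mul_zero] at h4
  by_cases hrr : rr = 0
  · by_cases hc : c₀ - conj c₀ = 0
    · -- the periodic part dominates
      have huk : ¬ ∀ᶠ q in 𝓝 (0 : ℂ), u k q = 0 := by
        intro h0
        have hq := CU7_lim hn hm hF hT (v := fun q => q) analyticAt_id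
        obtain ⟨Y₂, hY2⟩ := (CU7_ev _).1 ((hq.eventually h0).and hY1)
        obtain ⟨ζ, h1, h2, h3⟩ := H.nc Y₂
        apply h3
        have h4 : W (Fin.last k) =ᶠ[𝓝 ζ] fun _ => (N.coeff k : ℂ) := by
          have hU : IsOpen {ζ : ℂ | Y₂ < ζ.im} :=
            isOpen_lt continuous_const Complex.continuous_im
          filter_upwards [hU.mem_nhds h2] with w hw
          obtain ⟨b1, b2⟩ := hY2 w hw
          have h5 := NF.eq w b2
          rw [hrr] at h5
          have h6 := CU7_last hk h5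
          rw [h6, b1, add_zero]
        rw [h4.deriv_eq, deriv_const]
      obtain ⟨d, -, hd⟩ := same_order hn hm hF
        (fun ζ hζ => hT ζ (lt_of_le_of_lt hY hζ)) NF.u_an NF.u_zero NF.der huk
      choose! v hv using hd
      have hq := CU7_lim hn hm hF hT (v := fun q => q) analyticAt_id
      have hev : ∀ᶠ ζ in Filter.comap Complex.im Filter.atTop, ∀ l ∈ Finset.range (k + 1),
          u l (ee (ζ / n)) = ee (ζ / n) ^ d * v l (ee (ζ / n)) := by
        rw [Filter.eventually_all_finset]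
        intro l hl
        exact hq.eventually (hv l (Nat.lt_succ_iff.1 (Finset.mem_range.1 hl))).2.2
      have hvl : ∀ l ≤ k, Tendsto (fun ζ => v l (ee (ζ / n)))
          (Filter.comap Complex.im Filter.atTop) (𝓝 (v l 0)) := fun l hl =>
        CU7_lim hn hm hF hT (hv l hl).1
      have t1 : Tendsto (fun ζ => ∑ l ∈ Finset.range (i + 1),
          (-1) ^ (i - l) * ((k - l).choose (i - l) : ℂ) * v l (ee (ζ / n)) *
          ((T ζ - conj (T ζ))⁻¹) ^ (i - l)) (Filter.comap Complex.im Filter.atTop)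
          (𝓝 (v i 0)) := by
        have e1 : v i 0 = ∑ l ∈ Finset.range (i + 1), if l = i then v i 0 else 0 := by
          rw [Finset.sum_ite_eq' (Finset.range (i + 1)) i (fun _ => v i 0),
            if_pos (Finset.mem_range.2 (Nat.lt_succ_self i))]
        rw [e1]
        apply tendsto_finsetSum
        intro l hl
        rw [Finset.mem_range] at hl
        by_cases hli : l = i
        · subst hli
          rw [if_pos rfl]
          simp only [Nat.sub_self, pow_zero, Nat.choose_zero_right, Nat.cast_one, mul_one, one_mul]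
          exact hvl l hi
        · rw [if_neg hli]
          have h1 := ((hvl l (by omega)).const_mul
            ((-1) ^ (i - l) * ((k - l).choose (i - l) : ℂ))).mul (hinvp (i - l) (by omega))
          rwa [mul_zero] at h1
      have t2 : Tendsto (fun ζ => (-1) ^ i * ∑ l ∈ Finset.range (k - i + 1),
          ((k - l).choose i : ℂ) * conj (v l (ee (ζ / n))) *
          ((T ζ - conj (T ζ))⁻¹) ^ (i - l)) (Filter.comap Complex.im Filter.atTop)
          (𝓝 0) := by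
        have h0 : Tendsto (fun ζ => ∑ l ∈ Finset.range (k - i + 1),
            ((k - l).choose i : ℂ) * conj (v l (ee (ζ / n))) *
            ((T ζ - conj (T ζ))⁻¹) ^ (i - l)) (Filter.comap Complex.im Filter.atTop)
            (𝓝 0) := by
          rw [← Finset.sum_const_zero (s := Finset.range (k - i + 1))]
          apply tendsto_finsetSum
          intro l hl
          rw [Finset.mem_range] at hl
          have h1 := (((Complex.continuous_conj.tendsto _).comp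
            (hvl l (by omega))).const_mul ((k - l).choose i : ℂ)).mul
            (hinvp (i - l) (by omega))
          rwa [mul_zero] at h1
        have h4 := h0.const_mul ((-1 : ℂ) ^ i)
        rwa [mul_zero] at h4
      have t3 : Tendsto (fun ζ => (conj (ee (ζ / n)) / ee (ζ / n)) ^ d *
          ((-1) ^ i * ∑ l ∈ Finset.range (k - i + 1),
          ((k - l).choose i : ℂ) * conj (v l (ee (ζ / n))) *
          ((T ζ - conj (T ζ))⁻¹) ^ (i - l))) (Filter.comap Complex.im Filter.atTop)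
          (𝓝 0) := by
        apply squeeze_zero_norm (a := fun ζ => ‖(-1) ^ i * ∑ l ∈ Finset.range (k - i + 1),
          ((k - l).choose i : ℂ) * conj (v l (ee (ζ / n))) *
          ((T ζ - conj (T ζ))⁻¹) ^ (i - l)‖)
        · intro ζ
          have hq0 : ee (ζ / n) ≠ 0 := Complex.exp_ne_zero _
          rw [norm_mul, norm_pow, norm_div, RCLike.norm_conj,
            div_self (norm_ne_zero_iff.2 hq0), one_pow, one_mul]
        · exact tendsto_zero_iff_norm_tendsto_zero.1 t2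
      have t4 := t1.sub t3
      rw [sub_zero] at t4
      filter_upwards [t4.eventually_ne (hv i hi).2.1, hform, hr0, hev] with ζ a1 a2 a3 a4
      rw [a2]
      intro h0
      apply a1
      have hq0 : ee (ζ / n) ≠ 0 := Complex.exp_ne_zero _
      have e1 : ∑ l ∈ Finset.range (i + 1),
          (-1) ^ (i - l) * ((k - l).choose (i - l) : ℂ) * v l (ee (ζ / n)) *
          ((T ζ - conj (T ζ))⁻¹) ^ (i - l) = (ee (ζ / n) ^ d * (T ζ - conj (T ζ)) ^ i)⁻¹ *
          ∑ l ∈ Finset.range (i + 1),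
          (-1) ^ (i - l) * ((k - l).choose (i - l) : ℂ) * u l (ee (ζ / n)) *
          (T ζ - conj (T ζ)) ^ l := by
        rw [Finset.mul_sum]
        apply Finset.sum_congr rfl
        intro l hl
        rw [Finset.mem_range] at hl
        rw [a4 l (Finset.mem_range.2 (by omega))]
        have h8 := CU7_alg ((-1) ^ (i - l) * ((k - l).choose (i - l) : ℂ)) (v l (ee (ζ / n)))
          (ee (ζ / n)) (ee (ζ / n)) (T ζ - conj (T ζ)) hq0 a3 (show l ≤ i by omega) d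
        rw [div_self hq0, one_pow, one_mul] at h8
        exact h8
      have e2 : (conj (ee (ζ / n)) / ee (ζ / n)) ^ d *
          ((-1) ^ i * ∑ l ∈ Finset.range (k - i + 1),
          ((k - l).choose i : ℂ) * conj (v l (ee (ζ / n))) *
          ((T ζ - conj (T ζ))⁻¹) ^ (i - l)) = (ee (ζ / n) ^ d * (T ζ - conj (T ζ)) ^ i)⁻¹ *
          ((-1) ^ i * ∑ l ∈ Finset.range (k - i + 1),
          ((k - l).choose i : ℂ) * conj (u l (ee (ζ / n))) * (T ζ - conj (T ζ)) ^ l) := by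
        rw [mul_left_comm, mul_left_comm _ ((-1 : ℂ) ^ i)]
        congr 1
        rw [Finset.mul_sum, Finset.mul_sum]
        apply Finset.sum_congr rfl
        intro l hl
        rw [Finset.mem_range] at hl
        rw [a4 l (Finset.mem_range.2 (by omega)), map_mul, map_pow]
        exact CU7_alg _ _ _ _ _ hq0 a3 (by omega) d
      rw [e1, e2, ← mul_sub]
      rw [hrr, hc] at h0
      simp only [zero_div, Complex.ofReal_zero, zero_mul, zero_add] at h0
      rw [h0, mul_zero]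
    · -- the constant term dominates
      have h1 : Tendsto (fun ζ => (c₀ - conj c₀) * (-1) ^ i * (k.choose i : ℂ) +
          ∑ l ∈ Finset.range (i + 1),
          (-1) ^ (i - l) * ((k - l).choose (i - l) : ℂ) * u l (ee (ζ / n)) *
          (T ζ - conj (T ζ)) ^ l -
          (-1) ^ i * ∑ l ∈ Finset.range (k - i + 1),
          ((k - l).choose i : ℂ) * conj (u l (ee (ζ / n))) * (T ζ - conj (T ζ)) ^ l)
          (Filter.comap Complex.im Filter.atTop)
          (𝓝 ((c₀ - conj c₀) * (-1) ^ i * (k.choose i : ℂ))) := by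
        have h2 := (hs1.const_add ((c₀ - conj c₀) * (-1) ^ i * (k.choose i : ℂ))).sub hs2
        rwa [add_zero, sub_zero] at h2
      have h3 : (c₀ - conj c₀) * (-1) ^ i * (k.choose i : ℂ) ≠ 0 := by
        refine mul_ne_zero (mul_ne_zero hc (pow_ne_zero _ (by norm_num))) ?_
        exact_mod_cast (Nat.choose_pos hi).ne'
      filter_upwards [h1.eventually_ne h3, hform] with ζ a1 a2
      rw [a2, hrr]
      simp only [zero_div, Complex.ofReal_zero, zero_mul, zero_add]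
      exact a1
  · -- the first term dominates
    have h0 := hinvp (k + 1) (Nat.succ_pos k)
    have h1 : Tendsto (fun ζ => ((rr / (k + 1) : ℝ) : ℂ) +
        ((c₀ - conj c₀) * (-1) ^ i * (k.choose i : ℂ) +
          ∑ l ∈ Finset.range (i + 1),
          (-1) ^ (i - l) * ((k - l).choose (i - l) : ℂ) * u l (ee (ζ / n)) *
          (T ζ - conj (T ζ)) ^ l -
          (-1) ^ i * ∑ l ∈ Finset.range (k - i + 1),
          ((k - l).choose i : ℂ) * conj (u l (ee (ζ / n))) * (T ζ - conj (T ζ)) ^ l) *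
          ((T ζ - conj (T ζ))⁻¹) ^ (k + 1))
          (Filter.comap Complex.im Filter.atTop) (𝓝 ((rr / (k + 1) : ℝ) : ℂ)) := by
      have h2 := ((hs1.const_add ((c₀ - conj c₀) * (-1) ^ i * (k.choose i : ℂ))).sub hs2).mul h0
      rw [mul_zero] at h2
      have h3 := h2.const_add (((rr / (k + 1) : ℝ) : ℂ))
      rwa [add_zero] at h3
    have h3 : (((rr / (k + 1) : ℝ) : ℂ)) ≠ 0 := by
      rw [Complex.ofReal_ne_zero]
      exact div_ne_zero hrr (by positivity)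
    filter_upwards [h1.eventually_ne h3, hform, hr0] with ζ a1 a2 a3
    rw [a2]
    intro h4
    apply a1
    have h5 : (T ζ - conj (T ζ)) ^ (k + 1) * ((T ζ - conj (T ζ))⁻¹) ^ (k + 1) = 1 := by
      rw [← mul_pow, mul_inv_cancel₀ a3, one_pow]
    have h6 := congrArg (fun z => z * ((T ζ - conj (T ζ))⁻¹) ^ (k + 1)) h4
    simp only [zero_mul] at h6
    linear_combination h6 - ((rr / (k + 1) : ℝ) : ℂ) * h5

/-- Near an infinite puncture the components do not vanish. -/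
theorem CuspD.nonzero {Y : ℝ} {T F : ℂ → ℂ} {W : Fin (k + 1) → ℂ → ℂ} {c : Fin (k + 1) → ℝ}
    (hk : 1 ≤ k) (H : CuspD k n m Y T F W c) {i : ℕ} (hi : i ≤ k) (hi2 : 2 * i ≠ k) :
    ∃ Y' : ℝ, ∀ ζ : ℂ, Y' < ζ.im → zf k T W i ζ ≠ 0 := by
  rw [← CU7_ev]
  rcases lt_or_gt_of_ne hi2 with h | h
  · have h1 := CU7_main hk H (Nat.sub_le k i) (by omega)
    filter_upwards [h1, CU7_im H.hn H.hm H.F_an H.hT] with ζ a1 a2 h0
    exact a1 (gco_conj k a2 (fun j => W j ζ) hi h0)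
  · exact CU7_main hk H hi h

end Cusp

/-! ## The components on the curve -/

section Fin
variable {k : ℕ} {X : Curve}

theorem FI1_ne (t : ℍ) : (t : ℂ) - conj (t : ℂ) ≠ 0 := by
  intro h
  have h1 := congrArg Complex.im h
  rw [Complex.sub_im, Complex.conj_im, Complex.zero_im] at h1
  have h2 : 0 < (t : ℂ).im := t.im_pos
  linarith

theorem FI1_sum {k : ℕ} (s t : ℂ) (c : Fin (k + 1) → ℂ) (j : Fin (k + 1)) :
    ∑ l ∈ Finset.range (k + 1), (if h : l < k + 1 then c ⟨l, h⟩ else 0) * frm k s t l j =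
      ∑ i : Fin (k + 1), c i * frm k s t i j := by
  rw [Finset.sum_range]
  apply Finset.sum_congr rfl
  intro i _
  rw [dif_pos i.2]

theorem FI1_unit (t : ℍ) : IsUnit
    (Matrix.of fun (j i : Fin (k + 1)) => form k t (conj (t : ℂ)) i j) := by
  rw [← Matrix.mulVec_injective_iff_isUnit]
  intro c c' h
  have h1 : ∀ j : Fin (k + 1), ∑ l ∈ Finset.range (k + 1),
      (if h : l < k + 1 then (c - c') ⟨l, h⟩ else 0) * frm k (t : ℂ) (conj (t : ℂ)) l j = 0 := by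
    intro j
    rw [FI1_sum]
    have h2 := congrFun h j
    simp only [Matrix.mulVec, dotProduct, Matrix.of_apply] at h2
    rw [← sub_eq_zero, ← Finset.sum_sub_distrib] at h2
    rw [← h2]
    apply Finset.sum_congr rfl
    intro i _
    rw [Pi.sub_apply]
    change (c i - c' i) * form k t (conj (t : ℂ)) i j = _
    ring
  have h3 := frm_indep k (FI1_ne t).isUnit h1
  funext i
  have h4 := h3 i (Nat.lt_succ_iff.1 i.2)
  rw [dif_pos i.2, Pi.sub_apply, sub_eq_zero] at h4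
  exact h4

theorem FI1_mulVec (t : ℍ) (c : Fin (k + 1) → ℂ) :
    (Matrix.of fun (j i : Fin (k + 1)) => form k t (conj (t : ℂ)) i j) *ᵥ c
      = ∑ i, c i • form k t (conj (t : ℂ)) i := by
  funext j
  rw [Finset.sum_apply]
  simp only [Matrix.mulVec, dotProduct, Matrix.of_apply, Pi.smul_apply, smul_eq_mul]
  apply Finset.sum_congr rfl
  intro i _
  ring

theorem Variation.comp_spec (V : Variation k X) (z : ℍ) :
    (fun j => ((V.v z j).im : ℂ)) = ∑ i, V.comp z i • form k (V.τ z) (conj (V.τ z : ℂ)) i ∧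
    (∀ c : Fin (k + 1) → ℂ, (fun j => ((V.v z j).im : ℂ)) =
      ∑ i, c i • form k (V.τ z) (conj (V.τ z : ℂ)) i → c = V.comp z) ∧
    ∀ i, V.comp z i = 0 ↔ V.zc i z = 0 := by
  have hU := FI1_unit (k := k) (V.τ z)
  have hdet := (Matrix.isUnit_iff_isUnit_det _).1 hU
  have h1 : (fun j => ((V.v z j).im : ℂ))
      = ∑ i, V.comp z i • form k (V.τ z) (conj (V.τ z : ℂ)) i := by
    rw [← FI1_mulVec]
    unfold Variation.comp
    rw [Matrix.mulVec_mulVec, Matrix.mul_nonsing_inv _ hdet, Matrix.one_mulVec]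
  refine ⟨h1, ?_, ?_⟩
  · intro c hc
    rw [← FI1_mulVec] at hc
    unfold Variation.comp
    rw [hc, Matrix.mulVec_mulVec, Matrix.nonsing_inv_mul _ hdet, Matrix.one_mulVec]
  · intro i
    have h2 : ∀ j, V.v z j - conj (V.v z j) = ∑ l ∈ Finset.range (k + 1),
        (if h : l < k + 1 then (fun i => 2 * Complex.I * V.comp z i) ⟨l, h⟩ else 0) *
          frm k (V.τ z : ℂ) (conj (V.τ z : ℂ)) l j := by
      intro j
      refine Eq.trans ?_ (FI1_sum _ _ (fun i => 2 * Complex.I * V.comp z i) j).symm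
      rw [Complex.sub_conj]
      have h3 := congrFun h1 j
      rw [Finset.sum_apply] at h3
      simp only [Pi.smul_apply, smul_eq_mul] at h3
      push_cast
      rw [h3, Finset.mul_sum, Finset.sum_mul]
      apply Finset.sum_congr rfl
      intro i _
      change 2 * (V.comp z i * form k (V.τ z) (conj (V.τ z : ℂ)) i j) * Complex.I
        = 2 * Complex.I * V.comp z i * form k (V.τ z) (conj (V.τ z : ℂ)) i j
      ring
    have h4 := gcoR_frm k h2 (Nat.lt_succ_iff.1 i.2)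
    unfold Variation.zc
    rw [gco_eq_gcoR, h4, dif_pos i.2]
    have h5 := pow_ne_zero k (FI1_ne (V.τ z))
    constructor
    · intro h
      simp only [Fin.eta]
      rw [h, mul_zero, mul_zero]
    · intro h
      simp only [Fin.eta] at h
      rcases mul_eq_zero.1 h with h6 | h6
      · exact absurd h6 h5
      · rcases mul_eq_zero.1 h6 with h7 | h7
        · exact absurd h7 (mul_ne_zero two_ne_zero Complex.I_ne_zero)
        · exact h7

theorem FI2_denom_ne (γ : SL(2, ℤ)) (τ : ℍ) : (γ 1 0 : ℂ) * (τ : ℂ) + (γ 1 1 : ℂ) ≠ 0 := by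
  have h := UpperHalfPlane.denom_ne_zero (γ : GL (Fin 2) ℝ) τ
  rw [UpperHalfPlane.denom] at h
  simpa using h

theorem FI2_smul (γ : SL(2, ℤ)) (τ : ℍ) :
    ((γ • τ : ℍ) : ℂ) * ((γ 1 0 : ℂ) * (τ : ℂ) + (γ 1 1 : ℂ)) =
      (γ 0 0 : ℂ) * (τ : ℂ) + (γ 0 1 : ℂ) := by
  have h : ((γ • τ : ℍ) : ℂ) = ((γ 0 0 : ℂ) * (τ : ℂ) + (γ 0 1 : ℂ)) /
      ((γ 1 0 : ℂ) * (τ : ℂ) + (γ 1 1 : ℂ)) := by
    rw [UpperHalfPlane.specialLinearGroup_apply]
    simp
  rw [h, div_mul_cancel₀ _ (FI2_denom_ne γ τ)]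

theorem Variation.zc_smul (V : Variation k X) {i : ℕ} (hi : i ≤ k) (g : X.P) (z : ℍ) :
    V.zc i ((g : SL(2, ℝ)) • z) = 0 ↔ V.zc i z = 0 := by
  unfold Variation.zc
  have hst : (V.τ z : ℂ) ≠ conj (V.τ z : ℂ) := by
    intro h
    have h1 : (V.τ z : ℂ).im = 0 := Complex.conj_eq_iff_im.mp h.symm
    exact (V.τ z).im_pos.ne' h1
  have hs := FI2_smul (V.ρ g) (V.τ z)
  have ht := congrArg (starRingEnd ℂ) hs
  simp only [map_mul, map_add, map_intCast] at ht
  have hne := FI2_denom_ne (V.ρ g) (V.τ z)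
  have hne' : (V.ρ g 1 0 : ℂ) * conj (V.τ z : ℂ) + (V.ρ g 1 1 : ℂ) ≠ 0 := by
    intro h
    apply hne
    have h2 := congrArg (starRingEnd ℂ) h
    simpa using h2
  have hp : (fun j => V.v ((g : SL(2, ℝ)) • z) j - conj (V.v ((g : SL(2, ℝ)) • z) j)) =
      (act k (V.ρ g)).map (algebraMap ℚ ℂ) *ᵥ fun j => V.v z j - conj (V.v z j) := by
    funext j
    rw [V.v_equiv]
    simp only [Pi.add_apply, Matrix.mulVec, dotProduct, Matrix.map_apply, map_add, map_sum,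
      map_mul, eq_ratCast, mul_sub, Finset.sum_sub_distrib, map_ratCast]
    ring
  have key := gco_smul (V.ρ g) hst hs ht (fun j => V.v z j - conj (V.v z j)) hi
  rw [V.τ_equiv, hp, ← key]
  constructor
  · intro h
    rw [h, zero_mul]
  · intro h
    rcases mul_eq_zero.mp h with h | h
    · exact h
    · exact absurd h (mul_ne_zero (pow_ne_zero _ hne) (pow_ne_zero _ hne'))

theorem Variation.zc_isolated (V : Variation k X) (hk : 1 ≤ k) (hns : ¬ V.Split) {i : ℕ}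
    (hi : i ≤ k) (hi2 : 2 * i ≠ k) (z : ℍ) :
    ∀ᶠ w in 𝓝[≠] (z : ℂ), V.zc i (ofComplex w) ≠ 0 := by
  have H := (V.chart hk hns (z₀ := (z : ℂ)) z.im_pos).isolated hk hns hi hi2
  have h1 : Tendsto (fun w : ℂ => w - z) (𝓝[≠] (z : ℂ)) (𝓝[≠] (0 : ℂ)) := by
    rw [tendsto_nhdsWithin_iff]
    constructor
    · have h2 : Tendsto (fun w : ℂ => w - z) (𝓝 (z : ℂ)) (𝓝 ((z : ℂ) - z)) :=
        (continuous_id.sub continuous_const).tendsto _
      rw [sub_self] at h2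
      exact h2.mono_left nhdsWithin_le_nhds
    · filter_upwards [self_mem_nhdsWithin] with w hw
      exact sub_ne_zero.2 hw
  filter_upwards [h1.eventually H] with w hw
  simp only [zf, add_sub_cancel] at hw
  exact hw

theorem FI4_ee (ζ : ℂ) : HasDerivAt ee (2 * Real.pi * Complex.I * ee ζ) ζ := by
  unfold Pool.Agent.LibUB33.ee
  have h := ((hasDerivAt_id ζ).const_mul (2 * Real.pi * Complex.I : ℂ)).cexp
  refine h.congr_deriv ?_
  simp only [id]
  ring

/-- The end is a regular holomorphic curve. -/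
theorem FI4_s {s : ℂ → ℍ} {Y : ℝ} (hE : X.IsEnd s Y) {ζ : ℂ} (hζ : Y < ζ.im) :
    DifferentiableAt ℂ (fun u => (s u : ℂ)) ζ ∧ deriv (fun u => (s u : ℂ)) ζ ≠ 0 := by
  obtain ⟨hc, ⟨b, -, hb⟩ | hb⟩ := hE
  · have hd : ∀ ζ : ℂ, HasDerivAt (fun z => b + ee z) (2 * Real.pi * Complex.I * ee ζ) ζ :=
      fun ζ => (FI4_ee ζ).const_add b
    obtain ⟨h1, h2⟩ := X.lift_differentiable hc hb (fun z _ => (hd z).differentiableAt) hζ
    refine ⟨h1, fun h0 => ?_⟩
    rw [h0, mul_zero, (hd ζ).deriv] at h2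
    exact mul_ne_zero Complex.two_pi_I_ne_zero (Complex.exp_ne_zero _) h2.symm
  · have hd : ∀ ζ : ℂ, HasDerivAt (fun z => ee (-z)) (2 * Real.pi * Complex.I * ee (-ζ) * -1) ζ :=
      fun ζ => (FI4_ee (-ζ)).comp ζ (hasDerivAt_neg ζ)
    obtain ⟨h1, h2⟩ := X.lift_differentiable hc hb (fun z _ => (hd z).differentiableAt) hζ
    refine ⟨h1, fun h0 => ?_⟩
    rw [h0, mul_zero, (hd ζ).deriv] at h2
    exact mul_ne_zero (mul_ne_zero Complex.two_pi_I_ne_zero (Complex.exp_ne_zero _))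
      (by norm_num) h2.symm

theorem FI4_form (k : ℕ) (z w : ℂ) (i : ℕ) : form k z w i = frm k z w i := rfl

theorem FI4_last (k : ℕ) (t : ℂ) : frm k t t k (Fin.last k) = 1 := by
  unfold frm
  rw [Nat.sub_self, pow_zero, mul_one, Fin.val_last]
  have h := (monic_X_sub_C t).pow k
  have hd : ((Polynomial.X - C t) ^ k : ℂ[X]).natDegree = k := by
    rw [(monic_X_sub_C t).natDegree_pow, natDegree_X_sub_C, mul_one]
  have := h.coeff_natDegree
  rwa [hd] at this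

/-- The derivative of the transformed extension period along the end. -/
theorem FI4_deriv (V : Variation k X) {s : ℂ → ℍ} {Y : ℝ} (hE : X.IsEnd s Y) (M : SL(2, ℤ))
    {ζ : ℂ} (hζ : Y < ζ.im) (j : Fin (k + 1)) :
    HasDerivAt (fun ζ => ((act k M).map (algebraMap ℚ ℂ) *ᵥ V.v (s ζ)) j)
      ((deriv (fun u => (s u : ℂ)) ζ * deriv (V.vC (Fin.last k)) (s ζ) *
        ((M 1 0 : ℂ) * V.τ (s ζ) + M 1 1) ^ k) *
          frm k ((M • V.τ (s ζ) : ℍ) : ℂ) ((M • V.τ (s ζ) : ℍ) : ℂ) k j) ζ := by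
  obtain ⟨hs, -⟩ := FI4_s hE hζ
  obtain ⟨g, hg⟩ := V.transversal (s ζ)
  have hden : (M 1 0 : ℂ) * (V.τ (s ζ) : ℂ) + (M 1 1 : ℂ) ≠ 0 := by
    have := denom_ne_zero (Matrix.SpecialLinearGroup.mapGL ℝ M) (V.τ (s ζ))
    simpa [denom] using this
  have hsm : ((M • V.τ (s ζ) : ℍ) : ℂ) * ((M 1 0 : ℂ) * (V.τ (s ζ) : ℂ) + M 1 1) =
      (M 0 0 : ℂ) * (V.τ (s ζ) : ℂ) + M 0 1 := by
    rw [UpperHalfPlane.coe_specialLinearGroup_apply]
    simp only [algebraMap_int_eq, eq_intCast, Complex.ofReal_intCast]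
    exact div_mul_cancel₀ _ hden
  -- the factor
  have hg1 : deriv (V.vC (Fin.last k)) (s ζ) = g := by
    have h1 := (hasDerivAt_pi.mp hg) (Fin.last k)
    have h2 : HasDerivAt (V.vC (Fin.last k)) ((g • form k (V.τ (s ζ)) (V.τ (s ζ)) k) (Fin.last k))
        (s ζ) := h1
    rw [h2.deriv, Pi.smul_apply, FI4_form, FI4_last, smul_eq_mul, mul_one]
  have hcomp : HasDerivAt (fun ζ => V.v (s ζ))
      (deriv (fun u => (s u : ℂ)) ζ • (g • form k (V.τ (s ζ)) (V.τ (s ζ)) k)) ζ := by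
    have h := HasDerivAt.scomp ζ hg hs.hasDerivAt
    refine h.congr_of_eventuallyEq (Filter.Eventually.of_forall fun u => ?_)
    simp [Function.comp_def]
  have hlin : HasDerivAt (fun ζ => ((act k M).map (algebraMap ℚ ℂ) *ᵥ V.v (s ζ)) j)
      (((act k M).map (algebraMap ℚ ℂ) *ᵥ
        (deriv (fun u => (s u : ℂ)) ζ • (g • form k (V.τ (s ζ)) (V.τ (s ζ)) k))) j) ζ := by
    simp only [Matrix.mulVec, dotProduct]
    refine HasDerivAt.fun_sum fun l _ => ?_
    exact ((hasDerivAt_pi.mp hcomp) l).const_mul _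
  refine hlin.congr_deriv ?_
  rw [Matrix.mulVec_smul, Matrix.mulVec_smul, FI4_form, act_frm M le_rfl hsm hsm, hg1]
  simp only [Pi.smul_apply, smul_eq_mul, Nat.sub_self, pow_zero, mul_one]
  ring

/-- The data at an infinite puncture. -/
theorem Variation.cuspD (V : Variation k X) (hk : 1 ≤ k) (hns : ¬ V.Split) {s : ℂ → ℍ} {Y : ℝ}
    (hE : X.IsEnd s Y) (E : EndForm V s Y) (hm : 0 < E.m) :
    ∃ (c : Fin (k + 1) → ℝ) (Y' : ℝ), CuspD k E.n E.m Y'
      (fun ζ => ((E.M • V.τ (s ζ) : ℍ) : ℂ)) E.F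
      (fun j ζ => ((act k E.M).map (algebraMap ℚ ℂ) *ᵥ V.v (s ζ)) j) c := by
  set Y₁ : ℝ := max E.Y' (Y + 1) with hY₁
  have hlt : ∀ ζ : ℂ, Y₁ < ζ.im → Y < ζ.im ∧ E.Y' < ζ.im ∧ Y + 1 ≤ ζ.im := by
    intro ζ hζ
    have h1 : E.Y' < ζ.im := (le_max_left _ _).trans_lt hζ
    have h2 : Y + 1 < ζ.im := (le_max_right _ _).trans_lt hζ
    exact ⟨by linarith, h1, h2.le⟩
  have hden : ∀ ζ, (E.M 1 0 : ℂ) * (V.τ (s ζ) : ℂ) + (E.M 1 1 : ℂ) ≠ 0 := by
    intro ζ
    have := denom_ne_zero (Matrix.SpecialLinearGroup.mapGL ℝ E.M) (V.τ (s ζ))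
    simpa [denom] using this
  refine ⟨fun j => ((act k E.M *ᵥ V.c E.p) j : ℝ), Y₁, ?_⟩
  refine ⟨E.hn, hm, E.hF, fun ζ hζ => E.hτ ζ (hlt ζ hζ).2.1, ?_, ?_, ?_, ?_, ?_, ?_⟩
  · -- holomorphic period
    intro ζ hζ
    have hζ' := (hlt ζ hζ).1
    obtain ⟨hs, -⟩ := FI4_s hE hζ'
    have hform : (fun ζ => ((E.M • V.τ (s ζ) : ℍ) : ℂ)) = fun ζ =>
        ((E.M 0 0 : ℂ) * V.τ (s ζ) + (E.M 0 1 : ℂ)) / ((E.M 1 0 : ℂ) * V.τ (s ζ) + (E.M 1 1 : ℂ)) := by
      funext u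
      rw [UpperHalfPlane.coe_specialLinearGroup_apply]
      simp
    have hτ : DifferentiableAt ℂ (fun ζ => (V.τ (s ζ) : ℂ)) ζ := by
      have h := (V.τ_hol (s ζ)).comp ζ hs
      refine h.congr_of_eventuallyEq (Filter.Eventually.of_forall fun u => ?_)
      simp [Function.comp_def]
    rw [hform]
    exact ((hτ.const_mul _).add_const _).div ((hτ.const_mul _).add_const _) (hden ζ)
  · intro j ζ hζ
    exact (FI4_deriv V hE E.M (hlt ζ hζ).1 j).differentiableAt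
  · intro ζ hζ
    exact ⟨_, fun j => (FI4_deriv V hE E.M (hlt ζ hζ).1 j).deriv⟩
  · -- periodicity
    intro ζ hζ
    have h1 : V.v (s (ζ + E.n)) = (act k (V.ρ E.p)).map (algebraMap ℚ ℂ) *ᵥ V.v (s ζ) +
        fun j => (V.c E.p j : ℂ) := by
      rw [E.hp ζ (hlt ζ hζ).1, V.v_equiv]
    have hmul : (act k E.M).map (algebraMap ℚ ℂ) * (act k (V.ρ E.p)).map (algebraMap ℚ ℂ) =
        (act k (ModularGroup.T ^ E.m)).map (algebraMap ℚ ℂ) * (act k E.M).map (algebraMap ℚ ℂ) := by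
      rw [← Matrix.map_mul, ← Matrix.map_mul, ← act_mul, ← act_mul, E.hρ]
    have h2 : (act k E.M).map (algebraMap ℚ ℂ) *ᵥ V.v (s (ζ + E.n)) =
        (act k (ModularGroup.T ^ E.m)).map (algebraMap ℚ ℂ) *ᵥ
          ((act k E.M).map (algebraMap ℚ ℂ) *ᵥ V.v (s ζ)) +
        fun j => (((act k E.M *ᵥ V.c E.p) j : ℝ) : ℂ) := by
      rw [h1, Matrix.mulVec_add, Matrix.mulVec_mulVec, hmul, ← Matrix.mulVec_mulVec]
      congr 1
      funext j
      simp only [Matrix.mulVec, dotProduct, Matrix.map_apply]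
      push_cast
      refine Finset.sum_congr rfl fun l _ => ?_
      simp
    have hT : ((ModularGroup.T ^ E.m : SL(2, ℤ)) : Matrix (Fin 2) (Fin 2) ℤ) =
        !![1, (E.m : ℤ); 0, 1] := by
      have := ModularGroup.coe_T_zpow (E.m : ℤ)
      rwa [zpow_natCast] at this
    have hTij : ∀ i j, (ModularGroup.T ^ E.m : SL(2, ℤ)) i j = !![1, (E.m : ℤ); 0, 1] i j := by
      intro i j
      change ((ModularGroup.T ^ E.m : SL(2, ℤ)) : Matrix (Fin 2) (Fin 2) ℤ) i j = _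
      rw [hT]
    have h3 : ∀ w : Fin (k + 1) → ℂ,
        toP ((act k (ModularGroup.T ^ E.m)).map (algebraMap ℚ ℂ) *ᵥ w) =
          (toP w).comp (Polynomial.X - C (E.m : ℂ)) := by
      intro w
      rw [toP_act]
      simp only [hTij]
      unfold toP
      rw [Polynomial.sum_comp]
      refine Finset.sum_congr rfl fun j _ => ?_
      simp
    have h4 : ∀ a b : Fin (k + 1) → ℂ, toP (a + b) = toP a + toP b := by
      intro a b
      unfold toP
      rw [← Finset.sum_add_distrib]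
      refine Finset.sum_congr rfl fun j _ => ?_
      rw [Pi.add_apply, C_add, add_mul]
    show toP ((act k E.M).map (algebraMap ℚ ℂ) *ᵥ V.v (s (ζ + E.n))) = _
    rw [h2, h4, h3]
  · -- growth
    obtain ⟨C₀, N, hg⟩ := V.growth s Y hE E.n
    set B : ℝ := ∑ a, ∑ b, ‖(act k E.M).map (algebraMap ℚ ℂ) a b‖ with hB
    have hB0 : 0 ≤ B := by positivity
    refine ⟨B * |C₀|, N, fun ζ j hre him => ?_⟩
    have h1 := hg ζ hre (hlt ζ him).2.2
    have h2 : ‖V.v (s ζ)‖ ≤ |C₀| * (1 + |ζ.im|) ^ N :=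
      h1.trans (mul_le_mul_of_nonneg_right (le_abs_self _) (by positivity))
    calc ‖((act k E.M).map (algebraMap ℚ ℂ) *ᵥ V.v (s ζ)) j‖
        ≤ ∑ b, ‖(act k E.M).map (algebraMap ℚ ℂ) j b * V.v (s ζ) b‖ := by
          simp only [Matrix.mulVec, dotProduct]
          exact norm_sum_le _ _
      _ ≤ ∑ b, ‖(act k E.M).map (algebraMap ℚ ℂ) j b‖ * ‖V.v (s ζ)‖ := by
          refine Finset.sum_le_sum fun b _ => ?_
          rw [norm_mul]
          exact mul_le_mul_of_nonneg_left (norm_le_pi_norm _ _) (norm_nonneg _)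
      _ = (∑ b, ‖(act k E.M).map (algebraMap ℚ ℂ) j b‖) * ‖V.v (s ζ)‖ := by
          rw [Finset.sum_mul]
      _ ≤ B * (|C₀| * (1 + |ζ.im|) ^ N) := by
          refine mul_le_mul ?_ h2 (norm_nonneg _) hB0
          exact Finset.single_le_sum (f := fun a => ∑ b, ‖(act k E.M).map (algebraMap ℚ ℂ) a b‖)
            (fun a _ => by positivity) (Finset.mem_univ j)
      _ = B * |C₀| * (1 + |ζ.im|) ^ N := by ring
  · -- nonconstant
    intro Y''
    set ζ₀ : ℂ := ((max Y₁ Y'' + 1 : ℝ) : ℂ) * Complex.I with hζ₀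
    have him0 : ζ₀.im = max Y₁ Y'' + 1 := by simp [hζ₀]
    have hop : IsOpen {ζ : ℂ | max Y₁ Y'' < ζ.im} :=
      isOpen_lt continuous_const Complex.continuous_im
    have hmem : ζ₀ ∈ {ζ : ℂ | max Y₁ Y'' < ζ.im} := by
      show max Y₁ Y'' < ζ₀.im
      rw [him0]
      linarith
    have hζY : Y < ζ₀.im := (hlt ζ₀ ((le_max_left _ _).trans_lt hmem)).1
    obtain ⟨hs, hs'⟩ := FI4_s hE hζY
    have hgne := V.g_ne hk hns (w := (s ζ₀ : ℂ)) (s ζ₀).im_pos
    have htend : Tendsto (fun u => (s u : ℂ)) (𝓝[≠] ζ₀) (𝓝[≠] (s ζ₀ : ℂ)) := by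
      refine tendsto_nhdsWithin_of_tendsto_nhds_of_eventually_within _ ?_ ?_
      · exact (hs.continuousAt.tendsto).mono_left nhdsWithin_le_nhds
      · exact hs.hasDerivAt.eventually_ne hs'
    have h1 := htend.eventually hgne
    have h2 : ∀ᶠ u in 𝓝[≠] ζ₀, max Y₁ Y'' < u.im :=
      nhdsWithin_le_nhds (hop.mem_nhds hmem)
    obtain ⟨u, hu1, hu2⟩ := (h1.and h2).exists
    have hY1u : Y₁ < u.im := (le_max_left _ _).trans_lt hu2
    have hYu : Y < u.im := (hlt u hY1u).1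
    refine ⟨u, hY1u, (le_max_right _ _).trans_lt hu2, ?_⟩
    rw [(FI4_deriv V hE E.M hYu (Fin.last k)).deriv, FI4_last, mul_one]
    exact mul_ne_zero (mul_ne_zero (FI4_s hE hYu).2 hu1) (pow_ne_zero _ (hden u))

theorem FI5_denom (M : SL(2, ℤ)) (z : ℍ) :
    (M 1 0 : ℂ) * (z : ℂ) + (M 1 1 : ℂ) ≠ 0 ∧
      (M 1 0 : ℂ) * (conj (z : ℂ)) + (M 1 1 : ℂ) ≠ 0 := by
  have h1 : (M 1 0 : ℂ) * (z : ℂ) + (M 1 1 : ℂ) ≠ 0 := by
    have := denom_ne_zero (Matrix.SpecialLinearGroup.mapGL ℝ M) z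
    simpa [denom] using this
  refine ⟨h1, fun h => h1 ?_⟩
  have h2 := congrArg conj h
  simpa using h2

theorem FI5_rel (V : Variation k X) (M : SL(2, ℤ)) (z : ℍ) {i : ℕ} (hi : i ≤ k) {t : ℂ}
    {w : Fin (k + 1) → ℂ} (ht : ((M • V.τ z : ℍ) : ℂ) = t)
    (hw : ∀ j, ((act k M).map (algebraMap ℚ ℂ) *ᵥ V.v z) j = w j)
    (h : gco k t (conj t) (fun j => w j - conj (w j)) i ≠ 0) : V.zc i z ≠ 0 := by
  obtain ⟨d1, d2⟩ := FI5_denom M (V.τ z)
  have him := (V.τ z).im_pos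
  have hne : (V.τ z : ℂ) ≠ conj (V.τ z : ℂ) := by
    intro h0
    have h1 := congrArg Complex.im h0
    rw [Complex.conj_im] at h1
    have : ((V.τ z : ℍ) : ℂ).im = (V.τ z).im := rfl
    rw [this] at h1
    linarith
  have hs : t * ((M 1 0 : ℂ) * (V.τ z : ℂ) + M 1 1) = (M 0 0 : ℂ) * (V.τ z : ℂ) + M 0 1 := by
    rw [← ht, UpperHalfPlane.coe_specialLinearGroup_apply]
    simp only [algebraMap_int_eq, eq_intCast, Complex.ofReal_intCast]
    exact div_mul_cancel₀ _ d1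
  have hs' : conj t * ((M 1 0 : ℂ) * conj (V.τ z : ℂ) + M 1 1) =
      (M 0 0 : ℂ) * conj (V.τ z : ℂ) + M 0 1 := by
    have h2 := congrArg conj hs
    simpa using h2
  have key := gco_smul M hne hs hs' (fun j => V.v z j - conj (V.v z j)) hi
  have hact : ((act k M).map (algebraMap ℚ ℂ) *ᵥ fun j => V.v z j - conj (V.v z j)) =
      fun j => w j - conj (w j) := by
    funext j
    rw [← hw j]
    simp only [Matrix.mulVec, dotProduct, Matrix.map_apply, map_sum, map_mul]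
    rw [← Finset.sum_sub_distrib]
    refine Finset.sum_congr rfl fun l _ => ?_
    have hq : conj (algebraMap ℚ ℂ (act k M j l)) = algebraMap ℚ ℂ (act k M j l) := by
      simp
    rw [hq, mul_sub]
  rw [hact] at key
  intro h0
  unfold Variation.zc at h0
  rw [h0] at key
  have hprod : ((M 1 0 : ℂ) * (V.τ z : ℂ) + M 1 1) ^ (k - i) *
      ((M 1 0 : ℂ) * conj (V.τ z : ℂ) + M 1 1) ^ i ≠ 0 :=
    mul_ne_zero (pow_ne_zero _ d1) (pow_ne_zero _ d2)
  exact h ((mul_eq_zero.mp key).resolve_right hprod)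

theorem Variation.zc_end (V : Variation k X) (hk : 1 ≤ k) (hns : ¬ V.Split) {s : ℂ → ℍ} {Y : ℝ}
    (hE : X.IsEnd s Y) {i : ℕ} (hi : i ≤ k) (hi2 : 2 * i ≠ k) :
    ∃ Y' : ℝ, ∀ ζ : ℂ, Y' < ζ.im → V.zc i (s ζ) ≠ 0 := by
  obtain ⟨E⟩ := V.nonempty_endForm hE
  rcases Nat.eq_zero_or_pos E.m with hm | hm
  · obtain ⟨W, Y₁, hWan, hW⟩ := V.filled hk hE E hm
    have hc := V.filled_chart hk hns hE E hm hWan hW
    have hiso := hc.isolated hk hns hi hi2
    rw [eventually_nhdsWithin_iff] at hiso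
    obtain ⟨ε, hε, hb⟩ := Metric.eventually_nhds_iff.mp hiso
    have hn0 : (0 : ℝ) < E.n := by exact_mod_cast E.hn
    -- the coordinate is small
    have hsmall : ∃ Y₂ : ℝ, ∀ ζ : ℂ, Y₂ < ζ.im → ‖ee (ζ / E.n)‖ < ε := by
      refine ⟨E.n * (-Real.log ε / (2 * Real.pi)), fun ζ hζ => ?_⟩
      have h1 : ‖ee (ζ / E.n)‖ = Real.exp (-(2 * Real.pi * (ζ.im / E.n))) := by
        unfold Pool.Agent.LibUB33.ee
        rw [Complex.norm_exp]
        congr 1
        have : (ζ / (E.n : ℂ)).im = ζ.im / E.n := by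
          rw [← Complex.ofReal_natCast, Complex.div_ofReal_im]
        rw [← this]
        simp
      rw [h1, ← Real.lt_log_iff_exp_lt hε]
      have h2 : -Real.log ε / (2 * Real.pi) < ζ.im / E.n := by
        rw [lt_div_iff₀ hn0, mul_comm]
        exact hζ
      rw [div_lt_iff₀ (by positivity)] at h2
      linarith
    obtain ⟨Y₂, hY₂⟩ := hsmall
    refine ⟨max (max Y₁ Y₂) E.Y', fun ζ hζ => ?_⟩
    have z1 : Y₁ < ζ.im := (le_max_left _ _).trans_lt ((le_max_left _ _).trans_lt hζ)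
    have z2 : Y₂ < ζ.im := (le_max_right _ _).trans_lt ((le_max_left _ _).trans_lt hζ)
    have z3 : E.Y' < ζ.im := (le_max_right _ _).trans_lt hζ
    have hT : ((E.M • V.τ (s ζ) : ℍ) : ℂ) = E.F (ee (ζ / E.n)) := by
      rw [E.hτ ζ z3, hm]
      simp
    have hne : ee (ζ / E.n) ≠ 0 := Complex.exp_ne_zero _
    have h0 := hb (y := ee (ζ / E.n)) (by rw [dist_zero_right]; exact hY₂ ζ z2) hne
    exact FI5_rel V E.M (s ζ) hi hT (fun j => (hW ζ z1 j).symm) h0
  · obtain ⟨c, Y₁, H⟩ := V.cuspD hk hns hE E hm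
    obtain ⟨Y₂, h2⟩ := H.nonzero hk hi hi2
    refine ⟨Y₂, fun ζ hζ => ?_⟩
    exact FI5_rel V E.M (s ζ) hi rfl (fun j => rfl) (h2 ζ hζ)

/-- **The zeros of the components.** -/
theorem Variation.zeros_finite (V : Variation k X) (hk : 1 ≤ k) (hns : ¬ V.Split)
    (i : Fin (k + 1)) (hi2 : 2 * (i : ℕ) ≠ k) :
    ((fun z : ℍ => (Quotient.mk'' z : X.Pts)) '' {z | V.comp z i = 0}).Finite := by
  have hi : (i : ℕ) ≤ k := Nat.lt_succ_iff.1 i.2
  have he : {z | V.comp z i = 0} = {z : ℍ | V.zc (i : ℕ) z = 0} := by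
    ext z
    exact (V.comp_spec z).2.2 i
  rw [he]
  exact finite_of_local X {z : ℍ | V.zc (i : ℕ) z = 0}
    (fun g hg z => V.zc_smul hi ⟨g, hg⟩ z)
    (fun z => V.zc_isolated hk hns hi hi2 z)
    (fun s Y hE => V.zc_end hk hns hE hi hi2)

theorem fi7_avoid (V : LibUB33.Variation X) (U : Set ℍ) (hU : IsOpen U) (hne : U.Nonempty)
    (C : Set ℂ) (hC : C.Countable) : ∃ z ∈ U, (V.τ z : ℂ) ∉ C := by
  set T : ℂ → ℂ := fun w : ℂ => (V.τ (ofComplex w) : ℂ) with hTdef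
  have hS : IsOpen {z : ℂ | 0 < z.im} := isOpen_lt continuous_const Complex.continuous_im
  have hTd : DifferentiableOn ℂ T {z : ℂ | 0 < z.im} := by
    intro z hz
    exact (V.τ_hol ⟨z, hz⟩).differentiableWithinAt
  have hTa : AnalyticOnNhd ℂ T {z : ℂ | 0 < z.im} := hTd.analyticOnNhd hS
  have hconv : Convex ℝ {z : ℂ | 0 < z.im} := by
    have := (convex_Ioi (0 : ℝ)).linear_preimage Complex.imLm
    exact this
  have hconn : IsPreconnected {z : ℂ | 0 < z.im} := hconv.isPreconnected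
  rcases hTa.is_constant_or_isOpen hconn with ⟨w, hw⟩ | hop
  · exfalso
    obtain ⟨z1, z2, h12⟩ := V.τ_nonconst
    apply h12
    have h1 := hw (z1 : ℂ) z1.im_pos
    have h2 := hw (z2 : ℂ) z2.im_pos
    rw [hTdef] at h1 h2
    simp only [ofComplex_apply] at h1 h2
    exact UpperHalfPlane.ext (h1.trans h2.symm)
  · have hopen : IsOpen (T '' ((fun z : ℍ => (z : ℂ)) '' U)) := by
      apply hop
      · rintro _ ⟨z, -, rfl⟩
        exact z.im_pos
      · exact UpperHalfPlane.isOpenEmbedding_coe.isOpenMap U hU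
    have hne' : (T '' ((fun z : ℍ => (z : ℂ)) '' U)).Nonempty := (hne.image _).image _
    have hd : Dense Cᶜ := hC.dense_compl ℝ
    obtain ⟨y, ⟨_, ⟨z, hz, rfl⟩, hy⟩, hyC⟩ := hd.inter_open_nonempty _ hopen hne'
    refine ⟨z, hz, ?_⟩
    have : T (z : ℂ) = (V.τ z : ℂ) := by
      rw [hTdef]
      simp only [ofComplex_apply]
    rw [← this]
    simp only at hy
    rw [hy]
    exact hyC

theorem fi7_algebraic {τ : ℂ} (h : LibEis68.IsCM τ) : IsAlgebraic ℤ τ := by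
  obtain ⟨a, b, c, ha, h⟩ := h
  refine ⟨Polynomial.C a * Polynomial.X ^ 2 + Polynomial.C b * Polynomial.X + Polynomial.C c,
    ?_, ?_⟩
  · intro h0
    apply ha
    have := congrArg (fun p => Polynomial.coeff p 2) h0
    simpa only [Polynomial.coeff_add, Polynomial.coeff_C_mul, Polynomial.coeff_X_pow,
      Polynomial.coeff_X, Polynomial.coeff_C, Polynomial.coeff_zero, if_true, mul_one,
      OfNat.one_ne_ofNat, OfNat.ofNat_ne_zero, if_false, mul_zero, add_zero] using this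
  · simpa using h

/-- There is a point without complex multiplication where the extension period is not rational. -/
theorem Variation.exists_generic (V : Variation k X) (hk : 1 ≤ k) (hns : ¬ V.Split) :
    ∃ z : ℍ, ¬ LibEis68.IsCM (V.τ z) ∧ ¬ RatVec (V.v z) := by
  obtain ⟨z0, -, -⟩ := V.τ_nonconst
  have hiso := V.zc_isolated hk hns (i := 0) (by omega) (by omega) z0
  have hiso2 := LibUB33.nhdsWithin_ne_coe hiso
  rw [eventually_nhdsWithin_iff, eventually_nhds_iff] at hiso2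
  obtain ⟨t, ht, hto, hz0⟩ := hiso2
  obtain ⟨z, hz, hzC⟩ := fi7_avoid V.pure t hto ⟨z0, hz0⟩
    ({t : ℂ | IsAlgebraic ℤ t} ∪ {(V.τ z0 : ℂ)})
    ((Algebraic.countable ℤ ℂ).union (Set.countable_singleton _))
  refine ⟨z, fun hcm => hzC (Or.inl (fi7_algebraic hcm)), ?_⟩
  rintro ⟨r, hr⟩
  have hne : z ≠ z0 := by
    rintro rfl
    exact hzC (Or.inr rfl)
  have h1 := ht z hz hne
  rw [ofComplex_apply] at h1
  apply h1
  obtain ⟨-, h2, h3⟩ := V.comp_spec z
  have h4 : (0 : Fin (k + 1) → ℂ) = V.comp z := by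
    apply h2
    ext j
    rw [hr j]
    simp
  have h5 := (h3 0).1 (by rw [← h4]; rfl)
  simpa using h5

theorem Variation.fi8_le (V : Variation k X) (hk : 1 ≤ k) (z : ℍ) :
    V.mtDim z ≤ k + 5 ∧ V.domDim z ≤ k + 2 := by
  unfold Variation.mtDim Variation.domDim
  by_cases h1 : LibEis68.IsCM (V.τ z)
  · have h := dims_cm_le hk (fun _ => V.v z) (V.τ z).im_pos h1
    exact ⟨by omega, by omega⟩
  · by_cases h2 : RatVec (V.v z)
    · have h := dims_rat_noncm hk (e := fun _ => V.v z) (V.τ z).im_pos h1 h2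
      rw [h.1, h.2]
      exact ⟨by omega, by omega⟩
    · have h := dims_noncm hk (e := fun _ => V.v z) (V.τ z).im_pos h1 h2
      rw [h.1, h.2]
      exact ⟨le_rfl, le_rfl⟩

theorem Variation.generic_dims (V : Variation k X) (hk : 1 ≤ k) (hns : ¬ V.Split) :
    V.genericMtDim = k + 5 ∧ V.genericDomDim = k + 2 := by
  obtain ⟨z, h1, h2⟩ := V.exists_generic hk hns
  have hd := dims_noncm hk (e := fun _ => V.v z) (V.τ z).im_pos h1 h2
  have e1 : V.mtDim z = k + 5 := hd.1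
  have e2 : V.domDim z = k + 2 := hd.2
  have b1 : BddAbove (Set.range V.mtDim) := ⟨k + 5, by rintro _ ⟨w, rfl⟩; exact (V.fi8_le hk w).1⟩
  have b2 : BddAbove (Set.range V.domDim) := ⟨k + 2, by rintro _ ⟨w, rfl⟩; exact (V.fi8_le hk w).2⟩
  constructor
  · apply le_antisymm
    · exact ciSup_le' fun w => (V.fi8_le hk w).1
    · have h := le_ciSup b1 z
      rw [e1] at h
      exact h
  · apply le_antisymm
    · exact ciSup_le' fun w => (V.fi8_le hk w).2
    · have h := le_ciSup b2 z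
      rw [e2] at h
      exact h

/-- At an atypical point some component vanishes. -/
theorem Variation.atypical_sub (V : Variation k X) (hk : 1 ≤ k) (hns : ¬ V.Split) {z : ℍ}
    (hz : z ∈ V.atypicalLocus) : ∃ i, V.comp z i = 0 := by
  by_contra hcon
  push Not at hcon
  obtain ⟨hz1, hz2⟩ := hz
  obtain ⟨g1, g2⟩ := V.generic_dims hk hns
  obtain ⟨c1, c2, -⟩ := V.comp_spec z
  have hz1' : V.mtDim z < V.genericMtDim := hz1
  rw [g1] at hz1'
  have hnr : ¬ RatVec (V.v z) := by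
    rintro ⟨r, hr⟩
    have h4 : (0 : Fin (k + 1) → ℂ) = V.comp z := by
      apply c2
      ext j
      rw [hr j]
      simp
    exact hcon 0 (by rw [← h4]; rfl)
  by_cases hcm : LibEis68.IsCM (V.τ z)
  · have h := dims_cm hk (e := fun _ => V.v z) (V.τ z).im_pos hcm (by
      intro c hc i
      rw [c2 c hc]
      exact hcon i)
    have e2 : V.domDim z = k + 1 := h.2
    apply hz2
    rw [g2, e2]
    omega
  · have h := dims_noncm hk (e := fun _ => V.v z) (V.τ z).im_pos hcm hnr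
    have e1 : V.mtDim z = k + 5 := h.1
    omega

/-- The atypical points where the middle component does not vanish are finite in number. -/
theorem Variation.atypical_finite (V : Variation k X) (hk : 1 ≤ k) (hns : ¬ V.Split) :
    ((fun z : ℍ => (Quotient.mk'' z : X.Pts)) '' {z | z ∈ V.atypicalLocus ∧
      ∀ i : Fin (k + 1), 2 * (i : ℕ) = k → V.comp z i ≠ 0}).Finite ∧
    (Odd k → V.atypicalPoints.Finite) := by
  have hfin : (⋃ i ∈ {i : Fin (k + 1) | 2 * (i : ℕ) ≠ k},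
      (fun z : ℍ => (Quotient.mk'' z : X.Pts)) '' {z | V.comp z i = 0}).Finite :=
    (Set.toFinite _).biUnion fun i hi => V.zeros_finite hk hns i hi
  have h1 : ((fun z : ℍ => (Quotient.mk'' z : X.Pts)) '' {z | z ∈ V.atypicalLocus ∧
      ∀ i : Fin (k + 1), 2 * (i : ℕ) = k → V.comp z i ≠ 0}).Finite := by
    refine hfin.subset ?_
    rintro _ ⟨z, ⟨hz, hi⟩, rfl⟩
    obtain ⟨i, h0⟩ := V.atypical_sub hk hns hz
    have h2 : 2 * (i : ℕ) ≠ k := fun h => hi i h h0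
    exact Set.mem_biUnion (x := i) h2 ⟨z, h0, rfl⟩
  refine ⟨h1, fun hodd => ?_⟩
  refine h1.subset ?_
  rintro _ ⟨z, hz, rfl⟩
  refine ⟨z, ⟨hz, fun i h => ?_⟩, rfl⟩
  obtain ⟨l, hl⟩ := hodd
  omega

end Fin

end Pool.Agent.LibSym94
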