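import Pool.Agent.LibSym94.EvenDefs
import Pool.Agent.LibSym94.FIN

open Matrix Filter Topology Polynomial UpperHalfPlane
open scoped MatrixGroups ComplexConjugate
open Pool.Agent.LibUB33 (Curve ee)
open Pool.Agent.LibEis68 (form act)

namespace Pool.Agent.LibSym94

/-! ## The middle component: algebra -/

section Alg

theorem EV1_frm (k : ℕ) (s t : ℂ) {l : ℕ} (hl : l ≤ k) : frm k s t l = frm k t s (k - l) := by
  funext j
  unfold frm
  rw [Nat.sub_sub_self hl, mul_comm]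

theorem EV1_rev {k : ℕ} {s t : ℂ} (h : s ≠ t) (p : Fin (k + 1) → ℂ) {j : ℕ} (hj : j ≤ k) :
    gco k t s p j = (-1) ^ k * gco k s t p (k - j) := by
  have h1 : ∀ j, p j = ∑ l ∈ Finset.range (k + 1),
      (gco k s t p (k - l) / (s - t) ^ k) * frm k t s l j := by
    intro j
    rw [gco_expand h p j, ← Finset.sum_range_reflect]
    refine Finset.sum_congr rfl fun l hl => ?_
    have hl' : l ≤ k := Nat.lt_succ_iff.mp (Finset.mem_range.mp hl)
    rw [show k + 1 - 1 - l = k - l by omega, EV1_frm k s t (Nat.sub_le k l),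
      Nat.sub_sub_self hl']
  rw [gco_eq_gcoR k t s p j, gcoR_frm k h1 hj]
  have h2 : (s - t) ^ k ≠ 0 := pow_ne_zero _ (sub_ne_zero.mpr h)
  have h3 : (t - s) ^ k = (-1) ^ k * (s - t) ^ k := by
    rw [← mul_pow]
    congr 1
    ring
  rw [h3]
  field_simp

theorem EV1_conj (k : ℕ) (s t : ℂ) (p : Fin (k + 1) → ℂ) (j : ℕ) :
    conj (gco k s t p j) = gco k (conj s) (conj t) (fun m => conj (p m)) j := by
  unfold gco
  rw [map_sum]
  refine Finset.sum_congr rfl fun m _ => ?_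
  rw [map_mul, ← Polynomial.coeff_map]
  simp [Polynomial.map_mul, Polynomial.map_pow, Polynomial.map_sub]

theorem EV1_sub {s : ℂ} : s - conj s = 2 * Complex.I * (s.im : ℂ) := by
  apply Complex.ext <;> simp
  ring

/-- The middle component is real, and vanishes exactly when `gco` does. -/
theorem mF_spec {k : ℕ} (hk : Even k) {s : ℂ} (hs : 0 < s.im) (p : Fin (k + 1) → ℂ) :
    gco k s (conj s) (fun j => p j - conj (p j)) (k / 2) =
      (mF k s p : ℂ) * ((2 * Complex.I) ^ (k + 1) * (s.im : ℂ) ^ (k / 2)) := by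
  obtain ⟨h, rfl⟩ := hk
  have hh : (h + h) / 2 = h := by omega
  have hne : s ≠ conj s := by
    intro he
    have := congrArg Complex.im he
    rw [Complex.conj_im] at this
    linarith
  have hne' : conj s ≠ s := fun he => hne he.symm
  set D : Fin (h + h + 1) → ℂ := fun j => p j - conj (p j) with hD
  set G := gco (h + h) s (conj s) D h with hG
  have hGc : conj G = -G := by
    rw [hG, EV1_conj, Complex.conj_conj, EV1_rev hne _ (by omega : h ≤ h + h),
      Nat.add_sub_cancel, Even.neg_one_pow ⟨h, rfl⟩, one_mul]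
    have : (fun m => conj (D m)) = fun m => -D m := by
      funext m
      simp [hD]
    rw [this]
    unfold gco
    rw [← Finset.sum_neg_distrib]
    exact Finset.sum_congr rfl fun m _ => by ring
  have hGre : G.re = 0 := by
    have := congrArg Complex.re hGc
    rw [Complex.conj_re, Complex.neg_re] at this
    linarith
  have hG2 : G = Complex.I * (G.im : ℂ) := by
    apply Complex.ext <;> simp [hGre]
  have hs0 : (s.im : ℂ) ≠ 0 := by exact_mod_cast hs.ne'
  have hI : Complex.I ≠ 0 := Complex.I_ne_zero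
  have hpow : (s - conj s) ^ (h + h) = (((-4) ^ h * s.im ^ (h + h) : ℝ) : ℂ) := by
    rw [EV1_sub, mul_pow, ← two_mul, pow_mul (2 * Complex.I)]
    have : (2 * Complex.I) ^ 2 = -4 := by
      rw [mul_pow, Complex.I_sq]
      norm_num
    rw [this]
    push_cast
    ring
  have hpow0 : (s - conj s) ^ (h + h) ≠ 0 := pow_ne_zero _ (sub_ne_zero.mpr hne)
  have hx : G / ((s - conj s) ^ (h + h) * (2 * Complex.I)) =
      (((G / ((s - conj s) ^ (h + h) * (2 * Complex.I))).re : ℝ) : ℂ) := by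
    have e : G / ((s - conj s) ^ (h + h) * (2 * Complex.I)) =
        ((G.im / ((-4) ^ h * s.im ^ (h + h) * 2) : ℝ) : ℂ) := by
      rw [hpow] at hpow0 ⊢
      rw [div_eq_iff (mul_ne_zero hpow0 (mul_ne_zero two_ne_zero hI))]
      conv_lhs => rw [hG2]
      push_cast at hpow0 ⊢
      have h4 : ((-4 : ℂ)) ^ h ≠ 0 := pow_ne_zero _ (by norm_num)
      field_simp
    rw [e, Complex.ofReal_re]
  have hmF : (mF (h + h) s p : ℂ) = (s.im : ℂ) ^ h *
      (G / ((s - conj s) ^ (h + h) * (2 * Complex.I))) := by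
    rw [hx, mF, hh]
    push_cast
    rfl
  rw [hh, hmF, EV1_sub]
  change G = _
  field_simp
  ring

theorem EV1_im {a b c d : ℤ} (hdet : a * d - b * c = 1) {s s' : ℂ}
    (hs : s' * ((c : ℂ) * s + d) = (a : ℂ) * s + b) :
    s'.im * Complex.normSq ((c : ℂ) * s + d) = s.im := by
  have h1 : s' * (Complex.normSq ((c : ℂ) * s + d) : ℂ) =
      ((a : ℂ) * s + b) * ((c : ℂ) * conj s + d) := by
    rw [← hs, Complex.normSq_eq_conj_mul_self]
    simp only [map_add, map_mul, map_intCast]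
    ring
  have h2 := congrArg Complex.im h1
  rw [Complex.im_mul_ofReal] at h2
  rw [h2]
  have hd : (a : ℝ) * d - b * c = 1 := by exact_mod_cast hdet
  simp
  linear_combination s.im * hd

theorem EV1_den {a b c d : ℤ} (hdet : a * d - b * c = 1) {s s' : ℂ} (h : 0 < s.im)
    (hs : s' * ((c : ℂ) * s + d) = (a : ℂ) * s + b) : (c : ℂ) * s + d ≠ 0 := by
  intro h0
  have h1 := EV1_im hdet hs
  rw [h0, map_zero, mul_zero] at h1
  linarith

/-- Invariance of the middle component. -/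
theorem mF_smul {k : ℕ} (hk : Even k) (γ : SL(2, ℤ)) {s s' : ℂ} (h : 0 < s.im)
    (hs : s' * ((γ 1 0 : ℂ) * s + γ 1 1) = (γ 0 0 : ℂ) * s + γ 0 1)
    (p : Fin (k + 1) → ℂ) (c : Fin (k + 1) → ℝ) :
    mF k s' ((act k γ).map (algebraMap ℚ ℂ) *ᵥ p + fun j => (c j : ℂ)) = mF k s p := by
  have hdet : γ 0 0 * γ 1 1 - γ 0 1 * γ 1 0 = 1 := by
    rw [← Matrix.det_fin_two]
    exact γ.det_coe
  have him := EV1_im hdet hs
  have hden := EV1_den hdet h hs
  set den : ℂ := (γ 1 0 : ℂ) * s + γ 1 1 with hdenD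
  set N : ℝ := Complex.normSq den with hN
  have hN0 : 0 < N := Complex.normSq_pos.mpr hden
  have hs' : 0 < s'.im := by
    by_contra hc
    have : s'.im * N ≤ 0 := mul_nonpos_of_nonpos_of_nonneg (not_lt.mp hc) hN0.le
    linarith
  have hne : s ≠ conj s := by
    intro he
    have := congrArg Complex.im he
    rw [Complex.conj_im] at this
    linarith
  have hsc : conj s' * ((γ 1 0 : ℂ) * conj s + γ 1 1) = (γ 0 0 : ℂ) * conj s + γ 0 1 := by
    have := congrArg conj hs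
    rw [hdenD] at this
    simpa using this
  set p' : Fin (k + 1) → ℂ := (act k γ).map (algebraMap ℚ ℂ) *ᵥ p + fun j => (c j : ℂ) with hp'
  have hD : (fun j => p' j - conj (p' j)) =
      (act k γ).map (algebraMap ℚ ℂ) *ᵥ (fun j => p j - conj (p j)) := by
    funext j
    have e1 : (fun j => p j - conj (p j)) = p - fun j => conj (p j) := rfl
    rw [e1, Matrix.mulVec_sub, hp']
    simp only [Pi.add_apply, Pi.sub_apply, map_add, Complex.conj_ofReal]
    have e2 : conj (((act k γ).map (algebraMap ℚ ℂ) *ᵥ p) j) =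
        ((act k γ).map (algebraMap ℚ ℂ) *ᵥ fun j => conj (p j)) j := by
      simp only [Matrix.mulVec, dotProduct, Matrix.map_apply, map_sum, map_mul]
      refine Finset.sum_congr rfl fun m _ => ?_
      congr 1
      simp
    rw [e2]
    ring
  have hsm := gco_smul γ hne hs hsc (fun j => p j - conj (p j)) (i := k / 2) (by omega)
  rw [← hD] at hsm
  have h1 := mF_spec hk hs' p'
  have h2 := mF_spec hk h p
  rw [h1, h2] at hsm
  obtain ⟨m, rfl⟩ := hk
  have hm : (m + m) / 2 = m := by omega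
  have hm2 : m + m - m = m := by omega
  rw [hm, hm2] at hsm
  have hNc : ((γ 1 0 : ℂ) * s + γ 1 1) ^ m * ((γ 1 0 : ℂ) * conj s + γ 1 1) ^ m = (N : ℂ) ^ m := by
    rw [← mul_pow, hN, Complex.normSq_eq_conj_mul_self, hdenD]
    congr 1
    simp only [map_add, map_mul, map_intCast]
    ring
  have himc : (s'.im : ℂ) * (N : ℂ) = (s.im : ℂ) := by exact_mod_cast him
  rw [← hdenD] at hNc
  rw [hNc, ← himc, mul_pow] at hsm
  have hI : (2 * Complex.I) ^ (m + m + 1) ≠ 0 :=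
    pow_ne_zero _ (mul_ne_zero two_ne_zero Complex.I_ne_zero)
  have hs0 : (s'.im : ℂ) ^ m ≠ 0 := pow_ne_zero _ (by exact_mod_cast hs'.ne')
  have hN0' : (N : ℂ) ^ m ≠ 0 := pow_ne_zero _ (by exact_mod_cast hN0.ne')
  have h3 : ((mF (m + m) s' p' : ℝ) : ℂ) = (mF (m + m) s p : ℂ) := by
    have h4 : ((mF (m + m) s' p' : ℝ) : ℂ) *
        ((2 * Complex.I) ^ (m + m + 1) * (s'.im : ℂ) ^ m * (N : ℂ) ^ m) =
        (mF (m + m) s p : ℂ) * ((2 * Complex.I) ^ (m + m + 1) * (s'.im : ℂ) ^ m * (N : ℂ) ^ m) := by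
      linear_combination hsm
    exact mul_right_cancel₀ (mul_ne_zero (mul_ne_zero hI hs0) hN0') h4
  exact_mod_cast h3

/-- The derivative of a power of a unit. -/
theorem EV2_pow {R : Type*} [CommRing R] {r ri : R} (hr : r * ri = 1) (D : Derivation ℤ R R) (k : ℕ) :
    D (r ^ k) = (k : R) * D r * ri * r ^ k := by
  rw [Derivation.leibniz_pow]
  rcases k with _ | k
  · simp
  · rw [Nat.add_sub_cancel, smul_eq_mul, nsmul_eq_mul, pow_succ]
    linear_combination (-((k + 1 : ℕ) : R) * r ^ k * D r) * hr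

/-- The derivative of the inverse of a unit. -/
theorem EV2_inv {R : Type*} [CommRing R] {r ri : R} (hr : r * ri = 1) (D : Derivation ℤ R R) :
    D ri = -(ri ^ 2 * D r) := by
  have h := congrArg D hr
  rw [D.leibniz, D.map_one_eq_zero, smul_eq_mul, smul_eq_mul] at h
  linear_combination ri * h - D ri * hr

/-- The mixed derivative of a coordinate. -/
theorem EV2_mixed {R : Type*} [CommRing R] (k : ℕ) {s t ri : R} (hr : (s - t) * ri = 1) (Dz Dw : Derivation ℤ R R)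
    (hc : ∀ u, Dz (Dw u) = Dw (Dz u)) (ht : Dz t = 0)
    {g g' : R} (hg' : Dz g' = 0) {f : ℕ → R}
    (hfz : ∀ j, j ≤ k → Dz (f j) = (if j = k then g else 0) +
      Dz s * ri * ((j + 1 : ℕ) * f (j + 1) - (j : ℕ) * f j))
    (hfw : ∀ j, j ≤ k → Dw (f j) = (if j = 0 then -g' else 0) +
      Dw t * ri * ((k - j : ℕ) * f j - if j = 0 then 0 else ((k - (j - 1) : ℕ) * f (j - 1))))
    {j : ℕ} (hj : j ≤ k) :
    Dz (Dw (f j)) = (k - j : ℕ) * (Dw t * ri) * Dz (f j) - (j : ℕ) * (Dz s * ri) * Dw (f j) -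
      (k : ℕ) * (Dz s * Dw t * ri ^ 2) * f j := by
  have htw : Dz (Dw t) = 0 := by rw [hc, ht, map_zero]
  have hri : Dz ri = -(ri ^ 2 * Dz s) := by
    rw [EV2_inv hr Dz, map_sub, ht, sub_zero]
  have hnat : ∀ n : ℕ, Dz (n : R) = 0 := fun n => by
    have h := Dz.map_natCast n
    exact h
  rcases j with _ | m
  · have h := congrArg Dz (hfw 0 hj)
    simp only [if_true, Nat.sub_zero, sub_zero, map_add, map_neg, hg', neg_zero, zero_add,
      Dz.leibniz, smul_eq_mul, htw, hri, hnat, mul_zero, add_zero] at h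
    rw [h, Nat.sub_zero]
    push_cast
    ring
  · have hm : m ≤ k := by omega
    have hmk : m ≠ k := by omega
    have hfm := hfz m hm
    rw [if_neg hmk, zero_add] at hfm
    have h0 := hfw (m + 1) hj
    rw [if_neg (Nat.succ_ne_zero m), if_neg (Nat.succ_ne_zero m), zero_add,
      Nat.add_sub_cancel] at h0
    have h := congrArg Dz h0
    simp only [map_sub, Dz.leibniz, smul_eq_mul, htw, hri, hnat, mul_zero, add_zero, hfm] at h
    rw [h, h0, Nat.cast_sub hm, Nat.cast_sub hj]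
    push_cast
    ring

/-- The equation for the middle component. -/
theorem mid_eq {R : Type*} [CommRing R] (h : ℕ) {s t ri : R} (hr : (s - t) * ri = 1)
    (Dz Dw : Derivation ℤ R R)
    (hc : ∀ u, Dz (Dw u) = Dw (Dz u)) (hs : Dw s = 0) (ht : Dz t = 0)
    {V V' : Fin (2 * h + 1) → R} {g g' : R} (hV : ∀ j, Dz (V j) = g * frm (2 * h) s s (2 * h) j)
    (hVw : ∀ j, Dw (V j) = 0) (hV' : ∀ j, Dw (V' j) = g' * frm (2 * h) t t (2 * h) j)
    (hVz : ∀ j, Dz (V' j) = 0) (hg : Dw g = 0) (hg' : Dz g' = 0) {f : ℕ → R}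
    (hf0 : f (2 * h + 1) = 0)
    (hf : ∀ j, V j - V' j = ∑ l ∈ Finset.range (2 * h + 1), f l * frm (2 * h) s t l j)
    (hh : 1 ≤ h) :
    (s - t) ^ 2 * Dz (Dw ((s - t) ^ h * f h)) =
      -((h * (h + 1) : ℕ) : R) * Dz s * Dw t * ((s - t) ^ h * f h) := by
  have hfz : ∀ j, j ≤ 2 * h → Dz (f j) = (if j = 2 * h then g else 0) +
      Dz s * ri * ((j + 1 : ℕ) * f (j + 1) - (j : ℕ) * f j) := by
    intro j hj
    have h := frm_deriv (2 * h) hr Dz (f := f) (c := fun l => if l = 2 * h then g else 0)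
      (F := fun j => V j - V' j) hf0 hf (fun j => ?_) hj
    · rw [h, ht, zero_mul, zero_mul, add_zero]
    · simp only [map_sub, hV, hVz, sub_zero, ite_mul, zero_mul]
      rw [Finset.sum_ite_eq' (Finset.range (2 * h + 1)) (2 * h),
        if_pos (Finset.mem_range.2 (Nat.lt_succ_self (2 * h)))]
      simp [frm]
  have hfw : ∀ j, j ≤ 2 * h → Dw (f j) = (if j = 0 then -g' else 0) +
      Dw t * ri * ((2 * h - j : ℕ) * f j -
        if j = 0 then 0 else ((2 * h - (j - 1) : ℕ) * f (j - 1))) := by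
    intro j hj
    have h := frm_deriv (2 * h) hr Dw (f := f) (c := fun l => if l = 0 then -g' else 0)
      (F := fun j => V j - V' j) hf0 hf (fun j => ?_) hj
    · rw [h, hs, zero_mul, zero_mul, add_zero]
    · simp only [map_sub, hV', hVw, zero_sub, ite_mul, zero_mul]
      rw [Finset.sum_ite_eq' (Finset.range (2 * h + 1)) 0,
        if_pos (Finset.mem_range.2 (Nat.succ_pos (2 * h)))]
      simp [frm]
  have hmix := EV2_mixed (2 * h) hr Dz Dw hc ht hg' hfz hfw (j := h) (by omega)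
  rw [show 2 * h - h = h by omega] at hmix
  have htw : Dz (Dw t) = 0 := by rw [hc, ht, map_zero]
  have hri : Dz ri = -(ri ^ 2 * Dz s) := by
    rw [EV2_inv hr Dz, map_sub, ht, sub_zero]
  have hnat : Dz (h : R) = 0 := by
    have h := Dz.map_natCast h
    exact h
  have hGw : Dw ((s - t) ^ h * f h) = (s - t) ^ h * (-((h : R) * Dw t * ri * f h) + Dw (f h)) := by
    rw [Dw.leibniz, EV2_pow hr Dw, map_sub, hs, zero_sub, smul_eq_mul, smul_eq_mul]
    ring
  have hGzw : Dz (Dw ((s - t) ^ h * f h)) = (s - t) ^ h *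
      ((h : R) * Dz s * ri * (-((h : R) * Dw t * ri * f h) + Dw (f h)) +
        (-((h : R) * Dw t * (-(ri ^ 2 * Dz s) * f h + ri * Dz (f h))) + Dz (Dw (f h)))) := by
    rw [hGw, Dz.leibniz, EV2_pow hr Dz, map_sub, ht, sub_zero, smul_eq_mul, smul_eq_mul]
    simp only [map_add, map_neg, Dz.leibniz, smul_eq_mul, htw, hri, hnat]
    ring
  rw [hGzw, hmix]
  push_cast
  linear_combination (-((h : R) * (h + 1) * Dz s * Dw t * (s - t) ^ h * f h) *
    ((s - t) * ri + 1)) * hr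

theorem EV3_mul (p q : ℕ) (f g : R2) : co p q (f * g) =
    ∑ x ∈ Finset.HasAntidiagonal.antidiagonal q, ∑ y ∈ Finset.HasAntidiagonal.antidiagonal p,
      co y.1 x.1 f * co y.2 x.2 g := by
  unfold co
  rw [PowerSeries.coeff_mul, map_sum]
  exact Finset.sum_congr rfl fun x _ => PowerSeries.coeff_mul _ _ _

theorem EV3_unit (p q : ℕ) (u F : R2) (h : ∀ p' q', p' + q' < p + q → co p' q' F = 0) :
    co p q (u * F) = co 0 0 u * co p q F := by
  rw [EV3_mul, Finset.sum_eq_single (0, q), Finset.sum_eq_single (0, p)]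
  · intro y hy hne
    have hy' := Finset.HasAntidiagonal.mem_antidiagonal.mp hy
    rw [h y.2 q, mul_zero]
    have : y.1 ≠ 0 := by
      intro h0
      apply hne
      ext <;> simp only <;> omega
    omega
  · intro hn
    exact absurd (Finset.HasAntidiagonal.mem_antidiagonal.mpr (zero_add p)) hn
  · intro x hx hne
    have hx' := Finset.HasAntidiagonal.mem_antidiagonal.mp hx
    refine Finset.sum_eq_zero fun y hy => ?_
    have hy' := Finset.HasAntidiagonal.mem_antidiagonal.mp hy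
    rw [h y.2 x.2, mul_zero]
    have : x.1 ≠ 0 := by
      intro h0
      apply hne
      ext <;> simp only <;> omega
    omega
  · intro hn
    exact absurd (Finset.HasAntidiagonal.mem_antidiagonal.mpr (zero_add q)) hn

theorem EV3_inz (p q : ℕ) (a : PowerSeries ℂ) (F : R2) : co p q (inz a * F) =
    ∑ y ∈ Finset.HasAntidiagonal.antidiagonal p, PowerSeries.coeff y.1 a * co y.2 q F := by
  unfold co inz
  rw [PowerSeries.coeff_C_mul, PowerSeries.coeff_mul]

theorem EV3_inw (p q : ℕ) (b : PowerSeries ℂ) (F : R2) : co p q (inw b * F) =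
    ∑ x ∈ Finset.HasAntidiagonal.antidiagonal q, PowerSeries.coeff x.1 b * co p x.2 F := by
  unfold co inw
  rw [PowerSeries.coeff_mul, map_sum]
  refine Finset.sum_congr rfl fun x _ => ?_
  rw [PowerSeries.coeff_map, PowerSeries.coeff_C_mul]

theorem EV3_rhs (κ p q : ℕ) (a b : PowerSeries ℂ) (F : R2) :
    co p q (-(κ : R2) * inz a * inw b * F) =
      -(κ : ℂ) * ∑ y ∈ Finset.HasAntidiagonal.antidiagonal p, PowerSeries.coeff y.1 a *
        ∑ x ∈ Finset.HasAntidiagonal.antidiagonal q, PowerSeries.coeff x.1 b * co y.2 x.2 F := by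
  have h : -(κ : R2) * inz a * inw b * F = -(κ • (inz a * (inw b * F))) := by
    rw [nsmul_eq_mul]
    ring
  have h2 : co p q (-(κ • (inz a * (inw b * F)))) = -(κ • co p q (inz a * (inw b * F))) := by
    unfold co
    rw [map_neg, map_neg, map_nsmul, map_nsmul]
  rw [h, h2, EV3_inz, nsmul_eq_mul, neg_mul]
  simp only [EV3_inw]

/-- The form of lowest degree of `Ψ = Φ - Φ(0,0)` when `r² Φ_zw = -κ s_z t_w Φ`. -/
theorem mid_lowest {Dz Dw : Derivation ℤ R2 R2} (H : Pder Dz Dw) {Φ r : R2}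
    {s t : PowerSeries ℂ} {κ : ℕ} (hκ : 0 < κ) (hr : co 0 0 r ≠ 0)
    (h : r ^ 2 * Dz (Dw Φ) = -(κ : R2) * Dz (inz s) * Dw (inw t) * Φ) (hΦ : co 0 0 Φ ≠ 0)
    {e : ℕ} {α β : ℂ} (hs : ∀ p < e, PowerSeries.coeff p (PowerSeries.derivative ℂ s) = 0)
    (hsα : PowerSeries.coeff e (PowerSeries.derivative ℂ s) = α) (hα : α ≠ 0)
    (ht : ∀ p < e, PowerSeries.coeff p (PowerSeries.derivative ℂ t) = 0)
    (htβ : PowerSeries.coeff e (PowerSeries.derivative ℂ t) = β) (hβ : β ≠ 0) :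
    ∃ d : ℕ, 1 ≤ d ∧ d ≤ 2 * (e + 1) ∧ (∀ p q, 0 < p + q → p + q < d → co p q Φ = 0) ∧
      (∃ p q, p + q = d ∧ co p q Φ ≠ 0) ∧
      (∀ p q, p + q = d → 0 < p → 0 < q → (p, q) ≠ (e + 1, e + 1) → co p q Φ = 0) ∧
      (d = 2 * (e + 1) → co (e + 1) (e + 1) Φ =
        -(κ : ℂ) * α * β * co 0 0 Φ / (co 0 0 r ^ 2 * (e + 1) ^ 2)) := by
  classical
  rw [H.zz, H.ww] at h
  set a := PowerSeries.derivative ℂ s with ha
  set b := PowerSeries.derivative ℂ t with hb
  have hr2 : co 0 0 (r ^ 2) = co 0 0 r ^ 2 := by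
    rw [pow_two, EV3_mul]
    simp [pow_two]
  have hr20 : co 0 0 r ^ 2 ≠ 0 := pow_ne_zero _ hr
  -- the right side
  have hR0 : ∀ p q, p < e ∨ q < e → co p q (-(κ : R2) * inz a * inw b * Φ) = 0 := by
    intro p q hpq
    rw [EV3_rhs]
    rcases hpq with hp | hq
    · rw [Finset.sum_eq_zero, mul_zero]
      intro y hy
      have hy' := Finset.HasAntidiagonal.mem_antidiagonal.mp hy
      rw [hs y.1 (by omega), zero_mul]
    · rw [Finset.sum_eq_zero, mul_zero]
      intro y hy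
      rw [Finset.sum_eq_zero, mul_zero]
      intro x hx
      have hx' := Finset.HasAntidiagonal.mem_antidiagonal.mp hx
      rw [ht x.1 (by omega), zero_mul]
  have hRe : co e e (-(κ : R2) * inz a * inw b * Φ) = -(κ : ℂ) * (α * (β * co 0 0 Φ)) := by
    rw [EV3_rhs, Finset.sum_eq_single (e, 0), Finset.sum_eq_single (e, 0), hsα, htβ]
    · intro x hx hne
      have hx' := Finset.HasAntidiagonal.mem_antidiagonal.mp hx
      have : x.1 ≠ e := by
        intro h0
        apply hne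
        ext <;> simp only <;> omega
      rw [ht x.1 (by omega), zero_mul]
    · intro hn
      exact absurd (Finset.HasAntidiagonal.mem_antidiagonal.mpr (add_zero e)) hn
    · intro y hy hne
      have hy' := Finset.HasAntidiagonal.mem_antidiagonal.mp hy
      have : y.1 ≠ e := by
        intro h0
        apply hne
        ext <;> simp only <;> omega
      rw [hs y.1 (by omega), zero_mul]
    · intro hn
      exact absurd (Finset.HasAntidiagonal.mem_antidiagonal.mpr (add_zero e)) hn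
  -- the mixed derivative
  have hzw : ∀ p q, co p q (Dz (Dw Φ)) = ((p + 1 : ℕ) : ℂ) * (((q + 1 : ℕ) : ℂ) *
      co (p + 1) (q + 1) Φ) := by
    intro p q
    rw [H.z, H.w]
  have hlow : ∀ n, n < 2 * e → ∀ p q, p + q = n → co p q (Dz (Dw Φ)) = 0 := by
    intro n
    induction n using Nat.strong_induction_on with
    | _ n ih =>
      intro hn p q hpq
      have h1 := EV3_unit p q (r ^ 2) (Dz (Dw Φ))
        (fun p' q' h' => ih (p' + q') (by omega) (by omega) p' q' rfl)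
      rw [h, hR0 p q (by omega), hr2] at h1
      exact (mul_eq_zero.mp h1.symm).resolve_left hr20
  have htop : ∀ p q, p + q = 2 * e → co 0 0 r ^ 2 * co p q (Dz (Dw Φ)) =
      co p q (-(κ : R2) * inz a * inw b * Φ) := by
    intro p q hpq
    rw [← h, EV3_unit p q (r ^ 2) (Dz (Dw Φ))
      (fun p' q' h' => hlow (p' + q') (by omega) p' q' rfl), hr2]
  have hmix : ∀ p q, 0 < p → 0 < q → p + q < 2 * (e + 1) → co p q Φ = 0 := by
    intro p q hp hq hpq
    obtain ⟨p, rfl⟩ := Nat.exists_eq_succ_of_ne_zero hp.ne'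
    obtain ⟨q, rfl⟩ := Nat.exists_eq_succ_of_ne_zero hq.ne'
    have h1 := hlow (p + q) (by omega) p q rfl
    rw [hzw] at h1
    have hp0 : ((p + 1 : ℕ) : ℂ) ≠ 0 := Nat.cast_ne_zero.mpr (by omega)
    have hq0 : ((q + 1 : ℕ) : ℂ) ≠ 0 := Nat.cast_ne_zero.mpr (by omega)
    exact ((mul_eq_zero.mp h1).resolve_left hp0 |> mul_eq_zero.mp).resolve_left hq0
  have hmix2 : ∀ p q, 0 < p → 0 < q → p + q = 2 * (e + 1) → (p, q) ≠ (e + 1, e + 1) →
      co p q Φ = 0 := by
    intro p q hp hq hpq hne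
    obtain ⟨p, rfl⟩ := Nat.exists_eq_succ_of_ne_zero hp.ne'
    obtain ⟨q, rfl⟩ := Nat.exists_eq_succ_of_ne_zero hq.ne'
    have hpe : p ≠ e := by
      intro h0
      apply hne
      ext <;> simp only <;> omega
    have h1 := htop p q (by omega)
    rw [hR0 p q (by omega)] at h1
    have h2 := (mul_eq_zero.mp h1).resolve_left hr20
    rw [hzw] at h2
    have hp0 : ((p + 1 : ℕ) : ℂ) ≠ 0 := Nat.cast_ne_zero.mpr (by omega)
    have hq0 : ((q + 1 : ℕ) : ℂ) ≠ 0 := Nat.cast_ne_zero.mpr (by omega)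
    exact ((mul_eq_zero.mp h2).resolve_left hp0 |> mul_eq_zero.mp).resolve_left hq0
  have he0 : ((e : ℂ) + 1) ≠ 0 := by exact_mod_cast Nat.succ_ne_zero e
  have hee : co (e + 1) (e + 1) Φ =
      -(κ : ℂ) * α * β * co 0 0 Φ / (co 0 0 r ^ 2 * (e + 1) ^ 2) := by
    have h1 := htop e e (by omega)
    rw [hRe, hzw] at h1
    push_cast at h1
    rw [eq_div_iff (mul_ne_zero hr20 (pow_ne_zero _ he0))]
    linear_combination h1
  have hee0 : co (e + 1) (e + 1) Φ ≠ 0 := by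
    rw [hee]
    refine div_ne_zero ?_ (mul_ne_zero hr20 (pow_ne_zero _ he0))
    exact mul_ne_zero (mul_ne_zero (mul_ne_zero
      (neg_ne_zero.mpr (Nat.cast_ne_zero.mpr hκ.ne')) hα) hβ) hΦ
  have hex : ∃ n, 0 < n ∧ ∃ p q, p + q = n ∧ co p q Φ ≠ 0 :=
    ⟨2 * (e + 1), by omega, e + 1, e + 1, by omega, hee0⟩
  obtain ⟨hd0, hd1⟩ := Nat.find_spec hex
  have hdle : Nat.find hex ≤ 2 * (e + 1) :=
    Nat.find_min' hex ⟨by omega, e + 1, e + 1, by omega, hee0⟩
  refine ⟨Nat.find hex, hd0, hdle, ?_, hd1, ?_, fun _ => hee⟩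
  · intro p q h0 hlt
    by_contra hc
    exact Nat.find_min hex hlt ⟨h0, p, q, rfl, hc⟩
  · intro p q hpq hp hq hne
    rcases hdle.lt_or_eq with hlt | heq
    · exact hmix p q hp hq (by omega)
    · exact hmix2 p q hp hq (by omega) hne

end Alg

/-! ## The minimum principle -/

section Min

theorem EV4_cf_zero {n : ℕ} (a b : Fin n → ℂ → ℂ) : cf a b 0 0 = ∑ l, a l 0 * b l 0 := by
  unfold cf tay
  refine Finset.sum_congr rfl fun l _ => ?_
  rw [PowerSeries.coeff_mk, PowerSeries.coeff_mk]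
  simp

/-- A function `∑ a_l(u) b_l(ū)` with real values up to a factor cannot have a local minimum if its
lowest form has a negative value. -/
theorem form_nonneg {n : ℕ} {a b : Fin n → ℂ → ℂ} (ha : ∀ l, AnalyticAt ℂ (a l) 0)
    (hb : ∀ l, AnalyticAt ℂ (b l) 0) {d : ℕ} (hlow : ∀ p q, p + q < d → cf a b p q = 0)
    {G : ℂ → ℝ} {y : ℂ → ℝ} {c : ℂ} (hc : c ≠ 0)
    (hG : ∀ᶠ u in 𝓝 (0 : ℂ), ∑ l, a l u * b l (conj u) = c * (y u : ℂ) * (G u : ℂ))
    (hy : ContinuousAt y 0) (hy0 : 0 < y 0) (hpos : ∀ᶠ u in 𝓝 (0 : ℂ), 0 ≤ G u) (x : ℂ) :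
    ∃ v : ℝ, 0 ≤ v ∧ ∑ q ∈ Finset.range (d + 1), cf a b (d - q) q * x ^ (d - q) * conj x ^ q =
      c * (y 0 : ℂ) * (v : ℂ) := by
  by_cases hx : x = 0
  · subst hx
    rcases Nat.eq_zero_or_pos d with rfl | hd
    · refine ⟨G 0, hpos.self_of_nhds, ?_⟩
      have h1 := hG.self_of_nhds
      rw [map_zero] at h1
      rw [← h1, ← EV4_cf_zero]
      simp
    · refine ⟨0, le_refl _, ?_⟩
      rw [Complex.ofReal_zero, mul_zero]
      refine Finset.sum_eq_zero fun q hq => ?_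
      rcases Nat.eq_zero_or_pos q with rfl | hq0
      · rw [Nat.sub_zero, zero_pow (by omega : d ≠ 0)]
        ring
      · rw [map_zero, zero_pow (by omega : q ≠ 0), mul_zero]
  obtain ⟨Φ, hΦ, hΦ0, hΦe⟩ := blowup ha hb hlow
  set t : ℂ := conj x / x with ht
  have htx : x * t = conj x := by
    rw [ht]
    field_simp
  have htn : ‖t‖ ≤ 1 := by
    rw [ht, norm_div, RCLike.norm_conj, div_self (norm_ne_zero_iff.2 hx)]
  have hlim : Tendsto (fun e : ℝ => (e : ℂ) * x) (𝓝[>] (0 : ℝ)) (𝓝 (0 : ℂ)) := by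
    have h1 : Tendsto (fun e : ℝ => (e : ℂ) * x) (𝓝 (0 : ℝ)) (𝓝 (((0 : ℝ) : ℂ) * x)) :=
      ((Complex.continuous_ofReal.tendsto 0).mul_const x)
    rw [Complex.ofReal_zero, zero_mul] at h1
    exact h1.mono_left nhdsWithin_le_nhds
  have hypos : ∀ᶠ u in 𝓝 (0 : ℂ), 0 < y u := hy.eventually (lt_mem_nhds hy0)
  have hcy : c * (y 0 : ℂ) ≠ 0 := mul_ne_zero hc (Complex.ofReal_ne_zero.2 hy0.ne')
  set L : ℂ := x ^ d * Φ (0, t) / (c * (y 0 : ℂ)) with hL
  have hT : Tendsto (fun e : ℝ => x ^ d * Φ ((e : ℂ) * x, t) / (c * (y ((e : ℂ) * x) : ℂ)))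
      (𝓝[>] (0 : ℝ)) (𝓝 L) := by
    have h1 : Tendsto (fun e : ℝ => (((e : ℂ) * x, t) : ℂ × ℂ)) (𝓝[>] (0 : ℝ)) (𝓝 (0, t)) :=
      hlim.prodMk_nhds tendsto_const_nhds
    have h2 : Tendsto (fun e : ℝ => Φ ((e : ℂ) * x, t)) (𝓝[>] (0 : ℝ)) (𝓝 (Φ (0, t))) :=
      (hΦ t).continuousAt.tendsto.comp h1
    have h3 : Tendsto (fun e : ℝ => (y ((e : ℂ) * x) : ℂ)) (𝓝[>] (0 : ℝ)) (𝓝 (y 0 : ℂ)) :=
      (Complex.continuous_ofReal.tendsto _).comp (hy.tendsto.comp hlim)
    exact (h2.const_mul _).div (h3.const_mul _) hcy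
  have hmem : L ∈ {z : ℂ | 0 ≤ z.re ∧ z.im = 0} := by
    have hcl : IsClosed {z : ℂ | 0 ≤ z.re ∧ z.im = 0} :=
      (isClosed_le continuous_const Complex.continuous_re).inter
        (isClosed_eq Complex.continuous_im continuous_const)
    refine hcl.mem_of_tendsto hT ?_
    filter_upwards [hlim.eventually (hΦe 1), hlim.eventually hG, hlim.eventually hpos,
      hlim.eventually hypos, self_mem_nhdsWithin] with e h1 h2 h3 h4 h5
    have he : (0 : ℝ) < e := h5
    have h6 := h1 t htn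
    have h7 : conj ((e : ℂ) * x) = (e : ℂ) * x * t := by
      rw [map_mul, Complex.conj_ofReal, mul_assoc, htx]
    rw [h7, h6] at h2
    have h8 : c * (y ((e : ℂ) * x) : ℂ) ≠ 0 := mul_ne_zero hc (Complex.ofReal_ne_zero.2 h4.ne')
    have he' : (e : ℂ) ^ d ≠ 0 := pow_ne_zero _ (Complex.ofReal_ne_zero.2 he.ne')
    have h9 : x ^ d * Φ ((e : ℂ) * x, t) / (c * (y ((e : ℂ) * x) : ℂ)) =
        ((G ((e : ℂ) * x) / e ^ d : ℝ) : ℂ) := by
      rw [div_eq_iff h8, Complex.ofReal_div, Complex.ofReal_pow, div_mul_eq_mul_div,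
        eq_div_iff he']
      calc x ^ d * Φ ((e : ℂ) * x, t) * (e : ℂ) ^ d = ((e : ℂ) * x) ^ d * Φ ((e : ℂ) * x, t) := by
            rw [mul_pow]
            ring
        _ = (G ((e : ℂ) * x) : ℂ) * (c * (y ((e : ℂ) * x) : ℂ)) := by
            rw [h2]
            ring
    show 0 ≤ _ ∧ _ = 0
    rw [h9]
    exact ⟨by rw [Complex.ofReal_re]; positivity, Complex.ofReal_im _⟩
  refine ⟨L.re, hmem.1, ?_⟩
  have h1 : (L.re : ℂ) = L := by
    apply Complex.ext
    · simp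
    · rw [Complex.ofReal_im, hmem.2]
  rw [h1, hL, mul_div_cancel₀ _ hcy, hΦ0, Finset.mul_sum]
  refine Finset.sum_congr rfl fun q hq => ?_
  have hq' : q ≤ d := by
    have := Finset.mem_range.1 hq
    omega
  have h2 : x ^ d = x ^ (d - q) * x ^ q := by
    rw [← pow_add, Nat.sub_add_cancel hq']
  rw [h2, ← htx, mul_pow]
  ring

theorem EV5_pow {f : ℂ → ℂ} (hf : AnalyticAt ℂ f 0) (n : ℕ) :
    tay 0 (fun z => f z ^ n) = tay 0 f ^ n := by
  induction n with
  | zero =>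
    simp only [pow_zero]
    rw [tay_const, map_one]
  | succ n ih =>
    have h1 : (fun z => f z ^ (n + 1)) = fun z => f z ^ n * f z := by
      funext z
      rw [pow_succ]
    have h2 : AnalyticAt ℂ (fun z => f z ^ n) 0 := hf.pow n
    rw [h1, tay_mul h2 hf, ih, pow_succ]

theorem EV5_neg {f : ℂ → ℂ} (hf : AnalyticAt ℂ f 0) :
    tay 0 (fun z => -f z) = -tay 0 f := by
  have h1 : (fun z => -f z) = fun z => (-1 : ℂ) * f z := by
    funext z
    ring
  rw [h1, tay_mul analyticAt_const hf, tay_const]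
  simp

theorem EV5_cc {f : ℂ → ℂ} (hf : AnalyticAt ℂ f 0) : AnalyticAt ℂ (cc f) 0 := by
  rw [Complex.analyticAt_iff_eventually_differentiableAt] at hf ⊢
  have hc : Tendsto (fun z : ℂ => conj z) (𝓝 0) (𝓝 0) := by
    have := Complex.continuous_conj.tendsto (0 : ℂ)
    rwa [map_zero] at this
  filter_upwards [hc.eventually hf] with z hz
  exact differentiableAt_conj_conj_iff.2 hz

theorem EV5_co (f g : PowerSeries ℂ) (p q : ℕ) :
    co p q (inz f * inw g) = PowerSeries.coeff p f * PowerSeries.coeff q g := by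
  unfold co inz inw
  rw [PowerSeries.coeff_C_mul, PowerSeries.coeff_map, PowerSeries.coeff_mul_C]

theorem EV5_co_sub (f g : R2) (p q : ℕ) : co p q (f - g) = co p q f - co p q g := by
  unfold co
  rw [map_sub, map_sub]

theorem EV5_co_sum {ι : Type*} (s : Finset ι) (f : ι → R2) (p q : ℕ) :
    co p q (∑ i ∈ s, f i) = ∑ i ∈ s, co p q (f i) := by
  unfold co
  rw [map_sum, map_sum]

/-- `r^h (Φ - Φ(0,0))` as a sum of products, with its double series. -/
theorem mid_products {h : ℕ} {T : ℂ → ℂ} {W : Fin (2 * h + 1) → ℂ → ℂ}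
    (H : LocD (2 * h) T W) (μ : ℂ) : ∃ (n : ℕ) (a b : Fin n → ℂ → ℂ),
      (∀ l, AnalyticAt ℂ (a l) 0) ∧ (∀ l, AnalyticAt ℂ (b l) 0) ∧
      (∀ u w, zf2 (2 * h) T W h u w - μ * (T u - cc T w) ^ h = ∑ l, a l u * b l w) ∧
      ∀ p q, cf a b p q = co p q (gcoR (2 * h) (inz (tay 0 T)) (inw (tay 0 (cc T)))
        (fun j => inz (tay 0 (W j)) - inw (tay 0 (cc (W j)))) h -
          inz (PowerSeries.C μ) * (inz (tay 0 T) - inw (tay 0 (cc T))) ^ h) := by
  have hT := H.T_an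
  have hT' := EV5_cc H.T_an
  obtain ⟨n, a, b, ha, hb, hab, hcf⟩ := gco_products (2 * h) H.T_an hT'
    H.W_an (fun j => EV5_cc (H.W_an j)) h
  have pa : ∀ m : ℕ, AnalyticAt ℂ (fun u => T u ^ m) 0 := fun m => hT.pow m
  have pn : AnalyticAt ℂ (fun w => -cc T w) 0 := hT'.neg
  have pb : ∀ m : ℕ, AnalyticAt ℂ (fun w => (-cc T w) ^ m) 0 := fun m => pn.pow m
  refine ⟨n + (h + 1), Fin.append a (fun (m : Fin (h + 1)) u => (-μ * (h.choose m : ℂ)) * T u ^ (m : ℕ)),
    Fin.append b (fun (m : Fin (h + 1)) w => (-cc T w) ^ (h - (m : ℕ))), ?_, ?_, ?_, ?_⟩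
  · intro l
    refine Fin.addCases (fun l => ?_) (fun l => ?_) l
    · rw [Fin.append_left]
      exact ha l
    · rw [Fin.append_right]
      exact analyticAt_const.mul (pa l)
  · intro l
    refine Fin.addCases (fun l => ?_) (fun l => ?_) l
    · rw [Fin.append_left]
      exact hb l
    · rw [Fin.append_right]
      exact pb _
  · intro u w
    rw [Fin.sum_univ_add]
    simp only [Fin.append_left, Fin.append_right]
    rw [← hab]
    have h1 : zf2 (2 * h) T W h u w =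
      gco (2 * h) (T u) (cc T w) (fun j => W j u - cc (W j) w) h := rfl
    rw [h1, sub_eq_add_neg (T u), add_pow, Finset.sum_range, Finset.mul_sum, sub_eq_add_neg,
      ← Finset.sum_neg_distrib]
    congr 1
    apply Finset.sum_congr rfl
    intro m _
    ring
  · intro p q
    rw [EV5_co_sub, ← hcf]
    have h1 : inz (PowerSeries.C μ) * (inz (tay 0 T) - inw (tay 0 (cc T))) ^ h =
        ∑ m : Fin (h + 1), inz (PowerSeries.C (μ * (h.choose m : ℂ)) * tay 0 T ^ (m : ℕ)) *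
          inw ((-tay 0 (cc T)) ^ (h - (m : ℕ))) := by
      rw [sub_eq_add_neg, add_pow, Finset.sum_range, Finset.mul_sum]
      apply Finset.sum_congr rfl
      intro m _
      rw [map_mul, map_mul, map_mul, map_pow, map_pow, map_neg, map_natCast, map_natCast]
      ring
    rw [h1, EV5_co_sum]
    unfold cf
    rw [Fin.sum_univ_add]
    simp only [Fin.append_left, Fin.append_right]
    rw [sub_eq_add_neg, ← Finset.sum_neg_distrib]
    congr 1
    apply Finset.sum_congr rfl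
    intro m _
    rw [EV5_co, tay_mul analyticAt_const (pa m), tay_const, EV5_pow hT, EV5_pow pn, EV5_neg hT']
    rw [neg_mul, map_neg, neg_mul, map_neg, neg_mul]

theorem EV6_pow {f : ℂ → ℂ} (hf : AnalyticAt ℂ f 0) (n : ℕ) :
    tay 0 (fun z => f z ^ n) = tay 0 f ^ n := by
  induction n with
  | zero =>
    simp only [pow_zero]
    rw [tay_const, map_one]
  | succ n ih =>
    have h1 : (fun z => f z ^ (n + 1)) = fun z => f z ^ n * f z := by
      funext z
      rw [pow_succ]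
    have h2 : AnalyticAt ℂ (fun z => f z ^ n) 0 := hf.pow n
    rw [h1, tay_mul h2 hf, ih, pow_succ]

theorem EV6_neg {f : ℂ → ℂ} (hf : AnalyticAt ℂ f 0) :
    tay 0 (fun z => -f z) = -tay 0 f := by
  have h1 : (fun z => -f z) = fun z => (-1 : ℂ) * f z := by
    funext z
    ring
  rw [h1, tay_mul analyticAt_const hf, tay_const]
  simp

theorem EV6_frm {R : Type*} [CommRing R] (k : ℕ) (s t : R) (j : Fin (k + 1)) :
    frm k s t k j = (-s) ^ (k - (j : ℕ)) * (k.choose j : R) := by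
  unfold frm
  rw [Nat.sub_self, pow_zero, mul_one, sub_eq_add_neg, ← Polynomial.C_neg,
    Polynomial.coeff_X_add_C_pow]

theorem EV6_conv {R : Type*} [CommRing R] (a : R → R) (h1 : ∀ x y, a (x + y) = a x + a y)
    (h2 : ∀ x y, a (x * y) = x * a y + y * a x) : ∃ D : Derivation ℤ R R, ∀ x, D x = a x := by
  refine ⟨Derivation.mk' (AddMonoidHom.mk' a h1).toIntLinearMap ?_, fun x => rfl⟩
  intro x y
  exact h2 x y

theorem EV6_cc {f : ℂ → ℂ} (hf : AnalyticAt ℂ f 0) : AnalyticAt ℂ (cc f) 0 := by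
  rw [Complex.analyticAt_iff_eventually_differentiableAt] at hf ⊢
  have hc : Tendsto (fun z : ℂ => conj z) (𝓝 0) (𝓝 0) := by
    have := Complex.continuous_conj.tendsto (0 : ℂ)
    rwa [map_zero] at this
  filter_upwards [hc.eventually hf] with z hz
  exact differentiableAt_conj_conj_iff.2 hz

theorem EV6_deriv_cc (f : ℂ → ℂ) : deriv (cc f) = cc (deriv f) := by
  have h : cc f = (starRingEnd ℂ : ℂ → ℂ) ∘ f ∘ (starRingEnd ℂ : ℂ → ℂ) := rfl
  rw [h, deriv_conj_conj]
  rfl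

theorem EV6_iter_cc (f : ℂ → ℂ) (n : ℕ) : iteratedDeriv n (cc f) = cc (iteratedDeriv n f) := by
  induction n with
  | zero => rw [iteratedDeriv_zero, iteratedDeriv_zero]
  | succ n ih => rw [iteratedDeriv_succ, ih, EV6_deriv_cc, iteratedDeriv_succ]

theorem EV6_tay_cc (f : ℂ → ℂ) (p : ℕ) :
    PowerSeries.coeff p (tay 0 (cc f)) = conj (PowerSeries.coeff p (tay 0 f)) := by
  unfold tay
  rw [PowerSeries.coeff_mk, PowerSeries.coeff_mk, EV6_iter_cc, map_div₀, map_natCast]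
  unfold cc
  rw [map_zero]

/-- A derivative as a series. -/
theorem EV6_W {T G V : ℂ → ℂ} (hT : AnalyticAt ℂ T 0) (hG : AnalyticAt ℂ G 0) {n c : ℕ}
    (h : ∀ᶠ u in 𝓝 (0 : ℂ), deriv V u = G u * ((-T u) ^ n * (c : ℂ))) :
    PowerSeries.derivative ℂ (tay 0 V) = tay 0 G * ((-tay 0 T) ^ n * (c : PowerSeries ℂ)) := by
  have a1 : AnalyticAt ℂ (fun z => -T z) 0 := hT.neg
  have a2 : AnalyticAt ℂ (fun z => (-T z) ^ n) 0 := a1.pow _
  have a3 : AnalyticAt ℂ (fun _ : ℂ => (c : ℂ)) 0 := analyticAt_const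
  have a4 : AnalyticAt ℂ (fun z => (-T z) ^ n * (c : ℂ)) 0 := a2.mul a3
  rw [← tay_deriv, tay_congr h, tay_mul hG a4, tay_mul a2 a3, EV6_pow a1, EV6_neg hT, tay_const,
    map_natCast]

/-- The constant term as a ring homomorphism. -/
noncomputable def EV6_ev : R2 →+* ℂ :=
  (PowerSeries.constantCoeff (R := ℂ)).comp (PowerSeries.constantCoeff (R := PowerSeries ℂ))

theorem EV6_co (f : R2) : co 0 0 f = EV6_ev f := by
  unfold co EV6_ev
  rw [PowerSeries.coeff_zero_eq_constantCoeff_apply,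
      PowerSeries.coeff_zero_eq_constantCoeff_apply]
  rfl

theorem EV6_co_sub (f g : R2) (p q : ℕ) : co p q (f - g) = co p q f - co p q g := by
  unfold co
  rw [map_sub, map_sub]

theorem EV6_co_mul (f g : R2) (p q : ℕ) : co p q (f * g) =
    ∑ x ∈ Finset.HasAntidiagonal.antidiagonal q, ∑ y ∈ Finset.HasAntidiagonal.antidiagonal p, co y.1 x.1 f * co y.2 x.2 g := by
  unfold co
  rw [PowerSeries.coeff_mul, map_sum]
  apply Finset.sum_congr rfl
  intro x _
  rw [PowerSeries.coeff_mul]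

/-- The lowest form of a product. -/
theorem EV6_low (A : R2) {Ψ : R2} {d : ℕ} (h : ∀ p q, p + q < d → co p q Ψ = 0) {p q : ℕ}
    (hpq : p + q ≤ d) : co p q (A * Ψ) = EV6_ev A * co p q Ψ := by
  rw [EV6_co_mul, ← EV6_co]
  rw [Finset.sum_eq_single (0, q)]
  · rw [Finset.sum_eq_single (0, p)]
    · intro y hy hne
      have h1 := Finset.HasAntidiagonal.mem_antidiagonal.1 hy
      have h2 : y.2 < p := by
        rcases Nat.eq_zero_or_pos y.1 with h3 | h3
        · exfalso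
          apply hne
          ext
          · exact h3
          · show y.2 = p
            omega
        · omega
      rw [h y.2 q (by omega), mul_zero]
    · intro h1
      exact absurd (Finset.HasAntidiagonal.mem_antidiagonal.2 (zero_add p)) h1
  · intro x hx hne
    have h1 := Finset.HasAntidiagonal.mem_antidiagonal.1 hx
    have h2 : x.2 < q := by
      rcases Nat.eq_zero_or_pos x.1 with h3 | h3
      · exfalso
        apply hne
        ext
        · exact h3
        · show x.2 = q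
          omega
      · omega
    apply Finset.sum_eq_zero
    intro y hy
    have h3 := Finset.HasAntidiagonal.mem_antidiagonal.1 hy
    rw [h y.2 x.2 (by omega), mul_zero]
  · intro h1
    exact absurd (Finset.HasAntidiagonal.mem_antidiagonal.2 (zero_add q)) h1

/-- The equation for the middle component of the local data. -/
theorem EV6_eq {h : ℕ} (hh : 1 ≤ h) {T : ℂ → ℂ} {W : Fin (2 * h + 1) → ℂ → ℂ}
    (H : LocD (2 * h) T W) {Dz Dw : Derivation ℤ R2 R2} (hD : Pder Dz Dw) : ∃ Φ : R2,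
    co 0 0 (inz (tay 0 T) - inw (tay 0 (cc T))) ≠ 0 ∧
    gcoR (2 * h) (inz (tay 0 T)) (inw (tay 0 (cc T)))
        (fun j => inz (tay 0 (W j)) - inw (tay 0 (cc (W j)))) h =
      (inz (tay 0 T) - inw (tay 0 (cc T))) ^ h * Φ ∧
    (inz (tay 0 T) - inw (tay 0 (cc T))) ^ 2 * Dz (Dw Φ) =
      -((h * (h + 1) : ℕ) : R2) * Dz (inz (tay 0 T)) * Dw (inw (tay 0 (cc T))) * Φ := by
  have hu := (H.formal hD (show h ≤ 2 * h by omega) rfl).1
  set s : R2 := inz (tay 0 T) with hs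
  set t : R2 := inw (tay 0 (cc T)) with ht
  have hunit : IsUnit (s - t) := by
    rw [PowerSeries.isUnit_iff_constantCoeff, PowerSeries.isUnit_iff_constantCoeff,
      isUnit_iff_ne_zero]
    rw [EV6_co] at hu
    exact hu
  obtain ⟨ri, hri⟩ := hunit.exists_right_inv
  obtain ⟨f, hf0, hf⟩ := frm_span (2 * h) hunit
    (fun j => inz (tay 0 (W j)) - inw (tay 0 (cc (W j))))
  refine ⟨(s - t) ^ h * f h, hu, ?_, ?_⟩
  · rw [gcoR_frm (2 * h) hf (show h ≤ 2 * h by omega), two_mul, pow_add]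
    ring
  have hW : ∀ j : Fin (2 * h + 1), ∀ᶠ u in 𝓝 (0 : ℂ), deriv (W j) u =
      deriv (W (Fin.last (2 * h))) u * ((-T u) ^ (2 * h - (j : ℕ)) * ((2 * h).choose j : ℂ)) := by
    intro j
    filter_upwards [H.trans] with u hu
    obtain ⟨g, hg⟩ := hu
    have h2 := hg (Fin.last (2 * h))
    rw [EV6_frm] at h2
    simp only [Fin.val_last, Nat.sub_self, pow_zero, Nat.choose_self, Nat.cast_one, mul_one] at h2
    rw [h2, hg j, EV6_frm]
  have hc : Tendsto (fun z : ℂ => conj z) (𝓝 0) (𝓝 0) := by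
    have := Complex.continuous_conj.tendsto (0 : ℂ)
    rwa [map_zero] at this
  have hW' : ∀ j : Fin (2 * h + 1), ∀ᶠ u in 𝓝 (0 : ℂ), deriv (cc (W j)) u =
      cc (deriv (W (Fin.last (2 * h)))) u *
        ((-cc T u) ^ (2 * h - (j : ℕ)) * ((2 * h).choose j : ℂ)) := by
    intro j
    filter_upwards [hc.eventually (hW j)] with u hu
    rw [EV6_deriv_cc]
    show conj (deriv (W j) (conj u)) = conj (deriv (W (Fin.last (2 * h))) (conj u)) *
        ((-conj (T (conj u))) ^ (2 * h - (j : ℕ)) * ((2 * h).choose j : ℂ))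
    rw [hu, map_mul, map_mul, map_pow, map_neg, map_natCast]
  have hg := (H.W_an (Fin.last (2 * h))).deriv
  obtain ⟨D1, hD1⟩ := EV6_conv (fun x : R2 => Dz x) (fun x y => map_add Dz x y)
    (fun x y => Dz.leibniz x y)
  obtain ⟨D2, hD2⟩ := EV6_conv (fun x : R2 => Dw x) (fun x y => map_add Dw x y)
    (fun x y => Dw.leibniz x y)
  have key := mid_eq h hri D1 D2 (V := fun j => inz (tay 0 (W j)))
    (V' := fun j => inw (tay 0 (cc (W j)))) (g := inz (tay 0 (deriv (W (Fin.last (2 * h))))))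
    (g' := inw (tay 0 (cc (deriv (W (Fin.last (2 * h))))))) (f := f)
    (by simp only [hD1, hD2]; exact hD.comm)
    (by simp only [hD2]; exact hD.wz _) (by simp only [hD1]; exact hD.zw _)
    (by
      intro j
      simp only [hD1]
      rw [hD.zz, EV6_W H.T_an hg (hW j), EV6_frm, map_mul, map_mul, map_pow, map_neg, map_natCast])
    (by intro j; simp only [hD2]; exact hD.wz _)
    (by
      intro j
      simp only [hD2]
      rw [hD.ww, EV6_W (EV6_cc H.T_an) (EV6_cc hg) (hW' j), EV6_frm, map_mul, map_mul, map_pow,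
        map_neg, map_natCast])
    (by intro j; simp only [hD1]; exact hD.zw _)
    (by simp only [hD2]; exact hD.wz _) (by simp only [hD1]; exact hD.zw _)
    (hf0 _ (Nat.lt_succ_self _)) hf hh
  simp only [hD1, hD2] at key
  exact key

theorem EV6_sum {d e : ℕ} (hd : 1 ≤ d) {c : ℕ → ℂ} {M : ℂ}
    (hc : ∀ q, 0 < q → q < d → c q = if q = e + 1 then M else 0) (hM : d ≠ 2 * (e + 1) → M = 0)
    (x : ℂ) : ∑ q ∈ Finset.range (d + 1), c q * x ^ (d - q) * conj x ^ q =
      c 0 * x ^ d + c d * conj x ^ d + M * x ^ (e + 1) * conj x ^ (e + 1) := by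
  rw [Finset.sum_range_succ, Finset.sum_range_eq_add_Ico _ hd]
  have h1 : ∑ q ∈ Finset.Ico 1 d, c q * x ^ (d - q) * conj x ^ q =
      M * x ^ (e + 1) * conj x ^ (e + 1) := by
    by_cases h2 : d = 2 * (e + 1)
    · rw [Finset.sum_eq_single (e + 1)]
      · rw [hc (e + 1) (by omega) (by omega), if_pos rfl, h2]
        congr 3
        omega
      · intro q hq hne
        have h3 := Finset.mem_Ico.1 hq
        rw [hc q (by omega) h3.2, if_neg hne]
        ring
      · intro h3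
        exact absurd (Finset.mem_Ico.2 ⟨by omega, by omega⟩) h3
    · rw [hM h2]
      rw [Finset.sum_eq_zero]
      · ring
      · intro q hq
        have h3 := Finset.mem_Ico.1 hq
        rw [hc q (by omega) h3.2, hM h2, ite_self]
        ring
  rw [h1]
  simp only [Nat.sub_zero, pow_zero, mul_one, Nat.sub_self]
  ring

theorem EV6_evz (f : PowerSeries ℂ) : EV6_ev (inz f) = PowerSeries.constantCoeff f := by
  unfold EV6_ev inz
  simp

theorem EV6_evw (f : PowerSeries ℂ) : EV6_ev (inw f) = PowerSeries.constantCoeff f := by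
  unfold EV6_ev inw
  rw [RingHom.comp_apply, ← PowerSeries.coeff_zero_eq_constantCoeff_apply,
    ← PowerSeries.coeff_zero_eq_constantCoeff_apply, PowerSeries.coeff_map,
    PowerSeries.coeff_C, if_pos rfl, PowerSeries.coeff_zero_eq_constantCoeff_apply]

theorem EV6_coC (μ : ℂ) {p q : ℕ} (h : 0 < p + q) : co p q (inz (PowerSeries.C μ)) = 0 := by
  unfold co inz
  rw [PowerSeries.coeff_C]
  by_cases hq : q = 0
  · rw [if_pos hq, PowerSeries.coeff_C, if_neg (by omega)]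
  · rw [if_neg hq, map_zero]

theorem EV6_cf {n : ℕ} (a b : Fin n → ℂ → ℂ) : cf a b 0 0 = ∑ l, a l 0 * b l 0 := by
  unfold cf tay
  simp

theorem EV6_alg {d e : ℕ} (hd : 1 ≤ d) {A B M c : ℂ} (hc : c ≠ 0)
    (hP : ∀ x : ℂ, ∃ v : ℝ, 0 ≤ v ∧
      A * x ^ d + B * conj x ^ d + M * x ^ (e + 1) * conj x ^ (e + 1) = c * (v : ℂ)) :
    ∃ v : ℝ, 0 ≤ v ∧ 2 * M = c * (v : ℂ) ∧ (M = 0 → A = 0 ∧ B = 0) := by
  obtain ⟨ω, hω⟩ := IsAlgClosed.exists_pow_nat_eq (-1 : ℂ) (n := d) hd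
  have hn : ‖ω‖ = 1 := by
    have h1 : ‖ω‖ ^ d = 1 := by rw [← norm_pow, hω, norm_neg, norm_one]
    exact (pow_eq_one_iff_of_nonneg (norm_nonneg _) (by omega)).1 h1
  have hωc : ω * conj ω = 1 := by
    rw [Complex.mul_conj, Complex.normSq_eq_norm_sq, hn]
    norm_num
  have hωd : conj ω ^ d = -1 := by
    rw [← map_pow, hω, map_neg, map_one]
  have hsum : ∀ x : ℂ, ∃ v v' : ℝ, 0 ≤ v ∧ 0 ≤ v' ∧
      A * x ^ d + B * conj x ^ d + M * x ^ (e + 1) * conj x ^ (e + 1) = c * (v : ℂ) ∧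
      2 * (M * x ^ (e + 1) * conj x ^ (e + 1)) = c * ((v + v' : ℝ) : ℂ) := by
    intro x
    obtain ⟨v, hv, e1⟩ := hP x
    obtain ⟨v', hv', e2⟩ := hP (ω * x)
    refine ⟨v, v', hv, hv', e1, ?_⟩
    rw [map_mul, mul_pow, mul_pow, mul_pow, mul_pow, hω, hωd] at e2
    have h3 : M * (ω ^ (e + 1) * x ^ (e + 1)) * (conj ω ^ (e + 1) * conj x ^ (e + 1)) =
        M * x ^ (e + 1) * conj x ^ (e + 1) := by
      have h4 : ω ^ (e + 1) * conj ω ^ (e + 1) = 1 := by rw [← mul_pow, hωc, one_pow]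
      linear_combination M * x ^ (e + 1) * conj x ^ (e + 1) * h4
    rw [h3] at e2
    push_cast
    linear_combination e1 + e2
  obtain ⟨v, v', hv, hv', e1, e2⟩ := hsum 1
  rw [map_one, one_pow, mul_one, mul_one] at e2
  refine ⟨v + v', add_nonneg hv hv', e2, fun hM => ?_⟩
  have hz : ∀ x : ℂ, A * x ^ d + B * conj x ^ d = 0 := by
    intro x
    obtain ⟨v, v', hv, hv', e1, e2⟩ := hsum x
    rw [hM] at e1 e2
    simp only [zero_mul, mul_zero, add_zero] at e1 e2
    have h1 : v + v' = 0 := by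
      rcases mul_eq_zero.1 e2.symm with h2 | h2
      · exact absurd h2 hc
      · exact_mod_cast h2
    have h2 : v = 0 := by linarith
    rw [e1, h2]
    simp
  obtain ⟨ζ, hζ⟩ := IsAlgClosed.exists_pow_nat_eq Complex.I (n := d) hd
  have f1 := hz 1
  have f2 := hz ζ
  rw [← map_pow, hζ, Complex.conj_I] at f2
  rw [map_one, one_pow, mul_one, mul_one] at f1
  have f3 : A = 0 := by
    have h1 : 2 * A = 0 := by
      linear_combination f1 - Complex.I * f2 + (A - B) * Complex.I_sq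
    simpa using h1
  refine ⟨f3, ?_⟩
  rw [f3, zero_add] at f1
  exact f1

/-- No negative local minimum. -/
theorem LocD.no_neg_min {h : ℕ} (hh : 1 ≤ h) {T : ℂ → ℂ} {W : Fin (2 * h + 1) → ℂ → ℂ}
    (H : LocD (2 * h) T W) (hneg : mF (2 * h) (T 0) (fun j => W j 0) < 0)
    (hmin : ∀ᶠ u in 𝓝 (0 : ℂ),
      mF (2 * h) (T 0) (fun j => W j 0) ≤ mF (2 * h) (T u) (fun j => W j u)) : False := by
  have hdiv : 2 * h / 2 = h := Nat.mul_div_cancel_left h two_pos
  have h2I : (2 * Complex.I : ℂ) ≠ 0 := mul_ne_zero two_ne_zero Complex.I_ne_zero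
  have hcc : ∀ (f : ℂ → ℂ) (u : ℂ), cc f (conj u) = conj (f u) := by
    intro f u
    unfold cc
    rw [Complex.conj_conj]
  have hz2 : ∀ (i : ℕ) (u : ℂ), zf2 (2 * h) T W i u (conj u) = zf (2 * h) T W i u := by
    intro i u
    unfold zf2 zf
    simp only [hcc]
  set F0 : ℝ := mF (2 * h) (T 0) (fun j => W j 0) with hF0
  have hy : 0 < (T 0).im := H.T_im
  set μ : ℂ := (2 * Complex.I) ^ (h + 1) * (F0 : ℂ) with hμ
  have hμ0 : μ ≠ 0 := by
    refine mul_ne_zero (pow_ne_zero _ h2I) ?_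
    exact_mod_cast hneg.ne
  obtain ⟨Dz, Dw, hD⟩ := exists_pder
  obtain ⟨Φ, hr, hG, hEq⟩ := EV6_eq hh H hD
  obtain ⟨n, a, b, ha, hb, hab, hcf⟩ := mid_products H μ
  have hsub : ∀ u : ℂ, T u - conj (T u) = 2 * Complex.I * ((T u).im : ℂ) := by
    intro u
    rw [Complex.sub_conj]
    push_cast
    ring
  have hspec : ∀ᶠ u in 𝓝 (0 : ℂ), zf (2 * h) T W h u =
      (2 * Complex.I) ^ (2 * h + 1) * (((T u).im ^ h : ℝ) : ℂ) *
        (mF (2 * h) (T u) (fun j => W j u) : ℂ) := by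
    have hc : ContinuousAt (fun u => (T u).im) 0 :=
      Complex.continuous_im.continuousAt.comp H.T_an.continuousAt
    filter_upwards [hc.eventually (lt_mem_nhds H.T_im)] with u hu
    have h1 := mF_spec (even_two_mul h) hu (fun j => W j u)
    rw [hdiv] at h1
    unfold zf
    rw [h1]
    push_cast
    ring
  have hKspec : ∀ᶠ u in 𝓝 (0 : ℂ), ∑ l, a l u * b l (conj u) =
      (2 * Complex.I) ^ (2 * h + 1) * (((T u).im ^ h : ℝ) : ℂ) *
        ((mF (2 * h) (T u) (fun j => W j u) - F0 : ℝ) : ℂ) := by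
    filter_upwards [hspec] with u hu
    rw [← hab, hz2, hu, hcc, hsub, hμ]
    push_cast
    ring
  have hevr : EV6_ev (inz (tay 0 T) - inw (tay 0 (cc T))) =
      2 * Complex.I * ((T 0).im : ℂ) := by
    rw [map_sub, EV6_evz, EV6_evw, ← hsub]
    unfold tay
    have h1 : cc T 0 = conj (T 0) := by
      have := hcc T 0
      rwa [map_zero] at this
    simp [h1]
  set r : R2 := inz (tay 0 T) - inw (tay 0 (cc T)) with hrdef
  have hK : gcoR (2 * h) (inz (tay 0 T)) (inw (tay 0 (cc T)))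
        (fun j => inz (tay 0 (W j)) - inw (tay 0 (cc (W j)))) h -
          inz (PowerSeries.C μ) * r ^ h = r ^ h * (Φ - inz (PowerSeries.C μ)) := by
    rw [hG]
    ring
  have hevr0 : EV6_ev r ≠ 0 := by
    rw [← EV6_co]
    exact hr
  have hΨ0 : co 0 0 (Φ - inz (PowerSeries.C μ)) = 0 := by
    have h1 := hcf 0 0
    rw [EV6_cf, hK, EV6_co, map_mul, map_pow] at h1
    have h2 := hKspec.self_of_nhds
    rw [map_zero, h1, sub_self] at h2
    simp only [Complex.ofReal_zero, mul_zero] at h2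
    rcases mul_eq_zero.1 h2 with h3 | h3
    · exact absurd h3 (pow_ne_zero _ hevr0)
    · rw [EV6_co]
      exact h3
  have hevΦ : co 0 0 Φ = μ := by
    have h1 := hΨ0
    rw [EV6_co_sub, sub_eq_zero] at h1
    rw [h1, EV6_co, EV6_evz]
    simp
  -- order of the derivative of the period
  have hTd : PowerSeries.derivative ℂ (tay 0 T) ≠ 0 := by
    rw [← tay_deriv]
    intro h0
    have h1 := (tay_eq_zero H.T_an.deriv).1 h0
    have h2 : ∀ᶠ u in 𝓝[≠] (0 : ℂ), deriv T u = 0 := nhdsWithin_le_nhds h1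
    obtain ⟨u, hu1, hu2⟩ := (H.T_nc.and h2).exists
    exact hu1 hu2
  have hex : ∃ p, PowerSeries.coeff p (PowerSeries.derivative ℂ (tay 0 T)) ≠ 0 := by
    by_contra hcon
    push Not at hcon
    apply hTd
    ext p
    rw [hcon p, map_zero]
  obtain ⟨e, he1, he2⟩ : ∃ e, PowerSeries.coeff e (PowerSeries.derivative ℂ (tay 0 T)) ≠ 0 ∧
      ∀ p < e, PowerSeries.coeff p (PowerSeries.derivative ℂ (tay 0 T)) = 0 := by
    classical
    refine ⟨Nat.find hex, Nat.find_spec hex, fun p hp => ?_⟩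
    have := Nat.find_min hex hp
    push Not at this
    exact this
  set α : ℂ := PowerSeries.coeff e (PowerSeries.derivative ℂ (tay 0 T)) with hα
  have hconj : ∀ p, PowerSeries.coeff p (PowerSeries.derivative ℂ (tay 0 (cc T))) =
      conj (PowerSeries.coeff p (PowerSeries.derivative ℂ (tay 0 T))) := by
    intro p
    rw [← tay_deriv, EV6_deriv_cc, EV6_tay_cc, tay_deriv]
  have hκ : 0 < h * (h + 1) := Nat.mul_pos hh (Nat.succ_pos h)
  obtain ⟨d, hd1, hd2, hlow, ⟨p0, q0, hpq0, hne0⟩, hmix, hM⟩ :=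
    mid_lowest hD hκ hr hEq (by rw [hevΦ]; exact hμ0) he2 hα.symm he1
      (e := e) (β := conj α) (fun p hp => by rw [hconj, he2 p hp, map_zero])
      (by rw [hconj]) (by rw [Ne, map_eq_zero]; exact he1)
  have hΨ : ∀ p q, 0 < p + q → co p q (Φ - inz (PowerSeries.C μ)) = co p q Φ := by
    intro p q hpq
    rw [EV6_co_sub, EV6_coC μ hpq, sub_zero]
  have hΨlow : ∀ p q, p + q < d → co p q (Φ - inz (PowerSeries.C μ)) = 0 := by
    intro p q hpq
    rcases Nat.eq_zero_or_pos (p + q) with h1 | h1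
    · obtain ⟨rfl, rfl⟩ : p = 0 ∧ q = 0 := by omega
      exact hΨ0
    · rw [hΨ p q h1]
      exact hlow p q h1 hpq
  have hcfd : ∀ p q, p + q ≤ d → cf a b p q = (2 * Complex.I * ((T 0).im : ℂ)) ^ h *
      co p q (Φ - inz (PowerSeries.C μ)) := by
    intro p q hpq
    rw [hcf, hK, EV6_low _ hΨlow hpq, map_pow, hevr]
  have hform := form_nonneg ha hb (d := d)
    (fun p q hpq => by rw [hcfd p q hpq.le, hΨlow p q hpq, mul_zero])
    (G := fun u => mF (2 * h) (T u) (fun j => W j u) - F0)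
    (y := fun u => (T u).im ^ h) (c := (2 * Complex.I) ^ (2 * h + 1)) (pow_ne_zero _ h2I)
    hKspec ((Complex.continuous_im.continuousAt.comp H.T_an.continuousAt).pow h)
    (pow_pos H.T_im h) (hmin.mono fun u hu => sub_nonneg.2 hu)
  set M : ℂ := if d = 2 * (e + 1) then co (e + 1) (e + 1) Φ else 0 with hMdef
  have hP : ∀ x : ℂ, ∃ v : ℝ, 0 ≤ v ∧
      co d 0 Φ * x ^ d + co 0 d Φ * conj x ^ d + M * x ^ (e + 1) * conj x ^ (e + 1) =
        (2 * Complex.I) ^ (h + 1) * (v : ℂ) := by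
    intro x
    obtain ⟨v, hv, e1⟩ := hform x
    refine ⟨v, hv, ?_⟩
    have h1 : ∑ q ∈ Finset.range (d + 1), cf a b (d - q) q * x ^ (d - q) * conj x ^ q =
        (2 * Complex.I * ((T 0).im : ℂ)) ^ h *
        ∑ q ∈ Finset.range (d + 1), co (d - q) q Φ * x ^ (d - q) * conj x ^ q := by
      rw [Finset.mul_sum]
      apply Finset.sum_congr rfl
      intro q hq
      have hq' := Finset.mem_range.1 hq
      rw [hcfd (d - q) q (by omega), hΨ _ _ (by omega)]
      ring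
    have h2 := EV6_sum (e := e) (M := M) hd1 (c := fun q => co (d - q) q Φ) (by
      intro q hq1 hq2
      by_cases h3 : (d - q, q) = (e + 1, e + 1)
      · have h4 : d - q = e + 1 ∧ q = e + 1 := by simpa using h3
        show co (d - q) q Φ = _
        rw [h4.1, if_pos h4.2, hMdef, if_pos (by omega), h4.2]
      · show co (d - q) q Φ = _
        rw [hmix (d - q) q (by omega) (by omega) hq1 h3]
        by_cases h4 : q = e + 1
        · rw [if_pos h4, hMdef, if_neg]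
          intro h5
          apply h3
          ext
          · show d - q = e + 1
            omega
          · exact h4
        · rw [if_neg h4]) (by
      intro h3
      rw [hMdef, if_neg h3]) x
    simp only [Nat.sub_zero, Nat.sub_self] at h2
    rw [h1, h2] at e1
    have h5 : (2 * Complex.I * ((T 0).im : ℂ)) ^ h ≠ 0 := by
      refine pow_ne_zero _ (mul_ne_zero h2I ?_)
      exact_mod_cast hy.ne'
    apply mul_left_cancel₀ h5
    rw [e1]
    push_cast
    ring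
  obtain ⟨v, hv, e1, e2⟩ := EV6_alg hd1 (pow_ne_zero (h + 1) h2I) hP
  by_cases hde : d = 2 * (e + 1)
  · have h3 := hM hde
    rw [hMdef, if_pos hde, h3, hevΦ, EV6_co, hevr, hμ] at e1
    have hyc : ((T 0).im : ℂ) ≠ 0 := by exact_mod_cast hy.ne'
    have hec : ((e : ℂ) + 1) ≠ 0 := by exact_mod_cast Nat.succ_ne_zero e
    have h4 : ((2 * ((h * (h + 1) : ℕ) : ℝ) * Complex.normSq α * F0 /
        (4 * (T 0).im ^ 2 * ((e : ℝ) + 1) ^ 2) : ℝ) : ℂ) = (v : ℂ) := by
      apply mul_left_cancel₀ (pow_ne_zero (h + 1) h2I)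
      rw [← e1]
      push_cast
      rw [← Complex.mul_conj]
      field_simp
      rw [Complex.I_sq]
      ring
    have h5 : 2 * ((h * (h + 1) : ℕ) : ℝ) * Complex.normSq α * F0 /
        (4 * (T 0).im ^ 2 * ((e : ℝ) + 1) ^ 2) = v := by exact_mod_cast h4
    have h6 : 0 < ((h * (h + 1) : ℕ) : ℝ) := by exact_mod_cast hκ
    have h7 : 0 < Complex.normSq α := Complex.normSq_pos.2 he1
    have h8 : 2 * ((h * (h + 1) : ℕ) : ℝ) * Complex.normSq α * F0 /
        (4 * (T 0).im ^ 2 * ((e : ℝ) + 1) ^ 2) < 0 := by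
      apply div_neg_of_neg_of_pos
      · have : 0 < 2 * ((h * (h + 1) : ℕ) : ℝ) * Complex.normSq α := by positivity
        exact mul_neg_of_pos_of_neg this hneg
      · positivity
    linarith
  · have hM0 : M = 0 := by rw [hMdef, if_neg hde]
    obtain ⟨f1, f2⟩ := e2 hM0
    apply hne0
    rcases Nat.eq_zero_or_pos p0 with h3 | h3
    · have h4 : q0 = d := by omega
      rw [h3, h4]
      exact f2
    · rcases Nat.eq_zero_or_pos q0 with h5 | h5
      · have h4 : p0 = d := by omega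
        rw [h5, h4]
        exact f1
      · apply hmix p0 q0 hpq0 h3 h5
        intro h6
        have h7 : p0 = e + 1 ∧ q0 = e + 1 := by simpa using h6
        omega

theorem EV7_pow {f : ℂ → ℂ} (hf : AnalyticAt ℂ f 0) (n : ℕ) :
    tay 0 (fun z => f z ^ n) = tay 0 f ^ n := by
  induction n with
  | zero =>
    simp only [pow_zero]
    rw [tay_const, map_one]
  | succ n ih =>
    have h1 : (fun z => f z ^ (n + 1)) = fun z => f z ^ n * f z := by
      funext z
      rw [pow_succ]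
    have h2 : AnalyticAt ℂ (fun z => f z ^ n) 0 := hf.pow n
    rw [h1, tay_mul h2 hf, ih, pow_succ]

theorem EV7_neg {f : ℂ → ℂ} (hf : AnalyticAt ℂ f 0) :
    tay 0 (fun z => -f z) = -tay 0 f := by
  have h1 : (fun z => -f z) = fun z => (-1 : ℂ) * f z := by
    funext z
    ring
  rw [h1, tay_mul analyticAt_const hf, tay_const]
  simp

theorem EV7_frm {R : Type*} [CommRing R] (k : ℕ) (s t : R) (j : Fin (k + 1)) :
    frm k s t k j = (-s) ^ (k - (j : ℕ)) * (k.choose j : R) := by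
  unfold frm
  rw [Nat.sub_self, pow_zero, mul_one, sub_eq_add_neg, ← Polynomial.C_neg,
    Polynomial.coeff_X_add_C_pow]

theorem EV7_conv {R : Type*} [CommRing R] (a : R → R) (h1 : ∀ x y, a (x + y) = a x + a y)
    (h2 : ∀ x y, a (x * y) = x * a y + y * a x) : ∃ D : Derivation ℤ R R, ∀ x, D x = a x := by
  refine ⟨Derivation.mk' (AddMonoidHom.mk' a h1).toIntLinearMap ?_, fun x => rfl⟩
  intro x y
  exact h2 x y

/-- The derivative of the extension period as a series. -/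
theorem EV7_W {k : ℕ} {T : ℂ → ℂ} {W : Fin (k + 1) → ℂ → ℂ} (H : LocD k T W)
    (j : Fin (k + 1)) :
    PowerSeries.derivative ℂ (tay 0 (W j)) = tay 0 (deriv (W (Fin.last k))) *
      ((-tay 0 T) ^ (k - (j : ℕ)) * (k.choose j : PowerSeries ℂ)) := by
  have hT := H.T_an
  have hg := (H.W_an (Fin.last k)).deriv
  have h1 : ∀ᶠ u in 𝓝 (0 : ℂ), deriv (W j) u = deriv (W (Fin.last k)) u *
      ((-T u) ^ (k - (j : ℕ)) * (k.choose j : ℂ)) := by
    filter_upwards [H.trans] with u hu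
    obtain ⟨g, hg⟩ := hu
    have h2 := hg (Fin.last k)
    rw [EV7_frm] at h2
    simp only [Fin.val_last, Nat.sub_self, pow_zero, Nat.choose_self, Nat.cast_one, mul_one] at h2
    rw [h2, hg j, EV7_frm]
  have a1 : AnalyticAt ℂ (fun z => -T z) 0 := hT.neg
  have a2 : AnalyticAt ℂ (fun z => (-T z) ^ (k - (j : ℕ))) 0 := a1.pow _
  have a3 : AnalyticAt ℂ (fun _ : ℂ => (k.choose j : ℂ)) 0 := analyticAt_const
  have a4 : AnalyticAt ℂ (fun z => (-T z) ^ (k - (j : ℕ)) * (k.choose j : ℂ)) 0 := a2.mul a3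
  rw [← tay_deriv, tay_congr h1, tay_mul hg a4, tay_mul a2 a3, EV7_pow a1, EV7_neg hT, tay_const,
    map_natCast]

/-- The constant term as a ring homomorphism. -/
noncomputable def EV7_ev : R2 →+* ℂ :=
  (PowerSeries.constantCoeff (R := ℂ)).comp (PowerSeries.constantCoeff (R := PowerSeries ℂ))

theorem EV7_co (f : R2) : co 0 0 f = EV7_ev f := by
  unfold co EV7_ev
  rw [PowerSeries.coeff_zero_eq_constantCoeff_apply,
      PowerSeries.coeff_zero_eq_constantCoeff_apply]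
  rfl

theorem EV7_first {k : ℕ} {T : ℂ → ℂ} {W : Fin (k + 1) → ℂ → ℂ} (H : LocD k T W) {i : ℕ}
    (hi : i < k) (h00 : co 0 0 (gcoR k (inz (tay 0 T)) (inw (tay 0 (cc T)))
        (fun j => inz (tay 0 (W j)) - inw (tay 0 (cc (W j)))) i) = 0)
    (h10 : co 1 0 (gcoR k (inz (tay 0 T)) (inw (tay 0 (cc T)))
        (fun j => inz (tay 0 (W j)) - inw (tay 0 (cc (W j)))) i) = 0) :
    deriv T 0 = 0 ∨ co 0 0 (gcoR k (inz (tay 0 T)) (inw (tay 0 (cc T)))
        (fun j => inz (tay 0 (W j)) - inw (tay 0 (cc (W j)))) (i + 1)) = 0 := by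
  obtain ⟨Dz, Dw, hD⟩ := exists_pder
  have hu := (H.formal hD hi.le rfl).1
  set s : R2 := inz (tay 0 T) with hs
  set t : R2 := inw (tay 0 (cc T)) with ht
  have hunit : IsUnit (s - t) := by
    rw [PowerSeries.isUnit_iff_constantCoeff, PowerSeries.isUnit_iff_constantCoeff,
      isUnit_iff_ne_zero]
    rw [EV7_co] at hu
    exact hu
  obtain ⟨ri, hri⟩ := hunit.exists_right_inv
  obtain ⟨f, hf0, hf⟩ := frm_span k hunit
    (fun j => inz (tay 0 (W j)) - inw (tay 0 (cc (W j))))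
  have hc : ∀ j : Fin (k + 1), Dz (inz (tay 0 (W j)) - inw (tay 0 (cc (W j))))
      = ∑ l ∈ Finset.range (k + 1),
        (if l = k then inz (tay 0 (deriv (W (Fin.last k)))) else 0) * frm k s t l j := by
    intro j
    rw [Finset.sum_eq_single k]
    · rw [if_pos rfl, map_sub, hD.zz, hD.zw, sub_zero, EV7_W H, EV7_frm, map_mul, map_mul,
        map_pow, map_neg, map_natCast]
    · intro l _ hl
      rw [if_neg hl, zero_mul]
    · intro h
      exact absurd (Finset.mem_range.2 (Nat.lt_succ_self k)) h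
  obtain ⟨D', hD'⟩ := EV7_conv (fun x : R2 => Dz x) (fun x y => map_add Dz x y)
    (fun x y => Dz.leibniz x y)
  simp only [← hD'] at hc
  have hder := frm_deriv k hri D' (hf0 (k + 1) (Nat.lt_succ_self k)) hf hc hi.le
  have hlz : Dz ((s - t) ^ k * f i) = (s - t) ^ k * Dz (f i) + f i * Dz ((s - t) ^ k) :=
    Dz.leibniz _ _
  simp only [hD'] at hder
  have hDt : Dz t = 0 := hD.zw _
  rw [hDt, if_neg (by omega : ¬ i = k)] at hder
  rw [gcoR_frm k hf hi.le] at h00 h10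
  have h1 := gcoR_frm k hf (show i + 1 ≤ k by omega)
  rw [h1]
  rw [EV7_co] at h00 hu ⊢
  have hf00 : EV7_ev (f i) = 0 := by
    rw [map_mul, map_pow] at h00
    rcases mul_eq_zero.1 h00 with h2 | h2
    · exact absurd h2 (pow_ne_zero _ hu)
    · exact h2
  have h2 := hD.z ((s - t) ^ k * f i) 0 0
  rw [h10, mul_zero, EV7_co] at h2
  have h3 : EV7_ev ((s - t) ^ k * Dz (f i) + f i * Dz ((s - t) ^ k)) = 0 := by
    rw [← hlz]
    exact h2
  rw [map_add, map_mul, map_mul, hf00, zero_mul, add_zero, map_pow] at h3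
  rcases mul_eq_zero.1 h3 with h4 | h4
  · exact absurd h4 (pow_ne_zero _ hu)
  rw [hder] at h4
  simp only [zero_mul, add_zero, zero_add, map_mul, map_sub, map_natCast, hf00, mul_zero,
    sub_zero] at h4
  have hri0 : EV7_ev ri ≠ 0 := by
    intro h
    have h5 := congrArg EV7_ev hri
    rw [map_mul, h, mul_zero, map_one] at h5
    exact zero_ne_one h5
  rcases mul_eq_zero.1 h4 with h5 | h5
  · rcases mul_eq_zero.1 h5 with h6 | h6
    · left
      rw [hs, hD.zz, ← tay_deriv, ← EV7_co] at h6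
      unfold co inz tay at h6
      simpa using h6
    · exact absurd h6 hri0
  · right
    rcases mul_eq_zero.1 h5 with h6 | h6
    · exact absurd h6 (Nat.cast_ne_zero.2 (Nat.succ_ne_zero i))
    · rw [map_mul, h6, mul_zero]

theorem EV7_cc {f : ℂ → ℂ} (hf : AnalyticAt ℂ f 0) : AnalyticAt ℂ (cc f) 0 := by
  rw [Complex.analyticAt_iff_eventually_differentiableAt] at hf ⊢
  have hc : Tendsto (fun z : ℂ => conj z) (𝓝 0) (𝓝 0) := by
    have := Complex.continuous_conj.tendsto (0 : ℂ)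
    rwa [map_zero] at this
  filter_upwards [hc.eventually hf] with z hz
  exact differentiableAt_conj_conj_iff.2 hz

theorem EV7_cf {n : ℕ} (a b : Fin n → ℂ → ℂ) : cf a b 0 0 = ∑ l, a l 0 * b l 0 := by
  unfold cf tay
  simp

/-- At a zero of a nonnegative middle component the period is critical or the next component
vanishes. -/
theorem LocD.zero_min {h : ℕ} (hh : 1 ≤ h) {T : ℂ → ℂ} {W : Fin (2 * h + 1) → ℂ → ℂ}
    (H : LocD (2 * h) T W) (h0 : mF (2 * h) (T 0) (fun j => W j 0) = 0)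
    (hmin : ∀ᶠ u in 𝓝 (0 : ℂ), 0 ≤ mF (2 * h) (T u) (fun j => W j u)) :
    deriv T 0 = 0 ∨ zf (2 * h) T W (h + 1) 0 = 0 := by
  have hdiv : 2 * h / 2 = h := Nat.mul_div_cancel_left h two_pos
  have hcc : ∀ (f : ℂ → ℂ) (u : ℂ), cc f (conj u) = conj (f u) := by
    intro f u
    unfold cc
    rw [Complex.conj_conj]
  have hz2 : ∀ (i : ℕ) (u : ℂ), zf2 (2 * h) T W i u (conj u) = zf (2 * h) T W i u := by
    intro i u
    unfold zf2 zf
    simp only [hcc]
  obtain ⟨n, a, b, ha, hb, hab, hcf⟩ := mid_products H 0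
  simp only [zero_mul, sub_zero, map_zero] at hab hcf
  have hspec : ∀ᶠ u in 𝓝 (0 : ℂ), zf (2 * h) T W h u =
      (2 * Complex.I) ^ (2 * h + 1) * (((T u).im ^ h : ℝ) : ℂ) *
        (mF (2 * h) (T u) (fun j => W j u) : ℂ) := by
    have hc : ContinuousAt (fun u => (T u).im) 0 :=
      Complex.continuous_im.continuousAt.comp H.T_an.continuousAt
    filter_upwards [hc.eventually (lt_mem_nhds H.T_im)] with u hu
    have h1 := mF_spec (even_two_mul h) hu (fun j => W j u)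
    rw [hdiv] at h1
    unfold zf
    rw [h1]
    push_cast
    ring
  have hz0 : zf (2 * h) T W h 0 = 0 := by
    rw [hspec.self_of_nhds, h0]
    simp
  have h00 : cf a b 0 0 = 0 := by
    rw [EV7_cf, ← hab]
    have := hz2 h 0
    rw [map_zero] at this
    rw [this, hz0]
  have hlow : ∀ p q, p + q < 1 → cf a b p q = 0 := by
    intro p q hpq
    obtain ⟨rfl, rfl⟩ : p = 0 ∧ q = 0 := by omega
    exact h00
  have hform := form_nonneg ha hb hlow (G := fun u => mF (2 * h) (T u) (fun j => W j u))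
    (y := fun u => (T u).im ^ h) (c := (2 * Complex.I) ^ (2 * h + 1))
    (pow_ne_zero _ (mul_ne_zero two_ne_zero Complex.I_ne_zero))
    (by
      filter_upwards [hspec] with u hu
      rw [← hab, hz2, hu])
    ((Complex.continuous_im.continuousAt.comp H.T_an.continuousAt).pow h)
    (pow_pos H.T_im h) hmin
  have hzero : ∀ x : ℂ, cf a b 1 0 * x + cf a b 0 1 * conj x = 0 := by
    intro x
    obtain ⟨v, hv, e⟩ := hform x
    obtain ⟨v', hv', e'⟩ := hform (-x)
    simp only [Finset.sum_range_succ, Finset.sum_range_zero, zero_add, Nat.sub_zero, pow_one,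
      pow_zero, mul_one, Nat.sub_self, map_neg] at e e'
    have h1 : (2 * Complex.I) ^ (2 * h + 1) * (((T 0).im ^ h : ℝ) : ℂ) * ((v + v' : ℝ) : ℂ) = 0 := by
      push_cast at e e' ⊢
      linear_combination -e - e'
    have h2 : ((2 * Complex.I) ^ (2 * h + 1) * (((T 0).im ^ h : ℝ) : ℂ)) ≠ 0 := by
      refine mul_ne_zero (pow_ne_zero _ (mul_ne_zero two_ne_zero Complex.I_ne_zero)) ?_
      exact_mod_cast (pow_pos H.T_im h).ne'
    have h3 : v + v' = 0 := by
      rcases mul_eq_zero.1 h1 with h4 | h4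
      · exact absurd h4 h2
      · exact_mod_cast h4
    have h4 : v = 0 := by linarith
    rw [h4] at e
    simpa using e
  have h10 : cf a b 1 0 = 0 := by
    have e1 := hzero 1
    have e2 := hzero Complex.I
    rw [map_one] at e1
    rw [Complex.conj_I] at e2
    have e3 : (2 * Complex.I) * cf a b 1 0 = 0 := by linear_combination Complex.I * e1 + e2
    rcases mul_eq_zero.1 e3 with h4 | h4
    · exact absurd h4 (mul_ne_zero two_ne_zero Complex.I_ne_zero)
    · exact h4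
  rw [hcf] at h00 h10
  rcases EV7_first H (show h < 2 * h by omega) h00 h10 with h1 | h1
  · exact Or.inl h1
  · right
    obtain ⟨n', a', b', -, -, hab', hcf'⟩ := gco_products (2 * h) H.T_an (EV7_cc H.T_an)
      H.W_an (fun j => EV7_cc (H.W_an j)) (h + 1)
    rw [← hcf', EV7_cf, ← hab'] at h1
    have h2 := hz2 (h + 1) 0
    rw [map_zero] at h2
    rw [← h2]
    exact h1

end Min

/-! ## The middle component on the curve -/

section Glob
variable {k : ℕ} {X : Curve}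

theorem EV8_zc (V : Variation k X) (z : ℍ) {i : ℕ} (hi : i ≤ k) :
    V.zc i z = (((V.τ z : ℂ) - conj (V.τ z : ℂ)) ^ k * (2 * Complex.I)) * V.comp z ⟨i, by omega⟩ := by
  have h1 := (V.comp_spec z).1
  have h2 : ∀ j, V.v z j - conj (V.v z j) = ∑ l ∈ Finset.range (k + 1),
      (if h : l < k + 1 then (fun i => 2 * Complex.I * V.comp z i) ⟨l, h⟩ else 0) *
        frm k (V.τ z : ℂ) (conj (V.τ z : ℂ)) l j := by
    intro j
    rw [Finset.sum_range, Complex.sub_conj]
    have h3 := congrFun h1 j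
    rw [Finset.sum_apply] at h3
    simp only [Pi.smul_apply, smul_eq_mul] at h3
    push_cast
    rw [h3, Finset.mul_sum, Finset.sum_mul]
    apply Finset.sum_congr rfl
    intro i _
    rw [dif_pos i.2]
    change 2 * (V.comp z i * form k (V.τ z) (conj (V.τ z : ℂ)) i j) * Complex.I
      = 2 * Complex.I * V.comp z i * form k (V.τ z) (conj (V.τ z : ℂ)) i j
    ring
  have h4 := gcoR_frm k h2 hi
  unfold Variation.zc
  rw [gco_eq_gcoR, h4, dif_pos (Nat.lt_succ_of_le hi)]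
  ring

theorem Variation.middle_eq (V : Variation k X) (hk : Even k) (z : ℍ) :
    V.middle z = mF k (V.τ z) (V.v z) ∧ (V.middle z = 0 ↔ V.zc (k / 2) z = 0) := by
  have hi : k / 2 ≤ k := Nat.div_le_self k 2
  have hy : (V.τ z : ℂ) - conj (V.τ z : ℂ) ≠ 0 := by
    intro h0
    have h1 := congrArg Complex.im h0
    have h2 := (V.τ z).im_pos
    simp only [Complex.sub_im, Complex.conj_im, Complex.zero_im] at h1
    have h3 : ((V.τ z : ℂ)).im = (V.τ z).im := rfl
    linarith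
  have hz := EV8_zc V z hi
  have h1 : V.middle z = mF k (V.τ z) (V.v z) := by
    unfold Variation.middle mF
    have h2 : gco k (V.τ z) (conj (V.τ z : ℂ)) (fun j => V.v z j - conj (V.v z j)) (k / 2) =
      V.zc (k / 2) z := rfl
    rw [h2, hz, mul_div_cancel_left₀]
    · rfl
    · exact mul_ne_zero (pow_ne_zero _ hy) (mul_ne_zero two_ne_zero Complex.I_ne_zero)
  refine ⟨h1, ?_⟩
  have h3 := mF_spec hk (V.τ z).im_pos (V.v z)
  have h4 : V.zc (k / 2) z = (mF k (V.τ z) (V.v z) : ℂ) *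
      ((2 * Complex.I) ^ (k + 1) * (((V.τ z : ℂ)).im : ℂ) ^ (k / 2)) := h3
  rw [h1, h4]
  have hy2 : (((V.τ z : ℂ)).im : ℂ) ≠ 0 := by
    exact_mod_cast (V.τ z).im_pos.ne'
  rw [mul_eq_zero]
  constructor
  · intro h
    left
    rw [h]
    rfl
  · intro h
    rcases h with h | h
    · exact_mod_cast h
    · exfalso
      exact mul_ne_zero (pow_ne_zero _ (mul_ne_zero two_ne_zero Complex.I_ne_zero))
        (pow_ne_zero _ hy2) h

theorem Variation.middle_smul (V : Variation k X) (hk : Even k) (g : X.P) (z : ℍ) :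
    V.middle ((g : SL(2, ℝ)) • z) = V.middle z := by
  rw [(V.middle_eq hk _).1, (V.middle_eq hk _).1, V.τ_equiv, V.v_equiv]
  have h := mF_smul hk (V.ρ g) (s := V.τ z) (s' := (V.ρ g • V.τ z : ℍ)) (V.τ z).im_pos ?_
    (V.v z) (fun j => (V.c g j : ℝ))
  · rw [← h]
    simp
  · have hd : ((V.ρ g 1 0 : ℤ) : ℂ) * (V.τ z : ℂ) + ((V.ρ g 1 1 : ℤ) : ℂ) ≠ 0 := by
      have := UpperHalfPlane.denom_ne_zero (V.ρ g : GL (Fin 2) ℝ) (V.τ z)
      simpa [UpperHalfPlane.denom] using this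
    rw [coe_specialLinearGroup_apply]
    simp only [algebraMap_int_eq, eq_intCast, Complex.ofReal_intCast]
    rw [div_mul_cancel₀ _ hd]

theorem EV9_unif (S : Finset ℕ) (P : ℕ → ℂ → Prop)
    (h : ∀ m ∈ S, ∃ Y : ℝ, ∀ ζ : ℂ, Y < ζ.im → P m ζ) :
    ∃ Y : ℝ, ∀ m ∈ S, ∀ ζ : ℂ, Y < ζ.im → P m ζ := by
  classical
  induction S using Finset.induction_on with
  | empty => exact ⟨0, by simp⟩
  | insert a S ha ih =>
    obtain ⟨Y1, h1⟩ := ih fun m hm => h m (Finset.mem_insert_of_mem hm)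
    obtain ⟨Y2, h2⟩ := h a (Finset.mem_insert_self a S)
    refine ⟨max Y1 Y2, fun m hm ζ hζ => ?_⟩
    rcases Finset.mem_insert.1 hm with rfl | hm
    · exact h2 ζ (lt_of_le_of_lt (le_max_right _ _) hζ)
    · exact h1 m hm ζ (lt_of_le_of_lt (le_max_left _ _) hζ)

theorem EV9_sub_conj (s : ℂ) : s - conj s = 2 * Complex.I * (s.im : ℂ) := by
  apply Complex.ext
  · simp
  · simp
    ring

theorem EV9_norm (s : ℂ) (hs : 0 < s.im) : ‖s - conj s‖ = 2 * s.im := by
  rw [EV9_sub_conj]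
  simp [abs_of_pos hs]

/-- The algebraic estimate. -/
theorem EV9_est (h : ℕ) (hh : 1 ≤ h) {rr : ℝ} {s : ℂ} (hs : 0 < s.im) (ht : 1 ≤ ‖s - conj s‖)
    {A : ℂ} {u : ℕ → ℂ} {p : Fin (2 * h + 1) → ℂ} {ε : ℝ} (hε : 0 ≤ ε)
    (hu : ∀ m ∈ Finset.range (h + 1), ‖u m‖ ≤ ε) (hte : ‖s - conj s‖⁻¹ ≤ ε)
    (hg : gco (2 * h) s (conj s) (fun j => p j - conj (p j)) h =
      ((rr / ((2 * h : ℕ) + 1) : ℝ) : ℂ) * (s - conj s) ^ (2 * h + 1) + A +
      ∑ m ∈ Finset.range (h + 1),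
        (-1) ^ (h - m) * ((2 * h - m).choose (h - m) : ℂ) * u m * (s - conj s) ^ m -
      (-1) ^ h * ∑ m ∈ Finset.range (2 * h - h + 1),
        ((2 * h - m).choose h : ℂ) * conj (u m) * (s - conj s) ^ m) :
    |mF (2 * h) s p - rr / ((2 * h : ℕ) + 1) * s.im ^ (h + 1)| ≤
      (‖A‖ + 2 ^ (2 * h + 1) * (h + 1)) * ε := by
  set t : ℝ := ‖s - conj s‖ with ht_def
  have ht2 : t = 2 * s.im := EV9_norm s hs
  have ht0 : 0 < t := by linarith
  have hne : s - conj s ≠ 0 := by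
    rw [← norm_pos_iff]; exact ht0
  have hhh : 2 * h - h + 1 = h + 1 := by omega
  rw [hhh] at hg
  set B : ℂ := ∑ m ∈ Finset.range (h + 1),
        (-1) ^ (h - m) * ((2 * h - m).choose (h - m) : ℂ) * u m * (s - conj s) ^ m -
      (-1) ^ h * ∑ m ∈ Finset.range (h + 1),
        ((2 * h - m).choose h : ℂ) * conj (u m) * (s - conj s) ^ m with hB
  have hg2 : gco (2 * h) s (conj s) (fun j => p j - conj (p j)) h =
      ((rr / ((2 * h : ℕ) + 1) : ℝ) : ℂ) * (s - conj s) ^ (2 * h + 1) + (A + B) := by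
    rw [hg, hB]; ring
  have hh2 : 2 * h / 2 = h := by omega
  have hmain : mF (2 * h) s p = rr / ((2 * h : ℕ) + 1) * s.im ^ (h + 1) +
      s.im ^ h * ((A + B) / ((s - conj s) ^ (2 * h) * (2 * Complex.I))).re := by
    unfold mF
    rw [hh2, hg2, add_div, Complex.add_re, mul_add]
    congr 1
    have e1 : ((rr / ((2 * h : ℕ) + 1) : ℝ) : ℂ) * (s - conj s) ^ (2 * h + 1) /
        ((s - conj s) ^ (2 * h) * (2 * Complex.I)) =
        ((rr / ((2 * h : ℕ) + 1) * s.im : ℝ) : ℂ) := by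
      have hp : (s - conj s) ^ (2 * h) ≠ 0 := pow_ne_zero _ hne
      rw [pow_succ, div_eq_iff (mul_ne_zero hp (by simp [Complex.I_ne_zero]))]
      rw [show (s - conj s) ^ (2 * h) * (s - conj s) = (s - conj s) ^ (2 * h) *
        (2 * Complex.I * (s.im : ℂ)) by rw [← EV9_sub_conj]]
      push_cast
      ring
    rw [e1, Complex.ofReal_re]
    ring
  rw [hmain, add_sub_cancel_left]
  have hB1 : ‖B‖ ≤ 2 ^ (2 * h + 1) * (h + 1) * ε * t ^ h := by
    have hch : ∀ m ∈ Finset.range (h + 1), ∀ c : ℕ, ((2 * h - m).choose c : ℝ) ≤ 2 ^ (2 * h) := by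
      intro m _ c
      have h1 : (2 * h - m).choose c ≤ 2 ^ (2 * h - m) := Nat.choose_le_two_pow _ _
      have h2 : 2 ^ (2 * h - m) ≤ 2 ^ (2 * h) := Nat.pow_le_pow_right (by norm_num) (by omega)
      exact_mod_cast h1.trans h2
    have hterm : ∀ m ∈ Finset.range (h + 1), ∀ c : ℕ,
        ((2 * h - m).choose c : ℝ) * ‖u m‖ * t ^ m ≤ 2 ^ (2 * h) * ε * t ^ h := by
      intro m hm c
      have hm' : m ≤ h := by
        have := Finset.mem_range.1 hm
        omega
      have h1 := hch m hm c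
      have h2 := hu m hm
      have h3 : t ^ m ≤ t ^ h := pow_le_pow_right₀ ht hm'
      have h4 : (0 : ℝ) ≤ t ^ m := by positivity
      gcongr
    have hs1 : ‖∑ m ∈ Finset.range (h + 1),
        (-1) ^ (h - m) * ((2 * h - m).choose (h - m) : ℂ) * u m * (s - conj s) ^ m‖ ≤
        (h + 1) * (2 ^ (2 * h) * ε * t ^ h) := by
      refine (norm_sum_le _ _).trans ?_
      have : ∑ m ∈ Finset.range (h + 1), (2 ^ (2 * h) * ε * t ^ h : ℝ) =
          (h + 1) * (2 ^ (2 * h) * ε * t ^ h) := by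
        simp
      rw [← this]
      refine Finset.sum_le_sum fun m hm => ?_
      have := hterm m hm (h - m)
      simpa [norm_mul, norm_pow] using this
    have hs2 : ‖∑ m ∈ Finset.range (h + 1),
        ((2 * h - m).choose h : ℂ) * conj (u m) * (s - conj s) ^ m‖ ≤
        (h + 1) * (2 ^ (2 * h) * ε * t ^ h) := by
      refine (norm_sum_le _ _).trans ?_
      have : ∑ m ∈ Finset.range (h + 1), (2 ^ (2 * h) * ε * t ^ h : ℝ) =
          (h + 1) * (2 ^ (2 * h) * ε * t ^ h) := by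
        simp
      rw [← this]
      refine Finset.sum_le_sum fun m hm => ?_
      have := hterm m hm h
      simpa [norm_mul, norm_pow] using this
    have hs3 : ‖(-1 : ℂ) ^ h * ∑ m ∈ Finset.range (h + 1),
        ((2 * h - m).choose h : ℂ) * conj (u m) * (s - conj s) ^ m‖ ≤
        (h + 1) * (2 ^ (2 * h) * ε * t ^ h) := by
      rw [norm_mul, norm_pow, norm_neg, norm_one, one_pow, one_mul]
      exact hs2
    calc ‖B‖ ≤ _ := norm_sub_le _ _
      _ ≤ (h + 1) * (2 ^ (2 * h) * ε * t ^ h) + (h + 1) * (2 ^ (2 * h) * ε * t ^ h) :=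
        add_le_add hs1 hs3
      _ = 2 ^ (2 * h + 1) * (h + 1) * ε * t ^ h := by ring
  have hre : |((A + B) / ((s - conj s) ^ (2 * h) * (2 * Complex.I))).re| ≤
      (‖A‖ + ‖B‖) / (t ^ (2 * h) * 2) := by
    refine (Complex.abs_re_le_norm _).trans ?_
    rw [norm_div, norm_mul, norm_pow, norm_mul, Complex.norm_I]
    simp only [Complex.norm_ofNat, mul_one]
    gcongr
    exact norm_add_le _ _
  rw [abs_mul, abs_of_pos (pow_pos hs h)]
  have hy : s.im ^ h ≤ t ^ h := by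
    have : s.im ≤ t := by rw [ht2]; linarith
    exact pow_le_pow_left₀ hs.le this h
  have h1 : s.im ^ h * |((A + B) / ((s - conj s) ^ (2 * h) * (2 * Complex.I))).re| ≤
      t ^ h * ((‖A‖ + ‖B‖) / (t ^ (2 * h) * 2)) :=
    mul_le_mul hy hre (abs_nonneg _) (by positivity)
  refine h1.trans ?_
  have hth : (0 : ℝ) < t ^ h := by positivity
  have e2 : t ^ h * ((‖A‖ + ‖B‖) / (t ^ (2 * h) * 2)) = (‖A‖ + ‖B‖) / (t ^ h * 2) := by
    rw [two_mul, pow_add]
    field_simp
  rw [e2, div_le_iff₀ (by positivity)]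
  have h2 : ‖A‖ ≤ ‖A‖ * ε * t ^ h := by
    have h3 : 1 ≤ ε * t := by
      have := mul_le_mul_of_nonneg_right hte ht0.le
      rwa [inv_mul_cancel₀ ht0.ne'] at this
    have h4 : t ≤ t ^ h := by
      calc t = t ^ 1 := (pow_one t).symm
        _ ≤ t ^ h := pow_le_pow_right₀ ht hh
    have h5 : 1 ≤ ε * t ^ h := h3.trans (mul_le_mul_of_nonneg_left h4 hε)
    calc ‖A‖ = ‖A‖ * 1 := (mul_one _).symm
      _ ≤ ‖A‖ * (ε * t ^ h) := mul_le_mul_of_nonneg_left h5 (norm_nonneg _)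
      _ = _ := by ring
  have h6 : 0 ≤ (‖A‖ + 2 ^ (2 * h + 1) * (h + 1)) * ε * t ^ h := by positivity
  nlinarith [h2, hB1, h6]

/-- If the middle component is bounded below then it is asymptotically nonnegative at the infinite
punctures. -/
theorem Variation.middle_end (V : Variation k X) (hk : Even k) (hk1 : 1 ≤ k) (hns : ¬ V.Split)
    {C : ℝ} (hC : ∀ z, C ≤ V.middle z) {s : ℂ → ℍ} {Y : ℝ} (hE : X.IsEnd s Y)
    (E : EndForm V s Y) (hm : 0 < E.m) {ε : ℝ} (hε : 0 < ε) :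
    ∃ Y' : ℝ, ∀ ζ : ℂ, Y' < ζ.im → -ε ≤ V.middle (s ζ) := by
  obtain ⟨c, Y1, H⟩ := V.cuspD hk1 hns hE E hm
  obtain ⟨Y2, rr, N, c₀, u, hY12, HN⟩ := H.nform
  obtain ⟨h, rfl⟩ : ∃ h, k = 2 * h := by
    obtain ⟨h, hh⟩ := hk
    exact ⟨h, by omega⟩
  have hh : 1 ≤ h := by omega
  set T : ℂ → ℂ := fun ζ => ((E.M • V.τ (s ζ) : ℍ) : ℂ) with hT
  set W : Fin (2 * h + 1) → ℂ → ℂ :=
    fun j ζ => ((act (2 * h) E.M).map (algebraMap ℚ ℂ) *ᵥ V.v (s ζ)) j with hW
  have hTim : ∀ ζ, 0 < (T ζ).im := fun ζ => (E.M • V.τ (s ζ) : ℍ).im_pos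
  -- the middle component in terms of T and W
  have hmid : ∀ ζ, V.middle (s ζ) = mF (2 * h) (T ζ) (fun j => W j ζ) := by
    intro ζ
    rw [(V.middle_eq hk (s ζ)).1]
    have h1 := mF_smul hk E.M (s := (V.τ (s ζ) : ℂ)) (s' := T ζ) (V.τ (s ζ)).im_pos
      (by
        have h2 : T ζ = ((E.M 0 0 : ℂ) * (V.τ (s ζ) : ℂ) + E.M 0 1) /
            ((E.M 1 0 : ℂ) * (V.τ (s ζ) : ℂ) + E.M 1 1) := by
          simp only [hT]
          rw [UpperHalfPlane.specialLinearGroup_apply]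
          simp
        have h3 : (E.M 1 0 : ℂ) * (V.τ (s ζ) : ℂ) + E.M 1 1 ≠ 0 := by
          have := UpperHalfPlane.denom_ne_zero (E.M : GL (Fin 2) ℝ) (V.τ (s ζ))
          simpa [UpperHalfPlane.denom] using this
        rw [h2, div_mul_cancel₀ _ h3])
      (V.v (s ζ)) (0 : Fin (2 * h + 1) → ℝ)
    rw [← h1]
    congr 1
    funext j
    simp [hW]
  -- the key estimate
  set A : ℂ := (c₀ - conj c₀) * (-1) ^ h * ((2 * h).choose h : ℂ) with hA
  have key : ∀ η : ℝ, 0 < η → ∃ Y' : ℝ, ∀ ζ : ℂ, Y' < ζ.im →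
      η⁻¹ < ‖T ζ - conj (T ζ)‖ ∧
      |V.middle (s ζ) - rr / ((2 * h : ℕ) + 1) * (T ζ).im ^ (h + 1)| ≤ η := by
    intro η hη
    set K : ℝ := ‖A‖ + 2 ^ (2 * h + 1) * (h + 1) with hK
    have hK0 : 0 < K := by positivity
    set δ : ℝ := min (min 1 η) (η / K) with hδ
    have hδ0 : 0 < δ := by positivity
    obtain ⟨Y3, hY3⟩ := EV9_unif (Finset.range (h + 1))
      (fun m ζ => δ⁻¹ < ‖T ζ - conj (T ζ)‖ ∧
        ‖u m (ee (ζ / E.n))‖ * ‖T ζ - conj (T ζ)‖ ^ 0 ≤ δ)
      (fun m _ => small_at_cusp H.hn H.hm H.F_an H.hT (HN.u_an m) (HN.u_zero m) 0 hδ0)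
    refine ⟨max Y2 Y3, fun ζ hζ => ?_⟩
    have hζ2 : Y2 < ζ.im := lt_of_le_of_lt (le_max_left _ _) hζ
    have hζ3 : Y3 < ζ.im := lt_of_le_of_lt (le_max_right _ _) hζ
    have h0 := hY3 0 (by simp) ζ hζ3
    have ht1 : 1 ≤ ‖T ζ - conj (T ζ)‖ := by
      have : (1 : ℝ) ≤ δ⁻¹ := by
        rw [one_le_inv₀ hδ0]
        exact (min_le_left _ _).trans (min_le_left _ _)
      linarith [h0.1]
    have hin : ‖T ζ - conj (T ζ)‖⁻¹ ≤ δ := by
      rw [inv_le_comm₀ (by linarith) hδ0]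
      exact h0.1.le
    refine ⟨lt_of_le_of_lt ?_ h0.1, ?_⟩
    · exact inv_anti₀ hδ0 ((min_le_left _ _).trans (min_le_right _ _))
    · rw [hmid ζ]
      have hgn := gco_nform (2 * h) HN.hN (c₀ := c₀) (u := fun j => u j (ee (ζ / E.n)))
        (hTim ζ) (HN.eq ζ hζ2) (i := h) (by omega)
      have hest := EV9_est h hh (rr := rr) (hTim ζ) ht1 (A := A)
        (u := fun j => u j (ee (ζ / E.n))) (p := fun j => W j ζ) hδ0.le
        (fun m hm => by simpa using (hY3 m hm ζ hζ3).2) hin (by rw [hgn])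
      refine hest.trans ?_
      calc K * δ ≤ K * (η / K) := mul_le_mul_of_nonneg_left (min_le_right _ _) hK0.le
        _ = η := by field_simp
  -- the residue is nonnegative
  have hrr : 0 ≤ rr := by
    by_contra hneg
    push Not at hneg
    have hk0 : (0 : ℝ) < ((2 * h : ℕ) : ℝ) + 1 := by positivity
    set D : ℝ := (1 + |C|) * (((2 * h : ℕ) : ℝ) + 1) / (-rr) + 1 with hD
    have hD1 : 1 ≤ D := by
      have : 0 ≤ (1 + |C|) * (((2 * h : ℕ) : ℝ) + 1) / (-rr) := by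
        apply div_nonneg (by positivity)
        linarith
      linarith
    obtain ⟨Y4, hY4⟩ := key (min 1 (2 * D)⁻¹) (by positivity)
    have h5 := hY4 (((Y4 + 1 : ℝ) : ℂ) * Complex.I) (by simp)
    set ζ : ℂ := ((Y4 + 1 : ℝ) : ℂ) * Complex.I with hζ
    obtain ⟨h6, h7⟩ := h5
    have h8 : 2 * D ≤ (min 1 (2 * D)⁻¹)⁻¹ := by
      have : min 1 (2 * D)⁻¹ ≤ (2 * D)⁻¹ := min_le_right _ _
      have h9 := inv_anti₀ (by positivity : (0 : ℝ) < min 1 (2 * D)⁻¹) this
      rwa [inv_inv] at h9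
    have h10 : D < (T ζ).im := by
      have := EV9_norm (T ζ) (hTim ζ)
      linarith
    have h11 : V.middle (s ζ) ≤ rr / ((2 * h : ℕ) + 1) * (T ζ).im ^ (h + 1) + 1 := by
      have := (abs_le.1 h7).2
      have h12 : min 1 (2 * D)⁻¹ ≤ (1 : ℝ) := min_le_left _ _
      linarith
    have h13 : (T ζ).im ≤ (T ζ).im ^ (h + 1) := by
      calc (T ζ).im = (T ζ).im ^ 1 := (pow_one _).symm
        _ ≤ (T ζ).im ^ (h + 1) := pow_le_pow_right₀ (by linarith) (by omega)
    have h14 : rr / ((2 * h : ℕ) + 1) * (T ζ).im ^ (h + 1) ≤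
        rr / ((2 * h : ℕ) + 1) * D := by
      apply mul_le_mul_of_nonpos_left (by linarith)
      exact div_nonpos_of_nonpos_of_nonneg hneg.le hk0.le
    have h15 : rr / ((2 * h : ℕ) + 1) * D = -(1 + |C|) + rr / ((2 * h : ℕ) + 1) := by
      rw [hD]
      have : rr ≠ 0 := hneg.ne
      field_simp
    have h16 : rr / ((2 * h : ℕ) + 1) < 0 := div_neg_of_neg_of_pos hneg hk0
    have h17 := hC (s ζ)
    have h18 := neg_abs_le C
    linarith
  obtain ⟨Y5, hY5⟩ := key ε hε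
  refine ⟨Y5, fun ζ hζ => ?_⟩
  have h1 := (abs_le.1 (hY5 ζ hζ).2).1
  have h2 : 0 ≤ rr / ((2 * h : ℕ) + 1) * (T ζ).im ^ (h + 1) := by
    have := hTim ζ
    positivity
  linarith

theorem EV10_norm_ee (z : ℂ) : ‖ee z‖ = Real.exp (-(2 * Real.pi * z.im)) := by
  unfold Pool.Agent.LibUB33.ee
  rw [Complex.norm_exp]
  congr 1
  simp [Complex.mul_re, Complex.mul_im]

theorem EV10_exists_log {w : ℂ} (hw : w ≠ 0) : ∃ ζ : ℂ, ee ζ = w := by
  have h2 : (2 * (Real.pi : ℂ) * Complex.I) ≠ 0 := Complex.two_pi_I_ne_zero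
  refine ⟨Complex.log w / (2 * Real.pi * Complex.I), ?_⟩
  unfold Pool.Agent.LibUB33.ee
  rw [mul_div_cancel₀ _ h2, Complex.exp_log hw]

theorem EV10_log_im {w ζ : ℂ} {Y : ℝ} (h : ee ζ = w) (hw : ‖w‖ < Real.exp (-(2 * Real.pi * Y))) :
    Y < ζ.im := by
  rw [← h, EV10_norm_ee] at hw
  have h3 := Real.exp_lt_exp.1 hw
  have hpi : (0 : ℝ) < 2 * Real.pi := by positivity
  nlinarith

theorem EV10_small {n : ℕ} (hn : 0 < n) (Y : ℝ) :
    ∀ᶠ u in 𝓝 (0 : ℂ), u ≠ 0 → ∃ ζ : ℂ, Y < ζ.im ∧ ee (ζ / n) = u := by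
  have hn' : (0 : ℝ) < n := by exact_mod_cast hn
  have hpos : 0 < Real.exp (-(2 * Real.pi * (Y / n))) := Real.exp_pos _
  filter_upwards [Metric.ball_mem_nhds (0 : ℂ) hpos] with u hu hu0
  rw [Metric.mem_ball, dist_zero_right] at hu
  obtain ⟨ζ, hζ⟩ := EV10_exists_log hu0
  have h1 := EV10_log_im hζ hu
  have hnC : (n : ℂ) ≠ 0 := by exact_mod_cast hn.ne'
  refine ⟨ζ * n, ?_, ?_⟩
  · have h2 : (ζ * n).im = ζ.im * n := by simp
    rw [h2, ← div_lt_iff₀ hn']
    exact h1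
  · rw [mul_div_cancel_right₀ _ hnC, hζ]

theorem EV10_tend {n : ℕ} (hn : 0 < n) {t : Set ℂ} (ht : t ∈ 𝓝 (0 : ℂ)) :
    ∃ Y : ℝ, ∀ ζ : ℂ, Y < ζ.im → ee (ζ / n) ∈ t := by
  have hn' : (0 : ℝ) < n := by exact_mod_cast hn
  obtain ⟨r, hr, hb⟩ := Metric.mem_nhds_iff.1 ht
  have hpi : (0 : ℝ) < 2 * Real.pi := by positivity
  refine ⟨n * (-Real.log r / (2 * Real.pi)), fun ζ hζ => hb ?_⟩
  rw [Metric.mem_ball, dist_zero_right, EV10_norm_ee]
  have h1 : (ζ / n).im = ζ.im / n := by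
    rw [Complex.div_natCast_im]
  rw [h1, ← Real.lt_log_iff_exp_lt hr]
  have h2 : -Real.log r / (2 * Real.pi) < ζ.im / n := by
    rw [lt_div_iff₀ hn', mul_comm]
    exact hζ
  rw [div_lt_iff₀ hpi] at h2
  linarith

theorem EV10_coeff_mul {α : Type*} [TopologicalSpace α] {a : α} {P Q : α → ℂ[X]}
    (hP : ∀ j, ContinuousAt (fun x => (P x).coeff j) a)
    (hQ : ∀ j, ContinuousAt (fun x => (Q x).coeff j) a) (j : ℕ) :
    ContinuousAt (fun x => (P x * Q x).coeff j) a := by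
  simp only [Polynomial.coeff_mul]
  exact tendsto_finsetSum _ fun i _ => (hP i.1).mul (hQ i.2)

theorem EV10_coeff_pow {α : Type*} [TopologicalSpace α] {a : α} {P : α → ℂ[X]}
    (hP : ∀ j, ContinuousAt (fun x => (P x).coeff j) a) (m : ℕ) (j : ℕ) :
    ContinuousAt (fun x => (P x ^ m).coeff j) a := by
  induction m generalizing j with
  | zero =>
    simp only [pow_zero]
    exact continuousAt_const
  | succ m ih =>
    simp only [pow_succ]
    exact EV10_coeff_mul ih hP j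

theorem EV10_gco {α : Type*} [TopologicalSpace α] {a : α} {k : ℕ} {s t : α → ℂ}
    {p : α → Fin (k + 1) → ℂ} (hs : ContinuousAt s a) (ht : ContinuousAt t a)
    (hp : ∀ j, ContinuousAt (fun x => p x j) a) (j : ℕ) :
    ContinuousAt (fun x => gco k (s x) (t x) (p x) j) a := by
  have h1 : ∀ i, ContinuousAt (fun x => (C (s x) - C (t x) * Polynomial.X : ℂ[X]).coeff i) a := by
    intro i
    simp only [Polynomial.coeff_sub, Polynomial.coeff_C, Polynomial.coeff_C_mul,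
      Polynomial.coeff_X]
    refine ContinuousAt.sub ?_ (ht.mul continuousAt_const)
    split_ifs
    · exact hs
    · exact continuousAt_const
  unfold gco
  refine tendsto_finsetSum _ fun m _ => (hp m).mul ?_
  exact EV10_coeff_mul (EV10_coeff_pow h1 _) (fun i => continuousAt_const) j

theorem EV10_mF {α : Type*} [TopologicalSpace α] {a : α} {k : ℕ} {s : α → ℂ}
    {p : α → Fin (k + 1) → ℂ} (hs : ContinuousAt s a) (hs0 : 0 < (s a).im)
    (hp : ∀ j, ContinuousAt (fun x => p x j) a) :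
    ContinuousAt (fun x => mF k (s x) (p x)) a := by
  have hc : ContinuousAt (fun x => conj (s x)) a := Complex.continuous_conj.continuousAt.comp hs
  unfold mF
  refine ContinuousAt.mul ((Complex.continuous_im.continuousAt.comp hs).pow _) ?_
  refine Complex.continuous_re.continuousAt.comp ?_
  refine ContinuousAt.div ?_ (((hs.sub hc).pow _).mul continuousAt_const) ?_
  · exact EV10_gco hs hc (fun j => (hp j).sub
      (Complex.continuous_conj.continuousAt.comp (hp j))) _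
  · refine mul_ne_zero (pow_ne_zero _ ?_) (mul_ne_zero two_ne_zero Complex.I_ne_zero)
    rw [Complex.sub_conj]
    refine mul_ne_zero ?_ Complex.I_ne_zero
    rw [Complex.ofReal_ne_zero]
    positivity

theorem EV10_mid_cont (V : Variation k X) (hk : Even k) : Continuous V.middle := by
  have h0 : V.middle = fun z : ℍ => mF k (V.tauC (z : ℂ)) (fun j => V.vC j (z : ℂ)) := by
    funext z
    rw [(V.middle_eq hk z).1]
    unfold Variation.tauC Variation.vC
    simp only [ofComplex_apply]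
  rw [h0, continuous_iff_continuousAt]
  intro z
  refine EV10_mF ((V.tauC_diff z.im_pos).1.continuousAt.comp continuous_coe.continuousAt)
    (V.tauC_diff z.im_pos).2 fun j => ?_
  exact (V.vC_diff j z.im_pos).continuousAt.comp
    (f := fun z : ℍ => (z : ℂ)) continuous_coe.continuousAt

theorem EV10_pt (V : Variation k X) (hk : Even k) (hk1 : 1 ≤ k) (hns : ¬ V.Split)
    {μ : ℝ} (hμ : ∀ z, μ ≤ V.middle z) (hneg : μ < 0) {z₀ : ℍ} (h0 : V.middle z₀ = μ) :
    ∃ (T : ℂ → ℂ) (W : Fin (k + 1) → ℂ → ℂ) (M : SL(2, ℤ)), Chart V T W M ∧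
      mF k (T 0) (fun j => W j 0) < 0 ∧
      ∀ᶠ u in 𝓝 (0 : ℂ), mF k (T 0) (fun j => W j 0) ≤ mF k (T u) (fun j => W j u) := by
  have h1 : ∀ u : ℂ, mF k (V.tauC ((z₀ : ℂ) + u)) (fun j => V.vC j ((z₀ : ℂ) + u)) =
      V.middle (ofComplex ((z₀ : ℂ) + u)) := fun u => (V.middle_eq hk _).1.symm
  have h2 : V.middle (ofComplex ((z₀ : ℂ) + 0)) = μ := by
    rw [add_zero, ofComplex_apply, h0]
  refine ⟨_, _, _, V.chart hk1 hns z₀.im_pos, ?_, ?_⟩
  · rw [h1, h2]
    exact hneg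
  · refine Filter.Eventually.of_forall fun u => ?_
    rw [h1, h1, h2]
    exact hμ _

theorem EV10_mob (g : SL(2, ℤ)) (z : ℍ) :
    ((g • z : ℍ) : ℂ) * ((g 1 0 : ℂ) * (z : ℂ) + g 1 1) = (g 0 0 : ℂ) * (z : ℂ) + g 0 1 := by
  have h1 : ((g • z : ℍ) : ℂ) = ((g 0 0 : ℂ) * (z : ℂ) + g 0 1) / ((g 1 0 : ℂ) * (z : ℂ) + g 1 1) := by
    rw [coe_specialLinearGroup_apply]
    simp
  have h2 : ((g 1 0 : ℂ) * (z : ℂ) + g 1 1) ≠ 0 := by
    intro h
    have hdet : g 0 0 * g 1 1 - g 0 1 * g 1 0 = 1 := by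
      have := g.2
      rw [Matrix.det_fin_two] at this
      exact this
    have him := congrArg Complex.im h
    have hre := congrArg Complex.re h
    simp at him hre
    rcases him with h3 | h3
    · rw [h3] at hre hdet
      simp at hre
      rw [hre] at hdet
      simp at hdet
    · exact z.im_pos.ne' h3
  rw [h1, div_mul_cancel₀ _ h2]

theorem EV10_end (V : Variation k X) (hk : Even k) (hk1 : 1 ≤ k) (hns : ¬ V.Split)
    {μ : ℝ} (hμ : ∀ z, μ ≤ V.middle z) (hneg : μ < 0) {s : ℂ → ℍ} {Y : ℝ} (hE : X.IsEnd s Y)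
    (hP : ∀ Y' δ : ℝ, 0 < δ → ∃ ζ : ℂ, Y' < ζ.im ∧ V.middle (s ζ) < μ + δ) :
    ∃ (T : ℂ → ℂ) (W : Fin (k + 1) → ℂ → ℂ) (M : SL(2, ℤ)), Chart V T W M ∧
      mF k (T 0) (fun j => W j 0) < 0 ∧
      ∀ᶠ u in 𝓝 (0 : ℂ), mF k (T 0) (fun j => W j 0) ≤ mF k (T u) (fun j => W j u) := by
  obtain ⟨E⟩ := V.nonempty_endForm hE
  rcases Nat.eq_zero_or_pos E.m with hm | hm
  swap
  · exfalso
    obtain ⟨Y', h1⟩ := V.middle_end hk hk1 hns hμ hE E hm (ε := -μ / 2) (by linarith)
    obtain ⟨ζ, h2, h3⟩ := hP Y' (-μ / 2) (by linarith)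
    have h4 := h1 ζ h2
    linarith
  obtain ⟨W, Y', hW, hWe⟩ := V.filled hk1 hE E hm
  have key : ∀ ζ : ℂ, max Y' E.Y' < ζ.im →
      mF k (E.F (ee (ζ / E.n))) (fun j => W j (ee (ζ / E.n))) = V.middle (s ζ) := by
    intro ζ hζ
    have h1 := hWe ζ ((le_max_left _ _).trans_lt hζ)
    have h2 := E.hτ ζ ((le_max_right _ _).trans_lt hζ)
    rw [hm, Nat.cast_zero, zero_mul, zero_add] at h2
    have h3 : (fun j => W j (ee (ζ / E.n))) = (act k E.M).map (algebraMap ℚ ℂ) *ᵥ V.v (s ζ) +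
        fun _ => ((0 : ℝ) : ℂ) := by
      funext j
      rw [h1 j, Pi.add_apply, Complex.ofReal_zero, add_zero]
    rw [h3, ← h2, (V.middle_eq hk (s ζ)).1]
    exact mF_smul hk E.M (V.τ (s ζ)).im_pos (EV10_mob E.M (V.τ (s ζ))) (V.v (s ζ)) (fun _ => 0)
  have hch := V.filled_chart hk1 hns hE E hm hW hWe
  have hcont : ContinuousAt (fun u : ℂ => mF k (E.F u) (fun j => W j u)) 0 :=
    EV10_mF E.hF.continuousAt (E.hF0 hm) fun j => (hW j).continuousAt
  have hle : mF k (E.F 0) (fun j => W j 0) ≤ μ := by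
    by_contra hcon
    rw [not_le] at hcon
    set δ : ℝ := (mF k (E.F 0) (fun j => W j 0) - μ) / 2 with hδ
    have hδ0 : 0 < δ := by rw [hδ]; linarith
    have h1 : ∀ᶠ u in 𝓝 (0 : ℂ), μ + δ < mF k (E.F u) (fun j => W j u) :=
      hcont.eventually (lt_mem_nhds (by
        show μ + δ < mF k (E.F 0) (fun j => W j 0)
        rw [hδ]; linarith))
    obtain ⟨Y'', h2⟩ := EV10_tend E.hn h1
    obtain ⟨ζ, h3, h4⟩ := hP (max Y'' (max Y' E.Y')) δ hδ0
    have h5 : μ + δ < mF k (E.F (ee (ζ / E.n))) (fun j => W j (ee (ζ / E.n))) :=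
      h2 ζ ((le_max_left _ _).trans_lt h3)
    rw [key ζ ((le_max_right _ _).trans_lt h3)] at h5
    exact lt_asymm h4 h5
  refine ⟨E.F, W, E.M, hch, hle.trans_lt hneg, ?_⟩
  filter_upwards [EV10_small E.hn (max Y' E.Y')] with u hu
  by_cases hu0 : u = 0
  · rw [hu0]
  · obtain ⟨ζ, h1, h2⟩ := hu hu0
    rw [← h2, key ζ h1]
    exact hle.trans (hμ _)

theorem EV10_cases (X : Curve) (F : ℍ → ℝ) (hF : Continuous F)
    (inv : ∀ g ∈ X.P, ∀ z : ℍ, F (g • z) = F z) (μ : ℝ) (hμ : ∀ δ : ℝ, 0 < δ → ∃ z, F z < μ + δ)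
    (hμ' : ∀ z, μ ≤ F z) :
    (∃ z, F z = μ) ∨ ∃ (s : ℂ → ℍ) (Y : ℝ), X.IsEnd s Y ∧
      ∀ Y' δ : ℝ, 0 < δ → ∃ ζ : ℂ, Y' < ζ.im ∧ F (s ζ) < μ + δ := by
  classical
  obtain ⟨E⟩ := X.nonempty_ends
  have hlam : ∀ g ∈ X.G, ∀ z : ℍ, X.lam (g • z) = X.lam z := fun g hg z =>
    ((X.lam_fib z (g • z)).2 ⟨g, hg, rfl⟩).symm
  have hEb : ∀ b ∈ X.B, ∀ x ∈ E.R, X.IsEnd (fun ζ => x • E.s b ζ) E.Y := fun b hb x hx =>
    ⟨(E.s_cont b hb).const_smul x, Or.inl ⟨b, hb, fun ζ hζ => by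
      rw [hlam x (E.R_mem x hx), E.s_lam b hb ζ hζ]⟩⟩
  have hEi : ∀ x ∈ E.R, X.IsEnd (fun ζ => x • E.s' ζ) E.Y := fun x hx =>
    ⟨E.s'_cont.const_smul x, Or.inr fun ζ hζ => by
      rw [hlam x (E.R_mem x hx), E.s'_lam ζ hζ]⟩
  have hne : (comap F (𝓝 μ)).NeBot := by
    rw [comap_neBot_iff]
    intro t ht
    obtain ⟨δ, hδ, hb⟩ := Metric.mem_nhds_iff.1 ht
    obtain ⟨z, hz⟩ := hμ δ hδ
    refine ⟨z, hb ?_⟩
    rw [Metric.mem_ball, Real.dist_eq, abs_lt]
    constructor <;> linarith [hμ' z]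
  set l : Ultrafilter ℍ := Ultrafilter.of (comap F (𝓝 μ)) with hldef
  have hl : Tendsto F l (𝓝 μ) := tendsto_comap.mono_left (Ultrafilter.of_le _)
  have hrep : ∀ z z' : ℍ, X.lam z = X.lam z' → ∃ x ∈ E.R, F z = F (x • z') := by
    intro z z' h
    obtain ⟨g, hg, hgz⟩ := (X.lam_fib z' z).1 h.symm
    obtain ⟨x, ⟨hx, p, hp, h1⟩, -⟩ := E.R_unique g hg
    refine ⟨x, hx, ?_⟩
    rw [← hgz, h1, mul_smul, inv p hp]
  have hpick : ∀ (A : SL(2, ℝ) → ℍ → Prop), (∀ᶠ z in (l : Filter ℍ), ∃ x ∈ E.R, A x z) →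
      ∃ x ∈ E.R, ∀ᶠ z in (l : Filter ℍ), A x z := by
    intro A hA
    by_contra hcon
    push Not at hcon
    have h1 : ∀ x ∈ E.R, ∀ᶠ z in (l : Filter ℍ), ¬ A x z := fun x hx =>
      Ultrafilter.eventually_not.2 (by simpa using hcon x hx)
    have h2 := (Filter.eventually_all_finset E.R).2 h1
    obtain ⟨z, ⟨x, hx, h3⟩, h4⟩ := (hA.and h2).exists
    exact h4 x hx h3
  have hfin : ∀ s : ℂ → ℍ, (∀ x ∈ E.R, X.IsEnd (fun ζ => x • s ζ) E.Y) →
      (∀ Y' : ℝ, ∀ᶠ z in (l : Filter ℍ), ∃ ζ : ℂ, Y' < ζ.im ∧ X.lam z = X.lam (s ζ)) →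
      ∃ (s : ℂ → ℍ) (Y : ℝ), X.IsEnd s Y ∧
        ∀ Y' δ : ℝ, 0 < δ → ∃ ζ : ℂ, Y' < ζ.im ∧ F (s ζ) < μ + δ := by
    intro s hs h
    have hx : ∃ x ∈ E.R, ∀ Y' : ℝ, ∀ᶠ z in (l : Filter ℍ), ∃ ζ : ℂ, Y' < ζ.im ∧
        F z = F (x • s ζ) := by
      by_contra hcon
      have hcon' : ∀ x ∈ E.R, ∃ Y' : ℝ, ¬ ∀ᶠ z in (l : Filter ℍ), ∃ ζ : ℂ, Y' < ζ.im ∧
          F z = F (x • s ζ) := by
        intro x hx
        by_contra h1
        apply hcon
        refine ⟨x, hx, fun Y' => ?_⟩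
        by_contra h2
        exact h1 ⟨Y', h2⟩
      choose! Yx hYx using hcon'
      obtain ⟨Z, hZ⟩ := (E.R.image Yx).bddAbove
      obtain ⟨x, hx, hx'⟩ := hpick (fun x z => ∃ ζ : ℂ, Z < ζ.im ∧ F z = F (x • s ζ)) (by
        filter_upwards [h Z] with z hz
        obtain ⟨ζ, h1, h2⟩ := hz
        obtain ⟨x, hx, h3⟩ := hrep z (s ζ) h2
        exact ⟨x, hx, ζ, h1, h3⟩)
      have h4 : Yx x ≤ Z := hZ (Finset.mem_coe.2 (Finset.mem_image_of_mem _ hx))
      refine hYx x hx (hx'.mono fun z hz => ?_)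
      obtain ⟨ζ, h1, h2⟩ := hz
      exact ⟨ζ, h4.trans_lt h1, h2⟩
    obtain ⟨x, hx, hx'⟩ := hx
    refine ⟨fun ζ => x • s ζ, E.Y, hs x hx, fun Y' δ hδ => ?_⟩
    have h2 : ∀ᶠ z in (l : Filter ℍ), F z < μ + δ := hl.eventually (gt_mem_nhds (by linarith))
    obtain ⟨z, ⟨ζ, h3, h4⟩, h5⟩ := ((hx' Y').and h2).exists
    exact ⟨ζ, h3, by rw [← h4]; exact h5⟩
  have hlamB : ∀ z : ℍ, X.lam z ∉ X.B := by
    intro z
    have : X.lam z ∈ Set.range X.lam := ⟨z, rfl⟩
    rw [X.lam_range] at this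
    exact this
  by_cases hbdd : ∃ r : ℝ, ∀ᶠ z in (l : Filter ℍ), ‖X.lam z‖ ≤ r
  · obtain ⟨r, hr⟩ := hbdd
    obtain ⟨w, -, hw⟩ := (isCompact_closedBall (0 : ℂ) r).ultrafilter_le_nhds (l.map X.lam) (by
      rw [le_principal_iff]
      show ∀ᶠ z in (l : Filter ℍ), X.lam z ∈ Metric.closedBall (0 : ℂ) r
      filter_upwards [hr] with z hz
      rw [Metric.mem_closedBall, dist_zero_right]
      exact hz)
    have hw' : Tendsto X.lam l (𝓝 w) := hw
    by_cases hwB : w ∈ X.B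
    · right
      refine hfin (E.s w) (hEb w hwB) fun Y' => ?_
      have hpos : 0 < Real.exp (-(2 * Real.pi * max Y' E.Y)) := Real.exp_pos _
      filter_upwards [hw'.eventually (Metric.ball_mem_nhds w hpos)] with z hz
      rw [dist_eq_norm] at hz
      have h0 : X.lam z - w ≠ 0 := by
        intro h
        apply hlamB z
        rw [sub_eq_zero.1 h]
        exact hwB
      obtain ⟨ζ, hζ⟩ := EV10_exists_log h0
      have h1 := EV10_log_im hζ hz
      refine ⟨ζ, (le_max_left _ _).trans_lt h1, ?_⟩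
      rw [E.s_lam w hwB ζ ((le_max_right _ _).trans_lt h1), hζ]
      ring
    · left
      obtain ⟨z₀, hz₀⟩ : w ∈ Set.range X.lam := by
        rw [X.lam_range]
        exact hwB
      obtain ⟨φ, hφ0, hφ, -⟩ := X.exists_local_section z₀
      rw [hz₀] at hφ0 hφ
      have h1 : ∀ᶠ z in (l : Filter ℍ), ∃ x ∈ E.R, F z = F (x • ofComplex (φ (X.lam z))) := by
        filter_upwards [hw'.eventually hφ] with z hz
        exact hrep z _ hz.2.2.symm
      obtain ⟨x, hx, hx'⟩ := hpick (fun x z => F z = F (x • ofComplex (φ (X.lam z)))) h1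
      refine ⟨x • z₀, ?_⟩
      have h2 : Tendsto (fun z => ofComplex (φ (X.lam z))) l (𝓝 z₀) := by
        have h3 : ContinuousAt φ w := hφ.self_of_nhds.1.continuousAt
        have h4 : Tendsto (fun z => φ (X.lam z)) l (𝓝 (z₀ : ℂ)) := by
          have := h3.tendsto.comp hw'
          rwa [hφ0] at this
        have h5 : ContinuousAt (fun w : ℂ => (ofComplex w : ℍ)) (z₀ : ℂ) :=
          (mdifferentiableAt_ofComplex z₀.im_pos).continuousAt
        have h6 := h5.tendsto.comp h4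
        rwa [ofComplex_apply] at h6
      have h7 : Tendsto (fun z => F (x • ofComplex (φ (X.lam z)))) l (𝓝 (F (x • z₀))) :=
        (hF.tendsto _).comp (((continuous_const_smul x).tendsto _).comp h2)
      have h8 : Tendsto F l (𝓝 (F (x • z₀))) := h7.congr' (hx'.mono fun z hz => hz.symm)
      exact tendsto_nhds_unique h8 hl
  · right
    have hbig : ∀ r : ℝ, ∀ᶠ z in (l : Filter ℍ), r < ‖X.lam z‖ := by
      intro r
      have h1 : ¬ ∀ᶠ z in (l : Filter ℍ), ‖X.lam z‖ ≤ r := fun h => hbdd ⟨r, h⟩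
      have h2 := Ultrafilter.eventually_not.2 h1
      filter_upwards [h2] with z hz
      exact not_le.1 hz
    refine hfin E.s' hEi fun Y' => ?_
    filter_upwards [hbig (Real.exp (2 * Real.pi * max Y' E.Y))] with z hz
    have h0 : (X.lam z)⁻¹ ≠ 0 := by
      apply inv_ne_zero
      intro h
      rw [h, norm_zero] at hz
      exact absurd hz (not_lt.2 (Real.exp_pos _).le)
    obtain ⟨ζ, hζ⟩ := EV10_exists_log h0
    have h1 : ‖(X.lam z)⁻¹‖ < Real.exp (-(2 * Real.pi * max Y' E.Y)) := by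
      rw [norm_inv, Real.exp_neg]
      exact inv_strictAnti₀ (Real.exp_pos _) hz
    have h2 := EV10_log_im hζ h1
    refine ⟨ζ, (le_max_left _ _).trans_lt h2, ?_⟩
    rw [E.s'_lam ζ ((le_max_right _ _).trans_lt h2)]
    have h3 : ee (-ζ) = (ee ζ)⁻¹ := by
      unfold Pool.Agent.LibUB33.ee
      rw [← Complex.exp_neg]
      congr 1
      ring
    rw [h3, hζ, inv_inv]

/-- A negative infimum is attained at a point of the curve or at a puncture with finite
monodromy. -/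
theorem Variation.exists_min (V : Variation k X) (hk : Even k) (hk1 : 1 ≤ k) (hns : ¬ V.Split)
    {C : ℝ} (hC : ∀ z, C ≤ V.middle z) (hneg : ∃ z, V.middle z < 0) :
    ∃ (T : ℂ → ℂ) (W : Fin (k + 1) → ℂ → ℂ) (M : SL(2, ℤ)), Chart V T W M ∧
      mF k (T 0) (fun j => W j 0) < 0 ∧
      ∀ᶠ u in 𝓝 (0 : ℂ), mF k (T 0) (fun j => W j 0) ≤ mF k (T u) (fun j => W j u) := by
  obtain ⟨z₁, hz₁⟩ := hneg
  have hbb : BddBelow (Set.range V.middle) := ⟨C, by rintro _ ⟨z, rfl⟩; exact hC z⟩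
  have hμ : ∀ z, sInf (Set.range V.middle) ≤ V.middle z := fun z => csInf_le hbb ⟨z, rfl⟩
  have hμ1 : ∀ δ : ℝ, 0 < δ → ∃ z, V.middle z < sInf (Set.range V.middle) + δ := by
    intro δ hδ
    obtain ⟨_, ⟨z, rfl⟩, hz⟩ := exists_lt_of_csInf_lt (Set.range_nonempty V.middle)
      (lt_add_of_pos_right (sInf (Set.range V.middle)) hδ)
    exact ⟨z, hz⟩
  have hneg' : sInf (Set.range V.middle) < 0 := (hμ z₁).trans_lt hz₁
  rcases EV10_cases X V.middle (EV10_mid_cont V hk)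
    (fun g hg z => V.middle_smul hk ⟨g, hg⟩ z) _ hμ1 hμ with ⟨z, hz⟩ | ⟨s, Y, hE, hP⟩
  · exact EV10_pt V hk hk1 hns hμ hneg' hz
  · exact EV10_end V hk hk1 hns hμ hneg' hE hP

/-- A middle component which is bounded below is nonnegative. -/
theorem Variation.middle_nonneg (V : Variation k X) (hk : Even k) (hk1 : 1 ≤ k)
    (hns : ¬ V.Split) {C : ℝ} (hC : ∀ z, C ≤ V.middle z) (z : ℍ) : 0 ≤ V.middle z := by
  by_contra hcon
  push Not at hcon
  obtain ⟨T, W, M, H, h1, h2⟩ := V.exists_min hk hk1 hns hC ⟨z, hcon⟩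
  obtain ⟨h, rfl⟩ := hk.two_dvd
  exact H.toLocD.no_neg_min (by omega) h1 h2

theorem EV12_ee_div {n : ℕ} (ζ : ℂ) :
    HasDerivAt (fun z : ℂ => ee (z / n)) (2 * Real.pi * Complex.I / n * ee (ζ / n)) ζ := by
  have h1 : HasDerivAt (fun z : ℂ => z / (n : ℂ)) (1 / (n : ℂ)) ζ :=
    (hasDerivAt_id ζ).div_const _
  have h2 := (LibUB33.BridgeB94.ee_hasDerivAt (ζ / n)).comp ζ h1
  refine h2.congr_deriv ?_
  ring

theorem EV12_half {p : ℂ → Prop} (hp : ∀ᶠ z in comap Complex.im atTop, p z) :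
    ∃ Y : ℝ, ∀ z : ℂ, Y < z.im → p z := by
  rw [eventually_comap, eventually_atTop] at hp
  obtain ⟨Y, hY⟩ := hp
  exact ⟨Y, fun z hz => hY z.im hz.le z rfl⟩

/-- If the derivative of the period vanishes at a point of an end then so does the derivative of
its normal form. -/
theorem EV12_deriv (V : Variation k X) {s : ℂ → ℍ} {Y : ℝ} (hE : X.IsEnd s Y)
    (E : EndForm V s Y) {ζ : ℂ} (hζ : E.Y' < ζ.im) (h0 : deriv V.tauC (s ζ : ℂ) = 0) :
    deriv (fun z : ℂ => (E.m : ℂ) * (z / E.n) + E.F (ee (z / E.n))) ζ = 0 := by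
  have hζY : Y < ζ.im := lt_of_le_of_lt E.hY hζ
  obtain ⟨s', -, hs⟩ := LibUB33.BridgeB94.end_deriv hE hζY
  have h1 : HasDerivAt V.tauC 0 (s ζ : ℂ) := by
    have := (V.tauC_diff (s ζ).im_pos).1.hasDerivAt
    rwa [h0] at this
  have h2 : HasDerivAt (fun z : ℂ => V.tauC (s z : ℂ)) 0 ζ := by
    have := h1.comp ζ hs
    simpa [Function.comp_def] using this
  have hden : ((E.M 1 0 : ℤ) : ℂ) * V.tauC (s ζ : ℂ) + ((E.M 1 1 : ℤ) : ℂ) ≠ 0 := by
    have := denom_ne_zero (Matrix.SpecialLinearGroup.mapGL ℝ E.M) (V.τ (s ζ))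
    simpa [denom, Variation.tauC] using this
  have h3 : HasDerivAt (fun z : ℂ => (((E.M 0 0 : ℤ) : ℂ) * V.tauC (s z : ℂ) + ((E.M 0 1 : ℤ) : ℂ)) /
      (((E.M 1 0 : ℤ) : ℂ) * V.tauC (s z : ℂ) + ((E.M 1 1 : ℤ) : ℂ))) 0 ζ := by
    have ha := (h2.const_mul ((E.M 0 0 : ℤ) : ℂ)).add_const ((E.M 0 1 : ℤ) : ℂ)
    have hb := (h2.const_mul ((E.M 1 0 : ℤ) : ℂ)).add_const ((E.M 1 1 : ℤ) : ℂ)
    refine (ha.div hb hden).congr_deriv ?_
    simp
  have hop : IsOpen {w : ℂ | E.Y' < w.im} := isOpen_lt continuous_const Complex.continuous_im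
  have h4 : (fun z : ℂ => (E.m : ℂ) * (z / E.n) + E.F (ee (z / E.n))) =ᶠ[𝓝 ζ]
      fun z : ℂ => (((E.M 0 0 : ℤ) : ℂ) * V.tauC (s z : ℂ) + ((E.M 0 1 : ℤ) : ℂ)) /
      (((E.M 1 0 : ℤ) : ℂ) * V.tauC (s z : ℂ) + ((E.M 1 1 : ℤ) : ℂ)) := by
    filter_upwards [hop.mem_nhds hζ] with z hz
    rw [← E.hτ z hz, coe_specialLinearGroup_apply]
    simp [Variation.tauC]
  rw [h4.deriv_eq]
  exact h3.deriv

/-- The derivative of the normal form. -/
theorem EV12_end (V : Variation k X) {s : ℂ → ℍ} {Y : ℝ} (hE : X.IsEnd s Y) :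
    ∃ Y' : ℝ, ∀ ζ : ℂ, Y' < ζ.im → deriv V.tauC (s ζ : ℂ) ≠ 0 := by
  obtain ⟨E⟩ := V.nonempty_endForm hE
  have hn := E.hn
  have hn' : (E.n : ℂ) ≠ 0 := by exact_mod_cast hn.ne'
  have hq := LibUB33.tendsto_ee hn
  have hq' := hq.mono_right nhdsWithin_le_nhds
  obtain ⟨Y1, hY1⟩ := EV12_half (hq'.eventually
    (E.hF.eventually_analyticAt.mono fun z hz => hz.differentiableAt))
  have hder : ∀ z : ℂ, Y1 < z.im →
      deriv (fun z : ℂ => (E.m : ℂ) * (z / E.n) + E.F (ee (z / E.n))) z =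
      E.m / E.n + deriv E.F (ee (z / E.n)) * (2 * Real.pi * Complex.I / E.n * ee (z / E.n)) := by
    intro z hz
    have h2 : HasDerivAt (fun z : ℂ => (E.m : ℂ) * (z / E.n)) ((E.m : ℂ) * (1 / E.n)) z :=
      ((hasDerivAt_id z).div_const _).const_mul _
    have h3 : HasDerivAt (fun z : ℂ => E.F (ee (z / E.n)))
        (deriv E.F (ee (z / E.n)) * (2 * Real.pi * Complex.I / E.n * ee (z / E.n))) z :=
      (hY1 z hz).hasDerivAt.comp z (EV12_ee_div z)
    have h5 : HasDerivAt (fun z : ℂ => (E.m : ℂ) * (z / E.n) + E.F (ee (z / E.n))) _ z := h2.add h3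
    rw [h5.deriv]
    ring
  have hG : AnalyticAt ℂ (fun q => deriv E.F q * (2 * Real.pi * Complex.I / E.n * q)) 0 := by
    have := E.hF.deriv
    fun_prop
  suffices H : ∃ Y2 : ℝ, ∀ ζ : ℂ, Y2 < ζ.im →
      (E.m : ℂ) / E.n + deriv E.F (ee (ζ / E.n)) *
        (2 * Real.pi * Complex.I / E.n * ee (ζ / E.n)) ≠ 0 by
    obtain ⟨Y2, hY2⟩ := H
    refine ⟨max E.Y' (max Y1 Y2), fun ζ hζ h0 => ?_⟩
    have h1 : E.Y' < ζ.im := lt_of_le_of_lt (le_max_left _ _) hζ
    have h2 : Y1 < ζ.im := lt_of_le_of_lt ((le_max_left _ _).trans (le_max_right _ _)) hζ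
    have h3 : Y2 < ζ.im := lt_of_le_of_lt ((le_max_right _ _).trans (le_max_right _ _)) hζ
    exact hY2 ζ h3 ((hder ζ h2).symm.trans (EV12_deriv V hE E h1 h0))
  rcases Nat.eq_zero_or_pos E.m with hm | hm
  · -- `F` is not constant
    have hn0 : ¬ ∀ᶠ q in 𝓝 (0 : ℂ),
        deriv E.F q * (2 * Real.pi * Complex.I / E.n * q) = 0 := by
      intro h0
      obtain ⟨Y3, hY3⟩ := EV12_half (hq'.eventually h0)
      set Y4 := max E.Y' (max Y1 Y3) with hY4
      -- the derivative of the period vanishes near a point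
      have key : ∀ ζ : ℂ, Y4 < ζ.im → deriv V.tauC (s ζ : ℂ) = 0 := by
        intro ζ hζ
        have h1 : E.Y' < ζ.im := lt_of_le_of_lt (le_max_left _ _) hζ
        have h2 : Y1 < ζ.im := lt_of_le_of_lt ((le_max_left _ _).trans (le_max_right _ _)) hζ
        have h3 : Y3 < ζ.im := lt_of_le_of_lt ((le_max_right _ _).trans (le_max_right _ _)) hζ
        have h4 : Y < ζ.im := lt_of_le_of_lt E.hY h1
        have h5 := hder ζ h2
        rw [hm, hY3 ζ h3] at h5
        simp only [Nat.cast_zero, zero_div, add_zero] at h5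
        obtain ⟨s', hs0, hs⟩ := LibUB33.BridgeB94.end_deriv hE h4
        have h6 := (V.tauC_diff (s ζ).im_pos).1.hasDerivAt
        have h7 : HasDerivAt (fun z : ℂ => V.tauC (s z : ℂ)) (deriv V.tauC (s ζ : ℂ) * s') ζ := by
          have := h6.comp ζ hs
          simpa [Function.comp_def] using this
        have hden : ((E.M 1 0 : ℤ) : ℂ) * V.tauC (s ζ : ℂ) + ((E.M 1 1 : ℤ) : ℂ) ≠ 0 := by
          have := denom_ne_zero (Matrix.SpecialLinearGroup.mapGL ℝ E.M) (V.τ (s ζ))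
          simpa [denom, Variation.tauC] using this
        have hdet : ((E.M 0 0 : ℤ) : ℂ) * ((E.M 1 1 : ℤ) : ℂ) -
            ((E.M 0 1 : ℤ) : ℂ) * ((E.M 1 0 : ℤ) : ℂ) = 1 := by
          have := E.M.2
          rw [Matrix.det_fin_two] at this
          exact_mod_cast this
        have hop : IsOpen {w : ℂ | E.Y' < w.im} :=
          isOpen_lt continuous_const Complex.continuous_im
        have ha := (h7.const_mul ((E.M 0 0 : ℤ) : ℂ)).add_const ((E.M 0 1 : ℤ) : ℂ)
        have hb := (h7.const_mul ((E.M 1 0 : ℤ) : ℂ)).add_const ((E.M 1 1 : ℤ) : ℂ)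
        have hc := ha.div hb hden
        have h8 : (fun z : ℂ => (0 : ℂ) * (z / E.n) + E.F (ee (z / E.n))) =ᶠ[𝓝 ζ]
            fun z : ℂ => (((E.M 0 0 : ℤ) : ℂ) * V.tauC (s z : ℂ) + ((E.M 0 1 : ℤ) : ℂ)) /
            (((E.M 1 0 : ℤ) : ℂ) * V.tauC (s z : ℂ) + ((E.M 1 1 : ℤ) : ℂ)) := by
          filter_upwards [hop.mem_nhds h1] with z hz
          have := E.hτ z hz
          rw [hm, Nat.cast_zero] at this
          rw [← this, coe_specialLinearGroup_apply]
          simp [Variation.tauC]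
        rw [h8.deriv_eq] at h5
        have h9 := hc.deriv.symm.trans h5
        have h10 : deriv V.tauC (s ζ : ℂ) * s' /
            (((E.M 1 0 : ℤ) : ℂ) * V.tauC (s ζ : ℂ) + ((E.M 1 1 : ℤ) : ℂ)) ^ 2 = 0 := by
          rw [← h9]
          congr 1
          linear_combination (-(deriv V.tauC (s ζ : ℂ) * s')) * hdet
        rw [div_eq_zero_iff, or_iff_left (pow_ne_zero 2 hden), mul_eq_zero,
          or_iff_left hs0] at h10
        exact h10
      set ζ₀ : ℂ := ⟨0, Y4 + 1⟩ with hζ₀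
      have hζ₀' : Y4 < ζ₀.im := by simp [hζ₀]
      have h4 : Y < ζ₀.im := lt_of_le_of_lt (E.hY.trans (le_max_left _ _)) hζ₀'
      obtain ⟨s', hs0, hs⟩ := LibUB33.BridgeB94.end_deriv hE h4
      have h5 : ∀ᶠ z in 𝓝[≠] ζ₀, (s z : ℂ) ≠ (s ζ₀ : ℂ) := hs.eventually_ne hs0
      have h6 : Tendsto (fun z => (s z : ℂ)) (𝓝[≠] ζ₀) (𝓝[≠] (s ζ₀ : ℂ)) := by
        rw [tendsto_nhdsWithin_iff]
        exact ⟨hs.continuousAt.tendsto.mono_left nhdsWithin_le_nhds, h5⟩
      have h7 := h6.eventually (V.t1_ne (s ζ₀).im_pos)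
      have hop : IsOpen {w : ℂ | Y4 < w.im} := isOpen_lt continuous_const Complex.continuous_im
      have h8 : ∀ᶠ z in 𝓝[≠] ζ₀, Y4 < z.im := nhdsWithin_le_nhds (hop.mem_nhds hζ₀')
      obtain ⟨z, hz1, hz2⟩ := (h7.and h8).exists
      exact hz1.2 (key z hz2)
    obtain h1 | h1 := hG.eventually_eq_zero_or_eventually_ne_zero
    · exact absurd h1 hn0
    · obtain ⟨Y2, hY2⟩ := EV12_half (hq.eventually h1)
      refine ⟨Y2, fun ζ hζ => ?_⟩
      rw [hm]
      simpa using hY2 ζ hζ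
  · have hm' : (E.m : ℂ) / E.n ≠ 0 := div_ne_zero (by exact_mod_cast hm.ne') hn'
    have h1 : Tendsto (fun z : ℂ => (E.m : ℂ) / E.n + deriv E.F (ee (z / E.n)) *
        (2 * Real.pi * Complex.I / E.n * ee (z / E.n))) (comap Complex.im atTop)
        (𝓝 ((E.m : ℂ) / E.n)) := by
      have := (hG.continuousAt.tendsto.comp hq').const_add ((E.m : ℂ) / E.n)
      simpa using this
    obtain ⟨Y2, hY2⟩ := EV12_half (h1.eventually_ne hm')
    exact ⟨Y2, hY2⟩

/-- The critical points of the period. -/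
theorem Variation.crit_finite (V : Variation k X) :
    ((fun z : ℍ => (Quotient.mk'' z : X.Pts)) '' {z : ℍ | V.t1 z = 0}).Finite := by
  apply finite_of_local X {z : ℍ | V.t1 z = 0}
  · intro g hg z
    obtain ⟨h1, -, h2, -⟩ := V.t_smul ⟨g, hg⟩ z.im_pos
    have h3 : mob ((⟨g, hg⟩ : X.P) : SL(2, ℝ)) (z : ℂ) = ((g • z : ℍ) : ℂ) := by
      simp [mob]
    rw [h3] at h2
    simp only [Set.mem_ofPred_eq, h2, div_eq_zero_iff, or_iff_left (pow_ne_zero 2 h1)]
  · intro z
    have hop : IsOpen {w : ℂ | 0 < w.im} := isOpen_lt continuous_const Complex.continuous_im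
    filter_upwards [V.t1_ne z.im_pos, nhdsWithin_le_nhds (hop.mem_nhds z.im_pos)] with w hw hw'
    simp only [ofComplex_apply_of_im_pos hw']
    exact hw.1
  · intro s Y hE
    obtain ⟨Y', hY'⟩ := EV12_end V hE
    refine ⟨Y', fun ζ hζ h0 => ?_⟩
    have h1 : deriv V.tauC (s ζ : ℂ) / deriv (lamC X) (s ζ : ℂ) = 0 := h0
    rw [div_eq_zero_iff, or_iff_left (lamC_diff X (s ζ).im_pos).2] at h1
    exact hY' ζ hζ h1

/-- The zeros of a middle component which is bounded below. -/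
theorem Variation.middle_zeros (V : Variation k X) (hk : Even k) (hk1 : 1 ≤ k)
    (hns : ¬ V.Split) {C : ℝ} (hC : ∀ z, C ≤ V.middle z) :
    ((fun z : ℍ => (Quotient.mk'' z : X.Pts)) '' {z | V.middle z = 0}).Finite := by
  obtain ⟨h, rfl⟩ := hk.two_dvd
  have hh : 1 ≤ h := by omega
  have hfin := (V.crit_finite).union
    (V.zeros_finite hk1 hns ⟨h + 1, by omega⟩ (by show 2 * (h + 1) ≠ 2 * h; omega))
  refine hfin.subset ?_
  rintro _ ⟨z, hz, rfl⟩
  have hz' : V.middle z = 0 := hz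
  have H := V.chart hk1 hns (z₀ := (z : ℂ)) z.im_pos
  have h0 : mF (2 * h) (V.tauC ((z : ℂ) + 0)) (fun j => V.vC j ((z : ℂ) + 0)) = 0 := by
    rw [add_zero]
    unfold Variation.tauC Variation.vC
    rw [ofComplex_apply]
    rw [← (V.middle_eq hk z).1]
    exact hz'
  have hmin : ∀ᶠ u in 𝓝 (0 : ℂ), 0 ≤ mF (2 * h) (V.tauC ((z : ℂ) + u))
      (fun j => V.vC j ((z : ℂ) + u)) := by
    refine Eventually.of_forall fun u => ?_
    have h1 := V.middle_nonneg hk hk1 hns hC (ofComplex ((z : ℂ) + u))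
    rw [(V.middle_eq hk _).1] at h1
    exact h1
  rcases H.toLocD.zero_min hh h0 hmin with h1 | h1
  · left
    refine ⟨z, ?_, rfl⟩
    show dx (lamC X) V.tauC z = 0
    have h2 : deriv (fun u => V.tauC ((z : ℂ) + u)) 0 = deriv V.tauC z := by
      rw [deriv_comp_const_add, add_zero]
    rw [h2] at h1
    simp only [dx, h1, zero_div]
  · right
    refine ⟨z, ?_, rfl⟩
    show V.comp z ⟨h + 1, _⟩ = 0
    rw [(V.comp_spec z).2.2]
    have h2 : V.zc (h + 1) z = zf (2 * h) (fun u => V.tauC ((z : ℂ) + u))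
        (fun j u => V.vC j ((z : ℂ) + u)) (h + 1) 0 := by
      unfold Variation.zc zf
      simp only [add_zero]
      unfold Variation.tauC Variation.vC
      rw [ofComplex_apply]
    show V.zc (h + 1) z = 0
    rw [h2]
    exact h1

theorem Variation.neg_middle (V : Variation k X) (z : ℍ) :
    V.neg.middle z = -V.middle z ∧ (V.neg.Split → V.Split) := by
  constructor
  · have h1 : V.neg.comp z = -V.comp z := by
      unfold Variation.comp
      have h2 : (fun j => ((V.neg.v z j).im : ℂ)) = -(fun j => ((V.v z j).im : ℂ)) := by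
        funext j
        change (((-V.v z j).im : ℝ) : ℂ) = -((V.v z j).im : ℂ)
        rw [Complex.neg_im, Complex.ofReal_neg]
      rw [h2, Matrix.mulVec_neg]
      rfl
    unfold Variation.middle
    rw [h1]
    change (V.τ z).im ^ (k / 2) * (-(V.comp z ⟨k / 2, by omega⟩)).re = _
    rw [Complex.neg_re]
    ring
  · rintro ⟨r, hr⟩
    refine ⟨fun i => -r i, fun z i => ?_⟩
    have h := hr z i
    change -V.v z i = (r i : ℂ) at h
    push_cast
    rw [← h, neg_neg]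

/-- **Even `k`.** If the middle component is bounded on one side the atypical points are finite in
number. -/
theorem Variation.atypical_finite_even (V : Variation k X) (hk : Even k) (hk1 : 1 ≤ k)
    (hns : ¬ V.Split) {C : ℝ} (hC : (∀ z, C ≤ V.middle z) ∨ ∀ z, V.middle z ≤ C) :
    V.atypicalPoints.Finite := by
  have hz : ((fun z : ℍ => (Quotient.mk'' z : X.Pts)) '' {z | V.middle z = 0}).Finite := by
    rcases hC with h | h
    · exact V.middle_zeros hk hk1 hns h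
    · have h1 : ∀ z, -C ≤ V.neg.middle z := by
        intro z
        rw [(V.neg_middle z).1]
        exact neg_le_neg (h z)
      have h2 := V.neg.middle_zeros hk hk1
        (fun hs => hns ((V.neg_middle UpperHalfPlane.I).2 hs)) h1
      refine h2.subset ?_
      rintro x ⟨z, hz, rfl⟩
      refine ⟨z, ?_, rfl⟩
      have hz' : V.middle z = 0 := hz
      change V.neg.middle z = 0
      rw [(V.neg_middle z).1, hz', neg_zero]
  refine ((V.atypical_finite hk1 hns).1.union hz).subset ?_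
  rintro x ⟨z, hza, rfl⟩
  by_cases h : ∀ i : Fin (k + 1), 2 * (i : ℕ) = k → V.comp z i ≠ 0
  · exact Or.inl ⟨z, ⟨hza, h⟩, rfl⟩
  · refine Or.inr ⟨z, ?_, rfl⟩
    push Not at h
    obtain ⟨i, hi, h0⟩ := h
    have hi2 : (⟨k / 2, by omega⟩ : Fin (k + 1)) = i := by
      apply Fin.ext
      change k / 2 = (i : ℕ)
      omega
    change V.middle z = 0
    unfold Variation.middle
    rw [hi2, h0, Complex.zero_re, mul_zero]

end Glob

end Pool.Agent.LibSym94
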