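import Pool.Agent.LibSym94.CuspDefs

/-!
# The middle component: definitions
-/

open Matrix Filter Topology Polynomial UpperHalfPlane
open scoped MatrixGroups ComplexConjugate
open Pool.Agent.LibUB33 (Curve ee)
open Pool.Agent.LibEis68 (form act)

namespace Pool.Agent.LibSym94

/-- The middle component attached to a period `s` and an extension vector `p`. -/
noncomputable def mF (k : ℕ) (s : ℂ) (p : Fin (k + 1) → ℂ) : ℝ :=
  s.im ^ (k / 2) * (gco k s (conj s) (fun j => p j - conj (p j)) (k / 2) /
    ((s - conj s) ^ k * (2 * Complex.I))).re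

variable {k : ℕ} {X : Curve}

/-- The opposite variation. -/
noncomputable def Variation.neg (V : Variation k X) : Variation k X where
  ρ := V.ρ
  c := fun δ j => -V.c δ j
  τ := V.τ
  v := fun z j => -V.v z j
  τ_hol := V.τ_hol
  τ_nonconst := V.τ_nonconst
  τ_equiv := V.τ_equiv
  v_equiv := by
    intro δ z
    have h := V.v_equiv δ z
    have h2 : (fun j => -V.v ((δ : SL(2, ℝ)) • z) j) = -V.v ((δ : SL(2, ℝ)) • z) := rfl
    have h3 : (fun j => -V.v z j) = -V.v z := rfl
    rw [h2, h3, h, Matrix.mulVec_neg]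
    funext j
    simp [add_comm]
  transversal := by
    intro z
    obtain ⟨g, hg⟩ := V.transversal z
    refine ⟨-g, ?_⟩
    have h2 : (-g) • form k (V.τ z : ℂ) (V.τ z : ℂ) k =
        -(g • form k (V.τ z : ℂ) (V.τ z : ℂ) k) := by
      funext j
      simp
    rw [h2]
    exact hg.neg
  growth := by
    intro s Y hE M
    obtain ⟨C, N, h⟩ := V.growth s Y hE M
    refine ⟨C, N, fun ζ h1 h2 => ?_⟩
    have h3 : (fun j => -V.v (s ζ) j) = -V.v (s ζ) := rfl
    rw [h3, norm_neg]
    exact h ζ h1 h2

end Pool.Agent.LibSym94
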