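import Mathlib
import Pool.Agent.LibSym94.AlgDefs

/-!
# Germs of meromorphic functions as a differential field: definitions
-/

open Polynomial Filter Topology
open scoped ComplexConjugate

namespace Pool.Agent.LibSym94

/-- The field of (formal) meromorphic germs. -/
abbrev KK : Type := FractionRing (PowerSeries ℂ)

/-- The Taylor series of a function at `z₀`. -/
noncomputable def tay (z₀ : ℂ) (f : ℂ → ℂ) : PowerSeries ℂ :=
  PowerSeries.mk fun n => iteratedDeriv n f z₀ / (n.factorial : ℂ)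

/-- The germ of an analytic function at `z₀`. -/
noncomputable def germ (z₀ : ℂ) (f : ℂ → ℂ) : KK := algebraMap (PowerSeries ℂ) KK (tay z₀ f)

/-- Evaluation of a polynomial in two variables `x`, `y` (the outer variable is `y`). -/
noncomputable def EV {K : Type*} [CommRing K] [Algebra ℂ K] (P : ℂ[X][X]) (x y : K) : K :=
  P.eval₂ (Polynomial.eval₂RingHom (algebraMap ℂ K) x) y

/-- The complex conjugate of a function: `w ↦ conj (f (conj w))`. -/
noncomputable def cc (f : ℂ → ℂ) : ℂ → ℂ := fun w => conj (f (conj w))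

/-- The derivative with respect to `x`. -/
noncomputable def dx (x f : ℂ → ℂ) : ℂ → ℂ := fun u => deriv f u / deriv x u

/-- The Schwarzian derivative of `T` with respect to `x`. -/
noncomputable def schw (x T : ℂ → ℂ) : ℂ → ℂ := fun u =>
  (dx x T u * dx x (dx x (dx x T)) u - 3 / 2 * dx x (dx x T) u ^ 2) / dx x T u ^ 2

/-- Holomorphic data on a domain: a local coordinate `x`, a period `T`, an extension period `W`. -/
structure Hol (k : ℕ) (U : Set ℂ) (x T : ℂ → ℂ) (W : Fin (k + 1) → ℂ → ℂ) : Prop where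
  isOpen : IsOpen U
  preconn : IsPreconnected U
  nonempty : U.Nonempty
  x_diff : DifferentiableOn ℂ x U
  T_diff : DifferentiableOn ℂ T U
  W_diff : ∀ j, DifferentiableOn ℂ (W j) U
  x_deriv : ∀ u ∈ U, deriv x u ≠ 0
  trans : ∀ u ∈ U, ∃ g : ℂ, ∀ j, deriv (W j) u = g * frm k (T u) (T u) k j

/-- The point of the jet space. -/
noncomputable def jetpt {k : ℕ} (x T : ℂ → ℂ) (W : Fin (k + 1) → ℂ → ℂ) (u : ℂ) :
    Fin 4 ⊕ Fin (k + 1) → ℂ :=
  Sum.elim ![x u, T u, dx x T u, dx x (dx x T) u] fun j => W j u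

/-- Holomorphic data with algebraic base functions and independent jets. -/
structure Gen (k : ℕ) (U : Set ℂ) (x T : ℂ → ℂ) (W : Fin (k + 1) → ℂ → ℂ) : Prop
    extends Hol k U x T W where
  base_S : ∃ P : ℂ[X][X], P ≠ 0 ∧ ∀ u ∈ U, dx x T u ≠ 0 → EV P (x u) (schw x T u) = 0
  base_m : ∃ P : ℂ[X][X], P ≠ 0 ∧ ∀ u ∈ U,
    EV P (x u) (dx x (W (Fin.last k)) u ^ 2 * dx x T u ^ k) = 0
  indep : ∀ P : MvPolynomial (Fin 4 ⊕ Fin (k + 1)) ℂ,
    (∀ u ∈ U, MvPolynomial.eval (jetpt x T W u) P = 0) → P = 0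

/-- `(s - t)^k` times the coordinates of a form in the basis `(X - s)^j (X - t)^(k-j)`. -/
noncomputable def gco (k : ℕ) (s t : ℂ) (p : Fin (k + 1) → ℂ) (j : ℕ) : ℂ :=
  ∑ m : Fin (k + 1), p m * ((C s - C t * X) ^ (m : ℕ) * (1 - X) ^ (k - (m : ℕ)) : ℂ[X]).coeff j

end Pool.Agent.LibSym94
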