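import Pool.Agent.LibSym94.PerDefs

/-!
# Local structure of the zeros: definitions
-/

open Matrix Filter Topology Polynomial UpperHalfPlane
open scoped MatrixGroups ComplexConjugate
open Pool.Agent.LibUB33 (Curve ee)
open Pool.Agent.LibEis68 (form act)

namespace Pool.Agent.LibSym94

/-- `(s - t)^k` times the coordinates of a form in the basis `(X - s)^j (X - t)^(k-j)`, over any
ring. -/
noncomputable def gcoR {R : Type*} [CommRing R] (k : ℕ) (s t : R) (p : Fin (k + 1) → R) (j : ℕ) :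
    R :=
  ∑ m : Fin (k + 1), p m * ((C s - C t * X) ^ (m : ℕ) * (1 - X) ^ (k - (m : ℕ)) : R[X]).coeff j

/-- The integer coefficients of `gcoR`. -/
noncomputable def cg (k m e j : ℕ) : ℤ :=
  if e ≤ m ∧ e ≤ j then (-1) ^ e * (m.choose e : ℤ) * ((1 - X : ℤ[X]) ^ (k - m)).coeff (j - e)
  else 0

/-- Double power series: the inner variable is `z`, the outer one is `w`. -/
abbrev R2 : Type := PowerSeries (PowerSeries ℂ)

/-- Series in `z`. -/
noncomputable def inz : PowerSeries ℂ →+* R2 := PowerSeries.C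

/-- Series in `w`. -/
noncomputable def inw : PowerSeries ℂ →+* R2 := PowerSeries.map PowerSeries.C

/-- The coefficient of `z^p w^q`. -/
noncomputable def co (p q : ℕ) (f : R2) : ℂ := PowerSeries.coeff p (PowerSeries.coeff q f)

/-- The partial derivatives of double series. -/
structure Pder (Dz Dw : Derivation ℤ R2 R2) : Prop where
  z : ∀ f p q, co p q (Dz f) = (p + 1 : ℕ) * co (p + 1) q f
  w : ∀ f p q, co p q (Dw f) = (q + 1 : ℕ) * co p (q + 1) f
  comm : ∀ f, Dz (Dw f) = Dw (Dz f)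
  zz : ∀ g, Dz (inz g) = inz (PowerSeries.derivative ℂ g)
  wz : ∀ g, Dw (inz g) = 0
  zw : ∀ g, Dz (inw g) = 0
  ww : ∀ g, Dw (inw g) = inw (PowerSeries.derivative ℂ g)

/-- The coefficient of `z^p w^q` in `∑ a_l(z) b_l(w)`. -/
noncomputable def cf {n : ℕ} (a b : Fin n → ℂ → ℂ) (p q : ℕ) : ℂ :=
  ∑ l, PowerSeries.coeff p (tay 0 (a l)) * PowerSeries.coeff q (tay 0 (b l))

/-- Local data: a nonconstant period and a nonconstant extension period near `0`. -/
structure LocD (k : ℕ) (T : ℂ → ℂ) (W : Fin (k + 1) → ℂ → ℂ) : Prop where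
  T_an : AnalyticAt ℂ T 0
  T_im : 0 < (T 0).im
  W_an : ∀ j, AnalyticAt ℂ (W j) 0
  trans : ∀ᶠ u in 𝓝 (0 : ℂ), ∃ g : ℂ, ∀ j, deriv (W j) u = g * frm k (T u) (T u) k j
  T_nc : ∀ᶠ u in 𝓝[≠] (0 : ℂ), deriv T u ≠ 0
  W_nc : ∀ᶠ u in 𝓝[≠] (0 : ℂ), deriv (W (Fin.last k)) u ≠ 0

/-- The function whose zeros are studied. -/
noncomputable def zf (k : ℕ) (T : ℂ → ℂ) (W : Fin (k + 1) → ℂ → ℂ) (i : ℕ) (u : ℂ) : ℂ :=
  gco k (T u) (conj (T u)) (fun j => W j u - conj (W j u)) i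

/-- The same, as a function of two independent variables. -/
noncomputable def zf2 (k : ℕ) (T : ℂ → ℂ) (W : Fin (k + 1) → ℂ → ℂ) (i : ℕ) (u w : ℂ) : ℂ :=
  gco k (T u) (cc T w) (fun j => W j u - cc (W j) w) i

variable {k : ℕ} {X : Curve}

/-- Local data coming from a variation, near a point of the curve or of its completion. -/
structure Chart (V : Variation k X) (T : ℂ → ℂ) (W : Fin (k + 1) → ℂ → ℂ) (M : SL(2, ℤ)) : Prop
    extends LocD k T W where
  loc : ∀ᶠ u in 𝓝[≠] (0 : ℂ), ∃ κ : ℂ → ℂ, AnalyticAt ℂ κ u ∧ deriv κ u ≠ 0 ∧ 0 < (κ u).im ∧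
    ∀ᶠ u' in 𝓝 u, T u' * ((M 1 0 : ℂ) * V.tauC (κ u') + M 1 1) =
        (M 0 0 : ℂ) * V.tauC (κ u') + M 0 1 ∧
      ∀ j, W j u' = ((act k M).map (algebraMap ℚ ℂ) *ᵥ fun l => V.vC l (κ u')) j

end Pool.Agent.LibSym94
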