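import Mathlib
import Pool.Agent.LibSym94.Defs
import Pool.Agent.LibSym94.GermDefs
import Pool.Agent.LibUB33.Finite

/-!
# The period map of a variation: functions on the plane, ends, invariants
-/

open UpperHalfPlane Matrix Filter Topology
open scoped MatrixGroups ComplexConjugate
open Pool.Agent.LibUB33 (Curve ee)
open Pool.Agent.LibEis68 (form act)

namespace Pool.Agent.LibSym94

variable {k : ℕ} {X : Curve}

/-- The covering as a function of a complex variable. -/
noncomputable def lamC (X : Curve) (w : ℂ) : ℂ := X.lam (ofComplex w)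

/-- The action of a real matrix as a function of a complex variable. -/
noncomputable def mob (g : SL(2, ℝ)) (w : ℂ) : ℂ := ((g • ofComplex w : ℍ) : ℂ)

namespace Variation

variable (V : Variation k X)

/-- The period as a function of a complex variable. -/
noncomputable def tauC (w : ℂ) : ℂ := (V.τ (ofComplex w) : ℂ)

/-- The extension period as a function of a complex variable. -/
noncomputable def vC (j : Fin (k + 1)) (w : ℂ) : ℂ := V.v (ofComplex w) j

/-- The underlying pure variation, as a split variation of rank three. -/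
noncomputable def pure : LibUB33.Variation X where
  ρ := V.ρ
  c := fun _ _ => 0
  τ := V.τ
  v := fun _ _ => 0
  τ_hol := V.τ_hol
  τ_nonconst := V.τ_nonconst
  τ_equiv := V.τ_equiv
  v_hol := fun _ _ => differentiableAt_const _
  v_equiv := by intro δ z i; simp
  transversal := by intro z; simp
  growth := by
    intro s Y _ M
    refine ⟨0, 0, fun ζ i _ _ => ?_⟩
    simp

/-- The derivative of the period with respect to the coordinate of the punctured plane. -/
noncomputable def t1 (w : ℂ) : ℂ := dx (lamC X) V.tauC w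

/-- The second derivative. -/
noncomputable def t2 (w : ℂ) : ℂ := dx (lamC X) V.t1 w

/-- The third derivative. -/
noncomputable def t3 (w : ℂ) : ℂ := dx (lamC X) V.t2 w

/-- The factor of the derivative of the extension period. -/
noncomputable def gC (w : ℂ) : ℂ := dx (lamC X) (V.vC (Fin.last k)) w

/-- The automorphy factor. -/
noncomputable def jf (γ : X.P) (w : ℂ) : ℂ :=
  (V.ρ γ 1 0 : ℂ) * V.tauC w + (V.ρ γ 1 1 : ℂ)

/-- The discriminant at the period. -/
noncomputable def del (w : ℂ) : ℂ := ModularForm.discriminant (V.τ (ofComplex w))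

/-- The first invariant function. -/
noncomputable def psi1 (w : ℂ) : ℂ := V.t1 w ^ 6 * V.del w

/-- The second invariant function. -/
noncomputable def psi2 (w : ℂ) : ℂ :=
  (V.t1 w * V.t3 w - 3 / 2 * V.t2 w ^ 2) * V.t1 w ^ 4 * V.del w

/-- The third invariant function. -/
noncomputable def mm (w : ℂ) : ℂ := V.gC w ^ 2 * V.t1 w ^ k

end Variation

/-- The quadratic polynomial attached to a unipotent matrix. -/
noncomputable def nb (γ : SL(2, ℤ)) : Fin 3 → ℂ :=
  ![(γ 0 1 : ℂ), (γ 0 0 : ℂ) - (γ 1 1 : ℂ), -(γ 1 0 : ℂ)]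

/-- The normal form of the period at an end. -/
structure EndForm (V : Variation k X) (s : ℂ → ℍ) (Y : ℝ) where
  n : ℕ
  hn : 0 < n
  p : X.P
  hp : ∀ ζ : ℂ, Y < ζ.im → s (ζ + n) = (p : SL(2, ℝ)) • s ζ
  M : SL(2, ℤ)
  m : ℕ
  hρ : M * V.ρ p = ModularGroup.T ^ m * M
  F : ℂ → ℂ
  hF : AnalyticAt ℂ F 0
  hF0 : m = 0 → 0 < (F 0).im
  Y' : ℝ
  hY : Y ≤ Y'
  hτ : ∀ ζ : ℂ, Y' < ζ.im → ((M • V.τ (s ζ) : ℍ) : ℂ) = m * (ζ / n) + F (ee (ζ / n))

/-- Holomorphic functions near `i∞` with at most exponential growth in vertical strips. -/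
def SG (f : ℂ → ℂ) : Prop := ∃ Y : ℝ, 0 ≤ Y ∧ (∀ ζ : ℂ, Y < ζ.im → DifferentiableAt ℂ f ζ) ∧
  ∀ R : ℝ, ∃ C : ℝ, ∀ ζ : ℂ, |ζ.re| ≤ R → Y + 1 ≤ ζ.im → ‖f ζ‖ ≤ Real.exp (C * ζ.im)

end Pool.Agent.LibSym94
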