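import Pool.Agent.LibSym94.PerDefs

/-!
# Algebraic independence of the jets of the period map: definitions
-/

open UpperHalfPlane Matrix Filter Topology MvPolynomial
open scoped MatrixGroups ComplexConjugate
open Pool.Agent.LibUB33 (Curve ee)
open Pool.Agent.LibEis68 (form act)

namespace Pool.Agent.LibSym94

/-- The coordinates of the jet space. -/
abbrev JI (k : ℕ) : Type := Fin 4 ⊕ Fin (k + 1)

/-- The vector field on the jet space attached to an element of `sl₂ ⋉ Sym^k`. -/
noncomputable def xi (k : ℕ) (b : Fin 3 → ℂ) (a : Fin (k + 1) → ℂ) :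
    Derivation ℂ (MvPolynomial (JI k) ℂ) (MvPolynomial (JI k) ℂ) :=
  MvPolynomial.mkDerivation ℂ (Sum.elim
    ![0,
      C (b 0) + C (b 1) * X (Sum.inl 1) + C (b 2) * X (Sum.inl 1) ^ 2,
      (C (b 1) + 2 * C (b 2) * X (Sum.inl 1)) * X (Sum.inl 2),
      (C (b 1) + 2 * C (b 2) * X (Sum.inl 1)) * X (Sum.inl 3) + 2 * C (b 2) * X (Sum.inl 2) ^ 2]
    (fun j => (∑ l, C (slm k b j l) * X (Sum.inr l)) + C (a j)))

variable {k : ℕ} {X : Curve}

namespace Variation

variable (V : Variation k X)

/-- The relation `P` holds between the jets. -/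
def Rel (P : MvPolynomial (JI k) ℂ) : Prop :=
  ∀ w : ℂ, 0 < w.im → MvPolynomial.eval (jetpt (lamC X) V.tauC V.vC w) P = 0

/-- The vector field attached to `(b, a)` respects the relations. -/
def Stab (b : Fin 3 → ℂ) (a : Fin (k + 1) → ℂ) : Prop := ∀ P, V.Rel P → V.Rel (xi k b a P)

/-- The action of the fundamental group on forms. -/
noncomputable def aff (γ : X.P) (n : Fin (k + 1) → ℂ) : Fin (k + 1) → ℂ :=
  (act k (V.ρ γ)).map (algebraMap ℚ ℂ) *ᵥ n + fun j => (V.c γ j : ℂ)

/-- The function of weight `-k` attached to a vector. -/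
noncomputable def pw (n : Fin (k + 1) → ℂ) (z : ℍ) : ℂ := (toP (V.v z - n)).eval (V.τ z : ℂ)

end Variation

end Pool.Agent.LibSym94
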